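import Mathlib

open scoped commutatorElement

namespace H94Simple

/-- The lower central series: `lcs G 0 = G`, `lcs G (n+1) = [lcs G n, G]`. -/
def lcs (G : Type*) [Group G] (n : ℕ) : Subgroup G := (⊤ : Subgroup G).lowerCentralSeries n

variable {G : Type*} [Group G]

theorem lcs_zero : lcs G 0 = ⊤ := rfl
theorem lcs_succ (n : ℕ) : lcs G (n+1) = ⁅lcs G n, (⊤ : Subgroup G)⁆ := rfl
theorem lcs_one : lcs G 1 = commutator G := rfl

instance lcs_normal (n : ℕ) : (lcs G n).Normal := by
  unfold lcs; infer_instance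

/-- projection -/
def pr (G : Type*) [Group G] (n : ℕ) : G →* G ⧸ lcs G n := QuotientGroup.mk' (lcs G n)

theorem pr_eq_one (n : ℕ) (x : G) : pr G n x = 1 ↔ x ∈ lcs G n := by
  unfold pr; exact QuotientGroup.eq_one_iff _

theorem pr_eq (n : ℕ) (x y : G) : pr G n x = pr G n y ↔ x⁻¹ * y ∈ lcs G n := by
  unfold pr; exact QuotientGroup.eq

theorem pr_surj (n : ℕ) : Function.Surjective (pr G n) := QuotientGroup.mk'_surjective _

/-- modulo `lcs (n+2)`, commutators of `lcs n` with anything are central -/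
theorem comm_central (n : ℕ) {w : G} (hw : w ∈ lcs G n) (t : G) (g : G ⧸ lcs G (n+2)) :
    g * pr G (n+2) ⁅w, t⁆ = pr G (n+2) ⁅w, t⁆ * g := by
  obtain ⟨y, rfl⟩ := pr_surj _ g
  have h1 : ⁅w, t⁆ ∈ lcs G (n+1) := by
    rw [lcs_succ]
    exact Subgroup.commutator_mem_commutator hw (Subgroup.mem_top t)
  have h2 : ⁅⁅w, t⁆, y⁆ ∈ lcs G (n+2) := by
    rw [lcs_succ (n+1)]
    exact Subgroup.commutator_mem_commutator h1 (Subgroup.mem_top y)
  have h3 : ⁅pr G (n+2) ⁅w, t⁆, pr G (n+2) y⁆ = 1 := by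
    rw [← map_commutatorElement]
    exact (pr_eq_one _ _).2 h2
  exact (commutatorElement_eq_one_iff_mul_comm.1 h3).symm

/-- the homomorphism `t ↦ [w, t]` into the quotient. -/
def rightHom (n : ℕ) (w : lcs G n) : G →* G ⧸ lcs G (n+2) where
  toFun t := pr G (n+2) ⁅(w : G), t⁆
  map_one' := by simp
  map_mul' s t := by
    have h : ⁅(w : G), s * t⁆ = ⁅(w : G), s⁆ * (s * ⁅(w : G), t⁆ * s⁻¹) := by
      simp only [commutatorElement_def]; group
    have hc := comm_central n w.2 t (pr G (n+2) s)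
    rw [h, map_mul, map_mul, map_mul, map_inv, hc, mul_assoc, mul_inv_cancel, mul_one]

/-- the homomorphism `w ↦ [w, t]` into the quotient. -/
def leftHom (n : ℕ) (t : G) : lcs G n →* G ⧸ lcs G (n+2) where
  toFun w := pr G (n+2) ⁅(w : G), t⁆
  map_one' := by simp
  map_mul' v w := by
    have h : ⁅(v : G) * w, t⁆ = (v * ⁅(w : G), t⁆ * (v : G)⁻¹) * ⁅(v : G), t⁆ := by
      simp only [commutatorElement_def]; group
    have hc := comm_central n w.2 t (pr G (n+2) v)
    have hc2 := comm_central n w.2 t (pr G (n+2) ⁅(v : G), t⁆)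
    rw [Subgroup.coe_mul, h, map_mul, map_mul, map_mul, map_inv, hc, mul_assoc (pr G (n+2) ⁅(w : G), t⁆),
      mul_inv_cancel, mul_one]
    exact hc2.symm

/-- central subgroup spanned by commutators with the entries of `l`. -/
def C (n : ℕ) (l : List G) : Subgroup (G ⧸ lcs G (n+2)) := ⨆ s ∈ l, (leftHom n s).range

theorem C_le_center (n : ℕ) (l : List G) : C n l ≤ Subgroup.center _ := by
  unfold C
  refine iSup₂_le fun s _ => ?_
  rintro _ ⟨w, rfl⟩
  rw [Subgroup.mem_center_iff]
  exact fun g => comm_central n w.2 s g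

instance C_normal (n : ℕ) (l : List G) : (C n l).Normal := by
  constructor
  intro c hc g
  have := (Subgroup.mem_center_iff.1 (C_le_center n l hc)) g
  rw [this, mul_assoc, mul_inv_cancel, mul_one]
  exact hc

/-- key step -/
theorem exists_conj_list (n : ℕ) (l : List G) :
    ∀ c ∈ C n l, ∃ l' : List G, List.Forall₂ IsConj l l' ∧
        pr G (n+2) l'.prod = c * pr G (n+2) l.prod := by
  induction l with
  | nil =>
    intro c hc
    refine ⟨[], List.Forall₂.nil, ?_⟩
    have : c = 1 := by simpa [C] using hc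
    rw [this]; simp
  | cons s l ih =>
    intro c hc
    have hsup : C n (s :: l) = (leftHom n s).range ⊔ C n l := by
      unfold C
      simp only [List.mem_cons, iSup_or, iSup_sup_eq, iSup_iSup_eq_left]
    rw [hsup] at hc
    obtain ⟨c1, hc1, c2, hc2, rfl⟩ := Subgroup.mem_sup_of_normal_right.1 hc
    obtain ⟨w, rfl⟩ := hc1
    obtain ⟨l', hl', hl'2⟩ := ih c2 hc2
    refine ⟨((w : G) * s * (w : G)⁻¹) :: l', List.Forall₂.cons ?_ hl', ?_⟩
    · exact isConj_iff.2 ⟨w, rfl⟩
    · have e1 : (w : G) * s * (w : G)⁻¹ = ⁅(w : G), s⁆ * s := by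
        simp only [commutatorElement_def]; group
      have hc := Subgroup.mem_center_iff.1 (C_le_center n l hc2) (pr G (n+2) s)
      have e2 : leftHom n s w = pr G (n+2) ⁅(w : G), s⁆ := rfl
      rw [List.prod_cons, List.prod_cons, e1, map_mul, map_mul, map_mul, hl'2, e2, mul_assoc,
        ← mul_assoc (pr G (n+2) s), hc]
      simp only [mul_assoc]

theorem lcs_le (n : ℕ) (l : List G)
    (hl : Subgroup.closure {s | s ∈ l} ⊔ lcs G 1 = ⊤) (r : G)
    (hr : r ∈ lcs G (n+1)) : pr G (n+2) r ∈ C n l := by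
  have key : ∀ w : lcs G n, ∀ t : G, rightHom n w t ∈ C n l := by
    intro w
    have h1 : Subgroup.closure {s | s ∈ l} ⊔ lcs G 1 ≤ (C n l).comap (rightHom n w) := by
      refine sup_le ?_ ?_
      · rw [Subgroup.closure_le]
        intro s hs
        have h2 : (leftHom n s).range ≤ C n l := le_iSup₂_of_le s hs le_rfl
        exact h2 ⟨w, rfl⟩
      · have h2 : lcs G 1 ≤ (rightHom n w).ker := by
          rw [lcs_succ, Subgroup.commutator_le]
          intro x _ y _
          rw [MonoidHom.mem_ker, map_commutatorElement, commutatorElement_eq_one_iff_mul_comm]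
          exact comm_central n w.2 y (rightHom n w x)
        intro x hx
        have := h2 hx
        rw [MonoidHom.mem_ker] at this
        rw [Subgroup.mem_comap, this]; exact one_mem _
    intro t
    have := h1 (by rw [hl]; exact Subgroup.mem_top t)
    exact this
  have h3 : lcs G (n+1) ≤ (C n l).comap (pr G (n+2)) := by
    rw [lcs_succ, Subgroup.commutator_le]
    intro w hw t _
    exact key ⟨w, hw⟩ t
  exact h3 hr

theorem Forall₂_trans {l1 l2 l3 : List G} (h1 : List.Forall₂ IsConj l1 l2)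
    (h2 : List.Forall₂ IsConj l2 l3) : List.Forall₂ IsConj l1 l3 := by
  induction h1 generalizing l3 with
  | nil => cases h2; exact List.Forall₂.nil
  | cons ha _ ih => cases h2 with
    | cons hb hb' => exact List.Forall₂.cons (ha.trans hb) (ih hb')

/-- closure mod commutators does not change under conjugating the entries. -/
theorem closure_forall₂ {l l' : List G} (h : List.Forall₂ IsConj l l')
    (hl : Subgroup.closure {s | s ∈ l} ⊔ lcs G 1 = ⊤) :
    Subgroup.closure {s | s ∈ l'} ⊔ lcs G 1 = ⊤ := by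
  rw [eq_top_iff, ← hl]
  refine sup_le ?_ le_sup_right
  rw [Subgroup.closure_le]
  intro s hs
  have : ∃ s' ∈ l', IsConj s s' := by
    clear hl
    induction h with
    | nil => simp at hs
    | cons ha _ ih =>
      rename_i a b l1 l2 _
      simp only [Set.mem_ofPred_eq, List.mem_cons] at hs
      rcases hs with rfl | hs
      · exact ⟨b, by simp, ha⟩
      · obtain ⟨s', h1, h2⟩ := ih hs
        exact ⟨s', by simp [h1], h2⟩
  obtain ⟨s', hs', hc⟩ := this
  obtain ⟨w, hw⟩ := isConj_iff.1 hc.symm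
  have e : s = ⁅w, s'⁆ * s' := by rw [← hw, commutatorElement_def]; group
  rw [SetLike.mem_coe, e]
  refine mul_mem ?_ ?_
  · refine Subgroup.mem_sup_right ?_
    rw [lcs_succ]
    exact Subgroup.commutator_mem_commutator (Subgroup.mem_top _) (Subgroup.mem_top _)
  · exact Subgroup.mem_sup_left (Subgroup.subset_closure hs')

theorem cover (l : List G)
    (hl : Subgroup.closure {s | s ∈ l} ⊔ lcs G 1 = ⊤) (h : G)
    (hh : l.prod⁻¹ * h ∈ lcs G 1) (n : ℕ) :
    ∃ l' : List G, List.Forall₂ IsConj l l' ∧ l'.prod⁻¹ * h ∈ lcs G (n+1) := by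
  induction n with
  | zero => exact ⟨l, List.forall₂_same.2 (fun x _ => IsConj.refl x), hh⟩
  | succ n ih =>
    obtain ⟨l', hl', hr⟩ := ih
    have hl2 := closure_forall₂ hl' hl
    -- r conjugated to the left side
    have hr' : h * l'.prod⁻¹ ∈ lcs G (n+1) := by
      have := (lcs_normal (n+1)).conj_mem _ hr l'.prod
      simpa [mul_assoc] using this
    obtain ⟨l'', h1, h2⟩ := exists_conj_list n l' _ (lcs_le n l' hl2 _ hr')
    refine ⟨l'', Forall₂_trans hl' h1, ?_⟩
    rw [← map_mul] at h2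
    have h3 : pr G (n+2) l''.prod = pr G (n+2) h := by
      rw [h2]; congr 1; group
    exact (pr_eq _ _ _).1 h3


/-! ### word length, diameter -/

open scoped unitInterval

/-- `g` is the product of the entries of `l`, all of them in `T ∪ T⁻¹`. -/
def IsWord (T : Set G) (l : List G) (g : G) : Prop :=
  (∀ x ∈ l, x ∈ T ∨ x⁻¹ ∈ T) ∧ l.prod = g

/-- The word length of `g` with respect to `T` (`⊤` if `g` is not a product of elements of
`T ∪ T⁻¹`). -/
noncomputable def wordLen (T : Set G) (g : G) : ℕ∞ :=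
  ⨅ l : {l : List G // IsWord T l g}, (l.1.length : ℕ∞)

/-- The diameter of the group `G` with respect to `T`. -/
noncomputable def diam (T : Set G) : ℕ∞ := ⨆ g : G, wordLen T g

/-- The diameter `d_n` of `G / lcs G n` with respect to the image of `S`. -/
noncomputable def dia (S : Set G) (n : ℕ) : ℕ∞ := diam (pr G n '' S)

theorem wordLen_le {T : Set G} {g : G} (l : List G) (h : IsWord T l g) :
    wordLen T g ≤ l.length := iInf_le (fun l : {l : List G // IsWord T l g} => (l.1.length : ℕ∞)) ⟨l, h⟩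

theorem le_wordLen {T : Set G} {g : G} {k : ℕ∞} (h : ∀ l, IsWord T l g → k ≤ l.length) :
    k ≤ wordLen T g := le_iInf fun l => h l.1 l.2

theorem exists_word {T : Set G} {g : G} {k : ℕ} (h : wordLen T g ≤ k) :
    ∃ l, IsWord T l g ∧ l.length ≤ k := by
  by_contra hcon
  push Not at hcon
  have : ((k + 1 : ℕ) : ℕ∞) ≤ wordLen T g := le_wordLen fun l hl => by
    exact_mod_cast hcon l hl
  have h2 := this.trans h
  have h3 : k + 1 ≤ k := by exact_mod_cast h2
  omega

theorem diam_le {T : Set G} {k : ℕ} (h : ∀ g, ∃ l, IsWord T l g ∧ l.length ≤ k) :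
    diam T ≤ k := iSup_le fun g => by
  obtain ⟨l, hl, hk⟩ := h g
  exact (wordLen_le l hl).trans (by exact_mod_cast hk)

theorem lift_word (S : Set G) (n : ℕ) (L : List (G ⧸ lcs G n))
    (hL : ∀ x ∈ L, x ∈ pr G n '' S ∨ x⁻¹ ∈ pr G n '' S) :
    ∃ l : List G, (∀ x ∈ l, x ∈ S ∨ x⁻¹ ∈ S) ∧ l.length = L.length ∧ pr G n l.prod = L.prod := by
  induction L with
  | nil => exact ⟨[], by simp, rfl, by simp⟩
  | cons a L ih =>
    obtain ⟨l, h1, h2, h3⟩ := ih (fun x hx => hL x (List.mem_cons_of_mem _ hx))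
    have : ∃ b : G, (b ∈ S ∨ b⁻¹ ∈ S) ∧ pr G n b = a := by
      rcases hL a (by simp) with ⟨b, hb, rfl⟩ | ⟨b, hb, hb2⟩
      · exact ⟨b, Or.inl hb, rfl⟩
      · exact ⟨b⁻¹, Or.inr (by simpa using hb), by rw [map_inv, hb2, inv_inv]⟩
    obtain ⟨b, hb, rfl⟩ := this
    refine ⟨b :: l, ?_, by simp [h2], by simp [h3]⟩
    intro x hx
    rcases List.mem_cons.1 hx with rfl | hx
    · exact hb
    · exact h1 x hx

/-- From `k` elements of `S` which generate modulo commutators and multiply to `h` modulo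
commutators, one gets `h` as a product of `k` elements of `S` in every nilpotent quotient. -/
theorem word_of_cover {S : Set G} (hS : ∀ s ∈ S, ∀ g : G, g * s * g⁻¹ ∈ S) (l : List G)
    (hlS : ∀ x ∈ l, x ∈ S ∨ x⁻¹ ∈ S)
    (hl : Subgroup.closure {s | s ∈ l} ⊔ lcs G 1 = ⊤) (h : G)
    (hh : pr G 1 l.prod = pr G 1 h) {n : ℕ} (hn : 1 ≤ n) :
    ∃ L, IsWord (pr G n '' S) L (pr G n h) ∧ L.length = l.length := by
  obtain ⟨m, rfl⟩ := Nat.exists_eq_add_of_le' hn
  obtain ⟨l', h1, h2⟩ := cover l hl h ((pr_eq _ _ _).1 hh) m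
  refine ⟨l'.map (pr G (m+1)), ⟨?_, ?_⟩, ?_⟩
  · have h3 : ∀ x ∈ l', x ∈ S ∨ x⁻¹ ∈ S := by
      clear hl hh h2
      induction h1 with
      | nil => simp
      | cons hab _ ih =>
        rename_i a b l1 l2 _
        intro x hx
        rcases List.mem_cons.1 hx with rfl | hx
        · obtain ⟨w, hw⟩ := isConj_iff.1 hab
          rcases hlS a (by simp) with ha | ha
          · left; rw [← hw]; exact hS a ha w
          · right
            have := hS _ ha w
            rw [← hw]
            simpa [mul_assoc] using this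
        · exact ih (fun x hx => hlS x (List.mem_cons_of_mem _ hx)) x hx
    intro x hx
    obtain ⟨y, hy, rfl⟩ := List.mem_map.1 hx
    rcases h3 y hy with h | h
    · exact Or.inl ⟨y, h, rfl⟩
    · exact Or.inr ⟨y⁻¹, h, by simp⟩
  · rw [← map_list_prod]
    exact (pr_eq _ _ _).2 h2
  · rw [List.length_map, ← h1.length_eq]

theorem dia_le {S : Set G} (hS : ∀ s ∈ S, ∀ g : G, g * s * g⁻¹ ∈ S) {n k : ℕ} (hn : 1 ≤ n)
    (H : ∀ h : G, ∃ l : List G, (∀ x ∈ l, x ∈ S ∨ x⁻¹ ∈ S) ∧
      Subgroup.closure {s | s ∈ l} ⊔ lcs G 1 = ⊤ ∧ pr G 1 l.prod = pr G 1 h ∧ l.length ≤ k) :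
    dia S n ≤ k := by
  refine diam_le fun q => ?_
  obtain ⟨h, rfl⟩ := pr_surj n q
  obtain ⟨l, h1, h2, h3, h4⟩ := H h
  obtain ⟨L, hL, hL2⟩ := word_of_cover hS l h1 h2 h h3 hn
  exact ⟨L, hL, hL2.trans_le h4⟩

/-- Abstract uniform bound: if `k` elements of the conjugation invariant set `S` generate `G`,
then `d_n ≤ d_1 + 2 k`. -/
theorem abstract_bound {S : Set G} (hS : ∀ s ∈ S, ∀ g : G, g * s * g⁻¹ ∈ S) (T : Finset G)
    (hT : ∀ t ∈ T, t ∈ S) (hgen : Subgroup.closure (T : Set G) = ⊤) {n : ℕ} (hn : 1 ≤ n) :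
    dia S n ≤ dia S 1 + 2 * T.card := by
  by_cases htop : dia S 1 = ⊤
  · rw [htop]; simp
  obtain ⟨D, hD⟩ := ENat.ne_top_iff_exists.1 htop
  rw [← hD]
  have e : ((D : ℕ∞) + 2 * (T.card : ℕ∞)) = ((D + 2 * T.card : ℕ) : ℕ∞) := by push_cast; rfl
  rw [e]
  refine dia_le hS hn fun h => ?_
  have h1 : wordLen (pr G 1 '' S) (pr G 1 h) ≤ D := by
    rw [hD]; exact le_iSup (fun g => wordLen (pr G 1 '' S) g) (pr G 1 h)
  obtain ⟨L, ⟨hL1, hL2⟩, hL3⟩ := exists_word h1
  obtain ⟨l0, h2, h3, h4⟩ := lift_word S 1 L hL1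
  have key : ∀ (M : List G), (M.flatMap fun t => [t⁻¹, t]).prod = 1 ∧
      (M.flatMap fun t => [t⁻¹, t]).length = 2 * M.length := by
    intro M
    induction M with
    | nil => simp
    | cons a M ih =>
      constructor
      · simp [ih.1]
      · simp only [List.flatMap_cons, List.length_append, ih.2, List.length_cons, List.length_nil]
        omega
  refine ⟨l0 ++ (T.toList.flatMap fun t => [t⁻¹, t]), ?_, ?_, ?_, ?_⟩
  · intro x hx
    rcases List.mem_append.1 hx with hx | hx
    · exact h2 x hx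
    · obtain ⟨t, ht, hx⟩ := List.mem_flatMap.1 hx
      have ht' := hT t (by simpa using ht)
      simp only [List.mem_cons, List.not_mem_nil, or_false] at hx
      rcases hx with rfl | rfl
      · right; simpa using ht'
      · left; exact ht'
  · rw [eq_top_iff, ← hgen]
    refine le_trans ?_ le_sup_left
    refine Subgroup.closure_mono fun t ht => ?_
    simp only [Set.mem_ofPred_eq, List.mem_append, List.mem_flatMap]
    right
    exact ⟨t, by simpa using ht, by simp⟩
  · rw [List.prod_append, (key _).1, mul_one, h4, hL2]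
  · rw [List.length_append, (key _).2, Finset.length_toList, h3]
    omega

/-! ### simple closed curves in a topological space -/

/-- The elements of `π₁(X, x)` whose conjugacy class is represented by a simple closed curve:
the classes of loops `p · c · p⁻¹` with `p` a path from `x` to `y` and `c` a loop at `y` which is
injective on `[0, 1)`. -/
def simpleLoops (X : Type*) [TopologicalSpace X] (x : X) : Set (FundamentalGroup X x) :=
  {α | ∃ (y : X) (p : Path x y) (c : Path y y), Set.InjOn c (Set.Ico (0 : I) 1) ∧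
    α = FundamentalGroup.fromPath (Path.Homotopic.Quotient.mk ((p.trans c).trans p.symm))}

theorem simpleLoops_conj {X : Type*} [TopologicalSpace X] {x : X} :
    ∀ s ∈ simpleLoops X x, ∀ g : FundamentalGroup X x, g * s * g⁻¹ ∈ simpleLoops X x := by
  rintro s ⟨y, p, c, hc, rfl⟩ g
  obtain ⟨q, hq⟩ := Path.Homotopic.Quotient.mk_surjective (g⁻¹ : FundamentalGroup X x)
  refine ⟨y, q.trans p, c, hc, ?_⟩
  have hg : g = (g⁻¹ : FundamentalGroup X x)⁻¹ := (inv_inv g).symm
  rw [hg]
  generalize g⁻¹ = k at hq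
  subst hq
  rw [inv_inv]
  rw [FundamentalGroup.mul_def, FundamentalGroup.mul_def, FundamentalGroup.inv_def]
  simp only [Path.Homotopic.Quotient.mk_trans, Path.Homotopic.Quotient.mk_symm, Path.trans_symm,
    Path.Homotopic.Quotient.trans_assoc]


end H94Simple
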