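import Pool.Agent.H94.SccA

open scoped commutatorElement

namespace H94Simple

/-! ### surface groups -/

/-- Standard generators of the fundamental group of an orientable surface of genus `g` with `b`
punctures. -/
inductive Gen (g b : ℕ)
  | a (i : Fin g)
  | b (i : Fin g)
  | c (j : Fin b)

/-- The relator `[a₁,b₁]⋯[a_g,b_g] c₁⋯c_b`. -/
def relator (g b : ℕ) : FreeGroup (Gen g b) :=
  (List.ofFn fun i : Fin g => ⁅FreeGroup.of (Gen.a i : Gen g b), FreeGroup.of (Gen.b i)⁆).prod *
    (List.ofFn fun j : Fin b => FreeGroup.of (Gen.c j : Gen g b)).prod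

/-- The fundamental group of the orientable surface of genus `g` with `b` punctures. -/
abbrev Surf (g b : ℕ) : Type := PresentedGroup ({relator g b} : Set (FreeGroup (Gen g b)))

/-- the generators in the surface group -/
def A {g b : ℕ} (i : Fin g) : Surf g b := PresentedGroup.of (Gen.a i)
def B {g b : ℕ} (i : Fin g) : Surf g b := PresentedGroup.of (Gen.b i)
def P {g b : ℕ} (j : Fin b) : Surf g b := PresentedGroup.of (Gen.c j)

/-- Automorphisms which permute the classes of the loops around the punctures, all of them keeping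
or all of them reversing their orientation. By the Dehn–Nielsen–Baer theorem these are the
automorphisms induced by the homeomorphisms of the surface. -/
def IsGeometric {g b : ℕ} (φ : Surf g b ≃* Surf g b) : Prop :=
  ∃ (ε : ℤˣ) (σ : Equiv.Perm (Fin b)), ∀ j, IsConj (φ (P j)) (P (σ j) ^ (ε : ℤ))

/-- The loop which separates the last `h` handles and the first `k` punctures from the rest:
`[a_{g-h+1}, b_{g-h+1}] ⋯ [a_g, b_g] c_1 ⋯ c_k`. -/
def sep (g b h k : ℕ) : Surf g b :=
  (List.ofFn fun i : Fin g => if g ≤ i + h then ⁅(A i : Surf g b), B i⁆ else 1).prod *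
    (List.ofFn fun j : Fin b => if (j : ℕ) < k then (P j : Surf g b) else 1).prod

/-- The set of the elements whose conjugacy class is represented by a simple closed curve. -/
def simple (g b : ℕ) : Set (Surf g b) :=
  {s | ∃ φ : Surf g b ≃* Surf g b, IsGeometric φ ∧
    ((∃ i, s = φ (A i) ∨ s = (φ (A i))⁻¹) ∨
     (∃ h k, h ≤ g ∧ k ≤ b ∧ (s = φ (sep g b h k) ∨ s = (φ (sep g b h k))⁻¹)))}

section basics

variable {g b : ℕ}

theorem isGeometric_refl : IsGeometric (MulEquiv.refl (Surf g b)) :=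
  ⟨1, Equiv.refl _, fun j => by simpa using IsConj.refl (P j : Surf g b)⟩

theorem isGeometric_of_conj (φ : Surf g b ≃* Surf g b) (h : ∀ j, IsConj (φ (P j)) (P j)) :
    IsGeometric φ := ⟨1, Equiv.refl _, fun j => by simpa using h j⟩

theorem isConj_zpow {G : Type*} [Group G] {x y : G} (h : IsConj x y) (n : ℤ) :
    IsConj (x ^ n) (y ^ n) := by
  obtain ⟨c, hc⟩ := isConj_iff.1 h
  exact isConj_iff.2 ⟨c, by rw [← hc, conj_zpow]⟩

theorem isConj_map' {G : Type*} [Group G] {x y : G} (h : IsConj x y) (φ : G ≃* G) :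
    IsConj (φ x) (φ y) := by
  obtain ⟨c, hc⟩ := isConj_iff.1 h
  exact isConj_iff.2 ⟨φ c, by rw [← hc]; simp⟩

theorem IsGeometric.trans {φ ψ : Surf g b ≃* Surf g b} (hφ : IsGeometric φ) (hψ : IsGeometric ψ) :
    IsGeometric (φ.trans ψ) := by
  obtain ⟨ε, σ, h⟩ := hφ
  obtain ⟨δ, τ, h'⟩ := hψ
  refine ⟨δ * ε, σ.trans τ, fun j => ?_⟩
  have h1 := isConj_map' (h j) ψ
  rw [map_zpow] at h1
  have h2 := isConj_zpow (h' (σ j)) (ε : ℤ)
  rw [← zpow_mul] at h2
  have := h1.trans h2
  simpa using this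

theorem isGeometric_conj (x : Surf g b) : IsGeometric (MulAut.conj x) :=
  isGeometric_of_conj _ fun j => (isConj_iff.2 ⟨x, rfl⟩ : IsConj (P j) (MulAut.conj x (P j))).symm

theorem simple_conj : ∀ s ∈ simple g b, ∀ x : Surf g b, x * s * x⁻¹ ∈ simple g b := by
  rintro s ⟨φ, hφ, h⟩ x
  refine ⟨φ.trans (MulAut.conj x), hφ.trans (isGeometric_conj x), ?_⟩
  rcases h with ⟨i, h | h⟩ | ⟨m, k, hm, hk, h | h⟩
  · left; exact ⟨i, Or.inl (by rw [h]; rfl)⟩
  · left; refine ⟨i, Or.inr ?_⟩
    rw [h]; simp [mul_assoc]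
  · right; exact ⟨m, k, hm, hk, Or.inl (by rw [h]; rfl)⟩
  · right; refine ⟨m, k, hm, hk, Or.inr ?_⟩
    rw [h]; simp [mul_assoc]

theorem simple_image {s : Surf g b} (hs : s ∈ simple g b) {ψ : Surf g b ≃* Surf g b}
    (hψ : IsGeometric ψ) : ψ s ∈ simple g b := by
  obtain ⟨φ, hφ, h⟩ := hs
  refine ⟨φ.trans ψ, hφ.trans hψ, ?_⟩
  rcases h with ⟨i, h | h⟩ | ⟨m, k, hm, hk, h | h⟩
  · left; exact ⟨i, Or.inl (by rw [h]; rfl)⟩
  · left; exact ⟨i, Or.inr (by rw [h]; simp)⟩
  · right; exact ⟨m, k, hm, hk, Or.inl (by rw [h]; rfl)⟩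
  · right; exact ⟨m, k, hm, hk, Or.inr (by rw [h]; simp)⟩

theorem simple_A (i : Fin g) : (A i : Surf g b) ∈ simple g b :=
  ⟨MulEquiv.refl _, isGeometric_refl, Or.inl ⟨i, Or.inl rfl⟩⟩

/-- the relation -/
theorem relation : (List.ofFn fun i : Fin g => ⁅(A i : Surf g b), B i⁆).prod *
    (List.ofFn fun j : Fin b => (P j : Surf g b)).prod = 1 := by
  have h : (PresentedGroup.mk ({relator g b} : Set (FreeGroup (Gen g b)))) (relator g b) = 1 :=
    PresentedGroup.one_of_mem rfl
  rw [relator, map_mul, map_list_prod, map_list_prod, List.map_ofFn, List.map_ofFn] at h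
  exact h

/-- homomorphisms out of the surface group -/
def liftHom {H : Type*} [Group H] (fa fb : Fin g → H) (fc : Fin b → H)
    (h : (List.ofFn fun i : Fin g => ⁅fa i, fb i⁆).prod * (List.ofFn fc).prod = 1) :
    Surf g b →* H :=
  PresentedGroup.toGroup (f := fun x => match x with
    | Gen.a i => fa i
    | Gen.b i => fb i
    | Gen.c j => fc j) (by
      intro r hr
      rw [Set.mem_singleton_iff.1 hr, relator, map_mul, map_list_prod, map_list_prod,
        List.map_ofFn, List.map_ofFn]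
      rw [← h]
      congr 1
      · congr 2
        funext i
        simp [map_commutatorElement]
      · congr 2
        funext i
        simp)

@[simp] theorem liftHom_A {H : Type*} [Group H] (fa fb : Fin g → H) (fc : Fin b → H) (h)
    (i : Fin g) : liftHom fa fb fc h (A i) = fa i := by
  simp [liftHom, A]

@[simp] theorem liftHom_B {H : Type*} [Group H] (fa fb : Fin g → H) (fc : Fin b → H) (h)
    (i : Fin g) : liftHom fa fb fc h (B i) = fb i := by
  simp [liftHom, B]

@[simp] theorem liftHom_P {H : Type*} [Group H] (fa fb : Fin g → H) (fc : Fin b → H) (h)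
    (i : Fin b) : liftHom fa fb fc h (P i) = fc i := by
  simp [liftHom, P]

theorem hom_ext' {H : Type*} [Group H] {f f' : Surf g b →* H} (ha : ∀ i, f (A i) = f' (A i))
    (hb : ∀ i, f (B i) = f' (B i)) (hc : ∀ i, f (P i) = f' (P i)) : f = f' := by
  apply PresentedGroup.ext
  intro x
  cases x with
  | a i => exact ha i
  | b i => exact hb i
  | c i => exact hc i

theorem closure_gens (M : Subgroup (Surf g b)) (ha : ∀ i, (A i) ∈ M) (hb : ∀ i, (B i) ∈ M)
    (hc : ∀ j, P j ∈ M) : M = ⊤ := by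
  rw [eq_top_iff, ← PresentedGroup.closure_range_of, Subgroup.closure_le]
  rintro _ ⟨x, rfl⟩
  cases x with
  | a i => exact ha i
  | b i => exact hb i
  | c i => exact hc i

end basics

end H94Simple
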