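import Pool.Agent.H94.SccB

open scoped commutatorElement

namespace H94Simple

section lists

variable {G : Type*} [Group G]

theorem ofFn_prod_conj {b : ℕ} (x : G) (f : Fin b → G) :
    (List.ofFn fun j => x * f j * x⁻¹).prod = x * (List.ofFn f).prod * x⁻¹ := by
  have h := map_list_prod (MulAut.conj x) (List.ofFn f)
  rw [List.map_ofFn] at h
  rw [MulAut.conj_apply] at h
  rw [h]
  rfl

theorem ofFn_prod_split {b : ℕ} (f : Fin b → G) (k : ℕ) :
    (List.ofFn f).prod = (List.ofFn fun j => if (j : ℕ) < k then f j else 1).prod *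
      (List.ofFn fun j => if (j : ℕ) < k then 1 else f j).prod := by
  induction b generalizing k with
  | zero => simp
  | succ b ih =>
    cases k with
    | zero =>
      have h1 : (List.ofFn fun j : Fin (b+1) => if (j : ℕ) < 0 then f j else 1).prod = 1 := by
        apply List.prod_eq_one
        intro x hx
        obtain ⟨j, rfl⟩ := (List.mem_ofFn' _ _).1 hx
        simp
      rw [h1, one_mul]
      congr 2
    | succ k =>
      rw [List.ofFn_succ, List.ofFn_succ, List.ofFn_succ]
      simp only [List.prod_cons, Fin.val_zero, Nat.zero_lt_succ, if_true, one_mul, Fin.val_succ,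
        Nat.succ_lt_succ_iff]
      rw [ih (fun j => f j.succ) k, mul_assoc]

end lists

section twists

variable {g b : ℕ}

/-- the twist `A i ↦ A i * B i ^ κ i`. -/
def twA (κ : Fin g → ℤ) : Surf g b →* Surf g b :=
  liftHom (fun i => A i * B i ^ κ i) B P (by
    rw [← relation (g := g) (b := b)]
    congr 3
    funext i
    simp only [commutatorElement_def]; group)

def twB (κ : Fin g → ℤ) : Surf g b →* Surf g b :=
  liftHom A (fun i => B i * A i ^ κ i) P (by
    rw [← relation (g := g) (b := b)]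
    congr 3
    funext i
    simp only [commutatorElement_def]; group)

@[simp] theorem twA_A (κ : Fin g → ℤ) (i) : twA κ (A i : Surf g b) = A i * B i ^ κ i := by
  simp [twA]
@[simp] theorem twA_B (κ : Fin g → ℤ) (i) : twA κ (B i : Surf g b) = B i := by simp [twA]
@[simp] theorem twA_P (κ : Fin g → ℤ) (j) : twA κ (P j : Surf g b) = P j := by simp [twA]
@[simp] theorem twB_A (κ : Fin g → ℤ) (i) : twB κ (A i : Surf g b) = A i := by simp [twB]
@[simp] theorem twB_B (κ : Fin g → ℤ) (i) : twB κ (B i : Surf g b) = B i * A i ^ κ i := by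
  simp [twB]
@[simp] theorem twB_P (κ : Fin g → ℤ) (j) : twB κ (P j : Surf g b) = P j := by simp [twB]

def eqA (κ : Fin g → ℤ) : Surf g b ≃* Surf g b :=
  MonoidHom.toMulEquiv (twA κ) (twA (-κ))
    (by apply hom_ext' <;> intro i <;> simp [mul_assoc])
    (by apply hom_ext' <;> intro i <;> simp [mul_assoc])

def eqB (κ : Fin g → ℤ) : Surf g b ≃* Surf g b :=
  MonoidHom.toMulEquiv (twB κ) (twB (-κ))
    (by apply hom_ext' <;> intro i <;> simp [mul_assoc])
    (by apply hom_ext' <;> intro i <;> simp [mul_assoc])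

theorem eqA_apply (κ : Fin g → ℤ) (x : Surf g b) : eqA κ x = twA κ x := rfl
theorem eqB_apply (κ : Fin g → ℤ) (x : Surf g b) : eqB κ x = twB κ x := rfl

theorem geoA (κ : Fin g → ℤ) : IsGeometric (eqA κ : Surf g b ≃* Surf g b) :=
  isGeometric_of_conj _ fun j => by rw [eqA_apply, twA_P]

theorem geoB (κ : Fin g → ℤ) : IsGeometric (eqB κ : Surf g b ≃* Surf g b) :=
  isGeometric_of_conj _ fun j => by rw [eqB_apply, twB_P]

/-- `A i * B i ^ k` is simple. -/
theorem simple_X (i : Fin g) (k : ℤ) : (A i * B i ^ k : Surf g b) ∈ simple g b := by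
  have := simple_image (simple_A (b := b) i) (geoA (b := b) (fun _ => k))
  rwa [eqA_apply, twA_A] at this

/-- `A i * (B i * A i ^ r)` is simple. -/
theorem simple_Y (i : Fin g) (r : ℤ) : (A i * (B i * A i ^ r) : Surf g b) ∈ simple g b := by
  have := simple_image (simple_X (b := b) i 1) (geoB (b := b) (fun _ => r))
  rw [eqB_apply, map_mul, zpow_one, twB_A, twB_B] at this
  exact this

theorem simple_sep (h k : ℕ) (hh : h ≤ g) (hk : k ≤ b) : sep g b h k ∈ simple g b :=
  ⟨MulEquiv.refl _, isGeometric_refl, Or.inr ⟨h, k, hh, hk, Or.inl rfl⟩⟩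

end twists

section puncture

variable {g b : ℕ}

/-- the product of the first `k` punctures -/
def Q (g b k : ℕ) : Surf g b := (List.ofFn fun j : Fin b => if (j : ℕ) < k then P j else 1).prod

/-- the curve around the right side of the last handle and the first `k` punctures -/
def Gam (g b k : ℕ) : Surf (g+1) b := (B (Fin.last g))⁻¹ * Q (g+1) b k

def twP (k : ℕ) (m : ℤ) : Surf (g+1) b →* Surf (g+1) b :=
  liftHom (fun i => if i = Fin.last g then A i * (Gam g b k ^ m)⁻¹ else A i)
    (fun i => if i = Fin.last g then Gam g b k ^ m * B i * (Gam g b k ^ m)⁻¹ else B i)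
    (fun j => if (j : ℕ) < k then Gam g b k ^ m * P j * (Gam g b k ^ m)⁻¹ else P j) (by
    set x := Gam g b k ^ m with hx
    have h0 := relation (g := g+1) (b := b)
    rw [List.ofFn_succ', List.concat_eq_append, List.prod_append, List.prod_singleton] at h0 ⊢
    rw [ofFn_prod_split (fun j : Fin b => (P j : Surf (g+1) b)) k] at h0
    rw [ofFn_prod_split (fun j : Fin b => if (j : ℕ) < k then x * P j * x⁻¹
      else (P j : Surf (g+1) b)) k]
    have h1 : (List.ofFn fun i : Fin g => ⁅(if i.castSucc = Fin.last g then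
        A i.castSucc * x⁻¹ else A i.castSucc : Surf (g+1) b),
        (if i.castSucc = Fin.last g then x * B i.castSucc * x⁻¹ else B i.castSucc)⁆) =
        List.ofFn fun i : Fin g => ⁅(A i.castSucc : Surf (g+1) b), B i.castSucc⁆ := by
      congr 1
      funext i
      rw [if_neg (Fin.castSucc_lt_last i).ne, if_neg (Fin.castSucc_lt_last i).ne]
    have h2 : (List.ofFn fun j : Fin b => if (j : ℕ) < k then
        (if (j : ℕ) < k then x * P j * x⁻¹ else (P j : Surf (g+1) b)) else 1).prod =
        x * Q (g+1) b k * x⁻¹ := by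
      rw [Q, ← ofFn_prod_conj]
      congr 2
      funext j
      split_ifs <;> simp
    have h3 : (List.ofFn fun j : Fin b => if (j : ℕ) < k then 1 else
        (if (j : ℕ) < k then x * P j * x⁻¹ else (P j : Surf (g+1) b))) =
        (List.ofFn fun j : Fin b => if (j : ℕ) < k then 1 else (P j : Surf (g+1) b)) := by
      congr 1
      funext j
      split_ifs <;> rfl
    have h4 : x * ((B (Fin.last g))⁻¹ * Q (g+1) b k) * x⁻¹ = (B (Fin.last g))⁻¹ * Q (g+1) b k := by
      have : Commute x (Gam g b k) := (Commute.refl _).zpow_left m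
      change x * Gam g b k * x⁻¹ = Gam g b k
      rw [this.eq, mul_assoc, mul_inv_cancel, mul_one]
    rw [h1, h2, h3, if_pos rfl, if_pos rfl]
    change _ * _ * (Q (g+1) b k * _) = 1 at h0
    generalize (List.ofFn fun i : Fin g =>
      ⁅(A i.castSucc : Surf (g+1) b), (B i.castSucc : Surf (g+1) b)⁆).prod = R
      at h0 ⊢
    generalize (List.ofFn fun j : Fin b => if (j : ℕ) < k then 1 else (P j : Surf (g+1) b)).prod = W
      at h0 ⊢
    calc R * ⁅(A (Fin.last g) * x⁻¹ : Surf (g+1) b), x * B (Fin.last g) * x⁻¹⁆ *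
        (x * Q (g+1) b k * x⁻¹ * W)
        = R * (A (Fin.last g) * B (Fin.last g) * (A (Fin.last g))⁻¹) *
          (x * ((B (Fin.last g))⁻¹ * Q (g+1) b k) * x⁻¹) * W := by
          simp only [commutatorElement_def]; group
      _ = R * ⁅(A (Fin.last g) : Surf (g+1) b), B (Fin.last g)⁆ * (Q (g+1) b k * W) := by
          rw [h4]; simp only [commutatorElement_def]; group
      _ = 1 := h0)

theorem twP_A (k : ℕ) (m : ℤ) :
    twP k m (A (Fin.last g) : Surf (g+1) b) = A (Fin.last g) * (Gam g b k ^ m)⁻¹ := by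
  simp [twP]

theorem twP_A' (k : ℕ) (m : ℤ) (i : Fin (g+1)) (hi : i ≠ Fin.last g) :
    twP k m (A i : Surf (g+1) b) = A i := by
  simp [twP, hi]

theorem twP_B (k : ℕ) (m : ℤ) :
    twP k m (B (Fin.last g) : Surf (g+1) b) =
      Gam g b k ^ m * B (Fin.last g) * (Gam g b k ^ m)⁻¹ := by
  simp [twP]

theorem twP_B' (k : ℕ) (m : ℤ) (i : Fin (g+1)) (hi : i ≠ Fin.last g) :
    twP k m (B i : Surf (g+1) b) = B i := by
  simp [twP, hi]

theorem twP_P (k : ℕ) (m : ℤ) (j : Fin b) :
    twP k m (P j : Surf (g+1) b) = if (j : ℕ) < k then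
      Gam g b k ^ m * P j * (Gam g b k ^ m)⁻¹ else P j := by
  simp [twP]

theorem twP_Gam (k : ℕ) (m : ℤ) : twP k m (Gam g b k) = Gam g b k := by
  have hQ : twP k m (Q (g+1) b k) = Gam g b k ^ m * Q (g+1) b k * (Gam g b k ^ m)⁻¹ := by
    rw [Q, map_list_prod, List.map_ofFn, ← ofFn_prod_conj]
    congr 2
    funext j
    simp only [Function.comp]
    split_ifs with h
    · rw [twP_P, if_pos h]
    · simp
  have hc : Commute (Gam g b k ^ m) (Gam g b k) := (Commute.refl _).zpow_left m
  have : twP k m (Gam g b k) = Gam g b k ^ m * Gam g b k * (Gam g b k ^ m)⁻¹ := by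
    conv_lhs => rw [Gam]
    rw [map_mul, map_inv, twP_B, hQ]
    generalize Gam g b k ^ m = x
    rw [Gam]
    group
  rw [this, hc.eq, mul_assoc, mul_inv_cancel, mul_one]

theorem twP_comp (k : ℕ) (m : ℤ) : (twP k (-m)).comp (twP k m) = MonoidHom.id (Surf (g+1) b) := by
  have hG := twP_Gam (g := g) (b := b) k (-m)
  apply hom_ext'
  · intro i
    by_cases hi : i = Fin.last g
    · subst hi
      rw [MonoidHom.comp_apply, twP_A, map_mul, map_inv, map_zpow, hG, twP_A]
      simp
    · rw [MonoidHom.comp_apply, twP_A' _ _ _ hi, twP_A' _ _ _ hi]; rfl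
  · intro i
    by_cases hi : i = Fin.last g
    · subst hi
      rw [MonoidHom.comp_apply, twP_B, map_mul, map_mul, map_inv, map_zpow, hG, twP_B]
      simp [mul_assoc]
    · rw [MonoidHom.comp_apply, twP_B' _ _ _ hi, twP_B' _ _ _ hi]; rfl
  · intro j
    rw [MonoidHom.comp_apply, twP_P]
    split_ifs with h
    · rw [map_mul, map_mul, map_inv, map_zpow, hG, twP_P, if_pos h]
      simp [mul_assoc]
    · rw [twP_P, if_neg h]; rfl

def eqP (k : ℕ) (m : ℤ) : Surf (g+1) b ≃* Surf (g+1) b :=
  MonoidHom.toMulEquiv (twP k m) (twP k (-m)) (twP_comp k m) (by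
    have := twP_comp (g := g) (b := b) k (-m)
    rwa [neg_neg] at this)

theorem eqP_apply (k : ℕ) (m : ℤ) (x : Surf (g+1) b) : eqP k m x = twP k m x := rfl

theorem geoP (k : ℕ) (m : ℤ) : IsGeometric (eqP k m : Surf (g+1) b ≃* Surf (g+1) b) :=
  isGeometric_of_conj _ fun j => by
    rw [eqP_apply, twP_P]
    split_ifs
    · exact (isConj_iff.2 ⟨Gam g b k ^ m, rfl⟩ : IsConj (P j) _).symm
    · exact IsConj.refl _

end puncture

end H94Simple
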