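import Pool.Agent.H94.SccC

open scoped commutatorElement

namespace H94Simple

section ab

variable {G : Type*} [Group G]

theorem pr_one_iff (x y : G) : pr G 1 x = pr G 1 y ↔ Abelianization.of x = Abelianization.of y := by
  rw [pr_eq]
  constructor
  · intro h; exact QuotientGroup.eq.2 h
  · intro h; exact QuotientGroup.eq.1 h

theorem gen_criterion (l : List G)
    (h : Subgroup.closure ((Abelianization.of : G →* _) '' {s | s ∈ l}) = ⊤) :
    Subgroup.closure {s | s ∈ l} ⊔ lcs G 1 = ⊤ := by
  rw [eq_top_iff]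
  intro x _
  have hx : Abelianization.of x ∈ Subgroup.map Abelianization.of (Subgroup.closure {s | s ∈ l}) := by
    rw [MonoidHom.map_closure, h]; exact Subgroup.mem_top _
  obtain ⟨y, hy, hyx⟩ := hx
  have h2 : y⁻¹ * x ∈ lcs G 1 := (pr_eq 1 y x).1 ((pr_one_iff y x).2 hyx)
  have : x = y * (y⁻¹ * x) := by group
  rw [this]
  exact mul_mem (Subgroup.mem_sup_left hy) (Subgroup.mem_sup_right h2)

end ab

variable {g b : ℕ}

theorem IsGeometric.symm {φ : Surf g b ≃* Surf g b} (hφ : IsGeometric φ) :
    IsGeometric φ.symm := by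
  obtain ⟨ε, σ, h⟩ := hφ
  refine ⟨ε, σ.symm, fun i => ?_⟩
  have h1 := h (σ.symm i)
  rw [Equiv.apply_symm_apply] at h1
  have h2 := isConj_map' h1 φ.symm
  rw [MulEquiv.symm_apply_apply, map_zpow] at h2
  have h3 := isConj_zpow h2 (ε : ℤ)
  rw [← zpow_mul] at h3
  have h4 : (ε : ℤ) * ε = 1 := by
    rcases Int.units_eq_one_or ε with h | h <;> simp [h]
  rw [h4, zpow_one] at h3
  exact h3.symm


/-- the class of the product of the first `k` punctures. -/
def tk (g b k : ℕ) : Abelianization (Surf g b) :=
  ∏ i : Fin b, if (i : ℕ) < k then Abelianization.of (P i : Surf g b) else 1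

theorem of_Q (k : ℕ) : Abelianization.of (Q g b k) = tk g b k := by
  rw [Q, map_list_prod, List.map_ofFn, List.prod_ofFn, tk]
  refine Finset.prod_congr rfl fun i _ => ?_
  simp only [Function.comp]
  split_ifs <;> simp

theorem of_sep_zero (k : ℕ) : Abelianization.of (sep g b 0 k) = tk g b k := by
  rw [← of_Q, sep, Q]
  have : (List.ofFn fun i : Fin g => if g ≤ (i : ℕ) + 0 then ⁅(A i : Surf g b), (B i : Surf g b)⁆
      else 1).prod = 1 := by
    apply List.prod_eq_one
    intro x hx
    obtain ⟨j, rfl⟩ := (List.mem_ofFn' _ _).1 hx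
    have : ¬ (g ≤ (j : ℕ) + 0) := by have := j.2; omega
    simp only [this, if_false]
  rw [this, one_mul]

theorem tk_succ (j : Fin b) : tk g b (j+1) = tk g b j * Abelianization.of (P j) := by
  unfold tk
  have : ∀ i : Fin b, (if (i : ℕ) < (j : ℕ) + 1 then Abelianization.of (P i : Surf g b) else 1) =
      (if (i : ℕ) < (j : ℕ) then Abelianization.of (P i : Surf g b) else 1) *
      (if i = j then Abelianization.of (P i : Surf g b) else 1) := by
    intro i
    by_cases h1 : i = j
    · subst h1; simp
    · have h2 : (i : ℕ) ≠ j := fun h => h1 (Fin.ext h)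
      by_cases h3 : (i : ℕ) < j
      · have : (i : ℕ) < (j : ℕ) + 1 := by omega
        simp [h1, h3, this]
      · have : ¬ (i : ℕ) < (j : ℕ) + 1 := by omega
        simp [h1, h3, this]
  rw [Finset.prod_congr rfl (fun i _ => this i), Finset.prod_mul_distrib, Finset.prod_ite_eq']
  simp

theorem tk_zero : tk g b 0 = 1 := by simp [tk]

theorem tk_top : tk g b b = 1 := by
  have h := congrArg (Abelianization.of : Surf g b →* _) (relation (g := g) (b := b))
  rw [map_mul, map_one, map_list_prod, List.map_ofFn, map_list_prod, List.map_ofFn,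
    List.prod_ofFn, List.prod_ofFn] at h
  have h1 : ∏ i : Fin g, (Abelianization.of ∘ fun i => ⁅(A i : Surf g b), (B i : Surf g b)⁆) i = 1 := by
    refine Finset.prod_eq_one fun i _ => ?_
    simp [map_commutatorElement, commutatorElement_eq_one_iff_mul_comm, mul_comm]
  rw [h1, one_mul] at h
  rw [tk, ← h]
  refine Finset.prod_congr rfl fun i _ => ?_
  simp [i.2]

/-- classes of the punctures -/
def Kz (g b : ℕ) : Subgroup (Abelianization (Surf g b)) :=
  Subgroup.closure (Set.range fun j : Fin b => Abelianization.of (P j : Surf g b))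

def Kg (g b : ℕ) : Subgroup (Abelianization (Surf (g+1) b)) :=
  Subgroup.closure (Set.range fun k : ℕ => Abelianization.of (Gam g b k))

theorem tk_mem_Kz (k : ℕ) : tk g b k ∈ Kz g b := by
  unfold tk
  refine Subgroup.prod_mem _ fun i _ => ?_
  split_ifs
  · exact Subgroup.subset_closure ⟨i, rfl⟩
  · exact one_mem _

theorem of_Gam (k : ℕ) : Abelianization.of (Gam g b k) =
    (Abelianization.of (B (Fin.last g)))⁻¹ * tk (g+1) b k := by
  rw [Gam, map_mul, map_inv, of_Q]

theorem B_mem_Kg : Abelianization.of (B (Fin.last g) : Surf (g+1) b) ∈ Kg g b := by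
  have h : Abelianization.of (Gam g b 0) ∈ Kg g b := Subgroup.subset_closure ⟨0, rfl⟩
  rw [of_Gam, tk_zero, mul_one] at h
  simpa using inv_mem h

theorem tk_mem_Kg (k : ℕ) : tk (g+1) b k ∈ Kg g b := by
  have h : Abelianization.of (Gam g b k) ∈ Kg g b := Subgroup.subset_closure ⟨k, rfl⟩
  rw [of_Gam] at h
  have := mul_mem (B_mem_Kg (g := g) (b := b)) h
  simpa using this

theorem Kz_le_Kg : Kz (g+1) b ≤ Kg g b := by
  unfold Kz
  rw [Subgroup.closure_le]
  rintro _ ⟨j, rfl⟩
  have h := mul_mem (inv_mem (tk_mem_Kg (g := g) (b := b) (j : ℕ))) (tk_mem_Kg (g := g) (b := b) (j+1))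
  rw [tk_succ, inv_mul_cancel_left] at h
  exact h

theorem of_conj (x y : Surf g b) : Abelianization.of (x * y * x⁻¹) = Abelianization.of y := by
  rw [map_mul, map_mul, map_inv, mul_comm (Abelianization.of x), mul_assoc, mul_inv_cancel, mul_one]

theorem of_twP_Gam (k l : ℕ) (m : ℤ) :
    Abelianization.of (twP k m (Gam g b l)) = Abelianization.of (Gam g b l) := by
  rw [Gam, map_mul, map_inv, map_mul, map_inv, map_mul, map_inv, twP_B, of_conj]
  congr 1
  rw [Q, map_list_prod, List.map_ofFn, map_list_prod, List.map_ofFn, map_list_prod, List.map_ofFn]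
  congr 2
  funext j
  simp only [Function.comp]
  split_ifs with h
  · rw [twP_P]
    split_ifs
    · rw [of_conj]
    · rfl
  · simp

theorem twist_exists (x : Abelianization (Surf (g+1) b)) (hx : x ∈ Kg g b) :
    ∃ φ : Surf (g+1) b ≃* Surf (g+1) b, IsGeometric φ ∧
      (∀ y ∈ Kg g b, Abelianization.map (φ : Surf (g+1) b →* Surf (g+1) b) y = y) ∧
      Abelianization.of (φ (A (Fin.last g))) = Abelianization.of (A (Fin.last g)) * x := by
  unfold Kg at hx
  induction hx using Subgroup.closure_induction with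
  | mem x hx =>
    obtain ⟨k, rfl⟩ := hx
    refine ⟨eqP k (-1), geoP k (-1), ?_, ?_⟩
    · intro y hy
      have : Kg g b ≤ (MonoidHom.eqLocus
          (Abelianization.map ((eqP k (-1) : Surf (g+1) b ≃* Surf (g+1) b) :
            Surf (g+1) b →* Surf (g+1) b)) (MonoidHom.id _)) := by
        unfold Kg
        rw [Subgroup.closure_le]
        rintro _ ⟨l, rfl⟩
        show Abelianization.map _ _ = _
        rw [Abelianization.map_of]
        exact of_twP_Gam k l (-1)
      exact this hy
    · rw [eqP_apply, twP_A, zpow_neg_one, inv_inv, map_mul]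
  | one =>
    refine ⟨MulEquiv.refl _, isGeometric_refl, ?_, by simp⟩
    intro y _
    have : ((MulEquiv.refl (Surf (g+1) b)) : Surf (g+1) b →* Surf (g+1) b) = MonoidHom.id _ := rfl
    rw [this, Abelianization.map_id]; rfl
  | mul x y hx hy ihx ihy =>
    obtain ⟨φ, h1, h2, h3⟩ := ihx
    obtain ⟨ψ, h4, h5, h6⟩ := ihy
    refine ⟨ψ.trans φ, h4.trans h1, ?_, ?_⟩
    · intro z hz
      have e : ((ψ.trans φ : Surf (g+1) b ≃* Surf (g+1) b) : Surf (g+1) b →* Surf (g+1) b) =
        (φ : Surf (g+1) b →* Surf (g+1) b).comp (ψ : Surf (g+1) b →* Surf (g+1) b) := rfl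
      rw [e, ← Abelianization.map_map_apply, h5 z hz, h2 z hz]
    · have e : (ψ.trans φ) (A (Fin.last g)) = φ (ψ (A (Fin.last g))) := rfl
      have e2 : Abelianization.of (φ (ψ (A (Fin.last g)))) =
        Abelianization.map (φ : Surf (g+1) b →* Surf (g+1) b)
          (Abelianization.of (ψ (A (Fin.last g)))) := by rw [Abelianization.map_of]; rfl
      have e3 : Abelianization.map (φ : Surf (g+1) b →* Surf (g+1) b)
          (Abelianization.of (A (Fin.last g))) = Abelianization.of (φ (A (Fin.last g))) := by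
        rw [Abelianization.map_of]; rfl
      rw [e, e2, h6, map_mul, h2 y hy, e3, h3, mul_assoc]
  | inv x hx ih =>
    obtain ⟨φ, h1, h2, h3⟩ := ih
    have key : ∀ z, Abelianization.map (φ.symm : Surf (g+1) b →* Surf (g+1) b)
        (Abelianization.map (φ : Surf (g+1) b →* Surf (g+1) b) z) = z := by
      intro z
      rw [Abelianization.map_map_apply]
      have e : ((φ.symm : Surf (g+1) b →* Surf (g+1) b)).comp
          (φ : Surf (g+1) b →* Surf (g+1) b) = MonoidHom.id _ := by
        ext z; simp
      rw [e, Abelianization.map_id]; rfl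
    have h2' : ∀ y ∈ Kg g b,
        Abelianization.map (φ.symm : Surf (g+1) b →* Surf (g+1) b) y = y := by
      intro y hy
      have := key y
      rwa [h2 y hy] at this
    refine ⟨φ.symm, h1.symm, h2', ?_⟩
    have h4 := key (Abelianization.of (A (Fin.last g)))
    have e3 : Abelianization.map (φ : Surf (g+1) b →* Surf (g+1) b)
        (Abelianization.of (A (Fin.last g))) = Abelianization.of (φ (A (Fin.last g))) := by
      rw [Abelianization.map_of]; rfl
    have e4 : Abelianization.map (φ.symm : Surf (g+1) b →* Surf (g+1) b)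
        (Abelianization.of (A (Fin.last g))) = Abelianization.of (φ.symm (A (Fin.last g))) := by
      rw [Abelianization.map_of]; rfl
    rw [e3, h3, map_mul, h2' x hx, e4] at h4
    exact eq_mul_inv_of_mul_eq h4

end H94Simple
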