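import Pool.Agent.H94.SccD

open scoped commutatorElement

namespace H94Simple

variable {g b : ℕ}

theorem coords (h : Surf g b) : ∃ (m n : Fin g → ℤ) (z : Abelianization (Surf g b)), z ∈ Kz g b ∧
    Abelianization.of h = (∏ i, Abelianization.of (A i : Surf g b) ^ m i *
      Abelianization.of (B i : Surf g b) ^ n i) * z := by
  let M : Subgroup (Surf g b) :=
    { carrier := {h | ∃ (m n : Fin g → ℤ) (z : Abelianization (Surf g b)), z ∈ Kz g b ∧
        Abelianization.of h = (∏ i, Abelianization.of (A i : Surf g b) ^ m i *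
          Abelianization.of (B i : Surf g b) ^ n i) * z}
      one_mem' := ⟨0, 0, 1, one_mem _, by simp⟩
      mul_mem' := by
        rintro x y ⟨m, n, z, hz, hx⟩ ⟨m', n', z', hz', hy⟩
        refine ⟨m + m', n + n', z * z', mul_mem hz hz', ?_⟩
        rw [map_mul, hx, hy, mul_mul_mul_comm, ← Finset.prod_mul_distrib]
        congr 1
        refine Finset.prod_congr rfl fun i _ => ?_
        rw [Pi.add_apply, Pi.add_apply, zpow_add, zpow_add, mul_mul_mul_comm]
      inv_mem' := by
        rintro x ⟨m, n, z, hz, hx⟩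
        refine ⟨-m, -n, z⁻¹, inv_mem hz, ?_⟩
        rw [map_inv, hx, mul_inv, ← Finset.prod_inv_distrib]
        congr 1
        refine Finset.prod_congr rfl fun i _ => ?_
        rw [Pi.neg_apply, Pi.neg_apply, zpow_neg, zpow_neg, mul_inv] }
  have hM : M = ⊤ := by
    refine closure_gens M ?_ ?_ ?_
    · intro i
      refine ⟨Pi.single i 1, 0, 1, one_mem _, ?_⟩
      rw [mul_one, Finset.prod_eq_single i]
      · simp
      · intro j _ hj; simp [hj]
      · simp
    · intro i
      refine ⟨0, Pi.single i 1, 1, one_mem _, ?_⟩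
      rw [mul_one, Finset.prod_eq_single i]
      · simp
      · intro j _ hj; simp [hj]
      · simp
    · intro j
      exact ⟨0, 0, _, Subgroup.subset_closure ⟨j, rfl⟩, by simp⟩
  have : h ∈ M := by rw [hM]; exact Subgroup.mem_top _
  exact this

theorem main_list (h : Surf (g+1) b) : ∃ l : List (Surf (g+1) b),
    (∀ x ∈ l, x ∈ simple (g+1) b) ∧
    Subgroup.closure ((Abelianization.of : Surf (g+1) b →* _) '' {s | s ∈ l}) = ⊤ ∧
    Abelianization.of l.prod = Abelianization.of h ∧ l.length = 3 * (g+1) + (b-1) := by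
  classical
  obtain ⟨m, n, z, hz, hh⟩ := coords h
  set W : Abelianization (Surf (g+1) b) := ∏ j : Fin (b-1), tk (g+1) b (j+1) with hW
  have hWz : W ∈ Kz (g+1) b := Subgroup.prod_mem _ fun j _ => tk_mem_Kz _
  set Z := z * W⁻¹ with hZ
  have hZz : Z ∈ Kz (g+1) b := mul_mem hz (inv_mem hWz)
  obtain ⟨φ, hφ, -, hφ2⟩ := twist_exists
    (Abelianization.of (B (Fin.last g) : Surf (g+1) b) ^ (n (Fin.last g) - 2) * Z)
    (mul_mem (zpow_mem B_mem_Kg _) (Kz_le_Kg hZz))
  set s := φ (A (Fin.last g)) with hs
  have hsS : s ∈ simple (g+1) b := simple_image (simple_A _) hφ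
  let X : Fin (g+1) → Surf (g+1) b := fun i => if i = Fin.last g then s else A i * B i ^ (n i - 2)
  have hX : ∀ i, Abelianization.of (X i) = Abelianization.of (A i : Surf (g+1) b) *
      Abelianization.of (B i : Surf (g+1) b) ^ (n i - 2) * (if i = Fin.last g then Z else 1) := by
    intro i
    by_cases hi : i = Fin.last g
    · subst hi; simp only [X, if_true, hφ2, mul_assoc]
    · simp only [X, hi, if_false, mul_one, map_mul, map_zpow]
  let l1 : List (List (Surf (g+1) b)) := List.ofFn fun i : Fin (g+1) =>
    [X i, A i * (B i * A i ^ (-1 : ℤ)), A i * (B i * A i ^ (m i - 2))]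
  let l2 : List (Surf (g+1) b) := List.ofFn fun j : Fin (b-1) => sep (g+1) b 0 (j+1)
  have hmem1 : ∀ i, X i ∈ l1.flatten ++ l2 ∧ A i * (B i * A i ^ (-1 : ℤ)) ∈ l1.flatten ++ l2 := by
    intro i
    have h1 : [X i, A i * (B i * A i ^ (-1 : ℤ)), A i * (B i * A i ^ (m i - 2))] ∈ l1 :=
      (List.mem_ofFn' _ _).2 ⟨i, rfl⟩
    constructor
    · exact List.mem_append_left _ (List.mem_flatten.2 ⟨_, h1, by simp⟩)
    · exact List.mem_append_left _ (List.mem_flatten.2 ⟨_, h1, by simp⟩)
  have hmem2 : ∀ j : Fin (b-1), sep (g+1) b 0 (j+1) ∈ l1.flatten ++ l2 := by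
    intro j
    exact List.mem_append_right _ ((List.mem_ofFn' _ _).2 ⟨j, rfl⟩)
  refine ⟨l1.flatten ++ l2, ?_, ?_, ?_, ?_⟩
  · intro x hx
    rcases List.mem_append.1 hx with hx | hx
    · obtain ⟨L, hL, hx⟩ := List.mem_flatten.1 hx
      obtain ⟨i, rfl⟩ := (List.mem_ofFn' _ _).1 hL
      simp only [List.mem_cons, List.not_mem_nil, or_false] at hx
      rcases hx with rfl | rfl | rfl
      · by_cases hi : i = Fin.last g
        · simp only [X, hi, if_true]; exact hsS
        · simp only [X, hi, if_false]; exact simple_X i _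
      · exact simple_Y i _
      · exact simple_Y i _
    · obtain ⟨j, rfl⟩ := (List.mem_ofFn' _ _).1 hx
      exact simple_sep 0 _ (Nat.zero_le _) (by have := j.2; omega)
  · set T := Subgroup.closure ((Abelianization.of : Surf (g+1) b →* _) ''
      {s | s ∈ l1.flatten ++ l2}) with hT
    have hBT : ∀ i, Abelianization.of (B i : Surf (g+1) b) ∈ T := by
      intro i
      have h1 : Abelianization.of (A i * (B i * A i ^ (-1 : ℤ)) : Surf (g+1) b) ∈ T :=
        Subgroup.subset_closure ⟨_, (hmem1 i).2, rfl⟩
      have e : Abelianization.of (A i * (B i * A i ^ (-1 : ℤ)) : Surf (g+1) b) =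
          Abelianization.of (B i : Surf (g+1) b) := by
        rw [zpow_neg_one, ← mul_assoc, of_conj]
      rwa [e] at h1
    have htT : ∀ k : ℕ, k ≤ b → tk (g+1) b k ∈ T := by
      intro k hk
      rcases Nat.eq_zero_or_pos k with rfl | hk0
      · rw [tk_zero]; exact one_mem _
      · rcases Nat.lt_or_ge k b with hkb | hkb
        · have h1 := hmem2 ⟨k-1, by omega⟩
          have h2 : Abelianization.of (sep (g+1) b 0 ((⟨k-1, by omega⟩ : Fin (b-1)) + 1)) ∈ T :=
            Subgroup.subset_closure ⟨_, h1, rfl⟩
          rw [of_sep_zero] at h2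
          have e : ((⟨k-1, by omega⟩ : Fin (b-1)) : ℕ) + 1 = k := by simp; omega
          rwa [e] at h2
        · have : k = b := le_antisymm hk hkb
          rw [this, tk_top]; exact one_mem _
    have hPT : ∀ j, Abelianization.of (P j : Surf (g+1) b) ∈ T := by
      intro j
      have h1 := mul_mem (inv_mem (htT j j.2.le)) (htT (j+1) j.2)
      rwa [tk_succ, inv_mul_cancel_left] at h1
    have hZT : Z ∈ T := by
      have : Kz (g+1) b ≤ T := by
        unfold Kz
        rw [Subgroup.closure_le]
        rintro _ ⟨j, rfl⟩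
        exact hPT j
      exact this hZz
    have hAT : ∀ i, Abelianization.of (A i : Surf (g+1) b) ∈ T := by
      intro i
      have h1 : Abelianization.of (X i) ∈ T := Subgroup.subset_closure ⟨_, (hmem1 i).1, rfl⟩
      rw [hX i, mul_assoc] at h1
      have h2 : Abelianization.of (B i : Surf (g+1) b) ^ (n i - 2) *
          (if i = Fin.last g then Z else 1) ∈ T := by
        refine mul_mem (zpow_mem (hBT i) _) ?_
        split_ifs
        · exact hZT
        · exact one_mem _
      have h3 := mul_mem h1 (inv_mem h2)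
      rwa [mul_inv_cancel_right] at h3
    have hcomap : T.comap Abelianization.of = ⊤ := closure_gens _ hAT hBT hPT
    rw [eq_top_iff]
    intro x _
    obtain ⟨y, rfl⟩ : ∃ y, Abelianization.of y = x := QuotientGroup.mk_surjective x
    have : y ∈ T.comap Abelianization.of := by rw [hcomap]; exact Subgroup.mem_top _
    exact this
  · rw [List.prod_append, List.prod_flatten, map_mul, map_list_prod, map_list_prod]
    simp only [l1, l2, List.map_ofFn, List.prod_ofFn]
    have e1 : ∀ i, ((Abelianization.of ∘ List.prod ∘ fun i : Fin (g+1) =>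
        [X i, A i * (B i * A i ^ (-1 : ℤ)), A i * (B i * A i ^ (m i - 2))]) i) =
        (Abelianization.of (A i : Surf (g+1) b) ^ m i * Abelianization.of (B i : Surf (g+1) b) ^ n i)
          * (if i = Fin.last g then Z else 1) := by
      intro i
      simp only [Function.comp, List.prod_cons, List.prod_nil, mul_one, map_mul, hX i, map_zpow]
      generalize (if i = Fin.last g then Z else 1) = ζ
      generalize Abelianization.of (A i : Surf (g+1) b) = a
      generalize Abelianization.of (B i : Surf (g+1) b) = c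
      have ha : a ^ m i = a ^ (m i - 2) * a * a := by
        rw [← zpow_add_one, ← zpow_add_one]; congr 1; ring
      have hc : c ^ n i = c ^ (n i - 2) * c * c := by
        rw [← zpow_add_one, ← zpow_add_one]; congr 1; ring
      rw [ha, hc, zpow_neg_one]
      generalize a ^ (m i - 2) = a'
      generalize c ^ (n i - 2) = c'
      have : a * (c * a⁻¹) = c := by rw [mul_comm c, ← mul_assoc, mul_inv_cancel, one_mul]
      rw [this]
      simp only [mul_comm, mul_left_comm]
    have e2 : ∀ j : Fin (b-1), ((Abelianization.of ∘ fun j : Fin (b-1) =>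
        sep (g+1) b 0 ((j : ℕ)+1)) j) = tk (g+1) b (j+1) := by
      intro j; exact of_sep_zero _
    rw [Finset.prod_congr rfl (fun i _ => e1 i), Finset.prod_congr rfl (fun i _ => e2 i),
      Finset.prod_mul_distrib, Finset.prod_ite_eq', if_pos (Finset.mem_univ _), hh, ← hW, hZ,
      mul_assoc, mul_assoc, inv_mul_cancel, mul_one]
  · have : ∀ (k : ℕ) (f : Fin k → List (Surf (g+1) b)), (∀ i, (f i).length = 3) →
        (List.ofFn f).flatten.length = 3 * k := by
      intro k
      induction k with
      | zero => intro f _; simp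
      | succ k ih =>
        intro f hf
        rw [List.ofFn_succ, List.flatten_cons, List.length_append, hf, ih _ (fun i => hf _)]
        ring
    rw [List.length_append, this _ _ (fun i => rfl), List.length_ofFn]

/-- **Uniform bound** for every orientable surface of positive genus. -/
theorem surface_bound (g b n : ℕ) (hg : 1 ≤ g) :
    dia (simple g b) n ≤ ((3 * g + (b - 1) : ℕ) : ℕ∞) := by
  obtain ⟨g, rfl⟩ := Nat.exists_eq_add_of_le' hg
  rcases Nat.eq_zero_or_pos n with rfl | hn
  · refine diam_le fun q => ?_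
    obtain ⟨h, rfl⟩ := pr_surj 0 q
    refine ⟨[], ⟨by simp, ?_⟩, by simp⟩
    rw [List.prod_nil, eq_comm, pr_eq_one]
    exact Subgroup.mem_top _
  · refine dia_le simple_conj hn fun h => ?_
    obtain ⟨l, h1, h2, h3, h4⟩ := main_list h
    exact ⟨l, fun x hx => Or.inl (h1 x hx), gen_criterion l h2, (pr_one_iff _ _).2 h3, h4.le⟩

end H94Simple
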