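import Pool.Agent.H94.SccE

open scoped commutatorElement

namespace H94Simple

/-! ### The group of affine maps `x ↦ u x + c` over a commutative ring -/

@[ext] structure Aff (R : Type*) [CommRing R] where
  u : Rˣ
  c : R

namespace Aff

variable {R : Type*} [CommRing R]

instance : Mul (Aff R) := ⟨fun x y => ⟨x.u * y.u, x.c + x.u * y.c⟩⟩
instance : One (Aff R) := ⟨⟨1, 0⟩⟩
instance : Inv (Aff R) := ⟨fun x => ⟨x.u⁻¹, -((x.u⁻¹ : Rˣ) : R) * x.c⟩⟩

@[simp] theorem mul_u (x y : Aff R) : (x * y).u = x.u * y.u := rfl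
@[simp] theorem mul_c (x y : Aff R) : (x * y).c = x.c + x.u * y.c := rfl
@[simp] theorem one_u : (1 : Aff R).u = 1 := rfl
@[simp] theorem one_c : (1 : Aff R).c = 0 := rfl
@[simp] theorem inv_u (x : Aff R) : (x⁻¹).u = x.u⁻¹ := rfl
@[simp] theorem inv_c (x : Aff R) : (x⁻¹).c = -((x.u⁻¹ : Rˣ) : R) * x.c := rfl

instance : Group (Aff R) := Group.ofLeftAxioms
  (fun x y z => by ext <;> simp [mul_assoc, mul_add, add_assoc])
  (fun x => by ext <;> simp)
  (fun x => by ext <;> simp)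

theorem comm_u (x y : Aff R) : (⁅x, y⁆).u = 1 := by
  simp [commutatorElement_def]

theorem comm_c (x y : Aff R) : (⁅x, y⁆).c = (1 - y.u) * x.c + (x.u - 1) * y.c := by
  have h1 : (x.u : R) * ((x.u⁻¹ : Rˣ) : R) = 1 := by simp
  have h2 : (y.u : R) * ((y.u⁻¹ : Rˣ) : R) = 1 := by simp
  simp only [commutatorElement_def, mul_c, mul_u, inv_u, inv_c, Units.val_mul]
  linear_combination (-(y.u : R) * x.c - (y.u : R) * ((y.u⁻¹ : Rˣ) : R) * y.c) * h1 - y.c * h2

theorem conj_c (x y : Aff R) (hy : y.u = 1) : (x * y * x⁻¹).c = x.u * y.c := by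
  have h1 : (x.u : R) * ((x.u⁻¹ : Rˣ) : R) = 1 := by simp
  simp only [mul_c, mul_u, inv_c, hy, mul_one]
  linear_combination (-x.c) * h1

theorem conj_u (x y : Aff R) : (x * y * x⁻¹).u = y.u := by
  simp only [mul_u, inv_u]
  rw [mul_comm x.u, mul_inv_cancel_right]

end Aff

/-! ### The ring `ℤ⟦X⟧` and the unit `T = 1 + X` -/

abbrev PS : Type := PowerSeries ℤ

open PowerSeries in
/-- `T = 1 + X` -/
noncomputable def T : (PowerSeries ℤ)ˣ :=
  (PowerSeries.isUnit_iff_constantCoeff.2 (by simp : IsUnit (PowerSeries.constantCoeff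
    (1 + PowerSeries.X : PowerSeries ℤ)))).unit

noncomputable abbrev τ : PowerSeries ℤ := PowerSeries.X

theorem T_val : (T : PowerSeries ℤ) = 1 + τ := rfl

theorem tau_ne : (τ : PowerSeries ℤ) ≠ 0 := PowerSeries.X_ne_zero

theorem Tinv : ((T⁻¹ : (PowerSeries ℤ)ˣ) : PowerSeries ℤ) = 1 - τ + τ ^ 2 * ((T⁻¹ : (PowerSeries ℤ)ˣ) : PowerSeries ℤ) := by
  have h : (T : PowerSeries ℤ) * ((T⁻¹ : (PowerSeries ℤ)ˣ) : PowerSeries ℤ) = 1 := by simp
  rw [T_val] at h
  linear_combination (1 - τ) * h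

theorem T_zpow (n : ℤ) : ∃ r : PowerSeries ℤ, ((T ^ n : (PowerSeries ℤ)ˣ) : PowerSeries ℤ) =
    1 + (n : PowerSeries ℤ) * τ + τ ^ 2 * r := by
  induction n using Int.induction_on with
  | zero => exact ⟨0, by simp⟩
  | succ n ih =>
    obtain ⟨r, hr⟩ := ih
    refine ⟨(n : PowerSeries ℤ) + r + τ * r, ?_⟩
    rw [zpow_add_one, Units.val_mul, hr, T_val]
    push_cast
    ring
  | pred n ih =>
    obtain ⟨r, hr⟩ := ih
    refine ⟨r + n - τ * r + (1 + ((-n : ℤ) : PowerSeries ℤ) * τ + τ ^ 2 * r) *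
      ((T⁻¹ : (PowerSeries ℤ)ˣ) : PowerSeries ℤ), ?_⟩
    rw [zpow_sub_one, Units.val_mul, hr]
    have h := Tinv
    push_cast at *
    linear_combination (1 - (n : PowerSeries ℤ) * τ + τ ^ 2 * r) * h

theorem int_of_dvd (k : ℤ) (h : τ ∣ (k : PowerSeries ℤ)) : k = 0 := by
  have := PowerSeries.X_dvd_iff.1 h
  simpa using this

end H94Simple
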