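import Pool.Agent.H94.SccF

open scoped commutatorElement

namespace H94Simple


/-- the element `A` of the once-punctured torus group etc. -/
abbrev a1 : Surf 1 1 := A 0
abbrev b1 : Surf 1 1 := B 0
abbrev p1 : Surf 1 1 := P 0

noncomputable def rho : Surf 1 1 →* Aff PS :=
  liftHom (fun _ => ⟨1, 1⟩) (fun _ => ⟨T, 0⟩) (fun _ => ⁅(⟨1, 1⟩ : Aff PS), ⟨T, 0⟩⁆⁻¹) (by
    simp only [List.ofFn_succ, List.ofFn_zero, List.prod_cons, List.prod_nil, mul_one]
    exact mul_inv_cancel _)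

theorem rho_a : rho a1 = ⟨1, 1⟩ := by simp [rho]
theorem rho_b : rho b1 = ⟨T, 0⟩ := by simp [rho]

theorem rel11 : ⁅a1, b1⁆ * p1 = 1 := by
  have := relation (g := 1) (b := 1)
  simpa using this

theorem p1_eq : p1 = ⁅a1, b1⁆⁻¹ := (inv_eq_of_mul_eq_one_right rel11).symm

theorem fin1 (i : Fin 1) : i = 0 := Subsingleton.elim _ _

/-- the linear part, as a homomorphism -/
def uHom : Aff PS →* PSˣ where
  toFun := Aff.u
  map_one' := rfl
  map_mul' _ _ := rfl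

theorem rho_u (s : Surf 1 1) : ∃ n : ℤ, (rho s).u = T ^ n := by
  have h : (Subgroup.zpowers T).comap (uHom.comp rho) = ⊤ := by
    refine closure_gens _ ?_ ?_ ?_
    · intro i
      rw [fin1 i, Subgroup.mem_comap]
      show uHom (rho a1) ∈ _
      rw [rho_a]
      exact one_mem _
    · intro i
      rw [fin1 i, Subgroup.mem_comap]
      show uHom (rho b1) ∈ _
      rw [rho_b]
      exact Subgroup.mem_zpowers _
    · intro i
      rw [fin1 i, Subgroup.mem_comap]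
      show uHom (rho p1) ∈ _
      rw [p1_eq, map_inv, map_inv, map_commutatorElement]
      have : uHom ⁅rho a1, rho b1⁆ = 1 := Aff.comm_u _ _
      rw [this, inv_one]
      exact one_mem _
  have h2 : s ∈ (Subgroup.zpowers T).comap (uHom.comp rho) := by rw [h]; exact Subgroup.mem_top _
  obtain ⟨n, hn⟩ := Subgroup.mem_zpowers_iff.1 (Subgroup.mem_comap.1 h2)
  exact ⟨n, hn.symm⟩

theorem rho_u_sub (s : Surf 1 1) : τ ∣ ((rho s).u : PS) - 1 := by
  obtain ⟨n, hn⟩ := rho_u s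
  obtain ⟨r, hr⟩ := T_zpow n
  rw [hn, hr]
  exact ⟨n + τ * r, by ring⟩

def SN (n : ℕ) : Subgroup (Surf 1 1) where
  carrier := {x | (rho x).u = 1 ∧ τ ^ n ∣ (rho x).c}
  one_mem' := by simp
  mul_mem' := by
    rintro x y ⟨hx, hx'⟩ ⟨hy, hy'⟩
    refine ⟨by rw [map_mul, Aff.mul_u, hx, hy, one_mul], ?_⟩
    rw [map_mul, Aff.mul_c, hx, Units.val_one, one_mul]
    exact dvd_add hx' hy'
  inv_mem' := by
    rintro x ⟨hx, hx'⟩
    refine ⟨by rw [map_inv, Aff.inv_u, hx, inv_one], ?_⟩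
    rw [map_inv, Aff.inv_c, hx, inv_one, Units.val_one]
    simpa using hx'

theorem lcs_le_SN (n : ℕ) : lcs (Surf 1 1) (n+1) ≤ SN (n+1) := by
  induction n with
  | zero =>
    rw [lcs_succ, Subgroup.commutator_le]
    intro x _ y _
    refine ⟨by rw [map_commutatorElement, Aff.comm_u], ?_⟩
    rw [map_commutatorElement, Aff.comm_c]
    obtain ⟨r, hr⟩ := rho_u_sub x
    obtain ⟨r', hr'⟩ := rho_u_sub y
    exact ⟨-r' * (rho x).c + r * (rho y).c, by linear_combination (-(rho x).c) * hr' + (rho y).c * hr⟩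
  | succ n ih =>
    rw [lcs_succ, Subgroup.commutator_le]
    intro x hx y _
    obtain ⟨hx1, ⟨q, hq⟩⟩ := ih hx
    refine ⟨by rw [map_commutatorElement, Aff.comm_u], ?_⟩
    rw [map_commutatorElement, Aff.comm_c, hx1, hq]
    obtain ⟨r', hr'⟩ := rho_u_sub y
    refine ⟨-r' * q, ?_⟩
    rw [Units.val_one]
    linear_combination (-(τ ^ (n + 1) * q)) * hr'

theorem rho_p : rho p1 = ⟨1, τ⟩ := by
  rw [p1_eq, map_inv, map_commutatorElement, rho_a, rho_b]
  ext1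
  · rw [Aff.inv_u, Aff.comm_u, inv_one]
  · rw [Aff.inv_c, Aff.comm_u, Aff.comm_c]
    simp only [inv_one, Units.val_one, T_val]
    ring

/-- elements `± T ^ j` -/
def PT (f : PS) : Prop := ∃ (δ : ℤˣ) (j : ℤ), f = ((δ : ℤ) : PS) * ((T ^ j : PSˣ) : PS)

theorem PT_neg {f : PS} (h : PT f) : PT (-f) := by
  obtain ⟨δ, j, rfl⟩ := h
  exact ⟨-δ, j, by push_cast; ring⟩

theorem rho_geo_p {χ : Surf 1 1 ≃* Surf 1 1} (hχ : IsGeometric χ) :
    (rho (χ p1)).u = 1 ∧ ∃ f, PT f ∧ (rho (χ p1)).c = f * τ := by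
  obtain ⟨ε, σ, h⟩ := hχ
  have h0 := h 0
  rw [fin1 (σ 0)] at h0
  obtain ⟨x, hx⟩ := isConj_iff.1 h0.symm
  have hP : (rho (p1 ^ (ε : ℤ))).u = 1 ∧ (rho (p1 ^ (ε : ℤ))).c = ((ε : ℤ) : PS) * τ := by
    rcases Int.units_eq_one_or ε with rfl | rfl
    · simp [rho_p]
    · simp [rho_p]
  rw [← hx, map_mul, map_mul, map_inv, Aff.conj_u, Aff.conj_c _ _ hP.1, hP.2]
  obtain ⟨n, hn⟩ := rho_u x
  refine ⟨hP.1, ((ε : ℤ) : PS) * ((T ^ n : PSˣ) : PS), ⟨ε, n, rfl⟩, ?_⟩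
  rw [hn]; ring

theorem rho_geo_a {χ : Surf 1 1 ≃* Surf 1 1} (hχ : IsGeometric χ) (hu : (rho (χ a1)).u = 1) :
    PT (rho (χ a1)).c := by
  obtain ⟨-, f, ⟨δ, j, hf⟩, hc⟩ := rho_geo_p hχ
  obtain ⟨n, hn⟩ := rho_u (χ b1)
  obtain ⟨r, hr⟩ := T_zpow n
  -- commutator relation
  have h1 : (rho (χ p1)).c = -((1 - ((rho (χ b1)).u : PS)) * (rho (χ a1)).c) := by
    rw [p1_eq, map_inv, map_inv, map_commutatorElement, map_commutatorElement, Aff.inv_c,
      Aff.comm_u, Aff.comm_c, hu]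
    simp
  rw [hc, hn] at h1
  have h1' := h1
  rw [hr] at h1
  have h2 : f = ((n : PS) + τ * r) * (rho (χ a1)).c := by
    have : τ * f = τ * (((n : PS) + τ * r) * (rho (χ a1)).c) := by linear_combination h1
    exact mul_left_cancel₀ tau_ne this
  have h3 : (δ : ℤ) = n * PowerSeries.constantCoeff (rho (χ a1)).c := by
    have h4 := congrArg PowerSeries.constantCoeff h2
    rw [hf] at h4
    obtain ⟨r', hr'⟩ := T_zpow j
    rw [hr'] at h4
    simpa using h4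
  have h5 : IsUnit n := by
    rw [Int.isUnit_iff_abs_eq]
    have h6 : n ∣ (δ : ℤ) := ⟨_, h3⟩
    have h7 : IsUnit (δ : ℤ) := δ.isUnit
    exact Int.isUnit_iff_abs_eq.1 (isUnit_of_dvd_unit h6 h7)
  rcases Int.isUnit_iff.1 h5 with rfl | rfl
  · rw [zpow_one, T_val] at h1'
    have : τ * (rho (χ a1)).c = τ * f := by linear_combination -h1'
    rw [mul_left_cancel₀ tau_ne this]
    exact ⟨δ, j, hf⟩
  · have hT : (T : PS) * ((T⁻¹ : PSˣ) : PS) = 1 := by simp
    rw [zpow_neg_one] at h1'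
    -- f τ = -(1 - T⁻¹) c,  multiply with T
    have : τ * (rho (χ a1)).c = τ * (-(T : PS) * f) := by
      rw [T_val] at hT ⊢
      linear_combination (1 + τ) * h1' + (rho (χ a1)).c * hT
    rw [mul_left_cancel₀ tau_ne this]
    refine ⟨-δ, j + 1, ?_⟩
    rw [hf, zpow_add_one, Units.val_mul]
    push_cast
    ring

end H94Simple
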