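import Pool.Agent.H94.SccG

open scoped commutatorElement

namespace H94Simple


theorem lcs_map {G H : Type*} [Group G] [Group H] (f : G →* H) (n : ℕ) :
    ∀ x ∈ lcs G n, f x ∈ lcs H n := by
  induction n with
  | zero => intro x _; exact Subgroup.mem_top _
  | succ n ih =>
    have : lcs G (n+1) ≤ (lcs H (n+1)).comap f := by
      rw [lcs_succ, Subgroup.commutator_le]
      intro x hx y _
      rw [Subgroup.mem_comap, map_commutatorElement]
      exact Subgroup.commutator_mem_commutator (ih x hx) (Subgroup.mem_top _)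
    exact this

theorem lcs_anti {G : Type*} [Group G] {m n : ℕ} (h : m ≤ n) : lcs G n ≤ lcs G m := by
  induction n, h using Nat.le_induction with
  | base => exact le_rfl
  | succ n _ ih =>
    refine le_trans ?_ ih
    rw [lcs_succ, Subgroup.commutator_le]
    intro x hx y _
    rw [commutatorElement_def, mul_assoc, mul_assoc]
    refine mul_mem hx ?_
    have := (lcs_normal n).conj_mem _ (inv_mem hx) y
    simpa [mul_assoc] using this

theorem lcs_one_comm {G H : Type*} [Group G] [CommGroup H] (f : G →* H) {x : G}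
    (hx : x ∈ lcs G 1) : f x = 1 := by
  have : lcs G 1 ≤ f.ker := by
    rw [lcs_succ, Subgroup.commutator_le]
    intro x _ y _
    rw [MonoidHom.mem_ker, map_commutatorElement, commutatorElement_eq_one_iff_mul_comm, mul_comm]
  exact this hx

/-- the element which is not a product of two simple ones -/
def h0 : Surf 1 1 := ⁅⁅a1, b1⁆, a1⁆ * ⁅⁅⁅a1, b1⁆, b1⁆, b1⁆

theorem h0_mem : h0 ∈ lcs (Surf 1 1) 1 := by
  refine mul_mem ?_ ?_
  · rw [lcs_succ]; exact Subgroup.commutator_mem_commutator (Subgroup.mem_top _) (Subgroup.mem_top _)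
  · rw [lcs_succ]; exact Subgroup.commutator_mem_commutator (Subgroup.mem_top _) (Subgroup.mem_top _)

/-- formula for the image of `h0` under a geometric automorphism -/
theorem rho_h0 {χ : Surf 1 1 ≃* Surf 1 1} (hχ : IsGeometric χ) :
    (rho (χ h0)).u = 1 ∧ ∃ f, PT f ∧ (rho (χ h0)).c =
      ((1 - ((rho (χ a1)).u : PS)) + (1 - ((rho (χ b1)).u : PS)) ^ 2) * (f * τ) := by
  obtain ⟨hu, f, hf, hc⟩ := rho_geo_p hχ
  have hz : (rho (χ ⁅a1, b1⁆)).u = 1 ∧ (rho (χ ⁅a1, b1⁆)).c = (-f) * τ := by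
    have e : ⁅a1, b1⁆ = p1⁻¹ := by rw [p1_eq, inv_inv]
    rw [e, map_inv, map_inv, Aff.inv_u, Aff.inv_c, hu, hc]
    simp
  have hcu : ∀ x y : Surf 1 1, (rho (χ ⁅x, y⁆)).u = 1 := by
    intro x y
    rw [map_commutatorElement, map_commutatorElement, Aff.comm_u]
  refine ⟨?_, -f, PT_neg hf, ?_⟩
  · simp only [h0, map_mul, Aff.mul_u]
    rw [hcu, hcu, one_mul]
  · simp only [h0, map_mul, Aff.mul_c]
    rw [map_commutatorElement χ ⁅a1, b1⁆ a1, map_commutatorElement χ ⁅⁅a1, b1⁆, b1⁆ b1,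
      map_commutatorElement χ ⁅a1, b1⁆ b1, map_commutatorElement rho, map_commutatorElement rho,
      map_commutatorElement rho, Aff.comm_u, Aff.comm_c, Aff.comm_c, Aff.comm_c, Aff.comm_u,
      hz.1, hz.2]
    simp only [Units.val_one]
    ring

theorem T_ne : T ≠ 1 := by
  intro h
  have h1 : (T : PS) = 1 := by rw [h]; rfl
  rw [T_val] at h1
  exact tau_ne (by linear_combination h1)

theorem not_dvd_tau2 : ¬ (τ ^ 3 : PS) ∣ τ ^ 2 := by
  rintro ⟨q, hq⟩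
  have : (1 : PS) = τ * q := by
    have h : (τ ^ 2 : PS) * 1 = τ ^ 2 * (τ * q) := by linear_combination hq
    exact mul_left_cancel₀ (pow_ne_zero 2 tau_ne) h
  have h2 : τ ∣ ((1 : ℤ) : PS) := ⟨q, by push_cast; exact this⟩
  have := int_of_dvd 1 h2
  norm_num at this

/-- two elements `± T^i`, `± T^j` whose sum is divisible by `τ²` are opposite -/
theorem PT_add {f f' : PS} (h : PT f) (h' : PT f') (hd : τ ^ 2 ∣ f + f') : f + f' = 0 := by
  obtain ⟨δ, i, rfl⟩ := h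
  obtain ⟨δ', j, rfl⟩ := h'
  obtain ⟨r, hr⟩ := T_zpow i
  obtain ⟨r', hr'⟩ := T_zpow j
  obtain ⟨q, hq⟩ := hd
  have h1 : (δ : ℤ) + δ' = 0 := by
    apply int_of_dvd
    rw [hr, hr'] at hq
    refine ⟨τ * q - (δ : ℤ) * i - (δ : ℤ) * τ * r - (δ' : ℤ) * j - (δ' : ℤ) * τ * r', ?_⟩
    push_cast
    linear_combination hq
  have h2 : (δ' : ℤ) = -δ := by omega
  have h3 : (δ : ℤ) * (i - j) = 0 := by
    apply int_of_dvd
    rw [hr, hr', h2] at hq
    have : τ * (((δ * (i - j) : ℤ)) : PS) = τ * (τ * (q - (δ : ℤ) * r + (δ : ℤ) * r')) := by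
      push_cast at *
      linear_combination hq
    exact ⟨_, mul_left_cancel₀ tau_ne this⟩
  have h4 : i = j := by
    rcases mul_eq_zero.1 h3 with h | h
    · exact absurd h δ.ne_zero
    · omega
  subst h4
  rw [h2]; push_cast; ring

theorem PT_sign (δ : ℤˣ) : PT ((δ : ℤ) : PS) := ⟨δ, 0, by simp⟩

/-- The simple elements of the once-punctured torus. -/
theorem simple11 {s : Surf 1 1} (hs : s ∈ simple 1 1) :
    (∃ φ : Surf 1 1 ≃* Surf 1 1, IsGeometric φ ∧ (s = φ a1 ∨ s = (φ a1)⁻¹)) ∨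
    (s = 1 ∨ ∃ φ : Surf 1 1 ≃* Surf 1 1, IsGeometric φ ∧ (s = φ p1 ∨ s = (φ p1)⁻¹)) := by
  obtain ⟨φ, hφ, h⟩ := hs
  rcases h with ⟨i, h⟩ | ⟨m, k, hm, hk, h⟩
  · rw [fin1 i] at h
    exact Or.inl ⟨φ, hφ, h⟩
  · right
    have e : sep 1 1 m k = 1 ∨ sep 1 1 m k = p1 ∨ sep 1 1 m k = p1⁻¹ := by
      have hp : p1⁻¹ = ⁅a1, b1⁆ := by rw [p1_eq, inv_inv]
      have hm' : m = 0 ∨ m = 1 := by omega
      have hk' : k = 0 ∨ k = 1 := by omega
      rcases hm' with rfl | rfl <;> rcases hk' with rfl | rfl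
      · left; simp [sep]
      · right; left; simp [sep]
      · right; right; rw [hp]; simp [sep]
      · left; have := rel11; simpa [sep] using this
    rcases e with e | e | e
    · left; rw [e] at h; simpa using h
    · right; exact ⟨φ, hφ, by rw [e] at h; exact h⟩
    · right; refine ⟨φ, hφ, ?_⟩
      rw [e] at h
      rcases h with h | h
      · right; rw [h, map_inv]
      · left; rw [h, map_inv, inv_inv]

/-- exponent of `A` -/
def eA : Surf 1 1 →* Multiplicative ℤ :=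
  liftHom (fun _ => Multiplicative.ofAdd 1) (fun _ => 1) (fun _ => 1) (by
    simp only [List.ofFn_succ, List.ofFn_zero, List.prod_cons, List.prod_nil, mul_one]
    rw [commutatorElement_eq_one_iff_mul_comm, mul_comm])

theorem eA_a : eA a1 = Multiplicative.ofAdd 1 := by simp [eA]

theorem comm_hom_p {H : Type*} [CommGroup H] (f : Surf 1 1 →* H) : f p1 = 1 := by
  rw [p1_eq, map_inv, map_commutatorElement, inv_eq_one, commutatorElement_eq_one_iff_mul_comm,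
    mul_comm]

/-- a nonseparating and a separating one -/
theorem not_mixed {φ : Surf 1 1 ≃* Surf 1 1} {s1 s2 : Surf 1 1}
    (h1 : s1 = φ a1 ∨ s1 = (φ a1)⁻¹)
    (h2 : s2 = 1 ∨ ∃ ψ : Surf 1 1 ≃* Surf 1 1, IsGeometric ψ ∧ (s2 = ψ p1 ∨ s2 = (ψ p1)⁻¹)) :
    s1 * s2 ∉ lcs (Surf 1 1) 1 := by
  intro hmem
  have h := lcs_one_comm (eA.comp (φ.symm : Surf 1 1 →* Surf 1 1)) hmem
  rw [map_mul] at h
  have e2 : (eA.comp (φ.symm : Surf 1 1 →* Surf 1 1)) s2 = 1 := by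
    rcases h2 with rfl | ⟨ψ, -, rfl | rfl⟩
    · exact map_one _
    · exact comm_hom_p ((eA.comp (φ.symm : Surf 1 1 →* Surf 1 1)).comp (ψ : Surf 1 1 →* Surf 1 1))
    · rw [map_inv, inv_eq_one]
      exact comm_hom_p ((eA.comp (φ.symm : Surf 1 1 →* Surf 1 1)).comp (ψ : Surf 1 1 →* Surf 1 1))
  rw [e2, mul_one] at h
  rcases h1 with rfl | rfl
  · have : eA a1 = 1 := by simpa using h
    rw [eA_a] at this
    exact absurd (Multiplicative.ofAdd.injective this) (by norm_num)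
  · have : eA a1 = 1 := by simpa using h
    rw [eA_a] at this
    exact absurd (Multiplicative.ofAdd.injective this) (by norm_num)

theorem not_SS {s1 s2 : Surf 1 1}
    (h1 : s1 = 1 ∨ ∃ ψ : Surf 1 1 ≃* Surf 1 1, IsGeometric ψ ∧ (s1 = ψ p1 ∨ s1 = (ψ p1)⁻¹))
    (h2 : s2 = 1 ∨ ∃ ψ : Surf 1 1 ≃* Surf 1 1, IsGeometric ψ ∧ (s2 = ψ p1 ∨ s2 = (ψ p1)⁻¹)) :
    (s1 * s2)⁻¹ * h0 ∉ lcs (Surf 1 1) 4 := by
  have key : ∀ s : Surf 1 1, (s = 1 ∨ ∃ ψ : Surf 1 1 ≃* Surf 1 1, IsGeometric ψ ∧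
      (s = ψ p1 ∨ s = (ψ p1)⁻¹)) → (rho s).u = 1 ∧ ∃ f, (f = 0 ∨ PT f) ∧ (rho s).c = f * τ := by
    rintro s (rfl | ⟨ψ, hψ, rfl | rfl⟩)
    · exact ⟨by simp, 0, Or.inl rfl, by simp⟩
    · obtain ⟨hu, f, hf, hc⟩ := rho_geo_p hψ
      exact ⟨hu, f, Or.inr hf, hc⟩
    · obtain ⟨hu, f, hf, hc⟩ := rho_geo_p hψ
      refine ⟨by rw [map_inv, Aff.inv_u, hu, inv_one], -f, Or.inr (PT_neg hf), ?_⟩
      rw [map_inv, Aff.inv_c, hu, hc]; simp
  obtain ⟨hu1, f1, hf1, hc1⟩ := key s1 h1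
  obtain ⟨hu2, f2, hf2, hc2⟩ := key s2 h2
  intro hmem
  obtain ⟨-, hd⟩ := lcs_le_SN 3 hmem
  have hc0 : (rho h0).u = 1 ∧ (rho h0).c = -τ ^ 3 := by
    have e : ∀ x, (MulEquiv.refl (Surf 1 1)) x = x := fun _ => rfl
    have hz : rho ⁅a1, b1⁆ = ⟨1, -τ⟩ := by
      have e : ⁅a1, b1⁆ = p1⁻¹ := by rw [p1_eq, inv_inv]
      rw [e, map_inv, rho_p]
      ext1 <;> simp
    have hcu : ∀ x y : Surf 1 1, (rho ⁅x, y⁆).u = 1 := by
      intro x y
      rw [map_commutatorElement, Aff.comm_u]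
    refine ⟨?_, ?_⟩
    · simp only [h0, map_mul, Aff.mul_u]
      rw [hcu, hcu, one_mul]
    · simp only [h0, map_mul, Aff.mul_c]
      rw [map_commutatorElement rho ⁅a1, b1⁆, map_commutatorElement rho ⁅⁅a1, b1⁆, b1⁆,
        map_commutatorElement rho ⁅a1, b1⁆ b1, Aff.comm_u, Aff.comm_c, Aff.comm_c, Aff.comm_c,
        Aff.comm_u, hz, rho_a, rho_b, T_val]
      simp only [Units.val_one]
      ring
  have hc : (rho ((s1 * s2)⁻¹ * h0)).c = -(f1 + f2) * τ - τ ^ 3 := by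
    rw [map_mul, Aff.mul_c, map_inv, Aff.inv_c, Aff.inv_u, map_mul, Aff.mul_u, Aff.mul_c, hu1, hu2,
      hc1, hc2, hc0.2]
    simp only [mul_one, inv_one, Units.val_one]
    ring
  rw [hc] at hd
  obtain ⟨q, hq⟩ := hd
  have h3 : f1 + f2 + τ ^ 2 = τ ^ 3 * (-q) := by
    have : τ * (f1 + f2 + τ ^ 2) = τ * (τ ^ 3 * (-q)) := by linear_combination -hq
    exact mul_left_cancel₀ tau_ne this
  have unitCase : ∀ f, PT f → ¬ (τ ∣ f) := by
    rintro f ⟨δ, j, rfl⟩ ⟨q', hq'⟩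
    obtain ⟨r, hr⟩ := T_zpow j
    rw [hr] at hq'
    have : (δ : ℤ) = 0 := by
      apply int_of_dvd
      exact ⟨q' - (δ : ℤ) * j - (δ : ℤ) * τ * r, by linear_combination hq'⟩
    exact δ.ne_zero this
  have hsum : f1 + f2 = 0 := by
    rcases hf1 with rfl | hf1 <;> rcases hf2 with rfl | hf2
    · simp
    · exact absurd ⟨τ ^ 2 * (-q) - τ, by linear_combination h3⟩ (unitCase f2 hf2)
    · exact absurd ⟨τ ^ 2 * (-q) - τ, by linear_combination h3⟩ (unitCase f1 hf1)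
    · exact PT_add hf1 hf2 ⟨τ * (-q) - 1, by linear_combination h3⟩
  rw [hsum, zero_add] at h3
  exact not_dvd_tau2 ⟨_, h3⟩

theorem not_NN {φ ψ : Surf 1 1 ≃* Surf 1 1} (hφ : IsGeometric φ) (hψ : IsGeometric ψ)
    {s1 s2 : Surf 1 1} (h1 : s1 = φ a1 ∨ s1 = (φ a1)⁻¹) (h2 : s2 = ψ a1 ∨ s2 = (ψ a1)⁻¹) :
    (s1 * s2)⁻¹ * h0 ∉ lcs (Surf 1 1) 4 := by
  intro hmem
  have hmem2 := lcs_map (φ.symm : Surf 1 1 →* Surf 1 1) 4 _ hmem
  obtain ⟨hu, hd⟩ := lcs_le_SN 3 hmem2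
  set χ := ψ.trans φ.symm with hχ
  have hχg : IsGeometric χ := hψ.trans hφ.symm
  obtain ⟨hh1, f0, hf0, hh2⟩ := rho_h0 hφ.symm
  have e1 : ∃ δ : ℤˣ, rho (φ.symm s1) = ⟨1, ((δ : ℤ) : PS)⟩ := by
    rcases h1 with rfl | rfl
    · refine ⟨1, ?_⟩
      rw [MulEquiv.symm_apply_apply, rho_a]; simp
    · refine ⟨-1, ?_⟩
      rw [map_inv, MulEquiv.symm_apply_apply, map_inv, rho_a]
      ext1 <;> simp
  obtain ⟨δ, e1⟩ := e1
  have eq0 : ((φ.symm : Surf 1 1 →* Surf 1 1) ((s1 * s2)⁻¹ * h0)) =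
      (φ.symm s1 * φ.symm s2)⁻¹ * φ.symm h0 := by simp
  rw [eq0, map_mul, Aff.mul_u, hh1, mul_one, map_inv, Aff.inv_u, map_mul, Aff.mul_u, e1, one_mul,
    inv_eq_one] at hu
  have e2 : ∃ f, PT f ∧ rho (φ.symm s2) = ⟨1, f⟩ := by
    have e3 : φ.symm (ψ a1) = χ a1 := rfl
    rcases h2 with rfl | rfl
    · rw [e3] at hu ⊢
      exact ⟨_, rho_geo_a hχg hu, by ext1; exacts [hu, rfl]⟩
    · rw [map_inv, map_inv, Aff.inv_u, inv_eq_one, e3] at hu
      rw [map_inv, map_inv, e3]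
      refine ⟨_, PT_neg (rho_geo_a hχg hu), ?_⟩
      ext1
      · rw [Aff.inv_u, hu, inv_one]
      · rw [Aff.inv_c, hu]; simp
  obtain ⟨f, hf, e2⟩ := e2
  have hc : (rho ((φ.symm : Surf 1 1 →* Surf 1 1) ((s1 * s2)⁻¹ * h0))).c =
      -(((δ : ℤ) : PS) + f) + (rho (φ.symm h0)).c := by
    rw [eq0, map_mul, Aff.mul_c, map_inv, Aff.inv_c, Aff.inv_u, map_mul, Aff.mul_u, Aff.mul_c, e1, e2]
    simp
  rw [hc, hh2] at hd
  obtain ⟨α, hα⟩ := rho_u (φ.symm a1)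
  obtain ⟨β, hβ⟩ := rho_u (φ.symm b1)
  obtain ⟨r, hr⟩ := T_zpow α
  obtain ⟨r', hr'⟩ := T_zpow β
  rw [hα, hβ] at hd
  have hsum : ((δ : ℤ) : PS) + f = 0 := by
    refine PT_add (PT_sign δ) hf ?_
    obtain ⟨q, hq⟩ := hd
    rw [hr, hr'] at hq
    refine ⟨-τ ^ 2 * q + (-(α + τ * r) + τ * (β + τ * r') ^ 2) * f0, ?_⟩
    linear_combination -hq
  rw [hsum, neg_zero, zero_add] at hd
  have hd2 : τ ^ 3 ∣ (1 - ((T ^ α : PSˣ) : PS)) + (1 - ((T ^ β : PSˣ) : PS)) ^ 2 := by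
    obtain ⟨q, hq⟩ := hd
    obtain ⟨ε, j, hj⟩ := hf0
    have hT : ((T ^ j : PSˣ) : PS) * (((T ^ j)⁻¹ : PSˣ) : PS) = 1 := by simp
    have hε : (((ε : ℤ) : PS)) * ((ε : ℤ) : PS) = 1 := by
      rcases Int.units_eq_one_or ε with h | h <;> simp [h]
    have : τ * ((1 - ((T ^ α : PSˣ) : PS)) + (1 - ((T ^ β : PSˣ) : PS)) ^ 2) =
        τ * (τ ^ 3 * (q * (((ε : ℤ) : PS) * (((T ^ j)⁻¹ : PSˣ) : PS)))) := by
      rw [hj] at hq
      generalize (1 - ((T ^ α : PSˣ) : PS)) + (1 - ((T ^ β : PSˣ) : PS)) ^ 2 = Z at hq ⊢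
      linear_combination (((ε : ℤ) : PS) * (((T ^ j)⁻¹ : PSˣ) : PS)) * hq -
        τ * Z * hε - τ * Z * (((ε : ℤ) : PS)) * (((ε : ℤ) : PS)) * hT
    exact ⟨_, mul_left_cancel₀ tau_ne this⟩
  obtain ⟨q, hq⟩ := hd2
  rw [hr, hr'] at hq
  have hα0 : α = 0 := by
    apply int_of_dvd
    have : τ * (α : PS) = τ * (τ * ((β + τ * r') ^ 2 - τ * q - r)) := by linear_combination -hq
    exact ⟨_, mul_left_cancel₀ tau_ne this⟩
  have hβ0 : β = 0 := by
    have hr0 : (1 : PS) = 1 + (α : PS) * τ + τ ^ 2 * r := by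
      rw [← hr, hα0]; simp
    have h2 : β ^ 2 = 0 := by
      apply int_of_dvd
      have : τ ^ 2 * ((β ^ 2 : ℤ) : PS) = τ ^ 2 * (τ * (q - 2 * β * r' - τ * r' ^ 2)) := by
        push_cast
        linear_combination hq - hr0
      exact ⟨_, mul_left_cancel₀ (pow_ne_zero 2 tau_ne) this⟩
    exact pow_eq_zero_iff (two_ne_zero) |>.1 h2
  rw [hα0, zpow_zero] at hα
  rw [hβ0, zpow_zero] at hβ
  have htriv : (uHom.comp rho).comp (φ.symm : Surf 1 1 →* Surf 1 1) = 1 := by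
    apply hom_ext'
    · intro i; rw [fin1 i]; exact hα
    · intro i; rw [fin1 i]; exact hβ
    · intro i; rw [fin1 i]; exact comm_hom_p _
  have h5 := DFunLike.congr_fun htriv (φ b1)
  have h6 : (rho b1).u = 1 := by
    have : ((uHom.comp rho).comp (φ.symm : Surf 1 1 →* Surf 1 1)) (φ b1) = (rho b1).u := by
      show (rho (φ.symm (φ b1))).u = _
      rw [MulEquiv.symm_apply_apply]
    rw [← this, h5]; rfl
  rw [rho_b] at h6
  exact T_ne h6

end H94Simple
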