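import Pool.Agent.H94.SccH

open scoped commutatorElement

namespace H94Simple

variable {g b : ℕ}

theorem simple_inv {s : Surf g b} (hs : s ∈ simple g b) : s⁻¹ ∈ simple g b := by
  obtain ⟨φ, hφ, h⟩ := hs
  refine ⟨φ, hφ, ?_⟩
  rcases h with ⟨i, h | h⟩ | ⟨m, k, hm, hk, h | h⟩
  · left; exact ⟨i, Or.inr (by rw [h])⟩
  · left; exact ⟨i, Or.inl (by rw [h, inv_inv])⟩
  · right; exact ⟨m, k, hm, hk, Or.inr (by rw [h])⟩
  · right; exact ⟨m, k, hm, hk, Or.inl (by rw [h, inv_inv])⟩

theorem simple_one : (1 : Surf g b) ∈ simple g b := by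
  have h := simple_sep (g := g) (b := b) 0 0 (Nat.zero_le _) (Nat.zero_le _)
  have e : sep g b 0 0 = 1 := by
    unfold sep
    have h1 : (List.ofFn fun i : Fin g => if g ≤ (i : ℕ) + 0 then ⁅(A i : Surf g b), (B i : Surf g b)⁆
        else 1).prod = 1 := by
      apply List.prod_eq_one
      intro x hx
      obtain ⟨j, rfl⟩ := (List.mem_ofFn' _ _).1 hx
      have : ¬ (g ≤ (j : ℕ) + 0) := by have := j.2; omega
      simp only [this, if_false]
    have h2 : (List.ofFn fun j : Fin b => if (j : ℕ) < 0 then (P j : Surf g b) else 1).prod = 1 := by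
      apply List.prod_eq_one
      intro x hx
      obtain ⟨j, rfl⟩ := (List.mem_ofFn' _ _).1 hx
      simp
    rw [h1, h2, one_mul]
  rwa [e] at h

/-- a word of length at most two lifts to a product of two simple elements -/
theorem two_of_word {n : ℕ} {h : Surf g b} (L : List (Surf g b ⧸ lcs (Surf g b) n))
    (hL : IsWord (pr (Surf g b) n '' simple g b) L (pr (Surf g b) n h)) (hlen : L.length ≤ 2) :
    ∃ s1 ∈ simple g b, ∃ s2 ∈ simple g b, (s1 * s2)⁻¹ * h ∈ lcs (Surf g b) n := by
  obtain ⟨l, h1, h2, h3⟩ := lift_word (simple g b) n L hL.1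
  rw [hL.2] at h3
  have h1' : ∀ x ∈ l, x ∈ simple g b := by
    intro x hx
    rcases h1 x hx with h | h
    · exact h
    · simpa using simple_inv h
  rw [← h2] at hlen
  match l, hlen, h1', h3 with
  | [], _, _, h3 => exact ⟨1, simple_one, 1, simple_one, by simpa using (pr_eq _ _ _).1 h3⟩
  | [x], _, h1', h3 =>
    exact ⟨x, h1' x (by simp), 1, simple_one, by simpa using (pr_eq _ _ _).1 h3⟩
  | [x, y], _, h1', h3 =>
    exact ⟨x, h1' x (by simp), y, h1' y (by simp), by simpa using (pr_eq _ _ _).1 h3⟩

/-- **Once-punctured torus.** -/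
theorem punctured_torus (n : ℕ) (hn : 4 ≤ n) : dia (simple 1 1) n = 3 := by
  apply le_antisymm
  · have := surface_bound 1 1 n le_rfl
    simpa using this
  · refine le_trans ?_ (le_iSup (fun g => wordLen (pr (Surf 1 1) n '' simple 1 1) g)
      (pr (Surf 1 1) n h0))
    refine le_wordLen fun L hL => ?_
    by_contra hcon
    have hlen : L.length ≤ 2 := by
      have : (L.length : ℕ∞) < 3 := not_le.1 hcon
      have : L.length < 3 := by exact_mod_cast this
      omega
    obtain ⟨s1, hs1, s2, hs2, hmem⟩ := two_of_word L hL hlen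
    have hmem4 := lcs_anti hn hmem
    have hmem1 : s1 * s2 ∈ lcs (Surf 1 1) 1 := by
      have h1 := lcs_anti (show 1 ≤ 4 by norm_num) hmem4
      have h2 := mul_mem h0_mem (inv_mem h1)
      simpa [mul_assoc] using h2
    rcases simple11 hs1 with ⟨φ, hφ, h1⟩ | h1 <;> rcases simple11 hs2 with ⟨ψ, hψ, h2⟩ | h2
    · exact not_NN hφ hψ h1 h2 hmem4
    · exact not_mixed h1 h2 hmem1
    · refine not_mixed h2 h1 ?_
      have := (lcs_normal 1).conj_mem _ hmem1 s2
      simpa [mul_assoc] using this
    · exact not_SS h1 h2 hmem4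

/-- exponent sum homomorphism of the generator `A i` -/
def expA (i : Fin g) : Surf g b →* Multiplicative ℤ :=
  liftHom (fun k => if k = i then Multiplicative.ofAdd 1 else 1) (fun _ => 1) (fun _ => 1) (by
    have h1 : (List.ofFn fun k : Fin g => ⁅(if k = i then Multiplicative.ofAdd (1 : ℤ) else 1),
        (1 : Multiplicative ℤ)⁆).prod = 1 := by
      apply List.prod_eq_one
      intro x hx
      obtain ⟨j, rfl⟩ := (List.mem_ofFn' _ _).1 hx
      simp
    have h2 : (List.ofFn fun _ : Fin b => (1 : Multiplicative ℤ)).prod = 1 := by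
      apply List.prod_eq_one
      intro x hx
      obtain ⟨j, rfl⟩ := (List.mem_ofFn' _ _).1 hx
      rfl
    rw [h1, h2, one_mul])

theorem expA_A (i : Fin g) : expA i (A i : Surf g b) = Multiplicative.ofAdd 1 := by simp [expA]
theorem expA_P (i : Fin g) (j : Fin b) : expA i (P j : Surf g b) = 1 := by simp [expA]

theorem hom_sep {H : Type*} [CommGroup H] (f : Surf g b →* H) (h k : ℕ) :
    f (sep g b h k) = ∏ j : Fin b, if (j : ℕ) < k then f (P j) else 1 := by
  rw [sep, map_mul, map_list_prod, List.map_ofFn, map_list_prod, List.map_ofFn]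
  have h1 : (List.ofFn (f ∘ fun i : Fin g => if g ≤ (i : ℕ) + h then
      ⁅(A i : Surf g b), (B i : Surf g b)⁆ else 1)).prod = 1 := by
    apply List.prod_eq_one
    intro x hx
    obtain ⟨j, rfl⟩ := (List.mem_ofFn' _ _).1 hx
    simp only [Function.comp]
    split_ifs
    · rw [map_commutatorElement, commutatorElement_eq_one_iff_mul_comm, mul_comm]
    · exact map_one _
  rw [h1, one_mul, List.prod_ofFn]
  refine Finset.prod_congr rfl fun j _ => ?_
  simp only [Function.comp]
  split_ifs
  · rfl
  · exact map_one _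

theorem hom_geo {H : Type*} [CommGroup H] (f : Surf g b →* H) {φ : Surf g b ≃* Surf g b}
    {ε : ℤˣ} {σ : Equiv.Perm (Fin b)} (h : ∀ j, IsConj (φ (P j)) (P (σ j) ^ (ε : ℤ))) (j : Fin b) :
    f (φ (P j)) = f (P (σ j)) ^ (ε : ℤ) := by
  obtain ⟨x, hx⟩ := isConj_iff.1 (h j)
  have := congrArg f hx
  rw [map_mul, map_mul, map_inv, mul_comm (f x), mul_assoc, mul_inv_cancel, mul_one,
    map_zpow] at this
  exact this

/-- `A²` is not simple in any nilpotent quotient. -/
theorem two_le (g b n : ℕ) (hg : 1 ≤ g) (hn : 1 ≤ n) : 2 ≤ dia (simple g b) n := by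
  let i0 : Fin g := ⟨0, hg⟩
  refine le_trans ?_ (le_iSup (fun x => wordLen (pr (Surf g b) n '' simple g b) x)
    (pr (Surf g b) n (A i0 ^ 2)))
  refine le_wordLen fun L hL => ?_
  by_contra hcon
  have hlen : L.length ≤ 1 := by
    have : (L.length : ℕ∞) < 2 := not_le.1 hcon
    have : L.length < 2 := by exact_mod_cast this
    omega
  -- it is congruent to a simple element
  have hs : ∃ s ∈ simple g b, s⁻¹ * A i0 ^ 2 ∈ lcs (Surf g b) n := by
    obtain ⟨l, h1, h2, h3⟩ := lift_word (simple g b) n L hL.1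
    rw [hL.2] at h3
    rw [← h2] at hlen
    match l, hlen, h1, h3 with
    | [], _, _, h3 => exact ⟨1, simple_one, by simpa using (pr_eq _ _ _).1 h3⟩
    | [x], _, h1, h3 =>
      refine ⟨x, ?_, by simpa using (pr_eq _ _ _).1 h3⟩
      rcases h1 x (by simp) with h | h
      · exact h
      · simpa using simple_inv h
  obtain ⟨s, ⟨φ, ⟨ε, σ, hφ⟩, h⟩, hmem⟩ := hs
  have hmem1 := lcs_anti hn hmem
  have hf : ∀ f : Surf g b →* Multiplicative ℤ, f s = f (A i0) ^ 2 := by
    intro f
    have := lcs_one_comm f hmem1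
    rw [map_mul, map_inv, map_pow, inv_mul_eq_one] at this
    exact this
  rcases h with ⟨i, h⟩ | ⟨m, k, _, _, h⟩
  · -- apply expA i ∘ φ.symm
    have h1 := hf ((expA i).comp (φ.symm : Surf g b →* Surf g b))
    have h2 : ((expA i).comp (φ.symm : Surf g b →* Surf g b)) s = Multiplicative.ofAdd 1 ∨
        ((expA i).comp (φ.symm : Surf g b →* Surf g b)) s = Multiplicative.ofAdd (-1) := by
      rcases h with rfl | rfl
      · left
        show expA i (φ.symm (φ (A i))) = _
        rw [MulEquiv.symm_apply_apply, expA_A]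
      · right
        show expA i (φ.symm (φ (A i))⁻¹) = _
        rw [map_inv, MulEquiv.symm_apply_apply, map_inv, expA_A]; rfl
    obtain ⟨c, hc⟩ : ∃ c : ℤ, ((expA i).comp (φ.symm : Surf g b →* Surf g b)) (A i0) =
      Multiplicative.ofAdd c := ⟨_, rfl⟩
    rw [hc, ← ofAdd_nsmul] at h1
    rcases h2 with h2 | h2
    · rw [h2] at h1
      have := Multiplicative.ofAdd.injective h1
      simp only [nsmul_eq_mul, Nat.cast_ofNat] at this
      omega
    · rw [h2] at h1
      have := Multiplicative.ofAdd.injective h1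
      simp only [nsmul_eq_mul, Nat.cast_ofNat] at this
      omega
  · have h1 := hf (expA i0)
    have h2 : expA i0 s = 1 := by
      have h3 : expA i0 (φ (sep g b m k)) = 1 := by
        have := hom_sep ((expA i0).comp (φ : Surf g b →* Surf g b)) m k
        have h4 : expA i0 (φ (sep g b m k)) =
          ((expA i0).comp (φ : Surf g b →* Surf g b)) (sep g b m k) := rfl
        rw [h4, this]
        refine Finset.prod_eq_one fun j _ => ?_
        split_ifs
        · show expA i0 (φ (P j)) = 1
          rw [hom_geo (expA i0) hφ j, expA_P, one_zpow]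
        · rfl
      rcases h with rfl | rfl
      · exact h3
      · rw [map_inv, h3, inv_one]
    rw [h2, expA_A, ← ofAdd_nsmul] at h1
    have : (0 : ℤ) = 2 • (1 : ℤ) := Multiplicative.ofAdd.injective h1
    norm_num at this

theorem torus_comm (x y : Surf 1 0) : x * y = y * x := by
  have hAB : (A 0 : Surf 1 0) * B 0 = B 0 * A 0 := by
    have := relation (g := 1) (b := 0)
    simp only [List.ofFn_succ, List.ofFn_zero, List.prod_cons, List.prod_nil, mul_one] at this
    exact commutatorElement_eq_one_iff_mul_comm.1 this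
  have hA : ∀ x : Surf 1 0, x * A 0 = A 0 * x := by
    have : Subgroup.centralizer ({A 0} : Set (Surf 1 0)) = ⊤ := by
      refine closure_gens _ ?_ ?_ ?_
      · intro i; rw [fin1 i]; rw [Subgroup.mem_centralizer_iff]; simp
      · intro i; rw [fin1 i]; rw [Subgroup.mem_centralizer_iff]; simpa using hAB
      · intro i; exact i.elim0
    intro x
    have hx : x ∈ Subgroup.centralizer ({A 0} : Set (Surf 1 0)) := by rw [this]; exact Subgroup.mem_top _
    rw [Subgroup.mem_centralizer_iff] at hx
    exact (hx (A 0) rfl).symm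
  have hB : ∀ x : Surf 1 0, x * B 0 = B 0 * x := by
    have : Subgroup.centralizer ({B 0} : Set (Surf 1 0)) = ⊤ := by
      refine closure_gens _ ?_ ?_ ?_
      · intro i; rw [fin1 i]; rw [Subgroup.mem_centralizer_iff]; simpa using hAB.symm
      · intro i; rw [fin1 i]; rw [Subgroup.mem_centralizer_iff]; simp
      · intro i; exact i.elim0
    intro x
    have hx : x ∈ Subgroup.centralizer ({B 0} : Set (Surf 1 0)) := by rw [this]; exact Subgroup.mem_top _
    rw [Subgroup.mem_centralizer_iff] at hx
    exact (hx (B 0) rfl).symm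
  have : Subgroup.centralizer ({x} : Set (Surf 1 0)) = ⊤ := by
    refine closure_gens _ ?_ ?_ ?_
    · intro i; rw [fin1 i]; rw [Subgroup.mem_centralizer_iff]; simpa using hA x
    · intro i; rw [fin1 i]; rw [Subgroup.mem_centralizer_iff]; simpa using hB x
    · intro i; exact i.elim0
  have hy : y ∈ Subgroup.centralizer ({x} : Set (Surf 1 0)) := by rw [this]; exact Subgroup.mem_top _
  rw [Subgroup.mem_centralizer_iff] at hy
  exact hy x rfl

/-- **Torus.** -/
theorem torus (n : ℕ) (hn : 1 ≤ n) : dia (simple 1 0) n = 2 := by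
  apply le_antisymm _ (two_le 1 0 n le_rfl hn)
  have : dia (simple 1 0) n ≤ ((2 : ℕ) : ℕ∞) := by
    refine diam_le fun q => ?_
    obtain ⟨h, rfl⟩ := pr_surj n q
    obtain ⟨m, k, z, hz, hh⟩ := coords h
    have hz1 : z = 1 := by
      have : Kz 1 0 = ⊥ := by
        unfold Kz
        rw [Subgroup.closure_eq_bot_iff]
        rintro _ ⟨j, rfl⟩
        exact j.elim0
      rw [this] at hz
      simpa using hz
    refine ⟨[pr _ n (A 0 * B 0 ^ (k 0 - 1)), pr _ n (A 0 * (B 0 * A 0 ^ (m 0 - 2)))], ⟨?_, ?_⟩, by simp⟩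
    · intro x hx
      left
      simp only [List.mem_cons, List.not_mem_nil, or_false] at hx
      rcases hx with rfl | rfl
      · exact ⟨_, simple_X 0 _, rfl⟩
      · exact ⟨_, simple_Y 0 _, rfl⟩
    · simp only [List.prod_cons, List.prod_nil, mul_one]
      rw [← map_mul]
      congr 1
      -- injectivity of the abelianization
      have hinj : ∀ x y : Surf 1 0, Abelianization.of x = Abelianization.of y → x = y := by
        intro x y hxy
        have h1 : x⁻¹ * y ∈ lcs (Surf 1 0) 1 := (pr_eq _ _ _).1 ((pr_one_iff x y).2 hxy)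
        have h2 : lcs (Surf 1 0) 1 ≤ ⊥ := by
          rw [lcs_succ, Subgroup.commutator_le]
          intro x _ y _
          rw [Subgroup.mem_bot, commutatorElement_eq_one_iff_mul_comm]
          exact torus_comm x y
        have h3 := h2 h1
        rw [Subgroup.mem_bot, inv_mul_eq_one] at h3
        exact h3
      apply hinj
      rw [hh, hz1, mul_one, Fin.prod_univ_one]
      simp only [map_mul, map_zpow]
      generalize Abelianization.of (A 0 : Surf 1 0) = a
      generalize Abelianization.of (B 0 : Surf 1 0) = c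
      have ha : a ^ m 0 = a ^ (m 0 - 2) * a * a := by
        rw [← zpow_add_one, ← zpow_add_one]; congr 1; ring
      have hc : c ^ k 0 = c ^ (k 0 - 1) * c := by
        rw [← zpow_add_one]; congr 1; ring
      rw [ha, hc]
      simp only [mul_comm, mul_left_comm, mul_assoc]
  exact_mod_cast this

end H94Simple
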