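import Pool.Agent.H94.SccI

open scoped commutatorElement

namespace H94Simple

variable {b : ℕ}

def vv (i0 i1 j : Fin b) : ℤ := (if j = i0 then 1 else 0) - (if j = i1 then 1 else 0)

def expP (i0 i1 : Fin b) : Surf 0 b →* Multiplicative ℤ :=
  liftHom (fun _ => 1) (fun _ => 1) (fun j => Multiplicative.ofAdd (vv i0 i1 j)) (by
    rw [List.ofFn_zero, List.prod_nil, one_mul, List.prod_ofFn, ← ofAdd_sum]
    simp [vv, Finset.sum_sub_distrib])

theorem expP_P (i0 i1 j : Fin b) : expP i0 i1 (P j : Surf 0 b) = Multiplicative.ofAdd (vv i0 i1 j) := by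
  simp [expP]

theorem expP_simple (i0 i1 : Fin b) {s : Surf 0 b} (hs : s ∈ simple 0 b) :
    |Multiplicative.toAdd (expP i0 i1 s)| ≤ 1 := by
  obtain ⟨φ, ⟨ε, σ, hφ⟩, h⟩ := hs
  rcases h with ⟨i, _⟩ | ⟨m, k, _, _, h⟩
  · exact i.elim0
  have e1 : expP i0 i1 (φ (sep 0 b m k)) =
      Multiplicative.ofAdd ((ε : ℤ) * ((if ((σ.symm i0 : Fin b) : ℕ) < k then 1 else 0) -
        (if ((σ.symm i1 : Fin b) : ℕ) < k then 1 else 0))) := by
    have := hom_sep ((expP i0 i1).comp (φ : Surf 0 b →* Surf 0 b)) m k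
    have h4 : expP i0 i1 (φ (sep 0 b m k)) =
      ((expP i0 i1).comp (φ : Surf 0 b →* Surf 0 b)) (sep 0 b m k) := rfl
    rw [h4, this]
    have h5 : ∀ j : Fin b, (if (j : ℕ) < k then ((expP i0 i1).comp (φ : Surf 0 b →* Surf 0 b)) (P j)
        else 1) = Multiplicative.ofAdd ((ε : ℤ) * (if (j : ℕ) < k then vv i0 i1 (σ j) else 0)) := by
      intro j
      split_ifs
      · show expP i0 i1 (φ (P j)) = _
        rw [hom_geo (expP i0 i1) hφ j, expP_P, ← ofAdd_zsmul, smul_eq_mul]
      · simp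
    rw [Finset.prod_congr rfl (fun j _ => h5 j), ← ofAdd_sum, ← Finset.mul_sum]
    congr 2
    have h6 : ∀ j : Fin b, (if (j : ℕ) < k then vv i0 i1 (σ j) else 0) =
        (if j = σ.symm i0 then (if (j : ℕ) < k then 1 else 0) else 0) -
        (if j = σ.symm i1 then (if (j : ℕ) < k then 1 else 0) else 0) := by
      intro j
      have e0 : (σ j = i0) ↔ (j = σ.symm i0) := (Equiv.eq_symm_apply σ).symm
      have e1 : (σ j = i1) ↔ (j = σ.symm i1) := (Equiv.eq_symm_apply σ).symm
      simp only [vv, e0, e1]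
      split_ifs <;> simp
    rw [Finset.sum_congr rfl (fun j _ => h6 j), Finset.sum_sub_distrib, Finset.sum_ite_eq',
      Finset.sum_ite_eq']
    simp
  have hε : |(ε : ℤ)| = 1 := Int.isUnit_iff_abs_eq.1 ε.isUnit
  have e2 : |Multiplicative.toAdd (expP i0 i1 (φ (sep 0 b m k)))| ≤ 1 := by
    rw [e1, toAdd_ofAdd, abs_mul, hε, one_mul]
    split_ifs <;> simp
  rcases h with rfl | rfl
  · exact e2
  · rw [map_inv, toAdd_inv, abs_neg]; exact e2

/-- **Planar surfaces** with at least two punctures. -/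
theorem planar (b n : ℕ) (hb : 2 ≤ b) (hn : 1 ≤ n) : dia (simple 0 b) n = ⊤ := by
  let i0 : Fin b := ⟨0, by omega⟩
  let i1 : Fin b := ⟨1, by omega⟩
  by_contra hne
  obtain ⟨D, hD⟩ := ENat.ne_top_iff_exists.1 hne
  have h1 : wordLen (pr (Surf 0 b) n '' simple 0 b) (pr (Surf 0 b) n (P i0 ^ (D+1))) ≤ D := by
    rw [hD]
    exact le_iSup (fun x => wordLen (pr (Surf 0 b) n '' simple 0 b) x) _
  obtain ⟨L, hL, hlen⟩ := exists_word h1
  obtain ⟨l, h2, h3, h4⟩ := lift_word (simple 0 b) n L hL.1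
  rw [hL.2] at h4
  have hmem := lcs_anti hn ((pr_eq _ _ _).1 h4)
  have hf := lcs_one_comm (expP i0 i1) hmem
  rw [map_mul, map_inv, inv_mul_eq_one] at hf
  have key : ∀ l : List (Surf 0 b), (∀ x ∈ l, x ∈ simple 0 b ∨ x⁻¹ ∈ simple 0 b) →
      |Multiplicative.toAdd (expP i0 i1 l.prod)| ≤ l.length := by
    intro l
    induction l with
    | nil => intro _; simp
    | cons x l ih =>
      intro hl
      rw [List.prod_cons, map_mul, toAdd_mul, List.length_cons]
      have hx : |Multiplicative.toAdd (expP i0 i1 x)| ≤ 1 := by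
        rcases hl x (by simp) with h | h
        · exact expP_simple i0 i1 h
        · have := expP_simple i0 i1 h
          rwa [map_inv, toAdd_inv, abs_neg] at this
      have := ih (fun y hy => hl y (List.mem_cons_of_mem _ hy))
      push_cast
      exact (abs_add_le _ _).trans (by linarith)
  have h5 := key l h2
  rw [hf, map_pow, expP_P, ← ofAdd_nsmul, toAdd_ofAdd] at h5
  have h6 : vv i0 i1 i0 = 1 := by
    have : i0 ≠ i1 := by intro h; simpa [i0, i1] using congrArg Fin.val h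
    simp [vv, this]
  rw [h6] at h5
  simp only [nsmul_eq_mul, mul_one, Nat.cast_add, Nat.cast_one] at h5
  rw [abs_of_nonneg (by positivity), h3] at h5
  have : (L.length : ℤ) ≤ D := by exact_mod_cast hlen
  linarith

end H94Simple
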