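import Pool.Agent.H94.SccJ

open scoped commutatorElement

namespace H94Simple

section lists

variable {G : Type*} [Group G]

theorem ofFn_prod_single {b : ℕ} (f : Fin b → G) (i : Fin b) :
    (List.ofFn fun j => if j = i then f j else 1).prod = f i := by
  induction b with
  | zero => exact i.elim0
  | succ b ih =>
    rw [List.ofFn_succ, List.prod_cons]
    cases i using Fin.cases with
    | zero =>
      have : (List.ofFn fun j : Fin b => if j.succ = 0 then f j.succ else 1).prod = 1 := by
        apply List.prod_eq_one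
        intro x hx
        obtain ⟨j, rfl⟩ := (List.mem_ofFn' _ _).1 hx
        simp [Fin.succ_ne_zero]
      rw [this, if_pos rfl, mul_one]
    | succ i =>
      rw [if_neg (Fin.succ_ne_zero i).symm, one_mul]
      have h := ih (fun j => f j.succ) i
      simp only [Fin.succ_inj]
      exact h

theorem ofFn_prod_split3 {b : ℕ} (f : Fin b → G) (i : Fin b) :
    (List.ofFn f).prod = (List.ofFn fun j => if j < i then f j else 1).prod * f i *
      (List.ofFn fun j => if i < j then f j else 1).prod := by
  rw [ofFn_prod_split f i, ofFn_prod_split (fun j : Fin b => if (j : ℕ) < i then 1 else f j) (i+1),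
    ← ofFn_prod_single f i, mul_assoc]
  congr 1
  congr 1
  · congr 2
    funext j
    by_cases h1 : j = i
    · subst h1; simp
    · have h2 : (j : ℕ) ≠ i := fun h => h1 (Fin.ext h)
      by_cases h3 : (j : ℕ) < i
      · have : (j : ℕ) < (i : ℕ) + 1 := by omega
        simp [h1, h3, this]
      · have : ¬ (j : ℕ) < (i : ℕ) + 1 := by omega
        simp [h1, this]
  · congr 2
    funext j
    by_cases h3 : (j : ℕ) < (i : ℕ) + 1
    · have : ¬ i < j := by rw [Fin.lt_def]; omega
      simp [h3, this]
    · have h4 : i < j := by rw [Fin.lt_def]; omega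
      have h5 : ¬ (j : ℕ) < i := by omega
      simp [h3, h4, h5]

end lists

section mix

variable {g b : ℕ}

/-- product of the commutators of the handles between `i` and the last one -/
def Mid (b : ℕ) (i : Fin g) : Surf (g+1) b :=
  (List.ofFn fun j : Fin g => if i < j then ⁅(A j.castSucc : Surf (g+1) b),
    (B j.castSucc : Surf (g+1) b)⁆ else 1).prod

/-- the curve through the handles `i` and the last one -/
def Del (b : ℕ) (i : Fin g) : Surf (g+1) b :=
  (B i.castSucc)⁻¹ * Mid b i * (A (Fin.last g) * B (Fin.last g) * (A (Fin.last g))⁻¹)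

def fA (i : Fin g) (x : Surf (g+1) b) (j : Fin (g+1)) : Surf (g+1) b :=
  if j < i.castSucc then A j else if j = i.castSucc then A j * x⁻¹
    else if j = Fin.last g then x * A j else x * A j * x⁻¹

def fB (i : Fin g) (x : Surf (g+1) b) (j : Fin (g+1)) : Surf (g+1) b :=
  if j < i.castSucc then B j else if j = Fin.last g then B j else x * B j * x⁻¹

theorem Del_comm (i : Fin g) (k : ℤ) :
    Del b i ^ k * Del b i * (Del b i ^ k)⁻¹ = Del b i := by
  have : Commute (Del b i ^ k) (Del b i) := (Commute.refl _).zpow_left k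
  rw [this.eq, mul_assoc, mul_inv_cancel, mul_one]

theorem fA_last (i : Fin g) (x : Surf (g+1) b) : fA i x (Fin.last g) = x * A (Fin.last g) := by
  have h1 : ¬ (Fin.last g < i.castSucc) := not_lt.2 (Fin.le_last _)
  have h2 : Fin.last g ≠ i.castSucc := (Fin.castSucc_lt_last i).ne'
  simp [fA, h1, h2]

theorem fB_last (i : Fin g) (x : Surf (g+1) b) : fB i x (Fin.last g) = B (Fin.last g) := by
  have h1 : ¬ (Fin.last g < i.castSucc) := not_lt.2 (Fin.le_last _)
  simp [fB, h1]

theorem fA_self (i : Fin g) (x : Surf (g+1) b) : fA i x i.castSucc = A i.castSucc * x⁻¹ := by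
  simp [fA]

theorem fB_self (i : Fin g) (x : Surf (g+1) b) : fB i x i.castSucc = x * B i.castSucc * x⁻¹ := by
  simp [fB, (Fin.castSucc_lt_last i).ne]

theorem f_lt (i j : Fin g) (x : Surf (g+1) b) (h : j < i) :
    fA i x j.castSucc = A j.castSucc ∧ fB i x j.castSucc = B j.castSucc := by
  have : j.castSucc < i.castSucc := h
  simp [fA, fB, this]

theorem f_gt (i j : Fin g) (x : Surf (g+1) b) (h : i < j) :
    fA i x j.castSucc = x * A j.castSucc * x⁻¹ ∧ fB i x j.castSucc = x * B j.castSucc * x⁻¹ := by
  have h1 : ¬ j.castSucc < i.castSucc := not_lt.2 (le_of_lt h)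
  have h2 : j.castSucc ≠ i.castSucc := fun e => absurd (Fin.castSucc_injective _ e) h.ne'
  have h3 : j.castSucc ≠ Fin.last g := (Fin.castSucc_lt_last j).ne
  simp [fA, fB, h1, h2, h3]

def twD (i : Fin g) (k : ℤ) : Surf (g+1) b →* Surf (g+1) b :=
  liftHom (fA i (Del b i ^ k)) (fB i (Del b i ^ k)) P (by
    set x := Del b i ^ k with hx
    have h0 := relation (g := g+1) (b := b)
    rw [List.ofFn_succ', List.concat_eq_append, List.prod_append, List.prod_singleton] at h0 ⊢
    rw [ofFn_prod_split3 (fun j : Fin g => ⁅(A j.castSucc : Surf (g+1) b),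
      (B j.castSucc : Surf (g+1) b)⁆) i] at h0
    rw [ofFn_prod_split3 (fun j : Fin g => ⁅fA i x j.castSucc, fB i x j.castSucc⁆) i]
    have h1 : (List.ofFn fun j : Fin g => if j < i then ⁅fA i x j.castSucc, fB i x j.castSucc⁆
        else 1) = (List.ofFn fun j : Fin g => if j < i then ⁅(A j.castSucc : Surf (g+1) b),
        (B j.castSucc : Surf (g+1) b)⁆ else 1) := by
      congr 1
      funext j
      split_ifs with h
      · rw [(f_lt i j x h).1, (f_lt i j x h).2]
      · rfl
    have h2 : (List.ofFn fun j : Fin g => if i < j then ⁅fA i x j.castSucc, fB i x j.castSucc⁆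
        else 1).prod = x * Mid b i * x⁻¹ := by
      rw [Mid, ← ofFn_prod_conj]
      congr 2
      funext j
      split_ifs with h
      · rw [(f_gt i j x h).1, (f_gt i j x h).2]
        simp only [commutatorElement_def]; group
      · simp
    rw [h1, h2, fA_self, fB_self, fA_last, fB_last]
    have h4 := Del_comm (b := b) i k
    rw [← hx, Del] at h4
    change _ * _ * Mid b i * _ * _ = 1 at h0
    generalize (List.ofFn fun j : Fin g => if j < i then ⁅(A j.castSucc : Surf (g+1) b),
        (B j.castSucc : Surf (g+1) b)⁆ else 1).prod = X at h0 ⊢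
    generalize (List.ofFn fun j : Fin b => (P j : Surf (g+1) b)).prod = Y at h0 ⊢
    calc X * ⁅(A i.castSucc * x⁻¹ : Surf (g+1) b), x * B i.castSucc * x⁻¹⁆ *
          (x * Mid b i * x⁻¹) * ⁅(x * A (Fin.last g) : Surf (g+1) b), B (Fin.last g)⁆ * Y
        = X * (A i.castSucc * B i.castSucc * (A i.castSucc)⁻¹) * (x * ((B i.castSucc)⁻¹ * Mid b i *
          (A (Fin.last g) * B (Fin.last g) * (A (Fin.last g))⁻¹)) * x⁻¹) *
          (B (Fin.last g))⁻¹ * Y := by
          simp only [commutatorElement_def]; group
      _ = X * ⁅(A i.castSucc : Surf (g+1) b), B i.castSucc⁆ * Mid b i *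
          ⁅(A (Fin.last g) : Surf (g+1) b), B (Fin.last g)⁆ * Y := by
          rw [h4]; simp only [commutatorElement_def]; group
      _ = 1 := h0)

theorem twD_A (i : Fin g) (k : ℤ) (j) : twD i k (A j : Surf (g+1) b) = fA i (Del b i ^ k) j := by
  simp [twD]
theorem twD_B (i : Fin g) (k : ℤ) (j) : twD i k (B j : Surf (g+1) b) = fB i (Del b i ^ k) j := by
  simp [twD]
theorem twD_P (i : Fin g) (k : ℤ) (j) : twD i k (P j : Surf (g+1) b) = P j := by simp [twD]

theorem twD_Del (i : Fin g) (k : ℤ) : twD i k (Del b i) = Del b i := by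
  have hM : twD i k (Mid b i) = Del b i ^ k * Mid b i * (Del b i ^ k)⁻¹ := by
    rw [Mid, map_list_prod, List.map_ofFn, ← ofFn_prod_conj]
    congr 2
    funext j
    simp only [Function.comp]
    split_ifs with h
    · rw [map_commutatorElement, twD_A, twD_B, (f_gt i j _ h).1, (f_gt i j _ h).2]
      simp only [commutatorElement_def]; group
    · simp
  have h := Del_comm (b := b) i k
  conv_lhs => rw [Del]
  conv_rhs => rw [← h]
  rw [map_mul, map_mul, map_mul, map_mul, map_inv, map_inv, hM, twD_A, twD_B, twD_B, fA_last,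
    fB_last, fB_self]
  generalize Del b i ^ k = x
  rw [Del]
  group

theorem fA_comp (i : Fin g) (k : ℤ) (j : Fin (g+1)) :
    twD i (-k) (fA i (Del b i ^ k) j) = A j := by
  have hD := twD_Del (b := b) i (-k)
  by_cases h1 : j < i.castSucc
  · have : fA i (Del b i ^ k) j = A j := by simp [fA, h1]
    rw [this, twD_A]; simp [fA, h1]
  · by_cases h2 : j = i.castSucc
    · subst h2
      rw [fA_self, map_mul, map_inv, map_zpow, hD, twD_A, fA_self]
      simp
    · by_cases h3 : j = Fin.last g
      · subst h3
        rw [fA_last, map_mul, map_zpow, hD, twD_A, fA_last]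
        simp
      · have e : ∀ x, fA (b := b) i x j = x * A j * x⁻¹ := by intro x; simp [fA, h1, h2, h3]
        rw [e, map_mul, map_mul, map_inv, map_zpow, hD, twD_A, e]
        simp [mul_assoc]

theorem fB_comp (i : Fin g) (k : ℤ) (j : Fin (g+1)) :
    twD i (-k) (fB i (Del b i ^ k) j) = B j := by
  have hD := twD_Del (b := b) i (-k)
  by_cases h1 : j < i.castSucc
  · have : fB i (Del b i ^ k) j = B j := by simp [fB, h1]
    rw [this, twD_B]; simp [fB, h1]
  · by_cases h3 : j = Fin.last g
    · subst h3
      rw [fB_last, twD_B, fB_last]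
    · have e : ∀ x, fB (b := b) i x j = x * B j * x⁻¹ := by intro x; simp [fB, h1, h3]
      rw [e, map_mul, map_mul, map_inv, map_zpow, hD, twD_B, e]
      simp [mul_assoc]

theorem twD_comp (i : Fin g) (k : ℤ) :
    (twD i (-k)).comp (twD i k) = MonoidHom.id (Surf (g+1) b) := by
  apply hom_ext'
  · intro j; rw [MonoidHom.comp_apply, twD_A, fA_comp]; rfl
  · intro j; rw [MonoidHom.comp_apply, twD_B, fB_comp]; rfl
  · intro j; rw [MonoidHom.comp_apply, twD_P, twD_P]; rfl

def eqD (i : Fin g) (k : ℤ) : Surf (g+1) b ≃* Surf (g+1) b :=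
  MonoidHom.toMulEquiv (twD i k) (twD i (-k)) (twD_comp i k) (by
    have := twD_comp (b := b) i (-k)
    rwa [neg_neg] at this)

theorem eqD_apply (i : Fin g) (k : ℤ) (x : Surf (g+1) b) : eqD i k x = twD i k x := rfl

theorem geoD (i : Fin g) (k : ℤ) : IsGeometric (eqD i k : Surf (g+1) b ≃* Surf (g+1) b) :=
  isGeometric_of_conj _ fun j => by rw [eqD_apply, twD_P]

end mix

end H94Simple
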