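import Pool.Agent.H94.SccK

open scoped commutatorElement

namespace H94Simple

variable {g b : ℕ}

/-- action on the abelianization -/
def act (φ : Surf g b ≃* Surf g b) : Abelianization (Surf g b) →* Abelianization (Surf g b) :=
  Abelianization.map (φ : Surf g b →* Surf g b)

theorem act_of (φ : Surf g b ≃* Surf g b) (x : Surf g b) :
    act φ (Abelianization.of x) = Abelianization.of (φ x) := by
  unfold act; rw [Abelianization.map_of]; rfl

theorem act_trans (φ ψ : Surf g b ≃* Surf g b) (x : Abelianization (Surf g b)) :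
    act (φ.trans ψ) x = act ψ (act φ x) := by
  obtain ⟨y, rfl⟩ : ∃ y, Abelianization.of y = x := QuotientGroup.mk_surjective x
  rw [act_of, act_of, act_of]; rfl

theorem act_symm (φ : Surf g b ≃* Surf g b) (x : Abelianization (Surf g b)) :
    act φ.symm (act φ x) = x := by
  obtain ⟨y, rfl⟩ : ∃ y, Abelianization.of y = x := QuotientGroup.mk_surjective x
  rw [act_of, act_of, MulEquiv.symm_apply_apply]

/-- geometric automorphisms acting only on the `i`-th handle in homology -/
def Loc (i : Fin g) (φ : Surf g b ≃* Surf g b) : Prop :=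
  IsGeometric φ ∧ (∀ j, j ≠ i → act φ (Abelianization.of (A j)) = Abelianization.of (A j) ∧
    act φ (Abelianization.of (B j)) = Abelianization.of (B j)) ∧
    ∀ j, act φ (Abelianization.of (P j)) = Abelianization.of (P j)

theorem Loc.trans {i : Fin g} {φ ψ : Surf g b ≃* Surf g b} (h : Loc i φ) (h' : Loc i ψ) :
    Loc i (φ.trans ψ) := by
  refine ⟨h.1.trans h'.1, fun j hj => ⟨?_, ?_⟩, fun j => ?_⟩
  · rw [act_trans, (h.2.1 j hj).1, (h'.2.1 j hj).1]
  · rw [act_trans, (h.2.1 j hj).2, (h'.2.1 j hj).2]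
  · rw [act_trans, h.2.2 j, h'.2.2 j]

theorem Loc.symm {i : Fin g} {φ : Surf g b ≃* Surf g b} (h : Loc i φ) : Loc i φ.symm := by
  refine ⟨h.1.symm, fun j hj => ⟨?_, ?_⟩, fun j => ?_⟩
  · conv_lhs => rw [← (h.2.1 j hj).1, act_symm]
  · conv_lhs => rw [← (h.2.1 j hj).2, act_symm]
  · conv_lhs => rw [← h.2.2 j, act_symm]

theorem Loc_refl (i : Fin g) : Loc i (MulEquiv.refl (Surf g b)) :=
  ⟨isGeometric_refl, fun j _ => ⟨by rw [act_of]; rfl, by rw [act_of]; rfl⟩,
    fun j => by rw [act_of]; rfl⟩

theorem Loc_A (i : Fin g) (t : ℤ) : Loc i (eqA (Pi.single i t) : Surf g b ≃* Surf g b) := by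
  refine ⟨geoA _, fun j hj => ⟨?_, ?_⟩, fun j => ?_⟩
  · rw [act_of, eqA_apply, twA_A, Pi.single_eq_of_ne hj, zpow_zero, mul_one]
  · rw [act_of, eqA_apply, twA_B]
  · rw [act_of, eqA_apply, twA_P]

theorem Loc_B (i : Fin g) (t : ℤ) : Loc i (eqB (Pi.single i t) : Surf g b ≃* Surf g b) := by
  refine ⟨geoB _, fun j hj => ⟨?_, ?_⟩, fun j => ?_⟩
  · rw [act_of, eqB_apply, twB_A]
  · rw [act_of, eqB_apply, twB_B, Pi.single_eq_of_ne hj, zpow_zero, mul_one]
  · rw [act_of, eqB_apply, twB_P]

/-- `(α, β)` is a multiple of an image of the class of `B i`. -/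
def Reach (b : ℕ) (i : Fin g) (α β : ℤ) : Prop :=
  ∃ (ρ : Surf g b ≃* Surf g b) (k : ℤ), Loc i ρ ∧
    (act ρ (Abelianization.of (B i))) ^ k =
      Abelianization.of (A i : Surf g b) ^ α * Abelianization.of (B i : Surf g b) ^ β

theorem reach_zero (i : Fin g) (β : ℤ) : Reach b i 0 β :=
  ⟨MulEquiv.refl _, β, Loc_refl i, by rw [act_of]; simp⟩

theorem reach_A (i : Fin g) (α β t : ℤ) (h : Reach b i α β) : Reach b i α (β + t * α) := by
  obtain ⟨ρ, k, h1, h2⟩ := h
  refine ⟨ρ.trans (eqA (Pi.single i t)), k, h1.trans (Loc_A i t), ?_⟩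
  rw [act_trans, ← map_zpow, h2, map_mul, map_zpow, map_zpow, act_of, act_of, eqA_apply,
    eqA_apply, twA_A, twA_B, Pi.single_eq_same, map_mul, map_zpow, mul_zpow, ← zpow_mul,
    mul_assoc, ← zpow_add, add_comm]

theorem reach_B (i : Fin g) (α β t : ℤ) (h : Reach b i α β) : Reach b i (α + t * β) β := by
  obtain ⟨ρ, k, h1, h2⟩ := h
  refine ⟨ρ.trans (eqB (Pi.single i t)), k, h1.trans (Loc_B i t), ?_⟩
  rw [act_trans, ← map_zpow, h2, map_mul, map_zpow, map_zpow, act_of, act_of, eqB_apply,
    eqB_apply, twB_A, twB_B, Pi.single_eq_same, map_mul, map_zpow, mul_zpow, ← zpow_mul,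
    mul_comm (Abelianization.of (B i) ^ β), ← mul_assoc, ← zpow_add]

theorem reach_rot (i : Fin g) (α β : ℤ) (h : Reach b i α β) : Reach b i (-β) α := by
  have h1 := reach_B i _ _ (-1) h
  have h2 := reach_A i _ _ 1 h1
  have h3 := reach_B i _ _ (-1) h2
  have e1 : α + -1 * β + -1 * (β + 1 * (α + -1 * β)) = -β := by ring
  have e2 : β + 1 * (α + -1 * β) = α := by ring
  rwa [e1, e2] at h3

theorem reach_all (i : Fin g) : ∀ (n : ℕ) (α β : ℤ), α.natAbs = n → Reach b i α β := by
  intro n
  induction n using Nat.strong_induction_on with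
  | _ n ih =>
    intro α β hn
    by_cases h0 : α = 0
    · subst h0; exact reach_zero i β
    · have h1 : (β % α).natAbs < n := by
        have h2 := Int.emod_lt_abs β h0
        have h3 := Int.emod_nonneg β h0
        rw [Int.abs_eq_natAbs] at h2
        rw [← hn]; omega
      have h2 := reach_rot i _ _ (ih _ h1 (β % α) (-α) rfl)
      rw [neg_neg] at h2
      have h3 := reach_A i _ _ (β / α) h2
      have e : β % α + β / α * α = β := by rw [mul_comm]; exact Int.emod_add_mul_ediv β α
      rwa [e] at h3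

section mix2

theorem act_D_P (i : Fin g) (k : ℤ) (j : Fin b) :
    act (eqD i k) (Abelianization.of (P j : Surf (g+1) b)) = Abelianization.of (P j) := by
  rw [act_of, eqD_apply, twD_P]

theorem act_D_B (i : Fin g) (k : ℤ) (j : Fin (g+1)) :
    act (eqD i k) (Abelianization.of (B j : Surf (g+1) b)) = Abelianization.of (B j) := by
  rw [act_of, eqD_apply, twD_B, fB]
  split_ifs
  · rfl
  · rfl
  · rw [of_conj]

theorem act_D_A (i : Fin g) (k : ℤ) (j : Fin (g+1)) (h1 : j ≠ i.castSucc) (h2 : j ≠ Fin.last g) :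
    act (eqD i k) (Abelianization.of (A j : Surf (g+1) b)) = Abelianization.of (A j) := by
  rw [act_of, eqD_apply, twD_A, fA]
  split_ifs
  · rfl
  · rw [of_conj]

theorem of_Mid (i : Fin g) : Abelianization.of (Mid b i) = 1 := by
  rw [Mid, map_list_prod, List.map_ofFn]
  apply List.prod_eq_one
  intro x hx
  obtain ⟨j, rfl⟩ := (List.mem_ofFn' _ _).1 hx
  simp only [Function.comp]
  split_ifs
  · simp [map_commutatorElement, commutatorElement_eq_one_iff_mul_comm, mul_comm]
  · simp

theorem of_Del (i : Fin g) : Abelianization.of (Del b i) =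
    (Abelianization.of (B i.castSucc))⁻¹ * Abelianization.of (B (Fin.last g)) := by
  rw [Del, map_mul, map_mul, map_inv, of_Mid, mul_one, of_conj]

theorem act_D_last (i : Fin g) (k : ℤ) :
    act (eqD i k) (Abelianization.of (A (Fin.last g) : Surf (g+1) b)) =
      Abelianization.of (A (Fin.last g)) *
        ((Abelianization.of (B i.castSucc))⁻¹ * Abelianization.of (B (Fin.last g))) ^ k := by
  rw [act_of, eqD_apply, twD_A, fA_last, map_mul, map_zpow, of_Del, mul_comm]

/-- one handle -/
theorem psi_exists (i : Fin g) (α β : ℤ) : ∃ (ψ : Surf (g+1) b ≃* Surf (g+1) b) (k : ℤ),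
    IsGeometric ψ ∧ (∀ j, act ψ (Abelianization.of (P j)) = Abelianization.of (P j)) ∧
    act ψ (Abelianization.of (B (Fin.last g))) = Abelianization.of (B (Fin.last g)) ∧
    (∀ j : Fin g, j ≠ i →
      act ψ (Abelianization.of (A j.castSucc)) = Abelianization.of (A j.castSucc) ∧
      act ψ (Abelianization.of (B j.castSucc)) = Abelianization.of (B j.castSucc)) ∧
    act ψ (Abelianization.of (A (Fin.last g))) = Abelianization.of (A (Fin.last g)) *
      (Abelianization.of (A i.castSucc) ^ α * Abelianization.of (B i.castSucc) ^ β) *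
      Abelianization.of (B (Fin.last g)) ^ k := by
  obtain ⟨ρ, k, h1, h2⟩ := reach_all (b := b) i.castSucc _ α β rfl
  have hL : Fin.last g ≠ i.castSucc := (Fin.castSucc_lt_last i).ne'
  have hs := h1.symm
  refine ⟨ρ.symm.trans ((eqD i (-k)).trans ρ), -k, h1.1.symm.trans ((geoD _ _).trans h1.1), ?_, ?_, ?_, ?_⟩
  · intro j
    rw [act_trans, act_trans, hs.2.2, act_D_P, h1.2.2]
  · rw [act_trans, act_trans, (hs.2.1 _ hL).2, act_D_B, (h1.2.1 _ hL).2]
  · intro j hj
    have hj' : j.castSucc ≠ i.castSucc := fun e => hj (Fin.castSucc_injective _ e)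
    constructor
    · rw [act_trans, act_trans, (hs.2.1 _ hj').1, act_D_A _ _ _ hj' (Fin.castSucc_lt_last j).ne,
        (h1.2.1 _ hj').1]
    · rw [act_trans, act_trans, (hs.2.1 _ hj').2, act_D_B, (h1.2.1 _ hj').2]
  · rw [act_trans, act_trans, (hs.2.1 _ hL).1, act_D_last, map_mul, map_zpow, map_mul, map_inv,
      (h1.2.1 _ hL).1, (h1.2.1 _ hL).2, mul_zpow, ← h2, inv_zpow', neg_neg, mul_assoc]

theorem phi_exists (α β : Fin g → ℤ) (S : Finset (Fin g)) :
    ∃ (ψ : Surf (g+1) b ≃* Surf (g+1) b) (k : ℤ),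
    IsGeometric ψ ∧ (∀ j, act ψ (Abelianization.of (P j)) = Abelianization.of (P j)) ∧
    act ψ (Abelianization.of (B (Fin.last g))) = Abelianization.of (B (Fin.last g)) ∧
    (∀ j : Fin g, j ∉ S →
      act ψ (Abelianization.of (A j.castSucc)) = Abelianization.of (A j.castSucc) ∧
      act ψ (Abelianization.of (B j.castSucc)) = Abelianization.of (B j.castSucc)) ∧
    act ψ (Abelianization.of (A (Fin.last g))) = Abelianization.of (A (Fin.last g)) *
      (∏ i ∈ S, (Abelianization.of (A i.castSucc) ^ α i * Abelianization.of (B i.castSucc) ^ β i)) *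
      Abelianization.of (B (Fin.last g)) ^ k := by
  classical
  induction S using Finset.induction_on with
  | empty =>
    refine ⟨MulEquiv.refl _, 0, isGeometric_refl, fun j => by rw [act_of]; rfl,
      by rw [act_of]; rfl, fun j _ => ⟨by rw [act_of]; rfl, by rw [act_of]; rfl⟩, ?_⟩
    rw [act_of]; simp
  | insert i S hi ih =>
    obtain ⟨φ, k, h1, h2, h3, h4, h5⟩ := ih
    obtain ⟨ψ, l, h1', h2', h3', h4', h5'⟩ := psi_exists (b := b) i (α i) (β i)
    refine ⟨ψ.trans φ, k + l, h1'.trans h1, ?_, ?_, ?_, ?_⟩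
    · intro j; rw [act_trans, h2', h2]
    · rw [act_trans, h3', h3]
    · intro j hj
      rw [Finset.mem_insert, not_or] at hj
      constructor
      · rw [act_trans, (h4' j hj.1).1, (h4 j hj.2).1]
      · rw [act_trans, (h4' j hj.1).2, (h4 j hj.2).2]
    · rw [act_trans, h5', map_mul, map_mul, map_mul, map_zpow, map_zpow, map_zpow, (h4 i hi).1,
        (h4 i hi).2, h3, h5, Finset.prod_insert hi, zpow_add]
      generalize Abelianization.of (A (Fin.last g) : Surf (g+1) b) = x1
      generalize Abelianization.of (B (Fin.last g) : Surf (g+1) b) ^ k = x2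
      generalize Abelianization.of (B (Fin.last g) : Surf (g+1) b) ^ l = x3
      generalize Abelianization.of (A i.castSucc : Surf (g+1) b) ^ α i = x4
      generalize Abelianization.of (B i.castSucc : Surf (g+1) b) ^ β i = x5
      generalize (∏ i ∈ S, (Abelianization.of (A i.castSucc : Surf (g+1) b) ^ α i *
        Abelianization.of (B i.castSucc : Surf (g+1) b) ^ β i)) = x6
      simp only [mul_comm, mul_left_comm]

theorem fix_tk (φ : Surf (g+1) b ≃* Surf (g+1) b)
    (h2 : ∀ j, act φ (Abelianization.of (P j)) = Abelianization.of (P j)) (k : ℕ) :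
    act φ (tk (g+1) b k) = tk (g+1) b k := by
  unfold tk
  rw [map_prod]
  refine Finset.prod_congr rfl fun i _ => ?_
  split_ifs
  · exact h2 i
  · exact map_one _

theorem fix_Kg (φ : Surf (g+1) b ≃* Surf (g+1) b)
    (h2 : ∀ j, act φ (Abelianization.of (P j)) = Abelianization.of (P j))
    (h3 : act φ (Abelianization.of (B (Fin.last g))) = Abelianization.of (B (Fin.last g))) :
    ∀ y ∈ Kg g b, act φ y = y := by
  intro y hy
  have : Kg g b ≤ (MonoidHom.eqLocus (act φ) (MonoidHom.id _)) := by
    unfold Kg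
    rw [Subgroup.closure_le]
    rintro _ ⟨l, rfl⟩
    show act φ (Abelianization.of (Gam g b l)) = Abelianization.of (Gam g b l)
    rw [of_Gam, map_mul, map_inv, h3, fix_tk φ h2]
  exact this hy

theorem fix_Kz (φ : Surf (g+1) b ≃* Surf (g+1) b)
    (h2 : ∀ j, act φ (Abelianization.of (P j)) = Abelianization.of (P j)) :
    ∀ y ∈ Kz (g+1) b, act φ y = y := by
  intro y hy
  have : Kz (g+1) b ≤ (MonoidHom.eqLocus (act φ) (MonoidHom.id _)) := by
    unfold Kz
    rw [Subgroup.closure_le]
    rintro _ ⟨j, rfl⟩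
    exact h2 j
  exact this hy

/-- any class with last handle part `m e + f` is the class of a simple element. -/
theorem full_exists (α β : Fin g → ℤ) (m : ℤ) (Z : Abelianization (Surf (g+1) b))
    (hZ : Z ∈ Kz (g+1) b) : ∃ s ∈ simple (g+1) b, Abelianization.of s =
      Abelianization.of (A (Fin.last g)) ^ m * Abelianization.of (B (Fin.last g)) *
      (∏ i, (Abelianization.of (A (Fin.castSucc i)) ^ α i *
        Abelianization.of (B (Fin.castSucc i)) ^ β i)) * Z := by
  obtain ⟨φ, k, h1, h2, h3, h4, h5⟩ := phi_exists (b := b) α β Finset.univ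
  obtain ⟨φ', h1', -, h5'⟩ := twist_exists (Abelianization.of (B (Fin.last g) : Surf (g+1) b) ^ (-k) * Z)
    (mul_mem (zpow_mem B_mem_Kg _) (Kz_le_Kg hZ))
  set ρ : Surf (g+1) b ≃* Surf (g+1) b := (eqA (Pi.single (Fin.last g) 1)).trans
    (eqB (Pi.single (Fin.last g) (m-1))) with hρ
  have hρL : Loc (Fin.last g) ρ := (Loc_A _ _).trans (Loc_B _ _)
  refine ⟨(φ'.trans (φ.trans ρ)) (A (Fin.last g)), simple_image (simple_A _)
    (h1'.trans (h1.trans hρL.1)), ?_⟩
  have e1 : act ρ (Abelianization.of (A (Fin.last g))) =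
      Abelianization.of (A (Fin.last g)) ^ m * Abelianization.of (B (Fin.last g)) := by
    rw [hρ, act_trans, act_of, eqA_apply, twA_A, Pi.single_eq_same, zpow_one, map_mul, map_mul,
      act_of, act_of, eqB_apply, eqB_apply, twB_A, twB_B, Pi.single_eq_same, map_mul, map_zpow,
      mul_comm (Abelianization.of (B (Fin.last g))), ← mul_assoc, ← zpow_one_add]
    congr 2; ring
  have e2 : ∀ i : Fin g, Fin.castSucc i ≠ Fin.last g := fun i => (Fin.castSucc_lt_last i).ne
  rw [← act_of, act_trans, act_of, h5', act_trans, map_mul, h5,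
    fix_Kg φ h2 h3 _ (mul_mem (zpow_mem B_mem_Kg _) (Kz_le_Kg hZ))]
  have e3 : Abelianization.of (A (Fin.last g) : Surf (g+1) b) *
      (∏ i, (Abelianization.of (A (Fin.castSucc i)) ^ α i *
        Abelianization.of (B (Fin.castSucc i)) ^ β i)) *
      Abelianization.of (B (Fin.last g)) ^ k *
      (Abelianization.of (B (Fin.last g) : Surf (g+1) b) ^ (-k) * Z) =
      Abelianization.of (A (Fin.last g) : Surf (g+1) b) *
      (∏ i, (Abelianization.of (A (Fin.castSucc i)) ^ α i *
        Abelianization.of (B (Fin.castSucc i)) ^ β i)) * Z := by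
    rw [mul_assoc _ (Abelianization.of (B (Fin.last g)) ^ k), ← mul_assoc
      (Abelianization.of (B (Fin.last g)) ^ k), ← zpow_add, add_neg_cancel, zpow_zero, one_mul]
  rw [e3, map_mul, map_mul, e1, fix_Kz ρ hρL.2.2 Z hZ, map_prod]
  congr 2
  refine Finset.prod_congr rfl fun i _ => ?_
  rw [map_mul, map_zpow, map_zpow, (hρL.2.1 _ (e2 i)).1, (hρL.2.1 _ (e2 i)).2]

end mix2

theorem main_list' (h : Surf (g+1) b) : ∃ l : List (Surf (g+1) b),
    (∀ x ∈ l, x ∈ simple (g+1) b) ∧
    Subgroup.closure ((Abelianization.of : Surf (g+1) b →* _) '' {s | s ∈ l}) = ⊤ ∧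
    Abelianization.of l.prod = Abelianization.of h ∧ l.length = 2 * (g+1) + 1 + (b-1) := by
  classical
  obtain ⟨m, n, z, hz, hh⟩ := coords h
  set W : Abelianization (Surf (g+1) b) := ∏ j : Fin (b-1), tk (g+1) b (j+1) with hW
  have hWz : W ∈ Kz (g+1) b := Subgroup.prod_mem _ fun j _ => tk_mem_Kz _
  set Z := z * W⁻¹ with hZ
  have hZz : Z ∈ Kz (g+1) b := mul_mem hz (inv_mem hWz)
  obtain ⟨s, hsS, hs⟩ := full_exists (b := b) (fun i => m i.castSucc - 1)
    (fun i => n i.castSucc - 1) (m (Fin.last g) - 1) Z hZz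
  let l1 : List (List (Surf (g+1) b)) := List.ofFn fun i : Fin g =>
    [A i.castSucc, A i.castSucc * (B i.castSucc * A i.castSucc ^ (-1 : ℤ))]
  let l0 : List (Surf (g+1) b) := [A (Fin.last g) * B (Fin.last g) ^ (n (Fin.last g) - 2),
    A (Fin.last g) * (B (Fin.last g) * A (Fin.last g) ^ (-1 : ℤ)), s]
  let l2 : List (Surf (g+1) b) := List.ofFn fun j : Fin (b-1) => sep (g+1) b 0 (j+1)
  have eY : ∀ i, Abelianization.of (A i * (B i * A i ^ (-1 : ℤ)) : Surf (g+1) b) =
      Abelianization.of (B i : Surf (g+1) b) := by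
    intro i; rw [zpow_neg_one, ← mul_assoc, of_conj]
  have hmem1 : ∀ i : Fin g, A i.castSucc ∈ l1.flatten ++ (l0 ++ l2) ∧
      A i.castSucc * (B i.castSucc * A i.castSucc ^ (-1 : ℤ)) ∈ l1.flatten ++ (l0 ++ l2) := by
    intro i
    have h1 : [A i.castSucc, A i.castSucc * (B i.castSucc * A i.castSucc ^ (-1 : ℤ))] ∈ l1 :=
      (List.mem_ofFn' _ _).2 ⟨i, rfl⟩
    constructor
    · exact List.mem_append_left _ (List.mem_flatten.2 ⟨_, h1, by simp⟩)
    · exact List.mem_append_left _ (List.mem_flatten.2 ⟨_, h1, by simp⟩)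
  have hmem2 : ∀ j : Fin (b-1), sep (g+1) b 0 (j+1) ∈ l1.flatten ++ (l0 ++ l2) := by
    intro j
    exact List.mem_append_right _ (List.mem_append_right _ ((List.mem_ofFn' _ _).2 ⟨j, rfl⟩))
  have hmem0 : ∀ x ∈ l0, x ∈ l1.flatten ++ (l0 ++ l2) := fun x hx =>
    List.mem_append_right _ (List.mem_append_left _ hx)
  refine ⟨l1.flatten ++ (l0 ++ l2), ?_, ?_, ?_, ?_⟩
  · intro x hx
    rcases List.mem_append.1 hx with hx | hx
    · obtain ⟨L, hL, hx⟩ := List.mem_flatten.1 hx
      obtain ⟨i, rfl⟩ := (List.mem_ofFn' _ _).1 hL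
      simp only [List.mem_cons, List.not_mem_nil, or_false] at hx
      rcases hx with rfl | rfl
      · exact simple_A _
      · exact simple_Y _ _
    · rcases List.mem_append.1 hx with hx | hx
      · simp only [l0, List.mem_cons, List.not_mem_nil, or_false] at hx
        rcases hx with rfl | rfl | rfl
        · exact simple_X _ _
        · exact simple_Y _ _
        · exact hsS
      · obtain ⟨j, rfl⟩ := (List.mem_ofFn' _ _).1 hx
        exact simple_sep 0 _ (Nat.zero_le _) (by have := j.2; omega)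
  · set T := Subgroup.closure ((Abelianization.of : Surf (g+1) b →* _) ''
      {s | s ∈ l1.flatten ++ (l0 ++ l2)}) with hT
    have hBL : Abelianization.of (B (Fin.last g) : Surf (g+1) b) ∈ T := by
      rw [← eY]
      exact Subgroup.subset_closure ⟨_, hmem0 _ (by simp [l0]), rfl⟩
    have hAL : Abelianization.of (A (Fin.last g) : Surf (g+1) b) ∈ T := by
      have h1 : Abelianization.of (A (Fin.last g) * B (Fin.last g) ^ (n (Fin.last g) - 2) :
          Surf (g+1) b) ∈ T := Subgroup.subset_closure ⟨_, hmem0 _ (by simp [l0]), rfl⟩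
      rw [map_mul, map_zpow] at h1
      have h3 := mul_mem h1 (inv_mem (zpow_mem hBL (n (Fin.last g) - 2)))
      rwa [mul_inv_cancel_right] at h3
    have hBT : ∀ i, Abelianization.of (B i : Surf (g+1) b) ∈ T := by
      intro i
      cases i using Fin.lastCases with
      | last => exact hBL
      | cast i =>
        rw [← eY]
        exact Subgroup.subset_closure ⟨_, (hmem1 i).2, rfl⟩
    have hAT : ∀ i, Abelianization.of (A i : Surf (g+1) b) ∈ T := by
      intro i
      cases i using Fin.lastCases with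
      | last => exact hAL
      | cast i => exact Subgroup.subset_closure ⟨_, (hmem1 i).1, rfl⟩
    have htT : ∀ k : ℕ, k ≤ b → tk (g+1) b k ∈ T := by
      intro k hk
      rcases Nat.eq_zero_or_pos k with rfl | hk0
      · rw [tk_zero]; exact one_mem _
      · rcases Nat.lt_or_ge k b with hkb | hkb
        · have h1 := hmem2 ⟨k-1, by omega⟩
          have h2 : Abelianization.of (sep (g+1) b 0 ((⟨k-1, by omega⟩ : Fin (b-1)) + 1)) ∈ T :=
            Subgroup.subset_closure ⟨_, h1, rfl⟩
          rw [of_sep_zero] at h2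
          have e : ((⟨k-1, by omega⟩ : Fin (b-1)) : ℕ) + 1 = k := by simp; omega
          rwa [e] at h2
        · have : k = b := le_antisymm hk hkb
          rw [this, tk_top]; exact one_mem _
    have hPT : ∀ j, Abelianization.of (P j : Surf (g+1) b) ∈ T := by
      intro j
      have h1 := mul_mem (inv_mem (htT j j.2.le)) (htT (j+1) j.2)
      rwa [tk_succ, inv_mul_cancel_left] at h1
    have hcomap : T.comap Abelianization.of = ⊤ := closure_gens _ hAT hBT hPT
    rw [eq_top_iff]
    intro x _
    obtain ⟨y, rfl⟩ : ∃ y, Abelianization.of y = x := QuotientGroup.mk_surjective x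
    have : y ∈ T.comap Abelianization.of := by rw [hcomap]; exact Subgroup.mem_top _
    exact this
  · rw [List.prod_append, List.prod_append, List.prod_flatten, map_mul, map_mul, map_list_prod,
      map_list_prod, map_list_prod]
    simp only [l1, l2, l0, List.map_ofFn, List.prod_ofFn]
    have e1 : ∀ i : Fin g, ((Abelianization.of ∘ List.prod ∘ fun i : Fin g =>
        [A i.castSucc, A i.castSucc * (B i.castSucc * A i.castSucc ^ (-1 : ℤ))]) i) =
        (Abelianization.of (A i.castSucc : Surf (g+1) b) *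
          Abelianization.of (B i.castSucc : Surf (g+1) b)) := by
      intro i
      simp only [Function.comp, List.prod_cons, List.prod_nil, mul_one]
      rw [map_mul, eY]
    have e2 : ∀ j : Fin (b-1), ((Abelianization.of ∘ fun j : Fin (b-1) =>
        sep (g+1) b 0 ((j : ℕ)+1)) j) = tk (g+1) b (j+1) := by
      intro j; exact of_sep_zero _
    rw [Finset.prod_congr rfl (fun i _ => e1 i), Finset.prod_congr rfl (fun i _ => e2 i)]
    simp only [List.map_cons, List.map_nil, List.prod_cons, List.prod_nil, mul_one]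
    rw [eY, hs, hh, Fin.prod_univ_castSucc (n := g), map_mul, map_zpow, ← hW, hZ]
    have e3 : (∏ i : Fin g, (Abelianization.of (A i.castSucc : Surf (g+1) b) ^ m i.castSucc *
        Abelianization.of (B i.castSucc : Surf (g+1) b) ^ n i.castSucc)) =
        (∏ i : Fin g, (Abelianization.of (A i.castSucc : Surf (g+1) b) *
          Abelianization.of (B i.castSucc : Surf (g+1) b))) *
        ∏ i : Fin g, (Abelianization.of (A i.castSucc : Surf (g+1) b) ^ (m i.castSucc - 1) *
          Abelianization.of (B i.castSucc : Surf (g+1) b) ^ (n i.castSucc - 1)) := by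
      rw [← Finset.prod_mul_distrib]
      refine Finset.prod_congr rfl fun i _ => ?_
      rw [mul_mul_mul_comm, ← zpow_one_add, ← zpow_one_add]
      congr 2 <;> ring
    rw [e3]
    have ha : Abelianization.of (A (Fin.last g) : Surf (g+1) b) ^ m (Fin.last g) =
        Abelianization.of (A (Fin.last g) : Surf (g+1) b) ^ (m (Fin.last g) - 1) *
          Abelianization.of (A (Fin.last g) : Surf (g+1) b) := by
      rw [← zpow_add_one]; congr 1; ring
    have hb : Abelianization.of (B (Fin.last g) : Surf (g+1) b) ^ n (Fin.last g) =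
        Abelianization.of (B (Fin.last g) : Surf (g+1) b) ^ (n (Fin.last g) - 2) *
          Abelianization.of (B (Fin.last g) : Surf (g+1) b) *
          Abelianization.of (B (Fin.last g) : Surf (g+1) b) := by
      rw [← zpow_add_one, ← zpow_add_one]; congr 1; ring
    rw [ha, hb]
    generalize (∏ i : Fin g, (Abelianization.of (A i.castSucc : Surf (g+1) b) *
          Abelianization.of (B i.castSucc : Surf (g+1) b))) = x1
    generalize (∏ i : Fin g, (Abelianization.of (A i.castSucc : Surf (g+1) b) ^ (m i.castSucc - 1) *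
          Abelianization.of (B i.castSucc : Surf (g+1) b) ^ (n i.castSucc - 1))) = x2
    generalize Abelianization.of (A (Fin.last g) : Surf (g+1) b) ^ (m (Fin.last g) - 1) = x3
    generalize Abelianization.of (A (Fin.last g) : Surf (g+1) b) = x4
    generalize Abelianization.of (B (Fin.last g) : Surf (g+1) b) ^ (n (Fin.last g) - 2) = x5
    generalize Abelianization.of (B (Fin.last g) : Surf (g+1) b) = x6
    have hWW : z = z * W⁻¹ * W := by rw [mul_assoc, inv_mul_cancel, mul_one]
    conv_rhs => rw [hWW]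
    generalize z * W⁻¹ = z'
    clear_value W
    simp only [mul_comm, mul_left_comm]
  · have : ∀ (k : ℕ) (f : Fin k → List (Surf (g+1) b)), (∀ i, (f i).length = 2) →
        (List.ofFn f).flatten.length = 2 * k := by
      intro k
      induction k with
      | zero => intro f _; simp
      | succ k ih =>
        intro f hf
        rw [List.ofFn_succ, List.flatten_cons, List.length_append, hf, ih _ (fun i => hf _)]
        ring
    rw [List.length_append, List.length_append, this _ _ (fun i => rfl), List.length_ofFn]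
    simp only [l0, List.length_cons, List.length_nil]
    ring

/-- **Uniform bound** for every orientable surface of positive genus. -/
theorem surface_bound' (g b n : ℕ) (hg : 1 ≤ g) :
    dia (simple g b) n ≤ ((2 * g + 1 + (b - 1) : ℕ) : ℕ∞) := by
  obtain ⟨g, rfl⟩ := Nat.exists_eq_add_of_le' hg
  rcases Nat.eq_zero_or_pos n with rfl | hn
  · refine diam_le fun q => ?_
    obtain ⟨h, rfl⟩ := pr_surj 0 q
    refine ⟨[], ⟨by simp, ?_⟩, by simp⟩
    rw [List.prod_nil, eq_comm, pr_eq_one]
    exact Subgroup.mem_top _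
  · refine dia_le simple_conj hn fun h => ?_
    obtain ⟨l, h1, h2, h3, h4⟩ := main_list' h
    exact ⟨l, fun x hx => Or.inl (h1 x hx), gen_criterion l h2, (pr_one_iff _ _).2 h3, h4.le⟩

end H94Simple
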