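import Pool.Agent.H94.SccL

open scoped commutatorElement IsMulCommutative

namespace H94Simple

section central

variable {G : Type*} [Group G]

theorem comm_lcs_one (n : ℕ) {w t : G} (hw : w ∈ lcs G n) (ht : t ∈ lcs G 1) :
    ⁅w, t⁆ ∈ lcs G (n+2) := by
  have h2 : lcs G 1 ≤ (rightHom n ⟨w, hw⟩).ker := by
    rw [lcs_succ, Subgroup.commutator_le]
    intro x _ y _
    rw [MonoidHom.mem_ker, map_commutatorElement, commutatorElement_eq_one_iff_mul_comm]
    exact comm_central n hw y (rightHom n ⟨w, hw⟩ x)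
  exact (pr_eq_one _ _).1 (h2 ht)

/-- `w ↦ [w, t]` with values in the centre -/
def cen (n : ℕ) (t : G) : lcs G n →* Subgroup.center (G ⧸ lcs G (n+2)) :=
  (leftHom n t).codRestrict _ (fun w => by
    rw [Subgroup.mem_center_iff]; exact fun g => comm_central n w.2 t g)

theorem cen_coe (n : ℕ) (t : G) (w : lcs G n) :
    ((cen n t w : Subgroup.center (G ⧸ lcs G (n+2))) : G ⧸ lcs G (n+2)) =
      pr G (n+2) ⁅(w : G), t⁆ := rfl

theorem cen_mul (n : ℕ) (s t : G) (w : lcs G n) : cen n (s * t) w = cen n s w * cen n t w :=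
  Subtype.ext (map_mul (rightHom n w) s t)

theorem cen_inv (n : ℕ) (t : G) (w : lcs G n) : cen n t⁻¹ w = (cen n t w)⁻¹ :=
  Subtype.ext (map_inv (rightHom n w) t)

theorem cen_one (n : ℕ) (w : lcs G n) : cen n (1 : G) w = 1 :=
  Subtype.ext (map_one (rightHom n w))

theorem cen_lcs_one (n : ℕ) (t : G) (ht : t ∈ lcs G 1) (w : lcs G n) : cen n t w = 1 :=
  Subtype.ext ((pr_eq_one _ _).2 (comm_lcs_one n w.2 ht))

theorem cen_congr (n : ℕ) {s t : G} (h : pr G 1 s = pr G 1 t) (w : lcs G n) :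
    cen n s w = cen n t w := by
  have h1 : t = s * (s⁻¹ * t) := by group
  rw [h1, cen_mul, cen_lcs_one n _ ((pr_eq _ _ _).1 h), mul_one]

variable {J : Type*} [Fintype J]

def Theta (n : ℕ) (s : J → G) : (J → lcs G n) →* Subgroup.center (G ⧸ lcs G (n+2)) where
  toFun u := ∏ j, cen n (s j) (u j)
  map_one' := by simp
  map_mul' u v := by simp [Finset.prod_mul_distrib]

theorem Theta_apply (n : ℕ) (s : J → G) (u : J → lcs G n) :
    Theta n s u = ∏ j, cen n (s j) (u j) := rfl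

theorem Theta_congr (n : ℕ) {s s' : J → G} (h : ∀ j, pr G 1 (s j) = pr G 1 (s' j))
    (u : J → lcs G n) : Theta n s u = Theta n s' u := by
  rw [Theta_apply, Theta_apply]
  exact Finset.prod_congr rfl fun j _ => cen_congr n (h j) (u j)

theorem Theta_surj (n : ℕ) (s : J → G) (hs : Subgroup.closure (Set.range s) ⊔ lcs G 1 = ⊤)
    (t : G) (ht : t ∈ lcs G (n+1)) :
    ∃ u, ((Theta n s u : Subgroup.center (G ⧸ lcs G (n+2))) : G ⧸ lcs G (n+2)) =
      pr G (n+2) t := by
  classical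
  have key : ∀ (w : lcs G n) (x : G), cen n x w ∈ (Theta n s).range := by
    intro w x
    let M : Subgroup G :=
      { carrier := {x | cen n x w ∈ (Theta n s).range}
        one_mem' := by
          show cen n 1 w ∈ (Theta n s).range
          rw [cen_one]; exact one_mem _
        mul_mem' := by
          intro a b ha hb
          show cen n (a * b) w ∈ (Theta n s).range
          rw [cen_mul]; exact mul_mem ha hb
        inv_mem' := by
          intro a ha
          show cen n a⁻¹ w ∈ (Theta n s).range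
          rw [cen_inv]; exact inv_mem ha }
    have hM : M = ⊤ := by
      rw [eq_top_iff, ← hs]
      refine sup_le ?_ ?_
      · rw [Subgroup.closure_le]
        rintro _ ⟨j, rfl⟩
        refine ⟨Pi.mulSingle j w, ?_⟩
        rw [Theta_apply, Finset.prod_eq_single j]
        · rw [Pi.mulSingle_eq_same]
        · intro i _ hi
          rw [Pi.mulSingle_eq_of_ne hi, map_one]
        · simp
      · intro y hy
        show cen n y w ∈ (Theta n s).range
        rw [cen_lcs_one n y hy]; exact one_mem _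
    have : x ∈ M := by rw [hM]; exact Subgroup.mem_top _
    exact this
  have h3 : lcs G (n+1) ≤ (((Theta n s).range).map
      (Subgroup.center (G ⧸ lcs G (n+2))).subtype).comap (pr G (n+2)) := by
    rw [lcs_succ, Subgroup.commutator_le]
    intro w hw x _
    exact ⟨cen n x ⟨w, hw⟩, key _ _, rfl⟩
  obtain ⟨y, ⟨u, rfl⟩, hy⟩ := h3 ht
  exact ⟨u, hy⟩

end central

section relator

variable {G : Type*} [Group G] {g b : ℕ}

abbrev Idx (g b : ℕ) := Fin g ⊕ Fin g ⊕ Fin b

def Rel (c0 : G) (c : Fin b → G) (v : Idx g b → G) : G :=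
  (List.ofFn fun i : Fin g => ⁅v (Sum.inl i), v (Sum.inr (Sum.inl i))⁆).prod *
    (c0 * (List.ofFn fun j : Fin b =>
      v (Sum.inr (Sum.inr j)) * c j * (v (Sum.inr (Sum.inr j)))⁻¹).prod)

def dd (c : Fin b → G) (v : Idx g b → G) : Idx g b → G
  | Sum.inl i => v (Sum.inr (Sum.inl i))
  | Sum.inr (Sum.inl i) => (v (Sum.inl i))⁻¹
  | Sum.inr (Sum.inr j) => c j

theorem ofFn_central {Q : Type*} [Group Q] {m : ℕ} (z : Fin m → Subgroup.center Q) (f : Fin m → Q) :
    (List.ofFn fun i => ((z i : Subgroup.center Q) : Q) * f i).prod =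
      ((∏ i, z i : Subgroup.center Q) : Q) * (List.ofFn f).prod := by
  induction m with
  | zero => simp
  | succ m ih =>
    rw [List.ofFn_succ, List.ofFn_succ, List.prod_cons, List.prod_cons, ih, Fin.prod_univ_succ,
      Subgroup.coe_mul]
    have h := Subgroup.mem_center_iff.1 (∏ i : Fin m, z i.succ).2 (f 0)
    rw [mul_assoc, ← mul_assoc (f 0), h]
    simp only [mul_assoc]

theorem factor1 {n : ℕ} (hn : 1 ≤ n) (x y : G) (u w : lcs G n) :
    pr G (n+2) ⁅x * (u : G), y * (w : G)⁆ =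
      ((cen n y u * cen n x⁻¹ w : Subgroup.center (G ⧸ lcs G (n+2))) : G ⧸ lcs G (n+2)) *
        pr G (n+2) ⁅x, y⁆ := by
  have hw1 : (w : G) ∈ lcs G 1 := (Subgroup.lowerCentralSeries_antitone _ hn) w.2
  have e1 : ⁅x * (u : G), y * (w : G)⁆ = x * ⁅(u : G), y * w⁆ * x⁻¹ * ⁅x, y * (w : G)⁆ := by
    simp only [commutatorElement_def]; group
  have e2 : ⁅x, y * (w : G)⁆ = ⁅x, y⁆ * (y * ⁅(w : G), x⁆⁻¹ * y⁻¹) := by
    simp only [commutatorElement_def]; group
  have c1 := comm_central n u.2 (y * (w : G)) (pr G (n+2) x)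
  have c2 := comm_central n w.2 x (pr G (n+2) y)
  have e3 : pr G (n+2) (x * ⁅(u : G), y * (w : G)⁆ * x⁻¹) = pr G (n+2) ⁅(u : G), y⁆ := by
    rw [map_mul, map_mul, map_inv, c1, mul_assoc, mul_inv_cancel, mul_one]
    have := congrArg Subtype.val (cen_mul n y (w : G) u)
    rw [cen_lcs_one n _ hw1, mul_one] at this
    exact this
  have e4 : pr G (n+2) (y * ⁅(w : G), x⁆⁻¹ * y⁻¹) = pr G (n+2) ⁅(w : G), x⁻¹⁆ := by
    have h1 : pr G (n+2) ⁅(w : G), x⁻¹⁆ = (pr G (n+2) ⁅(w : G), x⁆)⁻¹ :=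
      congrArg Subtype.val (cen_inv n x w)
    rw [h1, map_mul, map_mul, map_inv, map_inv]
    have h2 : pr G (n+2) y * (pr G (n+2) ⁅(w : G), x⁆)⁻¹ = (pr G (n+2) ⁅(w : G), x⁆)⁻¹ * pr G (n+2) y := by
      rw [eq_inv_mul_iff_mul_eq, ← mul_assoc, ← c2, mul_assoc, mul_inv_cancel, mul_one]
    rw [h2, mul_assoc, mul_inv_cancel, mul_one]
  rw [e1, e2, map_mul, e3, map_mul, e4, Subgroup.coe_mul, cen_coe, cen_coe]
  have c3 := comm_central n w.2 x⁻¹ (pr G (n+2) ⁅x, y⁆)
  rw [c3, mul_assoc]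

theorem factor2 {n : ℕ} (x c : G) (u : lcs G n) :
    pr G (n+2) (x * (u : G) * c * (x * (u : G))⁻¹) =
      ((cen n c u : Subgroup.center (G ⧸ lcs G (n+2))) : G ⧸ lcs G (n+2)) *
        pr G (n+2) (x * c * x⁻¹) := by
  have e1 : x * (u : G) * c * (x * (u : G))⁻¹ = x * ⁅(u : G), c⁆ * x⁻¹ * (x * c * x⁻¹) := by
    simp only [commutatorElement_def]; group
  have c1 := comm_central n u.2 c (pr G (n+2) x)
  rw [e1, map_mul, cen_coe]
  congr 1
  rw [map_mul, map_mul, map_inv, c1, mul_assoc, mul_inv_cancel, mul_one]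

theorem Rel_mul {n : ℕ} (hn : 1 ≤ n) (c0 : G) (c : Fin b → G) (v : Idx g b → G)
    (u : Idx g b → lcs G n) :
    pr G (n+2) (Rel c0 c fun j => v j * (u j : G)) =
      ((Theta n (dd c v) u : Subgroup.center (G ⧸ lcs G (n+2))) : G ⧸ lcs G (n+2)) *
        pr G (n+2) (Rel c0 c v) := by
  have h1 : pr G (n+2) (List.ofFn fun i : Fin g => ⁅v (Sum.inl i) * (u (Sum.inl i) : G),
      v (Sum.inr (Sum.inl i)) * (u (Sum.inr (Sum.inl i)) : G)⁆).prod =
      ((∏ i : Fin g, (cen n (v (Sum.inr (Sum.inl i))) (u (Sum.inl i)) *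
        cen n (v (Sum.inl i))⁻¹ (u (Sum.inr (Sum.inl i)))) : Subgroup.center (G ⧸ lcs G (n+2))) :
        G ⧸ lcs G (n+2)) *
      pr G (n+2) (List.ofFn fun i : Fin g => ⁅v (Sum.inl i), v (Sum.inr (Sum.inl i))⁆).prod := by
    rw [map_list_prod, List.map_ofFn, map_list_prod, List.map_ofFn, ← ofFn_central]
    congr 2
    funext i
    exact factor1 hn _ _ _ _
  have h2 : pr G (n+2) (List.ofFn fun j : Fin b =>
      v (Sum.inr (Sum.inr j)) * (u (Sum.inr (Sum.inr j)) : G) * c j *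
        (v (Sum.inr (Sum.inr j)) * (u (Sum.inr (Sum.inr j)) : G))⁻¹).prod =
      ((∏ j : Fin b, cen n (c j) (u (Sum.inr (Sum.inr j))) : Subgroup.center (G ⧸ lcs G (n+2))) :
        G ⧸ lcs G (n+2)) *
      pr G (n+2) (List.ofFn fun j : Fin b => v (Sum.inr (Sum.inr j)) * c j *
        (v (Sum.inr (Sum.inr j)))⁻¹).prod := by
    rw [map_list_prod, List.map_ofFn, map_list_prod, List.map_ofFn, ← ofFn_central]
    congr 2
    funext i
    exact factor2 _ _ _
  rw [Rel, Rel, map_mul, map_mul, map_mul, map_mul, h1, h2, Theta_apply, Fintype.prod_sum_type,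
    Fintype.prod_sum_type]
  simp only [dd]
  rw [Finset.prod_mul_distrib, ← mul_assoc]
  generalize pr G (n+2) (List.ofFn fun i : Fin g =>
    ⁅v (Sum.inl i), v (Sum.inr (Sum.inl i))⁆).prod = X
  generalize pr G (n+2) (List.ofFn fun j : Fin b => v (Sum.inr (Sum.inr j)) * c j *
        (v (Sum.inr (Sum.inr j)))⁻¹).prod = Y
  generalize pr G (n+2) c0 = C
  rw [← mul_assoc (∏ x : Fin g, cen n (v (Sum.inr (Sum.inl x))) (u (Sum.inl x)))]
  rw [Subgroup.coe_mul (Subgroup.center (G ⧸ lcs G (n+2))) _ (∏ j : Fin b, cen n (c j) (u (Sum.inr (Sum.inr j))))]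
  have h := Subgroup.mem_center_iff.1 (∏ j : Fin b, cen n (c j) (u (Sum.inr (Sum.inr j)))).2
    (X * C)
  generalize ((∏ j : Fin b, cen n (c j) (u (Sum.inr (Sum.inr j))) :
    Subgroup.center (G ⧸ lcs G (n+2))) : G ⧸ lcs G (n+2)) = Z at h ⊢
  rw [mul_assoc _ X C, mul_assoc _ (X * C), ← mul_assoc (X * C) Z, h]
  simp only [mul_assoc]

end relator

end H94Simple
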