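import Pool.Agent.H94.SccM

open scoped commutatorElement IsMulCommutative

namespace H94Simple

variable {G : Type*} [Group G] {g b : ℕ}

def EE (c0 : G) (c : Fin b → G) (n : ℕ) : Set (Idx g b → G) :=
  {v | Subgroup.closure (Set.range (dd c v)) ⊔ lcs G 1 = ⊤ ∧ Rel c0 c v ∈ lcs G (n+1)}

theorem pr_out (n : ℕ) (q : G ⧸ lcs G n) : pr G n (Quotient.out q) = q :=
  QuotientGroup.out_eq' q

theorem dd_congr (c : Fin b → G) {v v' : Idx g b → G} (h : ∀ j, pr G 1 (v j) = pr G 1 (v' j)) :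
    ∀ j, pr G 1 (dd c v j) = pr G 1 (dd c v' j) := by
  intro j
  rcases j with i | i | i
  · exact h _
  · show pr G 1 (v (Sum.inl i))⁻¹ = pr G 1 (v' (Sum.inl i))⁻¹
    rw [map_inv, map_inv, h]
  · rfl

theorem gen_congr {J : Type*} {s s' : J → G} (h : ∀ j, pr G 1 (s j) = pr G 1 (s' j))
    (hs : Subgroup.closure (Set.range s) ⊔ lcs G 1 = ⊤) :
    Subgroup.closure (Set.range s') ⊔ lcs G 1 = ⊤ := by
  rw [eq_top_iff, ← hs]
  refine sup_le ?_ le_sup_right
  rw [Subgroup.closure_le]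
  rintro _ ⟨j, rfl⟩
  have e : s j = s' j * ((s' j)⁻¹ * s j) := by group
  rw [SetLike.mem_coe, e]
  exact mul_mem (Subgroup.mem_sup_left (Subgroup.subset_closure ⟨j, rfl⟩))
    (Subgroup.mem_sup_right ((pr_eq _ _ _).1 (h j).symm))

theorem lcs_anti' {m n : ℕ} (h : m ≤ n) : lcs G n ≤ lcs G m :=
  Subgroup.lowerCentralSeries_antitone _ h

theorem pr_one_mul {n : ℕ} (hn : 1 ≤ n) (x : G) (u : lcs G n) :
    pr G 1 (x * (u : G)) = pr G 1 x := by
  rw [map_mul, (pr_eq_one 1 (u : G)).2 (lcs_anti' hn u.2), mul_one]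

theorem mem_of_map {n : ℕ} {x : G} (h : pr G (n+2) x ∈ (lcs G (n+1)).map (pr G (n+2))) :
    x ∈ lcs G (n+1) := by
  obtain ⟨y, hy, hyx⟩ := h
  have h1 := lcs_anti' (Nat.le_succ (n+1)) ((pr_eq _ _ _).1 hyx)
  have : x = y * (y⁻¹ * x) := by group
  rw [this]; exact mul_mem hy h1

theorem Theta_mem {J : Type*} [Fintype J] (n : ℕ) (s : J → G) (u : J → lcs G n) :
    ((Theta n s u : Subgroup.center (G ⧸ lcs G (n+2))) : G ⧸ lcs G (n+2)) ∈
      (lcs G (n+1)).map (pr G (n+2)) := by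
  have : Theta n s u ∈ ((lcs G (n+1)).map (pr G (n+2))).subgroupOf
      (Subgroup.center (G ⧸ lcs G (n+2))) := by
    rw [Theta_apply]
    refine Subgroup.prod_mem _ fun j _ => ?_
    rw [Subgroup.mem_subgroupOf, cen_coe]
    refine ⟨_, ?_, rfl⟩
    rw [lcs_succ]
    exact Subgroup.commutator_mem_commutator (u j).2 (Subgroup.mem_top _)
  exact this

theorem EE_mul {n : ℕ} (hn : 1 ≤ n) {c0 : G} {c : Fin b → G} {v : Idx g b → G}
    (hv : v ∈ EE c0 c n) (u : Idx g b → lcs G n) :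
    (fun j => v j * (u j : G)) ∈ EE c0 c n := by
  refine ⟨gen_congr (dd_congr c fun j => (pr_one_mul hn _ _).symm) hv.1, ?_⟩
  refine mem_of_map ?_
  rw [Rel_mul hn]
  exact mul_mem (Theta_mem n _ u) ⟨_, hv.2, rfl⟩

theorem EE_anti {n : ℕ} {c0 : G} {c : Fin b → G} {v : Idx g b → G}
    (hv : v ∈ EE c0 c (n+1)) : v ∈ EE c0 c n := ⟨hv.1, lcs_anti' (Nat.le_succ _) hv.2⟩

open Classical in
/-- choice of the corrections -/
noncomputable def UU (n : ℕ) (q : Idx g b → G ⧸ lcs G 1)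
    (τ : lcs G (n+1) ⧸ (lcs G (n+2)).subgroupOf (lcs G (n+1))) : Idx g b → lcs G n :=
  Classical.epsilon fun u : Idx g b → lcs G n =>
    ((Theta n (fun j => Quotient.out (q j)) u : Subgroup.center (G ⧸ lcs G (n+2))) :
      G ⧸ lcs G (n+2)) = pr G (n+2) ((Quotient.out τ : lcs G (n+1)) : G)

theorem UU_spec {n : ℕ} (hn : 1 ≤ n) {c0 : G} {c : Fin b → G} {v : Idx g b → G}
    (hv : v ∈ EE c0 c (n+1)) (τ : lcs G (n+1) ⧸ (lcs G (n+2)).subgroupOf (lcs G (n+1))) :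
    pr G (n+2) (Rel c0 c fun j => v j * (UU n (fun j => pr G 1 (dd c v j)) τ j : G)) =
      pr G (n+2) ((Quotient.out τ : lcs G (n+1)) : G) := by
  have h1 : ∀ j, pr G 1 (dd c v j) = pr G 1 (Quotient.out (pr G 1 (dd c v j))) := fun j =>
    (pr_out _ _).symm
  have h2 := Theta_surj n _ (gen_congr h1 hv.1) _ (Quotient.out τ : lcs G (n+1)).2
  have h3 := Classical.epsilon_spec h2
  rw [Rel_mul hn, (pr_eq_one (n+2) _).2 hv.2, mul_one, Theta_congr n h1]
  exact h3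

theorem EE_step [Finite G] {n : ℕ} (hn : 1 ≤ n) (c0 : G) (c : Fin b → G) :
    Nat.card (EE (g := g) c0 c (n+1)) * (lcs G (n+2)).relIndex (lcs G (n+1)) ≤
      Nat.card (EE (g := g) c0 c n) := by
  have e : (lcs G (n+2)).relIndex (lcs G (n+1)) =
      Nat.card (lcs G (n+1) ⧸ (lcs G (n+2)).subgroupOf (lcs G (n+1))) := rfl
  rw [e, ← Nat.card_prod]
  let F : (EE (g := g) c0 c (n+1)) × (lcs G (n+1) ⧸ (lcs G (n+2)).subgroupOf (lcs G (n+1))) →
      EE (g := g) c0 c n := fun x =>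
    ⟨fun j => x.1.1 j * (UU n (fun j => pr G 1 (dd c x.1.1 j)) x.2 j : G),
      EE_mul hn (EE_anti x.1.2) _⟩
  refine Nat.card_le_card_of_injective F ?_
  rintro ⟨⟨v, hv⟩, τ⟩ ⟨⟨v', hv'⟩, τ'⟩ h
  have h0 : (fun j => v j * (UU n (fun j => pr G 1 (dd c v j)) τ j : G)) =
      fun j => v' j * (UU n (fun j => pr G 1 (dd c v' j)) τ' j : G) := congrArg Subtype.val h
  have h1 : ∀ j, pr G 1 (v j) = pr G 1 (v' j) := by
    intro j
    have := congrArg (pr G 1) (congrFun h0 j)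
    rwa [pr_one_mul hn, pr_one_mul hn] at this
  have h2 : (fun j => pr G 1 (dd c v j)) = fun j => pr G 1 (dd c v' j) :=
    funext (dd_congr c h1)
  have h3 := UU_spec hn hv τ
  have h4 := UU_spec hn hv' τ'
  rw [h0, h4] at h3
  have h5 : τ = τ' := by
    rw [← QuotientGroup.out_eq' τ, ← QuotientGroup.out_eq' τ', eq_comm, QuotientGroup.eq,
      Subgroup.mem_subgroupOf]
    exact (pr_eq _ _ _).1 h3
  subst h5
  rw [← h2] at h0
  have h6 : v = v' := by
    funext j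
    exact mul_right_cancel (congrFun h0 j)
  subst h6
  rfl

theorem EE_bound [Finite G] (c0 : G) (c : Fin b → G) (n : ℕ) :
    Nat.card (EE (g := g) c0 c (n+1)) * (lcs G (n+2)).index ≤
      Nat.card (EE (g := g) c0 c 1) * (lcs G 2).index := by
  induction n with
  | zero => exact le_rfl
  | succ n ih =>
    refine le_trans ?_ ih
    have h1 := EE_step (g := g) (Nat.le_add_left 1 n) c0 c
    have h2 := Subgroup.relIndex_mul_index (lcs_anti' (G := G) (Nat.le_succ (n+2)))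
    have h3 := Nat.mul_le_mul_right (lcs G (n+2)).index h1
    calc Nat.card (EE (g := g) c0 c (n+1+1)) * (lcs G (n+1+2)).index
        = Nat.card (EE (g := g) c0 c (n+1+1)) * (lcs G (n+1+2)).relIndex (lcs G (n+1+1)) *
          (lcs G (n+2)).index := by rw [mul_assoc]; congr 1; exact h2.symm
      _ ≤ _ := h3

def DD (c0 : G) (c : Fin b → G) (n : ℕ) : Set (Idx g b → G ⧸ lcs G n) :=
  (fun v j => pr G n (v j)) '' EE c0 c n

theorem DD_card [Finite G] {n : ℕ} (hn : 1 ≤ n) (c0 : G) (c : Fin b → G) :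
    Nat.card (DD (g := g) c0 c n) * Nat.card (lcs G n) ^ Fintype.card (Idx g b) ≤
      Nat.card (EE (g := g) c0 c n) := by
  have e : Nat.card (lcs G n) ^ Fintype.card (Idx g b) = Nat.card (Idx g b → lcs G n) := by
    rw [Nat.card_fun, Nat.card_eq_fintype_card (α := Idx g b)]
  rw [e, ← Nat.card_prod]
  have hch : ∀ d : DD (g := g) c0 c n, ∃ v, v ∈ EE c0 c n ∧ (fun j => pr G n (v j)) = d.1 :=
    fun d => d.2
  choose rep hrep1 hrep2 using hch
  let F : (DD (g := g) c0 c n) × (Idx g b → lcs G n) → EE (g := g) c0 c n := fun x =>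
    ⟨fun j => rep x.1 j * (x.2 j : G), EE_mul hn (hrep1 x.1) x.2⟩
  refine Nat.card_le_card_of_injective F ?_
  rintro ⟨d, u⟩ ⟨d', u'⟩ h
  have h0 : (fun j => rep d j * (u j : G)) = fun j => rep d' j * (u' j : G) :=
    congrArg Subtype.val h
  have h1 : d = d' := by
    apply Subtype.ext
    rw [← hrep2, ← hrep2]
    funext j
    have := congrArg (pr G n) (congrFun h0 j)
    rwa [map_mul, map_mul, (pr_eq_one n (u j : G)).2 (u j).2, (pr_eq_one n (u' j : G)).2 (u' j).2,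
      mul_one, mul_one] at this
  subst h1
  have h2 : u = u' := by
    funext j
    exact Subtype.ext (mul_left_cancel (congrFun h0 j))
  subst h2
  rfl

theorem DD_bound [Finite G] (c0 : G) (c : Fin b → G) (n : ℕ) :
    Nat.card (DD (g := g) c0 c (n+1)) * (lcs G (n+2)).index ≤
      (lcs G (n+1)).index ^ Fintype.card (Idx g b) * (lcs G 2).index := by
  have h1 := DD_card (g := g) (Nat.le_add_left 1 n) c0 c
  have h2 := EE_bound (g := g) c0 c n
  have h3 : Nat.card (EE (g := g) c0 c 1) ≤ Nat.card (Idx g b → G) :=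
    Nat.card_le_card_of_injective _ Subtype.val_injective
  rw [Nat.card_fun, Nat.card_eq_fintype_card (α := Idx g b)] at h3
  have h4 : Nat.card G = Nat.card (lcs G (n+1)) * (lcs G (n+1)).index :=
    ((lcs G (n+1)).card_mul_index).symm
  set r := Fintype.card (Idx g b)
  set k := Nat.card (lcs G (n+1))
  have hk : 0 < k := Nat.card_pos
  rw [h4, mul_pow] at h3
  have h5 : Nat.card (DD (g := g) c0 c (n+1)) * (lcs G (n+2)).index * k ^ r ≤
      (lcs G (n+1)).index ^ r * (lcs G 2).index * k ^ r := by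
    calc Nat.card (DD (g := g) c0 c (n+1)) * (lcs G (n+2)).index * k ^ r
        = (Nat.card (DD (g := g) c0 c (n+1)) * k ^ r) * (lcs G (n+2)).index := by ring
      _ ≤ Nat.card (EE (g := g) c0 c (n+1)) * (lcs G (n+2)).index := Nat.mul_le_mul_right _ h1
      _ ≤ Nat.card (EE (g := g) c0 c 1) * (lcs G 2).index := h2
      _ ≤ (k ^ r * (lcs G (n+1)).index ^ r) * (lcs G 2).index := Nat.mul_le_mul_right _ h3
      _ = _ := by ring
  exact Nat.le_of_mul_le_mul_right h5 (pow_pos hk r)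

/-- counting products of conjugates -/
theorem cover_count {Q : Type*} [Group Q] [Finite Q] (Z1 Z2 H1 : Subgroup Q)
    (hZ1 : Z1 ≤ Subgroup.center Q) [H1.Normal] (hZ2 : ∀ z ∈ Z2, ∀ h ∈ H1, z * h = h * z)
    (C : Set Q) (k : ℕ)
    (hC : ∀ h ∈ H1, ∃ (w c : Fin (k+1) → Q), (∀ i, c i ∈ C) ∧
      h = (List.ofFn fun i => w i * c i * (w i)⁻¹).prod) :
    Nat.card H1 ≤ Nat.card C ^ (k+1) * (Z1.index ^ k * Z2.index) := by
  classical
  let F : (Fin (k+1) → C) × ((Fin k → Q ⧸ Z1) × (Q ⧸ Z2)) → Q := fun x =>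
    Quotient.out x.2.2 * ((x.1 0 : Q) * (List.ofFn fun i : Fin k =>
      Quotient.out (x.2.1 i) * (x.1 i.succ : Q) * (Quotient.out (x.2.1 i))⁻¹).prod) *
      (Quotient.out x.2.2)⁻¹
  have hsub : (H1 : Set Q) ⊆ Set.range F := by
    intro h hh
    obtain ⟨w, c, hc, rfl⟩ := hC h hh
    refine ⟨⟨fun i => ⟨c i, hc i⟩, ⟨fun i => ((w 0)⁻¹ * w i.succ : Q), (w 0 : Q)⟩⟩, ?_⟩
    set h' := c 0 * (List.ofFn fun i : Fin k => ((w 0)⁻¹ * w i.succ) * c i.succ *
      ((w 0)⁻¹ * w i.succ)⁻¹).prod with hh'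
    have e1 : (List.ofFn fun i => w i * c i * (w i)⁻¹).prod = w 0 * h' * (w 0)⁻¹ := by
      have e2 : (List.ofFn fun i : Fin k => ((w 0)⁻¹ * w i.succ) * c i.succ *
          ((w 0)⁻¹ * w i.succ)⁻¹) = (List.ofFn fun i : Fin k => (w 0)⁻¹ *
            (w i.succ * c i.succ * (w i.succ)⁻¹) * ((w 0)⁻¹)⁻¹) := by
        congr 1; funext i; group
      rw [hh', e2, ofFn_prod_conj, List.ofFn_succ, List.prod_cons]
      group
    have hh1 : h' ∈ H1 := by
      have h2 := (inferInstance : H1.Normal).conj_mem _ hh (w 0)⁻¹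
      rw [e1] at h2
      have e3 : (w 0)⁻¹ * (w 0 * h' * (w 0)⁻¹) * ((w 0)⁻¹)⁻¹ = h' := by group
      rwa [e3] at h2
    have e4 : ∀ i : Fin k, Quotient.out (((w 0)⁻¹ * w i.succ : Q) : Q ⧸ Z1) * c i.succ *
        (Quotient.out (((w 0)⁻¹ * w i.succ : Q) : Q ⧸ Z1))⁻¹ =
        ((w 0)⁻¹ * w i.succ) * c i.succ * ((w 0)⁻¹ * w i.succ)⁻¹ := by
      intro i
      obtain ⟨z, hz⟩ := QuotientGroup.mk_out_eq_mul Z1 ((w 0)⁻¹ * w i.succ)
      rw [hz]
      have hz2 := Subgroup.mem_center_iff.1 (hZ1 z.2) (c i.succ)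
      calc ((w 0)⁻¹ * w i.succ) * (z : Q) * c i.succ * (((w 0)⁻¹ * w i.succ) * (z : Q))⁻¹
          = ((w 0)⁻¹ * w i.succ) * ((z : Q) * c i.succ) * (z : Q)⁻¹ * ((w 0)⁻¹ * w i.succ)⁻¹ := by
            group
        _ = _ := by rw [← hz2]; group
    obtain ⟨z, hz⟩ := QuotientGroup.mk_out_eq_mul Z2 (w 0)
    show Quotient.out ((w 0 : Q) : Q ⧸ Z2) * (c 0 * (List.ofFn fun i : Fin k =>
      Quotient.out (((w 0)⁻¹ * w i.succ : Q) : Q ⧸ Z1) * c i.succ *
        (Quotient.out (((w 0)⁻¹ * w i.succ : Q) : Q ⧸ Z1))⁻¹).prod) *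
        (Quotient.out ((w 0 : Q) : Q ⧸ Z2))⁻¹ = _
    rw [e1, funext e4, hz]
    change w 0 * (z : Q) * h' * (w 0 * (z : Q))⁻¹ = _
    calc w 0 * (z : Q) * h' * (w 0 * (z : Q))⁻¹ = w 0 * ((z : Q) * h') * (z : Q)⁻¹ * (w 0)⁻¹ := by
          group
      _ = _ := by rw [hZ2 z z.2 h' hh1]; group
  have h1 : Nat.card H1 ≤ Nat.card (Set.range F) :=
    Nat.card_mono (Set.toFinite _) hsub
  have h2 : Nat.card (Set.range F) ≤
      Nat.card ((Fin (k+1) → C) × ((Fin k → Q ⧸ Z1) × (Q ⧸ Z2))) :=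
    Nat.card_le_card_of_surjective _ Set.rangeFactorization_surjective
  rw [Nat.card_prod, Nat.card_prod, Nat.card_fun, Nat.card_fun, Nat.card_fin, Nat.card_fin] at h2
  exact h1.trans h2

end H94Simple
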