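import Pool.Agent.H94.SccN

open scoped commutatorElement IsMulCommutative

namespace H94Simple

variable {g b : ℕ}

section words

variable {H K : Type*} [Group H] [Group K]

abbrev Typ (g b : ℕ) := Fin g ⊕ (Fin (g+1) × Fin (b+2))

def pvec (c0 : H) (c : Fin b → H) (v : Idx g b → H) : Fin (b+1) → H :=
  Fin.cons c0 (fun j => v (Sum.inr (Sum.inr j)) * c j * (v (Sum.inr (Sum.inr j)))⁻¹)

def Wd (c0 : H) (c : Fin b → H) (v : Idx g b → H) : Typ g b → H
  | Sum.inl i => v (Sum.inl i)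
  | Sum.inr x => (List.ofFn fun i : Fin g => if g ≤ (i : ℕ) + x.1 then
      ⁅v (Sum.inl i), v (Sum.inr (Sum.inl i))⁆ else 1).prod *
      (List.ofFn fun j : Fin (b+1) => if (j : ℕ) < x.2 then pvec c0 c v j else 1).prod

theorem pvec_map (f : H →* K) (c0 : H) (c : Fin b → H) (v : Idx g b → H) (j : Fin (b+1)) :
    f (pvec c0 c v j) = pvec (f c0) (fun j => f (c j)) (fun j => f (v j)) j := by
  cases j using Fin.cases with
  | zero => simp [pvec]
  | succ j => simp [pvec]

theorem Wd_map (f : H →* K) (c0 : H) (c : Fin b → H) (v : Idx g b → H) (τ : Typ g b) :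
    f (Wd c0 c v τ) = Wd (f c0) (fun j => f (c j)) (fun j => f (v j)) τ := by
  rcases τ with i | x
  · rfl
  · simp only [Wd]
    rw [map_mul, map_list_prod, List.map_ofFn, map_list_prod, List.map_ofFn]
    congr 1
    · congr 2
      funext i
      simp only [Function.comp]
      split_ifs
      · rw [map_commutatorElement]
      · rw [map_one]
    · congr 2
      funext i
      simp only [Function.comp]
      split_ifs
      · rw [pvec_map]
      · rw [map_one]

theorem Rel_eq (c0 : H) (c : Fin b → H) (v : Idx g b → H) :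
    Rel c0 c v = (List.ofFn fun i : Fin g => ⁅v (Sum.inl i), v (Sum.inr (Sum.inl i))⁆).prod *
      (List.ofFn (pvec c0 c v)).prod := by
  rw [Rel, List.ofFn_succ (f := pvec c0 c v), List.prod_cons]
  simp [pvec]

theorem Rel_map (f : H →* K) (c0 : H) (c : Fin b → H) (v : Idx g b → H) :
    f (Rel c0 c v) = Rel (f c0) (fun j => f (c j)) (fun j => f (v j)) := by
  rw [Rel_eq, Rel_eq, map_mul, map_list_prod, List.map_ofFn, map_list_prod, List.map_ofFn]
  congr 1
  · congr 2
    funext i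
    simp only [Function.comp]
    rw [map_commutatorElement]
  · congr 2
    funext i
    simp only [Function.comp]
    rw [pvec_map]

theorem dd_map (f : H →* K) (c : Fin b → H) (v : Idx g b → H) (j : Idx g b) :
    f (dd c v j) = dd (fun j => f (c j)) (fun j => f (v j)) j := by
  rcases j with i | i | i
  · rfl
  · simp [dd]
  · rfl

end words

theorem geo_data {φ : Surf g (b+1) ≃* Surf g (b+1)} (hφ : IsGeometric φ) :
    ∃ (ε : ℤˣ) (σ : Equiv.Perm (Fin (b+1))) (v : Idx g b → Surf g (b+1)) (y : Surf g (b+1)),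
    Rel ((P (σ 0) : Surf g (b+1)) ^ (ε : ℤ)) (fun j => P (σ j.succ) ^ (ε : ℤ)) v = 1 ∧
    Subgroup.closure (Set.range (dd (fun j => (P (σ j.succ) : Surf g (b+1)) ^ (ε : ℤ)) v)) ⊔
      lcs (Surf g (b+1)) 1 = ⊤ ∧
    (∀ i, φ (A i) = y * Wd ((P (σ 0) : Surf g (b+1)) ^ (ε : ℤ))
      (fun j => P (σ j.succ) ^ (ε : ℤ)) v (Sum.inl i) * y⁻¹) ∧
    (∀ h k (hh : h < g + 1) (hk : k < b + 2), φ (sep g (b+1) h k) =
      y * Wd ((P (σ 0) : Surf g (b+1)) ^ (ε : ℤ)) (fun j => P (σ j.succ) ^ (ε : ℤ)) v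
        (Sum.inr (⟨h, hh⟩, ⟨k, hk⟩)) * y⁻¹) := by
  obtain ⟨ε, σ, h⟩ := hφ
  have hx' : ∀ j, ∃ x, x * P (σ j) ^ (ε : ℤ) * x⁻¹ = φ (P j) := fun j => isConj_iff.1 (h j).symm
  choose x hx using hx'
  set y := x 0 with hy
  let ψ : Surf g (b+1) ≃* Surf g (b+1) := φ.trans (MulAut.conj y⁻¹)
  have hψ : ∀ z, ψ z = y⁻¹ * φ z * y := by intro z; simp [ψ]
  have hψ' : ∀ z, φ z = y * ψ z * y⁻¹ := by intro z; rw [hψ]; group
  let v : Idx g b → Surf g (b+1) := fun j => match j with
    | Sum.inl i => ψ (A i)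
    | Sum.inr (Sum.inl i) => ψ (B i)
    | Sum.inr (Sum.inr j) => y⁻¹ * x j.succ
  set c0 : Surf g (b+1) := P (σ 0) ^ (ε : ℤ) with hc0
  set c : Fin b → Surf g (b+1) := fun j => P (σ j.succ) ^ (ε : ℤ) with hc
  have hpv : ∀ j, pvec c0 c v j = ψ (P j) := by
    intro j
    rw [hψ, ← hx]
    cases j using Fin.cases with
    | zero =>
      simp only [pvec, Fin.cons_zero]
      rw [← hy, hc0]; group
    | succ j =>
      simp only [pvec, Fin.cons_succ, v, c]
      group
  have hrel : (List.ofFn fun i : Fin g => ⁅ψ (A i), ψ (B i)⁆).prod *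
      (List.ofFn fun j => ψ (P j)).prod = 1 := by
    have := congrArg ψ (relation (g := g) (b := b+1))
    rw [map_mul, map_one, map_list_prod, List.map_ofFn, map_list_prod, List.map_ofFn] at this
    rw [← this]
    congr 1
    congr 2
    funext i
    simp only [Function.comp]
    rw [map_commutatorElement]
  refine ⟨ε, σ, v, y, ?_, ?_, ?_, ?_⟩
  · rw [Rel_eq, funext hpv]
    exact hrel
  · set T := Subgroup.closure (Set.range (dd c v)) ⊔ lcs (Surf g (b+1)) 1 with hT
    have hmem : ∀ j, dd c v j ∈ T := fun j =>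
      Subgroup.mem_sup_left (Subgroup.subset_closure ⟨j, rfl⟩)
    have hAm : ∀ i, (A i : Surf g (b+1)) ∈ T.comap (ψ : Surf g (b+1) →* Surf g (b+1)) := by
      intro i
      have h1 := inv_mem (hmem (Sum.inr (Sum.inl i)))
      have e : (dd c v (Sum.inr (Sum.inl i)))⁻¹ = ψ (A i) := by
        simp only [dd, v]; rw [inv_inv]
      rw [e] at h1
      exact h1
    have hBm : ∀ i, (B i : Surf g (b+1)) ∈ T.comap (ψ : Surf g (b+1) →* Surf g (b+1)) :=
      fun i => hmem (Sum.inl i)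
    have hPs : ∀ j : Fin b, (P j.succ : Surf g (b+1)) ∈
        T.comap (ψ : Surf g (b+1) →* Surf g (b+1)) := by
      intro j
      show ψ (P j.succ) ∈ T
      rw [← hpv]
      have e : pvec c0 c v j.succ = ⁅v (Sum.inr (Sum.inr j)), c j⁆ * c j := by
        simp only [pvec, Fin.cons_succ, commutatorElement_def]; group
      rw [e]
      refine mul_mem (Subgroup.mem_sup_right ?_) (hmem (Sum.inr (Sum.inr j)))
      rw [lcs_succ]
      exact Subgroup.commutator_mem_commutator (Subgroup.mem_top _) (Subgroup.mem_top _)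
    have hP0 : (P 0 : Surf g (b+1)) ∈ T.comap (ψ : Surf g (b+1) →* Surf g (b+1)) := by
      have h0 := relation (g := g) (b := b+1)
      rw [List.ofFn_succ (f := fun j : Fin (b+1) => (P j : Surf g (b+1))), List.prod_cons] at h0
      have h1 : (List.ofFn fun i : Fin g => ⁅(A i : Surf g (b+1)), B i⁆).prod ∈
          T.comap (ψ : Surf g (b+1) →* Surf g (b+1)) := by
        refine Subgroup.list_prod_mem _ ?_
        intro z hz
        obtain ⟨i, rfl⟩ := (List.mem_ofFn' _ _).1 hz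
        simp only [commutatorElement_def]
        exact mul_mem (mul_mem (mul_mem (hAm i) (hBm i)) (inv_mem (hAm i))) (inv_mem (hBm i))
      have h2 : (List.ofFn fun j : Fin b => (P j.succ : Surf g (b+1))).prod ∈
          T.comap (ψ : Surf g (b+1) →* Surf g (b+1)) := by
        refine Subgroup.list_prod_mem _ ?_
        intro z hz
        obtain ⟨i, rfl⟩ := (List.mem_ofFn' _ _).1 hz
        exact hPs i
      have e : (P 0 : Surf g (b+1)) =
          ((List.ofFn fun i : Fin g => ⁅(A i : Surf g (b+1)), B i⁆).prod)⁻¹ *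
          ((List.ofFn fun j : Fin b => (P j.succ : Surf g (b+1))).prod)⁻¹ := by
        rw [eq_mul_inv_iff_mul_eq, eq_inv_iff_mul_eq_one, mul_eq_one_iff_eq_inv,
          eq_comm, inv_eq_iff_mul_eq_one]
        exact h0
      rw [e]
      exact mul_mem (inv_mem h1) (inv_mem h2)
    have hPm : ∀ j, (P j : Surf g (b+1)) ∈ T.comap (ψ : Surf g (b+1) →* Surf g (b+1)) := by
      intro j
      cases j using Fin.cases with
      | zero => exact hP0
      | succ j => exact hPs j
    have htop := closure_gens _ hAm hBm hPm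
    rw [eq_top_iff]
    intro z _
    have hz : ψ.symm z ∈ T.comap (ψ : Surf g (b+1) →* Surf g (b+1)) := by
      rw [htop]; exact Subgroup.mem_top _
    have hz2 : ψ (ψ.symm z) ∈ T := hz
    rwa [MulEquiv.apply_symm_apply] at hz2
  · intro i
    exact hψ' _
  · intro h k hh hk
    rw [hψ' (sep g (b+1) h k)]
    congr 2
    simp only [Wd, sep]
    rw [map_mul, map_list_prod, List.map_ofFn, map_list_prod, List.map_ofFn]
    congr 1
    · congr 2
      funext i
      simp only [Function.comp]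
      split_ifs
      · rw [map_commutatorElement]
      · rw [map_one]
    · congr 2
      funext i
      simp only [Function.comp]
      split_ifs
      · rw [hpv]
      · rw [map_one]

section classes

variable {Q : Type*} [Group Q]

def dset (π : Surf g (b+1) →* Q) (m : ℕ) (ε : ℤˣ) (σ : Equiv.Perm (Fin (b+1))) :
    Set (Idx g b → Q ⧸ lcs Q m) :=
  DD (π (P (σ 0) ^ (ε : ℤ))) (fun j => π (P (σ j.succ) ^ (ε : ℤ))) m

def Wq (π : Surf g (b+1) →* Q) (m : ℕ) (ε : ℤˣ) (σ : Equiv.Perm (Fin (b+1)))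
    (d : Idx g b → Q ⧸ lcs Q m) (τ : Typ g b) (s : Bool) : Q ⧸ lcs Q m :=
  if s then Wd (pr Q m (π (P (σ 0) ^ (ε : ℤ)))) (fun j => pr Q m (π (P (σ j.succ) ^ (ε : ℤ)))) d τ
  else (Wd (pr Q m (π (P (σ 0) ^ (ε : ℤ)))) (fun j => pr Q m (π (P (σ j.succ) ^ (ε : ℤ)))) d τ)⁻¹

def CC (π : Surf g (b+1) →* Q) (m : ℕ) : Set (Q ⧸ lcs Q m) :=
  {q | ∃ ε σ τ s, ∃ d ∈ dset π m ε σ, q = Wq π m ε σ d τ s}

theorem CC_simple (π : Surf g (b+1) →* Q) (hπ : Function.Surjective π) (m : ℕ)
    {s : Surf g (b+1)} (hs : s ∈ simple g (b+1)) :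
    ∃ w, ∃ c ∈ CC π m, pr Q m (π s) = w * c * w⁻¹ := by
  obtain ⟨φ, hφ, h⟩ := hs
  obtain ⟨ε, σ, v, y, h1, h2, h3, h4⟩ := geo_data hφ
  have hd : (fun j => pr Q m (π (v j))) ∈ dset π m ε σ := by
    refine ⟨fun j => π (v j), ⟨?_, ?_⟩, rfl⟩
    · have e := congrArg (Subgroup.map π) h2
      rw [Subgroup.map_sup, MonoidHom.map_closure, Subgroup.map_top_of_surjective π hπ] at e
      rw [eq_top_iff, ← e]
      refine sup_le_sup ?_ ?_
      · refine Subgroup.closure_mono ?_
        rintro _ ⟨_, ⟨j, rfl⟩, rfl⟩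
        exact ⟨j, (dd_map π _ _ j).symm⟩
      · rintro _ ⟨z, hz, rfl⟩
        exact lcs_map π 1 z hz
    · have e := congrArg π h1
      rw [Rel_map, map_one] at e
      rw [e]; exact one_mem _
  have hW : ∀ τ, pr Q m (π (Wd ((P (σ 0) : Surf g (b+1)) ^ (ε : ℤ))
      (fun j => P (σ j.succ) ^ (ε : ℤ)) v τ)) = Wq π m ε σ (fun j => pr Q m (π (v j))) τ true := by
    intro τ
    rw [Wd_map π, Wd_map (pr Q m)]
    rfl
  have hW' : ∀ τ, (pr Q m (π (Wd ((P (σ 0) : Surf g (b+1)) ^ (ε : ℤ))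
      (fun j => P (σ j.succ) ^ (ε : ℤ)) v τ)))⁻¹ =
      Wq π m ε σ (fun j => pr Q m (π (v j))) τ false := by
    intro τ
    rw [Wd_map π, Wd_map (pr Q m)]
    rfl
  have key : ∀ τ t, t = y * Wd ((P (σ 0) : Surf g (b+1)) ^ (ε : ℤ))
      (fun j => P (σ j.succ) ^ (ε : ℤ)) v τ * y⁻¹ → (s = t ∨ s = t⁻¹) →
      ∃ w, ∃ c ∈ CC π m, pr Q m (π s) = w * c * w⁻¹ := by
    intro τ t ht hst
    refine ⟨pr Q m (π y), ?_⟩
    rcases hst with rfl | rfl
    · refine ⟨_, ⟨ε, σ, τ, true, _, hd, rfl⟩, ?_⟩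
      rw [ht, ← hW]; simp only [map_mul, map_inv]
    · refine ⟨_, ⟨ε, σ, τ, false, _, hd, rfl⟩, ?_⟩
      rw [ht, ← hW']; simp only [map_mul, map_inv, mul_inv_rev, inv_inv, mul_assoc]
  rcases h with ⟨i, h⟩ | ⟨h, k, hh, hk, h'⟩
  · exact key _ _ (h3 i) h
  · exact key _ _ (h4 h k (by omega) (by omega)) h'

/-- the number of types -/
noncomputable def kap (g b : ℕ) : ℕ := Nat.card (ℤˣ × Equiv.Perm (Fin (b+1)) × Typ g b × Bool)

theorem kap_pos (g b : ℕ) : 0 < kap g b := by
  unfold kap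
  have : Nonempty (ℤˣ × Equiv.Perm (Fin (b+1)) × Typ g b × Bool) :=
    ⟨1, 1, Sum.inr (0, 0), true⟩
  exact Nat.card_pos

theorem CC_card [Finite Q] (π : Surf g (b+1) →* Q) (m B : ℕ)
    (hB : ∀ ε σ, Nat.card (dset π m ε σ) ≤ B) : Nat.card (CC π m) ≤ kap g b * B := by
  let I := ℤˣ × Equiv.Perm (Fin (b+1)) × Typ g b × Bool
  let F : (Σ x : I, dset π m x.1 x.2.1) → CC π m := fun y =>
    ⟨Wq π m y.1.1 y.1.2.1 y.2.1 y.1.2.2.1 y.1.2.2.2,
      ⟨y.1.1, y.1.2.1, y.1.2.2.1, y.1.2.2.2, y.2.1, y.2.2, rfl⟩⟩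
  have hF : Function.Surjective F := by
    rintro ⟨q, ε, σ, τ, s, d, hd, rfl⟩
    exact ⟨⟨(ε, σ, τ, s), ⟨d, hd⟩⟩, rfl⟩
  refine (Nat.card_le_card_of_surjective F hF).trans ?_
  rw [Nat.card_sigma]
  refine (Finset.sum_le_card_nsmul _ _ B fun x _ => hB _ _).trans ?_
  rw [kap, Nat.card_eq_fintype_card, smul_eq_mul]
  exact le_rfl

end classes

theorem exists_fun {n k : ℕ} (hd : dia (simple g b) n ≤ (k : ℕ∞)) (h : Surf g b) :
    ∃ f : Fin k → Surf g b, (∀ i, f i ∈ simple g b) ∧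
      pr (Surf g b) n (List.ofFn f).prod = pr (Surf g b) n h := by
  have h1 : wordLen (pr (Surf g b) n '' simple g b) (pr (Surf g b) n h) ≤ (k : ℕ∞) :=
    (le_iSup (fun q => wordLen (pr (Surf g b) n '' simple g b) q) (pr (Surf g b) n h)).trans hd
  obtain ⟨L, hL, hlen⟩ := exists_word h1
  obtain ⟨l, h1, h2, h3⟩ := lift_word (simple g b) n L hL.1
  rw [hL.2] at h3
  have h1' : ∀ x ∈ l, x ∈ simple g b := by
    intro x hx
    rcases h1 x hx with h | h
    · exact h
    · simpa using simple_inv h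
  have hk : (l ++ List.replicate (k - l.length) 1).length = k := by
    rw [List.length_append, List.length_replicate]; omega
  refine ⟨fun i => (l ++ List.replicate (k - l.length) 1).get (i.cast hk.symm), ?_, ?_⟩
  · intro i
    have := List.get_mem (l ++ List.replicate (k - l.length) 1) (i.cast hk.symm)
    rcases List.mem_append.1 this with h | h
    · exact h1' _ h
    · have e := List.eq_of_mem_replicate h
      show (l ++ List.replicate (k - l.length) 1).get (i.cast hk.symm) ∈ simple g b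
      rw [e]; exact simple_one
  · have e : (List.ofFn fun i : Fin k => (l ++ List.replicate (k - l.length) 1).get
        (i.cast hk.symm)) = l ++ List.replicate (k - l.length) 1 := by
      apply List.ext_get
      · simp [hk]
      · intro n h1 h2
        simp
    rw [e, List.prod_append, List.prod_replicate, one_pow, mul_one, h3]

theorem main_ineq {Q : Type*} [Group Q] [Finite Q] (π : Surf g (b+1) →* Q)
    (hπ : Function.Surjective π) (k : ℕ) (hk : Fintype.card (Idx g b) = k + 1)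
    (hd : ∀ m, dia (simple g (b+1)) m ≤ ((k + 1 : ℕ) : ℕ∞)) (n : ℕ) :
    (lcs Q (n+2)).index * (lcs Q (n+3)).index ^ (k+1) ≤
      (kap g b) ^ (k+1) * ((lcs Q (n+2)).index ^ (k+1) * (lcs Q 2).index) ^ (k+1) *
        ((lcs Q (n+1)).index ^ k * (lcs Q n).index) * (lcs Q 1).index := by
  set B := ((lcs Q (n+2)).index ^ (k+1) * (lcs Q 2).index) / (lcs Q (n+3)).index with hBdef
  have hpos : ∀ m, 0 < (lcs Q m).index := fun m => Nat.pos_of_ne_zero Subgroup.index_ne_zero_of_finite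
  have hB : ∀ ε σ, Nat.card (dset π (n+2) ε σ) ≤ B := by
    intro ε σ
    rw [hBdef, Nat.le_div_iff_mul_le (hpos _), ← hk]
    exact DD_bound _ _ (n+1)
  have hCC := CC_card π (n+2) B hB
  haveI : ((lcs Q 1).map (pr Q (n+2))).Normal :=
    Subgroup.Normal.map inferInstance _ (pr_surj _)
  have hcc := cover_count ((lcs Q (n+1)).map (pr Q (n+2))) ((lcs Q n).map (pr Q (n+2)))
    ((lcs Q 1).map (pr Q (n+2))) (by
      rintro _ ⟨z, hz, rfl⟩
      rw [Subgroup.mem_center_iff]
      intro q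
      obtain ⟨y, rfl⟩ := pr_surj _ q
      rw [← commutatorElement_eq_one_iff_mul_comm, ← map_commutatorElement, pr_eq_one,
        ← inv_mem_iff, commutatorElement_inv]
      rw [lcs_succ]
      exact Subgroup.commutator_mem_commutator hz (Subgroup.mem_top _)) (by
      rintro _ ⟨z, hz, rfl⟩ _ ⟨y, hy, rfl⟩
      rw [← commutatorElement_eq_one_iff_mul_comm, ← map_commutatorElement, pr_eq_one]
      exact comm_lcs_one n hz hy) (CC π (n+2)) k (by
      rintro _ ⟨y, hy, rfl⟩
      obtain ⟨x, rfl⟩ := hπ y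
      obtain ⟨f, hf1, hf2⟩ := exists_fun (hd (n+2)) x
      have h1 : ∀ i, ∃ w, ∃ c ∈ CC π (n+2), pr Q (n+2) (π (f i)) = w * c * w⁻¹ := fun i =>
        CC_simple π hπ (n+2) (hf1 i)
      choose w c hc hw using h1
      refine ⟨w, c, hc, ?_⟩
      have h2 : pr Q (n+2) (π (List.ofFn f).prod) = pr Q (n+2) (π x) := by
        rw [pr_eq, ← map_inv, ← map_mul]
        exact lcs_map π _ _ ((pr_eq _ _ _).1 hf2)
      rw [← h2, map_list_prod, map_list_prod, List.map_ofFn, List.map_ofFn]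
      congr 2
      funext i
      exact hw i)
  have hker : ∀ m, m ≤ n + 2 → (pr Q (n+2)).ker ≤ lcs Q m := by
    intro m hm z hz
    exact lcs_anti' hm ((pr_eq_one _ _).1 hz)
  rw [Subgroup.index_map_eq _ (pr_surj _) (hker _ (by omega)),
    Subgroup.index_map_eq _ (pr_surj _) (hker _ (by omega))] at hcc
  have hcard : Nat.card ((lcs Q 1).map (pr Q (n+2))) * (lcs Q 1).index = (lcs Q (n+2)).index := by
    have := ((lcs Q 1).map (pr Q (n+2))).card_mul_index
    rw [Subgroup.index_map_eq _ (pr_surj _) (hker _ (by omega))] at this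
    exact this
  rw [← hcard]
  have h5 : Nat.card (CC π (n+2)) ^ (k+1) * (lcs Q (n+3)).index ^ (k+1) ≤
      (kap g b) ^ (k+1) * ((lcs Q (n+2)).index ^ (k+1) * (lcs Q 2).index) ^ (k+1) := by
    rw [← mul_pow, ← mul_pow]
    refine Nat.pow_le_pow_left ?_ _
    calc Nat.card (CC π (n+2)) * (lcs Q (n+3)).index
        ≤ kap g b * B * (lcs Q (n+3)).index := Nat.mul_le_mul_right _ hCC
      _ = kap g b * (B * (lcs Q (n+3)).index) := by ring
      _ ≤ kap g b * ((lcs Q (n+2)).index ^ (k+1) * (lcs Q 2).index) :=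
        Nat.mul_le_mul_left _ (Nat.div_mul_le_self _ _)
  rw [hcard]
  calc (lcs Q (n+2)).index * (lcs Q (n+3)).index ^ (k+1)
      = Nat.card ((lcs Q 1).map (pr Q (n+2))) * (lcs Q 1).index * (lcs Q (n+3)).index ^ (k+1) := by
        rw [hcard]
    _ ≤ (Nat.card (CC π (n+2)) ^ (k+1) * ((lcs Q (n+1)).index ^ k * (lcs Q n).index)) *
        (lcs Q 1).index * (lcs Q (n+3)).index ^ (k+1) := by gcongr
    _ = (Nat.card (CC π (n+2)) ^ (k+1) * (lcs Q (n+3)).index ^ (k+1)) *
        ((lcs Q (n+1)).index ^ k * (lcs Q n).index) * (lcs Q 1).index := by ring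
    _ ≤ _ := by gcongr

end H94Simple
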