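import Pool.Agent.H94.SccO

open scoped commutatorElement IsMulCommutative

namespace H94Simple

/-- growth rate strictly below `r` -/
theorem lam_exists (r : ℝ) (hr : 2 ≤ r) : ∃ l : ℝ, 1 < l ∧ l < r ∧
    (r^2 - 1) * l^2 + (r - 1) * l + 1 ≤ r * l^3 - 1/2 := by
  set d : ℝ := 1 / (2 * (r^3 + 2*r)) with hd
  have h0 : 0 < 2 * (r^3 + 2*r) := by positivity
  have hd0 : 0 < d := by positivity
  have hd1 : (r^3 + 2*r) * d = 1/2 := by rw [hd]; field_simp
  have hd2 : d ≤ 1/2 := by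
    have : 1 * d ≤ (r^3 + 2*r) * d := by
      apply mul_le_mul_of_nonneg_right _ hd0.le
      nlinarith [sq_nonneg r, pow_pos (show (0:ℝ) < r by linarith) 3]
    linarith
  refine ⟨r - d, by linarith, by linarith, ?_⟩
  have e : r * (r - d)^3 - 1/2 - ((r^2 - 1) * (r-d)^2 + (r - 1) * (r-d) + 1) =
      (r - 3/2) - (r^3 + r + 1) * d + d^2 * (1 + 2 * r^2 - r * d) := by ring
  have h1 : (r^3 + r + 1) * d ≤ 1/2 := by
    rw [← hd1]; apply mul_le_mul_of_nonneg_right _ hd0.le; linarith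
  have h2 : 0 ≤ d^2 * (1 + 2 * r^2 - r * d) := by
    apply mul_nonneg (sq_nonneg d)
    nlinarith
  linarith

theorem rec_bound (r : ℝ) (hr : 2 ≤ r) (l : ℝ) (hl : 1 < l)
    (hF : (r^2 - 1) * l^2 + (r - 1) * l + 1 ≤ r * l^3 - 1/2) (q : ℕ → ℝ) (B : ℝ) (hB : 0 ≤ B)
    (h0 : q 0 ≤ B) (h1 : q 1 ≤ B) (h2 : q 2 ≤ B)
    (hrec : ∀ n, r * q (n+3) ≤ (r^2 - 1) * q (n+2) + (r-1) * q (n+1) + q n + B) (n : ℕ) :
    q n ≤ 2 * B * l ^ n := by
  have hpow : ∀ n : ℕ, 1 ≤ l ^ n := fun n => one_le_pow₀ hl.le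
  have key : ∀ n, q n ≤ 2 * B * l ^ n ∧ q (n+1) ≤ 2 * B * l ^ (n+1) ∧
      q (n+2) ≤ 2 * B * l ^ (n+2) := by
    intro n
    induction n with
    | zero =>
      refine ⟨?_, ?_, ?_⟩
      · have := hpow 0; nlinarith
      · have := hpow 1
        have h3 : 2 * B * 1 ≤ 2 * B * l ^ (0+1) := by
          apply mul_le_mul_of_nonneg_left _ (by linarith); simpa using this
        linarith
      · have := hpow 2
        have h3 : 2 * B * 1 ≤ 2 * B * l ^ (0+2) := by
          apply mul_le_mul_of_nonneg_left _ (by linarith); simpa using this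
        linarith
    | succ n ih =>
      obtain ⟨i1, i2, i3⟩ := ih
      refine ⟨i2, i3, ?_⟩
      have h3 := hrec n
      have hr1 : 0 ≤ r^2 - 1 := by nlinarith
      have h4 : (r^2 - 1) * q (n+2) ≤ (r^2-1) * (2 * B * l^(n+2)) :=
        mul_le_mul_of_nonneg_left i3 hr1
      have h5 : (r - 1) * q (n+1) ≤ (r-1) * (2 * B * l^(n+1)) :=
        mul_le_mul_of_nonneg_left i2 (by linarith)
      have h6 : (2 * B * l^n) * ((r^2 - 1) * l^2 + (r - 1) * l + 1) ≤
          (2 * B * l^n) * (r * l^3 - 1/2) :=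
        mul_le_mul_of_nonneg_left hF (by have := hpow n; positivity)
      have h7 : B * 1 ≤ B * l^n := mul_le_mul_of_nonneg_left (hpow n) hB
      have h8 : r * q (n+3) ≤ r * (2 * B * l ^ (n+3)) := by
        have e1 : (r^2-1) * (2 * B * l^(n+2)) + (r-1) * (2 * B * l^(n+1)) + 2 * B * l^n =
            (2 * B * l^n) * ((r^2 - 1) * l^2 + (r - 1) * l + 1) := by ring
        have e2 : (2 * B * l^n) * (r * l^3 - 1/2) = r * (2 * B * l ^ (n+3)) - B * l^n := by ring
        linarith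
      exact le_of_mul_le_mul_left h8 (by linarith)
  exact (key n).1

/-- the recursion in logarithmic form -/
theorem log_rec (k : ℕ) (hk : 1 ≤ k) (K : ℕ) (hK : 0 < K) (i : ℕ → ℕ) (hi : ∀ n, 0 < i n)
    (hi0 : i 0 = 1)
    (h : ∀ n, i (n+2) * i (n+3) ^ (k+1) ≤ K ^ (k+1) * (i (n+2) ^ (k+1) * i 2) ^ (k+1) *
      (i (n+1) ^ k * i n) * i 1) (l : ℝ) (hl : 1 < l)
    (hF : (((k:ℝ)+1)^2 - 1) * l^2 + (((k:ℝ)+1) - 1) * l + 1 ≤ ((k:ℝ)+1) * l^3 - 1/2) (n : ℕ) :
    Real.log (i n) ≤ 2 * (((k:ℝ)+1) * Real.log K + ((k:ℝ)+1) * Real.log (i 2) + Real.log (i 1))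
      * l ^ n := by
  have hpos : ∀ n, (0:ℝ) < i n := fun n => by exact_mod_cast hi n
  have hlog : ∀ n, 0 ≤ Real.log (i n) := fun n =>
    Real.log_nonneg (by exact_mod_cast hi n)
  have hK' : (0:ℝ) < K := by exact_mod_cast hK
  have hKlog : 0 ≤ Real.log K := Real.log_nonneg (by exact_mod_cast hK)
  have hk' : (1:ℝ) ≤ k := by exact_mod_cast hk
  set B := ((k:ℝ)+1) * Real.log K + ((k:ℝ)+1) * Real.log (i 2) + Real.log (i 1) with hBdef
  have hk0 : (0:ℝ) ≤ k := by linarith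
  have p1 : 0 ≤ ((k:ℝ)+1) * Real.log K := mul_nonneg (by linarith) hKlog
  have p2 : 0 ≤ (k:ℝ) * Real.log (i 2) := mul_nonneg hk0 (hlog 2)
  have hB : 0 ≤ B := by have := hlog 1; have := hlog 2; nlinarith
  refine rec_bound ((k:ℝ)+1) (by linarith) l hl hF (fun n => Real.log (i n)) B hB ?_ ?_ ?_ ?_ n
  · simp only [hi0, Nat.cast_one, Real.log_one]; exact hB
  · have := hlog 2; simp only [hBdef]; nlinarith
  · have := hlog 1; simp only [hBdef]; nlinarith
  · intro n
    have h1 : ((i (n+2) * i (n+3) ^ (k+1) : ℕ) : ℝ) ≤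
        ((K ^ (k+1) * (i (n+2) ^ (k+1) * i 2) ^ (k+1) * (i (n+1) ^ k * i n) * i 1 : ℕ) : ℝ) := by
      exact_mod_cast h n
    push_cast at h1
    have h2 := Real.log_le_log (by have := hpos (n+2); have := hpos (n+3); positivity) h1
    have q0 := (hpos n).ne'
    have q1 := (hpos 1).ne'
    have q2 := (hpos 2).ne'
    have q3 := (hpos (n+1)).ne'
    have q4 := (hpos (n+2)).ne'
    have q5 := (hpos (n+3)).ne'
    have q6 := hK'.ne'
    rw [Real.log_mul q4 (pow_ne_zero _ q5), Real.log_mul (by positivity) q1,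
      Real.log_mul (by positivity) (by positivity), Real.log_mul (by positivity) (by positivity),
      Real.log_mul (by positivity) q0, Real.log_pow, Real.log_pow, Real.log_pow, Real.log_pow,
      Real.log_mul (by positivity) q2, Real.log_pow] at h2
    push_cast at h2
    simp only [hBdef]
    nlinarith [h2]

/-- abelian groups of bounded exponent -/
theorem card_le_of_gen {J : Type*} [Fintype J] {A : Type*} [CommGroup A] (s : J → A)
    (hs : Subgroup.closure (Set.range s) = ⊤) (N : ℕ) (hN : 0 < N) (hN' : ∀ j, s j ^ N = 1) :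
    Nat.card A ≤ N ^ Fintype.card J := by
  classical
  let M : Subgroup A :=
    { carrier := {x | ∃ e : J → ℤ, x = ∏ j, s j ^ e j}
      one_mem' := ⟨0, by simp⟩
      mul_mem' := by
        rintro _ _ ⟨e, rfl⟩ ⟨f, rfl⟩
        exact ⟨e + f, by simp [zpow_add, Finset.prod_mul_distrib]⟩
      inv_mem' := by
        rintro _ ⟨e, rfl⟩
        exact ⟨-e, by simp⟩ }
  have hM : M = ⊤ := by
    rw [eq_top_iff, ← hs, Subgroup.closure_le]
    rintro _ ⟨j, rfl⟩
    refine ⟨Pi.single j 1, ?_⟩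
    rw [Finset.prod_eq_single j]
    · simp
    · intro i _ hi; simp [hi]
    · simp
  let F : (J → Fin N) → A := fun e => ∏ j, s j ^ (e j : ℕ)
  have hF : Function.Surjective F := by
    intro x
    have hx : x ∈ M := by rw [hM]; exact Subgroup.mem_top _
    obtain ⟨e, rfl⟩ := hx
    have hpos : ∀ j, 0 ≤ e j % N := fun j => Int.emod_nonneg _ (by exact_mod_cast hN.ne')
    have hlt : ∀ j, e j % N < N := fun j => Int.emod_lt_of_pos _ (by exact_mod_cast hN)
    refine ⟨fun j => ⟨(e j % N).toNat, by have := hpos j; have := hlt j; omega⟩, ?_⟩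
    refine Finset.prod_congr rfl fun j _ => ?_
    have e1 : (((e j % N).toNat : ℕ) : ℤ) = e j % N := Int.toNat_of_nonneg (hpos j)
    have e2 : s j ^ ((e j % N).toNat : ℕ) = s j ^ (e j % N) := by
      rw [← zpow_natCast, e1]
    have e3 : s j ^ e j = s j ^ (e j % N) := by
      conv_lhs => rw [← Int.emod_add_mul_ediv (e j) N]
      rw [zpow_add, zpow_mul, zpow_natCast, hN', one_zpow, mul_one]
    rw [e3, ← e2]
  have h := Nat.card_le_card_of_surjective F hF
  rwa [Nat.card_fun, Nat.card_fin, Nat.card_eq_fintype_card (α := J)] at h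

theorem index_one_le {Q : Type*} [Group Q] {J : Type*} [Fintype J] (s : J → Q)
    (hs : Subgroup.closure (Set.range s) ⊔ lcs Q 1 = ⊤) (N : ℕ) (hN : 0 < N)
    (hN' : ∀ x : Q, x ^ N = 1) : (lcs Q 1).index ≤ N ^ Fintype.card J := by
  have h1 : (lcs Q 1).index = Nat.card (Abelianization Q) := rfl
  rw [h1]
  refine card_le_of_gen (fun j => Abelianization.of (s j)) ?_ N hN ?_
  · rw [eq_top_iff]
    intro x _
    obtain ⟨y, rfl⟩ : ∃ y, Abelianization.of y = x := QuotientGroup.mk_surjective x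
    have hy : y ∈ Subgroup.closure (Set.range s) ⊔ lcs Q 1 := by rw [hs]; exact Subgroup.mem_top _
    have h2 : Subgroup.closure (Set.range s) ⊔ lcs Q 1 ≤
        (Subgroup.closure (Set.range fun j => Abelianization.of (s j))).comap
          Abelianization.of := by
      refine sup_le ?_ ?_
      · rw [Subgroup.closure_le]
        rintro _ ⟨j, rfl⟩
        exact Subgroup.subset_closure ⟨j, rfl⟩
      · intro z hz
        rw [Subgroup.mem_comap, lcs_one_comm Abelianization.of hz]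
        exact one_mem _
    exact h2 hy
  · intro j
    rw [← map_pow, hN', map_one]

theorem index_two_le {Q : Type*} [Group Q] [Finite Q] {J : Type*} [Fintype J] (s : J → Q)
    (hs : Subgroup.closure (Set.range s) ⊔ lcs Q 1 = ⊤) :
    (lcs Q 2).index ≤ (lcs Q 1).index ^ (Fintype.card J + 1) := by
  have h1 := Subgroup.relIndex_mul_index (lcs_anti' (G := Q) (show 1 ≤ 2 by norm_num))
  rw [← h1, pow_succ]
  refine Nat.mul_le_mul_right _ ?_
  have e : (lcs Q 2).relIndex (lcs Q 1) = Nat.card (lcs Q 1 ⧸ (lcs Q 2).subgroupOf (lcs Q 1)) := rfl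
  have e2 : (lcs Q 1).index ^ Fintype.card J = Nat.card (J → Q ⧸ lcs Q 1) := by
    rw [Nat.card_fun, Nat.card_eq_fintype_card (α := J)]; rfl
  rw [e, e2]
  have h2 : ∀ τ : lcs Q 1 ⧸ (lcs Q 2).subgroupOf (lcs Q 1), ∃ u : J → lcs Q 0,
      ((Theta 0 s u : Subgroup.center (Q ⧸ lcs Q (0+2))) : Q ⧸ lcs Q (0+2)) =
        pr Q (0+2) ((Quotient.out τ : lcs Q 1) : Q) := fun τ =>
    Theta_surj 0 s hs _ (Quotient.out τ : lcs Q 1).2
  choose u hu using h2
  have hcen : ∀ (t : Q) (x y : lcs Q 0), pr Q 1 (x : Q) = pr Q 1 (y : Q) →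
      cen 0 t x = cen 0 t y := by
    intro t x y hxy
    have h3 : (x⁻¹ * y : lcs Q 0) = x⁻¹ * y := rfl
    have h4 : cen 0 t (x⁻¹ * y) = 1 := by
      apply Subtype.ext
      rw [cen_coe]
      refine (pr_eq_one _ _).2 ?_
      rw [lcs_succ]
      exact Subgroup.commutator_mem_commutator ((pr_eq _ _ _).1 hxy) (Subgroup.mem_top _)
    rw [map_mul, map_inv, inv_mul_eq_one] at h4
    exact h4
  refine Nat.card_le_card_of_injective (fun τ j => pr Q 1 (u τ j : Q)) ?_
  intro τ τ' h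
  have h5 : Theta 0 s (u τ) = Theta 0 s (u τ') := by
    rw [Theta_apply, Theta_apply]
    exact Finset.prod_congr rfl fun j _ => hcen _ _ _ (congrFun h j)
  have h6 : pr Q (0+2) ((Quotient.out τ : lcs Q 1) : Q) =
      pr Q (0+2) ((Quotient.out τ' : lcs Q 1) : Q) := by
    rw [← hu, ← hu, h5]
  rw [← QuotientGroup.out_eq' τ, ← QuotientGroup.out_eq' τ', QuotientGroup.eq,
    Subgroup.mem_subgroupOf]
  exact (pr_eq _ _ _).1 h6

end H94Simple
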