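import Pool.Agent.H94.SccP

open scoped commutatorElement IsMulCommutative

namespace H94Simple

section matrices

variable {c : ℕ}

abbrev Mat (c : ℕ) := Matrix (Fin (c+1)) (Fin (c+1)) (ZMod 2)

def Fil (m : ℕ) (T : Mat c) : Prop := ∀ i j : Fin (c+1), (j : ℕ) < (i : ℕ) + m → T i j = 0

theorem Fil_zero (m : ℕ) : Fil m (0 : Mat c) := fun _ _ _ => rfl

theorem Fil_add {m : ℕ} {T S : Mat c} (hT : Fil m T) (hS : Fil m S) : Fil m (T + S) := by
  intro i j h; rw [Matrix.add_apply, hT i j h, hS i j h, add_zero]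

theorem Fil_sub {m : ℕ} {T S : Mat c} (hT : Fil m T) (hS : Fil m S) : Fil m (T - S) := by
  intro i j h; rw [Matrix.sub_apply, hT i j h, hS i j h, sub_zero]

theorem Fil_mono {m n : ℕ} (h : m ≤ n) {T : Mat c} (hT : Fil n T) : Fil m T :=
  fun i j hij => hT i j (by omega)

theorem Fil_one : Fil 0 (1 : Mat c) := by
  intro i j h
  rw [Matrix.one_apply_ne]
  intro e; rw [e] at h; omega

theorem Fil_mul {m n : ℕ} {T S : Mat c} (hT : Fil m T) (hS : Fil n S) : Fil (m+n) (T * S) := by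
  intro i j h
  rw [Matrix.mul_apply]
  refine Finset.sum_eq_zero fun k _ => ?_
  by_cases hk : (k : ℕ) < i + m
  · rw [hT i k hk, zero_mul]
  · rw [hS k j (by omega), mul_zero]

theorem Fil_pow {T : Mat c} (hT : Fil 1 T) (k : ℕ) : Fil k (T ^ k) := by
  induction k with
  | zero => rw [pow_zero]; exact Fil_one
  | succ k ih => rw [pow_succ]; exact Fil_mul ih hT

theorem Fil_top {T : Mat c} (hT : Fil (c+1) T) : T = 0 := by
  ext i j
  exact hT i j (by have := j.2; omega)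

/-- leading entries of a product -/
theorem mul_entry {m n : ℕ} {T S : Mat c} (hT : Fil m T) (hS : Fil n S) (i k j : Fin (c+1))
    (hk : (k : ℕ) = i + m) (hj : (j : ℕ) = k + n) : (T * S) i j = T i k * S k j := by
  rw [Matrix.mul_apply]
  refine Finset.sum_eq_single k (fun l _ hl => ?_) (fun h => absurd (Finset.mem_univ _) h)
  have hl' : (l : ℕ) ≠ k := fun e => hl (Fin.ext e)
  by_cases h : (l : ℕ) < i + m
  · rw [hT i l h, zero_mul]
  · rw [hS l j (by omega), mul_zero]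

theorem one_add_pow {T : Mat c} (hT : Fil 1 T) : (1 + T) ^ (2 ^ (c+1)) = 1 := by
  have h1 : (1 + T) ^ (2 ^ (c+1)) = 1 ^ (2 ^ (c+1)) + T ^ (2 ^ (c+1)) :=
    add_pow_char_pow_of_commute 2 (c+1) (Commute.one_left T)
  have h2 : T ^ (2 ^ (c+1)) = 0 :=
    Fil_top (Fil_mono (Nat.lt_two_pow_self).le (Fil_pow hT _))
  rw [h1, h2, one_pow, add_zero]

/-- `1 + T` as a unit -/
def unit1 (T : Mat c) (hT : Fil 1 T) : (Mat c)ˣ :=
  Units.ofPowEqOne (1 + T) (2 ^ (c+1)) (one_add_pow hT) (by positivity)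

theorem unit1_val (T : Mat c) (hT : Fil 1 T) : (unit1 T hT : Mat c) = 1 + T := rfl

theorem sub_one_mul_aux (u v : Mat c) : u * v - 1 = (u - 1) * (v - 1) + (u - 1) + (v - 1) := by
  noncomm_ring

/-- unipotent filtration -/
def UFil (c m : ℕ) : Subgroup (Mat c)ˣ where
  carrier := {u | Fil (m+1) ((u : Mat c) - 1)}
  one_mem' := by
    show Fil (m+1) (((1 : (Mat c)ˣ) : Mat c) - 1)
    rw [Units.val_one, sub_self]; exact Fil_zero _
  mul_mem' := by
    intro u v hu hv
    show Fil (m+1) (((u * v : (Mat c)ˣ) : Mat c) - 1)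
    rw [Units.val_mul, sub_one_mul_aux]
    exact Fil_add (Fil_add (Fil_mono (by omega) (Fil_mul hu hv)) hu) hv
  inv_mem' := by
    intro u hu
    have hu' : Fil (m+1) ((u : Mat c) - 1) := hu
    have h1 : ∀ k : ℕ, Fil (m+1) (((u ^ k : (Mat c)ˣ) : Mat c) - 1) := by
      intro k
      induction k with
      | zero => rw [pow_zero, Units.val_one, sub_self]; exact Fil_zero _
      | succ k ih =>
        rw [pow_succ, Units.val_mul, sub_one_mul_aux]
        exact Fil_add (Fil_add (Fil_mono (by omega) (Fil_mul ih hu')) ih) hu'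
    have h2 : u ^ (2 ^ (c+1)) = 1 := by
      apply Units.ext
      have h3 := one_add_pow (Fil_mono (by omega : 1 ≤ m+1) hu')
      rw [add_sub_cancel] at h3
      rw [Units.val_pow_eq_pow_val, h3, Units.val_one]
    have h4 : u⁻¹ = u ^ (2 ^ (c+1) - 1) := by
      rw [inv_eq_iff_mul_eq_one, ← pow_succ', Nat.sub_add_cancel Nat.one_le_two_pow, h2]
    show Fil (m+1) (((u⁻¹ : (Mat c)ˣ) : Mat c) - 1)
    rw [h4]; exact h1 _

theorem mem_UFil {m : ℕ} {u : (Mat c)ˣ} : u ∈ UFil c m ↔ Fil (m+1) ((u : Mat c) - 1) := Iff.rfl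

theorem UFil_anti {m n : ℕ} (h : m ≤ n) : UFil c n ≤ UFil c m := fun _ hu =>
  Fil_mono (by omega) hu

theorem UFil_val {m : ℕ} {u : (Mat c)ˣ} (hu : u ∈ UFil c m) : Fil 0 (u : Mat c) := by
  have h1 := Fil_add (Fil_mono (Nat.zero_le _) (mem_UFil.1 hu)) Fil_one
  rwa [sub_add_cancel] at h1

theorem UFil_pow {u : (Mat c)ˣ} (hu : u ∈ UFil c 0) : u ^ (2 ^ (c+1)) = 1 := by
  apply Units.ext
  have h3 := one_add_pow (mem_UFil.1 hu)
  rw [add_sub_cancel] at h3
  rw [Units.val_pow_eq_pow_val, h3, Units.val_one]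

theorem UFil_top {u : (Mat c)ˣ} (hu : u ∈ UFil c c) : u = 1 := by
  apply Units.ext
  have := Fil_top (mem_UFil.1 hu)
  rw [sub_eq_zero] at this
  rw [this, Units.val_one]

theorem comm_val (u v : (Mat c)ˣ) : ((⁅u, v⁆ : (Mat c)ˣ) : Mat c) - 1 =
    (((u : Mat c) - 1) * ((v : Mat c) - 1) - ((v : Mat c) - 1) * ((u : Mat c) - 1)) *
      ((u⁻¹ * v⁻¹ : (Mat c)ˣ) : Mat c) := by
  have h1 : (((u : Mat c) - 1) * ((v : Mat c) - 1) - ((v : Mat c) - 1) * ((u : Mat c) - 1)) =
      (u : Mat c) * v - v * u := by noncomm_ring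
  have h2 : (⁅u, v⁆ : (Mat c)ˣ) = u * v * (u⁻¹ * v⁻¹) := by
    rw [commutatorElement_def]; simp only [mul_assoc]
  have h3 : (v * u * (u⁻¹ * v⁻¹) : (Mat c)ˣ) = 1 := by group
  have h4 : (v : Mat c) * u * ((u⁻¹ * v⁻¹ : (Mat c)ˣ) : Mat c) = 1 := by
    rw [← Units.val_mul, ← Units.val_mul, h3, Units.val_one]
  rw [h1, h2, sub_mul, h4, Units.val_mul, Units.val_mul]

theorem comm_UFil {m n : ℕ} {u v : (Mat c)ˣ} (hu : u ∈ UFil c m) (hv : v ∈ UFil c n) :
    ⁅u, v⁆ ∈ UFil c (m+n+1) := by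
  rw [mem_UFil, comm_val]
  have h1 := Fil_sub (Fil_mul (mem_UFil.1 hu) (mem_UFil.1 hv))
    (Fil_mono (show (m+1)+(n+1) ≤ (n+1)+(m+1) by omega)
      (Fil_mul (mem_UFil.1 hv) (mem_UFil.1 hu)))
  have h2 : Fil 0 ((u⁻¹ * v⁻¹ : (Mat c)ˣ) : Mat c) :=
    UFil_val (mul_mem (UFil_anti (Nat.zero_le _) (inv_mem hu))
      (UFil_anti (Nat.zero_le _) (inv_mem hv)) : u⁻¹ * v⁻¹ ∈ UFil c 0)
  exact Fil_mono (by omega) (Fil_mul h1 h2)

theorem val_entry_ne {u : (Mat c)ˣ} {i j : Fin (c+1)} (h : i ≠ j) :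
    (u : Mat c) i j = ((u : Mat c) - 1) i j := by
  rw [Matrix.sub_apply, Matrix.one_apply_ne h, sub_zero]

theorem comm_entry {m n : ℕ} {u v : (Mat c)ˣ} (hu : u ∈ UFil c m) (hv : v ∈ UFil c n)
    (i k k' j : Fin (c+1)) (hk : (k : ℕ) = i + (m+1)) (hk' : (k' : ℕ) = i + (n+1))
    (hj : (j : ℕ) = i + (m+1) + (n+1)) :
    ((⁅u, v⁆ : (Mat c)ˣ) : Mat c) i j = (u : Mat c) i k * (v : Mat c) k j -
      (v : Mat c) i k' * (u : Mat c) k' j := by
  have hij : i ≠ j := by intro e; rw [← e] at hj; omega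
  have hik : i ≠ k := by intro e; rw [← e] at hk; omega
  have hkj : k ≠ j := by intro e; rw [← e, hk] at hj; omega
  have hik' : i ≠ k' := by intro e; rw [← e] at hk'; omega
  have hkj' : k' ≠ j := by intro e; rw [← e, hk'] at hj; omega
  rw [val_entry_ne hij, val_entry_ne hik, val_entry_ne hkj, val_entry_ne hik', val_entry_ne hkj',
    comm_val]
  set X := (((u : Mat c) - 1) * ((v : Mat c) - 1) - ((v : Mat c) - 1) * ((u : Mat c) - 1)) with hX
  have h1 : Fil ((m+1)+(n+1)) X := Fil_sub (Fil_mul (mem_UFil.1 hu) (mem_UFil.1 hv))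
    (Fil_mono (show (m+1)+(n+1) ≤ (n+1)+(m+1) by omega)
      (Fil_mul (mem_UFil.1 hv) (mem_UFil.1 hu)))
  have h2 : (u⁻¹ * v⁻¹ : (Mat c)ˣ) ∈ UFil c 0 :=
    mul_mem (UFil_anti (Nat.zero_le _) (inv_mem hu)) (UFil_anti (Nat.zero_le _) (inv_mem hv))
  have h3 : X * ((u⁻¹ * v⁻¹ : (Mat c)ˣ) : Mat c) =
      X + X * (((u⁻¹ * v⁻¹ : (Mat c)ˣ) : Mat c) - 1) := by
    rw [mul_sub, mul_one, add_sub_cancel]
  have h4 := Fil_mul h1 (mem_UFil.1 h2)
  rw [h3, Matrix.add_apply, h4 i j (by omega), add_zero, hX, Matrix.sub_apply,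
    mul_entry (mem_UFil.1 hu) (mem_UFil.1 hv) i k j hk (by omega),
    mul_entry (mem_UFil.1 hv) (mem_UFil.1 hu) i k' j hk' (by omega)]

theorem lcs_UFil {G : Type*} [Group G] (ρ : G →* (Mat c)ˣ) (h0 : ∀ g, ρ g ∈ UFil c 0) (n : ℕ) :
    ∀ g ∈ lcs G n, ρ g ∈ UFil c n := by
  induction n with
  | zero => intro g _; exact h0 g
  | succ n ih =>
    have : lcs G (n+1) ≤ (UFil c (n+1)).comap ρ := by
      rw [lcs_succ, Subgroup.commutator_le]
      intro x hx y _
      rw [Subgroup.mem_comap, map_commutatorElement]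
      exact comm_UFil (ih x hx) (h0 y)
    exact this

/-- additivity of the corner entries -/
theorem mul_corner {m : ℕ} {u v : (Mat c)ˣ} (hu : u ∈ UFil c m) (hv : v ∈ UFil c m)
    (i j : Fin (c+1)) (hj : (j : ℕ) = i + (m+1)) :
    ((u * v : (Mat c)ˣ) : Mat c) i j = (u : Mat c) i j + (v : Mat c) i j := by
  have hij : i ≠ j := by intro e; rw [← e] at hj; omega
  rw [val_entry_ne hij, val_entry_ne hij, val_entry_ne hij, Units.val_mul, sub_one_mul_aux,
    Matrix.add_apply, Matrix.add_apply,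
    Fil_mul (mem_UFil.1 hu) (mem_UFil.1 hv) i j (by omega), zero_add]

end matrices

section rep

variable {G : Type*} [Group G] {m : ℕ}

/-- the matrix of the letter `a` for the word `w` -/
def Nw (c : ℕ) {X : Type*} [DecidableEq X] (w : List X) (a : X) : Mat c :=
  fun i j => if (j : ℕ) = i + 1 ∧ w[(i : ℕ)]? = some a then 1 else 0

theorem Nw_Fil (c : ℕ) {X : Type*} [DecidableEq X] (w : List X) (a : X) : Fil 1 (Nw c w a) := by
  intro i j h
  unfold Nw
  rw [if_neg]
  rintro ⟨h1, _⟩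
  omega

def letter (c : ℕ) {X : Type*} [DecidableEq X] (w : List X) (a : X) : (Mat c)ˣ :=
  unit1 (Nw c w a) (Nw_Fil c w a)

theorem letter_mem (c : ℕ) {X : Type*} [DecidableEq X] (w : List X) (a : X) :
    letter c w a ∈ UFil c 0 := by
  rw [mem_UFil, letter, unit1_val, add_sub_cancel_left]
  exact Nw_Fil c w a

theorem letter_entry (c : ℕ) {X : Type*} [DecidableEq X] (w : List X) (a : X) (i j : Fin (c+1))
    (hj : (j : ℕ) = i + 1) :
    (letter c w a : Mat c) i j = if (w.drop i).take 1 = [a] then 1 else 0 := by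
  have hij : i ≠ j := by intro e; rw [← e] at hj; omega
  rw [letter, unit1_val, Matrix.add_apply, Matrix.one_apply_ne hij, zero_add, Nw]
  have e : (w.drop (i : ℕ)).take 1 = (w[(i : ℕ)]?).toList := by
    rw [List.take_one, List.head?_drop]
  rw [e]
  cases h : w[(i : ℕ)]? with
  | none => simp
  | some x => simp [hj]

/-- homomorphisms from a punctured surface group, which is free -/
def freeHom {g b : ℕ} {H : Type*} [Group H] (f : Idx g b → H) : Surf g (b+1) →* H :=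
  liftHom (fun i => f (Sum.inl i)) (fun i => f (Sum.inr (Sum.inl i)))
    (Fin.cons ((List.ofFn fun i : Fin g => ⁅f (Sum.inl i), f (Sum.inr (Sum.inl i))⁆).prod⁻¹ *
      (List.ofFn fun j : Fin b => f (Sum.inr (Sum.inr j))).prod⁻¹)
      (fun j => f (Sum.inr (Sum.inr j)))) (by
    rw [List.ofFn_succ, List.prod_cons]
    simp only [Fin.cons_zero, Fin.cons_succ]
    group)

/-- the free generators -/
def gJ {g b : ℕ} : Idx g b → Surf g (b+1)
  | Sum.inl i => A i
  | Sum.inr (Sum.inl i) => B i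
  | Sum.inr (Sum.inr j) => P j.succ

theorem freeHom_gJ {g b : ℕ} {H : Type*} [Group H] (f : Idx g b → H) (j : Idx g b) :
    freeHom f (gJ j) = f j := by
  rcases j with i | i | i
  · simp [freeHom, gJ]
  · simp [freeHom, gJ]
  · simp [freeHom, gJ]

theorem closure_gJ {g b : ℕ} : Subgroup.closure (Set.range (gJ (g := g) (b := b))) = ⊤ := by
  have hmem : ∀ j : Idx g b, gJ j ∈ Subgroup.closure (Set.range (gJ (g := g) (b := b))) :=
    fun j => Subgroup.subset_closure ⟨j, rfl⟩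
  refine closure_gens _ (fun i => hmem (Sum.inl i)) (fun i => hmem (Sum.inr (Sum.inl i))) ?_
  intro j
  cases j using Fin.cases with
  | succ j => exact hmem (Sum.inr (Sum.inr j))
  | zero =>
    have h0 := relation (g := g) (b := b+1)
    rw [List.ofFn_succ (f := fun j : Fin (b+1) => (P j : Surf g (b+1))), List.prod_cons] at h0
    have h1 : (List.ofFn fun i : Fin g => ⁅(A i : Surf g (b+1)), B i⁆).prod ∈
        Subgroup.closure (Set.range (gJ (g := g) (b := b))) := by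
      refine Subgroup.list_prod_mem _ ?_
      intro z hz
      obtain ⟨i, rfl⟩ := (List.mem_ofFn' _ _).1 hz
      simp only [commutatorElement_def]
      have hA := hmem (Sum.inl i)
      have hB := hmem (Sum.inr (Sum.inl i))
      exact mul_mem (mul_mem (mul_mem hA hB) (inv_mem hA)) (inv_mem hB)
    have h2 : (List.ofFn fun j : Fin b => (P j.succ : Surf g (b+1))).prod ∈
        Subgroup.closure (Set.range (gJ (g := g) (b := b))) := by
      refine Subgroup.list_prod_mem _ ?_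
      intro z hz
      obtain ⟨i, rfl⟩ := (List.mem_ofFn' _ _).1 hz
      exact hmem (Sum.inr (Sum.inr i))
    have e : (P 0 : Surf g (b+1)) =
        ((List.ofFn fun i : Fin g => ⁅(A i : Surf g (b+1)), B i⁆).prod)⁻¹ *
        ((List.ofFn fun j : Fin b => (P j.succ : Surf g (b+1))).prod)⁻¹ := by
      rw [eq_mul_inv_iff_mul_eq, eq_inv_iff_mul_eq_one, mul_eq_one_iff_eq_inv,
        eq_comm, inv_eq_iff_mul_eq_one]
      exact h0
    rw [e]
    exact mul_mem (inv_mem h1) (inv_mem h2)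

/-- the representation attached to a word -/
def rw' {g b : ℕ} (c : ℕ) (w : List (Idx g b)) : Surf g (b+1) →* (Mat c)ˣ :=
  freeHom fun j => letter c w j

theorem rw'_mem {g b : ℕ} (c : ℕ) (w : List (Idx g b)) (x : Surf g (b+1)) :
    rw' c w x ∈ UFil c 0 := by
  have : (UFil c 0).comap (rw' c w) = ⊤ := by
    rw [eq_top_iff, ← closure_gJ, Subgroup.closure_le]
    rintro _ ⟨j, rfl⟩
    show rw' c w (gJ j) ∈ UFil c 0
    rw [rw', freeHom_gJ]
    exact letter_mem c w j
  have hx : x ∈ (UFil c 0).comap (rw' c w) := by rw [this]; exact Subgroup.mem_top _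
  exact hx

end rep

end H94Simple
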