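import Pool.Agent.H94.SccQ

open scoped commutatorElement IsMulCommutative

namespace H94Simple

section val

variable {X : Type*}

/-- numerical value of a word -/
def val (rk : X → ℕ) (r : ℕ) : List X → ℕ
  | [] => 0
  | a :: l => rk a * r ^ l.length + val rk r l

variable {rk : X → ℕ} {r : ℕ}

theorem val_append (u v : List X) :
    val rk r (u ++ v) = val rk r u * r ^ v.length + val rk r v := by
  induction u with
  | nil => simp [val]
  | cons a u ih =>
    rw [List.cons_append, val, val, ih, List.length_append, pow_add]; ring

theorem val_lt (hr : ∀ x, rk x < r) (l : List X) : val rk r l < r ^ l.length := by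
  induction l with
  | nil => simp [val]
  | cons a l ih =>
    rw [val, List.length_cons, pow_succ]
    have h1 : (rk a + 1) * r ^ l.length ≤ r * r ^ l.length := Nat.mul_le_mul_right _ (hr a)
    nlinarith

theorem val_inj (hr : ∀ x, rk x < r) (hinj : Function.Injective rk) :
    ∀ (u v : List X), u.length = v.length → val rk r u = val rk r v → u = v := by
  intro u
  induction u with
  | nil =>
    intro v h _
    exact (List.eq_nil_of_length_eq_zero h.symm).symm
  | cons a u ih =>
    intro v h hv
    cases v with
    | nil => simp at h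
    | cons a' v =>
      have hl : u.length = v.length := by simpa using h
      rw [val, val, hl] at hv
      have h1 := val_lt hr u
      have h2 := val_lt hr v
      rw [hl] at h1
      have h3 : rk a = rk a' := by
        rcases lt_trichotomy (rk a) (rk a') with h4 | h4 | h4
        · have := Nat.mul_le_mul_right (r ^ v.length) (Nat.succ_le_of_lt h4)
          rw [Nat.succ_mul] at this; omega
        · exact h4
        · have := Nat.mul_le_mul_right (r ^ v.length) (Nat.succ_le_of_lt h4)
          rw [Nat.succ_mul] at this; omega
      have h4 : val rk r u = val rk r v := by rw [h3] at hv; omega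
      rw [hinj h3, ih v hl h4]

theorem val_replicate {x0 : X} (h0 : rk x0 = 0) (j : ℕ) (l : List X) :
    val rk r (List.replicate j x0 ++ l) = val rk r l := by
  induction j with
  | zero => simp
  | succ j ih => rw [List.replicate_succ, List.cons_append, val, h0, ih]; simp

end val

section lead

variable {g b : ℕ} (c : ℕ) (rk : Idx g b → ℕ) (r : ℕ)

/-- `u` is the smallest word of the leading form of an element -/
def LeadW (u : List (Idx g b)) (x : Surf g (b+1)) (α : List (Idx g b) → ZMod 2) : Prop :=
  u ≠ [] ∧ (∀ w : List (Idx g b), w.length = c → rw' c w x ∈ UFil c (u.length - 1)) ∧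
  (∀ w : List (Idx g b), w.length = c → ∀ i j : Fin (c+1), (j : ℕ) = i + u.length →
    (rw' c w x : Mat c) i j = α ((w.drop i).take u.length)) ∧
  α u = 1 ∧ ∀ w, w.length = u.length → α w ≠ 0 → val rk r u ≤ val rk r w

def InL (u : List (Idx g b)) : Prop := ∃ x α, LeadW c rk r u x α

variable {c rk r}

theorem InL_letter (a : Idx g b) : InL c rk r [a] := by
  refine ⟨gJ a, fun w => if w = [a] then 1 else 0, by simp, ?_, ?_, by simp, ?_⟩
  · intro w _
    exact rw'_mem c w _
  · intro w _ i j hj
    rw [rw', freeHom_gJ, letter_entry c w a i j hj]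
    rfl
  · intro w _ h
    by_cases h1 : w = [a]
    · rw [h1]
    · simp [h1] at h

theorem InL_mul {u v : List (Idx g b)} (hu : InL c rk r u) (hv : InL c rk r v)
    (h : val rk r (u ++ v) < val rk r (v ++ u)) : InL c rk r (u ++ v) := by
  obtain ⟨x, α, hu0, hu1, hu2, hu3, hu4⟩ := hu
  obtain ⟨y, β, hv0, hv1, hv2, hv3, hv4⟩ := hv
  have lu : 0 < u.length := List.length_pos_of_ne_nil hu0
  have lv : 0 < v.length := List.length_pos_of_ne_nil hv0
  have key1 : ∀ w : List (Idx g b), w.length = u.length + v.length →
      α (w.take u.length) * β (w.drop u.length) ≠ 0 → val rk r (u ++ v) ≤ val rk r w := by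
    intro w hw hne
    have h1 := hu4 (w.take u.length) (by rw [List.length_take]; omega) (left_ne_zero_of_mul hne)
    have h2 := hv4 (w.drop u.length) (by rw [List.length_drop]; omega) (right_ne_zero_of_mul hne)
    have h3 : val rk r w = val rk r (w.take u.length ++ w.drop u.length) := by
      rw [List.take_append_drop]
    have h4 : (w.drop u.length).length = v.length := by rw [List.length_drop]; omega
    rw [h3, val_append, val_append, h4]
    exact Nat.add_le_add (Nat.mul_le_mul_right _ h1) h2
  have key2 : ∀ w : List (Idx g b), w.length = u.length + v.length →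
      β (w.take v.length) * α (w.drop v.length) ≠ 0 → val rk r (v ++ u) ≤ val rk r w := by
    intro w hw hne
    have h1 := hv4 (w.take v.length) (by rw [List.length_take]; omega) (left_ne_zero_of_mul hne)
    have h2 := hu4 (w.drop v.length) (by rw [List.length_drop]; omega) (right_ne_zero_of_mul hne)
    have h3 : val rk r w = val rk r (w.take v.length ++ w.drop v.length) := by
      rw [List.take_append_drop]
    have h4 : (w.drop v.length).length = u.length := by rw [List.length_drop]; omega
    rw [h3, val_append, val_append, h4]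
    exact Nat.add_le_add (Nat.mul_le_mul_right _ h1) h2
  refine ⟨⁅x, y⁆, fun w => α (w.take u.length) * β (w.drop u.length) -
    β (w.take v.length) * α (w.drop v.length), by simp [hu0], ?_, ?_, ?_, ?_⟩
  · intro w hw
    rw [map_commutatorElement, List.length_append]
    have := comm_UFil (hu1 w hw) (hv1 w hw)
    have e : u.length - 1 + (v.length - 1) + 1 = u.length + v.length - 1 := by omega
    rwa [e] at this
  · intro w hw i j hj
    rw [List.length_append] at hj ⊢
    have hjc := j.2
    have hk : (i : ℕ) + u.length < c + 1 := by omega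
    have hk' : (i : ℕ) + v.length < c + 1 := by omega
    rw [map_commutatorElement, comm_entry (hu1 w hw) (hv1 w hw) i ⟨i + u.length, hk⟩
      ⟨i + v.length, hk'⟩ j (by simp; omega) (by simp; omega) (by omega)]
    rw [hu2 w hw i ⟨i + u.length, hk⟩ rfl, hv2 w hw i ⟨i + v.length, hk'⟩ rfl,
      hv2 w hw ⟨i + u.length, hk⟩ j (by simp; omega),
      hu2 w hw ⟨i + v.length, hk'⟩ j (by simp; omega)]
    simp only [List.take_take, List.drop_take, List.drop_drop]
    have e1 : min u.length (u.length + v.length) = u.length := by omega
    have e2 : min v.length (u.length + v.length) = v.length := by omega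
    have e3 : u.length + v.length - u.length = v.length := by omega
    have e4 : u.length + v.length - v.length = u.length := by omega
    rw [e1, e2, e3, e4]
  · have h1 : (u ++ v).take u.length = u := by simp
    have h2 : (u ++ v).drop u.length = v := by simp
    have h3 : β ((u ++ v).take v.length) * α ((u ++ v).drop v.length) = 0 := by
      by_contra hne
      have := key2 (u ++ v) (by rw [List.length_append]) hne
      omega
    simp only
    rw [h1, h2, h3, hu3, hv3]; simp
  · intro w hw hne
    rw [List.length_append] at hw
    by_cases h1 : α (w.take u.length) * β (w.drop u.length) = 0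
    · have h2 : β (w.take v.length) * α (w.drop v.length) ≠ 0 := by
        intro h2
        simp only at hne
        rw [h1, h2] at hne
        simp at hne
      exact (h.trans_le (key2 w hw h2)).le
    · exact key1 w hw h1

variable {x0 : Idx g b}

theorem InL_block (h0 : rk x0 = 0) (hr : 2 ≤ r) {a : Idx g b} (ha : 0 < rk a) (j : ℕ) :
    InL c rk r (List.replicate j x0 ++ [a]) := by
  induction j with
  | zero => simpa using InL_letter (c := c) (rk := rk) (r := r) a
  | succ j ih =>
    have h1 : List.replicate (j+1) x0 ++ [a] = [x0] ++ (List.replicate j x0 ++ [a]) := by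
      rw [List.replicate_succ]; rfl
    rw [h1]
    refine InL_mul (InL_letter x0) ih ?_
    rw [val_append [x0], val_append _ [x0], val_replicate h0]
    simp only [val, h0, List.length_nil, List.length_cons]
    simp
    nlinarith

def Good (c : ℕ) (rk : Idx g b → ℕ) (r : ℕ) (x0 : Idx g b) (K : ℕ) (u : List (Idx g b)) : Prop :=
  InL c rk r u ∧ ∃ u', u = List.replicate K x0 ++ u'

theorem Good_block (h0 : rk x0 = 0) (hr : 2 ≤ r) (hrk : ∀ x, rk x < r) {K : ℕ}
    {u : List (Idx g b)} (hu : Good c rk r x0 K u) {j : ℕ} (hj : j < K) {a : Idx g b}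
    (ha : 0 < rk a) : Good c rk r x0 K (u ++ (List.replicate j x0 ++ [a])) := by
  obtain ⟨hu1, u', rfl⟩ := hu
  refine ⟨InL_mul hu1 (InL_block h0 hr ha j) ?_, u' ++ (List.replicate j x0 ++ [a]), by
    rw [List.append_assoc]⟩
  have h1 : val rk r (List.replicate K x0 ++ u' ++ (List.replicate j x0 ++ [a])) <
      r ^ (u'.length + (j + 1)) := by
    rw [List.append_assoc, val_replicate h0]
    have := val_lt hrk (u' ++ (List.replicate j x0 ++ [a]))
    simpa using this
  have h2 : val rk r (List.replicate j x0 ++ [a] ++ (List.replicate K x0 ++ u')) =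
      rk a * r ^ (K + u'.length) + val rk r u' := by
    rw [List.append_assoc, val_replicate h0, List.singleton_append, val, val_replicate h0,
      List.length_append, List.length_replicate]
  rw [h2]
  have h3 : r ^ (u'.length + (j+1)) ≤ r ^ (K + u'.length) :=
    Nat.pow_le_pow_right (by omega) (by omega)
  have h4 : 1 * r ^ (K + u'.length) ≤ rk a * r ^ (K + u'.length) := Nat.mul_le_mul_right _ ha
  omega

theorem Good_super (h0 : rk x0 = 0) (h0' : ∀ a, a ≠ x0 → 0 < rk a) (hr : 2 ≤ r)
    (hrk : ∀ x, rk x < r) {K : ℕ} {a : Idx g b} (ha : 0 < rk a) :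
    ∀ (s : List (Idx g b)) (j : ℕ) (u : List (Idx g b)), j + s.length < K →
      Good c rk r x0 K u → Good c rk r x0 K (u ++ (List.replicate j x0 ++ (s ++ [a]))) := by
  intro s
  induction s with
  | nil =>
    intro j u hj hu
    exact Good_block h0 hr hrk hu (by simpa using hj) ha
  | cons y s ih =>
    intro j u hj hu
    rw [List.length_cons] at hj
    by_cases hy : y = x0
    · subst hy
      have h1 := ih (j+1) u (by omega) hu
      have e : List.replicate j y ++ (y :: s ++ [a]) = List.replicate (j+1) y ++ (s ++ [a]) := by
        rw [List.replicate_succ']; simp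
      rw [e]; exact h1
    · have h1 := Good_block h0 hr hrk hu (show j < K by omega) (h0' y hy)
      have h2 := ih 0 _ (by omega) h1
      have e : u ++ (List.replicate j x0 ++ [y]) ++ (List.replicate 0 x0 ++ (s ++ [a])) =
          u ++ (List.replicate j x0 ++ (y :: s ++ [a])) := by simp
      rwa [e] at h2

theorem words_exist (c : ℕ) (h0 : rk x0 = 0) (h0' : ∀ a, a ≠ x0 → 0 < rk a) (hr : 2 ≤ r)
    (hrk : ∀ x, rk x < r) (x1 : Idx g b) (h1 : x1 ≠ x0) (K : ℕ) (t : ℕ) :
    ∃ W : Finset (List (Idx g b)), (∀ u ∈ W, Good c rk r x0 (K+1) u ∧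
      u.length = K + 2 + (K+1) * t) ∧
      W.card = (Fintype.card (Idx g b) ^ K * (Fintype.card (Idx g b) - 1)) ^ t := by
  classical
  induction t with
  | zero =>
    refine ⟨{List.replicate (K+1) x0 ++ [x1]}, ?_, by simp⟩
    intro u hu
    rw [Finset.mem_singleton] at hu
    subst hu
    exact ⟨⟨InL_block h0 hr (h0' x1 h1) _, [x1], rfl⟩, by simp⟩
  | succ t ih =>
    obtain ⟨W, hW, hcard⟩ := ih
    let F : List (Idx g b) × ((Fin K → Idx g b) × Idx g b) → List (Idx g b) := fun p =>
      p.1 ++ (List.ofFn p.2.1 ++ [p.2.2])
    refine ⟨(W ×ˢ ((Finset.univ : Finset (Fin K → Idx g b)) ×ˢ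
      ((Finset.univ : Finset (Idx g b)).erase x0))).image F, ?_, ?_⟩
    · intro u hu
      obtain ⟨⟨p, f, a⟩, hp, rfl⟩ := Finset.mem_image.1 hu
      simp only [Finset.mem_product, Finset.mem_univ, Finset.mem_erase, true_and, and_true] at hp
      have h2 := Good_super (c := c) h0 h0' hr hrk (h0' a hp.2) (List.ofFn f) 0 p
        (by rw [List.length_ofFn]; omega) (hW p hp.1).1
      rw [List.replicate_zero, List.nil_append] at h2
      refine ⟨h2, ?_⟩
      simp only [F, List.length_append, List.length_ofFn, List.length_cons, List.length_nil,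
        (hW p hp.1).2]
      ring
    · rw [Finset.card_image_of_injOn, Finset.card_product, Finset.card_product, hcard,
        Finset.card_univ, Fintype.card_fun, Fintype.card_fin, Finset.card_erase_of_mem
        (Finset.mem_univ _), Finset.card_univ, pow_succ]
      rintro ⟨p, f, a⟩ hp ⟨p', f', a'⟩ hp' h
      simp only [Finset.coe_product, Set.mem_prod, Finset.mem_coe] at hp hp'
      have hlen : p.length = p'.length := by rw [(hW p hp.1).2, (hW p' hp'.1).2]
      have h' : p ++ (List.ofFn f ++ [a]) = p' ++ (List.ofFn f' ++ [a']) := h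
      obtain ⟨e1, e2⟩ := List.append_inj h' hlen
      obtain ⟨e3, e4⟩ := List.append_inj e2 (by rw [List.length_ofFn, List.length_ofFn])
      have e5 := List.ofFn_injective e3
      have e6 : a = a' := by simpa using e4
      rw [e1, e5, e6]

/-- the simultaneous representation of all words of length `c` -/
def allRep (g b c : ℕ) : Surf g (b+1) →* (List.Vector (Idx g b) c → (Mat c)ˣ) :=
  MonoidHom.pi fun w => rw' c w.1

theorem range_card (hrk : ∀ x, rk x < r) (hinj : Function.Injective rk) (hc : 1 ≤ c)
    (W : Finset (List (Idx g b))) (hW : ∀ u ∈ W, InL c rk r u ∧ u.length = c) :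
    2 ^ W.card ≤ Nat.card (allRep g b c).range := by
  classical
  have hch : ∀ u : List (Idx g b), ∃ x α, u ∈ W → LeadW c rk r u x α := by
    intro u
    by_cases hu : u ∈ W
    · obtain ⟨x, α, h⟩ := (hW u hu).1
      exact ⟨x, α, fun _ => h⟩
    · exact ⟨1, fun _ => 0, fun h => absurd h hu⟩
  choose x α hx using hch
  have key : ∀ (w : List (Idx g b)), w.length = c → ∀ L : List (List (Idx g b)),
      (∀ u ∈ L, u ∈ W) → rw' c w (L.map x).prod ∈ UFil c (c-1) ∧
      (rw' c w (L.map x).prod : Mat c) 0 (Fin.last c) = (L.map fun u => α u w).sum := by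
    intro w hw L
    induction L with
    | nil =>
      intro _
      refine ⟨by simp, ?_⟩
      have : (0 : Fin (c+1)) ≠ Fin.last c := by
        intro e; have := congrArg Fin.val e; simp at this; omega
      simp [Matrix.one_apply_ne this]
    | cons u L ih =>
      intro hL
      obtain ⟨h1, h2⟩ := ih fun v hv => hL v (List.mem_cons_of_mem _ hv)
      have huW := hL u (by simp)
      obtain ⟨_, h3, h4, _, _⟩ := hx u huW
      have hlen := (hW u huW).2
      have h5 := h3 w hw
      rw [hlen] at h5
      have h6 := h4 w hw 0 (Fin.last c) (by simp [hlen])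
      rw [List.map_cons, List.prod_cons, map_mul, List.map_cons, List.sum_cons]
      refine ⟨mul_mem h5 h1, ?_⟩
      rw [mul_corner h5 h1 0 (Fin.last c) (by simp; omega), h2, h6, hlen]
      congr 2
      have : List.take c w = w := by rw [← hw]; exact List.take_length
      simpa using this
  let F : W.powerset → (allRep g b c).range := fun S =>
    ⟨allRep g b c (S.1.toList.map x).prod, ⟨_, rfl⟩⟩
  have hF : Function.Injective F := by
    rintro ⟨S, hS⟩ ⟨S', hS'⟩ h
    rw [Finset.mem_powerset] at hS hS'
    apply Subtype.ext
    show S = S'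
    have h1 : allRep g b c (S.toList.map x).prod = allRep g b c (S'.toList.map x).prod :=
      congrArg Subtype.val h
    have hsum : ∀ w : List (Idx g b), w.length = c → ∑ u ∈ S, α u w = ∑ u ∈ S', α u w := by
      intro w hw
      have h2 : rw' c w (S.toList.map x).prod = rw' c w (S'.toList.map x).prod :=
        congrFun h1 ⟨w, hw⟩
      have h3 := (key w hw S.toList (fun u hu => hS (by simpa using hu))).2
      have h4 := (key w hw S'.toList (fun u hu => hS' (by simpa using hu))).2
      rw [h2, h4, Finset.sum_map_toList, Finset.sum_map_toList] at h3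
      exact h3.symm
    by_contra hne
    have hD : (symmDiff S S').Nonempty := by
      rw [Finset.nonempty_iff_ne_empty]
      intro h
      exact hne (symmDiff_eq_bot.1 h)
    obtain ⟨u, huD, hmin⟩ := Finset.exists_min_image (symmDiff S S') (fun u => val rk r u) hD
    have hDW : ∀ v ∈ symmDiff S S', v ∈ W := by
      intro v hv
      rcases Finset.mem_symmDiff.1 hv with h | h
      · exact hS h.1
      · exact hS' h.1
    have hlen : ∀ v ∈ symmDiff S S', v.length = c := fun v hv => (hW v (hDW v hv)).2
    have hz : ∀ v ∈ symmDiff S S', v ≠ u → α v u = 0 := by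
      intro v hv hvu
      by_contra hne2
      obtain ⟨_, _, _, _, h5⟩ := hx v (hDW v hv)
      have h6 := h5 u (by rw [hlen u huD, hlen v hv]) hne2
      have h7 := hmin v hv
      exact hvu (val_inj hrk hinj v u (by rw [hlen u huD, hlen v hv]) (le_antisymm h6 h7))
    have hu1 : α u u = 1 := (hx u (hDW u huD)).2.2.2.1
    have h8 := hsum u (hlen u huD)
    have h9 := Finset.sum_sdiff_sub_sum_sdiff (s₁ := S') (s₂ := S) (f := fun v => α v u)
    rw [h8, sub_self] at h9
    rcases Finset.mem_symmDiff.1 huD with h | h
    · have e1 : ∑ v ∈ S \ S', α v u = 1 := by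
        rw [Finset.sum_eq_single u, hu1]
        · intro v hv hvu
          exact hz v (Finset.mem_symmDiff.2 (Or.inl (by simpa using hv))) hvu
        · intro h'; exact absurd (by simpa using h) h'
      have e2 : ∑ v ∈ S' \ S, α v u = 0 := by
        refine Finset.sum_eq_zero fun v hv => ?_
        refine hz v (Finset.mem_symmDiff.2 (Or.inr (by simpa using hv))) ?_
        rintro rfl
        exact (Finset.mem_sdiff.1 hv).2 h.1
      rw [e1, e2] at h9
      simp at h9
    · have e1 : ∑ v ∈ S' \ S, α v u = 1 := by
        rw [Finset.sum_eq_single u, hu1]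
        · intro v hv hvu
          exact hz v (Finset.mem_symmDiff.2 (Or.inr (by simpa using hv))) hvu
        · intro h'; exact absurd (by simpa using h) h'
      have e2 : ∑ v ∈ S \ S', α v u = 0 := by
        refine Finset.sum_eq_zero fun v hv => ?_
        refine hz v (Finset.mem_symmDiff.2 (Or.inl (by simpa using hv))) ?_
        rintro rfl
        exact (Finset.mem_sdiff.1 hv).2 h.1
      rw [e1, e2] at h9
      simp at h9
  have h1 := Nat.card_le_card_of_injective F hF
  rw [Nat.card_eq_fintype_card (α := W.powerset), Fintype.card_coe, Finset.card_powerset] at h1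
  exact h1

end lead

end H94Simple
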