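import Pool.Agent.H94.SccR

open scoped commutatorElement IsMulCommutative Topology
open Filter

namespace H94Simple

theorem exp_beats (ρ : ℝ) (hρ : 1 < ρ) (a b : ℝ) : ∃ t : ℕ, a + b * t < ρ ^ t := by
  have h1 := tendsto_pow_const_div_const_pow_of_one_lt 1 hρ
  have h0 := tendsto_pow_const_div_const_pow_of_one_lt 0 hρ
  have h : Tendsto (fun n : ℕ => a * ((n:ℝ)^0 / ρ^n) + b * ((n:ℝ)^1 / ρ^n)) atTop
      (𝓝 (a * 0 + b * 0)) := (h0.const_mul a).add (h1.const_mul b)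
  rw [mul_zero, mul_zero, add_zero] at h
  obtain ⟨t, ht⟩ := (h.eventually (gt_mem_nhds one_pos)).exists
  refine ⟨t, ?_⟩
  have hp : 0 < ρ ^ t := by positivity
  have e : a * ((t:ℝ)^0 / ρ^t) + b * ((t:ℝ)^1 / ρ^t) = (a + b * t) / ρ^t := by
    field_simp
  rw [e, div_lt_one hp] at ht
  exact ht

theorem lcs_surj {G H : Type*} [Group G] [Group H] (f : G →* H) (hf : Function.Surjective f)
    (n : ℕ) : lcs H n ≤ (lcs G n).map f := by
  induction n with
  | zero =>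
    intro y _
    obtain ⟨x, rfl⟩ := hf y
    exact ⟨x, Subgroup.mem_top _, rfl⟩
  | succ n ih =>
    rw [lcs_succ, Subgroup.commutator_le]
    intro y hy z _
    obtain ⟨x, hx, rfl⟩ := ih hy
    obtain ⟨w, rfl⟩ := hf z
    refine ⟨⁅x, w⁆, ?_, map_commutatorElement _ _ _⟩
    rw [lcs_succ]
    exact Subgroup.commutator_mem_commutator hx (Subgroup.mem_top _)

section assembly

variable {g b : ℕ}

theorem lcs_range_bot (c : ℕ) : lcs (allRep g b c).range c = ⊥ := by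
  rw [eq_bot_iff]
  intro x hx
  obtain ⟨z, hz, rfl⟩ := lcs_surj (allRep g b c).rangeRestrict
    (MonoidHom.rangeRestrict_surjective _) c hx
  rw [Subgroup.mem_bot]
  apply Subtype.ext
  funext w
  exact UFil_top (lcs_UFil (rw' c w.1) (rw'_mem c w.1) c z hz)

theorem range_pow (c : ℕ) (x : (allRep g b c).range) : x ^ (2 ^ (c+1)) = 1 := by
  obtain ⟨_, z, rfl⟩ := x
  apply Subtype.ext
  funext w
  exact UFil_pow (rw'_mem c w.1 z)

theorem range_gen (c : ℕ) : Subgroup.closure (Set.range fun j : Idx g b =>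
    (allRep g b c).rangeRestrict (gJ j)) ⊔ lcs (allRep g b c).range 1 = ⊤ := by
  have h := congrArg (Subgroup.map (allRep g b c).rangeRestrict) (closure_gJ (g := g) (b := b))
  rw [MonoidHom.map_closure, Subgroup.map_top_of_surjective _
    (MonoidHom.rangeRestrict_surjective _), ← Set.range_comp] at h
  have h2 : Subgroup.closure (Set.range fun j : Idx g b =>
    (allRep g b c).rangeRestrict (gJ j)) = ⊤ := h
  rw [h2, top_sup_eq]

theorem log_range_le (k : ℕ) (hk1 : 1 ≤ k) (hk : Fintype.card (Idx g b) = k + 1)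
    (hd : ∀ m, dia (simple g (b+1)) m ≤ ((k + 1 : ℕ) : ℕ∞)) (l : ℝ) (hl : 1 < l)
    (hF : (((k:ℝ)+1)^2 - 1) * l^2 + (((k:ℝ)+1) - 1) * l + 1 ≤ ((k:ℝ)+1) * l^3 - 1/2) (c : ℕ) :
    Real.log (Nat.card (allRep g b c).range) ≤
      2 * (((k:ℝ)+1) * Real.log (kap g b) +
        (((k:ℝ)+1) * ((k:ℝ)+2) + 1) * (((k:ℝ)+1) * (((c:ℝ)+1) * Real.log 2))) * l ^ c := by
  set Q := (allRep g b c).range
  have hpos : ∀ n, 0 < (lcs Q n).index := fun n =>
    Nat.pos_of_ne_zero Subgroup.index_ne_zero_of_finite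
  have h1 := log_rec k hk1 (kap g b) (kap_pos g b) (fun n => (lcs Q n).index) hpos
    (by simp [lcs_zero]) (main_ineq (allRep g b c).rangeRestrict
      (MonoidHom.rangeRestrict_surjective _) k hk hd) l hl hF c
  have h2 : (lcs Q c).index = Nat.card Q := by
    rw [lcs_range_bot]; exact Subgroup.index_bot
  simp only [h2] at h1
  refine h1.trans ?_
  have hi1 : (lcs Q 1).index ≤ (2 ^ (c+1)) ^ (k+1) := by
    have := index_one_le _ (range_gen (g := g) (b := b) c) (2 ^ (c+1)) (by positivity) (range_pow c)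
    rwa [hk] at this
  have hi2 : (lcs Q 2).index ≤ (lcs Q 1).index ^ (k+1+1) := by
    have := index_two_le _ (range_gen (g := g) (b := b) c)
    rwa [hk] at this
  have hp1 : (0:ℝ) < (lcs Q 1).index := by exact_mod_cast hpos 1
  have hp2 : (0:ℝ) < (lcs Q 2).index := by exact_mod_cast hpos 2
  have hl1 : Real.log (lcs Q 1).index ≤ ((k:ℝ)+1) * (((c:ℝ)+1) * Real.log 2) := by
    have h3 : ((lcs Q 1).index : ℝ) ≤ (2 ^ (c+1)) ^ (k+1) := by exact_mod_cast hi1
    have h4 := Real.log_le_log hp1 h3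
    rw [Real.log_pow, Real.log_pow] at h4
    push_cast at h4
    exact h4
  have hl2 : Real.log (lcs Q 2).index ≤ ((k:ℝ)+2) * Real.log (lcs Q 1).index := by
    have h3 : ((lcs Q 2).index : ℝ) ≤ ((lcs Q 1).index : ℝ) ^ (k+1+1) := by exact_mod_cast hi2
    have h4 := Real.log_le_log hp2 h3
    rw [Real.log_pow] at h4
    push_cast at h4
    linarith
  have hk0 : (0:ℝ) ≤ k := by positivity
  have hlc : 0 ≤ l ^ c := by positivity
  apply mul_le_mul_of_nonneg_right _ hlc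
  have h5 : ((k:ℝ)+1) * Real.log (lcs Q 2).index ≤
      ((k:ℝ)+1) * (((k:ℝ)+2) * Real.log (lcs Q 1).index) :=
    mul_le_mul_of_nonneg_left hl2 (by linarith)
  have h6 : (((k:ℝ)+1) * ((k:ℝ)+2) + 1) * Real.log (lcs Q 1).index ≤
      (((k:ℝ)+1) * ((k:ℝ)+2) + 1) * (((k:ℝ)+1) * (((c:ℝ)+1) * Real.log 2)) :=
    mul_le_mul_of_nonneg_left hl1 (by positivity)
  nlinarith [h5, h6]

theorem lower_exists (hg : 1 ≤ g) :
    ∃ m, ¬ dia (simple g (b+1)) m ≤ ((2 * g + b : ℕ) : ℕ∞) := by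
  by_contra hcon
  push Not at hcon
  have hcard : Fintype.card (Idx g b) = 2 * g + b := by
    rw [Fintype.card_sum, Fintype.card_sum, Fintype.card_fin, Fintype.card_fin]; ring
  obtain ⟨k, hk⟩ : ∃ k, 2 * g + b = k + 1 := ⟨2 * g + b - 1, by omega⟩
  have hk1 : 1 ≤ k := by omega
  rw [hk] at hcard hcon
  have hk' : (1:ℝ) ≤ k := by exact_mod_cast hk1
  obtain ⟨l, hl1, hl2, hF⟩ := lam_exists ((k:ℝ)+1) (by linarith)
  -- the order of letters
  let e := Fintype.equivFin (Idx g b)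
  let rk : Idx g b → ℕ := fun x => (e x : ℕ)
  have hrk : ∀ x, rk x < k + 1 := fun x => (e x).2.trans_eq hcard
  have hinj : Function.Injective rk := fun x y h => e.injective (Fin.ext h)
  have c0 : 0 < Fintype.card (Idx g b) := by omega
  have c1 : 1 < Fintype.card (Idx g b) := by omega
  let x0 : Idx g b := e.symm ⟨0, c0⟩
  let x1 : Idx g b := e.symm ⟨1, c1⟩
  have h0 : rk x0 = 0 := by simp [rk, x0]
  have h1 : rk x1 = 1 := by simp [rk, x1]
  have h0' : ∀ a, a ≠ x0 → 0 < rk a := by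
    intro a ha
    rcases Nat.eq_zero_or_pos (rk a) with h | h
    · exact absurd (hinj (h.trans h0.symm)) ha
    · exact h
  have h10 : x1 ≠ x0 := by intro h; rw [h, h0] at h1; omega
  -- choice of the block length
  have hlk : 1 < ((k:ℝ)+1) / l := by rw [one_lt_div (by linarith)]; exact hl2
  obtain ⟨K, hK⟩ := pow_unbounded_of_one_lt (((k:ℝ)+1) / k) hlk
  have hK' : ((k:ℝ)+1) / k < (((k:ℝ)+1) / l) ^ (K+1) :=
    hK.trans_le (pow_le_pow_right₀ hlk.le (Nat.le_succ K))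
  set ρ : ℝ := ((k:ℝ)+1)^K * k / l ^ (K+1) with hρ
  have hlpos : 0 < l := by linarith
  have hρ1 : 1 < ρ := by
    rw [hρ, one_lt_div (by positivity)]
    rw [div_pow, lt_div_iff₀ (by positivity), div_mul_eq_mul_div, div_lt_iff₀ (by linarith),
      pow_succ ((k:ℝ)+1)] at hK'
    have : ((k:ℝ)+1) * l ^ (K+1) < ((k:ℝ)+1) * (((k:ℝ)+1)^K * k) := by linarith
    exact lt_of_mul_lt_mul_left this (by linarith)
  -- choice of the number of blocks
  set a1 : ℝ := ((k:ℝ)+1) * Real.log (kap g b) with ha1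
  set a2 : ℝ := (((k:ℝ)+1) * ((k:ℝ)+2) + 1) * (((k:ℝ)+1) * Real.log 2) with ha2
  obtain ⟨t, ht⟩ := exp_beats ρ hρ1
    ((2 * (a1 + a2 * ((K:ℝ) + 3)) * l ^ (K+2)) / Real.log 2)
    ((2 * (a2 * ((K:ℝ)+1)) * l ^ (K+2)) / Real.log 2)
  set c := K + 2 + (K+1) * t with hc
  obtain ⟨W, hW, hWc⟩ := words_exist (rk := rk) (r := k+1) c h0 h0' (by omega) hrk x1 h10 K t
  have h2 := range_card (c := c) hrk hinj (by omega) W fun u hu => ⟨(hW u hu).1.1, (hW u hu).2⟩
  have h3 := log_range_le k hk1 hcard (fun m => hcon m) l hl1 hF c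
  have hlog2 : 0 < Real.log 2 := Real.log_pos (by norm_num)
  have h4 : (W.card : ℝ) * Real.log 2 ≤ Real.log (Nat.card (allRep g b c).range) := by
    have h5 : ((2 ^ W.card : ℕ) : ℝ) ≤ (Nat.card (allRep g b c).range : ℝ) := by exact_mod_cast h2
    have h6 := Real.log_le_log (by positivity) h5
    push_cast at h6
    rwa [Real.log_pow] at h6
  have h5 : (W.card : ℝ) = (((k:ℝ)+1)^K * k)^t := by
    rw [hWc, hcard]; push_cast [Nat.add_sub_cancel]; ring
  have h6 : (((k:ℝ)+1)^K * k)^t = ρ ^ t * (l ^ (K+1)) ^ t := by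
    rw [← mul_pow, hρ, div_mul_cancel₀ _ (by positivity)]
  have h7 : l ^ c = l ^ (K+2) * (l ^ (K+1)) ^ t := by
    rw [hc, pow_add, pow_mul]
  have hcr : (c:ℝ) = K + 2 + (K+1) * t := by rw [hc]; push_cast; ring
  rw [h5, h6] at h4
  have h8 := h4.trans h3
  rw [h7, hcr] at h8
  have hpt : 0 < (l ^ (K+1)) ^ t := by positivity
  have h9 : ρ ^ t * Real.log 2 ≤ 2 * (a1 + a2 * ((K:ℝ) + 3 + (K+1) * t)) * l ^ (K+2) := by
    have h10 : (ρ ^ t * Real.log 2) * (l ^ (K+1)) ^ t ≤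
        (2 * (a1 + a2 * ((K:ℝ) + 3 + (K+1) * t)) * l ^ (K+2)) * (l ^ (K+1)) ^ t := by
      rw [ha1, ha2]
      nlinarith [h8]
    exact le_of_mul_le_mul_right h10 hpt
  have h10 : ((2 * (a1 + a2 * ((K:ℝ) + 3)) * l ^ (K+2)) / Real.log 2 +
      ((2 * (a2 * ((K:ℝ)+1)) * l ^ (K+2)) / Real.log 2) * t) * Real.log 2 =
      2 * (a1 + a2 * ((K:ℝ) + 3 + (K+1) * t)) * l ^ (K+2) := by
    field_simp; ring
  have h11 := mul_lt_mul_of_pos_right ht hlog2
  rw [h10] at h11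
  linarith

theorem dia_mono {k m n : ℕ} (hmn : m ≤ n) (h : dia (simple g b) n ≤ (k : ℕ∞)) :
    dia (simple g b) m ≤ (k : ℕ∞) := by
  refine diam_le fun q => ?_
  obtain ⟨x, rfl⟩ := pr_surj m q
  obtain ⟨f, hf1, hf2⟩ := exists_fun h x
  refine ⟨List.ofFn fun i => pr (Surf g b) m (f i), ⟨?_, ?_⟩, by simp⟩
  · intro y hy
    obtain ⟨i, rfl⟩ := (List.mem_ofFn' _ _).1 hy
    exact Or.inl ⟨f i, hf1 i, rfl⟩
  · have h1 : pr (Surf g b) m (List.ofFn f).prod = pr (Surf g b) m x := by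
      rw [pr_eq]
      exact lcs_anti' hmn ((pr_eq _ _ _).1 hf2)
    rw [← h1, map_list_prod, List.map_ofFn]
    rfl

/-- **The limit for punctured surfaces of positive genus.** -/
theorem exact_limit (g b : ℕ) (hg : 1 ≤ g) :
    ∃ n0, ∀ n, n0 ≤ n → dia (simple g (b+1)) n = ((2 * g + b + 1 : ℕ) : ℕ∞) := by
  obtain ⟨m, hm⟩ := lower_exists (g := g) (b := b) hg
  refine ⟨m, fun n hn => ?_⟩
  have h1 := surface_bound' g (b+1) n hg
  have e : 2 * g + 1 + (b + 1 - 1) = 2 * g + b + 1 := by omega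
  rw [e] at h1
  have h2 : ¬ dia (simple g (b+1)) n ≤ ((2 * g + b : ℕ) : ℕ∞) := fun h => hm (dia_mono hn h)
  obtain ⟨d, hd⟩ := ENat.ne_top_iff_exists.1 (ne_top_of_le_ne_top (ENat.natCast_ne_top _) h1)
  rw [← hd] at h1 h2 ⊢
  have h3 : d ≤ 2 * g + b + 1 := by exact_mod_cast h1
  have h4 : ¬ d ≤ 2 * g + b := by exact_mod_cast h2
  have h5 : d = 2 * g + b + 1 := by omega
  rw [h5]

end assembly

end H94Simple
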