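import Pool.Agent.H94.SccS

open scoped commutatorElement IsMulCommutative

namespace H94Simple

section gradedMat

variable {I : Type*} [Fintype I] [DecidableEq I] {p : ℕ} [hp : Fact p.Prime] (deg : I → ℕ)

/-- filtration -/
def FilG (m : ℕ) (T : Matrix I I (ZMod p)) : Prop := ∀ i j, deg i < deg j + m → T i j = 0

/-- homogeneous matrices -/
def HmG (n : ℤ) (T : Matrix I I (ZMod p)) : Prop := ∀ i j, T i j ≠ 0 → (deg i : ℤ) = deg j + n

variable {deg}

theorem FilG_zero (m : ℕ) : FilG deg m (0 : Matrix I I (ZMod p)) := fun _ _ _ => rfl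

theorem FilG_add {m : ℕ} {T S : Matrix I I (ZMod p)} (hT : FilG deg m T) (hS : FilG deg m S) :
    FilG deg m (T + S) := by
  intro i j h; rw [Matrix.add_apply, hT i j h, hS i j h, add_zero]

theorem FilG_sub {m : ℕ} {T S : Matrix I I (ZMod p)} (hT : FilG deg m T) (hS : FilG deg m S) :
    FilG deg m (T - S) := by
  intro i j h; rw [Matrix.sub_apply, hT i j h, hS i j h, sub_zero]

theorem FilG_neg {m : ℕ} {T : Matrix I I (ZMod p)} (hT : FilG deg m T) : FilG deg m (-T) := by
  intro i j h; rw [Matrix.neg_apply, hT i j h, neg_zero]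

theorem FilG_smul {m : ℕ} {T : Matrix I I (ZMod p)} (k : ZMod p) (hT : FilG deg m T) :
    FilG deg m (k • T) := by
  intro i j h; rw [Matrix.smul_apply, hT i j h, smul_zero]

theorem FilG_mono {m n : ℕ} (h : m ≤ n) {T : Matrix I I (ZMod p)} (hT : FilG deg n T) :
    FilG deg m T := fun i j hij => hT i j (by omega)

theorem FilG_one : FilG deg 0 (1 : Matrix I I (ZMod p)) := by
  intro i j h
  rw [Matrix.one_apply_ne]
  intro e; rw [e] at h; omega

theorem FilG_mul {m n : ℕ} {T S : Matrix I I (ZMod p)} (hT : FilG deg m T) (hS : FilG deg n S) :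
    FilG deg (m+n) (T * S) := by
  intro i j h
  rw [Matrix.mul_apply]
  refine Finset.sum_eq_zero fun k _ => ?_
  by_cases hk : deg i < deg k + m
  · rw [hT i k hk, zero_mul]
  · rw [hS k j (by omega), mul_zero]

theorem FilG_pow {T : Matrix I I (ZMod p)} (hT : FilG deg 1 T) (k : ℕ) : FilG deg k (T ^ k) := by
  induction k with
  | zero => rw [pow_zero]; exact FilG_one
  | succ k ih => rw [pow_succ]; exact FilG_mul ih hT

theorem HmG.fil {n : ℕ} {T : Matrix I I (ZMod p)} (h : HmG deg n T) : FilG deg n T := by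
  intro i j hij
  by_contra hne
  have := h i j hne
  omega

theorem HmG_add {n : ℤ} {T S : Matrix I I (ZMod p)} (hT : HmG deg n T) (hS : HmG deg n S) :
    HmG deg n (T + S) := by
  intro i j h
  by_contra hne
  have h1 : T i j = 0 := by by_contra h1; exact hne (hT i j h1)
  have h2 : S i j = 0 := by by_contra h2; exact hne (hS i j h2)
  rw [Matrix.add_apply, h1, h2, add_zero] at h
  exact h rfl

theorem HmG_smul {n : ℤ} {T : Matrix I I (ZMod p)} (k : ZMod p) (hT : HmG deg n T) :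
    HmG deg n (k • T) := by
  intro i j h
  refine hT i j fun h1 => h ?_
  rw [Matrix.smul_apply, h1, smul_zero]

theorem HmG_neg {n : ℤ} {T : Matrix I I (ZMod p)} (hT : HmG deg n T) : HmG deg n (-T) := by
  intro i j h
  refine hT i j fun h1 => h ?_
  rw [Matrix.neg_apply, h1, neg_zero]

theorem HmG_sub {n : ℤ} {T S : Matrix I I (ZMod p)} (hT : HmG deg n T) (hS : HmG deg n S) :
    HmG deg n (T - S) := by
  rw [sub_eq_add_neg]; exact HmG_add hT (HmG_neg hS)

theorem HmG_zero (n : ℤ) : HmG deg n (0 : Matrix I I (ZMod p)) := fun _ _ h => absurd rfl h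

theorem HmG_one : HmG deg 0 (1 : Matrix I I (ZMod p)) := by
  intro i j h
  by_cases hij : i = j
  · rw [hij]; simp
  · exact absurd (Matrix.one_apply_ne hij) h

theorem HmG_mul {m n : ℤ} {T S : Matrix I I (ZMod p)} (hT : HmG deg m T) (hS : HmG deg n S) :
    HmG deg (m+n) (T * S) := by
  intro i j h
  rw [Matrix.mul_apply] at h
  obtain ⟨k, _, hk⟩ := Finset.exists_ne_zero_of_sum_ne_zero h
  have h1 := hT i k (left_ne_zero_of_mul hk)
  have h2 := hS k j (right_ne_zero_of_mul hk)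
  omega

theorem HmG_pow {T : Matrix I I (ZMod p)} {m : ℤ} (hT : HmG deg m T) (k : ℕ) :
    HmG deg (k * m) (T ^ k) := by
  induction k with
  | zero => rw [pow_zero]; simpa using HmG_one
  | succ k ih =>
    rw [pow_succ]
    have := HmG_mul ih hT
    have e : (k : ℤ) * m + m = ((k + 1 : ℕ) : ℤ) * m := by push_cast; ring
    rwa [e] at this

theorem HmG_fil_zero {n : ℕ} {T : Matrix I I (ZMod p)} (h : HmG deg n T)
    (h' : FilG deg (n+1) T) : T = 0 := by
  ext i j
  by_contra hne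
  have h1 := h i j hne
  exact hne (h' i j (by omega))

/-- the degree matrix -/
def Dg (deg : I → ℕ) (p : ℕ) : Matrix I I (ZMod p) := Matrix.diagonal fun i => (deg i : ZMod p)

/-- the derivation -/
def del (deg : I → ℕ) (T : Matrix I I (ZMod p)) : Matrix I I (ZMod p) :=
  Dg deg p * T - T * Dg deg p

theorem del_apply (T : Matrix I I (ZMod p)) (i j : I) :
    del deg T i j = ((deg i : ZMod p) - deg j) * T i j := by
  rw [del, Dg, Matrix.sub_apply, Matrix.diagonal_mul, Matrix.mul_diagonal]; ring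

theorem del_Hm {n : ℕ} {T : Matrix I I (ZMod p)} (h : HmG deg n T) :
    del deg T = (n : ZMod p) • T := by
  ext i j
  rw [del_apply, Matrix.smul_apply, smul_eq_mul]
  by_cases h0 : T i j = 0
  · rw [h0, mul_zero, mul_zero]
  · have h1 := h i j h0
    have h2 : deg i = deg j + n := by omega
    rw [h2]; push_cast; ring

theorem del_Fil {n : ℕ} {T : Matrix I I (ZMod p)} (h : FilG deg n T) :
    FilG deg (n+1) (del deg T - (n : ZMod p) • T) := by
  intro i j hij
  rw [Matrix.sub_apply, del_apply, Matrix.smul_apply, smul_eq_mul]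
  by_cases h0 : deg i < deg j + n
  · rw [h i j h0]; ring
  · have h2 : deg i = deg j + n := by omega
    rw [h2]; push_cast; ring

variable {c : ℕ} (hc : ∀ i, deg i ≤ c)

include hc in
theorem FilG_top {T : Matrix I I (ZMod p)} (hT : FilG deg (c+1) T) : T = 0 := by
  ext i j
  exact hT i j (by have := hc i; omega)

include hc in
theorem one_add_powG [Nonempty I] (hpc : c + 1 ≤ p) {T : Matrix I I (ZMod p)}
    (hT : FilG deg 1 T) : (1 + T) ^ p = 1 := by
  have h1 : (1 + T) ^ p = 1 ^ p + T ^ p := add_pow_char_of_commute p (Commute.one_left T)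
  have h2 : T ^ p = 0 := FilG_top hc (FilG_mono hpc (FilG_pow hT _))
  rw [h1, h2, one_pow, add_zero]

/-- structure constants of the situation -/
structure Setup (deg : I → ℕ) (p c : ℕ) : Prop where
  hc : ∀ i, deg i ≤ c
  hpc : c + 1 ≤ p
  hne : Nonempty I

variable (st : Setup deg p c)

def unitG (T : Matrix I I (ZMod p)) (hT : FilG deg 1 T) : (Matrix I I (ZMod p))ˣ :=
  haveI := st.hne
  Units.ofPowEqOne (1 + T) p (one_add_powG st.hc st.hpc hT) hp.out.ne_zero

theorem unitG_val (T : Matrix I I (ZMod p)) (hT : FilG deg 1 T) :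
    (unitG st T hT : Matrix I I (ZMod p)) = 1 + T := rfl

theorem sub_one_mul_auxG (u v : Matrix I I (ZMod p)) :
    u * v - 1 = (u - 1) * (v - 1) + (u - 1) + (v - 1) := by
  noncomm_ring

include st in
theorem units_pow {u : (Matrix I I (ZMod p))ˣ}
    (hu : FilG deg 1 ((u : Matrix I I (ZMod p)) - 1)) : u ^ p = 1 := by
  have := st.hne
  apply Units.ext
  have h3 := one_add_powG st.hc st.hpc hu
  rw [add_sub_cancel] at h3
  rw [Units.val_pow_eq_pow_val, h3, Units.val_one]

/-- unipotent filtration -/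
def UG (m : ℕ) : Subgroup (Matrix I I (ZMod p))ˣ where
  carrier := {u | FilG deg (m+1) ((u : Matrix I I (ZMod p)) - 1)}
  one_mem' := by
    show FilG deg (m+1) (((1 : (Matrix I I (ZMod p))ˣ) : Matrix I I (ZMod p)) - 1)
    rw [Units.val_one, sub_self]; exact FilG_zero _
  mul_mem' := by
    intro u v hu hv
    show FilG deg (m+1) (((u * v : (Matrix I I (ZMod p))ˣ) : Matrix I I (ZMod p)) - 1)
    rw [Units.val_mul, sub_one_mul_auxG]
    exact FilG_add (FilG_add (FilG_mono (by omega) (FilG_mul hu hv)) hu) hv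
  inv_mem' := by
    intro u hu
    have hu' : FilG deg (m+1) ((u : Matrix I I (ZMod p)) - 1) := hu
    have h1 : ∀ k : ℕ, FilG deg (m+1)
        (((u ^ k : (Matrix I I (ZMod p))ˣ) : Matrix I I (ZMod p)) - 1) := by
      intro k
      induction k with
      | zero => rw [pow_zero, Units.val_one, sub_self]; exact FilG_zero _
      | succ k ih =>
        rw [pow_succ, Units.val_mul, sub_one_mul_auxG]
        exact FilG_add (FilG_add (FilG_mono (by omega) (FilG_mul ih hu')) ih) hu'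
    have h2 : u ^ p = 1 := units_pow st (FilG_mono (by omega) hu')
    have h4 : u⁻¹ = u ^ (p - 1) := by
      rw [inv_eq_iff_mul_eq_one, ← pow_succ', Nat.sub_add_cancel hp.out.one_le, h2]
    show FilG deg (m+1) (((u⁻¹ : (Matrix I I (ZMod p))ˣ) : Matrix I I (ZMod p)) - 1)
    rw [h4]; exact h1 _

variable {st}

theorem mem_UG {m : ℕ} {u : (Matrix I I (ZMod p))ˣ} :
    u ∈ UG st m ↔ FilG deg (m+1) ((u : Matrix I I (ZMod p)) - 1) := Iff.rfl

theorem UG_anti {m n : ℕ} (h : m ≤ n) : UG st n ≤ UG st m := fun _ hu =>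
  FilG_mono (by omega) hu

theorem UG_val {m : ℕ} {u : (Matrix I I (ZMod p))ˣ} (hu : u ∈ UG st m) :
    FilG deg 0 (u : Matrix I I (ZMod p)) := by
  have h1 := FilG_add (FilG_mono (Nat.zero_le _) (mem_UG.1 hu)) FilG_one
  rwa [sub_add_cancel] at h1

theorem UG_top {u : (Matrix I I (ZMod p))ˣ} (hu : u ∈ UG st c) : u = 1 := by
  apply Units.ext
  have := FilG_top st.hc (mem_UG.1 hu)
  rw [sub_eq_zero] at this
  rw [this, Units.val_one]

theorem comm_valG (u v : (Matrix I I (ZMod p))ˣ) :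
    ((⁅u, v⁆ : (Matrix I I (ZMod p))ˣ) : Matrix I I (ZMod p)) - 1 =
    (((u : Matrix I I (ZMod p)) - 1) * ((v : Matrix I I (ZMod p)) - 1) -
      ((v : Matrix I I (ZMod p)) - 1) * ((u : Matrix I I (ZMod p)) - 1)) *
      ((u⁻¹ * v⁻¹ : (Matrix I I (ZMod p))ˣ) : Matrix I I (ZMod p)) := by
  have h1 : (((u : Matrix I I (ZMod p)) - 1) * ((v : Matrix I I (ZMod p)) - 1) -
      ((v : Matrix I I (ZMod p)) - 1) * ((u : Matrix I I (ZMod p)) - 1)) =
      (u : Matrix I I (ZMod p)) * v - v * u := by noncomm_ring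
  have h2 : (⁅u, v⁆ : (Matrix I I (ZMod p))ˣ) = u * v * (u⁻¹ * v⁻¹) := by
    rw [commutatorElement_def]; simp only [mul_assoc]
  have h3 : (v * u * (u⁻¹ * v⁻¹) : (Matrix I I (ZMod p))ˣ) = 1 := by group
  have h4 : (v : Matrix I I (ZMod p)) * u *
      ((u⁻¹ * v⁻¹ : (Matrix I I (ZMod p))ˣ) : Matrix I I (ZMod p)) = 1 := by
    rw [← Units.val_mul, ← Units.val_mul, h3, Units.val_one]
  rw [h1, h2, sub_mul, h4, Units.val_mul, Units.val_mul]

theorem inv_inv_mem {m n : ℕ} {u v : (Matrix I I (ZMod p))ˣ} (hu : u ∈ UG st m)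
    (hv : v ∈ UG st n) : u⁻¹ * v⁻¹ ∈ UG st 0 :=
  mul_mem (UG_anti (Nat.zero_le _) (inv_mem hu)) (UG_anti (Nat.zero_le _) (inv_mem hv))

theorem comm_UG {m n : ℕ} {u v : (Matrix I I (ZMod p))ˣ} (hu : u ∈ UG st m) (hv : v ∈ UG st n) :
    ⁅u, v⁆ ∈ UG st (m+n+1) := by
  rw [mem_UG, comm_valG]
  have h1 := FilG_sub (FilG_mul (mem_UG.1 hu) (mem_UG.1 hv))
    (FilG_mono (show (m+1)+(n+1) ≤ (n+1)+(m+1) by omega)
      (FilG_mul (mem_UG.1 hv) (mem_UG.1 hu)))
  exact FilG_mono (by omega) (FilG_mul h1 (UG_val (inv_inv_mem hu hv)))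

/-- leading term of a product -/
theorem mul_leadG {m : ℕ} {u v : (Matrix I I (ZMod p))ˣ} {y z : Matrix I I (ZMod p)}
    (hu : u ∈ UG st m) (hv : v ∈ UG st m) (hy : FilG deg (m+2) ((u : Matrix I I (ZMod p)) - 1 - y))
    (hz : FilG deg (m+2) ((v : Matrix I I (ZMod p)) - 1 - z)) :
    FilG deg (m+2) (((u * v : (Matrix I I (ZMod p))ˣ) : Matrix I I (ZMod p)) - 1 - (y + z)) := by
  have e : ((u * v : (Matrix I I (ZMod p))ˣ) : Matrix I I (ZMod p)) - 1 - (y + z) =
      ((u : Matrix I I (ZMod p)) - 1) * ((v : Matrix I I (ZMod p)) - 1) +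
      ((u : Matrix I I (ZMod p)) - 1 - y) + ((v : Matrix I I (ZMod p)) - 1 - z) := by
    rw [Units.val_mul]; noncomm_ring
  rw [e]
  exact FilG_add (FilG_add (FilG_mono (by omega) (FilG_mul (mem_UG.1 hu) (mem_UG.1 hv))) hy) hz

/-- leading term of a commutator -/
theorem comm_leadG {m n : ℕ} {u v : (Matrix I I (ZMod p))ˣ} {y z : Matrix I I (ZMod p)}
    (hu : u ∈ UG st m) (hv : v ∈ UG st n)
    (hy : FilG deg (m+2) ((u : Matrix I I (ZMod p)) - 1 - y))
    (hz : FilG deg (n+2) ((v : Matrix I I (ZMod p)) - 1 - z)) :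
    FilG deg (m+n+3) (((⁅u, v⁆ : (Matrix I I (ZMod p))ˣ) : Matrix I I (ZMod p)) - 1 -
      (y * z - z * y)) := by
  have hy1 : FilG deg (m+1) y := by
    have := FilG_sub (mem_UG.1 hu) (FilG_mono (by omega) hy)
    rwa [sub_sub_cancel] at this
  have hz1 : FilG deg (n+1) z := by
    have := FilG_sub (mem_UG.1 hv) (FilG_mono (by omega) hz)
    rwa [sub_sub_cancel] at this
  rw [comm_valG]
  set U := (u : Matrix I I (ZMod p)) - 1 with hU
  set V := (v : Matrix I I (ZMod p)) - 1 with hV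
  set Y := ((u⁻¹ * v⁻¹ : (Matrix I I (ZMod p))ˣ) : Matrix I I (ZMod p)) with hY
  have hY1 : FilG deg 1 (Y - 1) := mem_UG.1 (inv_inv_mem hu hv)
  have hUm : FilG deg (m+1) U := mem_UG.1 hu
  have hVm : FilG deg (n+1) V := mem_UG.1 hv
  have e : (U * V - V * U) * Y - (y * z - z * y) = (U * V - V * U) * (Y - 1) +
      ((U - y) * V + y * (V - z)) - ((V - z) * U + z * (U - y)) := by noncomm_ring
  rw [e]
  have h1 : FilG deg (m+n+2) (U * V - V * U) :=
    FilG_sub (FilG_mono (by omega) (FilG_mul hUm hVm)) (FilG_mono (by omega) (FilG_mul hVm hUm))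
  refine FilG_sub (FilG_add (FilG_mono (by omega) (FilG_mul h1 hY1)) (FilG_add ?_ ?_))
    (FilG_add ?_ ?_)
  · exact FilG_mono (by omega) (FilG_mul hy hVm)
  · exact FilG_mono (by omega) (FilG_mul hy1 hz)
  · exact FilG_mono (by omega) (FilG_mul hz hUm)
  · exact FilG_mono (by omega) (FilG_mul hz1 hy)

end gradedMat

end H94Simple
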