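import Pool.Agent.H94.SccT

open scoped commutatorElement IsMulCommutative

namespace H94Simple

section lie

variable {I : Type*} [Fintype I] [DecidableEq I] {p : ℕ} [hp : Fact p.Prime] {deg : I → ℕ} {c : ℕ}
  {X : Type*}

/-- the homogeneous part of degree `n+1` of the Lie algebra generated by the operators -/
def Lg (op : X → Matrix I I (ZMod p)) : ℕ → Submodule (ZMod p) (Matrix I I (ZMod p))
  | 0 => Submodule.span (ZMod p) (Set.range op)
  | n+1 => Submodule.span (ZMod p) {T | ∃ y ∈ Lg op n, ∃ x, T = y * op x - op x * y}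

variable {op : X → Matrix I I (ZMod p)} (hop : ∀ x, HmG deg 1 (op x))

include hop in
theorem Lg_Hm (n : ℕ) : ∀ T ∈ Lg op n, HmG deg ((n+1 : ℕ) : ℤ) T := by
  induction n with
  | zero =>
    intro T hT
    refine Submodule.span_induction (p := fun T _ => HmG deg ((0+1 : ℕ) : ℤ) T) ?_ ?_ ?_ ?_ hT
    · rintro _ ⟨x, rfl⟩; simpa using hop x
    · exact HmG_zero _
    · intro a b _ _ ha hb; exact HmG_add ha hb
    · intro k a _ ha; exact HmG_smul k ha
  | succ n ih =>
    intro T hT
    refine Submodule.span_induction (p := fun T _ => HmG deg ((n+1+1 : ℕ) : ℤ) T) ?_ ?_ ?_ ?_ hT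
    · rintro _ ⟨y, hy, x, rfl⟩
      have h1 := HmG_mul (ih y hy) (hop x)
      have h2 := HmG_mul (hop x) (ih y hy)
      have e1 : (((n+1 : ℕ) : ℤ) + 1) = ((n+1+1 : ℕ) : ℤ) := by push_cast; ring
      have e2 : (1 + ((n+1 : ℕ) : ℤ)) = ((n+1+1 : ℕ) : ℤ) := by push_cast; ring
      rw [e1] at h1
      rw [e2] at h2
      exact HmG_sub h1 h2
    · exact HmG_zero _
    · intro a b _ _ ha hb; exact HmG_add ha hb
    · intro k a _ ha; exact HmG_smul k ha

theorem Lg_brk (n : ℕ) : ∀ (m : ℕ) (y z : Matrix I I (ZMod p)), y ∈ Lg op m → z ∈ Lg op n →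
    y * z - z * y ∈ Lg op (m+n+1) := by
  induction n with
  | zero =>
    intro m y z hy hz
    refine Submodule.span_induction (p := fun z _ => y * z - z * y ∈ Lg op (m+0+1)) ?_ ?_ ?_ ?_ hz
    · rintro _ ⟨x, rfl⟩
      exact Submodule.subset_span ⟨y, hy, x, rfl⟩
    · rw [mul_zero, zero_mul, sub_zero]; exact zero_mem _
    · intro a b _ _ ha hb
      have e : y * (a + b) - (a + b) * y = (y * a - a * y) + (y * b - b * y) := by noncomm_ring
      rw [e]; exact add_mem ha hb
    · intro k a _ ha
      have e : y * (k • a) - (k • a) * y = k • (y * a - a * y) := by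
        rw [Matrix.mul_smul, Matrix.smul_mul, smul_sub]
      rw [e]; exact Submodule.smul_mem _ _ ha
  | succ n ih =>
    intro m y z hy hz
    refine Submodule.span_induction (p := fun z _ => y * z - z * y ∈ Lg op (m+(n+1)+1))
      ?_ ?_ ?_ ?_ hz
    · rintro _ ⟨z', hz', x, rfl⟩
      have e : y * (z' * op x - op x * z') - (z' * op x - op x * z') * y =
          ((y * z' - z' * y) * op x - op x * (y * z' - z' * y)) -
          ((y * op x - op x * y) * z' - z' * (y * op x - op x * y)) := by noncomm_ring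
      rw [e]
      refine sub_mem ?_ ?_
      · have h1 := ih m y z' hy hz'
        have e2 : m + (n+1) + 1 = (m+n+1)+1 := by ring
        rw [e2]
        exact Submodule.subset_span ⟨_, h1, x, rfl⟩
      · have h1 : y * op x - op x * y ∈ Lg op (m+1) := Submodule.subset_span ⟨y, hy, x, rfl⟩
        have h2 := ih (m+1) _ z' h1 hz'
        have e2 : m + (n+1) + 1 = m+1+n+1 := by ring
        rw [e2]; exact h2
    · rw [mul_zero, zero_mul, sub_zero]; exact zero_mem _
    · intro a b _ _ ha hb
      have e : y * (a + b) - (a + b) * y = (y * a - a * y) + (y * b - b * y) := by noncomm_ring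
      rw [e]; exact add_mem ha hb
    · intro k a _ ha
      have e : y * (k • a) - (k • a) * y = k • (y * a - a * y) := by
        rw [Matrix.mul_smul, Matrix.smul_mul, smul_sub]
      rw [e]; exact Submodule.smul_mem _ _ ha

/-- the Lie algebra generated by the operators -/
def Lhat (op : X → Matrix I I (ZMod p)) : Submodule (ZMod p) (Matrix I I (ZMod p)) :=
  ⨆ n, Lg op n

theorem Lg_le_Lhat (n : ℕ) : Lg op n ≤ Lhat op := le_iSup (Lg op) n

theorem Lhat_ind {motive : Matrix I I (ZMod p) → Prop} {T : Matrix I I (ZMod p)}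
    (hT : T ∈ Lhat op) (h1 : ∀ n, ∀ T ∈ Lg op n, motive T) (h0 : motive 0)
    (ha : ∀ S T, motive S → motive T → motive (S + T)) : motive T :=
  Submodule.iSup_induction (Lg op) (motive := motive) hT h1 h0 ha

theorem Lhat_brk {y z : Matrix I I (ZMod p)} (hy : y ∈ Lhat op) (hz : z ∈ Lhat op) :
    y * z - z * y ∈ Lhat op := by
  refine Lhat_ind (motive := fun y => y * z - z * y ∈ Lhat op) hy ?_ ?_ ?_
  · intro m y hy
    refine Lhat_ind (motive := fun z => y * z - z * y ∈ Lhat op) hz ?_ ?_ ?_
    · intro n z hz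
      exact Lg_le_Lhat _ (Lg_brk n m y z hy hz)
    · rw [mul_zero, zero_mul, sub_zero]; exact zero_mem _
    · intro a b ha hb
      have e : y * (a + b) - (a + b) * y = (y * a - a * y) + (y * b - b * y) := by noncomm_ring
      rw [e]; exact add_mem ha hb
  · rw [mul_zero, zero_mul, sub_zero]; exact zero_mem _
  · intro a b ha hb
    have e : (a + b) * z - z * (a + b) = (a * z - z * a) + (b * z - z * b) := by noncomm_ring
    rw [e]; exact add_mem ha hb

theorem del_add (S T : Matrix I I (ZMod p)) : del deg (S + T) = del deg S + del deg T := by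
  unfold del; noncomm_ring

theorem del_zero : del deg (0 : Matrix I I (ZMod p)) = 0 := by
  unfold del; rw [mul_zero, zero_mul, sub_zero]

include hop in
theorem Lhat_del {T : Matrix I I (ZMod p)} (hT : T ∈ Lhat op) : del deg T ∈ Lhat op := by
  refine Lhat_ind (motive := fun T => del deg T ∈ Lhat op) hT ?_ ?_ ?_
  · intro n T hT
    rw [del_Hm (Lg_Hm hop n T hT)]
    exact Submodule.smul_mem _ _ (Lg_le_Lhat n hT)
  · rw [del_zero]; exact zero_mem _
  · intro a b ha hb
    rw [del_add]; exact add_mem ha hb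

include hop in
theorem Lhat_Fil {T : Matrix I I (ZMod p)} (hT : T ∈ Lhat op) : FilG deg 1 T := by
  refine Lhat_ind (motive := fun T => FilG deg 1 T) hT ?_ ?_ ?_
  · intro n T hT
    exact FilG_mono (by omega) (Lg_Hm hop n T hT).fil
  · exact FilG_zero _
  · intro a b ha hb; exact FilG_add ha hb

/-- component of degree `n` -/
def cmp (deg : I → ℕ) (n : ℕ) (T : Matrix I I (ZMod p)) : Matrix I I (ZMod p) :=
  fun i j => if deg i = deg j + n then T i j else 0

theorem cmp_add (n : ℕ) (S T : Matrix I I (ZMod p)) :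
    cmp deg n (S + T) = cmp deg n S + cmp deg n T := by
  ext i j
  simp only [cmp, Matrix.add_apply]
  split_ifs
  · rfl
  · rw [add_zero]

theorem cmp_Fil {n : ℕ} {T : Matrix I I (ZMod p)} (hT : FilG deg n T) :
    FilG deg (n+1) (T - cmp deg n T) := by
  intro i j hij
  simp only [Matrix.sub_apply, cmp]
  split_ifs with h
  · rw [sub_self]
  · rw [hT i j (by omega), sub_zero]

include hop in
theorem Lhat_cmp {T : Matrix I I (ZMod p)} (hT : T ∈ Lhat op) (n : ℕ) :
    cmp deg (n+1) T ∈ Lg op n := by
  refine Lhat_ind (motive := fun T => cmp deg (n+1) T ∈ Lg op n) hT ?_ ?_ ?_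
  · intro m T hT
    have hH := Lg_Hm hop m T hT
    by_cases hmn : m = n
    · subst hmn
      have e : cmp deg (m+1) T = T := by
        ext i j
        simp only [cmp]
        split_ifs with h
        · rfl
        · by_contra hne
          have := hH i j (fun h0 => hne h0.symm)
          omega
      rw [e]; exact hT
    · have e : cmp deg (n+1) T = 0 := by
        ext i j
        simp only [cmp]
        split_ifs with h
        · by_contra hne
          have := hH i j hne
          omega
        · rfl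
      rw [e]; exact zero_mem _
  · have e : cmp deg (n+1) (0 : Matrix I I (ZMod p)) = 0 := by
      ext i j; simp [cmp]
    rw [e]; exact zero_mem _
  · intro a b ha hb
    rw [cmp_add]; exact add_mem ha hb

theorem cast_ne {p : ℕ} [hp : Fact p.Prime] {a : ℕ} (h0 : 0 < a) (h1 : a < p) :
    (a : ZMod p) ≠ 0 := by
  intro h
  rw [ZMod.natCast_eq_zero_iff] at h
  exact absurd (Nat.le_of_dvd h0 h) (by omega)

variable (st : Setup deg p c)

/-- the affine shift of the degree matrix -/
def lam (deg : I → ℕ) (u : (Matrix I I (ZMod p))ˣ) : Matrix I I (ZMod p) :=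
  ((u⁻¹ : (Matrix I I (ZMod p))ˣ) : Matrix I I (ZMod p)) * Dg deg p * u - Dg deg p

variable {st}

include hop in
theorem conj_mem {u : (Matrix I I (ZMod p))ˣ} (hu : u ∈ UG st 0) (hl : lam deg u ∈ Lhat op)
    {y : Matrix I I (ZMod p)} (hy : y ∈ Lhat op) :
    ((u⁻¹ : (Matrix I I (ZMod p))ˣ) : Matrix I I (ZMod p)) * y * u ∈ Lhat op := by
  refine Lhat_ind (motive := fun y => ((u⁻¹ : (Matrix I I (ZMod p))ˣ) : Matrix I I (ZMod p)) * y *
    (u : Matrix I I (ZMod p)) ∈ Lhat op) hy ?_ ?_ ?_
  swap
  · rw [mul_zero, zero_mul]; exact zero_mem _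
  swap
  · intro a b ha hb
    rw [mul_add, add_mul]; exact add_mem ha hb
  intro m y hy
  set w : Matrix I I (ZMod p) := ((u⁻¹ : (Matrix I I (ZMod p))ˣ) : Matrix I I (ZMod p)) with hw
  set v : Matrix I I (ZMod p) := (u : Matrix I I (ZMod p)) with hv
  have hwv : w * v = 1 := Units.inv_mul u
  have hvw : v * w = 1 := Units.mul_inv u
  set z := w * y * v with hz
  set l := lam deg u with hldef
  have hl' : w * Dg deg p * v = Dg deg p + l := by rw [hldef, lam]; noncomm_ring
  have hyH := Lg_Hm hop m y hy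
  have hdel : del deg z = ((m+1 : ℕ) : ZMod p) • z + (z * l - l * z) := by
    have h1 : w * (del deg y) * v = (w * Dg deg p * v) * z - z * (w * Dg deg p * v) := by
      rw [del, hz]
      calc w * (Dg deg p * y - y * Dg deg p) * v
          = w * Dg deg p * 1 * y * v - w * y * 1 * Dg deg p * v := by noncomm_ring
        _ = _ := by rw [← hvw]; noncomm_ring
    rw [del_Hm hyH, hl'] at h1
    have h2 : w * (((m+1 : ℕ) : ZMod p) • y) * v = ((m+1 : ℕ) : ZMod p) • z := by
      rw [Matrix.mul_smul, Matrix.smul_mul]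
    rw [h2] at h1
    rw [h1, del]; noncomm_ring
  have hwF : FilG deg 0 w := UG_val (inv_mem hu)
  have hlF : FilG deg 1 l := Lhat_Fil hop hl
  have key : ∀ n, ∃ z' ∈ Lhat op, FilG deg (m+2+n) (z - z') := by
    intro n
    induction n with
    | zero =>
      refine ⟨y, Lg_le_Lhat m hy, ?_⟩
      have e : z - y = w * (y * (v - 1) - (v - 1) * y) := by
        have : w * v * y = y := by rw [hwv, one_mul]
        calc z - y = w * y * v - w * v * y := by rw [this]
          _ = _ := by noncomm_ring
      rw [e]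
      have hv1 : FilG deg 1 (v - 1) := mem_UG.1 hu
      have hyF : FilG deg (m+1) y := hyH.fil
      exact FilG_mono (by omega) (FilG_mul hwF (FilG_sub
        (FilG_mono (show m + 2 ≤ m+1+1 by omega) (FilG_mul hyF hv1))
        (FilG_mono (show m + 2 ≤ 1 + (m+1) by omega) (FilG_mul hv1 hyF))))
    | succ n ih =>
      obtain ⟨z', hz', he⟩ := ih
      by_cases hcn : m + 2 + n ≤ c
      · set e := z - z' with he'
        have hze : z = z' + e := by rw [he']; abel
        set k : ZMod p := ((n+1 : ℕ) : ZMod p) with hk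
        have hk0 : k ≠ 0 := cast_ne (Nat.succ_pos n) (by have := st.hpc; omega)
        have h1 := del_Fil he
        have hde : del deg e = del deg z - del deg z' := by
          rw [he']; unfold del; noncomm_ring
        set l' := ((m+1 : ℕ) : ZMod p) • z' + (z' * l - l * z') - del deg z' with hl''
        have hl'm : l' ∈ Lhat op :=
          sub_mem (add_mem (Submodule.smul_mem _ _ hz') (Lhat_brk hz' hl)) (Lhat_del hop hz')
        have h2 : FilG deg (m+2+n+1) (e * l - l * e) :=
          FilG_sub (FilG_mono (by omega) (FilG_mul he hlF))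
            (FilG_mono (by omega) (FilG_mul hlF he))
        have h3 : k • e - l' = (e * l - l * e) - (del deg e - ((m+2+n : ℕ) : ZMod p) • e) := by
          have hk2 : k • e = ((m+2+n : ℕ) : ZMod p) • e - ((m+1 : ℕ) : ZMod p) • e := by
            rw [← sub_smul, hk]; congr 1; push_cast; ring
          have h4 : del deg e = ((m+1 : ℕ) : ZMod p) • (z' + e) + ((z' + e) * l - l * (z' + e)) -
              del deg z' := by
            rw [hde, hdel, ← hze]
          rw [hk2, h4, hl'', smul_add]
          noncomm_ring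
        have h4 : FilG deg (m+2+n+1) (k • e - l') := by
          rw [h3]; exact FilG_sub h2 h1
        refine ⟨z' + k⁻¹ • l', add_mem hz' (Submodule.smul_mem _ _ hl'm), ?_⟩
        have h5 : z - (z' + k⁻¹ • l') = k⁻¹ • (k • e - l') := by
          have h6 : k⁻¹ • (k • e) = e := by rw [smul_smul, inv_mul_cancel₀ hk0, one_smul]
          rw [smul_sub k⁻¹ (k • e) l', h6, he']; abel
        rw [h5]
        exact FilG_smul _ h4
      · refine ⟨z', hz', ?_⟩
        have := FilG_top st.hc (FilG_mono (by omega) he : FilG deg (c+1) (z - z'))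
        rw [this]; exact FilG_zero _
  obtain ⟨z', hz', he⟩ := key c
  have h0 := FilG_top st.hc (FilG_mono (by omega) he : FilG deg (c+1) (z - z'))
  rw [sub_eq_zero] at h0
  rw [h0]; exact hz'

variable (st op)

/-- the group of Lie type -/
def PG (hop : ∀ x, HmG deg 1 (op x)) : Subgroup (Matrix I I (ZMod p))ˣ where
  carrier := {u | u ∈ UG st 0 ∧ lam deg u ∈ Lhat op}
  one_mem' := by
    refine ⟨one_mem _, ?_⟩
    have : lam deg (1 : (Matrix I I (ZMod p))ˣ) = 0 := by
      rw [lam, inv_one, Units.val_one, one_mul, mul_one, sub_self]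
    rw [this]; exact zero_mem _
  mul_mem' := by
    rintro u v ⟨hu, hu'⟩ ⟨hv, hv'⟩
    refine ⟨mul_mem hu hv, ?_⟩
    have e : lam deg (u * v) =
        ((v⁻¹ : (Matrix I I (ZMod p))ˣ) : Matrix I I (ZMod p)) * lam deg u * v + lam deg v := by
      rw [lam, lam, lam, mul_inv_rev, Units.val_mul, Units.val_mul]; noncomm_ring
    rw [e]
    exact add_mem (conj_mem hop hv hv' hu') hv'
  inv_mem' := by
    rintro u ⟨hu, hu'⟩
    have h1 : ∀ k : ℕ, u ^ k ∈ UG st 0 ∧ lam deg (u ^ k) ∈ Lhat op := by
      intro k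
      induction k with
      | zero =>
        refine ⟨by rw [pow_zero]; exact one_mem _, ?_⟩
        have : lam deg ((u ^ 0 : (Matrix I I (ZMod p))ˣ)) = 0 := by
          rw [pow_zero, lam, inv_one, Units.val_one, one_mul, mul_one, sub_self]
        rw [this]; exact zero_mem _
      | succ k ih =>
        refine ⟨by rw [pow_succ]; exact mul_mem ih.1 hu, ?_⟩
        have e : lam deg (u ^ (k+1)) =
            ((u⁻¹ : (Matrix I I (ZMod p))ˣ) : Matrix I I (ZMod p)) * lam deg (u ^ k) * u +
              lam deg u := by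
          rw [pow_succ, lam, lam, lam, mul_inv_rev, Units.val_mul, Units.val_mul]; noncomm_ring
        rw [e]
        exact add_mem (conj_mem hop hu hu' ih.2) hu'
    have h2 : u ^ p = 1 := units_pow st (mem_UG.1 hu)
    have h4 : u⁻¹ = u ^ (p - 1) := by
      rw [inv_eq_iff_mul_eq_one, ← pow_succ', Nat.sub_add_cancel hp.out.one_le, h2]
    show u⁻¹ ∈ UG st 0 ∧ lam deg u⁻¹ ∈ Lhat op
    rw [h4]; exact h1 _

variable {st op}

theorem PG_UG {hop : ∀ x, HmG deg 1 (op x)} (x : PG op st hop) :
    (x : (Matrix I I (ZMod p))ˣ) ∈ UG st 0 := x.2.1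

/-- exponential minus one -/
def expT (c : ℕ) (N : Matrix I I (ZMod p)) : Matrix I I (ZMod p) :=
  ∑ k ∈ Finset.range c, (((k+1).factorial : ℕ) : ZMod p)⁻¹ • N ^ (k+1)

theorem FilG_sum {m : ℕ} {ι : Type*} (s : Finset ι) (f : ι → Matrix I I (ZMod p))
    (h : ∀ i ∈ s, FilG deg m (f i)) : FilG deg m (∑ i ∈ s, f i) := by
  classical
  induction s using Finset.induction_on with
  | empty => rw [Finset.sum_empty]; exact FilG_zero _
  | insert a s ha ih =>
    rw [Finset.sum_insert ha]
    exact FilG_add (h a (Finset.mem_insert_self _ _))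
      (ih fun i hi => h i (Finset.mem_insert_of_mem hi))

theorem expT_Fil (c : ℕ) {N : Matrix I I (ZMod p)} (hN : FilG deg 1 N) :
    FilG deg 1 (expT c N) :=
  FilG_sum _ _ fun k _ => FilG_smul _ (FilG_mono (by omega) (FilG_pow hN (k+1)))

theorem expT_lead {c : ℕ} (hc1 : 1 ≤ c) {N : Matrix I I (ZMod p)} (hN : FilG deg 1 N) :
    FilG deg 2 (expT c N - N) := by
  obtain ⟨c, rfl⟩ := Nat.exists_eq_add_of_le' hc1
  rw [expT, Finset.sum_range_succ']
  simp only [zero_add, Nat.factorial_one, Nat.cast_one, inv_one, one_smul, pow_one,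
    add_sub_cancel_right]
  exact FilG_sum _ _ fun k _ => FilG_smul _ (FilG_mono (by omega) (FilG_pow hN (k+1+1)))

include st in
theorem expT_del {N : Matrix I I (ZMod p)} (hN : HmG deg 1 N) :
    del deg (expT c N) = (1 + expT c N) * N := by
  have hNF : FilG deg 1 N := HmG.fil (n := 1) (by simpa using hN)
  have hpow : ∀ k : ℕ, del deg (N ^ k) = (k : ZMod p) • N ^ k := by
    intro k
    have := HmG_pow hN k
    rw [mul_one] at this
    exact del_Hm this
  let f : ℕ → Matrix I I (ZMod p) := fun k => ((k.factorial : ℕ) : ZMod p)⁻¹ • N ^ (k+1)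
  have h1 : del deg (expT c N) = ∑ k ∈ Finset.range c, f k := by
    have e : del deg (expT c N) = ∑ k ∈ Finset.range c,
        (((k+1).factorial : ℕ) : ZMod p)⁻¹ • del deg (N ^ (k+1)) := by
      rw [expT, del, Finset.mul_sum, Finset.sum_mul, ← Finset.sum_sub_distrib]
      refine Finset.sum_congr rfl fun k _ => ?_
      rw [del, Matrix.mul_smul, Matrix.smul_mul, smul_sub]
    rw [e]
    refine Finset.sum_congr rfl fun k hk => ?_
    rw [Finset.mem_range] at hk
    rw [hpow, smul_smul]
    have h0 : ((k+1 : ℕ) : ZMod p) ≠ 0 := cast_ne (Nat.succ_pos k) (by have := st.hpc; omega)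
    show _ = ((k.factorial : ℕ) : ZMod p)⁻¹ • N ^ (k+1)
    congr 1
    rw [Nat.factorial_succ, Nat.cast_mul, mul_inv, mul_comm (((k+1 : ℕ) : ZMod p)⁻¹), mul_assoc,
      inv_mul_cancel₀ h0, mul_one]
  have h2 : (1 + expT c N) * N = f 0 + ∑ k ∈ Finset.range c, f (k+1) := by
    rw [add_mul, one_mul, expT, Finset.sum_mul]
    congr 1
    · simp [f]
    · refine Finset.sum_congr rfl fun k _ => ?_
      rw [Matrix.smul_mul, ← pow_succ]
  have h3 : f c = 0 := by
    show _ • N ^ (c+1) = 0
    rw [FilG_top st.hc (FilG_pow hNF (c+1)), smul_zero]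
  have h4 := Finset.sum_range_succ' f c
  have h5 := Finset.sum_range_succ f c
  rw [h3, add_zero] at h5
  rw [h1, h2, ← h5, h4, add_comm]

variable (st) in
/-- exponential of a generator -/
def EG (hop : ∀ x, HmG deg 1 (op x)) (x : X) : PG op st hop :=
  ⟨unitG st (expT c (op x)) (expT_Fil c (HmG.fil (n := 1) (by simpa using hop x))), by
    have hF : FilG deg 1 (op x) := HmG.fil (n := 1) (by simpa using hop x)
    refine ⟨?_, ?_⟩
    · rw [mem_UG, unitG_val, add_sub_cancel_left]
      exact expT_Fil c hF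
    · set u := unitG st (expT c (op x)) (expT_Fil c hF) with hu
      have e : lam deg u = op x := by
        have h1 : del deg ((u : Matrix I I (ZMod p))) = u * op x := by
          rw [hu, unitG_val, del_add, expT_del (st := st) (hop x)]
          have : del deg (1 : Matrix I I (ZMod p)) = 0 := by
            rw [del, mul_one, one_mul, sub_self]
          rw [this, zero_add]
        have h2 : ((u⁻¹ : (Matrix I I (ZMod p))ˣ) : Matrix I I (ZMod p)) * u = 1 :=
          Units.inv_mul u
        calc lam deg u = ((u⁻¹ : (Matrix I I (ZMod p))ˣ) : Matrix I I (ZMod p)) * Dg deg p * u -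
              1 * Dg deg p := by rw [lam, one_mul]
          _ = ((u⁻¹ : (Matrix I I (ZMod p))ˣ) : Matrix I I (ZMod p)) * del deg (u : Matrix I I (ZMod p)) := by
              rw [← h2, del]; noncomm_ring
          _ = op x := by rw [h1, ← mul_assoc, h2, one_mul]
      rw [e]
      exact Lg_le_Lhat 0 (Submodule.subset_span ⟨x, rfl⟩)⟩

theorem EG_lead {hop : ∀ x, HmG deg 1 (op x)} (hc1 : 1 ≤ c) (x : X) :
    FilG deg 2 (((EG st hop x : (Matrix I I (ZMod p))ˣ) : Matrix I I (ZMod p)) - 1 - op x) := by
  have e : ((EG st hop x : (Matrix I I (ZMod p))ˣ) : Matrix I I (ZMod p)) = 1 + expT c (op x) := rfl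
  rw [e, add_sub_cancel_left]
  exact expT_lead hc1 (HmG.fil (n := 1) (by simpa using hop x))

end lie

end H94Simple
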