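import Pool.Agent.H94.SccU

open scoped commutatorElement IsMulCommutative

namespace H94Simple

section nilp

variable {P : Type*} [Group P] {c : ℕ}

theorem lcs_le_sup (H : Subgroup P) (h : H ⊔ lcs P 1 = ⊤) (n : ℕ) :
    lcs P n ≤ (H ⊓ lcs P n) ⊔ lcs P (n+1) := by
  induction n with
  | zero => rw [lcs_zero, inf_top_eq, h]
  | succ n ih =>
    conv_lhs => rw [lcs_succ]
    rw [Subgroup.commutator_le]
    intro w hw t _
    obtain ⟨hw1, hw1m, lw, hlw, rfl⟩ := Subgroup.mem_sup_of_normal_right.1 (ih hw)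
    have ht : t ∈ H ⊔ lcs P 1 := by rw [h]; exact Subgroup.mem_top _
    obtain ⟨ht1, ht1m, lt, hlt, rfl⟩ := Subgroup.mem_sup_of_normal_right.1 ht
    have hlw' : lw ∈ lcs P n := lcs_anti' (Nat.le_succ n) hlw
    have e1 : pr P (n+2) ⁅hw1 * lw, ht1 * lt⁆ = pr P (n+2) ⁅hw1, ht1⁆ := by
      have h1 : pr P (n+2) ⁅hw1 * lw, ht1 * lt⁆ =
          pr P (n+2) ⁅hw1, ht1 * lt⁆ * pr P (n+2) ⁅lw, ht1 * lt⁆ :=
        map_mul (leftHom n (ht1 * lt)) ⟨hw1, hw1m.2⟩ ⟨lw, hlw'⟩
      have h2 : pr P (n+2) ⁅lw, ht1 * lt⁆ = 1 := by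
        rw [pr_eq_one, lcs_succ]
        exact Subgroup.commutator_mem_commutator hlw (Subgroup.mem_top _)
      have h3 : pr P (n+2) ⁅hw1, ht1 * lt⁆ =
          pr P (n+2) ⁅hw1, ht1⁆ * pr P (n+2) ⁅hw1, lt⁆ :=
        map_mul (rightHom n ⟨hw1, hw1m.2⟩) ht1 lt
      have h4 : pr P (n+2) ⁅hw1, lt⁆ = 1 := (pr_eq_one _ _).2 (comm_lcs_one n hw1m.2 hlt)
      rw [h1, h2, mul_one, h3, h4, mul_one]
    have e2 : ⁅hw1 * lw, ht1 * lt⁆ = ⁅hw1, ht1⁆ * (⁅hw1, ht1⁆⁻¹ * ⁅hw1 * lw, ht1 * lt⁆) := by group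
    rw [e2]
    refine mul_mem (Subgroup.mem_sup_left ⟨?_, ?_⟩) (Subgroup.mem_sup_right
      ((pr_eq _ _ _).1 e1.symm))
    · rw [commutatorElement_def]
      exact H.mul_mem (H.mul_mem (H.mul_mem hw1m.1 ht1m) (H.inv_mem hw1m.1)) (H.inv_mem ht1m)
    · rw [lcs_succ]
      exact Subgroup.commutator_mem_commutator hw1m.2 (Subgroup.mem_top _)

theorem top_of_nilp (hc : lcs P c = ⊥) (H : Subgroup P) (h : H ⊔ lcs P 1 = ⊤) : H = ⊤ := by
  have key : ∀ n, H ⊔ lcs P n = ⊤ := by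
    intro n
    induction n with
    | zero => rw [lcs_zero, sup_top_eq]
    | succ n ih =>
      rw [eq_top_iff, ← ih]
      refine sup_le le_sup_left ((lcs_le_sup H h n).trans (sup_le ?_ le_sup_right))
      exact inf_le_left.trans le_sup_left
  have := key c
  rwa [hc, sup_bot_eq] at this

theorem exists_solution {g b : ℕ} (hc : lcs P c = ⊥) (c0 : P) (cc : Fin b → P)
    (v0 : Idx g b → P) (hgen : Subgroup.closure (Set.range (dd cc v0)) ⊔ lcs P 1 = ⊤)
    (h0 : Rel c0 cc v0 ∈ lcs P 2) :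
    ∃ v : Idx g b → P, (∀ j, pr P 1 (v j) = pr P 1 (v0 j)) ∧ Rel c0 cc v = 1 := by
  have key : ∀ n, ∃ v : Idx g b → P, (∀ j, pr P 1 (v j) = pr P 1 (v0 j)) ∧
      Rel c0 cc v ∈ lcs P (n+2) := by
    intro n
    induction n with
    | zero => exact ⟨v0, fun j => rfl, h0⟩
    | succ n ih =>
      obtain ⟨v, hv1, hv2⟩ := ih
      obtain ⟨u, hu⟩ := Theta_surj (n+1) (dd cc v)
        (gen_congr (dd_congr cc fun j => (hv1 j).symm) hgen) (Rel c0 cc v)⁻¹ (inv_mem hv2)
      refine ⟨fun j => v j * (u j : P), fun j => ?_, ?_⟩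
      · rw [pr_one_mul (Nat.le_add_left 1 n)]; exact hv1 j
      · have h1 := Rel_mul (Nat.le_add_left 1 n) c0 cc v u
        rw [hu, ← map_mul, inv_mul_cancel, map_one] at h1
        exact (pr_eq_one _ _).1 h1
  obtain ⟨v, hv1, hv2⟩ := key c
  have : Rel c0 cc v ∈ lcs P c := lcs_anti' (by omega) hv2
  rw [hc, Subgroup.mem_bot] at this
  exact ⟨v, hv1, this⟩

end nilp

section PGroup

variable {I : Type*} [Fintype I] [DecidableEq I] {p : ℕ} [hp : Fact p.Prime] {deg : I → ℕ} {c : ℕ}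
  {X : Type*} {op : X → Matrix I I (ZMod p)} {hop : ∀ x, HmG deg 1 (op x)} {st : Setup deg p c}

theorem lcs_UG (n : ℕ) : ∀ x ∈ lcs (PG op st hop) n, (x : (Matrix I I (ZMod p))ˣ) ∈ UG st n := by
  induction n with
  | zero => intro x _; exact PG_UG x
  | succ n ih =>
    have : lcs (PG op st hop) (n+1) ≤ (UG st (n+1)).comap (PG op st hop).subtype := by
      rw [lcs_succ, Subgroup.commutator_le]
      intro x hx y _
      rw [Subgroup.mem_comap, map_commutatorElement]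
      exact comm_UG (ih x hx) (PG_UG y)
    exact this

theorem lcs_PG_bot : lcs (PG op st hop) c = ⊥ := by
  rw [eq_bot_iff]
  intro x hx
  rw [Subgroup.mem_bot]
  exact Subtype.ext (UG_top (lcs_UG c x hx))

theorem PG_pow (x : PG op st hop) : x ^ p = 1 := by
  apply Subtype.ext
  exact units_pow st (mem_UG.1 (PG_UG x))

theorem lead_exists (hc1 : 1 ≤ c) (n : ℕ) : ∀ y ∈ Lg op n, ∃ g ∈ lcs (PG op st hop) n,
    FilG deg (n+2) (((g : (Matrix I I (ZMod p))ˣ) : Matrix I I (ZMod p)) - 1 - y) := by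
  have hzero : ∀ n, ∃ g ∈ lcs (PG op st hop) n,
      FilG deg (n+2) (((g : (Matrix I I (ZMod p))ˣ) : Matrix I I (ZMod p)) - 1 - 0) := by
    intro n
    refine ⟨1, one_mem _, ?_⟩
    have : (((1 : PG op st hop) : (Matrix I I (ZMod p))ˣ) : Matrix I I (ZMod p)) - 1 - 0 = 0 := by
      rw [OneMemClass.coe_one, Units.val_one]; simp
    rw [this]; exact FilG_zero _
  have hadd : ∀ n (a b : Matrix I I (ZMod p)), (∃ g ∈ lcs (PG op st hop) n,
      FilG deg (n+2) (((g : (Matrix I I (ZMod p))ˣ) : Matrix I I (ZMod p)) - 1 - a)) →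
      (∃ g ∈ lcs (PG op st hop) n,
      FilG deg (n+2) (((g : (Matrix I I (ZMod p))ˣ) : Matrix I I (ZMod p)) - 1 - b)) →
      ∃ g ∈ lcs (PG op st hop) n,
      FilG deg (n+2) (((g : (Matrix I I (ZMod p))ˣ) : Matrix I I (ZMod p)) - 1 - (a + b)) := by
    rintro n a b ⟨g, hg, hg'⟩ ⟨h, hh, hh'⟩
    refine ⟨g * h, mul_mem hg hh, ?_⟩
    exact mul_leadG (lcs_UG n g hg) (lcs_UG n h hh) hg' hh'
  have hnsmul : ∀ n (a : Matrix I I (ZMod p)), (∃ g ∈ lcs (PG op st hop) n,
      FilG deg (n+2) (((g : (Matrix I I (ZMod p))ˣ) : Matrix I I (ZMod p)) - 1 - a)) → ∀ k : ℕ,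
      ∃ g ∈ lcs (PG op st hop) n,
      FilG deg (n+2) (((g : (Matrix I I (ZMod p))ˣ) : Matrix I I (ZMod p)) - 1 - k • a) := by
    intro n a ha k
    induction k with
    | zero => rw [zero_smul]; exact hzero n
    | succ k ih => rw [succ_nsmul]; exact hadd n _ _ ih ha
  have hsmul : ∀ n (k : ZMod p) (a : Matrix I I (ZMod p)), (∃ g ∈ lcs (PG op st hop) n,
      FilG deg (n+2) (((g : (Matrix I I (ZMod p))ˣ) : Matrix I I (ZMod p)) - 1 - a)) →
      ∃ g ∈ lcs (PG op st hop) n,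
      FilG deg (n+2) (((g : (Matrix I I (ZMod p))ˣ) : Matrix I I (ZMod p)) - 1 - k • a) := by
    intro n k a ha
    have e : k • a = k.val • a := by
      conv_lhs => rw [← ZMod.natCast_zmod_val k]
      rw [Nat.cast_smul_eq_nsmul]
    rw [e]; exact hnsmul n a ha _
  induction n with
  | zero =>
    intro y hy
    refine Submodule.span_induction (p := fun y _ => ∃ g ∈ lcs (PG op st hop) 0,
      FilG deg (0+2) (((g : (Matrix I I (ZMod p))ˣ) : Matrix I I (ZMod p)) - 1 - y)) ?_ ?_ ?_ ?_ hy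
    · rintro _ ⟨x, rfl⟩
      exact ⟨EG st hop x, Subgroup.mem_top _, EG_lead hc1 x⟩
    · exact hzero 0
    · intro a b _ _ ha hb; exact hadd 0 a b ha hb
    · intro k a _ ha; exact hsmul 0 k a ha
  | succ n ih =>
    intro y hy
    refine Submodule.span_induction (p := fun y _ => ∃ g ∈ lcs (PG op st hop) (n+1),
      FilG deg (n+1+2) (((g : (Matrix I I (ZMod p))ˣ) : Matrix I I (ZMod p)) - 1 - y))
      ?_ ?_ ?_ ?_ hy
    · rintro _ ⟨y', hy', x, rfl⟩
      obtain ⟨g, hg, hg'⟩ := ih y' hy'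
      refine ⟨⁅g, EG st hop x⁆, ?_, ?_⟩
      · rw [lcs_succ]
        exact Subgroup.commutator_mem_commutator hg (Subgroup.mem_top _)
      · exact comm_leadG (lcs_UG n g hg) (PG_UG (EG st hop x)) hg' (EG_lead hc1 x)
    · exact hzero _
    · intro a b _ _ ha hb; exact hadd _ a b ha hb
    · intro k a _ ha; exact hsmul _ k a ha

theorem lead_mem {n : ℕ} (hn : n + 1 ≤ c) (x : PG op st hop)
    (hx : (x : (Matrix I I (ZMod p))ˣ) ∈ UG st n) : ∃ y ∈ Lg op n,
    FilG deg (n+2) (((x : (Matrix I I (ZMod p))ˣ) : Matrix I I (ZMod p)) - 1 - y) := by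
  set u : (Matrix I I (ZMod p))ˣ := (x : (Matrix I I (ZMod p))ˣ) with hu
  set e : Matrix I I (ZMod p) := (u : Matrix I I (ZMod p)) - 1 with he
  set w : Matrix I I (ZMod p) := ((u⁻¹ : (Matrix I I (ZMod p))ˣ) : Matrix I I (ZMod p)) with hw
  have hl : lam deg u ∈ Lhat op := x.2.2
  have heF : FilG deg (n+1) e := mem_UG.1 hx
  have hdel := del_Fil heF
  have hwu : w * (u : Matrix I I (ZMod p)) = 1 := Units.inv_mul u
  have hw1 : FilG deg 1 (w - 1) := mem_UG.1 (inv_mem (PG_UG x))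
  have hlam : lam deg u = w * del deg e := by
    have h1 : del deg e = del deg (u : Matrix I I (ZMod p)) := by
      rw [he]; unfold del; noncomm_ring
    calc lam deg u = w * Dg deg p * u - 1 * Dg deg p := by rw [lam, one_mul]
      _ = w * del deg (u : Matrix I I (ZMod p)) := by rw [← hwu, del]; noncomm_ring
      _ = _ := by rw [h1]
  set k : ZMod p := ((n+1 : ℕ) : ZMod p) with hk
  have hk0 : k ≠ 0 := cast_ne (Nat.succ_pos n) (by have := st.hpc; omega)
  have hdelF : FilG deg (n+1) (del deg e) := by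
    have h1 := FilG_add (FilG_mono (Nat.le_succ _) hdel) (FilG_smul k heF)
    rwa [sub_add_cancel] at h1
  have h2 : FilG deg (n+2) (lam deg u - k • e) := by
    have e1 : lam deg u - k • e = (w - 1) * del deg e + (del deg e - k • e) := by
      rw [hlam]; noncomm_ring
    rw [e1]
    exact FilG_add (FilG_mono (by omega) (FilG_mul hw1 hdelF)) hdel
  have h3 : FilG deg (n+1) (lam deg u) := by
    have h1 := FilG_add (FilG_mono (Nat.le_succ _) h2) (FilG_smul k heF)
    rwa [sub_add_cancel] at h1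
  refine ⟨k⁻¹ • cmp deg (n+1) (lam deg u), Submodule.smul_mem _ _ (Lhat_cmp hop hl n), ?_⟩
  have h4 := cmp_Fil h3
  have h5 : e - k⁻¹ • cmp deg (n+1) (lam deg u) =
      k⁻¹ • ((lam deg u - cmp deg (n+1) (lam deg u)) - (lam deg u - k • e)) := by
    have h6 : k⁻¹ • (k • e) = e := by rw [smul_smul, inv_mul_cancel₀ hk0, one_smul]
    have h7 : (lam deg u - cmp deg (n+1) (lam deg u)) - (lam deg u - k • e) =
        k • e - cmp deg (n+1) (lam deg u) := by abel
    rw [h7, smul_sub k⁻¹ (k • e), h6]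
  rw [h5]
  exact FilG_smul _ (FilG_sub h4 h2)

theorem mem_lcs_of_UG (hc1 : 1 ≤ c) : ∀ (k n : ℕ), n + k = c → ∀ x : PG op st hop,
    (x : (Matrix I I (ZMod p))ˣ) ∈ UG st n → x ∈ lcs (PG op st hop) n := by
  intro k
  induction k with
  | zero =>
    intro n hn x hx
    have hn' : n = c := by omega
    subst hn'
    have : x = 1 := Subtype.ext (UG_top hx)
    rw [this]; exact one_mem _
  | succ k ih =>
    intro n hn x hx
    obtain ⟨y, hy, hxy⟩ := lead_mem (by omega) x hx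
    obtain ⟨g, hg, hgy⟩ := lead_exists (st := st) (hop := hop) hc1 n y hy
    have h1 : ((g⁻¹ * x : PG op st hop) : (Matrix I I (ZMod p))ˣ) ∈ UG st (n+1) := by
      rw [mem_UG]
      have hgU := lcs_UG n g hg
      set gm : Matrix I I (ZMod p) := ((g : (Matrix I I (ZMod p))ˣ) : Matrix I I (ZMod p)) with hgm
      set xm : Matrix I I (ZMod p) := ((x : (Matrix I I (ZMod p))ˣ) : Matrix I I (ZMod p)) with hxm
      set gi : Matrix I I (ZMod p) :=
        (((g : (Matrix I I (ZMod p))ˣ)⁻¹ : (Matrix I I (ZMod p))ˣ) : Matrix I I (ZMod p)) with hgi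
      have h2 : gi * gm = 1 := Units.inv_mul (g : (Matrix I I (ZMod p))ˣ)
      have h3 : (((g⁻¹ * x : PG op st hop) : (Matrix I I (ZMod p))ˣ) : Matrix I I (ZMod p)) - 1 =
          gi * ((xm - 1 - y) - (gm - 1 - y)) := by
        have e1 : (((g⁻¹ * x : PG op st hop) : (Matrix I I (ZMod p))ˣ) : Matrix I I (ZMod p)) =
          gi * xm := rfl
        rw [e1]
        calc gi * xm - 1 = gi * xm - gi * gm := by rw [h2]
          _ = _ := by noncomm_ring
      rw [h3]
      exact FilG_mono (by omega) (FilG_mul (UG_val (inv_mem hgU)) (FilG_sub hxy hgy))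
    have h2 := lcs_anti' (Nat.le_succ n) (ih (n+1) (by omega) _ h1)
    have e : x = g * (g⁻¹ * x) := by group
    rw [e]; exact mul_mem hg h2

/-- centrality -/
theorem center_mem (hc1 : 1 ≤ c)
    (cf : ∀ j, j + 2 ≤ c → ∀ y ∈ Lg op j, (∀ z, y * op z - op z * y = 0) → y = 0)
    {m : ℕ} (hm : m + 1 ≤ c) (x : PG op st hop)
    (hx : ∀ g : PG op st hop, ⁅x, g⁆ ∈ lcs (PG op st hop) (m+1)) :
    x ∈ lcs (PG op st hop) m := by
  have key : ∀ j, j ≤ m → (x : (Matrix I I (ZMod p))ˣ) ∈ UG st j := by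
    intro j
    induction j with
    | zero => intro _; exact PG_UG x
    | succ j ih =>
      intro hj
      have hxj := ih (by omega)
      obtain ⟨y, hy, hxy⟩ := lead_mem (by omega) x hxj
      have hyH := Lg_Hm hop j y hy
      have hy0 : y = 0 := by
        refine cf j (by omega) y hy fun z => ?_
        have h1 := comm_leadG hxj (PG_UG (EG st hop z)) hxy (EG_lead hc1 z)
        have h2 : FilG deg (m+1+1) (((⁅(x : (Matrix I I (ZMod p))ˣ), (EG st hop z :
            (Matrix I I (ZMod p))ˣ)⁆ : (Matrix I I (ZMod p))ˣ) : Matrix I I (ZMod p)) - 1) :=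
          mem_UG.1 (lcs_UG (m+1) _ (hx (EG st hop z)))
        have h3 := FilG_sub (FilG_mono (show j+0+3 ≤ m+1+1 by omega) h2) h1
        rw [sub_sub_cancel] at h3
        have hzH := hop z
        have h4 : HmG deg ((j+2 : ℕ) : ℤ) (y * op z - op z * y) := by
          have a1 := HmG_mul hyH hzH
          have a2 := HmG_mul hzH hyH
          have e1 : (((j+1 : ℕ) : ℤ) + 1) = ((j+2 : ℕ) : ℤ) := by push_cast; ring
          have e2 : (1 + ((j+1 : ℕ) : ℤ)) = ((j+2 : ℕ) : ℤ) := by push_cast; ring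
          rw [e1] at a1
          rw [e2] at a2
          exact HmG_sub a1 a2
        exact HmG_fil_zero h4 h3
      rw [hy0, sub_zero] at hxy
      exact hxy
  exact mem_lcs_of_UG hc1 (c - m) m (by omega) x (key m le_rfl)

theorem card_Lg_le (hc1 : 1 ≤ c) : Nat.card (Lg op (c-1)) ≤ Nat.card (PG op st hop) := by
  have h : ∀ y : Lg op (c-1), ∃ g : PG op st hop,
      FilG deg (c-1+2) (((g : (Matrix I I (ZMod p))ˣ) : Matrix I I (ZMod p)) - 1 -
        (y : Matrix I I (ZMod p))) := by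
    intro y
    obtain ⟨g, _, hg⟩ := lead_exists (st := st) (hop := hop) hc1 (c-1) y y.2
    exact ⟨g, hg⟩
  choose G hG using h
  refine Nat.card_le_card_of_injective G ?_
  intro y y' hyy
  have h1 := FilG_sub (hG y') (hG y)
  rw [hyy] at h1
  have h2 : FilG deg (c+1) ((y : Matrix I I (ZMod p)) - (y' : Matrix I I (ZMod p))) := by
    have e : (((G y' : (Matrix I I (ZMod p))ˣ) : Matrix I I (ZMod p)) - 1 - (y' : Matrix I I (ZMod p)))
      - (((G y' : (Matrix I I (ZMod p))ˣ) : Matrix I I (ZMod p)) - 1 - (y : Matrix I I (ZMod p))) =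
      (y : Matrix I I (ZMod p)) - (y' : Matrix I I (ZMod p)) := by abel
    rw [e] at h1
    exact FilG_mono (by omega) h1
  have h3 := FilG_top st.hc h2
  rw [sub_eq_zero] at h3
  exact Subtype.ext h3

end PGroup

end H94Simple
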