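import Pool.Agent.H94.SccV

open scoped commutatorElement IsMulCommutative

namespace H94Simple

section wordops

/-- words of length at most `c` -/
abbrev WI (X : Type*) (c : ℕ) := {w : List X // w.length ≤ c}

noncomputable instance {X : Type*} [Fintype X] (c : ℕ) : Fintype (WI X c) :=
  (List.finite_length_le X c).fintype

variable {X : Type*} [Fintype X] [DecidableEq X] {c : ℕ} {p : ℕ} [hp : Fact p.Prime]

def wdeg (w : WI X c) : ℕ := w.1.length

def Nn (p : ℕ) (c : ℕ) (x : X) : Matrix (WI X c) (WI X c) (ZMod p) :=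
  fun w v => if w.1 = x :: v.1 then 1 else 0

def Cut (p : ℕ) (c : ℕ) (a : X) : Matrix (WI X c) (WI X c) (ZMod p) :=
  fun w v => if v.1 = a :: w.1 then 1 else 0

theorem Nn_Hm (x : X) : HmG wdeg 1 (Nn p c x) := by
  intro w v h
  by_cases h1 : w.1 = x :: v.1
  · simp only [wdeg, h1, List.length_cons]; push_cast; ring
  · simp [Nn, h1] at h

theorem Cut_Hm (a : X) : HmG wdeg (-1) (Cut p c a) := by
  intro w v h
  by_cases h1 : v.1 = a :: w.1
  · simp only [wdeg, h1, List.length_cons]; push_cast; ring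
  · simp [Cut, h1] at h

theorem Hm_zero_of_len {n : ℕ} {T : Matrix (WI X c) (WI X c) (ZMod p)} (h : HmG wdeg n T)
    {w v : WI X c} (hv : c < v.1.length + n) : T w v = 0 := by
  by_contra hne
  have h1 := h w v hne
  have h2 := w.2
  simp only [wdeg] at h1
  omega

theorem mul_Nn (T : Matrix (WI X c) (WI X c) (ZMod p)) (x : X) (w v : WI X c)
    (h : v.1.length + 1 ≤ c) : (T * Nn p c x) w v = T w ⟨x :: v.1, h⟩ := by
  rw [Matrix.mul_apply, Finset.sum_eq_single ⟨x :: v.1, h⟩]
  · simp [Nn]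
  · intro u _ hu
    have : ¬ u.1 = x :: v.1 := fun e => hu (Subtype.ext e)
    simp [Nn, this]
  · intro h; exact absurd (Finset.mem_univ _) h

theorem mul_Nn' (T : Matrix (WI X c) (WI X c) (ZMod p)) (x : X) (w v : WI X c)
    (h : ¬ v.1.length + 1 ≤ c) : (T * Nn p c x) w v = 0 := by
  rw [Matrix.mul_apply]
  refine Finset.sum_eq_zero fun u _ => ?_
  have : ¬ u.1 = x :: v.1 := by
    intro e
    have := u.2
    rw [e, List.length_cons] at this
    exact h this
  simp [Nn, this]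

theorem mul_Cut (T : Matrix (WI X c) (WI X c) (ZMod p)) (a : X) (w : WI X c) (v : List X)
    (h : (a :: v).length ≤ c) (h' : v.length ≤ c) :
    (T * Cut p c a) w ⟨a :: v, h⟩ = T w ⟨v, h'⟩ := by
  rw [Matrix.mul_apply, Finset.sum_eq_single ⟨v, h'⟩]
  · simp [Cut]
  · intro u _ hu
    have : ¬ v = u.1 := fun e => hu (Subtype.ext e.symm)
    simp [Cut, this]
  · intro h; exact absurd (Finset.mem_univ _) h

theorem mul_Cut_ne (T : Matrix (WI X c) (WI X c) (ZMod p)) (a : X) (w v : WI X c)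
    (h : v.1.head? ≠ some a) : (T * Cut p c a) w v = 0 := by
  rw [Matrix.mul_apply]
  refine Finset.sum_eq_zero fun u _ => ?_
  have : ¬ v.1 = a :: u.1 := fun e => h (by rw [e]; rfl)
  simp [Cut, this]

theorem Nn_mul (T : Matrix (WI X c) (WI X c) (ZMod p)) (x : X) (w : List X) (v : WI X c)
    (h : (x :: w).length ≤ c) (h' : w.length ≤ c) :
    (Nn p c x * T) ⟨x :: w, h⟩ v = T ⟨w, h'⟩ v := by
  rw [Matrix.mul_apply, Finset.sum_eq_single ⟨w, h'⟩]
  · simp [Nn]
  · intro u _ hu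
    have : ¬ w = u.1 := fun e => hu (Subtype.ext e.symm)
    simp [Nn, this]
  · intro h; exact absurd (Finset.mem_univ _) h

theorem Nn_mul_ne (T : Matrix (WI X c) (WI X c) (ZMod p)) (x : X) (w v : WI X c)
    (h : w.1.head? ≠ some x) : (Nn p c x * T) w v = 0 := by
  rw [Matrix.mul_apply]
  refine Finset.sum_eq_zero fun u _ => ?_
  have : ¬ w.1 = x :: u.1 := fun e => h (by rw [e]; rfl)
  simp [Nn, this]

/-! the operators -/

variable {ι : Type*} [Fintype ι]

noncomputable def Om (p c : ℕ) (s t : ι → X) : Matrix (WI X c) (WI X c) (ZMod p) :=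
  ∑ i, (Nn p c (s i) * Nn p c (t i) - Nn p c (t i) * Nn p c (s i))

noncomputable def Dd (p c : ℕ) (a b : X) (s t : ι → X) : Matrix (WI X c) (WI X c) (ZMod p) :=
  Nn p c b * (1 - Nn p c a * Cut p c a) + Om p c s t * Cut p c a

noncomputable def Lb (p c : ℕ) (a b : X) (s t : ι → X) : Matrix (WI X c) (WI X c) (ZMod p) :=
  ∑ k ∈ Finset.range (c+1), Nn p c a ^ k * Dd p c a b s t * Cut p c a ^ k

noncomputable def opW (p c : ℕ) (a b : X) (s t : ι → X) (x : X) : Matrix (WI X c) (WI X c) (ZMod p) :=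
  if x = b then Lb p c a b s t else Nn p c x

variable {a b : X} {s t : ι → X}

theorem HmG_sum {J : Type*} {I : Type*} {deg : I → ℕ} {n : ℤ} (S : Finset J)
    (f : J → Matrix I I (ZMod p)) (h : ∀ i ∈ S, HmG deg n (f i)) :
    HmG deg n (∑ i ∈ S, f i) := by
  intro i j hne
  rw [Matrix.sum_apply] at hne
  obtain ⟨k, hk, hk'⟩ := Finset.exists_ne_zero_of_sum_ne_zero hne
  exact h k hk i j hk'

theorem Om_Hm : HmG wdeg 2 (Om p c s t) := by
  refine HmG_sum _ _ fun i _ => ?_
  have h1 := HmG_mul (Nn_Hm (p := p) (c := c) (s i)) (Nn_Hm (p := p) (c := c) (t i))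
  have h2 := HmG_mul (Nn_Hm (p := p) (c := c) (t i)) (Nn_Hm (p := p) (c := c) (s i))
  exact HmG_sub h1 h2

theorem Dd_Hm : HmG wdeg 1 (Dd p c a b s t) := by
  have h1 : HmG wdeg 0 (1 - Nn p c a * Cut p c a) := by
    have := HmG_mul (Nn_Hm (p := p) (c := c) a) (Cut_Hm (p := p) (c := c) a)
    exact HmG_sub HmG_one this
  have h2 := HmG_mul (Nn_Hm (p := p) (c := c) b) h1
  have h3 := HmG_mul (Om_Hm (p := p) (c := c) (s := s) (t := t)) (Cut_Hm (p := p) (c := c) a)
  exact HmG_add h2 h3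

theorem Lb_Hm : HmG wdeg 1 (Lb p c a b s t) := by
  refine HmG_sum _ _ fun k _ => ?_
  have h1 := HmG_pow (Nn_Hm (p := p) (c := c) a) k
  have h2 := HmG_pow (Cut_Hm (p := p) (c := c) a) k
  have h3 := HmG_mul (HmG_mul h1 (Dd_Hm (p := p) (c := c) (a := a) (b := b) (s := s) (t := t))) h2
  have e : (k : ℤ) * 1 + 1 + (k : ℤ) * (-1) = 1 := by ring
  rwa [e] at h3

theorem opW_Hm (x : X) : HmG wdeg 1 (opW p c a b s t x) := by
  unfold opW
  split_ifs
  · exact Lb_Hm
  · exact Nn_Hm x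

theorem Lb_eq : Lb p c a b s t = Dd p c a b s t + Nn p c a * Lb p c a b s t * Cut p c a := by
  let f : ℕ → Matrix (WI X c) (WI X c) (ZMod p) := fun k =>
    Nn p c a ^ k * Dd p c a b s t * Cut p c a ^ k
  have h1 : Nn p c a * Lb p c a b s t * Cut p c a = ∑ k ∈ Finset.range (c+1), f (k+1) := by
    rw [Lb, Finset.mul_sum, Finset.sum_mul]
    refine Finset.sum_congr rfl fun k _ => ?_
    show _ = Nn p c a ^ (k+1) * Dd p c a b s t * Cut p c a ^ (k+1)
    rw [pow_succ', pow_succ]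
    simp only [mul_assoc]
  have h2 : f (c+1) = 0 := by
    have h3 : Nn p c a ^ (c+1) = 0 :=
      FilG_top (deg := wdeg) (fun w : WI X c => w.2)
        (FilG_pow (HmG.fil (n := 1) (by simpa using Nn_Hm (p := p) (c := c) a)) (c+1))
    show Nn p c a ^ (c+1) * Dd p c a b s t * Cut p c a ^ (c+1) = 0
    rw [h3, zero_mul, zero_mul]
  have h4 : Lb p c a b s t = ∑ k ∈ Finset.range (c+1), f k := rfl
  rw [h1, Finset.sum_range_succ, h2, add_zero, h4, Finset.sum_range_succ', add_comm]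
  congr 1
  show Nn p c a ^ 0 * Dd p c a b s t * Cut p c a ^ 0 = _
  rw [pow_zero, pow_zero, one_mul, mul_one]

theorem Lb_col_ne (w v : WI X c) (h : v.1.head? ≠ some a) :
    Lb p c a b s t w v = Nn p c b w v := by
  rw [Lb_eq, Matrix.add_apply, mul_Cut_ne _ a w v h, add_zero, Dd, Matrix.add_apply,
    mul_Cut_ne _ a w v h, add_zero, mul_sub, mul_one, ← mul_assoc, Matrix.sub_apply,
    mul_Cut_ne _ a w v h, sub_zero]

theorem Lb_col_a (w : WI X c) (v : List X) (h : (a :: v).length ≤ c) (h' : v.length ≤ c) :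
    Lb p c a b s t w ⟨a :: v, h⟩ =
      Om p c s t w ⟨v, h'⟩ + (Nn p c a * Lb p c a b s t) w ⟨v, h'⟩ := by
  rw [Lb_eq, Matrix.add_apply, mul_Cut _ a w v h h', ← Lb_eq]
  congr 1
  rw [Dd, Matrix.add_apply, mul_Cut _ a w v h h', mul_sub, mul_one, ← mul_assoc, Matrix.sub_apply,
    mul_Cut _ a w v h h', mul_Nn _ a w ⟨v, h'⟩ h, sub_self, zero_add]

/-- the key relation -/
theorem Lb_rel : Lb p c a b s t * Nn p c a = Nn p c a * Lb p c a b s t + Om p c s t := by
  ext w v
  rw [Matrix.add_apply]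
  by_cases h : v.1.length + 1 ≤ c
  · rw [mul_Nn _ a w v h, Lb_col_a w v.1 h v.2, add_comm]
  · rw [mul_Nn' _ a w v h]
    have h1 : HmG wdeg ((2 : ℕ) : ℤ) (Nn p c a * Lb p c a b s t) := by
      have := HmG_mul (Nn_Hm (p := p) (c := c) a)
        (Lb_Hm (p := p) (c := c) (a := a) (b := b) (s := s) (t := t))
      exact this
    have h2 : HmG wdeg ((2 : ℕ) : ℤ) (Om p c s t) := Om_Hm
    rw [Hm_zero_of_len h1 (by omega), Hm_zero_of_len h2 (by omega), add_zero]

theorem opW_ne {x : X} (h : x ≠ b) : opW p c a b s t x = Nn p c x := by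
  unfold opW; rw [if_neg h]

theorem opW_b : opW p c a b s t b = Lb p c a b s t := by
  unfold opW; rw [if_pos rfl]

/-! appending words on the right -/

def Ap (p c : ℕ) (y : List X) : Matrix (WI X c) (WI X c) (ZMod p) :=
  fun w u => if w.1 = u.1 ++ y then 1 else 0

theorem mul_Ap (T : Matrix (WI X c) (WI X c) (ZMod p)) (y : List X) (w u : WI X c)
    (h : (u.1 ++ y).length ≤ c) : (T * Ap p c y) w u = T w ⟨u.1 ++ y, h⟩ := by
  rw [Matrix.mul_apply, Finset.sum_eq_single ⟨u.1 ++ y, h⟩]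
  · simp [Ap]
  · intro z _ hz
    have : ¬ z.1 = u.1 ++ y := fun e => hz (Subtype.ext e)
    simp [Ap, this]
  · intro h; exact absurd (Finset.mem_univ _) h

theorem mul_Ap' (T : Matrix (WI X c) (WI X c) (ZMod p)) (y : List X) (w u : WI X c)
    (h : ¬ (u.1 ++ y).length ≤ c) : (T * Ap p c y) w u = 0 := by
  rw [Matrix.mul_apply]
  refine Finset.sum_eq_zero fun z _ => ?_
  have : ¬ z.1 = u.1 ++ y := by
    intro e
    have := z.2
    rw [e] at this
    exact h this
  simp [Ap, this]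

theorem Ap_Nn (y : List X) (x : X) : Nn p c x * Ap p c y = Ap p c y * Nn p c x := by
  ext w u
  by_cases hw : w.1 = x :: (u.1 ++ y)
  · have h1 : (x :: (u.1 ++ y)).length ≤ c := by rw [← hw]; exact w.2
    have h2 : (u.1 ++ y).length ≤ c := by rw [List.length_cons] at h1; omega
    have h3 : u.1.length + 1 ≤ c := by
      rw [List.length_cons, List.length_append] at h1; omega
    rw [mul_Ap _ _ _ _ h2, mul_Nn _ _ _ _ h3]
    simp [Nn, Ap, hw]
  · have h1 : (Nn p c x * Ap p c y) w u = 0 := by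
      by_cases h2 : (u.1 ++ y).length ≤ c
      · rw [mul_Ap _ _ _ _ h2]; simp [Nn, hw]
      · exact mul_Ap' _ _ _ _ h2
    have h2 : (Ap p c y * Nn p c x) w u = 0 := by
      by_cases h3 : u.1.length + 1 ≤ c
      · rw [mul_Nn _ _ _ _ h3]
        have : ¬ w.1 = (x :: u.1) ++ y := by simpa using hw
        simp only [Ap, if_neg this]
      · exact mul_Nn' _ _ _ _ h3
    rw [h1, h2]

theorem Ap_Om (y : List X) : Om p c s t * Ap p c y = Ap p c y * Om p c s t := by
  rw [Om, Finset.sum_mul, Finset.mul_sum]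
  refine Finset.sum_congr rfl fun i _ => ?_
  rw [sub_mul, mul_sub, mul_assoc, mul_assoc, Ap_Nn, Ap_Nn, ← mul_assoc, ← mul_assoc, Ap_Nn, Ap_Nn,
    mul_assoc, mul_assoc]

theorem Ap_Lb (y : List X) (hy : y.head? ≠ some a) :
    Lb p c a b s t * Ap p c y = Ap p c y * Lb p c a b s t := by
  have key : ∀ (u : List X) (hu : u.length ≤ c) (w : WI X c),
      (Lb p c a b s t * Ap p c y) w ⟨u, hu⟩ = (Ap p c y * Lb p c a b s t) w ⟨u, hu⟩ := by
    intro u
    induction u with
    | nil =>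
      intro hu w
      have h1 : ∀ z, Lb p c a b s t z ⟨[], hu⟩ = Nn p c b z ⟨[], hu⟩ := fun z =>
        Lb_col_ne z _ (by simp)
      have h2 : (Ap p c y * Lb p c a b s t) w ⟨[], hu⟩ = (Ap p c y * Nn p c b) w ⟨[], hu⟩ := by
        rw [Matrix.mul_apply, Matrix.mul_apply]
        exact Finset.sum_congr rfl fun z _ => by rw [h1]
      rw [h2, ← Ap_Nn]
      by_cases h3 : (([] : List X) ++ y).length ≤ c
      · rw [mul_Ap _ _ _ ⟨[], hu⟩ h3, mul_Ap _ _ _ ⟨[], hu⟩ h3]
        exact Lb_col_ne _ _ (by simpa using hy)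
      · rw [mul_Ap' _ _ _ ⟨[], hu⟩ h3, mul_Ap' _ _ _ ⟨[], hu⟩ h3]
    | cons x u ih =>
      intro hu w
      have hu' : u.length ≤ c := by rw [List.length_cons] at hu; omega
      by_cases hx : x = a
      · subst hx
        have h2 : (Ap p c y * Lb p c x b s t) w ⟨x :: u, hu⟩ =
            (Ap p c y * Om p c s t) w ⟨u, hu'⟩ +
            (Ap p c y * (Nn p c x * Lb p c x b s t)) w ⟨u, hu'⟩ := by
          rw [Matrix.mul_apply, Matrix.mul_apply, Matrix.mul_apply, ← Finset.sum_add_distrib]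
          refine Finset.sum_congr rfl fun z _ => ?_
          rw [Lb_col_a z u hu hu', mul_add]
        have h5 : (Nn p c x * (Lb p c x b s t * Ap p c y)) w ⟨u, hu'⟩ =
            (Nn p c x * (Ap p c y * Lb p c x b s t)) w ⟨u, hu'⟩ := by
          rw [Matrix.mul_apply, Matrix.mul_apply]
          exact Finset.sum_congr rfl fun z _ => by rw [ih hu' z]
        have h6 : Ap p c y * (Nn p c x * Lb p c x b s t) =
            Nn p c x * (Ap p c y * Lb p c x b s t) := by
          rw [← mul_assoc, ← Ap_Nn, mul_assoc]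
        rw [h2, h6, ← h5, ← Ap_Om, ← mul_assoc]
        by_cases h3 : ((x :: u) ++ y).length ≤ c
        · have h4 : (u ++ y).length ≤ c := by
            rw [List.cons_append, List.length_cons] at h3; omega
          rw [mul_Ap _ _ _ ⟨x :: u, hu⟩ h3, mul_Ap _ _ _ ⟨u, hu'⟩ h4, mul_Ap _ _ _ ⟨u, hu'⟩ h4]
          exact Lb_col_a w (u ++ y) h3 h4
        · have hlen : c < u.length + 1 + y.length := by
            rw [List.length_append, List.length_cons] at h3; omega
          rw [mul_Ap' _ _ _ ⟨x :: u, hu⟩ h3]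
          by_cases h4 : (u ++ y).length ≤ c
          · rw [mul_Ap _ _ _ ⟨u, hu'⟩ h4, mul_Ap _ _ _ ⟨u, hu'⟩ h4]
            have e1 : HmG wdeg ((2 : ℕ) : ℤ) (Nn p c x * Lb p c x b s t) :=
              HmG_mul (Nn_Hm (p := p) (c := c) x)
                (Lb_Hm (p := p) (c := c) (a := x) (b := b) (s := s) (t := t))
            have e2 : HmG wdeg ((2 : ℕ) : ℤ) (Om p c s t) := Om_Hm
            rw [Hm_zero_of_len e1 (by simp only [List.length_append]; omega),
              Hm_zero_of_len e2 (by simp only [List.length_append]; omega), add_zero]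
          · rw [mul_Ap' _ _ _ ⟨u, hu'⟩ h4, mul_Ap' _ _ _ ⟨u, hu'⟩ h4, add_zero]
      · have hne : (x :: u).head? ≠ some a := by simpa using hx
        have h1 : ∀ z, Lb p c a b s t z ⟨x :: u, hu⟩ = Nn p c b z ⟨x :: u, hu⟩ := fun z =>
          Lb_col_ne z _ hne
        have h2 : (Ap p c y * Lb p c a b s t) w ⟨x :: u, hu⟩ =
            (Ap p c y * Nn p c b) w ⟨x :: u, hu⟩ := by
          rw [Matrix.mul_apply, Matrix.mul_apply]
          exact Finset.sum_congr rfl fun z _ => by rw [h1]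
        rw [h2, ← Ap_Nn]
        by_cases h3 : ((x :: u) ++ y).length ≤ c
        · rw [mul_Ap _ _ _ ⟨x :: u, hu⟩ h3, mul_Ap _ _ _ ⟨x :: u, hu⟩ h3]
          exact Lb_col_ne _ _ (by simpa using hx)
        · rw [mul_Ap' _ _ _ ⟨x :: u, hu⟩ h3, mul_Ap' _ _ _ ⟨x :: u, hu⟩ h3]
  ext w u
  exact key u.1 u.2 w

theorem Ap_Lg (y : List X) (hy : y.head? ≠ some a) (n : ℕ) :
    ∀ T ∈ Lg (opW p c a b s t) n, T * Ap p c y = Ap p c y * T := by
  have hop : ∀ x, opW p c a b s t x * Ap p c y = Ap p c y * opW p c a b s t x := by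
    intro x
    unfold opW
    split_ifs
    · exact Ap_Lb y hy
    · exact Ap_Nn y x
  have hadd : ∀ S T : Matrix (WI X c) (WI X c) (ZMod p), S * Ap p c y = Ap p c y * S →
      T * Ap p c y = Ap p c y * T → (S + T) * Ap p c y = Ap p c y * (S + T) := by
    intro S T hS hT; rw [add_mul, mul_add, hS, hT]
  have hsm : ∀ (k : ZMod p) (T : Matrix (WI X c) (WI X c) (ZMod p)),
      T * Ap p c y = Ap p c y * T → (k • T) * Ap p c y = Ap p c y * (k • T) := by
    intro k T hT; rw [Matrix.smul_mul, Matrix.mul_smul, hT]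
  induction n with
  | zero =>
    intro T hT
    refine Submodule.span_induction (p := fun T _ => T * Ap p c y = Ap p c y * T) ?_ ?_ ?_ ?_ hT
    · rintro _ ⟨x, rfl⟩; exact hop x
    · rw [zero_mul, mul_zero]
    · intro A B _ _ hA hB; exact hadd A B hA hB
    · intro k A _ hA; exact hsm k A hA
  | succ n ih =>
    intro T hT
    refine Submodule.span_induction (p := fun T _ => T * Ap p c y = Ap p c y * T) ?_ ?_ ?_ ?_ hT
    · rintro _ ⟨z, hz, x, rfl⟩
      rw [sub_mul, mul_sub, mul_assoc, mul_assoc, hop x, ih z hz, ← mul_assoc, ← mul_assoc, hop x,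
        ih z hz, mul_assoc, mul_assoc]
    · rw [zero_mul, mul_zero]
    · intro A B _ _ hA hB; exact hadd A B hA hB
    · intro k A _ hA; exact hsm k A hA

/-- the Lie algebra has no centre in low degrees -/
theorem center_free (x1 x2 : X) (h12 : x1 ≠ x2) (h1a : x1 ≠ a) (h1b : x1 ≠ b) (h2a : x2 ≠ a)
    (h2b : x2 ≠ b) (j : ℕ) (hj : j + 2 ≤ c) (y : Matrix (WI X c) (WI X c) (ZMod p))
    (hy : y ∈ Lg (opW p c a b s t) j)
    (hcen : ∀ z, y * opW p c a b s t z - opW p c a b s t z * y = 0) (hab : a ≠ b) : y = 0 := by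
  have hyH := Lg_Hm (deg := wdeg) (opW_Hm (p := p) (c := c) (a := a) (b := b) (s := s) (t := t)) j y hy
  have hnil : ([] : List X).length ≤ c := Nat.zero_le _
  have hlast : ∀ x, x ≠ a → x ≠ b → ∀ u : WI X c, y u ⟨[], hnil⟩ ≠ 0 →
      u.1.getLast? = some x := by
    intro x hxa hxb u hu
    have hlen := hyH u ⟨[], hnil⟩ hu
    simp only [wdeg, List.length_nil] at hlen
    have hlen' : u.1.length = j + 1 := by omega
    have h1 : y * Nn p c x = Nn p c x * y := by
      have := hcen x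
      rw [opW_ne hxb, sub_eq_zero] at this
      exact this
    have h2 := Ap_Lg [x] (by simpa using hxa) j y hy
    have hx1 : (x :: u.1).length ≤ c := by rw [List.length_cons]; omega
    have h3 : (Nn p c x * y) ⟨x :: u.1, hx1⟩ ⟨[], hnil⟩ = y u ⟨[], hnil⟩ :=
      Nn_mul y x u.1 _ hx1 u.2
    have h4 : (y * Nn p c x) ⟨x :: u.1, hx1⟩ ⟨[], hnil⟩ =
        (y * Ap p c [x]) ⟨x :: u.1, hx1⟩ ⟨[], hnil⟩ := by
      rw [mul_Nn _ _ _ ⟨[], hnil⟩ (by simp; omega), mul_Ap _ _ _ ⟨[], hnil⟩ (by simp; omega)]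
      rfl
    rw [← h1, h4, h2, Matrix.mul_apply] at h3
    rw [← h3] at hu
    obtain ⟨z, _, hz⟩ := Finset.exists_ne_zero_of_sum_ne_zero hu
    have h5 : x :: u.1 = z.1 ++ [x] := by
      by_contra hne
      have : Ap p c [x] ⟨x :: u.1, hx1⟩ z = 0 := by simp [Ap, hne]
      rw [this, zero_mul] at hz
      exact hz rfl
    have h6 : (x :: u.1).getLast? = some x := by rw [h5]; simp
    cases hu1 : u.1 with
    | nil => rw [hu1] at hlen'; simp at hlen'
    | cons z' u' =>
      rw [hu1, List.getLast?_cons_cons] at h6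
      exact h6
  have hy0 : ∀ u : WI X c, y u ⟨[], hnil⟩ = 0 := by
    intro u
    by_contra hne
    have e1 := hlast x1 h1a h1b u hne
    have e2 := hlast x2 h2a h2b u hne
    rw [e1] at e2
    exact h12 (Option.some.inj e2)
  have key : ∀ (v : List X) (hv : v.length ≤ c) (w : WI X c), y w ⟨v, hv⟩ = 0 := by
    intro v
    induction v with
    | nil => intro hv w; exact hy0 w
    | cons x v ih =>
      intro hv w
      have hv' : v.length ≤ c := by rw [List.length_cons] at hv; omega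
      by_cases hx : x = a
      · subst hx
        have h1 : y * Nn p c x = Nn p c x * y := by
          have := hcen x
          rw [opW_ne hab, sub_eq_zero] at this
          exact this
        have h2 : (y * Nn p c x) w ⟨v, hv'⟩ = y w ⟨x :: v, hv⟩ := mul_Nn y x w ⟨v, hv'⟩ hv
        rw [← h2, h1, Matrix.mul_apply]
        exact Finset.sum_eq_zero fun z _ => by rw [ih hv' z, mul_zero]
      · have h2 := Ap_Lg (x :: v) (by simpa using hx) j y hy
        have h3 : (y * Ap p c (x :: v)) w ⟨[], hnil⟩ = y w ⟨x :: v, hv⟩ :=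
          mul_Ap y (x :: v) w ⟨[], hnil⟩ hv
        rw [← h3, h2, Matrix.mul_apply]
        exact Finset.sum_eq_zero fun z _ => by rw [hy0 z, mul_zero]
  ext w v
  exact key v.1 v.2 w

end wordops

end H94Simple
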