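import Pool.Agent.H94.SccW

open scoped commutatorElement IsMulCommutative

namespace H94Simple

section leadC

variable {X : Type*} [Fintype X] [DecidableEq X] {c : ℕ} {p : ℕ} [hp : Fact p.Prime]
  {ι : Type*} [Fintype ι] {a b : X} {s t : ι → X} {rk : X → ℕ} {r : ℕ}

def Jn (a b : X) (u v : List X) : Prop := ¬ (u.getLast? = some b ∧ v.head? = some a)

/-- hypotheses on the letters -/
structure WSetup (a b : X) (s t : ι → X) (rk : X → ℕ) (r : ℕ) : Prop where
  hb : rk b = 0
  hpos : ∀ x, x ≠ b → 0 < rk x
  hlt : ∀ x, rk x < r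
  hr : 2 ≤ r
  hab : a ≠ b
  hs : ∀ i, s i ≠ b
  ht : ∀ i, t i ≠ b
  hinj : Function.Injective rk

def LeadO (p c : ℕ) [Fact p.Prime] (a b : X) (s t : ι → X) (rk : X → ℕ) (r : ℕ) (u : List X)
    (T : Matrix (WI X c) (WI X c) (ZMod p)) : Prop :=
  u ≠ [] ∧ T ∈ Lg (opW p c a b s t) (u.length - 1) ∧
  (∀ w v : WI X c, T w v ≠ 0 → val rk r (u ++ v.1) ≤ val rk r w.1) ∧
  (∀ w v : WI X c, w.1 = u ++ v.1 → Jn a b u v.1 → T w v = 1)

def InO (p c : ℕ) [Fact p.Prime] (a b : X) (s t : ι → X) (rk : X → ℕ) (r : ℕ)
    (u : List X) : Prop := ∃ T, LeadO p c a b s t rk r u T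

theorem InO_letter {x : X} (hx : x ≠ b) : InO p c a b s t rk r [x] := by
  refine ⟨Nn p c x, by simp, ?_, ?_, ?_⟩
  · exact Submodule.subset_span ⟨x, opW_ne hx⟩
  · intro w v h
    by_cases h1 : w.1 = x :: v.1
    · rw [h1]; exact le_rfl
    · simp [Nn, h1] at h
  · intro w v h _
    have h1 : w.1 = x :: v.1 := h
    simp [Nn, h1]

theorem Lb_b_zero (W : WSetup a b s t rk r) (w v : WI X c) (hw : w.1.head? = some b)
    (hv : v.1.head? = some a) : Lb p c a b s t w v = 0 := by
  obtain ⟨v, hvc⟩ := v
  cases v with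
  | nil => simp at hv
  | cons y v =>
    have hy : y = a := by simpa using hv
    subst hy
    have hv' : v.length ≤ c := by rw [List.length_cons] at hvc; omega
    rw [Lb_col_a w v hvc hv']
    have h1 : (Nn p c y * Lb p c y b s t) w ⟨v, hv'⟩ = 0 := by
      refine Nn_mul_ne _ _ _ _ ?_
      rw [hw]
      intro h
      exact W.hab (Option.some.inj h).symm
    have h2 : Om p c s t w ⟨v, hv'⟩ = 0 := by
      rw [Om, Matrix.sum_apply]
      refine Finset.sum_eq_zero fun i _ => ?_
      rw [Matrix.sub_apply, Nn_mul_ne, Nn_mul_ne, sub_zero]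
      · rw [hw]; intro h; exact W.ht i (Option.some.inj h).symm
      · rw [hw]; intro h; exact W.hs i (Option.some.inj h).symm
    rw [h1, h2, add_zero]

theorem InO_b (W : WSetup a b s t rk r) : InO p c a b s t rk r [b] := by
  refine ⟨Lb p c a b s t, by simp, ?_, ?_, ?_⟩
  · exact Submodule.subset_span ⟨b, opW_b⟩
  · intro w v h
    have hlen := Lb_Hm w v h
    simp only [wdeg] at hlen
    by_cases hv : v.1.head? = some a
    · obtain ⟨w, hwc⟩ := w
      cases w with
      | nil => simp at hlen; omega
      | cons z w =>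
        by_cases hz : z = b
        · subst hz
          exact absurd (Lb_b_zero W ⟨z :: w, hwc⟩ v rfl hv) h
        · have h1 : w.length = v.1.length := by
            simp only [List.length_cons] at hlen; push_cast at hlen; omega
          have h2 : val rk r ([b] ++ v.1) = val rk r v.1 := by
            rw [List.singleton_append, val, W.hb, zero_mul, zero_add]
          rw [h2]
          show val rk r v.1 ≤ val rk r (z :: w)
          rw [val, h1]
          have h3 := val_lt W.hlt v.1
          have h4 : 1 * r ^ v.1.length ≤ rk z * r ^ v.1.length :=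
            Nat.mul_le_mul_right _ (W.hpos z hz)
          omega
    · rw [Lb_col_ne w v hv] at h
      by_cases h1 : w.1 = b :: v.1
      · rw [h1]; exact le_rfl
      · simp [Nn, h1] at h
  · intro w v h hJ
    have hv : v.1.head? ≠ some a := fun h' => hJ ⟨rfl, h'⟩
    rw [Lb_col_ne w v hv]
    have h1 : w.1 = b :: v.1 := h
    simp [Nn, h1]

theorem InO_mul (W : WSetup a b s t rk r) {u v : List X} (hu : InO p c a b s t rk r u)
    (hv : InO p c a b s t rk r v) (hJ : Jn a b u v) (h : val rk r (u ++ v) < val rk r (v ++ u)) :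
    InO p c a b s t rk r (u ++ v) := by
  obtain ⟨S, hu0, hu1, hu2, hu3⟩ := hu
  obtain ⟨T, hv0, hv1, hv2, hv3⟩ := hv
  have lu : 0 < u.length := List.length_pos_of_ne_nil hu0
  have lv : 0 < v.length := List.length_pos_of_ne_nil hv0
  have hSH := Lg_Hm (deg := wdeg) (opW_Hm (p := p) (c := c) (a := a) (b := b) (s := s) (t := t))
    _ S hu1
  have hTH := Lg_Hm (deg := wdeg) (opW_Hm (p := p) (c := c) (a := a) (b := b) (s := s) (t := t))
    _ T hv1
  have e1 : u.length - 1 + 1 = u.length := by omega
  have e2 : v.length - 1 + 1 = v.length := by omega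
  rw [e1] at hSH
  rw [e2] at hTH
  have bd : ∀ (u' v' : List X) (x w y : WI X c), y.1.length = x.1.length + v'.length →
      val rk r (v' ++ x.1) ≤ val rk r y.1 → val rk r (u' ++ y.1) ≤ val rk r w.1 →
      val rk r (u' ++ (v' ++ x.1)) ≤ val rk r w.1 := by
    intro u' v' x w y hlen h1 h2
    refine le_trans ?_ h2
    rw [val_append u', val_append u']
    have : (v' ++ x.1).length = y.1.length := by rw [List.length_append]; omega
    rw [this]
    exact Nat.add_le_add_left h1 _
  have key1 : ∀ w x : WI X c, (S * T) w x ≠ 0 → val rk r (u ++ (v ++ x.1)) ≤ val rk r w.1 := by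
    intro w x hne
    rw [Matrix.mul_apply] at hne
    obtain ⟨y, _, hy⟩ := Finset.exists_ne_zero_of_sum_ne_zero hne
    have h1 := hTH y x (right_ne_zero_of_mul hy)
    simp only [wdeg] at h1
    exact bd u v x w y (by omega) (hv2 y x (right_ne_zero_of_mul hy))
      (hu2 w y (left_ne_zero_of_mul hy))
  have key2 : ∀ w x : WI X c, (T * S) w x ≠ 0 → val rk r (v ++ (u ++ x.1)) ≤ val rk r w.1 := by
    intro w x hne
    rw [Matrix.mul_apply] at hne
    obtain ⟨y, _, hy⟩ := Finset.exists_ne_zero_of_sum_ne_zero hne
    have h1 := hSH y x (right_ne_zero_of_mul hy)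
    simp only [wdeg] at h1
    exact bd v u x w y (by omega) (hu2 y x (right_ne_zero_of_mul hy))
      (hv2 w y (left_ne_zero_of_mul hy))
  have hlt : ∀ x : List X, val rk r (u ++ (v ++ x)) < val rk r (v ++ (u ++ x)) := by
    intro x
    rw [← List.append_assoc, ← List.append_assoc, val_append (u ++ v), val_append (v ++ u)]
    have hr0 : 0 < r ^ x.length := pow_pos (by have := W.hr; omega) _
    exact Nat.add_lt_add_right (Nat.mul_lt_mul_of_pos_right h hr0) _
  refine ⟨S * T - T * S, by simp [hu0], ?_, ?_, ?_⟩
  · have := Lg_brk _ _ _ _ hu1 hv1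
    have e : u.length - 1 + (v.length - 1) + 1 = (u ++ v).length - 1 := by
      rw [List.length_append]; omega
    rwa [e] at this
  · intro w x hne
    rw [List.append_assoc]
    by_cases h1 : (S * T) w x = 0
    · have h2 : (T * S) w x ≠ 0 := by
        intro h2
        rw [Matrix.sub_apply, h1, h2, sub_zero] at hne
        exact hne rfl
      exact ((hlt x.1).trans_le (key2 w x h2)).le
    · exact key1 w x h1
  · intro w x hw hJ2
    rw [List.append_assoc] at hw
    have h2 : (T * S) w x = 0 := by
      by_contra hne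
      have h3 := key2 w x hne
      have h4 := hlt x.1
      rw [hw] at h3
      omega
    have hvx : (v ++ x.1).length ≤ c := by
      have h3 := w.2
      rw [hw, List.length_append] at h3
      omega
    have h1 : (S * T) w x = 1 := by
      rw [Matrix.mul_apply, Finset.sum_eq_single ⟨v ++ x.1, hvx⟩]
      · have h3 : S w ⟨v ++ x.1, hvx⟩ = 1 := by
          refine hu3 w ⟨v ++ x.1, hvx⟩ hw ?_
          intro h4
          refine hJ ⟨h4.1, ?_⟩
          have h5 := h4.2
          cases v with
          | nil => exact absurd rfl hv0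
          | cons z v => simpa using h5
        have h4 : T ⟨v ++ x.1, hvx⟩ x = 1 := by
          refine hv3 ⟨v ++ x.1, hvx⟩ x rfl ?_
          intro h4
          refine hJ2 ⟨?_, h4.2⟩
          rw [List.getLast?_append_of_ne_nil _ hv0]
          exact h4.1
        rw [h3, h4, one_mul]
      · intro y _ hy
        by_contra hne
        have a1 := right_ne_zero_of_mul hne
        have a2 := left_ne_zero_of_mul hne
        have a3 := hTH y x a1
        simp only [wdeg] at a3
        have a4 := hv2 y x a1
        have a5 := hu2 w y a2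
        have a6 : (v ++ x.1).length = y.1.length := by rw [List.length_append]; omega
        rw [hw, val_append u, val_append u, a6] at a5
        have a7 : val rk r y.1 = val rk r (v ++ x.1) := by omega
        exact hy (Subtype.ext (val_inj W.hlt W.hinj _ _ a6.symm a7))
      · intro h'; exact absurd (Finset.mem_univ _) h'
    rw [Matrix.sub_apply, h1, h2, sub_zero]

theorem InO_block (W : WSetup a b s t rk r) {z : X} (hz : z ≠ b) (j : ℕ) (hj : 1 ≤ j → z ≠ a) :
    InO p c a b s t rk r (List.replicate j b ++ [z]) := by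
  induction j with
  | zero => simpa using InO_letter (p := p) (c := c) (a := a) (s := s) (t := t) (rk := rk) (r := r) hz
  | succ j ih =>
    have hza : z ≠ a := hj (by omega)
    have ih' := ih fun _ => hza
    have h1 : List.replicate (j+1) b ++ [z] = [b] ++ (List.replicate j b ++ [z]) := by
      rw [List.replicate_succ]; rfl
    rw [h1]
    refine InO_mul W (InO_b W) ih' ?_ ?_
    · rintro ⟨_, h2⟩
      cases j with
      | zero => simp at h2; exact hza h2
      | succ j =>
        rw [List.replicate_succ] at h2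
        simp at h2
        exact W.hab h2.symm
    · rw [val_append [b], val_append _ [b], val_replicate W.hb]
      simp only [val, W.hb, List.length_nil, List.length_cons]
      simp
      have := W.hpos z hz
      have := W.hr
      nlinarith

def GoodC (p c : ℕ) [Fact p.Prime] (a b : X) (s t : ι → X) (rk : X → ℕ) (r : ℕ) (K : ℕ)
    (u : List X) : Prop :=
  InO p c a b s t rk r u ∧ (∃ u', u = List.replicate K b ++ u') ∧ u.getLast? ≠ some b

theorem GoodC_block (W : WSetup a b s t rk r) {K : ℕ} {u : List X}
    (hu : GoodC p c a b s t rk r K u) {j : ℕ} (hj : j < K) {z : X} (hz : z ≠ b)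
    (hza : 1 ≤ j → z ≠ a) : GoodC p c a b s t rk r K (u ++ (List.replicate j b ++ [z])) := by
  obtain ⟨hu1, ⟨u', rfl⟩, hu3⟩ := hu
  refine ⟨InO_mul W hu1 (InO_block W hz j hza) (fun h => hu3 h.1) ?_,
    ⟨u' ++ (List.replicate j b ++ [z]), by rw [List.append_assoc]⟩, ?_⟩
  · have h1 : val rk r (List.replicate K b ++ u' ++ (List.replicate j b ++ [z])) <
        r ^ (u'.length + (j + 1)) := by
      rw [List.append_assoc, val_replicate W.hb]
      have := val_lt W.hlt (u' ++ (List.replicate j b ++ [z]))
      simpa using this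
    have h2 : val rk r (List.replicate j b ++ [z] ++ (List.replicate K b ++ u')) =
        rk z * r ^ (K + u'.length) + val rk r u' := by
      rw [List.append_assoc, val_replicate W.hb, List.singleton_append, val, val_replicate W.hb,
        List.length_append, List.length_replicate]
    rw [h2]
    have h3 : r ^ (u'.length + (j+1)) ≤ r ^ (K + u'.length) :=
      Nat.pow_le_pow_right (by have := W.hr; omega) (by omega)
    have h4 : 1 * r ^ (K + u'.length) ≤ rk z * r ^ (K + u'.length) :=
      Nat.mul_le_mul_right _ (W.hpos z hz)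
    omega
  · rw [List.getLast?_append_of_ne_nil _ (by simp), List.getLast?_append_of_ne_nil _ (by simp)]
    simpa using hz

/-- words avoiding the factor `b a` -/
def AvW (a b : X) : List X → Prop
  | [] => True
  | x :: l => ¬ (x = b ∧ l.head? = some a) ∧ AvW a b l

theorem GoodC_super (W : WSetup a b s t rk r) {K : ℕ} {z : X} (hz : z ≠ b) (hza : z ≠ a) :
    ∀ (l : List X) (j : ℕ) (u : List X), j + l.length < K → AvW a b l →
      (1 ≤ j → l.head? ≠ some a) → GoodC p c a b s t rk r K u →
      GoodC p c a b s t rk r K (u ++ (List.replicate j b ++ (l ++ [z]))) := by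
  intro l
  induction l with
  | nil =>
    intro j u hj _ _ hu
    exact GoodC_block W hu (by simpa using hj) hz fun _ => hza
  | cons y l ih =>
    intro j u hj hav hja hu
    rw [List.length_cons] at hj
    by_cases hy : y = b
    · subst hy
      have h1 := ih (j+1) u (by omega) hav.2 (fun _ h => hav.1 ⟨rfl, h⟩) hu
      have e : List.replicate j y ++ (y :: l ++ [z]) = List.replicate (j+1) y ++ (l ++ [z]) := by
        rw [List.replicate_succ']; simp
      rw [e]; exact h1
    · have h1 := GoodC_block W hu (show j < K by omega) hy (fun h h' => hja h (by rw [h']; rfl))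
      have h2 := ih 0 _ (by omega) hav.2 (fun h => absurd h (by omega)) h1
      have e : u ++ (List.replicate j b ++ [y]) ++ (List.replicate 0 b ++ (l ++ [z])) =
          u ++ (List.replicate j b ++ (y :: l ++ [z])) := by simp
      rwa [e] at h2

/-- avoiding words of length `n` -/
abbrev SA (a b : X) (n : ℕ) := {l : List X // l.length = n ∧ AvW a b l}

instance SA_finite (a b : X) (n : ℕ) : Finite (SA a b n) :=
  Finite.of_injective (fun l : SA a b n => (⟨l.1, l.2.1.le⟩ : WI X n))
    (fun l l' h => Subtype.ext (congrArg (fun z : WI X n => z.1) h))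

theorem SA_rec (a b : X) (n : ℕ) : Fintype.card X * Nat.card (SA a b (n+1)) ≤
    Nat.card (SA a b (n+2)) + Nat.card (SA a b n) := by
  classical
  rw [← Nat.card_eq_fintype_card (α := X), ← Nat.card_prod, ← Nat.card_sum]
  have hch : ∀ q : X × SA a b (n+1), ∃ y : SA a b (n+2) ⊕ SA a b n,
      (∀ l, y = Sum.inl l → l.1 = q.1 :: q.2.1) ∧
      (∀ l, y = Sum.inr l → q.1 = b ∧ q.2.1 = a :: l.1) := by
    rintro ⟨x, l, hl, hav⟩
    by_cases h : AvW a b (x :: l)
    · refine ⟨Sum.inl ⟨x :: l, by simp [hl], h⟩, ?_, ?_⟩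
      · intro l' h'
        rw [← Sum.inl.inj h']
      · intro l' h'
        cases h'
    · have h2 : x = b ∧ l.head? = some a := by
        by_contra h3
        exact h ⟨h3, hav⟩
      cases l with
      | nil => simp at h2
      | cons z l =>
        have hz : z = a := by simpa using h2.2
        refine ⟨Sum.inr ⟨l, by simpa using hl, hav.2⟩, ?_, ?_⟩
        · intro l' h'
          cases h'
        · intro l' h'
          have e := Sum.inr.inj h'
          subst e
          exact ⟨h2.1, congrArg (· :: l) hz⟩
  choose F hF1 hF2 using hch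
  refine Nat.card_le_card_of_injective F ?_
  rintro ⟨x, l⟩ ⟨x', l'⟩ h
  cases hy : F (x, l) with
  | inl m =>
    have h1 := hF1 (x, l) m hy
    have h2 := hF1 (x', l') m (h ▸ hy)
    simp only at h1 h2
    rw [h1] at h2
    obtain ⟨e1, e2⟩ := List.cons.inj h2
    exact Prod.ext e1 (Subtype.ext e2)
  | inr m =>
    have h1 := hF2 (x, l) m hy
    have h2 := hF2 (x', l') m (h ▸ hy)
    simp only at h1 h2
    exact Prod.ext (h1.1.trans h2.1.symm) (Subtype.ext (h1.2.trans h2.2.symm))

theorem SA_growth (a b : X) (ν : ℝ) (hν : 1 ≤ ν) (h : ν + 1 / ν ≤ Fintype.card X) (n : ℕ) :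
    ν * Nat.card (SA a b n) ≤ Nat.card (SA a b (n+1)) ∧ ν ^ n ≤ Nat.card (SA a b n) := by
  have hν0 : 0 < ν := by linarith
  have h1ν : 0 ≤ 1 / ν := by positivity
  induction n with
  | zero =>
    have hone : Nat.card (SA a b 0) = 1 := by
      rw [Nat.card_eq_one_iff_unique]
      refine ⟨⟨?_⟩, ⟨⟨[], rfl, trivial⟩⟩⟩
      rintro ⟨l, hl, _⟩ ⟨l', hl', _⟩
      apply Subtype.ext
      show l = l'
      rw [List.eq_nil_of_length_eq_zero hl, List.eq_nil_of_length_eq_zero hl']
    have htwo : Fintype.card X ≤ Nat.card (SA a b 1) := by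
      rw [← Nat.card_eq_fintype_card (α := X)]
      refine Nat.card_le_card_of_injective
        (fun x => (⟨[x], rfl, by simp [AvW]⟩ : SA a b 1)) ?_
      intro x y hxy
      have := congrArg (fun z : SA a b 1 => z.1) hxy
      simpa using this
    rw [hone]
    have h3 : (Fintype.card X : ℝ) ≤ Nat.card (SA a b (0+1)) := by exact_mod_cast htwo
    constructor
    · push_cast; linarith
    · simp
  | succ n ih =>
    obtain ⟨i1, i2⟩ := ih
    have h2 : (Fintype.card X : ℝ) * Nat.card (SA a b (n+1)) ≤
        Nat.card (SA a b (n+2)) + Nat.card (SA a b n) := by exact_mod_cast SA_rec a b n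
    have h3 : (Nat.card (SA a b n) : ℝ) ≤ 1 / ν * Nat.card (SA a b (n+1)) := by
      rw [div_mul_eq_mul_div, one_mul, le_div_iff₀ hν0]; linarith
    have h4 : (0:ℝ) ≤ Nat.card (SA a b (n+1)) := by positivity
    have h5 : (ν + 1 / ν) * Nat.card (SA a b (n+1)) ≤
        (Fintype.card X : ℝ) * Nat.card (SA a b (n+1)) := mul_le_mul_of_nonneg_right h h4
    refine ⟨by nlinarith, ?_⟩
    rw [pow_succ]
    have h6 : ν ^ n * ν ≤ Nat.card (SA a b n) * ν := mul_le_mul_of_nonneg_right i2 hν0.le
    linarith

theorem words_existC (p c : ℕ) [Fact p.Prime] (W : WSetup a b s t rk r) (x1 : X) (h1a : x1 ≠ a)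
    (h1b : x1 ≠ b) (K : ℕ) (m : ℕ) :
    ∃ F : Finset (List X), (∀ u ∈ F, GoodC p c a b s t rk r (K+1) u ∧
      u.length = K + 2 + (K+1) * m) ∧
      F.card = (Nat.card (SA a b K) * (Fintype.card X - 2)) ^ m := by
  classical
  haveI : Fintype (SA a b K) := Fintype.ofFinite _
  induction m with
  | zero =>
    refine ⟨{List.replicate (K+1) b ++ [x1]}, ?_, by simp⟩
    intro u hu
    rw [Finset.mem_singleton] at hu
    subst hu
    refine ⟨⟨InO_block W h1b _ fun _ => h1a, ⟨[x1], rfl⟩, ?_⟩, by simp⟩
    rw [List.getLast?_append_of_ne_nil _ (by simp)]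
    simpa using h1b
  | succ m ih =>
    obtain ⟨F, hF, hcard⟩ := ih
    let G : List X × (SA a b K × X) → List X := fun q => q.1 ++ (q.2.1.1 ++ [q.2.2])
    refine ⟨(F ×ˢ ((Finset.univ : Finset (SA a b K)) ×ˢ
      (((Finset.univ : Finset X).erase a).erase b))).image G, ?_, ?_⟩
    · intro u hu
      obtain ⟨⟨q, l, z⟩, hp, rfl⟩ := Finset.mem_image.1 hu
      simp only [Finset.mem_product, Finset.mem_univ, Finset.mem_erase, true_and, and_true] at hp
      have h2 := GoodC_super (p := p) (c := c) W hp.2.1 hp.2.2 l.1 0 q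
        (by rw [l.2.1]; omega) l.2.2 (fun h => absurd h (by omega)) (hF q hp.1).1
      rw [List.replicate_zero, List.nil_append] at h2
      refine ⟨h2, ?_⟩
      simp only [G, List.length_append, l.2.1, List.length_cons, List.length_nil,
        (hF q hp.1).2]
      ring
    · rw [Finset.card_image_of_injOn, Finset.card_product, Finset.card_product, hcard,
        Finset.card_univ, Finset.card_erase_of_mem, Finset.card_erase_of_mem
        (Finset.mem_univ _), Finset.card_univ, pow_succ, Nat.card_eq_fintype_card, Nat.sub_sub]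
      · exact Finset.mem_erase.2 ⟨W.hab.symm, Finset.mem_univ _⟩
      rintro ⟨q, l, z⟩ hp ⟨q', l', z'⟩ hp' h
      simp only [Finset.coe_product, Set.mem_prod, Finset.mem_coe] at hp hp'
      have hlen : q.length = q'.length := by rw [(hF q hp.1).2, (hF q' hp'.1).2]
      have h' : q ++ (l.1 ++ [z]) = q' ++ (l'.1 ++ [z']) := h
      obtain ⟨e1, e2⟩ := List.append_inj h' hlen
      obtain ⟨e3, e4⟩ := List.append_inj e2 (by rw [l.2.1, l'.2.1])
      have e5 : l = l' := Subtype.ext e3
      have e6 : z = z' := by simpa using e4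
      rw [e1, e5, e6]

theorem card_Lg_ge (W : WSetup a b s t rk r) (F : Finset (List X))
    (hF : ∀ u ∈ F, InO p c a b s t rk r u ∧ u.length = c) :
    p ^ F.card ≤ Nat.card (Lg (opW p c a b s t) (c-1)) := by
  classical
  have hch : ∀ u : F, ∃ T, LeadO p c a b s t rk r u.1 T := fun u => (hF u.1 u.2).1
  choose T hT using hch
  have hmem : ∀ u, T u ∈ Lg (opW p c a b s t) (c-1) := by
    intro u
    have := (hT u).2.1
    rwa [(hF u.1 u.2).2] at this
  let G : (F → ZMod p) → Lg (opW p c a b s t) (c-1) := fun α =>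
    ⟨∑ u, α u • T u, Submodule.sum_mem _ fun u _ => Submodule.smul_mem _ _ (hmem u)⟩
  have hG : Function.Injective G := by
    intro α β h
    have h0 : ∑ u, α u • T u = ∑ u, β u • T u := congrArg Subtype.val h
    have h1 : ∑ u, (α u - β u) • T u = 0 := by
      simp only [sub_smul, Finset.sum_sub_distrib]
      rw [h0, sub_self]
    by_contra hne
    have hD : ((Finset.univ : Finset F).filter fun u => α u - β u ≠ 0).Nonempty := by
      by_contra hemp
      rw [Finset.not_nonempty_iff_eq_empty, Finset.filter_eq_empty_iff] at hemp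
      apply hne
      funext u
      have := hemp (Finset.mem_univ u)
      push Not at this
      exact sub_eq_zero.1 this
    obtain ⟨u0, hu0, hmin⟩ := Finset.exists_min_image _ (fun u : F => val rk r u.1) hD
    rw [Finset.mem_filter] at hu0
    have hlen := (hF u0.1 u0.2).2
    let w : WI X c := ⟨u0.1, hlen.le⟩
    let e : WI X c := ⟨[], Nat.zero_le _⟩
    have h2 : (∑ u, (α u - β u) • T u) w e = 0 := by rw [h1]; rfl
    rw [Matrix.sum_apply, Finset.sum_eq_single u0] at h2
    · have h3 : T u0 w e = 1 := (hT u0).2.2.2 w e (by simp [w, e]) (by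
        rintro ⟨_, h4⟩
        simp [e] at h4)
      rw [Matrix.smul_apply, h3, smul_eq_mul, mul_one] at h2
      exact hu0.2 h2
    · intro u _ hu
      rw [Matrix.smul_apply, smul_eq_mul]
      by_cases h3 : α u - β u = 0
      · rw [h3, zero_mul]
      · have h4 := hmin u (Finset.mem_filter.2 ⟨Finset.mem_univ _, h3⟩)
        by_cases h5 : T u w e = 0
        · rw [h5, mul_zero]
        · have h6 := (hT u).2.2.1 w e h5
          simp only [w, e, List.append_nil] at h6
          have h7 := val_inj W.hlt W.hinj u.1 u0.1 (by rw [hlen, (hF u.1 u.2).2])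
            (le_antisymm h6 h4)
          exact absurd (Subtype.ext h7) hu
    · intro h'; exact absurd (Finset.mem_univ _) h'
  have h1 := Nat.card_le_card_of_injective G hG
  rw [Nat.card_fun, Nat.card_zmod, Nat.card_eq_fintype_card, Fintype.card_coe] at h1
  exact h1

end leadC

end H94Simple
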