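import Pool.Agent.H94.SccX
import Pool.Agent.H94.SccS

open scoped commutatorElement IsMulCommutative

namespace H94Simple

section layer

variable {Q : Type*} [Group Q] [Finite Q] {J : Type*} [Fintype J]

theorem rel_step (s : J → Q) (hs : Subgroup.closure (Set.range s) ⊔ lcs Q 1 = ⊤) (n : ℕ) :
    (lcs Q (n+2)).relIndex (lcs Q (n+1)) ≤
      ((lcs Q (n+1)).relIndex (lcs Q n)) ^ Fintype.card J := by
  have e : (lcs Q (n+2)).relIndex (lcs Q (n+1)) =
      Nat.card (lcs Q (n+1) ⧸ (lcs Q (n+2)).subgroupOf (lcs Q (n+1))) := rfl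
  have e2 : ((lcs Q (n+1)).relIndex (lcs Q n)) ^ Fintype.card J =
      Nat.card (J → lcs Q n ⧸ (lcs Q (n+1)).subgroupOf (lcs Q n)) := by
    rw [Nat.card_fun, Nat.card_eq_fintype_card (α := J)]; rfl
  rw [e, e2]
  have h2 : ∀ τ : lcs Q (n+1) ⧸ (lcs Q (n+2)).subgroupOf (lcs Q (n+1)), ∃ u : J → lcs Q n,
      ((Theta n s u : Subgroup.center (Q ⧸ lcs Q (n+2))) : Q ⧸ lcs Q (n+2)) =
        pr Q (n+2) ((Quotient.out τ : lcs Q (n+1)) : Q) := fun τ =>
    Theta_surj n s hs _ (Quotient.out τ : lcs Q (n+1)).2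
  choose u hu using h2
  have hcen : ∀ (t : Q) (x y : lcs Q n),
      (QuotientGroup.mk x : lcs Q n ⧸ (lcs Q (n+1)).subgroupOf (lcs Q n)) = QuotientGroup.mk y →
      cen n t x = cen n t y := by
    intro t x y hxy
    rw [QuotientGroup.eq, Subgroup.mem_subgroupOf] at hxy
    have h4 : cen n t (x⁻¹ * y) = 1 := by
      apply Subtype.ext
      rw [cen_coe]
      refine (pr_eq_one _ _).2 ?_
      rw [lcs_succ]
      exact Subgroup.commutator_mem_commutator hxy (Subgroup.mem_top _)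
    rw [map_mul, map_inv, inv_mul_eq_one] at h4
    exact h4
  refine Nat.card_le_card_of_injective
    (fun τ j => (QuotientGroup.mk (u τ j) : lcs Q n ⧸ (lcs Q (n+1)).subgroupOf (lcs Q n))) ?_
  intro τ τ' h
  have h5 : Theta n s (u τ) = Theta n s (u τ') := by
    rw [Theta_apply, Theta_apply]
    exact Finset.prod_congr rfl fun j _ => hcen _ _ _ (congrFun h j)
  have h6 : pr Q (n+2) ((Quotient.out τ : lcs Q (n+1)) : Q) =
      pr Q (n+2) ((Quotient.out τ' : lcs Q (n+1)) : Q) := by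
    rw [← hu, ← hu, h5]
  rw [← QuotientGroup.out_eq' τ, ← QuotientGroup.out_eq' τ', QuotientGroup.eq,
    Subgroup.mem_subgroupOf]
  exact (pr_eq _ _ _).1 h6

theorem index_step (s : J → Q) (hs : Subgroup.closure (Set.range s) ⊔ lcs Q 1 = ⊤) (n : ℕ) :
    (lcs Q (n+2)).index * (lcs Q n).index ^ Fintype.card J ≤
      (lcs Q (n+1)).index ^ (Fintype.card J + 1) := by
  have h1 := Subgroup.relIndex_mul_index (lcs_anti' (G := Q) (Nat.le_succ (n+1)))
  have h2 := Subgroup.relIndex_mul_index (lcs_anti' (G := Q) (Nat.le_succ n))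
  have h3 := rel_step s hs n
  have h1' : (lcs Q (n+2)).relIndex (lcs Q (n+1)) * (lcs Q (n+1)).index = (lcs Q (n+2)).index := h1
  have h2' : (lcs Q (n+1)).relIndex (lcs Q n) * (lcs Q n).index = (lcs Q (n+1)).index := h2
  rw [← h1']
  calc (lcs Q (n+2)).relIndex (lcs Q (n+1)) * (lcs Q (n+1)).index *
        (lcs Q n).index ^ Fintype.card J
      ≤ ((lcs Q (n+1)).relIndex (lcs Q n)) ^ Fintype.card J * (lcs Q (n+1)).index *
        (lcs Q n).index ^ Fintype.card J := by gcongr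
    _ = (((lcs Q (n+1)).relIndex (lcs Q n)) * (lcs Q n).index) ^ Fintype.card J *
        (lcs Q (n+1)).index := by rw [mul_pow]; ring
    _ = _ := by rw [h2', pow_succ]

end layer

section orbits

variable {Q : Type*} [Group Q] {g : ℕ}

def cj (m : ℕ) (x : Q) (d : Idx g 0 → Q ⧸ lcs Q m) : Idx g 0 → Q ⧸ lcs Q m :=
  fun j => pr Q m x * d j * (pr Q m x)⁻¹

theorem cj_one (m : ℕ) (d : Idx g 0 → Q ⧸ lcs Q m) : cj m 1 d = d := by
  funext j; simp [cj]

theorem cj_mul (m : ℕ) (x y : Q) (d : Idx g 0 → Q ⧸ lcs Q m) :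
    cj m (x * y) d = cj m x (cj m y d) := by
  funext j
  simp only [cj, map_mul, mul_inv_rev, mul_assoc]

def el0 (Q : Type*) : Fin 0 → Q := fun j => j.elim0

theorem el0_eq {Q : Type*} (f : Fin 0 → Q) : f = el0 Q := funext fun j => j.elim0

def DC (Q : Type*) [Group Q] (g m : ℕ) : Set (Idx g 0 → Q ⧸ lcs Q m) :=
  DD (1 : Q) (el0 Q) m

theorem DC_cj {m : ℕ} (x : Q) {d : Idx g 0 → Q ⧸ lcs Q m} (hd : d ∈ DC Q g m) :
    cj m x d ∈ DC Q g m := by
  obtain ⟨v, ⟨h1, h2⟩, rfl⟩ := hd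
  refine ⟨fun j => x * v j * x⁻¹, ⟨?_, ?_⟩, ?_⟩
  · refine gen_congr (dd_congr _ fun j => ?_) h1
    rw [pr_eq]
    have e : (v j)⁻¹ * (x * v j * x⁻¹) = ⁅(v j)⁻¹, x⁆ := by
      simp only [commutatorElement_def]; group
    rw [e, lcs_succ]
    exact Subgroup.commutator_mem_commutator (Subgroup.mem_top _) (Subgroup.mem_top _)
  · have h3 := Rel_map (MulAut.conj x).toMonoidHom (1 : Q) (el0 Q) v
    rw [map_one, el0_eq (fun j => (MulAut.conj x).toMonoidHom (el0 Q j))] at h3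
    have h4 : Rel (1 : Q) (el0 Q) (fun j => x * v j * x⁻¹) = x * Rel (1 : Q) (el0 Q) v * x⁻¹ :=
      h3.symm
    rw [h4]
    exact (lcs_normal (m+1)).conj_mem _ h2 x
  · funext j
    simp only [cj, map_mul, map_inv]

def csetoid (Q : Type*) [Group Q] (g m : ℕ) : Setoid (DC Q g m) where
  r d d' := ∃ x : Q, d'.1 = cj m x d.1
  iseqv :=
    ⟨fun d => ⟨1, (cj_one m d.1).symm⟩,
     fun {d d'} h => by
      obtain ⟨x, hx⟩ := h
      exact ⟨x⁻¹, by rw [hx, ← cj_mul, inv_mul_cancel, cj_one]⟩,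
     fun {d d' d''} h h' => by
      obtain ⟨x, hx⟩ := h
      obtain ⟨y, hy⟩ := h'
      exact ⟨y * x, by rw [hy, hx, cj_mul]⟩⟩

theorem orb_card [Finite Q] {c m : ℕ} (hc : lcs Q c = ⊥)
    (hcen : ∀ m, m + 1 ≤ c → ∀ x : Q, (∀ y, ⁅x, y⁆ ∈ lcs Q (m+1)) → x ∈ lcs Q m)
    (hm : m + 1 ≤ c) :
    Nat.card (Quotient (csetoid Q g (m+1))) * (lcs Q m).index ≤ Nat.card (DC Q g (m+1)) := by
  have e : (lcs Q m).index = Nat.card (Q ⧸ lcs Q m) := rfl
  rw [e, ← Nat.card_prod]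
  let F : Quotient (csetoid Q g (m+1)) × (Q ⧸ lcs Q m) → DC Q g (m+1) := fun q =>
    ⟨cj (m+1) (Quotient.out q.2) (Quotient.out q.1).1, DC_cj _ (Quotient.out q.1).2⟩
  refine Nat.card_le_card_of_injective F ?_
  rintro ⟨o, q⟩ ⟨o', q'⟩ h
  have h0 : cj (m+1) (Quotient.out q) (Quotient.out o).1 =
    cj (m+1) (Quotient.out q') (Quotient.out o').1 := congrArg Subtype.val h
  have h1 : o = o' := by
    rw [← Quotient.out_eq o, ← Quotient.out_eq o']
    apply Quotient.sound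
    refine ⟨(Quotient.out q')⁻¹ * Quotient.out q, ?_⟩
    rw [cj_mul, h0, ← cj_mul, inv_mul_cancel, cj_one]
  subst h1
  obtain ⟨v, ⟨hv1, hv2⟩, hv3⟩ := (Quotient.out o).2
  rw [← hv3] at h0
  set z : Q := (Quotient.out q)⁻¹ * Quotient.out q' with hz
  let H : Subgroup Q := (Subgroup.centralizer {pr Q (m+1) z}).comap (pr Q (m+1))
  have hvH : ∀ j, v j ∈ H := by
    intro j
    have h2 : pr Q (m+1) (Quotient.out q) * pr Q (m+1) (v j) * (pr Q (m+1) (Quotient.out q))⁻¹ =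
      pr Q (m+1) (Quotient.out q') * pr Q (m+1) (v j) * (pr Q (m+1) (Quotient.out q'))⁻¹ :=
      congrFun h0 j
    show pr Q (m+1) (v j) ∈ Subgroup.centralizer {pr Q (m+1) z}
    rw [Subgroup.mem_centralizer_iff]
    intro y hy
    rw [Set.mem_singleton_iff.1 hy, hz, map_mul, map_inv]
    generalize pr Q (m+1) (Quotient.out q) = a at h2 ⊢
    generalize pr Q (m+1) (Quotient.out q') = b at h2 ⊢
    generalize pr Q (m+1) (v j) = w at h2 ⊢
    calc a⁻¹ * b * w = a⁻¹ * (b * w * b⁻¹) * b := by group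
      _ = a⁻¹ * (a * w * a⁻¹) * b := by rw [h2]
      _ = w * (a⁻¹ * b) := by group
  have hH : H = ⊤ := by
    refine top_of_nilp hc H ?_
    rw [eq_top_iff, ← hv1]
    refine sup_le_sup_right ?_ _
    rw [Subgroup.closure_le]
    rintro _ ⟨j, rfl⟩
    rcases j with i | i | i
    · exact hvH _
    · exact inv_mem (hvH _)
    · exact i.elim0
  have hz2 : z ∈ lcs Q m := by
    refine hcen m hm z fun y => ?_
    have h3 : y ∈ H := by rw [hH]; exact Subgroup.mem_top _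
    have h4 : pr Q (m+1) y ∈ Subgroup.centralizer {pr Q (m+1) z} := h3
    rw [Subgroup.mem_centralizer_iff] at h4
    have h5 := h4 _ (Set.mem_singleton _)
    rw [← pr_eq_one, map_commutatorElement, commutatorElement_eq_one_iff_mul_comm]
    exact h5
  have h6 : q = q' := by
    rw [← QuotientGroup.out_eq' q, ← QuotientGroup.out_eq' q', QuotientGroup.eq]
    exact hz2
  rw [h6]

def WqC (m : ℕ) (d : Idx g 0 → Q ⧸ lcs Q m) (τ : Typ g 0) (s : Bool) : Q ⧸ lcs Q m :=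
  if s then Wd 1 (el0 _) d τ else (Wd 1 (el0 _) d τ)⁻¹

def CR (Q : Type*) [Group Q] (g m : ℕ) : Set (Q ⧸ lcs Q m) :=
  {q | ∃ (o : Quotient (csetoid Q g m)) (τ : Typ g 0) (s : Bool),
    q = WqC m (Quotient.out o).1 τ s}

theorem Wd_cj (m : ℕ) (x : Q) (d : Idx g 0 → Q ⧸ lcs Q m) (τ : Typ g 0) :
    Wd 1 (el0 _) (cj m x d) τ = pr Q m x * Wd 1 (el0 _) d τ * (pr Q m x)⁻¹ := by
  have h := Wd_map (MulAut.conj (pr Q m x)).toMonoidHom (1 : Q ⧸ lcs Q m) (el0 _) d τ
  rw [map_one, el0_eq (fun j => (MulAut.conj (pr Q m x)).toMonoidHom (el0 (Q ⧸ lcs Q m) j))] at h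
  exact h.symm

theorem CR_simple (π : Surf g 0 →* Q) (hπ : Function.Surjective π) (m : ℕ)
    {s : Surf g 0} (hs : s ∈ simple g 0) :
    ∃ w, ∃ c ∈ CR Q g m, pr Q m (π s) = w * c * w⁻¹ := by
  obtain ⟨φ, _, h⟩ := hs
  let ψ : Surf g 0 →* Q := π.comp φ.toMonoidHom
  have hψ : Function.Surjective ψ := hπ.comp φ.surjective
  let v : Idx g 0 → Q := fun j => match j with
    | Sum.inl i => ψ (A i)
    | Sum.inr (Sum.inl i) => ψ (B i)
    | Sum.inr (Sum.inr j) => j.elim0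
  have hrel : (List.ofFn fun i : Fin g => ⁅ψ (A i), ψ (B i)⁆).prod = 1 := by
    have := congrArg ψ (relation (g := g) (b := 0))
    rw [List.ofFn_zero, List.prod_nil, mul_one, map_one, map_list_prod, List.map_ofFn] at this
    rw [← this]
    congr 2
    funext i
    simp only [Function.comp]
    rw [map_commutatorElement]
  have hR : Rel (1 : Q) (el0 Q) v = 1 := by
    rw [Rel, List.ofFn_zero, List.prod_nil, mul_one, mul_one]
    exact hrel
  have hgen : Subgroup.closure (Set.range (dd (el0 Q) v)) ⊔ lcs Q 1 = ⊤ := by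
    set T := Subgroup.closure (Set.range (dd (el0 Q) v)) ⊔ lcs Q 1 with hT
    have hmem : ∀ j, dd (el0 Q) v j ∈ T := fun j =>
      Subgroup.mem_sup_left (Subgroup.subset_closure ⟨j, rfl⟩)
    have hAm : ∀ i, (A i : Surf g 0) ∈ T.comap ψ := by
      intro i
      have h1 := inv_mem (hmem (Sum.inr (Sum.inl i)))
      have e : (dd (el0 Q) v (Sum.inr (Sum.inl i)))⁻¹ = ψ (A i) := by
        simp only [dd, v]; rw [inv_inv]
      rw [e] at h1
      exact h1
    have hBm : ∀ i, (B i : Surf g 0) ∈ T.comap ψ := fun i => hmem (Sum.inl i)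
    have htop := closure_gens _ hAm hBm (fun j => j.elim0)
    rw [eq_top_iff]
    intro z _
    obtain ⟨y, rfl⟩ := hψ z
    have hy : y ∈ T.comap ψ := by rw [htop]; exact Subgroup.mem_top _
    exact hy
  have hd : (fun j => pr Q m (v j)) ∈ DC Q g m :=
    ⟨v, ⟨hgen, by rw [hR]; exact one_mem _⟩, rfl⟩
  let o : Quotient (csetoid Q g m) := Quotient.mk _ ⟨fun j => pr Q m (v j), hd⟩
  obtain ⟨x, hx⟩ : ∃ x : Q, (fun j => pr Q m (v j)) = cj m x (Quotient.out o).1 :=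
    Quotient.mk_out (s := csetoid Q g m) (⟨fun j => pr Q m (v j), hd⟩ : DC Q g m)
  have hW : ∀ τ, Wd 1 (el0 _) (fun j => pr Q m (v j)) τ =
      pr Q m x * Wd 1 (el0 _) (Quotient.out o).1 τ * (pr Q m x)⁻¹ := by
    intro τ; rw [hx, Wd_cj]
  have key : ∀ (τ : Typ g 0) (t : Surf g 0), pr Q m (π t) = Wd 1 (el0 _) (fun j => pr Q m (v j)) τ →
      (s = t ∨ s = t⁻¹) → ∃ w, ∃ c ∈ CR Q g m, pr Q m (π s) = w * c * w⁻¹ := by
    intro τ t ht hst
    refine ⟨pr Q m x, ?_⟩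
    rcases hst with rfl | rfl
    · refine ⟨_, ⟨o, τ, true, rfl⟩, ?_⟩
      rw [ht, hW]; rfl
    · refine ⟨_, ⟨o, τ, false, rfl⟩, ?_⟩
      rw [map_inv, map_inv, ht, hW]
      simp only [WqC, Bool.false_eq_true, if_false, mul_inv_rev, inv_inv, mul_assoc]
  rcases h with ⟨i, h⟩ | ⟨h, k, hh, hk, h'⟩
  · exact key (Sum.inl i) _ rfl h
  · refine key (Sum.inr (⟨h, by omega⟩, ⟨0, by omega⟩)) _ ?_ h'
    have e1 : pr Q m (π (φ (sep g 0 h k))) =
        (List.ofFn fun i : Fin g => if g ≤ (i : ℕ) + h then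
          ⁅pr Q m (v (Sum.inl i)), pr Q m (v (Sum.inr (Sum.inl i)))⁆ else 1).prod := by
      have e0 : π (φ (sep g 0 h k)) = ψ (sep g 0 h k) := rfl
      rw [e0, sep, List.ofFn_zero, List.prod_nil, mul_one, map_list_prod, map_list_prod,
        List.map_ofFn, List.map_ofFn]
      congr 2
      funext i
      simp only [Function.comp]
      split_ifs
      · rw [map_commutatorElement, map_commutatorElement]
      · rw [map_one, map_one]
    rw [e1]
    simp [Wd]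

/-- the number of types -/
noncomputable def kapC (g : ℕ) : ℕ := Nat.card (Typ g 0 × Bool)

theorem kapC_pos (g : ℕ) : 0 < kapC g := by
  unfold kapC
  have : Nonempty (Typ g 0 × Bool) := ⟨Sum.inr (0, 0), true⟩
  exact Nat.card_pos

theorem CR_card [Finite Q] (m : ℕ) :
    Nat.card (CR Q g m) ≤ kapC g * Nat.card (Quotient (csetoid Q g m)) := by
  let F : (Typ g 0 × Bool) × Quotient (csetoid Q g m) → CR Q g m := fun y =>
    ⟨WqC m (Quotient.out y.2).1 y.1.1 y.1.2, ⟨y.2, y.1.1, y.1.2, rfl⟩⟩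
  have hF : Function.Surjective F := by
    rintro ⟨q, o, τ, s, rfl⟩
    exact ⟨⟨(τ, s), o⟩, rfl⟩
  have h := Nat.card_le_card_of_surjective F hF
  rw [Nat.card_prod] at h
  exact h

theorem main_ineqC [Finite Q] (π : Surf g 0 →* Q) (hπ : Function.Surjective π) {c : ℕ}
    (hc : lcs Q c = ⊥)
    (hcen : ∀ m, m + 1 ≤ c → ∀ x : Q, (∀ y, ⁅x, y⁆ ∈ lcs Q (m+1)) → x ∈ lcs Q m)
    (k : ℕ) (hk : Fintype.card (Idx g 0) = k + 1)
    (hd : ∀ m, dia (simple g 0) m ≤ ((k + 1 : ℕ) : ℕ∞)) (n : ℕ) (hn : n + 2 ≤ c) :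
    (lcs Q (n+2)).index * ((lcs Q (n+3)).index * (lcs Q (n+1)).index) ^ (k+1) ≤
      (kapC g) ^ (k+1) * ((lcs Q (n+2)).index ^ (k+1) * (lcs Q 2).index) ^ (k+1) *
        ((lcs Q (n+1)).index ^ k * (lcs Q n).index) * (lcs Q 1).index := by
  have hO : Nat.card (Quotient (csetoid Q g (n+2))) * ((lcs Q (n+3)).index * (lcs Q (n+1)).index) ≤
      (lcs Q (n+2)).index ^ (k+1) * (lcs Q 2).index := by
    have h1 := orb_card (g := g) hc hcen (show (n+1)+1 ≤ c by omega)
    have h2 := DD_bound (g := g) (1 : Q) (el0 Q) (n+1)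
    rw [hk] at h2
    calc Nat.card (Quotient (csetoid Q g (n+2))) * ((lcs Q (n+3)).index * (lcs Q (n+1)).index)
        = (Nat.card (Quotient (csetoid Q g (n+1+1))) * (lcs Q (n+1)).index) *
          (lcs Q (n+1+2)).index := by ring
      _ ≤ Nat.card (DC Q g (n+1+1)) * (lcs Q (n+1+2)).index := Nat.mul_le_mul_right _ h1
      _ ≤ _ := h2
  have hCC := CR_card (Q := Q) (g := g) (n+2)
  haveI : ((lcs Q 1).map (pr Q (n+2))).Normal :=
    Subgroup.Normal.map inferInstance _ (pr_surj _)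
  have hcc := cover_count ((lcs Q (n+1)).map (pr Q (n+2))) ((lcs Q n).map (pr Q (n+2)))
    ((lcs Q 1).map (pr Q (n+2))) (by
      rintro _ ⟨z, hz, rfl⟩
      rw [Subgroup.mem_center_iff]
      intro q
      obtain ⟨y, rfl⟩ := pr_surj _ q
      rw [← commutatorElement_eq_one_iff_mul_comm, ← map_commutatorElement, pr_eq_one,
        ← inv_mem_iff, commutatorElement_inv]
      rw [lcs_succ]
      exact Subgroup.commutator_mem_commutator hz (Subgroup.mem_top _)) (by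
      rintro _ ⟨z, hz, rfl⟩ _ ⟨y, hy, rfl⟩
      rw [← commutatorElement_eq_one_iff_mul_comm, ← map_commutatorElement, pr_eq_one]
      exact comm_lcs_one n hz hy) (CR Q g (n+2)) k (by
      rintro _ ⟨y, hy, rfl⟩
      obtain ⟨x, rfl⟩ := hπ y
      obtain ⟨f, hf1, hf2⟩ := exists_fun (hd (n+2)) x
      have h1 : ∀ i, ∃ w, ∃ c ∈ CR Q g (n+2), pr Q (n+2) (π (f i)) = w * c * w⁻¹ := fun i =>
        CR_simple π hπ (n+2) (hf1 i)
      choose w c hc hw using h1
      refine ⟨w, c, hc, ?_⟩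
      have h2 : pr Q (n+2) (π (List.ofFn f).prod) = pr Q (n+2) (π x) := by
        rw [pr_eq, ← map_inv, ← map_mul]
        exact lcs_map π _ _ ((pr_eq _ _ _).1 hf2)
      rw [← h2, map_list_prod, map_list_prod, List.map_ofFn, List.map_ofFn]
      congr 2
      funext i
      exact hw i)
  have hker : ∀ m, m ≤ n + 2 → (pr Q (n+2)).ker ≤ lcs Q m := by
    intro m hm z hz
    exact lcs_anti' hm ((pr_eq_one _ _).1 hz)
  rw [Subgroup.index_map_eq _ (pr_surj _) (hker _ (by omega)),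
    Subgroup.index_map_eq _ (pr_surj _) (hker _ (by omega))] at hcc
  have hcard : Nat.card ((lcs Q 1).map (pr Q (n+2))) * (lcs Q 1).index = (lcs Q (n+2)).index := by
    have := ((lcs Q 1).map (pr Q (n+2))).card_mul_index
    rw [Subgroup.index_map_eq _ (pr_surj _) (hker _ (by omega))] at this
    exact this
  have h5 : Nat.card (CR Q g (n+2)) ^ (k+1) * ((lcs Q (n+3)).index * (lcs Q (n+1)).index) ^ (k+1) ≤
      (kapC g) ^ (k+1) * ((lcs Q (n+2)).index ^ (k+1) * (lcs Q 2).index) ^ (k+1) := by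
    rw [← mul_pow, ← mul_pow]
    refine Nat.pow_le_pow_left ?_ _
    calc Nat.card (CR Q g (n+2)) * ((lcs Q (n+3)).index * (lcs Q (n+1)).index)
        ≤ kapC g * Nat.card (Quotient (csetoid Q g (n+2))) *
          ((lcs Q (n+3)).index * (lcs Q (n+1)).index) := Nat.mul_le_mul_right _ hCC
      _ = kapC g * (Nat.card (Quotient (csetoid Q g (n+2))) *
          ((lcs Q (n+3)).index * (lcs Q (n+1)).index)) := by ring
      _ ≤ kapC g * ((lcs Q (n+2)).index ^ (k+1) * (lcs Q 2).index) :=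
        Nat.mul_le_mul_left _ hO
  calc (lcs Q (n+2)).index * ((lcs Q (n+3)).index * (lcs Q (n+1)).index) ^ (k+1)
      = Nat.card ((lcs Q 1).map (pr Q (n+2))) * (lcs Q 1).index *
        ((lcs Q (n+3)).index * (lcs Q (n+1)).index) ^ (k+1) := by
        rw [hcard]
    _ ≤ (Nat.card (CR Q g (n+2)) ^ (k+1) * ((lcs Q (n+1)).index ^ k * (lcs Q n).index)) *
        (lcs Q 1).index * ((lcs Q (n+3)).index * (lcs Q (n+1)).index) ^ (k+1) := by gcongr
    _ = (Nat.card (CR Q g (n+2)) ^ (k+1) *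
        ((lcs Q (n+3)).index * (lcs Q (n+1)).index) ^ (k+1)) *
        ((lcs Q (n+1)).index ^ k * (lcs Q n).index) * (lcs Q 1).index := by ring
    _ ≤ _ := by gcongr

end orbits

end H94Simple
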