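import Pool.Agent.H94.SccY

open scoped commutatorElement IsMulCommutative

namespace H94Simple

section numerics

theorem mu_ge (r : ℝ) (hr : 4 ≤ r) : 2 ≤ (r^4 - r^2 + 1) / (r^3 + 1) := by
  have h0 : 0 < r^3 + 1 := by positivity
  rw [le_div_iff₀ h0]
  have h1 : 0 ≤ r^2 * (r * (r - 2) - 1) - 1 := by
    have h2 : 7 ≤ r * (r - 2) - 1 := by nlinarith
    have h3 : 16 ≤ r^2 := by nlinarith
    nlinarith
  nlinarith

theorem nu_exists (r : ℝ) (hr : 4 ≤ r) : ∃ ν : ℝ, (r^4 - r^2 + 1) / (r^3 + 1) < ν ∧ 1 ≤ ν ∧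
    ν + 1 / ν ≤ r := by
  have hr0 : 0 < r := by linarith
  have h0 : 0 < r^3 + 1 := by positivity
  have h1 : 0 < r^3 := by positivity
  have h16 : 16 ≤ r^2 := by nlinarith
  set ν : ℝ := (r^4 - r^2 - 2) / r^3 with hν
  have hlt : (r^4 - r^2 + 1) / (r^3 + 1) < ν := by
    rw [hν, div_lt_div_iff₀ h0 h1]
    have e : (r^4 - r^2 - 2) * (r^3 + 1) - (r^4 - r^2 + 1) * r^3 =
        r^3 * (r - 3) - r^2 - 2 := by ring
    have h2 : r^3 * 1 ≤ r^3 * (r - 3) := mul_le_mul_of_nonneg_left (by linarith) h1.le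
    have h3 : r^2 * 4 ≤ r^3 := by
      have : r^3 = r^2 * r := by ring
      rw [this]; exact mul_le_mul_of_nonneg_left hr (by positivity)
    nlinarith
  have h2 := mu_ge r hr
  have hν1 : 1 ≤ ν := by linarith
  have hν0 : 0 < ν := by linarith
  refine ⟨ν, hlt, hν1, ?_⟩
  have h3 : 1 ≤ ν * (r - ν) := by
    have e : ν * (r - ν) = (r^6 + (r^2 * (r^2 - 4) - 4)) / r^6 := by
      rw [hν]; field_simp; ring
    rw [e, le_div_iff₀ (by positivity)]
    have : 0 ≤ r^2 * (r^2 - 4) - 4 := by nlinarith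
    linarith
  have h4 : 1 / ν ≤ r - ν := by
    rw [div_le_iff₀ hν0]; linarith
  linarith

theorem closed_rec (r : ℝ) (hr : 4 ≤ r) (c : ℕ) (q : ℕ → ℝ) (B : ℝ) (hB : 0 ≤ B)
    (h0 : q 0 = 0) (h1 : q 1 ≤ B) (h2 : q 2 ≤ B)
    (hrec : ∀ n, n + 2 ≤ c → r * q (n+3) + q (n+1) ≤ (r^2-1) * q (n+2) + q n + B)
    (hlay : ∀ n, q (n+2) - q (n+1) ≤ r * (q (n+1) - q n)) :
    ∀ n, n ≤ c → q n + B ≤ 2 * B * ((r^4 - r^2+1)/(r^3+1)) ^ n := by
  set μ := (r^4 - r^2+1)/(r^3+1) with hμ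
  have hμ2 : 2 ≤ μ := mu_ge r hr
  have hμ0 : 0 < μ := by linarith
  have h3 : 0 < r^3 + 1 := by positivity
  have hμe : (r^3 + 1) * μ = r^4 - r^2 + 1 := by rw [hμ]; field_simp
  have hpow : ∀ n : ℕ, 1 ≤ μ ^ n := fun n => one_le_pow₀ (by linarith)
  have hstep : ∀ n, n + 2 ≤ c → q (n+3) ≤ μ * q (n+2) + B := by
    intro n hn
    have a1 := hrec n hn
    have a2 := hlay (n+1)
    have a3 := hlay n
    have a4 : q (n+3) - q (n+2) ≤ r^2 * (q (n+1) - q n) := by
      have := mul_le_mul_of_nonneg_left a3 (show 0 ≤ r by linarith)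
      have e : r * (r * (q (n+1) - q n)) = r^2 * (q (n+1) - q n) := by ring
      have a2' : q (n+3) - q (n+2) ≤ r * (q (n+2) - q (n+1)) := a2
      linarith
    have a5 := mul_le_mul_of_nonneg_left a1 (show 0 ≤ r^2 by positivity)
    have a6 : (r^3+1) * q (n+3) ≤ (r^3+1) * (μ * q (n+2) + B) := by
      have e : (r^3+1) * (μ * q (n+2) + B) = (r^4 - r^2 + 1) * q (n+2) + (r^3+1) * B := by
        rw [← hμe]; ring
      rw [e]
      have a7 : r^2 * B ≤ (r^3+1) * B := by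
        apply mul_le_mul_of_nonneg_right _ hB
        nlinarith [sq_nonneg r]
      nlinarith
    exact le_of_mul_le_mul_left a6 h3
  intro n
  induction n with
  | zero => intro _; rw [h0, pow_zero]; linarith
  | succ n ih =>
    intro hn
    have ih' := ih (by omega)
    have hb : 2 * B ≤ 2 * B * μ ^ (n+1) := by
      have := mul_le_mul_of_nonneg_left (hpow (n+1)) (show 0 ≤ 2 * B by linarith)
      linarith
    rcases n with _ | _ | n
    · simp only [zero_add] at hb ⊢; linarith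
    · simp only [zero_add] at hb ⊢
      have : q (1+1) = q 2 := rfl
      rw [this]; linarith
    · have a1 := hstep n (by omega)
      have a2 : q (n+1+1) = q (n+2) := rfl
      have a3 : q (n+1+1+1) = q (n+3) := rfl
      rw [a2] at ih'
      rw [a3, pow_succ]
      have a4 := mul_le_mul_of_nonneg_left ih' hμ0.le
      have a5 : 2 * B ≤ μ * B := mul_le_mul_of_nonneg_right hμ2 hB
      nlinarith

theorem log_recC (k : ℕ) (hk : 3 ≤ k) (K : ℕ) (hK : 0 < K) (c : ℕ) (i : ℕ → ℕ)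
    (hi : ∀ n, 0 < i n) (hi0 : i 0 = 1)
    (h : ∀ n, n + 2 ≤ c → i (n+2) * (i (n+3) * i (n+1)) ^ (k+1) ≤
      K ^ (k+1) * (i (n+2) ^ (k+1) * i 2) ^ (k+1) * (i (n+1) ^ k * i n) * i 1)
    (hl : ∀ n, i (n+2) * i n ^ (k+1) ≤ i (n+1) ^ (k+1+1)) (n : ℕ) (hn : n ≤ c) :
    Real.log (i n) ≤ 2 * (((k:ℝ)+1) * Real.log K + ((k:ℝ)+1) * Real.log (i 2) + Real.log (i 1))
      * ((((k:ℝ)+1)^4 - ((k:ℝ)+1)^2+1)/(((k:ℝ)+1)^3+1)) ^ n := by
  have hpos : ∀ n, (0:ℝ) < i n := fun n => by exact_mod_cast hi n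
  have hlog : ∀ n, 0 ≤ Real.log (i n) := fun n =>
    Real.log_nonneg (by exact_mod_cast hi n)
  have hK' : (0:ℝ) < K := by exact_mod_cast hK
  have hKlog : 0 ≤ Real.log K := Real.log_nonneg (by exact_mod_cast hK)
  have hk' : (3:ℝ) ≤ k := by exact_mod_cast hk
  set B := ((k:ℝ)+1) * Real.log K + ((k:ℝ)+1) * Real.log (i 2) + Real.log (i 1) with hBdef
  have hk0 : (0:ℝ) ≤ k := by linarith
  have p1 : 0 ≤ ((k:ℝ)+1) * Real.log K := mul_nonneg (by linarith) hKlog
  have p2 : 0 ≤ (k:ℝ) * Real.log (i 2) := mul_nonneg hk0 (hlog 2)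
  have hB : 0 ≤ B := by have := hlog 1; have := hlog 2; nlinarith
  have key := closed_rec ((k:ℝ)+1) (by linarith) c (fun n => Real.log (i n)) B hB
    (by simp only [hi0, Nat.cast_one, Real.log_one])
    (by have := hlog 2; simp only [hBdef]; nlinarith)
    (by have := hlog 1; simp only [hBdef]; nlinarith) ?_ ?_ n hn
  · have key' : Real.log (i n) + B ≤ 2 * B *
      ((((k:ℝ)+1)^4 - ((k:ℝ)+1)^2+1)/(((k:ℝ)+1)^3+1)) ^ n := key
    linarith
  · intro n hn
    have h1 : ((i (n+2) * (i (n+3) * i (n+1)) ^ (k+1) : ℕ) : ℝ) ≤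
        ((K ^ (k+1) * (i (n+2) ^ (k+1) * i 2) ^ (k+1) * (i (n+1) ^ k * i n) * i 1 : ℕ) : ℝ) := by
      exact_mod_cast h n hn
    push_cast at h1
    have h2 := Real.log_le_log (by
      have := hpos (n+2); have := hpos (n+3); have := hpos (n+1); positivity) h1
    have q0 := (hpos n).ne'
    have q1 := (hpos 1).ne'
    have q2 := (hpos 2).ne'
    have q3 := (hpos (n+1)).ne'
    have q4 := (hpos (n+2)).ne'
    have q5 := (hpos (n+3)).ne'
    have q6 := hK'.ne'
    rw [Real.log_mul q4 (pow_ne_zero _ (mul_ne_zero q5 q3)), Real.log_mul (by positivity) q1,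
      Real.log_mul (by positivity) (by positivity), Real.log_mul (by positivity) (by positivity),
      Real.log_mul (by positivity) q0, Real.log_pow, Real.log_pow, Real.log_pow, Real.log_pow,
      Real.log_mul q5 q3, Real.log_mul (by positivity) q2, Real.log_pow] at h2
    push_cast at h2
    simp only [hBdef]
    nlinarith [h2]
  · intro n
    have h1 : ((i (n+2) * i n ^ (k+1) : ℕ) : ℝ) ≤ ((i (n+1) ^ (k+1+1) : ℕ) : ℝ) := by
      exact_mod_cast hl n
    push_cast at h1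
    have h2 := Real.log_le_log (by have := hpos (n+2); have := hpos n; positivity) h1
    rw [Real.log_mul (hpos (n+2)).ne' (pow_ne_zero _ (hpos n).ne'), Real.log_pow,
      Real.log_pow] at h2
    push_cast at h2
    nlinarith [h2]

end numerics

section gens

variable {I : Type*} [Fintype I] [DecidableEq I] {p : ℕ} [hp : Fact p.Prime] {deg : I → ℕ} {c : ℕ}
  {X : Type*} {op : X → Matrix I I (ZMod p)} {hop : ∀ x, HmG deg 1 (op x)} {st : Setup deg p c}

theorem EG_gen (hc1 : 1 ≤ c) :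
    Subgroup.closure (Set.range (EG st hop)) ⊔ lcs (PG op st hop) 1 = ⊤ := by
  set H := Subgroup.closure (Set.range (EG st hop)) with hH
  have hzero : ∃ g ∈ H,
      FilG deg (0+2) (((g : (Matrix I I (ZMod p))ˣ) : Matrix I I (ZMod p)) - 1 - 0) := by
    refine ⟨1, one_mem _, ?_⟩
    have : (((1 : PG op st hop) : (Matrix I I (ZMod p))ˣ) : Matrix I I (ZMod p)) - 1 - 0 = 0 := by
      rw [OneMemClass.coe_one, Units.val_one]; simp
    rw [this]; exact FilG_zero _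
  have hadd : ∀ (a b : Matrix I I (ZMod p)), (∃ g ∈ H,
      FilG deg (0+2) (((g : (Matrix I I (ZMod p))ˣ) : Matrix I I (ZMod p)) - 1 - a)) →
      (∃ g ∈ H, FilG deg (0+2) (((g : (Matrix I I (ZMod p))ˣ) : Matrix I I (ZMod p)) - 1 - b)) →
      ∃ g ∈ H,
      FilG deg (0+2) (((g : (Matrix I I (ZMod p))ˣ) : Matrix I I (ZMod p)) - 1 - (a + b)) := by
    rintro a b ⟨g, hg, hg'⟩ ⟨h, hh, hh'⟩
    exact ⟨g * h, mul_mem hg hh, mul_leadG (PG_UG g) (PG_UG h) hg' hh'⟩
  have hnsmul : ∀ (a : Matrix I I (ZMod p)), (∃ g ∈ H,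
      FilG deg (0+2) (((g : (Matrix I I (ZMod p))ˣ) : Matrix I I (ZMod p)) - 1 - a)) → ∀ k : ℕ,
      ∃ g ∈ H,
      FilG deg (0+2) (((g : (Matrix I I (ZMod p))ˣ) : Matrix I I (ZMod p)) - 1 - k • a) := by
    intro a ha k
    induction k with
    | zero => rw [zero_smul]; exact hzero
    | succ k ih => rw [succ_nsmul]; exact hadd _ _ ih ha
  have hsmul : ∀ (k : ZMod p) (a : Matrix I I (ZMod p)), (∃ g ∈ H,
      FilG deg (0+2) (((g : (Matrix I I (ZMod p))ˣ) : Matrix I I (ZMod p)) - 1 - a)) →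
      ∃ g ∈ H,
      FilG deg (0+2) (((g : (Matrix I I (ZMod p))ˣ) : Matrix I I (ZMod p)) - 1 - k • a) := by
    intro k a ha
    have e : k • a = k.val • a := by
      conv_lhs => rw [← ZMod.natCast_zmod_val k]
      rw [Nat.cast_smul_eq_nsmul]
    rw [e]; exact hnsmul a ha _
  rw [eq_top_iff]
  intro x _
  obtain ⟨y, hy, hxy⟩ := lead_mem (n := 0) (by omega) x (PG_UG x)
  have hy' : ∃ g ∈ H,
      FilG deg (0+2) (((g : (Matrix I I (ZMod p))ˣ) : Matrix I I (ZMod p)) - 1 - y) := by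
    refine Submodule.span_induction (p := fun y _ => ∃ g ∈ H,
      FilG deg (0+2) (((g : (Matrix I I (ZMod p))ˣ) : Matrix I I (ZMod p)) - 1 - y)) ?_ ?_ ?_ ?_ hy
    · rintro _ ⟨x, rfl⟩
      exact ⟨EG st hop x, Subgroup.subset_closure ⟨x, rfl⟩, EG_lead hc1 x⟩
    · exact hzero
    · intro a b _ _ ha hb; exact hadd a b ha hb
    · intro k a _ ha; exact hsmul k a ha
  obtain ⟨g, hg, hgy⟩ := hy'
  have h1 : ((g⁻¹ * x : PG op st hop) : (Matrix I I (ZMod p))ˣ) ∈ UG st 1 := by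
    rw [mem_UG]
    have hgU := PG_UG g
    set gm : Matrix I I (ZMod p) := ((g : (Matrix I I (ZMod p))ˣ) : Matrix I I (ZMod p)) with hgm
    set xm : Matrix I I (ZMod p) := ((x : (Matrix I I (ZMod p))ˣ) : Matrix I I (ZMod p)) with hxm
    set gi : Matrix I I (ZMod p) :=
      (((g : (Matrix I I (ZMod p))ˣ)⁻¹ : (Matrix I I (ZMod p))ˣ) : Matrix I I (ZMod p)) with hgi
    have h2 : gi * gm = 1 := Units.inv_mul (g : (Matrix I I (ZMod p))ˣ)
    have h3 : (((g⁻¹ * x : PG op st hop) : (Matrix I I (ZMod p))ˣ) : Matrix I I (ZMod p)) - 1 =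
        gi * ((xm - 1 - y) - (gm - 1 - y)) := by
      have e1 : (((g⁻¹ * x : PG op st hop) : (Matrix I I (ZMod p))ˣ) : Matrix I I (ZMod p)) =
        gi * xm := rfl
      rw [e1]
      calc gi * xm - 1 = gi * xm - gi * gm := by rw [h2]
        _ = _ := by noncomm_ring
    rw [h3]
    exact FilG_mono (by omega) (FilG_mul (UG_val (inv_mem hgU)) (FilG_sub hxy hgy))
  have h2 := mem_lcs_of_UG hc1 (c - 1) 1 (by omega) _ h1
  have e : x = g * (g⁻¹ * x) := by group
  rw [e]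
  exact mul_mem (Subgroup.mem_sup_left hg) (Subgroup.mem_sup_right h2)

theorem lead_list : ∀ (m : ℕ) (f : Fin m → PG op st hop) (T : Fin m → Matrix I I (ZMod p)),
    (∀ i, (f i : (Matrix I I (ZMod p))ˣ) ∈ UG st 1 ∧
      FilG deg (1+2) (((f i : (Matrix I I (ZMod p))ˣ) : Matrix I I (ZMod p)) - 1 - T i)) →
    (((List.ofFn f).prod : PG op st hop) : (Matrix I I (ZMod p))ˣ) ∈ UG st 1 ∧
      FilG deg (1+2) (((((List.ofFn f).prod : PG op st hop) : (Matrix I I (ZMod p))ˣ) :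
        Matrix I I (ZMod p)) - 1 - ∑ i, T i) := by
  intro m
  induction m with
  | zero =>
    intro f T _
    refine ⟨?_, ?_⟩
    · rw [List.ofFn_zero, List.prod_nil]; exact one_mem _
    · rw [List.ofFn_zero, List.prod_nil, OneMemClass.coe_one, Units.val_one,
        Finset.univ_eq_empty, Finset.sum_empty]
      have : (1 : Matrix I I (ZMod p)) - 1 - 0 = 0 := by simp
      rw [this]; exact FilG_zero _
  | succ m ih =>
    intro f T h
    obtain ⟨i1, i2⟩ := ih (fun i => f i.succ) (fun i => T i.succ) fun i => h i.succ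
    rw [List.ofFn_succ, List.prod_cons, Fin.sum_univ_succ]
    exact ⟨mul_mem (h 0).1 i1, mul_leadG (h 0).1 i1 (h 0).2 i2⟩

end gens

end H94Simple
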