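import Pool.Agent.H94.SccZ

open scoped commutatorElement IsMulCommutative

namespace H94Simple

section surfgroup

abbrev XX (g : ℕ) := Idx (g+1) 0

def lA (g : ℕ) : XX g := Sum.inl (Fin.last g)
def lB (g : ℕ) : XX g := Sum.inr (Sum.inl (Fin.last g))
def lS (g : ℕ) : Fin g → XX g := fun i => Sum.inl i.castSucc
def lT (g : ℕ) : Fin g → XX g := fun i => Sum.inr (Sum.inl i.castSucc)

variable (g p c : ℕ) [hp : Fact p.Prime]

noncomputable def OP : XX g → Matrix (WI (XX g) c) (WI (XX g) c) (ZMod p) :=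
  opW p c (lA g) (lB g) (lS g) (lT g)

theorem OP_Hm (x : XX g) : HmG wdeg 1 (OP g p c x) := opW_Hm x

variable {g p c}

theorem setupW (hpc : c + 1 ≤ p) : Setup (wdeg (X := XX g) (c := c)) p c :=
  ⟨fun w => w.2, hpc, ⟨⟨[], Nat.zero_le _⟩⟩⟩

variable (st : Setup (wdeg (X := XX g) (c := c)) p c)

/-- the finite quotient of the closed surface group -/
noncomputable abbrev PP := PG (OP g p c) st (OP_Hm g p c)

instance : Finite (PP st) := by
  unfold PP
  infer_instance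

theorem OP_sum : ∑ i : Fin (g+1), (OP g p c (Sum.inl i) * OP g p c (Sum.inr (Sum.inl i)) -
    OP g p c (Sum.inr (Sum.inl i)) * OP g p c (Sum.inl i)) = 0 := by
  rw [Fin.sum_univ_castSucc]
  have h1 : ∀ i : Fin g, OP g p c (Sum.inl i.castSucc) = Nn p c (lS g i) := by
    intro i
    refine opW_ne ?_
    intro h
    cases h
  have h2 : ∀ i : Fin g, OP g p c (Sum.inr (Sum.inl i.castSucc)) = Nn p c (lT g i) := by
    intro i
    refine opW_ne ?_
    intro h
    have h' := Sum.inl.inj (Sum.inr.inj h)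
    exact (Fin.castSucc_lt_last i).ne h'
  have h3 : OP g p c (Sum.inl (Fin.last g)) = Nn p c (lA g) := by
    refine opW_ne ?_
    intro h
    cases h
  have h4 : OP g p c (Sum.inr (Sum.inl (Fin.last g))) = Lb p c (lA g) (lB g) (lS g) (lT g) :=
    opW_b
  rw [h3, h4]
  have h5 : ∑ i : Fin g, (OP g p c (Sum.inl i.castSucc) * OP g p c (Sum.inr (Sum.inl i.castSucc)) -
      OP g p c (Sum.inr (Sum.inl i.castSucc)) * OP g p c (Sum.inl i.castSucc)) =
      Om p c (lS g) (lT g) := by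
    rw [Om]
    refine Finset.sum_congr rfl fun i _ => ?_
    rw [h1, h2]
  rw [h5, Lb_rel]
  abel

noncomputable def v0 : Idx (g+1) 0 → PP st := fun j => EG st (OP_Hm g p c) j

theorem v0_rel (hc2 : 2 ≤ c) : Rel (1 : PP st) (el0 (PP st)) (v0 st) ∈ lcs (PP st) 2 := by
  refine mem_lcs_of_UG (by omega) (c - 2) 2 (by omega) _ ?_
  have h := lead_list (st := st) (hop := OP_Hm g p c) (g+1)
    (fun i : Fin (g+1) => (⁅v0 st (Sum.inl i), v0 st (Sum.inr (Sum.inl i))⁆ : PP st))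
    (fun i => OP g p c (Sum.inl i) * OP g p c (Sum.inr (Sum.inl i)) -
      OP g p c (Sum.inr (Sum.inl i)) * OP g p c (Sum.inl i)) (by
      intro i
      have e : ((⁅v0 st (Sum.inl i), v0 st (Sum.inr (Sum.inl i))⁆ : PP st) :
          (Matrix (WI (XX g) c) (WI (XX g) c) (ZMod p))ˣ) =
          ⁅((v0 st (Sum.inl i) : PP st) : (Matrix (WI (XX g) c) (WI (XX g) c) (ZMod p))ˣ),
          ((v0 st (Sum.inr (Sum.inl i)) : PP st) :
            (Matrix (WI (XX g) c) (WI (XX g) c) (ZMod p))ˣ)⁆ := rfl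
      rw [e]
      refine ⟨?_, ?_⟩
      · exact comm_UG (PG_UG (v0 st (Sum.inl i))) (PG_UG (v0 st (Sum.inr (Sum.inl i))))
      · exact comm_leadG (PG_UG (v0 st (Sum.inl i))) (PG_UG (v0 st (Sum.inr (Sum.inl i))))
          (EG_lead (by omega) _) (EG_lead (by omega) _))
  rw [OP_sum, sub_zero] at h
  have e : Rel (1 : PP st) (el0 (PP st)) (v0 st) =
      (List.ofFn fun i : Fin (g+1) => (⁅v0 st (Sum.inl i), v0 st (Sum.inr (Sum.inl i))⁆ :
        PP st)).prod := by
    rw [Rel, List.ofFn_zero, List.prod_nil, mul_one, mul_one]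
  rw [e, mem_UG]
  exact h.2

theorem dd_gen {Q : Type*} [Group Q] {n : ℕ} (v : Idx n 0 → Q) :
    Subgroup.closure (Set.range v) ≤ Subgroup.closure (Set.range (dd (el0 Q) v)) := by
  rw [Subgroup.closure_le]
  rintro _ ⟨j, rfl⟩
  rcases j with i | i | i
  · have h : dd (el0 Q) v (Sum.inr (Sum.inl i)) ∈ Subgroup.closure (Set.range (dd (el0 Q) v)) :=
      Subgroup.subset_closure ⟨_, rfl⟩
    have h2 := inv_mem h
    simp only [dd, inv_inv] at h2
    exact h2
  · exact Subgroup.subset_closure ⟨Sum.inl i, rfl⟩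
  · exact i.elim0

theorem v0_gen (hc1 : 1 ≤ c) :
    Subgroup.closure (Set.range (dd (el0 (PP st)) (v0 st))) ⊔ lcs (PP st) 1 = ⊤ := by
  rw [eq_top_iff, ← EG_gen (st := st) (hop := OP_Hm g p c) hc1]
  exact sup_le_sup_right (dd_gen (v0 st)) _

theorem exists_pi (hc2 : 2 ≤ c) : ∃ π : Surf (g+1) 0 →* PP st, Function.Surjective π ∧
    ∃ s : Idx (g+1) 0 → PP st, Subgroup.closure (Set.range s) ⊔ lcs (PP st) 1 = ⊤ := by
  obtain ⟨v, hv1, hv2⟩ := exists_solution (lcs_PG_bot (st := st) (hop := OP_Hm g p c)) (1 : PP st)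
    (el0 (PP st)) (v0 st) (v0_gen st (by omega)) (v0_rel st hc2)
  have hgen := gen_congr (dd_congr (el0 (PP st)) fun j => (hv1 j).symm) (v0_gen st (by omega))
  have hrel : (List.ofFn fun i : Fin (g+1) => (⁅v (Sum.inl i), v (Sum.inr (Sum.inl i))⁆ :
      PP st)).prod * (List.ofFn (el0 (PP st))).prod = 1 := by
    rw [Rel, List.ofFn_zero, List.prod_nil, mul_one, mul_one] at hv2
    rw [List.ofFn_zero, List.prod_nil, mul_one]
    exact hv2
  let π : Surf (g+1) 0 →* PP st := liftHom (fun i => v (Sum.inl i))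
    (fun i => v (Sum.inr (Sum.inl i))) (el0 (PP st)) hrel
  refine ⟨π, ?_, _, hgen⟩
  rw [← MonoidHom.range_eq_top]
  refine top_of_nilp (lcs_PG_bot (st := st) (hop := OP_Hm g p c)) _ ?_
  rw [eq_top_iff, ← hgen]
  refine sup_le_sup_right ?_ _
  rw [Subgroup.closure_le]
  rintro _ ⟨j, rfl⟩
  rcases j with i | i | i
  · exact ⟨B i, liftHom_B _ _ _ _ i⟩
  · refine inv_mem ?_
    exact ⟨A i, liftHom_A _ _ _ _ i⟩
  · exact i.elim0

theorem PP_center (hg : 1 ≤ g) (hc1 : 1 ≤ c) : ∀ m, m + 1 ≤ c → ∀ x : PP st,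
    (∀ y, ⁅x, y⁆ ∈ lcs (PP st) (m+1)) → x ∈ lcs (PP st) m := by
  intro m hm x hx
  refine center_mem (st := st) (hop := OP_Hm g p c) hc1 ?_ hm x hx
  intro j hj y hy hcen
  have hne : (⟨0, hg⟩ : Fin g).castSucc ≠ Fin.last g := (Fin.castSucc_lt_last _).ne
  refine center_free (a := lA g) (b := lB g) (s := lS g) (t := lT g)
    (Sum.inl (⟨0, hg⟩ : Fin g).castSucc : XX g)
    (Sum.inr (Sum.inl (⟨0, hg⟩ : Fin g).castSucc) : XX g) ?_ ?_ ?_ ?_ ?_ j hj y hy hcen ?_
  · intro h; cases h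
  · intro h; exact hne (Sum.inl.inj h)
  · intro h; cases h
  · intro h; cases h
  · intro h; exact hne (Sum.inl.inj (Sum.inr.inj h))
  · intro h; cases h

end surfgroup

end H94Simple
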