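import Pool.Agent.H94.SccZa

open scoped commutatorElement IsMulCommutative

namespace H94Simple

section final

variable {g p c : ℕ} [hp : Fact p.Prime]

theorem XX_card (g : ℕ) : Fintype.card (XX g) = 2 * g + 1 + 1 := by
  rw [Fintype.card_sum, Fintype.card_sum, Fintype.card_fin, Fintype.card_fin]; ring

theorem wsetup_exists (g : ℕ) (hg : 1 ≤ g) : ∃ rk : XX g → ℕ,
    WSetup (lA g) (lB g) (lS g) (lT g) rk (Fintype.card (XX g)) := by
  have hcard := XX_card g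
  let e := Fintype.equivFin (XX g)
  have h0 : 0 < Fintype.card (XX g) := by omega
  let e' := e.trans (Equiv.swap (e (lB g)) ⟨0, h0⟩)
  have hb : (e' (lB g) : ℕ) = 0 := by simp [e']
  have hinj : Function.Injective fun x => (e' x : ℕ) := fun x y h => e'.injective (Fin.ext h)
  refine ⟨fun x => (e' x : ℕ), hb, ?_, fun x => (e' x).2, by omega, ?_, ?_, ?_, hinj⟩
  · intro x hx
    rcases Nat.eq_zero_or_pos (e' x : ℕ) with h | h
    · exact absurd (hinj (h.trans hb.symm)) hx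
    · exact h
  · intro h; cases h
  · intro i h; cases h
  · intro i h
    exact (Fin.castSucc_lt_last i).ne (Sum.inl.inj (Sum.inr.inj h))

theorem log_PP_le (hg : 1 ≤ g) (hc2 : 2 ≤ c) (st : Setup (wdeg (X := XX g) (c := c)) p c)
    (hd : ∀ m, dia (simple (g+1) 0) m ≤ ((2 * g + 1 + 1 : ℕ) : ℕ∞)) (k : ℕ) (hk : k = 2 * g + 1) :
    Real.log (Nat.card (PP st)) ≤
      2 * (((k:ℝ)+1) * Real.log (kapC (g+1)) +
        (((k:ℝ)+1) * ((k:ℝ)+2) + 1) * (((k:ℝ)+1) * Real.log p)) *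
        ((((k:ℝ)+1)^4 - ((k:ℝ)+1)^2+1)/(((k:ℝ)+1)^3+1)) ^ c := by
  obtain ⟨π, hπ, s, hs⟩ := exists_pi st hc2
  have hcard : Fintype.card (Idx (g+1) 0) = k + 1 := by rw [hk]; exact XX_card g
  have hbot := lcs_PG_bot (st := st) (hop := OP_Hm g p c)
  have hpos : ∀ n, 0 < (lcs (PP st) n).index := fun n =>
    Nat.pos_of_ne_zero Subgroup.index_ne_zero_of_finite
  have hk3 : 3 ≤ k := by omega
  have h1 := log_recC k hk3 (kapC (g+1)) (kapC_pos (g+1)) c (fun n => (lcs (PP st) n).index) hpos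
    (by simp [lcs_zero]) (fun n hn => main_ineqC π hπ hbot (PP_center st hg (by omega)) k hcard
      (fun m => by rw [hk]; exact hd m) n hn)
    (fun n => by
      have := index_step s hs n
      rwa [hcard] at this) c le_rfl
  have h2 : (lcs (PP st) c).index = Nat.card (PP st) := by
    rw [hbot]; exact Subgroup.index_bot
  simp only [h2] at h1
  refine h1.trans ?_
  have hi1 : (lcs (PP st) 1).index ≤ p ^ (k+1) := by
    have := index_one_le s hs p hp.out.pos (fun x => PG_pow x)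
    rwa [hcard] at this
  have hi2 : (lcs (PP st) 2).index ≤ (lcs (PP st) 1).index ^ (k+1+1) := by
    have := index_two_le s hs
    rwa [hcard] at this
  have hp1 : (0:ℝ) < (lcs (PP st) 1).index := by exact_mod_cast hpos 1
  have hp2 : (0:ℝ) < (lcs (PP st) 2).index := by exact_mod_cast hpos 2
  have hl1 : Real.log (lcs (PP st) 1).index ≤ ((k:ℝ)+1) * Real.log p := by
    have h3 : ((lcs (PP st) 1).index : ℝ) ≤ (p:ℝ) ^ (k+1) := by exact_mod_cast hi1
    have h4 := Real.log_le_log hp1 h3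
    rw [Real.log_pow] at h4
    push_cast at h4
    exact h4
  have hl2 : Real.log (lcs (PP st) 2).index ≤ ((k:ℝ)+2) * Real.log (lcs (PP st) 1).index := by
    have h3 : ((lcs (PP st) 2).index : ℝ) ≤ ((lcs (PP st) 1).index : ℝ) ^ (k+1+1) := by
      exact_mod_cast hi2
    have h4 := Real.log_le_log hp2 h3
    rw [Real.log_pow] at h4
    push_cast at h4
    linarith
  have hk0 : (0:ℝ) ≤ k := by positivity
  have hk3' : (3:ℝ) ≤ k := by exact_mod_cast hk3
  have hμ := mu_ge ((k:ℝ)+1) (by linarith)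
  have hlc : 0 ≤ ((((k:ℝ)+1)^4 - ((k:ℝ)+1)^2+1)/(((k:ℝ)+1)^3+1)) ^ c :=
    pow_nonneg (by linarith) _
  apply mul_le_mul_of_nonneg_right _ hlc
  have h5 : ((k:ℝ)+1) * Real.log (lcs (PP st) 2).index ≤
      ((k:ℝ)+1) * (((k:ℝ)+2) * Real.log (lcs (PP st) 1).index) :=
    mul_le_mul_of_nonneg_left hl2 (by linarith)
  have h6 : (((k:ℝ)+1) * ((k:ℝ)+2) + 1) * Real.log (lcs (PP st) 1).index ≤
      (((k:ℝ)+1) * ((k:ℝ)+2) + 1) * (((k:ℝ)+1) * Real.log p) :=
    mul_le_mul_of_nonneg_left hl1 (by positivity)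
  nlinarith [h5, h6]

theorem lower_existsC (g : ℕ) (hg : 1 ≤ g) :
    ∃ m, ¬ dia (simple (g+1) 0) m ≤ ((2 * g + 1 + 1 : ℕ) : ℕ∞) := by
  by_contra hcon
  push Not at hcon
  obtain ⟨k, hk⟩ : ∃ k, k = 2 * g + 1 := ⟨_, rfl⟩
  have hk3 : 3 ≤ k := by omega
  have hk' : (3:ℝ) ≤ k := by exact_mod_cast hk3
  obtain ⟨ν, hν1, hν2, hν3⟩ := nu_exists ((k:ℝ)+1) (by linarith)
  set μ : ℝ := ((((k:ℝ)+1)^4 - ((k:ℝ)+1)^2+1)/(((k:ℝ)+1)^3+1)) with hμ
  have hμ2 : 2 ≤ μ := mu_ge ((k:ℝ)+1) (by linarith)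
  have hμ0 : 0 < μ := by linarith
  have hν0 : 0 < ν := by linarith
  -- choice of the block length
  have hlk : 1 < ν / μ := by rw [one_lt_div hμ0]; exact hν1
  obtain ⟨K, hK⟩ := pow_unbounded_of_one_lt (μ / ((k:ℝ)-1)) hlk
  set ρ : ℝ := ν ^ K * ((k:ℝ)-1) / μ ^ (K+1) with hρ
  have hρ1 : 1 < ρ := by
    rw [hρ, one_lt_div (by positivity)]
    rw [div_pow, lt_div_iff₀ (by positivity), div_mul_eq_mul_div, div_lt_iff₀ (by linarith)] at hK
    rw [pow_succ']
    exact hK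
  -- choice of the number of blocks
  set M : ℝ := 2 * (((k:ℝ)+1) * (Real.log (kapC (g+1)) / Real.log 2) +
    (((k:ℝ)+1) * ((k:ℝ)+2) + 1) * ((k:ℝ)+1)) with hM
  obtain ⟨t, ht⟩ := pow_unbounded_of_one_lt (M * μ ^ (K+2)) hρ1
  set c := K + 2 + (K+1) * t with hc
  obtain ⟨p, hpc, hpp⟩ := Nat.exists_infinite_primes (c+1)
  haveI : Fact p.Prime := ⟨hpp⟩
  have st : Setup (wdeg (X := XX g) (c := c)) p c := setupW hpc
  obtain ⟨rk, W⟩ := wsetup_exists g hg
  have hcard := XX_card g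
  -- the words
  have hne : (⟨0, hg⟩ : Fin g).castSucc ≠ Fin.last g := (Fin.castSucc_lt_last _).ne
  obtain ⟨F, hF, hFc⟩ := words_existC p c W (Sum.inl (⟨0, hg⟩ : Fin g).castSucc : XX g)
    (fun h => hne (Sum.inl.inj h)) (fun h => by cases h) K t
  have h2 : p ^ F.card ≤ Nat.card (Lg (OP g p c) (c-1)) :=
    card_Lg_ge W F fun u hu => ⟨(hF u hu).1.1, (hF u hu).2⟩
  have h2' := h2.trans (card_Lg_le (st := st) (hop := OP_Hm g p c) (by omega))
  have h3 := log_PP_le hg (by omega) st hcon k hk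
  have hlog2 : 0 < Real.log 2 := Real.log_pos (by norm_num)
  have hlogp : Real.log 2 ≤ Real.log p :=
    Real.log_le_log (by norm_num) (by exact_mod_cast hpp.two_le)
  have hlogp0 : 0 < Real.log p := by linarith
  have h4 : (F.card : ℝ) * Real.log p ≤ Real.log (Nat.card (PP st)) := by
    have h5 : ((p ^ F.card : ℕ) : ℝ) ≤ (Nat.card (PP st) : ℝ) := by exact_mod_cast h2'
    have hp0 : (0:ℝ) < p := by exact_mod_cast hpp.pos
    have h6 := Real.log_le_log (by push_cast; positivity) h5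
    push_cast at h6
    rwa [Real.log_pow] at h6
  have hkap : 0 ≤ Real.log (kapC (g+1)) := Real.log_nonneg (by exact_mod_cast kapC_pos (g+1))
  have hkap2 : Real.log (kapC (g+1)) ≤ (Real.log (kapC (g+1)) / Real.log 2) * Real.log p := by
    rw [div_mul_eq_mul_div, le_div_iff₀ hlog2]
    exact mul_le_mul_of_nonneg_left hlogp hkap
  have hpc0 : 0 ≤ μ ^ c := by positivity
  have h5 : (F.card : ℝ) * Real.log p ≤ (M * μ ^ c) * Real.log p := by
    refine (h4.trans h3).trans ?_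
    have h6 : 2 * (((k:ℝ)+1) * Real.log (kapC (g+1)) +
        (((k:ℝ)+1) * ((k:ℝ)+2) + 1) * (((k:ℝ)+1) * Real.log p)) ≤ M * Real.log p := by
      have h7 := mul_le_mul_of_nonneg_left hkap2 (show 0 ≤ (k:ℝ)+1 by linarith)
      rw [hM]
      nlinarith [h7]
    have h8 := mul_le_mul_of_nonneg_right h6 hpc0
    calc _ ≤ M * Real.log p * μ ^ c := h8
      _ = _ := by ring
  have h6 : (F.card : ℝ) ≤ M * μ ^ c := le_of_mul_le_mul_right h5 hlogp0
  have hcardX : (Fintype.card (XX g) : ℝ) = (k:ℝ) + 1 := by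
    rw [hcard, ← hk]; push_cast; ring
  have hSA := (SA_growth (lA g) (lB g) ν hν2 (by rw [hcardX]; exact hν3) K).2
  have h7 : (ν ^ K * ((k:ℝ)-1)) ^ t ≤ (F.card : ℝ) := by
    rw [hFc]
    push_cast
    have h8 : ((Fintype.card (XX g) - 2 : ℕ) : ℝ) = (k:ℝ) - 1 := by
      rw [hcard, ← hk]
      have : k + 1 - 2 = k - 1 := by omega
      rw [this, Nat.cast_sub (by omega)]; simp
    rw [h8]
    refine pow_le_pow_left₀ ?_ ?_ t
    · exact mul_nonneg (by positivity) (by linarith)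
    · exact mul_le_mul_of_nonneg_right hSA (by linarith)
  have h8 : (ν ^ K * ((k:ℝ)-1)) ^ t = ρ ^ t * (μ ^ (K+1)) ^ t := by
    rw [← mul_pow, hρ, div_mul_cancel₀ _ (by positivity)]
  have h9 : μ ^ c = μ ^ (K+2) * (μ ^ (K+1)) ^ t := by
    rw [hc, pow_add, pow_mul]
  have h10 : ρ ^ t * (μ ^ (K+1)) ^ t ≤ (M * μ ^ (K+2)) * (μ ^ (K+1)) ^ t := by
    rw [← h8]
    refine (h7.trans h6).trans (le_of_eq ?_)
    rw [h9]; ring
  have h11 : ρ ^ t ≤ M * μ ^ (K+2) := le_of_mul_le_mul_right h10 (by positivity)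
  linarith

/-- **The limit for closed surfaces of genus at least two.** -/
theorem exact_limitC (g : ℕ) (hg : 2 ≤ g) :
    ∃ n0, ∀ n, n0 ≤ n → dia (simple g 0) n = ((2 * g + 1 : ℕ) : ℕ∞) := by
  obtain ⟨g, rfl⟩ := Nat.exists_eq_add_of_le' (show 1 ≤ g by omega)
  obtain ⟨m, hm⟩ := lower_existsC g (by omega)
  refine ⟨m, fun n hn => ?_⟩
  have h1 := surface_bound' (g+1) 0 n (by omega)
  have e : 2 * (g+1) + 1 + (0 - 1) = 2 * (g+1) + 1 := by omega
  rw [e] at h1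
  have h2 : ¬ dia (simple (g+1) 0) n ≤ ((2 * g + 1 + 1 : ℕ) : ℕ∞) := fun h => hm (dia_mono hn h)
  obtain ⟨d, hd⟩ := ENat.ne_top_iff_exists.1 (ne_top_of_le_ne_top (ENat.natCast_ne_top _) h1)
  rw [← hd] at h1 h2 ⊢
  have h3 : d ≤ 2 * (g+1) + 1 := by exact_mod_cast h1
  have h4 : ¬ d ≤ 2 * g + 1 + 1 := by exact_mod_cast h2
  have h5 : d = 2 * (g+1) + 1 := by omega
  rw [h5]

end final

end H94Simple
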