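import Pool.Agent.H94.SccZb

open scoped commutatorElement

namespace H94Simple

theorem trivial_surf {b : ℕ} (hb : b ≤ 1) (x : Surf 0 b) : x = 1 := by
  have hP : ∀ j : Fin b, (P j : Surf 0 b) = 1 := by
    intro j
    obtain rfl : b = 1 := by have := j.2; omega
    have h := relation (g := 0) (b := 1)
    simp only [List.ofFn_zero, List.prod_nil, one_mul, List.ofFn_succ, List.prod_cons,
      mul_one] at h
    have hj : j = 0 := Subsingleton.elim _ _
    rw [hj]; exact h
  have h : (⊥ : Subgroup (Surf 0 b)) = ⊤ := by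
    refine closure_gens ⊥ (fun i => i.elim0) (fun i => i.elim0) fun j => ?_
    rw [Subgroup.mem_bot]; exact hP j
  rw [← Subgroup.mem_bot, h]
  exact Subgroup.mem_top _

theorem dia_trivial {b : ℕ} (hb : b ≤ 1) (n : ℕ) : dia (simple 0 b) n = 0 := by
  refine le_antisymm ?_ (by simp)
  have h : dia (simple 0 b) n ≤ ((0 : ℕ) : ℕ∞) := by
    refine diam_le fun q => ?_
    obtain ⟨x, rfl⟩ := pr_surj n q
    rw [trivial_surf hb x, map_one]
    exact ⟨[], ⟨by simp, by simp⟩, by simp⟩
  exact h

end H94Simple
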