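import Pool.Agent.H94.SccZc

open scoped commutatorElement IsMulCommutative

namespace H94Simple

/-- the lower exponent-two central series -/
def TT (G : Type*) [Group G] : ℕ → Subgroup G
  | 0 => ⊤
  | n+1 => ⁅TT G n, (⊤ : Subgroup G)⁆ ⊔ Subgroup.closure {x | ∃ y ∈ TT G n, x = y ^ 2}

section tseries

variable {G : Type*} [Group G]

theorem TT_comm {n : ℕ} {w : G} (hw : w ∈ TT G n) (t : G) : ⁅w, t⁆ ∈ TT G (n+1) :=
  Subgroup.mem_sup_left (Subgroup.commutator_mem_commutator hw (Subgroup.mem_top _))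

theorem TT_sq {n : ℕ} {w : G} (hw : w ∈ TT G n) : w ^ 2 ∈ TT G (n+1) :=
  Subgroup.mem_sup_right (Subgroup.subset_closure ⟨w, hw, rfl⟩)

instance TT_normal (n : ℕ) : (TT G n).Normal := by
  induction n with
  | zero => unfold TT; infer_instance
  | succ n ih =>
    constructor
    intro x hx g
    have hle : TT G (n+1) ≤ (TT G (n+1)).comap (MulAut.conj g).toMonoidHom := by
      conv_lhs => unfold TT
      refine sup_le ?_ ?_
      · rw [Subgroup.commutator_le]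
        intro w hw t _
        show g * ⁅w, t⁆ * g⁻¹ ∈ TT G (n+1)
        have e : g * ⁅w, t⁆ * g⁻¹ = ⁅g * w * g⁻¹, g * t * g⁻¹⁆ := by
          simp only [commutatorElement_def]; group
        rw [e]
        exact TT_comm (ih.conj_mem _ hw g) _
      · rw [Subgroup.closure_le]
        rintro _ ⟨y, hy, rfl⟩
        show g * y ^ 2 * g⁻¹ ∈ TT G (n+1)
        have e : g * y ^ 2 * g⁻¹ = (g * y * g⁻¹) ^ 2 := by rw [conj_pow]
        rw [e]
        exact TT_sq (ih.conj_mem _ hy g)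
    exact hle hx

theorem TT_succ_le (n : ℕ) : TT G (n+1) ≤ TT G n := by
  conv_lhs => unfold TT
  refine sup_le ?_ ?_
  · exact Subgroup.commutator_le_left _ _
  · rw [Subgroup.closure_le]
    rintro _ ⟨y, hy, rfl⟩
    exact pow_mem hy 2

theorem TT_anti {m n : ℕ} (h : m ≤ n) : TT G n ≤ TT G m := by
  induction n, h using Nat.le_induction with
  | base => exact le_rfl
  | succ n _ ih => exact (TT_succ_le n).trans ih

def prT (G : Type*) [Group G] (n : ℕ) : G →* G ⧸ TT G n := QuotientGroup.mk' (TT G n)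

theorem prT_eq_one (n : ℕ) (x : G) : prT G n x = 1 ↔ x ∈ TT G n := by
  unfold prT; exact QuotientGroup.eq_one_iff _

theorem prT_eq (n : ℕ) (x y : G) : prT G n x = prT G n y ↔ x⁻¹ * y ∈ TT G n := by
  unfold prT; exact QuotientGroup.eq

theorem prT_surj (n : ℕ) : Function.Surjective (prT G n) := QuotientGroup.mk'_surjective _

theorem prT_out (n : ℕ) (q : G ⧸ TT G n) : prT G n (Quotient.out q) = q :=
  QuotientGroup.out_eq' q

/-- elements of `TT (n+1)` are central modulo `TT (n+2)` -/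
theorem TT_central (n : ℕ) {w : G} (hw : w ∈ TT G (n+1)) (g : G ⧸ TT G (n+2)) :
    g * prT G (n+2) w = prT G (n+2) w * g := by
  obtain ⟨y, rfl⟩ := prT_surj _ g
  have h3 : ⁅prT G (n+2) w, prT G (n+2) y⁆ = 1 := by
    rw [← map_commutatorElement]
    exact (prT_eq_one _ _).2 (TT_comm hw y)
  exact (commutatorElement_eq_one_iff_mul_comm.1 h3).symm

theorem TT_mem_center (n : ℕ) {w : G} (hw : w ∈ TT G (n+1)) :
    prT G (n+2) w ∈ Subgroup.center (G ⧸ TT G (n+2)) :=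
  Subgroup.mem_center_iff.2 (TT_central n hw)

/-- `w ↦ [w, t]` with values in the centre -/
def cT (n : ℕ) (t : G) : TT G n →* Subgroup.center (G ⧸ TT G (n+2)) where
  toFun w := ⟨prT G (n+2) ⁅(w : G), t⁆, TT_mem_center n (TT_comm w.2 t)⟩
  map_one' := Subtype.ext (by simp)
  map_mul' v w := by
    apply Subtype.ext
    show prT G (n+2) ⁅(v : G) * w, t⁆ = prT G (n+2) ⁅(v : G), t⁆ * prT G (n+2) ⁅(w : G), t⁆
    have h : ⁅(v : G) * w, t⁆ = (v * ⁅(w : G), t⁆ * (v : G)⁻¹) * ⁅(v : G), t⁆ := by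
      simp only [commutatorElement_def]; group
    have hc := TT_central n (TT_comm w.2 t) (prT G (n+2) v)
    have hc2 := TT_central n (TT_comm w.2 t) (prT G (n+2) ⁅(v : G), t⁆)
    rw [h, map_mul, map_mul, map_mul, map_inv, hc, mul_assoc (prT G (n+2) ⁅(w : G), t⁆),
      mul_inv_cancel, mul_one]
    exact hc2.symm

theorem cT_coe (n : ℕ) (t : G) (w : TT G n) :
    ((cT n t w : Subgroup.center (G ⧸ TT G (n+2))) : G ⧸ TT G (n+2)) =
      prT G (n+2) ⁅(w : G), t⁆ := rfl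

theorem cT_mul (n : ℕ) (s t : G) (w : TT G n) : cT n (s * t) w = cT n s w * cT n t w := by
  apply Subtype.ext
  rw [Subgroup.coe_mul, cT_coe, cT_coe, cT_coe]
  have h : ⁅(w : G), s * t⁆ = ⁅(w : G), s⁆ * (s * ⁅(w : G), t⁆ * s⁻¹) := by
    simp only [commutatorElement_def]; group
  have hc := TT_central n (TT_comm w.2 t) (prT G (n+2) s)
  rw [h, map_mul, map_mul, map_mul, map_inv, hc, mul_assoc (prT G (n+2) ⁅(w : G), t⁆),
    mul_inv_cancel, mul_one]

theorem cT_one (n : ℕ) (w : TT G n) : cT n (1 : G) w = 1 := by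
  apply Subtype.ext; rw [cT_coe]; simp

theorem cT_inv (n : ℕ) (t : G) (w : TT G n) : cT n t⁻¹ w = (cT n t w)⁻¹ := by
  rw [eq_inv_iff_mul_eq_one, ← cT_mul, inv_mul_cancel, cT_one]

theorem cT_TT_one (n : ℕ) (t : G) (ht : t ∈ TT G 1) (w : TT G n) : cT n t w = 1 := by
  let K : Subgroup G :=
    { carrier := {t | cT n t w = 1}
      one_mem' := cT_one n w
      mul_mem' := by
        intro a b ha hb
        show cT n (a * b) w = 1
        rw [cT_mul, show cT n a w = 1 from ha, show cT n b w = 1 from hb, one_mul]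
      inv_mem' := by
        intro a ha
        show cT n a⁻¹ w = 1
        rw [cT_inv, show cT n a w = 1 from ha, inv_one] }
  have hK : TT G 1 ≤ K := by
    unfold TT
    refine sup_le ?_ ?_
    · rw [Subgroup.commutator_le]
      intro x _ y _
      show cT n ⁅x, y⁆ w = 1
      rw [commutatorElement_def, cT_mul, cT_mul, cT_mul, cT_inv, cT_inv, mul_comm (cT n x w),
        mul_assoc (cT n y w), mul_inv_cancel, mul_one, mul_inv_cancel]
    · rw [Subgroup.closure_le]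
      rintro _ ⟨y, _, rfl⟩
      show cT n (y ^ 2) w = 1
      rw [pow_two, cT_mul, ← pow_two]
      apply Subtype.ext
      rw [Subgroup.coe_pow, cT_coe, ← map_pow]
      exact (prT_eq_one _ _).2 (TT_sq (TT_comm w.2 y))
  exact hK ht

theorem TT_comm_one (n : ℕ) {w t : G} (hw : w ∈ TT G n) (ht : t ∈ TT G 1) :
    ⁅w, t⁆ ∈ TT G (n+2) := by
  have h := congrArg Subtype.val (cT_TT_one n t ht ⟨w, hw⟩)
  exact (prT_eq_one _ _).1 h

theorem cT_congr (n : ℕ) {s t : G} (h : prT G 1 s = prT G 1 t) (w : TT G n) :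
    cT n s w = cT n t w := by
  have h1 : t = s * (s⁻¹ * t) := by group
  rw [h1, cT_mul, cT_TT_one n _ ((prT_eq _ _ _).1 h), mul_one]

/-- squaring `TT (n+1) → TT (n+2) / TT (n+3)` -/
def sT (n : ℕ) : TT G (n+1) →* Subgroup.center (G ⧸ TT G (n+3)) where
  toFun w := ⟨prT G (n+3) ((w : G) ^ 2), TT_mem_center (n+1) (TT_sq w.2)⟩
  map_one' := Subtype.ext (by simp)
  map_mul' v w := by
    apply Subtype.ext
    show prT G (n+3) (((v : G) * w) ^ 2) = prT G (n+3) ((v : G) ^ 2) * prT G (n+3) ((w : G) ^ 2)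
    have h : ((v : G) * w) ^ 2 = (v : G) ^ 2 * (⁅(v : G)⁻¹, (w : G)⁆ * (w : G) ^ 2) := by
      simp only [commutatorElement_def, pow_two]; group
    have h2 : ⁅(v : G)⁻¹, (w : G)⁆ ∈ TT G (n+1+2) :=
      TT_comm_one (n+1) (inv_mem v.2) (TT_anti (Nat.le_add_left 1 n) w.2)
    rw [h, map_mul, map_mul (prT G (n+3)) ⁅(v : G)⁻¹, (w : G)⁆, (prT_eq_one _ _).2 h2, one_mul]

theorem sT_coe (n : ℕ) (w : TT G (n+1)) :
    ((sT n w : Subgroup.center (G ⧸ TT G (n+3))) : G ⧸ TT G (n+3)) =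
      prT G (n+3) ((w : G) ^ 2) := rfl

theorem sT_kill (n : ℕ) (w : TT G (n+1)) (hw : (w : G) ∈ TT G (n+2)) : sT n w = 1 := by
  apply Subtype.ext
  rw [sT_coe]
  exact (prT_eq_one _ _).2 (TT_sq hw)

theorem sT_congr (n : ℕ) {v w : TT G (n+1)} (h : prT G (n+2) (v : G) = prT G (n+2) (w : G)) :
    sT n v = sT n w := by
  have h1 : w = v * (v⁻¹ * w) := by group
  rw [h1, map_mul, sT_kill n (v⁻¹ * w) ((prT_eq _ _ _).1 h), mul_one]

/-- `[u,x]² = [u²,x]` modulo `TT (n+3)` for `u ∈ TT n`, `n ≥ 1` (written with `n+1`) -/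
theorem sT_comm (n : ℕ) (u : TT G (n+1)) (x : G) :
    sT (n+1) ⟨⁅(u : G), x⁆, TT_comm u.2 x⟩ = cT (n+2) x ⟨(u : G) ^ 2, TT_sq u.2⟩ := by
  apply Subtype.ext
  rw [sT_coe, cT_coe]
  have h : ⁅(u : G) ^ 2, x⁆ = ⁅(u : G), x⁆ * ⁅(⁅(u : G), x⁆)⁻¹, (u : G)⁆ * ⁅(u : G), x⁆ := by
    simp only [commutatorElement_def, pow_two]; group
  have h2 : ⁅(⁅(u : G), x⁆)⁻¹, (u : G)⁆ ∈ TT G (n+1+1+2) :=
    TT_comm_one (n+1+1) (inv_mem (TT_comm u.2 x)) (TT_anti (Nat.le_add_left 1 n) u.2)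
  show prT G (n+1+3) (⁅(u : G), x⁆ ^ 2) = prT G (n+2+2) ⁅(u : G) ^ 2, x⁆
  rw [h, map_mul, map_mul, (prT_eq_one _ _).2 h2, mul_one, pow_two, map_mul]

end tseries

end H94Simple
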