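import Pool.Agent.H94.SnA

open scoped commutatorElement IsMulCommutative

namespace H94Simple

section relN

variable {G : Type*} [Group G] {h b : ℕ}

abbrev IdN (h b : ℕ) := Fin h ⊕ Fin b

def RelN (c0 : G) (c : Fin b → G) (v : IdN h b → G) : G :=
  (List.ofFn fun i : Fin h => v (Sum.inl i) ^ 2).prod *
    (c0 * (List.ofFn fun j : Fin b => v (Sum.inr j) * c j * (v (Sum.inr j))⁻¹).prod)

def ddN (c : Fin b → G) (v : IdN h b → G) : IdN h b → G
  | Sum.inl i => v (Sum.inl i)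
  | Sum.inr j => c j

def thN (n : ℕ) (s : IdN h b → G) :
    (j : IdN h b) → (TT G (n+1) →* Subgroup.center (G ⧸ TT G (n+3)))
  | Sum.inl i => sT n * cT (n+1) (s (Sum.inl i))
  | Sum.inr j => cT (n+1) (s (Sum.inr j))

def ThN (n : ℕ) (s : IdN h b → G) :
    (IdN h b → TT G (n+1)) →* Subgroup.center (G ⧸ TT G (n+3)) where
  toFun u := ∏ j, thN n s j (u j)
  map_one' := by simp
  map_mul' u v := by simp [Finset.prod_mul_distrib]

theorem ThN_apply (n : ℕ) (s : IdN h b → G) (u : IdN h b → TT G (n+1)) :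
    ThN n s u = ∏ j, thN n s j (u j) := rfl

theorem ThN_single (n : ℕ) (s : IdN h b → G) (j : IdN h b) (w : TT G (n+1)) :
    ThN n s (Pi.mulSingle j w) = thN n s j w := by
  classical
  rw [ThN_apply, Finset.prod_eq_single j]
  · rw [Pi.mulSingle_eq_same]
  · intro i _ hi
    rw [Pi.mulSingle_eq_of_ne hi, map_one]
  · simp

theorem ThN_congr (n : ℕ) {s s' : IdN h b → G} (hs : ∀ j, prT G 1 (s j) = prT G 1 (s' j))
    (u : IdN h b → TT G (n+1)) : ThN n s u = ThN n s' u := by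
  rw [ThN_apply, ThN_apply]
  refine Finset.prod_congr rfl fun j _ => ?_
  rcases j with i | i
  · simp only [thN, MonoidHom.mul_apply]
    rw [cT_congr (n+1) (hs (Sum.inl i))]
  · simp only [thN]
    exact cT_congr (n+1) (hs (Sum.inr i)) _

theorem facN1 (n : ℕ) (x : G) (u : TT G (n+1)) :
    prT G (n+3) ((x * (u : G)) ^ 2) =
      ((sT n u * cT (n+1) x u : Subgroup.center (G ⧸ TT G (n+3))) : G ⧸ TT G (n+3)) *
        prT G (n+3) (x ^ 2) := by
  have e1 : (x * (u : G)) ^ 2 = x ^ 2 * (⁅(u : G), x⁻¹⁆⁻¹ * (u : G) ^ 2) := by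
    simp only [commutatorElement_def, pow_two]; group
  have h1 : prT G (n+3) ⁅(u : G), x⁻¹⁆ =
      ((cT (n+1) x u : Subgroup.center (G ⧸ TT G (n+1+2))) : G ⧸ TT G (n+1+2))⁻¹ := by
    have := congrArg Subtype.val (cT_inv (n+1) x u)
    exact this
  have h2 := Subgroup.mem_center_iff.1 (sT n u * cT (n+1) x u).2 (prT G (n+3) (x ^ 2))
  rw [e1, map_mul, map_mul, map_inv, h1, inv_inv, ← h2, mul_comm (sT n u), Subgroup.coe_mul]
  rfl

theorem facN2 (n : ℕ) (x c : G) (u : TT G (n+1)) :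
    prT G (n+3) (x * (u : G) * c * (x * (u : G))⁻¹) =
      ((cT (n+1) c u : Subgroup.center (G ⧸ TT G (n+1+2))) : G ⧸ TT G (n+1+2)) *
        prT G (n+3) (x * c * x⁻¹) := by
  have e1 : x * (u : G) * c * (x * (u : G))⁻¹ = x * ⁅(u : G), c⁆ * x⁻¹ * (x * c * x⁻¹) := by
    simp only [commutatorElement_def]; group
  have c1 := TT_central (n+1) (TT_comm u.2 c) (prT G (n+3) x)
  rw [e1, map_mul, cT_coe]
  congr 1
  rw [map_mul, map_mul, map_inv]
  change prT G (n+3) x * prT G (n+3) ⁅(u : G), c⁆ * (prT G (n+3) x)⁻¹ = prT G (n+3) ⁅(u : G), c⁆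
  rw [show prT G (n+3) x * prT G (n+3) ⁅(u : G), c⁆ = prT G (n+3) ⁅(u : G), c⁆ * prT G (n+3) x
    from c1, mul_assoc, mul_inv_cancel, mul_one]

theorem RelN_mul (n : ℕ) (c0 : G) (c : Fin b → G) (v : IdN h b → G)
    (u : IdN h b → TT G (n+1)) :
    prT G (n+3) (RelN c0 c fun j => v j * (u j : G)) =
      ((ThN n (ddN c v) u : Subgroup.center (G ⧸ TT G (n+3))) : G ⧸ TT G (n+3)) *
        prT G (n+3) (RelN c0 c v) := by
  have h1 : prT G (n+3) (List.ofFn fun i : Fin h => (v (Sum.inl i) * (u (Sum.inl i) : G)) ^ 2).prod =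
      ((∏ i : Fin h, thN n (ddN c v) (Sum.inl i) (u (Sum.inl i)) :
        Subgroup.center (G ⧸ TT G (n+3))) : G ⧸ TT G (n+3)) *
      prT G (n+3) (List.ofFn fun i : Fin h => v (Sum.inl i) ^ 2).prod := by
    rw [map_list_prod, List.map_ofFn, map_list_prod, List.map_ofFn, ← ofFn_central]
    congr 2
    funext i
    exact facN1 n _ _
  have h2 : prT G (n+3) (List.ofFn fun j : Fin b =>
      v (Sum.inr j) * (u (Sum.inr j) : G) * c j * (v (Sum.inr j) * (u (Sum.inr j) : G))⁻¹).prod =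
      ((∏ j : Fin b, thN n (ddN c v) (Sum.inr j) (u (Sum.inr j)) :
        Subgroup.center (G ⧸ TT G (n+3))) : G ⧸ TT G (n+3)) *
      prT G (n+3) (List.ofFn fun j : Fin b => v (Sum.inr j) * c j * (v (Sum.inr j))⁻¹).prod := by
    rw [map_list_prod, List.map_ofFn, map_list_prod, List.map_ofFn, ← ofFn_central]
    congr 2
    funext i
    exact facN2 n _ _ _
  rw [RelN, RelN, map_mul, map_mul, map_mul, map_mul, h1, h2, ThN_apply, Fintype.prod_sum_type]
  generalize prT G (n+3) (List.ofFn fun i : Fin h => v (Sum.inl i) ^ 2).prod = X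
  generalize prT G (n+3) (List.ofFn fun j : Fin b => v (Sum.inr j) * c j *
        (v (Sum.inr j))⁻¹).prod = Y
  generalize prT G (n+3) c0 = C
  rw [Subgroup.coe_mul]
  have h := Subgroup.mem_center_iff.1
    (∏ j : Fin b, thN n (ddN c v) (Sum.inr j) (u (Sum.inr j))).2 (X * C)
  generalize ((∏ j : Fin b, thN n (ddN c v) (Sum.inr j) (u (Sum.inr j)) :
    Subgroup.center (G ⧸ TT G (n+3))) : G ⧸ TT G (n+3)) = Z at h ⊢
  rw [mul_assoc _ X, ← mul_assoc X C, ← mul_assoc (X * C) Z, h]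
  simp only [mul_assoc]

theorem ThN_gen (n : ℕ) (s : IdN h b → G) (hs : Subgroup.closure (Set.range s) ⊔ TT G 1 = ⊤)
    (y : G) (hy : y ∈ TT G (n+2)) : ∃ (u : IdN h b → TT G (n+1)) (w : TT G (n+1)),
    prT G (n+3) y =
      ((ThN n s u * sT n w : Subgroup.center (G ⧸ TT G (n+3))) : G ⧸ TT G (n+3)) := by
  classical
  set R : Subgroup (Subgroup.center (G ⧸ TT G (n+3))) := (ThN n s).range ⊔ (sT n).range with hR
  have key : ∀ (w : TT G (n+1)) (x : G), cT (n+1) x w ∈ R := by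
    intro w x
    let M : Subgroup G :=
      { carrier := {x | cT (n+1) x w ∈ R}
        one_mem' := by
          show cT (n+1) 1 w ∈ R
          rw [cT_one]; exact one_mem _
        mul_mem' := by
          intro a b ha hb
          show cT (n+1) (a * b) w ∈ R
          rw [cT_mul]; exact mul_mem ha hb
        inv_mem' := by
          intro a ha
          show cT (n+1) a⁻¹ w ∈ R
          rw [cT_inv]; exact inv_mem ha }
    have hM : M = ⊤ := by
      rw [eq_top_iff, ← hs]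
      refine sup_le ?_ ?_
      · rw [Subgroup.closure_le]
        rintro _ ⟨j, rfl⟩
        show cT (n+1) (s j) w ∈ R
        rcases j with i | i
        · have e : cT (n+1) (s (Sum.inl i)) w =
              (sT n w)⁻¹ * ThN n s (Pi.mulSingle (Sum.inl i) w) := by
            rw [ThN_single, thN, MonoidHom.mul_apply, inv_mul_cancel_left]
          rw [e]
          exact mul_mem (Subgroup.mem_sup_right (inv_mem ⟨w, rfl⟩))
            (Subgroup.mem_sup_left ⟨_, rfl⟩)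
        · have e : cT (n+1) (s (Sum.inr i)) w = ThN n s (Pi.mulSingle (Sum.inr i) w) := by
            rw [ThN_single, thN]
          rw [e]
          exact Subgroup.mem_sup_left ⟨_, rfl⟩
      · intro y hy
        show cT (n+1) y w ∈ R
        rw [cT_TT_one (n+1) y hy]; exact one_mem _
    have : x ∈ M := by rw [hM]; exact Subgroup.mem_top _
    exact this
  have h3 : TT G (n+2) ≤ (R.map (Subgroup.center (G ⧸ TT G (n+3))).subtype).comap
      (prT G (n+3)) := by
    conv_lhs => unfold TT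
    refine sup_le ?_ ?_
    · rw [Subgroup.commutator_le]
      intro w hw x _
      exact ⟨cT (n+1) x ⟨w, hw⟩, key _ _, rfl⟩
    · rw [Subgroup.closure_le]
      rintro _ ⟨w, hw, rfl⟩
      exact ⟨sT n ⟨w, hw⟩, Subgroup.mem_sup_right ⟨_, rfl⟩, rfl⟩
  obtain ⟨q, hq, hqy⟩ := h3 hy
  obtain ⟨_, ⟨u, rfl⟩, _, ⟨w, rfl⟩, rfl⟩ := Subgroup.mem_sup.1 hq
  exact ⟨u, w, hqy.symm⟩

theorem TT_pow (n : ℕ) {z : G} (hz : z ∈ TT G 1) : z ^ (2 ^ n) ∈ TT G (n+1) := by
  induction n with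
  | zero => simpa using hz
  | succ n ih => rw [pow_succ, pow_mul]; exact TT_sq ih

theorem TT_pow_congr (n : ℕ) {z z' : G} (hz : z ∈ TT G 1) (hz' : z' ∈ TT G 1)
    (hzz : prT G 2 z = prT G 2 z') : prT G (n+2) (z ^ (2 ^ n)) = prT G (n+2) (z' ^ (2 ^ n)) := by
  induction n with
  | zero => simpa using hzz
  | succ n ih =>
    have h := sT_congr n (v := ⟨z ^ (2^n), TT_pow n hz⟩) (w := ⟨z' ^ (2^n), TT_pow n hz'⟩) ih
    have h2 := congrArg Subtype.val h
    rw [sT_coe, sT_coe] at h2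
    rw [pow_succ, pow_mul, pow_mul]
    exact h2

/-- the projection of `TT (n+1)` into the centre -/
def prc (n : ℕ) : TT G (n+1) →* Subgroup.center (G ⧸ TT G (n+2)) where
  toFun w := ⟨prT G (n+2) w, TT_mem_center n w.2⟩
  map_one' := Subtype.ext (by simp)
  map_mul' v w := Subtype.ext (by simp)

theorem lift_m (n : ℕ) (s : IdN h b → G) (u : IdN h b → TT G (n+1)) :
    ∃ m : TT G (n+2), prc (n+1) m = ThN n s u ∧
      sT (n+1) m = ThN (n+1) s fun j => ⟨(u j : G) ^ 2, TT_sq (u j).2⟩ := by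
  let F : TT G (n+2) →* Subgroup.center (G ⧸ TT G (n+3)) × Subgroup.center (G ⧸ TT G (n+1+3)) :=
    (prc (n+1)).prod (sT (n+1))
  have hj : ∀ j, (thN n s j (u j), thN (n+1) s j ⟨(u j : G) ^ 2, TT_sq (u j).2⟩) ∈ F.range := by
    intro j
    rcases j with i | i
    · refine ⟨⟨(u (Sum.inl i) : G) ^ 2, TT_sq (u (Sum.inl i)).2⟩ *
        ⟨⁅(u (Sum.inl i) : G), s (Sum.inl i)⁆, TT_comm (u (Sum.inl i)).2 _⟩, ?_⟩
      refine Prod.ext ?_ ?_
      · show prc (n+1) _ = _
        rw [map_mul]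
        rfl
      · show sT (n+1) _ = _
        rw [map_mul, sT_comm]
        rfl
    · refine ⟨⟨⁅(u (Sum.inr i) : G), s (Sum.inr i)⁆, TT_comm (u (Sum.inr i)).2 _⟩, ?_⟩
      refine Prod.ext ?_ ?_
      · rfl
      · show sT (n+1) _ = _
        rw [sT_comm]
        rfl
  have hp : (∏ j, (thN n s j (u j), thN (n+1) s j ⟨(u j : G) ^ 2, TT_sq (u j).2⟩)) ∈ F.range :=
    Subgroup.prod_mem _ fun j _ => hj j
  obtain ⟨m, hm⟩ := hp
  refine ⟨m, ?_, ?_⟩
  · have := congrArg Prod.fst hm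
    rw [Prod.fst_prod] at this
    exact this
  · have := congrArg Prod.snd hm
    rw [Prod.snd_prod] at this
    exact this

theorem ThN_cover (s : IdN h b → G) (hs : Subgroup.closure (Set.range s) ⊔ TT G 1 = ⊤) (n : ℕ) :
    ∀ y ∈ TT G (n+2), ∃ (u : IdN h b → TT G (n+1)) (z : G), z ∈ TT G 1 ∧
    prT G (n+3) y = ((ThN n s u : Subgroup.center (G ⧸ TT G (n+3))) : G ⧸ TT G (n+3)) *
      prT G (n+3) (z ^ (2 ^ (n+1))) := by
  induction n with
  | zero =>
    intro y hy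
    obtain ⟨u, w, hw⟩ := ThN_gen 0 s hs y hy
    refine ⟨u, w, w.2, ?_⟩
    rw [hw, Subgroup.coe_mul, sT_coe]
    simp
  | succ n ih =>
    intro y hy
    obtain ⟨u, w, hw⟩ := ThN_gen (n+1) s hs y hy
    obtain ⟨u', z, hz, hwz⟩ := ih w w.2
    obtain ⟨m, hm1, hm2⟩ := lift_m n s u'
    have e1 : sT (n+1) w = sT (n+1) (m * ⟨z ^ (2 ^ (n+1)), TT_pow (n+1) hz⟩) := by
      apply sT_congr
      rw [Subgroup.coe_mul, map_mul, hwz]
      congr 1
      rw [← hm1]
      rfl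
    let u2 : IdN h b → TT G (n+2) := fun j => ⟨(u' j : G) ^ 2, TT_sq (u' j).2⟩
    let zz : TT G (n+2) := ⟨z ^ (2 ^ (n+1)), TT_pow (n+1) hz⟩
    have e2 : sT (n+1) w = ThN (n+1) s u2 * sT (n+1) zz := by
      rw [e1, map_mul, hm2]
    have e3 : ThN (n+1) s u * sT (n+1) w = ThN (n+1) s (u * u2) * sT (n+1) zz := by
      rw [e2, map_mul, mul_assoc]
    refine ⟨u * u2, z, hz, ?_⟩
    have e4 : z ^ (2 ^ (n+1+1)) = (z ^ (2 ^ (n+1))) ^ 2 := by
      rw [pow_succ 2 (n+1), pow_mul]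
    rw [hw, e3, e4]
    rfl

end relN

end H94Simple
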