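import Pool.Agent.H94.SnB

open scoped commutatorElement IsMulCommutative

namespace H94Simple

section countN

variable {G : Type*} [Group G] {h b : ℕ}

def EEN (c0 : G) (c : Fin b → G) (n : ℕ) : Set (IdN h b → G) :=
  {v | Subgroup.closure (Set.range (ddN c v)) ⊔ TT G 1 = ⊤ ∧ RelN c0 c v ∈ TT G (n+1)}

theorem ddN_congr (c : Fin b → G) {v v' : IdN h b → G}
    (hv : ∀ j, prT G 1 (v j) = prT G 1 (v' j)) :
    ∀ j, prT G 1 (ddN c v j) = prT G 1 (ddN c v' j) := by
  intro j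
  rcases j with i | i
  · exact hv _
  · rfl

theorem genN_congr {J : Type*} {s s' : J → G} (hss : ∀ j, prT G 1 (s j) = prT G 1 (s' j))
    (hs : Subgroup.closure (Set.range s) ⊔ TT G 1 = ⊤) :
    Subgroup.closure (Set.range s') ⊔ TT G 1 = ⊤ := by
  rw [eq_top_iff, ← hs]
  refine sup_le ?_ le_sup_right
  rw [Subgroup.closure_le]
  rintro _ ⟨j, rfl⟩
  have e : s j = s' j * ((s' j)⁻¹ * s j) := by group
  rw [SetLike.mem_coe, e]
  exact mul_mem (Subgroup.mem_sup_left (Subgroup.subset_closure ⟨j, rfl⟩))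
    (Subgroup.mem_sup_right ((prT_eq _ _ _).1 (hss j).symm))

theorem prT_one_mul {n : ℕ} (hn : 1 ≤ n) (x : G) (u : TT G n) :
    prT G 1 (x * (u : G)) = prT G 1 x := by
  rw [map_mul, (prT_eq_one 1 (u : G)).2 (TT_anti hn u.2), mul_one]

theorem mem_of_mapN {n : ℕ} {x : G} (hx : prT G (n+2) x ∈ (TT G (n+1)).map (prT G (n+2))) :
    x ∈ TT G (n+1) := by
  obtain ⟨y, hy, hyx⟩ := hx
  have h1 := TT_anti (Nat.le_succ (n+1)) ((prT_eq _ _ _).1 hyx)
  have : x = y * (y⁻¹ * x) := by group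
  rw [this]; exact mul_mem hy h1

theorem ThN_mem (n : ℕ) (s : IdN h b → G) (u : IdN h b → TT G (n+1)) :
    ((ThN n s u : Subgroup.center (G ⧸ TT G (n+3))) : G ⧸ TT G (n+3)) ∈
      (TT G (n+2)).map (prT G (n+3)) := by
  obtain ⟨m, hm, _⟩ := lift_m n s u
  rw [← hm]
  exact ⟨m, m.2, rfl⟩

theorem EEN_mul (n : ℕ) {c0 : G} {c : Fin b → G} {v : IdN h b → G}
    (hv : v ∈ EEN c0 c (n+1)) (u : IdN h b → TT G (n+1)) :
    (fun j => v j * (u j : G)) ∈ EEN c0 c (n+1) := by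
  refine ⟨genN_congr (ddN_congr c fun j => (prT_one_mul (Nat.le_add_left 1 n) _ _).symm) hv.1, ?_⟩
  refine mem_of_mapN ?_
  have h1 := RelN_mul n c0 c v u
  show prT G (n+3) _ ∈ (TT G (n+2)).map (prT G (n+3))
  rw [h1]
  exact mul_mem (ThN_mem n _ u) ⟨_, hv.2, rfl⟩

theorem EEN_anti {n : ℕ} {c0 : G} {c : Fin b → G} {v : IdN h b → G}
    (hv : v ∈ EEN c0 c (n+1)) : v ∈ EEN c0 c n := ⟨hv.1, TT_anti (Nat.le_succ _) hv.2⟩

abbrev LQ (G : Type*) [Group G] (n : ℕ) := TT G n ⧸ (TT G (n+1)).subgroupOf (TT G n)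

open Classical in
/-- choice of the corrections -/
noncomputable def UN (n : ℕ) (q : IdN h b → G ⧸ TT G 1) (τ : LQ G (n+2)) :
    (IdN h b → TT G (n+1)) × LQ G 1 :=
  Classical.epsilon fun x : (IdN h b → TT G (n+1)) × LQ G 1 =>
    prT G (n+3) ((Quotient.out τ : TT G (n+2)) : G) =
      ((ThN n (fun j => Quotient.out (q j)) x.1 : Subgroup.center (G ⧸ TT G (n+3))) :
        G ⧸ TT G (n+3)) * prT G (n+3) (((Quotient.out x.2 : TT G 1) : G) ^ (2 ^ (n+1)))

theorem UN_spec (n : ℕ) {c0 : G} {c : Fin b → G} {v : IdN h b → G}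
    (hv : v ∈ EEN c0 c (n+2)) (τ : LQ G (n+2)) :
    prT G (n+3) ((Quotient.out τ : TT G (n+2)) : G) =
    prT G (n+3) (RelN c0 c fun j => v j * ((UN n (fun j => prT G 1 (ddN c v j)) τ).1 j : G)) *
      prT G (n+3) (((Quotient.out (UN n (fun j => prT G 1 (ddN c v j)) τ).2 : TT G 1) : G) ^
        (2 ^ (n+1))) := by
  have h1 : ∀ j, prT G 1 (ddN c v j) = prT G 1 (Quotient.out (prT G 1 (ddN c v j))) := fun j =>
    (prT_out _ _).symm
  obtain ⟨u, z, hz, h2⟩ := ThN_cover _ (genN_congr h1 hv.1) n _ (Quotient.out τ : TT G (n+2)).2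
  have hzz : prT G 2 z = prT G 2
      ((Quotient.out (QuotientGroup.mk ⟨z, hz⟩ : LQ G 1) : TT G 1) : G) := by
    rw [prT_eq]
    have := QuotientGroup.out_eq' (QuotientGroup.mk ⟨z, hz⟩ : LQ G 1)
    rw [eq_comm, QuotientGroup.eq, Subgroup.mem_subgroupOf] at this
    exact this
  have hex : ∃ x : (IdN h b → TT G (n+1)) × LQ G 1,
    prT G (n+3) ((Quotient.out τ : TT G (n+2)) : G) =
      ((ThN n (fun j => Quotient.out (prT G 1 (ddN c v j))) x.1 :
        Subgroup.center (G ⧸ TT G (n+3))) :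
        G ⧸ TT G (n+3)) * prT G (n+3) (((Quotient.out x.2 : TT G 1) : G) ^ (2 ^ (n+1))) := by
    refine ⟨(u, QuotientGroup.mk ⟨z, hz⟩), ?_⟩
    rw [h2]
    congr 1
    exact TT_pow_congr (n+1) hz (Quotient.out (QuotientGroup.mk ⟨z, hz⟩ : LQ G 1) : TT G 1).2 hzz
  have h3 := Classical.epsilon_spec hex
  rw [RelN_mul, (prT_eq_one (n+3) _).2 hv.2, mul_one, ThN_congr n h1]
  exact h3

theorem EEN_step [Finite G] (n : ℕ) (c0 : G) (c : Fin b → G) :
    Nat.card (EEN (h := h) c0 c (n+2)) * (TT G (n+3)).relIndex (TT G (n+2)) ≤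
      Nat.card (EEN (h := h) c0 c (n+1)) * (TT G 2).relIndex (TT G 1) := by
  have e : (TT G (n+3)).relIndex (TT G (n+2)) = Nat.card (LQ G (n+2)) := rfl
  have e2 : (TT G 2).relIndex (TT G 1) = Nat.card (LQ G 1) := rfl
  rw [e, e2, ← Nat.card_prod, ← Nat.card_prod]
  let F : (EEN (h := h) c0 c (n+2)) × LQ G (n+2) → EEN (h := h) c0 c (n+1) × LQ G 1 := fun x =>
    ⟨⟨fun j => x.1.1 j * ((UN n (fun j => prT G 1 (ddN c x.1.1 j)) x.2).1 j : G),
      EEN_mul n (EEN_anti x.1.2) _⟩, (UN n (fun j => prT G 1 (ddN c x.1.1 j)) x.2).2⟩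
  refine Nat.card_le_card_of_injective F ?_
  rintro ⟨⟨v, hv⟩, τ⟩ ⟨⟨v', hv'⟩, τ'⟩ hF
  have h0 : (fun j => v j * ((UN n (fun j => prT G 1 (ddN c v j)) τ).1 j : G)) =
      fun j => v' j * ((UN n (fun j => prT G 1 (ddN c v' j)) τ').1 j : G) :=
    congrArg Subtype.val (congrArg Prod.fst hF)
  have h00 : (UN n (fun j => prT G 1 (ddN c v j)) τ).2 =
      (UN n (fun j => prT G 1 (ddN c v' j)) τ').2 := by
    have hF2 := congrArg Prod.snd hF
    exact hF2
  have h1 : ∀ j, prT G 1 (v j) = prT G 1 (v' j) := by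
    intro j
    have := congrArg (prT G 1) (congrFun h0 j)
    rwa [prT_one_mul (Nat.le_add_left 1 n), prT_one_mul (Nat.le_add_left 1 n)] at this
  have h2 : (fun j => prT G 1 (ddN c v j)) = fun j => prT G 1 (ddN c v' j) :=
    funext (ddN_congr c h1)
  have h3 := UN_spec n hv τ
  have h4 := UN_spec n hv' τ'
  rw [h0, h00, ← h4] at h3
  have h5 : τ = τ' := by
    rw [← QuotientGroup.out_eq' τ, ← QuotientGroup.out_eq' τ', QuotientGroup.eq,
      Subgroup.mem_subgroupOf]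
    exact (prT_eq _ _ _).1 h3
  subst h5
  rw [← h2] at h0
  have h6 : v = v' := by
    funext j
    exact mul_right_cancel (congrFun h0 j)
  subst h6
  rfl

theorem EEN_bound [Finite G] (c0 : G) (c : Fin b → G) (n : ℕ) :
    Nat.card (EEN (h := h) c0 c (n+1)) * (TT G (n+2)).index ≤
      Nat.card (EEN (h := h) c0 c 1) * (TT G 2).index * (TT G 2).relIndex (TT G 1) ^ n := by
  induction n with
  | zero => simp
  | succ n ih =>
    have h1 := EEN_step (h := h) n c0 c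
    have h2 : (TT G (n+3)).relIndex (TT G (n+2)) * (TT G (n+2)).index = (TT G (n+3)).index :=
      Subgroup.relIndex_mul_index (TT_anti (G := G) (Nat.le_succ (n+2)))
    calc Nat.card (EEN (h := h) c0 c (n+1+1)) * (TT G (n+1+2)).index
        = Nat.card (EEN (h := h) c0 c (n+2)) * (TT G (n+3)).relIndex (TT G (n+2)) *
          (TT G (n+2)).index := by rw [mul_assoc, h2]
      _ ≤ Nat.card (EEN (h := h) c0 c (n+1)) * (TT G 2).relIndex (TT G 1) *
          (TT G (n+2)).index := Nat.mul_le_mul_right _ h1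
      _ = Nat.card (EEN (h := h) c0 c (n+1)) * (TT G (n+2)).index *
          (TT G 2).relIndex (TT G 1) := by ring
      _ ≤ Nat.card (EEN (h := h) c0 c 1) * (TT G 2).index * (TT G 2).relIndex (TT G 1) ^ n *
          (TT G 2).relIndex (TT G 1) := Nat.mul_le_mul_right _ ih
      _ = _ := by rw [pow_succ]; ring

def DDN (c0 : G) (c : Fin b → G) (n : ℕ) : Set (IdN h b → G ⧸ TT G n) :=
  (fun v j => prT G n (v j)) '' EEN c0 c n

theorem DDN_card [Finite G] (n : ℕ) (c0 : G) (c : Fin b → G) :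
    Nat.card (DDN (h := h) c0 c (n+1)) * Nat.card (TT G (n+1)) ^ Fintype.card (IdN h b) ≤
      Nat.card (EEN (h := h) c0 c (n+1)) := by
  have e : Nat.card (TT G (n+1)) ^ Fintype.card (IdN h b) = Nat.card (IdN h b → TT G (n+1)) := by
    rw [Nat.card_fun, Nat.card_eq_fintype_card (α := IdN h b)]
  rw [e, ← Nat.card_prod]
  have hch : ∀ d : DDN (h := h) c0 c (n+1),
      ∃ v, v ∈ EEN c0 c (n+1) ∧ (fun j => prT G (n+1) (v j)) = d.1 := fun d => d.2
  choose rep hrep1 hrep2 using hch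
  let F : (DDN (h := h) c0 c (n+1)) × (IdN h b → TT G (n+1)) → EEN (h := h) c0 c (n+1) := fun x =>
    ⟨fun j => rep x.1 j * (x.2 j : G), EEN_mul n (hrep1 x.1) x.2⟩
  refine Nat.card_le_card_of_injective F ?_
  rintro ⟨d, u⟩ ⟨d', u'⟩ hF
  have h0 : (fun j => rep d j * (u j : G)) = fun j => rep d' j * (u' j : G) :=
    congrArg Subtype.val hF
  have h1 : d = d' := by
    apply Subtype.ext
    rw [← hrep2, ← hrep2]
    funext j
    have := congrArg (prT G (n+1)) (congrFun h0 j)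
    rwa [map_mul, map_mul, (prT_eq_one (n+1) (u j : G)).2 (u j).2,
      (prT_eq_one (n+1) (u' j : G)).2 (u' j).2, mul_one, mul_one] at this
  subst h1
  have h2 : u = u' := by
    funext j
    exact Subtype.ext (mul_left_cancel (congrFun h0 j))
  subst h2
  rfl

theorem DDN_bound [Finite G] (c0 : G) (c : Fin b → G) (n : ℕ) :
    Nat.card (DDN (h := h) c0 c (n+1)) * (TT G (n+2)).index ≤
      (TT G (n+1)).index ^ Fintype.card (IdN h b) * (TT G 2).index *
        (TT G 2).relIndex (TT G 1) ^ n := by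
  have h1 := DDN_card (h := h) n c0 c
  have h2 := EEN_bound (h := h) c0 c n
  have h3 : Nat.card (EEN (h := h) c0 c 1) ≤ Nat.card (IdN h b → G) :=
    Nat.card_le_card_of_injective _ Subtype.val_injective
  rw [Nat.card_fun, Nat.card_eq_fintype_card (α := IdN h b)] at h3
  have h4 : Nat.card G = Nat.card (TT G (n+1)) * (TT G (n+1)).index :=
    ((TT G (n+1)).card_mul_index).symm
  set r := Fintype.card (IdN h b)
  set k := Nat.card (TT G (n+1))
  set κ := (TT G 2).relIndex (TT G 1) ^ n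
  have hk : 0 < k := Nat.card_pos
  rw [h4, mul_pow] at h3
  have h5 : Nat.card (DDN (h := h) c0 c (n+1)) * (TT G (n+2)).index * k ^ r ≤
      (TT G (n+1)).index ^ r * (TT G 2).index * κ * k ^ r := by
    calc Nat.card (DDN (h := h) c0 c (n+1)) * (TT G (n+2)).index * k ^ r
        = (Nat.card (DDN (h := h) c0 c (n+1)) * k ^ r) * (TT G (n+2)).index := by ring
      _ ≤ Nat.card (EEN (h := h) c0 c (n+1)) * (TT G (n+2)).index := Nat.mul_le_mul_right _ h1
      _ ≤ Nat.card (EEN (h := h) c0 c 1) * (TT G 2).index * κ := h2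
      _ ≤ (k ^ r * (TT G (n+1)).index ^ r) * (TT G 2).index * κ :=
        Nat.mul_le_mul_right _ (Nat.mul_le_mul_right _ h3)
      _ = _ := by ring
  exact Nat.le_of_mul_le_mul_right h5 (pow_pos hk r)

end countN

end H94Simple
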