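import Pool.Agent.H94.SnC

open scoped commutatorElement IsMulCommutative

namespace H94Simple

/-! ### non-orientable surface groups -/

/-- Standard generators of the fundamental group of the non-orientable surface of genus `h`
(a connected sum of `h` projective planes) with `b` punctures. -/
inductive GenN (h b : ℕ)
  | x (i : Fin h)
  | c (j : Fin b)

/-- The relator `x₁² ⋯ x_h² c₁ ⋯ c_b`. -/
def relatorN (h b : ℕ) : FreeGroup (GenN h b) :=
  (List.ofFn fun i : Fin h => FreeGroup.of (GenN.x i : GenN h b) ^ 2).prod *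
    (List.ofFn fun j : Fin b => FreeGroup.of (GenN.c j : GenN h b)).prod

/-- The fundamental group of the non-orientable surface of genus `h` with `b` punctures. -/
abbrev NSurf (h b : ℕ) : Type := PresentedGroup ({relatorN h b} : Set (FreeGroup (GenN h b)))

/-- the crosscap generators -/
def XN {h b : ℕ} (i : Fin h) : NSurf h b := PresentedGroup.of (GenN.x i)
/-- the loops around the punctures -/
def CN {h b : ℕ} (j : Fin b) : NSurf h b := PresentedGroup.of (GenN.c j)

/-- Automorphisms which permute the classes of the loops around the punctures up to inversion. By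
the Dehn–Nielsen–Baer theorem (for non-orientable surfaces) these are the automorphisms induced by
the homeomorphisms of the surface. -/
def IsGeometricN {h b : ℕ} (φ : NSurf h b ≃* NSurf h b) : Prop :=
  ∃ (σ : Equiv.Perm (Fin b)) (ε : Fin b → ℤˣ), ∀ j, IsConj (φ (CN j)) (CN (σ j) ^ (ε j : ℤ))

section wordsN

variable {H K : Type*} [Group H] [Group K] {h b : ℕ}

/-- `x_i x_{i+1} ⋯ x_{j-1}`: passes once through each of the crosscaps `i, …, j-1`. -/
def conW (X : Fin h → H) (i j : ℕ) : H :=
  (List.ofFn fun t : Fin h => if i ≤ (t : ℕ) ∧ (t : ℕ) < j then X t else 1).prod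

/-- The loop which separates the last `k` crosscaps and the first `l` punctures from the rest:
`x_{h-k}² ⋯ x_{h-1}² c_0 ⋯ c_{l-1}`. -/
def sepW (X : Fin h → H) (p : Fin b → H) (k l : ℕ) : H :=
  (List.ofFn fun t : Fin h => if h ≤ (t : ℕ) + k then X t ^ 2 else 1).prod *
    (List.ofFn fun j : Fin b => if (j : ℕ) < l then p j else 1).prod

/-- The loop which separates an orientable subsurface of genus `m`, contained in the part with the
last `2 m + 1` crosscaps, together with the first `l` punctures from the rest: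
`(x_{h-2m-1} ⋯ x_{h-1})⁻² x_{h-2m-1}² ⋯ x_{h-1}² c_0 ⋯ c_{l-1}`. -/
def sepOW (X : Fin h → H) (p : Fin b → H) (m l : ℕ) : H :=
  (conW X (h - (2 * m + 1)) h)⁻¹ ^ 2 * sepW X p (2 * m + 1) l

theorem conW_map (f : H →* K) (X : Fin h → H) (i j : ℕ) :
    f (conW X i j) = conW (fun t => f (X t)) i j := by
  rw [conW, conW, map_list_prod, List.map_ofFn]
  congr 2
  funext t
  simp only [Function.comp]
  split_ifs
  · rfl
  · rw [map_one]

theorem sepW_map (f : H →* K) (X : Fin h → H) (p : Fin b → H) (k l : ℕ) :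
    f (sepW X p k l) = sepW (fun t => f (X t)) (fun j => f (p j)) k l := by
  rw [sepW, sepW, map_mul, map_list_prod, List.map_ofFn, map_list_prod, List.map_ofFn]
  congr 1
  · congr 2
    funext i
    simp only [Function.comp]
    split_ifs
    · rw [map_pow]
    · rw [map_one]
  · congr 2
    funext i
    simp only [Function.comp]
    split_ifs
    · rfl
    · rw [map_one]

theorem sepOW_map (f : H →* K) (X : Fin h → H) (p : Fin b → H) (m l : ℕ) :
    f (sepOW X p m l) = sepOW (fun t => f (X t)) (fun j => f (p j)) m l := by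
  rw [sepOW, sepOW, map_mul, map_pow, map_inv, conW_map, sepW_map]

end wordsN

/-- The standard simple closed curves: the curves through consecutive crosscaps and the separating
curves of the two kinds. -/
def stdN (h b : ℕ) : Set (NSurf h b) :=
  {t | (∃ i j, i < j ∧ j ≤ h ∧ t = conW XN i j) ∨
    (∃ k l, k ≤ h ∧ l ≤ b ∧ t = sepW XN CN k l) ∨
    (∃ m l, 2 * m + 1 ≤ h ∧ l ≤ b ∧ t = sepOW XN CN m l)}

/-- The set of the elements whose conjugacy class is represented by a simple closed curve. -/
def simpleN (h b : ℕ) : Set (NSurf h b) :=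
  {s | ∃ φ : NSurf h b ≃* NSurf h b, IsGeometricN φ ∧ ∃ t ∈ stdN h b, s = φ t ∨ s = (φ t)⁻¹}

section basicsN

variable {h b : ℕ}

theorem IsGeometricN.trans {φ ψ : NSurf h b ≃* NSurf h b} (hφ : IsGeometricN φ)
    (hψ : IsGeometricN ψ) : IsGeometricN (φ.trans ψ) := by
  obtain ⟨σ, ε, h1⟩ := hφ
  obtain ⟨τ, δ, h2⟩ := hψ
  refine ⟨σ.trans τ, fun j => δ (σ j) * ε j, fun j => ?_⟩
  have h3 := isConj_map' (h1 j) ψ
  have h4 := isConj_zpow (h2 (σ j)) (ε j : ℤ)
  rw [map_zpow] at h3
  rw [← zpow_mul] at h4
  have h5 := h3.trans h4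
  rw [Units.val_mul]
  exact h5

theorem isGeometricN_of_conj (φ : NSurf h b ≃* NSurf h b) (hc : ∀ j, IsConj (φ (CN j)) (CN j)) :
    IsGeometricN φ := ⟨Equiv.refl _, fun _ => 1, fun j => by simpa using hc j⟩

theorem isGeometricN_conj (x : NSurf h b) : IsGeometricN (MulAut.conj x) :=
  isGeometricN_of_conj _ fun j => (isConj_iff.2 ⟨x, rfl⟩ : IsConj (CN j) _).symm

theorem simpleN_image {s : NSurf h b} (hs : s ∈ simpleN h b) {ψ : NSurf h b ≃* NSurf h b}
    (hψ : IsGeometricN ψ) : ψ s ∈ simpleN h b := by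
  obtain ⟨φ, hφ, t, ht, h⟩ := hs
  refine ⟨φ.trans ψ, hφ.trans hψ, t, ht, ?_⟩
  rcases h with rfl | rfl
  · left; rfl
  · right; rw [map_inv]; rfl

theorem simpleN_inv {s : NSurf h b} (hs : s ∈ simpleN h b) : s⁻¹ ∈ simpleN h b := by
  obtain ⟨φ, hφ, t, ht, h⟩ := hs
  refine ⟨φ, hφ, t, ht, ?_⟩
  rcases h with rfl | rfl
  · right; rfl
  · left; rw [inv_inv]

theorem simpleN_conj : ∀ s ∈ simpleN h b, ∀ x : NSurf h b, x * s * x⁻¹ ∈ simpleN h b :=
  fun _ hs x => simpleN_image hs (isGeometricN_conj x)

theorem isGeometricN_refl : IsGeometricN (MulEquiv.refl (NSurf h b)) :=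
  isGeometricN_of_conj _ fun j => IsConj.refl _

theorem simpleN_std {t : NSurf h b} (ht : t ∈ stdN h b) : t ∈ simpleN h b :=
  ⟨MulEquiv.refl _, isGeometricN_refl, t, ht, Or.inl rfl⟩

theorem simpleN_one : (1 : NSurf h b) ∈ simpleN h b := by
  apply simpleN_std
  right; left
  refine ⟨0, 0, Nat.zero_le _, Nat.zero_le _, ?_⟩
  rw [sepW]
  have h1 : (List.ofFn fun t : Fin h => if h ≤ (t : ℕ) + 0 then (XN t : NSurf h b) ^ 2 else 1) =
      List.ofFn fun _ : Fin h => (1 : NSurf h b) := by
    congr 1
    funext t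
    rw [if_neg]
    have := t.2; omega
  rw [h1]
  simp

/-- the relation -/
theorem relationN : (List.ofFn fun i : Fin h => (XN i : NSurf h b) ^ 2).prod *
    (List.ofFn fun j : Fin b => (CN j : NSurf h b)).prod = 1 := by
  have h : (PresentedGroup.mk ({relatorN h b} : Set (FreeGroup (GenN h b)))) (relatorN h b) = 1 :=
    PresentedGroup.one_of_mem rfl
  rw [relatorN, map_mul, map_list_prod, map_list_prod, List.map_ofFn, List.map_ofFn] at h
  exact h

/-- homomorphisms out of the surface group -/
def liftN {H : Type*} [Group H] (fx : Fin h → H) (fc : Fin b → H)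
    (hr : (List.ofFn fun i : Fin h => fx i ^ 2).prod * (List.ofFn fc).prod = 1) :
    NSurf h b →* H :=
  PresentedGroup.toGroup (f := fun x => match x with
    | GenN.x i => fx i
    | GenN.c j => fc j) (by
      intro r hrr
      rw [Set.mem_singleton_iff.1 hrr, relatorN, map_mul, map_list_prod, map_list_prod,
        List.map_ofFn, List.map_ofFn]
      rw [← hr]
      congr 1
      · congr 2
        funext i
        simp
      · congr 2
        funext i
        simp)

@[simp] theorem liftN_X {H : Type*} [Group H] (fx : Fin h → H) (fc : Fin b → H) (hr)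
    (i : Fin h) : liftN fx fc hr (XN i) = fx i := by
  simp [liftN, XN]

@[simp] theorem liftN_C {H : Type*} [Group H] (fx : Fin h → H) (fc : Fin b → H) (hr)
    (i : Fin b) : liftN fx fc hr (CN i) = fc i := by
  simp [liftN, CN]

theorem homN_ext {H : Type*} [Group H] {f f' : NSurf h b →* H} (hx : ∀ i, f (XN i) = f' (XN i))
    (hc : ∀ i, f (CN i) = f' (CN i)) : f = f' := by
  apply PresentedGroup.ext
  intro x
  cases x with
  | x i => exact hx i
  | c i => exact hc i

theorem closure_gensN (M : Subgroup (NSurf h b)) (hx : ∀ i, (XN i) ∈ M)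
    (hc : ∀ j, CN j ∈ M) : M = ⊤ := by
  rw [eq_top_iff, ← PresentedGroup.closure_range_of, Subgroup.closure_le]
  rintro _ ⟨x, rfl⟩
  cases x with
  | x i => exact hx i
  | c i => exact hc i

end basicsN

section genericN

theorem exists_funS {G : Type*} [Group G] {S : Set G} (hinv : ∀ s ∈ S, s⁻¹ ∈ S)
    (h1 : (1 : G) ∈ S) {n k : ℕ} (hd : dia S n ≤ (k : ℕ∞)) (x : G) :
    ∃ f : Fin k → G, (∀ i, f i ∈ S) ∧ pr G n (List.ofFn f).prod = pr G n x := by
  have h1' : wordLen (pr G n '' S) (pr G n x) ≤ (k : ℕ∞) :=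
    (le_iSup (fun q => wordLen (pr G n '' S) q) (pr G n x)).trans hd
  obtain ⟨L, hL, hlen⟩ := exists_word h1'
  obtain ⟨l, h1l, h2, h3⟩ := lift_word S n L hL.1
  rw [hL.2] at h3
  have h1'' : ∀ x ∈ l, x ∈ S := by
    intro x hx
    rcases h1l x hx with h | h
    · exact h
    · simpa using hinv _ h
  have hk : (l ++ List.replicate (k - l.length) 1).length = k := by
    rw [List.length_append, List.length_replicate]; omega
  refine ⟨fun i => (l ++ List.replicate (k - l.length) 1).get (i.cast hk.symm), ?_, ?_⟩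
  · intro i
    have := List.get_mem (l ++ List.replicate (k - l.length) 1) (i.cast hk.symm)
    rcases List.mem_append.1 this with h | h
    · exact h1'' _ h
    · have e := List.eq_of_mem_replicate h
      show (l ++ List.replicate (k - l.length) 1).get (i.cast hk.symm) ∈ S
      rw [e]; exact h1
  · have e : (List.ofFn fun i : Fin k => (l ++ List.replicate (k - l.length) 1).get
        (i.cast hk.symm)) = l ++ List.replicate (k - l.length) 1 := by
      apply List.ext_get
      · simp [hk]
      · intro n h1 h2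
        simp
    rw [e, List.prod_append, List.prod_replicate, one_pow, mul_one, h3]

theorem dia_monoS {G : Type*} [Group G] {S : Set G} (hinv : ∀ s ∈ S, s⁻¹ ∈ S)
    (h1 : (1 : G) ∈ S) {k m n : ℕ} (hmn : m ≤ n) (h : dia S n ≤ (k : ℕ∞)) :
    dia S m ≤ (k : ℕ∞) := by
  refine diam_le fun q => ?_
  obtain ⟨x, rfl⟩ := pr_surj m q
  obtain ⟨f, hf1, hf2⟩ := exists_funS hinv h1 h x
  refine ⟨List.ofFn fun i => pr G m (f i), ⟨?_, ?_⟩, by simp⟩
  · intro y hy
    obtain ⟨i, rfl⟩ := (List.mem_ofFn' _ _).1 hy
    exact Or.inl ⟨f i, hf1 i, rfl⟩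
  · have h1 : pr G m (List.ofFn f).prod = pr G m x := by
      rw [pr_eq]
      exact lcs_anti' hmn ((pr_eq _ _ _).1 hf2)
    rw [← h1, map_list_prod, List.map_ofFn]
    rfl

theorem lcs_le_TT {G : Type*} [Group G] (n : ℕ) : lcs G n ≤ TT G n := by
  induction n with
  | zero => exact le_rfl
  | succ n ih =>
    rw [lcs_succ, Subgroup.commutator_le]
    intro x hx y _
    exact TT_comm (ih hx) y

theorem TT_map {G H : Type*} [Group G] [Group H] (f : G →* H) (n : ℕ) :
    ∀ x ∈ TT G n, f x ∈ TT H n := by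
  induction n with
  | zero => intro x _; exact Subgroup.mem_top _
  | succ n ih =>
    have hle : TT G (n+1) ≤ (TT H (n+1)).comap f := by
      conv_lhs => unfold TT
      refine sup_le ?_ ?_
      · rw [Subgroup.commutator_le]
        intro x hx y _
        rw [Subgroup.mem_comap, map_commutatorElement]
        exact TT_comm (ih x hx) _
      · rw [Subgroup.closure_le]
        rintro _ ⟨y, hy, rfl⟩
        show f (y ^ 2) ∈ TT H (n+1)
        rw [map_pow]
        exact TT_sq (ih y hy)
    exact fun x hx => hle hx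

end genericN

end H94Simple
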