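import Pool.Agent.H94.SnD

open scoped commutatorElement IsMulCommutative

namespace H94Simple

section typesN

variable {H K : Type*} [Group H] [Group K] {h b : ℕ}

abbrev TyN (h b : ℕ) := (Fin (h+1) × Fin (h+1)) ⊕ ((Fin (h+1) × Fin (b+1)) ⊕
  (Fin (h+1) × Fin (b+1)))

def stdW (X : Fin h → H) (p : Fin b → H) : TyN h b → H
  | Sum.inl x => conW X x.1 x.2
  | Sum.inr (Sum.inl x) => sepW X p x.1 x.2
  | Sum.inr (Sum.inr x) => sepOW X p x.1 x.2

theorem stdW_map (f : H →* K) (X : Fin h → H) (p : Fin b → H) (τ : TyN h b) :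
    f (stdW X p τ) = stdW (fun t => f (X t)) (fun j => f (p j)) τ := by
  rcases τ with x | x | x
  · exact conW_map f X _ _
  · exact sepW_map f X p _ _
  · exact sepOW_map f X p _ _

theorem std_exists {t : NSurf h b} (ht : t ∈ stdN h b) : ∃ τ : TyN h b, t = stdW XN CN τ := by
  rcases ht with ⟨i, j, hij, hj, rfl⟩ | ⟨k, l, hk, hl, rfl⟩ | ⟨m, l, hm, hl, rfl⟩
  · exact ⟨Sum.inl (⟨i, by omega⟩, ⟨j, by omega⟩), rfl⟩
  · exact ⟨Sum.inr (Sum.inl (⟨k, by omega⟩, ⟨l, by omega⟩)), rfl⟩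
  · exact ⟨Sum.inr (Sum.inr (⟨m, by omega⟩, ⟨l, by omega⟩)), rfl⟩

def pvN (c0 : H) (c : Fin b → H) (v : IdN h b → H) : Fin (b+1) → H :=
  Fin.cons c0 (fun j => v (Sum.inr j) * c j * (v (Sum.inr j))⁻¹)

theorem pvN_map (f : H →* K) (c0 : H) (c : Fin b → H) (v : IdN h b → H) (j : Fin (b+1)) :
    f (pvN c0 c v j) = pvN (f c0) (fun j => f (c j)) (fun j => f (v j)) j := by
  cases j using Fin.cases with
  | zero => simp [pvN]
  | succ j => simp [pvN]

def valN (c0 : H) (c : Fin b → H) (v : IdN h b → H) (τ : TyN h (b+1)) : H :=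
  stdW (fun i => v (Sum.inl i)) (pvN c0 c v) τ

theorem valN_map (f : H →* K) (c0 : H) (c : Fin b → H) (v : IdN h b → H) (τ : TyN h (b+1)) :
    f (valN c0 c v τ) = valN (f c0) (fun j => f (c j)) (fun j => f (v j)) τ := by
  rw [valN, stdW_map, valN]
  congr 1
  funext j
  exact pvN_map f c0 c v j

theorem RelN_eq (c0 : H) (c : Fin b → H) (v : IdN h b → H) :
    RelN c0 c v = (List.ofFn fun i : Fin h => v (Sum.inl i) ^ 2).prod *
      (List.ofFn (pvN c0 c v)).prod := by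
  rw [RelN, List.ofFn_succ (f := pvN c0 c v), List.prod_cons]
  simp [pvN]

theorem RelN_map (f : H →* K) (c0 : H) (c : Fin b → H) (v : IdN h b → H) :
    f (RelN c0 c v) = RelN (f c0) (fun j => f (c j)) (fun j => f (v j)) := by
  rw [RelN_eq, RelN_eq, map_mul, map_list_prod, List.map_ofFn, map_list_prod, List.map_ofFn]
  congr 1
  · congr 2
    funext i
    simp only [Function.comp]
    rw [map_pow]
  · congr 2
    funext i
    simp only [Function.comp]
    rw [pvN_map]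

theorem ddN_map (f : H →* K) (c : Fin b → H) (v : IdN h b → H) (j : IdN h b) :
    f (ddN c v j) = ddN (fun j => f (c j)) (fun j => f (v j)) j := by
  rcases j with i | i
  · rfl
  · rfl

end typesN

variable {h b : ℕ}

theorem geoN_data {φ : NSurf h (b+1) ≃* NSurf h (b+1)} (hφ : IsGeometricN φ) :
    ∃ (ε : Fin (b+1) → ℤˣ) (σ : Equiv.Perm (Fin (b+1))) (v : IdN h b → NSurf h (b+1))
      (y : NSurf h (b+1)),
    RelN ((CN (σ 0) : NSurf h (b+1)) ^ (ε 0 : ℤ)) (fun j => CN (σ j.succ) ^ (ε j.succ : ℤ)) v = 1 ∧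
    Subgroup.closure (Set.range (ddN (fun j => (CN (σ j.succ) : NSurf h (b+1)) ^
      (ε j.succ : ℤ)) v)) ⊔ TT (NSurf h (b+1)) 1 = ⊤ ∧
    (∀ τ, φ (stdW XN CN τ) = y * valN ((CN (σ 0) : NSurf h (b+1)) ^ (ε 0 : ℤ))
      (fun j => CN (σ j.succ) ^ (ε j.succ : ℤ)) v τ * y⁻¹) := by
  obtain ⟨σ, ε, hc⟩ := hφ
  have hx' : ∀ j, ∃ x, x * CN (σ j) ^ (ε j : ℤ) * x⁻¹ = φ (CN j) :=
    fun j => isConj_iff.1 (hc j).symm
  choose x hx using hx'
  set y := x 0 with hy
  let ψ : NSurf h (b+1) ≃* NSurf h (b+1) := φ.trans (MulAut.conj y⁻¹)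
  have hψ : ∀ z, ψ z = y⁻¹ * φ z * y := by intro z; simp [ψ]
  have hψ' : ∀ z, φ z = y * ψ z * y⁻¹ := by intro z; rw [hψ]; group
  let v : IdN h b → NSurf h (b+1) := fun j => match j with
    | Sum.inl i => ψ (XN i)
    | Sum.inr j => y⁻¹ * x j.succ
  set c0 : NSurf h (b+1) := CN (σ 0) ^ (ε 0 : ℤ) with hc0
  set c : Fin b → NSurf h (b+1) := fun j => CN (σ j.succ) ^ (ε j.succ : ℤ) with hcdef
  have hpv : ∀ j, pvN c0 c v j = ψ (CN j) := by
    intro j
    rw [hψ, ← hx]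
    cases j using Fin.cases with
    | zero =>
      simp only [pvN, Fin.cons_zero]
      rw [← hy, hc0]; group
    | succ j =>
      simp only [pvN, Fin.cons_succ, v, c]
      group
  have hrel : (List.ofFn fun i : Fin h => ψ (XN i) ^ 2).prod *
      (List.ofFn fun j => ψ (CN j)).prod = 1 := by
    have := congrArg ψ (relationN (h := h) (b := b+1))
    rw [map_mul, map_one, map_list_prod, List.map_ofFn, map_list_prod, List.map_ofFn] at this
    rw [← this]
    congr 1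
    congr 2
    funext i
    simp only [Function.comp]
    rw [map_pow]
  refine ⟨ε, σ, v, y, ?_, ?_, ?_⟩
  · rw [RelN_eq, funext hpv]
    exact hrel
  · set T := Subgroup.closure (Set.range (ddN c v)) ⊔ TT (NSurf h (b+1)) 1 with hT
    have hmem : ∀ j, ddN c v j ∈ T := fun j =>
      Subgroup.mem_sup_left (Subgroup.subset_closure ⟨j, rfl⟩)
    have hXm : ∀ i, (XN i : NSurf h (b+1)) ∈ T.comap (ψ : NSurf h (b+1) →* NSurf h (b+1)) :=
      fun i => hmem (Sum.inl i)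
    have hPs : ∀ j : Fin b, (CN j.succ : NSurf h (b+1)) ∈
        T.comap (ψ : NSurf h (b+1) →* NSurf h (b+1)) := by
      intro j
      show ψ (CN j.succ) ∈ T
      rw [← hpv]
      have e : pvN c0 c v j.succ = ⁅v (Sum.inr j), c j⁆ * c j := by
        simp only [pvN, Fin.cons_succ, commutatorElement_def]; group
      rw [e]
      refine mul_mem (Subgroup.mem_sup_right ?_) (hmem (Sum.inr j))
      exact TT_comm (Subgroup.mem_top _) _
    have hP0 : (CN 0 : NSurf h (b+1)) ∈ T.comap (ψ : NSurf h (b+1) →* NSurf h (b+1)) := by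
      have h0 := relationN (h := h) (b := b+1)
      rw [List.ofFn_succ (f := fun j : Fin (b+1) => (CN j : NSurf h (b+1))), List.prod_cons] at h0
      have h1 : (List.ofFn fun i : Fin h => (XN i : NSurf h (b+1)) ^ 2).prod ∈
          T.comap (ψ : NSurf h (b+1) →* NSurf h (b+1)) := by
        refine Subgroup.list_prod_mem _ ?_
        intro z hz
        obtain ⟨i, rfl⟩ := (List.mem_ofFn' _ _).1 hz
        exact pow_mem (hXm i) 2
      have h2 : (List.ofFn fun j : Fin b => (CN j.succ : NSurf h (b+1))).prod ∈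
          T.comap (ψ : NSurf h (b+1) →* NSurf h (b+1)) := by
        refine Subgroup.list_prod_mem _ ?_
        intro z hz
        obtain ⟨i, rfl⟩ := (List.mem_ofFn' _ _).1 hz
        exact hPs i
      have e : (CN 0 : NSurf h (b+1)) =
          ((List.ofFn fun i : Fin h => (XN i : NSurf h (b+1)) ^ 2).prod)⁻¹ *
          ((List.ofFn fun j : Fin b => (CN j.succ : NSurf h (b+1))).prod)⁻¹ := by
        rw [eq_mul_inv_iff_mul_eq, eq_inv_iff_mul_eq_one, mul_eq_one_iff_eq_inv,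
          eq_comm, inv_eq_iff_mul_eq_one]
        exact h0
      rw [e]
      exact mul_mem (inv_mem h1) (inv_mem h2)
    have hPm : ∀ j, (CN j : NSurf h (b+1)) ∈ T.comap (ψ : NSurf h (b+1) →* NSurf h (b+1)) := by
      intro j
      cases j using Fin.cases with
      | zero => exact hP0
      | succ j => exact hPs j
    have htop := closure_gensN _ hXm hPm
    rw [eq_top_iff]
    intro z _
    have hz : ψ.symm z ∈ T.comap (ψ : NSurf h (b+1) →* NSurf h (b+1)) := by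
      rw [htop]; exact Subgroup.mem_top _
    have hz2 : ψ (ψ.symm z) ∈ T := hz
    rwa [MulEquiv.apply_symm_apply] at hz2
  · intro τ
    rw [hψ']
    congr 2
    have h1 := stdW_map (ψ : NSurf h (b+1) →* NSurf h (b+1)) XN CN τ
    rw [valN, funext hpv]
    exact h1

section classesN

variable {Q : Type*} [Group Q]

def dsetN (π : NSurf h (b+1) →* Q) (m : ℕ) (ε : Fin (b+1) → ℤˣ) (σ : Equiv.Perm (Fin (b+1))) :
    Set (IdN h b → Q ⧸ TT Q m) :=
  DDN (π (CN (σ 0) ^ (ε 0 : ℤ))) (fun j => π (CN (σ j.succ) ^ (ε j.succ : ℤ))) m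

def WqN (π : NSurf h (b+1) →* Q) (m : ℕ) (ε : Fin (b+1) → ℤˣ) (σ : Equiv.Perm (Fin (b+1)))
    (d : IdN h b → Q ⧸ TT Q m) (τ : TyN h (b+1)) (s : Bool) : Q ⧸ TT Q m :=
  if s then valN (prT Q m (π (CN (σ 0) ^ (ε 0 : ℤ))))
    (fun j => prT Q m (π (CN (σ j.succ) ^ (ε j.succ : ℤ)))) d τ
  else (valN (prT Q m (π (CN (σ 0) ^ (ε 0 : ℤ))))
    (fun j => prT Q m (π (CN (σ j.succ) ^ (ε j.succ : ℤ)))) d τ)⁻¹

def CCN (π : NSurf h (b+1) →* Q) (m : ℕ) : Set (Q ⧸ TT Q m) :=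
  {q | ∃ ε σ τ s, ∃ d ∈ dsetN π m ε σ, q = WqN π m ε σ d τ s}

theorem CCN_simple (π : NSurf h (b+1) →* Q) (hπ : Function.Surjective π) (m : ℕ)
    {s : NSurf h (b+1)} (hs : s ∈ simpleN h (b+1)) :
    ∃ w, ∃ c ∈ CCN π m, prT Q m (π s) = w * c * w⁻¹ := by
  obtain ⟨φ, hφ, t, ht, hst⟩ := hs
  obtain ⟨τ, rfl⟩ := std_exists ht
  obtain ⟨ε, σ, v, y, h1, h2, h3⟩ := geoN_data hφ
  have hd : (fun j => prT Q m (π (v j))) ∈ dsetN π m ε σ := by
    refine ⟨fun j => π (v j), ⟨?_, ?_⟩, rfl⟩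
    · have e := congrArg (Subgroup.map π) h2
      rw [Subgroup.map_sup, MonoidHom.map_closure, Subgroup.map_top_of_surjective π hπ] at e
      rw [eq_top_iff, ← e]
      refine sup_le_sup ?_ ?_
      · refine Subgroup.closure_mono ?_
        rintro _ ⟨_, ⟨j, rfl⟩, rfl⟩
        exact ⟨j, (ddN_map π _ _ j).symm⟩
      · rintro _ ⟨z, hz, rfl⟩
        exact TT_map π 1 z hz
    · have e := congrArg π h1
      rw [RelN_map, map_one] at e
      rw [e]; exact one_mem _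
  have hW : prT Q m (π (valN ((CN (σ 0) : NSurf h (b+1)) ^ (ε 0 : ℤ))
      (fun j => CN (σ j.succ) ^ (ε j.succ : ℤ)) v τ)) =
      WqN π m ε σ (fun j => prT Q m (π (v j))) τ true := by
    rw [valN_map π, valN_map (prT Q m)]
    rfl
  have hW' : (prT Q m (π (valN ((CN (σ 0) : NSurf h (b+1)) ^ (ε 0 : ℤ))
      (fun j => CN (σ j.succ) ^ (ε j.succ : ℤ)) v τ)))⁻¹ =
      WqN π m ε σ (fun j => prT Q m (π (v j))) τ false := by
    rw [valN_map π, valN_map (prT Q m)]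
    rfl
  refine ⟨prT Q m (π y), ?_⟩
  rcases hst with rfl | rfl
  · refine ⟨_, ⟨ε, σ, τ, true, _, hd, rfl⟩, ?_⟩
    rw [h3, ← hW]; simp only [map_mul, map_inv]
  · refine ⟨_, ⟨ε, σ, τ, false, _, hd, rfl⟩, ?_⟩
    rw [h3, ← hW']; simp only [map_mul, map_inv, mul_inv_rev, inv_inv, mul_assoc]

/-- the number of types -/
noncomputable def kapN (h b : ℕ) : ℕ :=
  Nat.card ((Fin (b+1) → ℤˣ) × Equiv.Perm (Fin (b+1)) × TyN h (b+1) × Bool)

theorem kapN_pos (h b : ℕ) : 0 < kapN h b := by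
  unfold kapN
  have : Nonempty ((Fin (b+1) → ℤˣ) × Equiv.Perm (Fin (b+1)) × TyN h (b+1) × Bool) :=
    ⟨1, 1, Sum.inl (0, 0), true⟩
  exact Nat.card_pos

theorem CCN_card [Finite Q] (π : NSurf h (b+1) →* Q) (m B : ℕ)
    (hB : ∀ ε σ, Nat.card (dsetN π m ε σ) ≤ B) : Nat.card (CCN π m) ≤ kapN h b * B := by
  let I := (Fin (b+1) → ℤˣ) × Equiv.Perm (Fin (b+1)) × TyN h (b+1) × Bool
  let F : (Σ x : I, dsetN π m x.1 x.2.1) → CCN π m := fun y =>
    ⟨WqN π m y.1.1 y.1.2.1 y.2.1 y.1.2.2.1 y.1.2.2.2,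
      ⟨y.1.1, y.1.2.1, y.1.2.2.1, y.1.2.2.2, y.2.1, y.2.2, rfl⟩⟩
  have hF : Function.Surjective F := by
    rintro ⟨q, ε, σ, τ, s, d, hd, rfl⟩
    exact ⟨⟨(ε, σ, τ, s), ⟨d, hd⟩⟩, rfl⟩
  refine (Nat.card_le_card_of_surjective F hF).trans ?_
  rw [Nat.card_sigma]
  refine (Finset.sum_le_card_nsmul _ _ B fun x _ => hB _ _).trans ?_
  rw [kapN, Nat.card_eq_fintype_card, smul_eq_mul]
  exact le_rfl

end classesN

theorem main_ineqN {Q : Type*} [Group Q] [Finite Q] (π : NSurf h (b+1) →* Q)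
    (hπ : Function.Surjective π) (k : ℕ) (hk : Fintype.card (IdN h b) = k + 1)
    (hd : ∀ m, dia (simpleN h (b+1)) m ≤ ((k + 1 : ℕ) : ℕ∞)) (n : ℕ) :
    (TT Q (n+2)).index * (TT Q (n+3)).index ^ (k+1) ≤
      (kapN h b) ^ (k+1) * ((TT Q (n+2)).index ^ (k+1) * (TT Q 2).index *
        (TT Q 2).relIndex (TT Q 1) ^ (n+1)) ^ (k+1) *
        ((TT Q (n+1)).index ^ k * (TT Q n).index) * (TT Q 1).index := by
  set B := ((TT Q (n+2)).index ^ (k+1) * (TT Q 2).index *
    (TT Q 2).relIndex (TT Q 1) ^ (n+1)) / (TT Q (n+3)).index with hBdef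
  have hpos : ∀ m, 0 < (TT Q m).index := fun m => Nat.pos_of_ne_zero Subgroup.index_ne_zero_of_finite
  have hB : ∀ ε σ, Nat.card (dsetN π (n+2) ε σ) ≤ B := by
    intro ε σ
    rw [hBdef, Nat.le_div_iff_mul_le (hpos _), ← hk]
    exact DDN_bound _ _ (n+1)
  have hCC := CCN_card π (n+2) B hB
  haveI : ((TT Q 1).map (prT Q (n+2))).Normal :=
    Subgroup.Normal.map inferInstance _ (prT_surj _)
  have hcc := cover_count ((TT Q (n+1)).map (prT Q (n+2))) ((TT Q n).map (prT Q (n+2)))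
    ((TT Q 1).map (prT Q (n+2))) (by
      rintro _ ⟨z, hz, rfl⟩
      exact TT_mem_center n hz) (by
      rintro _ ⟨z, hz, rfl⟩ _ ⟨y, hy, rfl⟩
      rw [← commutatorElement_eq_one_iff_mul_comm, ← map_commutatorElement, prT_eq_one]
      exact TT_comm_one n hz hy) (CCN π (n+2)) k (by
      rintro _ ⟨y, hy, rfl⟩
      obtain ⟨x, rfl⟩ := hπ y
      obtain ⟨f, hf1, hf2⟩ := exists_funS (fun _ => simpleN_inv) simpleN_one (hd (n+2)) x
      have h1 : ∀ i, ∃ w, ∃ c ∈ CCN π (n+2), prT Q (n+2) (π (f i)) = w * c * w⁻¹ := fun i =>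
        CCN_simple π hπ (n+2) (hf1 i)
      choose w c hc hw using h1
      refine ⟨w, c, hc, ?_⟩
      have h2 : prT Q (n+2) (π (List.ofFn f).prod) = prT Q (n+2) (π x) := by
        rw [prT_eq, ← map_inv, ← map_mul]
        exact TT_map π _ _ (lcs_le_TT _ ((pr_eq _ _ _).1 hf2))
      rw [← h2, map_list_prod, map_list_prod, List.map_ofFn, List.map_ofFn]
      congr 2
      funext i
      exact hw i)
  have hker : ∀ m, m ≤ n + 2 → (prT Q (n+2)).ker ≤ TT Q m := by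
    intro m hm z hz
    exact TT_anti hm ((prT_eq_one _ _).1 hz)
  rw [Subgroup.index_map_eq _ (prT_surj _) (hker _ (by omega)),
    Subgroup.index_map_eq _ (prT_surj _) (hker _ (by omega))] at hcc
  have hcard : Nat.card ((TT Q 1).map (prT Q (n+2))) * (TT Q 1).index = (TT Q (n+2)).index := by
    have := ((TT Q 1).map (prT Q (n+2))).card_mul_index
    rw [Subgroup.index_map_eq _ (prT_surj _) (hker _ (by omega))] at this
    exact this
  have h5 : Nat.card (CCN π (n+2)) ^ (k+1) * (TT Q (n+3)).index ^ (k+1) ≤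
      (kapN h b) ^ (k+1) * ((TT Q (n+2)).index ^ (k+1) * (TT Q 2).index *
        (TT Q 2).relIndex (TT Q 1) ^ (n+1)) ^ (k+1) := by
    rw [← mul_pow, ← mul_pow]
    refine Nat.pow_le_pow_left ?_ _
    calc Nat.card (CCN π (n+2)) * (TT Q (n+3)).index
        ≤ kapN h b * B * (TT Q (n+3)).index := Nat.mul_le_mul_right _ hCC
      _ = kapN h b * (B * (TT Q (n+3)).index) := by ring
      _ ≤ kapN h b * ((TT Q (n+2)).index ^ (k+1) * (TT Q 2).index *
        (TT Q 2).relIndex (TT Q 1) ^ (n+1)) :=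
        Nat.mul_le_mul_left _ (Nat.div_mul_le_self _ _)
  calc (TT Q (n+2)).index * (TT Q (n+3)).index ^ (k+1)
      = Nat.card ((TT Q 1).map (prT Q (n+2))) * (TT Q 1).index * (TT Q (n+3)).index ^ (k+1) := by
        rw [hcard]
    _ ≤ (Nat.card (CCN π (n+2)) ^ (k+1) * ((TT Q (n+1)).index ^ k * (TT Q n).index)) *
        (TT Q 1).index * (TT Q (n+3)).index ^ (k+1) := by gcongr
    _ = (Nat.card (CCN π (n+2)) ^ (k+1) * (TT Q (n+3)).index ^ (k+1)) *
        ((TT Q (n+1)).index ^ k * (TT Q n).index) * (TT Q 1).index := by ring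
    _ ≤ _ := by gcongr

end H94Simple
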