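import Pool.Agent.H94.SnE

open scoped commutatorElement IsMulCommutative

namespace H94Simple

section smallindex

variable {Q : Type*} [Group Q] [Finite Q] {J : Type*} [Fintype J]

theorem index1T (s : J → Q) (hs : Subgroup.closure (Set.range s) ⊔ TT Q 1 = ⊤) :
    (TT Q 1).index ≤ 2 ^ Fintype.card J := by
  have hcomm : ∀ x y : Q ⧸ TT Q 1, x * y = y * x := by
    intro x y
    obtain ⟨x, rfl⟩ := prT_surj 1 x
    obtain ⟨y, rfl⟩ := prT_surj 1 y
    rw [← commutatorElement_eq_one_iff_mul_comm, ← map_commutatorElement, prT_eq_one]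
    exact TT_comm (Subgroup.mem_top _) _
  let inst : CommGroup (Q ⧸ TT Q 1) := { (inferInstance : Group (Q ⧸ TT Q 1)) with
    mul_comm := hcomm }
  have e : (TT Q 1).index = Nat.card (Q ⧸ TT Q 1) := rfl
  rw [e]
  refine @card_le_of_gen J _ (Q ⧸ TT Q 1) inst (fun j => prT Q 1 (s j)) ?_ 2 (by norm_num) ?_
  · have h := congrArg (Subgroup.map (prT Q 1)) hs
    rw [Subgroup.map_sup, MonoidHom.map_closure, Subgroup.map_top_of_surjective _ (prT_surj 1),
      ← Set.range_comp] at h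
    have h2 : (TT Q 1).map (prT Q 1) = ⊥ := by
      rw [eq_bot_iff]
      rintro _ ⟨z, hz, rfl⟩
      exact (prT_eq_one _ _).2 hz
    rw [h2, sup_bot_eq] at h
    exact h
  · intro j
    show prT Q 1 (s j) ^ 2 = 1
    rw [← map_pow, prT_eq_one]
    exact TT_sq (Subgroup.mem_top _)

theorem relIndexT : (TT Q 2).relIndex (TT Q 1) ≤
    2 ^ ((TT Q 1).index * (TT Q 1).index + (TT Q 1).index) := by
  classical
  haveI : Fintype (Q ⧸ TT Q 1) := Fintype.ofFinite _
  have e0 : (TT Q 1).index = Fintype.card (Q ⧸ TT Q 1) := by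
    rw [← Nat.card_eq_fintype_card]; rfl
  have e : (TT Q 2).relIndex (TT Q 1) = Nat.card (LQ Q 1) := rfl
  -- the commutative image
  have hcong : ∀ x x' : Q, prT Q 1 x = prT Q 1 x' → ∀ y, prT Q 2 ⁅x, y⁆ = prT Q 2 ⁅x', y⁆ := by
    intro x x' h y
    have h1 : x' = x * (x⁻¹ * x') := by group
    have h2 : (x⁻¹ * x') ∈ TT Q 1 := (prT_eq _ _ _).1 h
    have h3 : ⁅x * (x⁻¹ * x'), y⁆ = x * ⁅x⁻¹ * x', y⁆ * x⁻¹ * ⁅x, y⁆ := by
      simp only [commutatorElement_def]; group
    have h4 : prT Q 2 ⁅x⁻¹ * x', y⁆ = 1 := (prT_eq_one _ _).2 (TT_comm h2 y)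
    conv_rhs => rw [h1, h3, map_mul, map_mul, map_mul, h4]
    rw [mul_one, map_inv, mul_inv_cancel, one_mul]
  have hcong2 : ∀ x x' : Q, prT Q 1 x = prT Q 1 x' → prT Q 2 (x ^ 2) = prT Q 2 (x' ^ 2) := by
    intro x x' h
    have h1 : x' = x * (x⁻¹ * x') := by group
    have h2 : (x⁻¹ * x') ∈ TT Q 1 := (prT_eq _ _ _).1 h
    set t := x⁻¹ * x' with ht
    have h3 : (x * t) ^ 2 = x ^ 2 * (⁅x⁻¹, t⁆ * t ^ 2) := by
      simp only [commutatorElement_def, pow_two]; group
    have h4 : ⁅x⁻¹, t⁆ ∈ TT Q 2 := by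
      have := inv_mem (TT_comm h2 x⁻¹)
      rwa [commutatorElement_inv] at this
    rw [h1, h3, map_mul, (prT_eq_one 2 _).2 (mul_mem h4 (TT_sq h2)), mul_one]
  let A : Subgroup (Subgroup.center (Q ⧸ TT Q 2)) := (prc (G := Q) 0).range
  have hinj : Nat.card (LQ Q 1) ≤ Nat.card A := by
    refine Nat.card_le_card_of_injective (fun τ : LQ Q 1 =>
      (⟨prc 0 (Quotient.out τ), ⟨_, rfl⟩⟩ : A)) ?_
    intro τ τ' h
    have h1 := congrArg (fun z : A => ((z : Subgroup.center (Q ⧸ TT Q 2)) : Q ⧸ TT Q 2)) h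
    have h2 : prT Q 2 ((Quotient.out τ : TT Q 1) : Q) = prT Q 2 ((Quotient.out τ' : TT Q 1) : Q) :=
      h1
    rw [← QuotientGroup.out_eq' τ, ← QuotientGroup.out_eq' τ', QuotientGroup.eq,
      Subgroup.mem_subgroupOf]
    exact (prT_eq _ _ _).1 h2
  rw [e, e0]
  refine hinj.trans ?_
  let sA : ((Q ⧸ TT Q 1) × (Q ⧸ TT Q 1)) ⊕ (Q ⧸ TT Q 1) → A := fun x => match x with
    | Sum.inl q => ⟨prc 0 ⟨⁅Quotient.out q.1, Quotient.out q.2⁆, TT_comm (Subgroup.mem_top _) _⟩,
        ⟨_, rfl⟩⟩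
    | Sum.inr q => ⟨prc 0 ⟨Quotient.out q ^ 2, TT_sq (Subgroup.mem_top _)⟩, ⟨_, rfl⟩⟩
  have hsA : ∀ x, sA x ∈ Subgroup.closure (Set.range sA) := fun x =>
    Subgroup.subset_closure ⟨x, rfl⟩
  have hgen : Subgroup.closure (Set.range sA) = ⊤ := by
    rw [eq_top_iff]
    rintro ⟨_, ⟨w, rfl⟩⟩ _
    have hle : TT Q 1 ≤ (((Subgroup.closure (Set.range sA)).map A.subtype).map
        (Subgroup.center (Q ⧸ TT Q 2)).subtype).comap (prT Q 2) := by
      conv_lhs => unfold TT
      refine sup_le ?_ ?_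
      · rw [Subgroup.commutator_le]
        intro x _ y _
        refine ⟨_, ⟨sA (Sum.inl (prT Q 1 x, prT Q 1 y)),
          hsA (Sum.inl (prT Q 1 x, prT Q 1 y)), rfl⟩, ?_⟩
        show prT Q 2 ⁅Quotient.out (prT Q 1 x), Quotient.out (prT Q 1 y)⁆ = prT Q 2 ⁅x, y⁆
        have h1 := hcong _ x (prT_out 1 (prT Q 1 x)) (Quotient.out (prT Q 1 y))
        have h2 := hcong _ y (prT_out 1 (prT Q 1 y)) x
        rw [h1]
        have h3 := congrArg (·⁻¹) h2
        simp only [← map_inv, commutatorElement_inv] at h3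
        exact h3
      · rw [Subgroup.closure_le]
        rintro _ ⟨y, _, rfl⟩
        refine ⟨_, ⟨sA (Sum.inr (prT Q 1 y)),
          hsA (Sum.inr (prT Q 1 y)), rfl⟩, ?_⟩
        exact hcong2 _ y (prT_out 1 (prT Q 1 y))
    obtain ⟨_, ⟨z, hz, rfl⟩, hzw⟩ := hle w.2
    have h1 : z = ⟨prc 0 w, ⟨w, rfl⟩⟩ := by
      apply Subtype.ext
      apply Subtype.ext
      exact hzw
    rw [h1] at hz
    exact hz
  have h := card_le_of_gen sA hgen 2 (by norm_num) (by
    intro x
    have hq : ∀ w : TT Q 1, (prc 0 w) ^ 2 = 1 := by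
      intro w
      apply Subtype.ext
      show (prT Q 2 (w : Q)) ^ 2 = 1
      rw [← map_pow, prT_eq_one]
      exact TT_sq w.2
    rcases x with q | q
    · apply Subtype.ext; exact hq _
    · apply Subtype.ext; exact hq _)
  rw [Fintype.card_sum, Fintype.card_prod] at h
  exact h

end smallindex

section rec2

theorem rec_boundC (r : ℝ) (hr : 2 ≤ r) (l : ℝ) (hl : 1 < l)
    (hF : (r^2 - 1) * l^2 + (r - 1) * l + 1 ≤ r * l^3 - 1/2) (c : ℕ) (q : ℕ → ℝ) (B : ℝ)
    (hB : 0 ≤ B) (h0 : q 0 ≤ B) (h1 : q 1 ≤ B) (h2 : q 2 ≤ B)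
    (hrec : ∀ n, n + 3 ≤ c →
      r * q (n+3) ≤ (r^2 - 1) * q (n+2) + (r-1) * q (n+1) + q n + B) :
    ∀ n, n ≤ c → q n ≤ 2 * B * l ^ n := by
  have hpow : ∀ n : ℕ, 1 ≤ l ^ n := fun n => one_le_pow₀ hl.le
  have hB2 : ∀ n, B ≤ 2 * B * l ^ n := by
    intro n
    have := mul_le_mul_of_nonneg_left (hpow n) (show 0 ≤ 2 * B by linarith)
    linarith
  intro n
  induction n using Nat.strong_induction_on with
  | _ n ih =>
    intro hn
    rcases n with _ | _ | _ | n
    · exact h0.trans (hB2 0)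
    · exact h1.trans (hB2 1)
    · exact h2.trans (hB2 2)
    · have i1 := ih n (by omega) (by omega)
      have i2 := ih (n+1) (by omega) (by omega)
      have i3 := ih (n+2) (by omega) (by omega)
      have h3 := hrec n hn
      have hr1 : 0 ≤ r^2 - 1 := by nlinarith
      have h4 : (r^2 - 1) * q (n+2) ≤ (r^2-1) * (2 * B * l^(n+2)) :=
        mul_le_mul_of_nonneg_left i3 hr1
      have h5 : (r - 1) * q (n+1) ≤ (r-1) * (2 * B * l^(n+1)) :=
        mul_le_mul_of_nonneg_left i2 (by linarith)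
      have h6 : (2 * B * l^n) * ((r^2 - 1) * l^2 + (r - 1) * l + 1) ≤
          (2 * B * l^n) * (r * l^3 - 1/2) :=
        mul_le_mul_of_nonneg_left hF (by have := hpow n; positivity)
      have h7 : B * 1 ≤ B * l^n := mul_le_mul_of_nonneg_left (hpow n) hB
      have h8 : r * q (n+3) ≤ r * (2 * B * l ^ (n+3)) := by
        have e1 : (r^2-1) * (2 * B * l^(n+2)) + (r-1) * (2 * B * l^(n+1)) + 2 * B * l^n =
            (2 * B * l^n) * ((r^2 - 1) * l^2 + (r - 1) * l + 1) := by ring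
        have e2 : (2 * B * l^n) * (r * l^3 - 1/2) = r * (2 * B * l ^ (n+3)) - B * l^n := by ring
        linarith
      exact le_of_mul_le_mul_left h8 (by linarith)

/-- the recursion in logarithmic form -/
theorem log_recN (k : ℕ) (hk : 1 ≤ k) (K : ℕ) (hK : 0 < K) (i : ℕ → ℕ) (hi : ∀ n, 0 < i n)
    (hi0 : i 0 = 1) (c : ℕ)
    (h : ∀ n, n + 3 ≤ c → i (n+2) * i (n+3) ^ (k+1) ≤ K ^ (k+1) * (i (n+2) ^ (k+1) * i 2) ^ (k+1) *
      (i (n+1) ^ k * i n) * i 1) (l : ℝ) (hl : 1 < l)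
    (hF : (((k:ℝ)+1)^2 - 1) * l^2 + (((k:ℝ)+1) - 1) * l + 1 ≤ ((k:ℝ)+1) * l^3 - 1/2) (n : ℕ)
    (hn : n ≤ c) :
    Real.log (i n) ≤ 2 * (((k:ℝ)+1) * Real.log K + ((k:ℝ)+1) * Real.log (i 2) + Real.log (i 1))
      * l ^ n := by
  have hpos : ∀ n, (0:ℝ) < i n := fun n => by exact_mod_cast hi n
  have hlog : ∀ n, 0 ≤ Real.log (i n) := fun n =>
    Real.log_nonneg (by exact_mod_cast hi n)
  have hK' : (0:ℝ) < K := by exact_mod_cast hK
  have hKlog : 0 ≤ Real.log K := Real.log_nonneg (by exact_mod_cast hK)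
  have hk' : (1:ℝ) ≤ k := by exact_mod_cast hk
  set B := ((k:ℝ)+1) * Real.log K + ((k:ℝ)+1) * Real.log (i 2) + Real.log (i 1) with hBdef
  have hk0 : (0:ℝ) ≤ k := by linarith
  have p1 : 0 ≤ ((k:ℝ)+1) * Real.log K := mul_nonneg (by linarith) hKlog
  have p2 : 0 ≤ (k:ℝ) * Real.log (i 2) := mul_nonneg hk0 (hlog 2)
  have hB : 0 ≤ B := by have := hlog 1; have := hlog 2; nlinarith
  refine rec_boundC ((k:ℝ)+1) (by linarith) l hl hF c (fun n => Real.log (i n)) B hB ?_ ?_ ?_ ?_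
    n hn
  · simp only [hi0, Nat.cast_one, Real.log_one]; exact hB
  · have := hlog 2; simp only [hBdef]; nlinarith
  · have := hlog 1; simp only [hBdef]; nlinarith
  · intro n hn
    have h1 : ((i (n+2) * i (n+3) ^ (k+1) : ℕ) : ℝ) ≤
        ((K ^ (k+1) * (i (n+2) ^ (k+1) * i 2) ^ (k+1) * (i (n+1) ^ k * i n) * i 1 : ℕ) : ℝ) := by
      exact_mod_cast h n hn
    push_cast at h1
    have h2 := Real.log_le_log (by have := hpos (n+2); have := hpos (n+3); positivity) h1
    have q0 := (hpos n).ne'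
    have q1 := (hpos 1).ne'
    have q2 := (hpos 2).ne'
    have q3 := (hpos (n+1)).ne'
    have q4 := (hpos (n+2)).ne'
    have q5 := (hpos (n+3)).ne'
    have q6 := hK'.ne'
    rw [Real.log_mul q4 (pow_ne_zero _ q5), Real.log_mul (by positivity) q1,
      Real.log_mul (by positivity) (by positivity), Real.log_mul (by positivity) (by positivity),
      Real.log_mul (by positivity) q0, Real.log_pow, Real.log_pow, Real.log_pow, Real.log_pow,
      Real.log_mul (by positivity) q2, Real.log_pow] at h2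
    push_cast at h2
    simp only [hBdef]
    nlinarith [h2]

end rec2

section uniT

theorem sq_UFil {c m : ℕ} {u : (Mat c)ˣ} (hu : u ∈ UFil c m) : u ^ 2 ∈ UFil c (m+1) := by
  rw [mem_UFil, pow_two, Units.val_mul, sub_one_mul_aux]
  have h2 : ((u : Mat c) - 1) + ((u : Mat c) - 1) = 0 := CharTwo.add_self_eq_zero _
  rw [add_assoc (((u : Mat c) - 1) * ((u : Mat c) - 1)), h2, add_zero]
  exact Fil_mono (by omega) (Fil_mul (mem_UFil.1 hu) (mem_UFil.1 hu))

theorem TT_UFil {G : Type*} [Group G] {c : ℕ} (ρ : G →* (Mat c)ˣ) (h0 : ∀ g, ρ g ∈ UFil c 0)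
    (n : ℕ) : ∀ g ∈ TT G n, ρ g ∈ UFil c n := by
  induction n with
  | zero => intro g _; exact h0 g
  | succ n ih =>
    have : TT G (n+1) ≤ (UFil c (n+1)).comap ρ := by
      conv_lhs => unfold TT
      refine sup_le ?_ ?_
      · rw [Subgroup.commutator_le]
        intro x hx y _
        rw [Subgroup.mem_comap, map_commutatorElement]
        exact comm_UFil (ih x hx) (h0 y)
      · rw [Subgroup.closure_le]
        rintro _ ⟨y, hy, rfl⟩
        show ρ (y ^ 2) ∈ UFil c (n+1)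
        rw [map_pow]
        exact sq_UFil (ih y hy)
    exact this

theorem TT_surj {G H : Type*} [Group G] [Group H] (f : G →* H) (hf : Function.Surjective f)
    (n : ℕ) : TT H n ≤ (TT G n).map f := by
  induction n with
  | zero =>
    intro y _
    obtain ⟨x, rfl⟩ := hf y
    exact ⟨x, Subgroup.mem_top _, rfl⟩
  | succ n ih =>
    conv_lhs => unfold TT
    refine sup_le ?_ ?_
    · rw [Subgroup.commutator_le]
      intro y hy z _
      obtain ⟨x, hx, rfl⟩ := ih hy
      obtain ⟨w, rfl⟩ := hf z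
      exact ⟨⁅x, w⁆, TT_comm hx w, map_commutatorElement _ _ _⟩
    · rw [Subgroup.closure_le]
      rintro _ ⟨y, hy, rfl⟩
      obtain ⟨x, hx, rfl⟩ := ih hy
      exact ⟨x ^ 2, TT_sq hx, map_pow _ _ _⟩

theorem TT_range_bot (g b c : ℕ) : TT (allRep g b c).range c = ⊥ := by
  rw [eq_bot_iff]
  intro x hx
  obtain ⟨z, hz, rfl⟩ := TT_surj (allRep g b c).rangeRestrict
    (MonoidHom.rangeRestrict_surjective _) c hx
  rw [Subgroup.mem_bot]
  apply Subtype.ext
  funext w
  exact UFil_top (TT_UFil (rw' c w.1) (rw'_mem c w.1) c z hz)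

end uniT

section freeN

variable {h b : ℕ}

/-- homomorphisms from a punctured surface group, which is free -/
def freeHomN {H : Type*} [Group H] (f : IdN h b → H) : NSurf h (b+1) →* H :=
  liftN (fun i => f (Sum.inl i))
    (Fin.cons ((List.ofFn fun i : Fin h => f (Sum.inl i) ^ 2).prod⁻¹ *
      (List.ofFn fun j : Fin b => f (Sum.inr j)).prod⁻¹)
      (fun j => f (Sum.inr j))) (by
    rw [List.ofFn_succ, List.prod_cons]
    simp only [Fin.cons_zero, Fin.cons_succ]
    group)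

theorem freeHomN_X {H : Type*} [Group H] (f : IdN h b → H) (i : Fin h) :
    freeHomN f (XN i) = f (Sum.inl i) := by simp [freeHomN]

theorem freeHomN_C {H : Type*} [Group H] (f : IdN h b → H) (j : Fin b) :
    freeHomN f (CN j.succ) = f (Sum.inr j) := by simp [freeHomN]

theorem exists_piN (h b c : ℕ) : ∃ π : NSurf h (b+1) →* (allRep 0 (h+b) c).range,
    Function.Surjective π := by
  let f : IdN h b → (allRep 0 (h+b) c).range := fun j =>
    (allRep 0 (h+b) c).rangeRestrict (gJ (Sum.inr (Sum.inr (finSumFinEquiv j))))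
  refine ⟨freeHomN f, ?_⟩
  have hmem : ∀ j, f j ∈ (freeHomN f).range := by
    intro j
    rcases j with i | i
    · exact ⟨XN i, freeHomN_X f i⟩
    · exact ⟨CN i.succ, freeHomN_C f i⟩
  rw [← MonoidHom.range_eq_top, eq_top_iff]
  intro x _
  obtain ⟨y, rfl⟩ := MonoidHom.rangeRestrict_surjective _ x
  have hy : y ∈ ((freeHomN f).range).comap (allRep 0 (h+b) c).rangeRestrict := by
    have htop : ((freeHomN f).range).comap (allRep 0 (h+b) c).rangeRestrict = ⊤ := by
      rw [eq_top_iff, ← closure_gJ, Subgroup.closure_le]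
      rintro _ ⟨j, rfl⟩
      rcases j with i | i | i
      · exact i.elim0
      · exact i.elim0
      · have := hmem (finSumFinEquiv.symm i)
        simp only [f, Equiv.apply_symm_apply] at this
        exact this
    rw [htop]; exact Subgroup.mem_top _
  exact hy

end freeN

end H94Simple
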