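import Pool.Agent.H94.SnF

open scoped commutatorElement IsMulCommutative

namespace H94Simple

section boundsT

variable {Q : Type*} [Group Q] [Finite Q] {J : Type*} [Fintype J]

def MT (k : ℕ) : ℕ := 2 ^ (k+1) * 2 ^ (k+1) + 2 ^ (k+1)

theorem kappa_le (s : J → Q) (hs : Subgroup.closure (Set.range s) ⊔ TT Q 1 = ⊤) (k : ℕ)
    (hk : Fintype.card J = k + 1) : (TT Q 2).relIndex (TT Q 1) ≤ 2 ^ MT k := by
  have h1 := index1T s hs
  rw [hk] at h1
  refine relIndexT.trans (Nat.pow_le_pow_right (by norm_num) ?_)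
  exact Nat.add_le_add (Nat.mul_le_mul h1 h1) h1

theorem logs_le (s : J → Q) (hs : Subgroup.closure (Set.range s) ⊔ TT Q 1 = ⊤) (k : ℕ)
    (hk : Fintype.card J = k + 1) :
    Real.log (TT Q 1).index ≤ ((k:ℝ)+1) * Real.log 2 ∧
    Real.log ((TT Q 2).relIndex (TT Q 1)) ≤ (MT k : ℝ) * Real.log 2 ∧
    Real.log (TT Q 2).index ≤ ((MT k : ℝ) + ((k:ℝ)+1)) * Real.log 2 ∧
    0 < (TT Q 2).relIndex (TT Q 1) := by
  have h1 := index1T s hs
  rw [hk] at h1
  have h2 := kappa_le s hs k hk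
  have hpos : ∀ n, 0 < (TT Q n).index := fun n =>
    Nat.pos_of_ne_zero Subgroup.index_ne_zero_of_finite
  have h3 : (TT Q 2).relIndex (TT Q 1) * (TT Q 1).index = (TT Q 2).index :=
    Subgroup.relIndex_mul_index (TT_anti (by norm_num))
  have h4 : 0 < (TT Q 2).relIndex (TT Q 1) := by
    rcases Nat.eq_zero_or_pos ((TT Q 2).relIndex (TT Q 1)) with h | h
    · rw [h, zero_mul] at h3
      have := hpos 2
      omega
    · exact h
  have l1 : Real.log (TT Q 1).index ≤ ((k:ℝ)+1) * Real.log 2 := by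
    have h5 : ((TT Q 1).index : ℝ) ≤ 2 ^ (k+1) := by exact_mod_cast h1
    have h6 := Real.log_le_log (by exact_mod_cast hpos 1) h5
    rw [Real.log_pow] at h6
    push_cast at h6
    exact h6
  have l2 : Real.log ((TT Q 2).relIndex (TT Q 1)) ≤ (MT k : ℝ) * Real.log 2 := by
    have h5 : (((TT Q 2).relIndex (TT Q 1) : ℕ) : ℝ) ≤ 2 ^ MT k := by exact_mod_cast h2
    have h6 := Real.log_le_log (by exact_mod_cast h4) h5
    rw [Real.log_pow] at h6
    exact h6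
  refine ⟨l1, l2, ?_, h4⟩
  have h5 : ((TT Q 2).index : ℝ) = ((TT Q 2).relIndex (TT Q 1) : ℝ) * (TT Q 1).index := by
    exact_mod_cast h3.symm
  have h6 : (((TT Q 2).relIndex (TT Q 1) : ℕ) : ℝ) ≠ 0 := by exact_mod_cast h4.ne'
  have h7 : ((TT Q 1).index : ℝ) ≠ 0 := by exact_mod_cast (hpos 1).ne'
  rw [h5, Real.log_mul h6 h7]
  linarith

end boundsT

section puncturedN

variable {h b : ℕ}

theorem log_range_leN (k : ℕ) (hk1 : 1 ≤ k) (hk : h + b = k + 1)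
    (hd : ∀ m, dia (simpleN h (b+1)) m ≤ ((k + 1 : ℕ) : ℕ∞)) (l : ℝ) (hl : 1 < l)
    (hF : (((k:ℝ)+1)^2 - 1) * l^2 + (((k:ℝ)+1) - 1) * l + 1 ≤ ((k:ℝ)+1) * l^3 - 1/2) (c : ℕ) :
    Real.log (Nat.card (allRep 0 (h+b) c).range) ≤
      2 * ((((k:ℝ)+1) * Real.log (kapN h b) +
        (((k:ℝ)+1) * ((MT k : ℝ) + ((k:ℝ)+1)) + ((k:ℝ)+1)) * Real.log 2) +
        (((k:ℝ)+1) * (MT k : ℝ) * Real.log 2) * c) * l ^ c := by
  set Q := (allRep 0 (h+b) c).range with hQ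
  obtain ⟨π, hπ⟩ := exists_piN h b c
  have hcardI : Fintype.card (IdN h b) = k + 1 := by
    rw [Fintype.card_sum, Fintype.card_fin, Fintype.card_fin]; exact hk
  have hcardJ : Fintype.card (Idx 0 (h+b)) = k + 1 := by
    rw [Fintype.card_sum, Fintype.card_sum, Fintype.card_fin, Fintype.card_fin]; omega
  have hgen : Subgroup.closure (Set.range fun j : Idx 0 (h+b) =>
      (allRep 0 (h+b) c).rangeRestrict (gJ j)) ⊔ TT Q 1 = ⊤ := by
    have h := congrArg (Subgroup.map (allRep 0 (h+b) c).rangeRestrict)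
      (closure_gJ (g := 0) (b := h+b))
    rw [MonoidHom.map_closure, Subgroup.map_top_of_surjective _
      (MonoidHom.rangeRestrict_surjective _), ← Set.range_comp] at h
    have h2 : Subgroup.closure (Set.range fun j : Idx 0 _ =>
      (allRep 0 _ c).rangeRestrict (gJ j)) = ⊤ := h
    rw [h2, top_sup_eq]
  obtain ⟨l1, l2, l3, hκ⟩ := logs_le _ hgen k hcardJ
  set κ := (TT Q 2).relIndex (TT Q 1) with hκdef
  have hpos : ∀ n, 0 < (TT Q n).index := fun n =>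
    Nat.pos_of_ne_zero Subgroup.index_ne_zero_of_finite
  have hmain : ∀ n, n + 3 ≤ c → (TT Q (n+2)).index * (TT Q (n+3)).index ^ (k+1) ≤
      (kapN h b * κ ^ c) ^ (k+1) * ((TT Q (n+2)).index ^ (k+1) * (TT Q 2).index) ^ (k+1) *
      ((TT Q (n+1)).index ^ k * (TT Q n).index) * (TT Q 1).index := by
    intro n hn
    refine (main_ineqN π hπ k hcardI hd n).trans ?_
    have hle : κ ^ (n+1) ≤ κ ^ c := Nat.pow_le_pow_right hκ (by omega)
    calc (kapN h b) ^ (k+1) * ((TT Q (n+2)).index ^ (k+1) * (TT Q 2).index * κ ^ (n+1)) ^ (k+1) *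
        ((TT Q (n+1)).index ^ k * (TT Q n).index) * (TT Q 1).index
        ≤ (kapN h b) ^ (k+1) * ((TT Q (n+2)).index ^ (k+1) * (TT Q 2).index * κ ^ c) ^ (k+1) *
        ((TT Q (n+1)).index ^ k * (TT Q n).index) * (TT Q 1).index := by gcongr
      _ = _ := by rw [mul_pow _ (κ ^ c), mul_pow (kapN h b)]; ring
  have hKpos : 0 < kapN h b * κ ^ c := Nat.mul_pos (kapN_pos h b) (pow_pos hκ c)
  have h1 := log_recN k hk1 (kapN h b * κ ^ c) hKpos (fun n => (TT Q n).index) hpos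
    (by
      have : TT Q 0 = ⊤ := rfl
      simp [this]) c hmain l hl hF c le_rfl
  have h2 : (TT Q c).index = Nat.card Q := by
    rw [hQ, TT_range_bot]; exact Subgroup.index_bot
  simp only [h2] at h1
  refine h1.trans ?_
  have hlogK : Real.log ((kapN h b * κ ^ c : ℕ) : ℝ) = Real.log (kapN h b) + c * Real.log κ := by
    push_cast
    have a1 : (kapN h b : ℝ) ≠ 0 := by exact_mod_cast (kapN_pos h b).ne'
    have a2 : (κ : ℝ) ≠ 0 := by exact_mod_cast hκ.ne'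
    rw [Real.log_mul a1 (pow_ne_zero _ a2), Real.log_pow]
  rw [hlogK]
  have hk0 : (0:ℝ) ≤ k := by positivity
  have hc0 : (0:ℝ) ≤ c := by positivity
  have hlc : 0 ≤ l ^ c := by positivity
  apply mul_le_mul_of_nonneg_right _ hlc
  have e1 : ((k:ℝ)+1) * (c * Real.log κ) ≤ ((k:ℝ)+1) * (c * ((MT k : ℝ) * Real.log 2)) := by
    have := mul_le_mul_of_nonneg_left l2 hc0
    exact mul_le_mul_of_nonneg_left this (by linarith)
  have e2 : ((k:ℝ)+1) * Real.log (TT Q 2).index ≤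
      ((k:ℝ)+1) * (((MT k : ℝ) + ((k:ℝ)+1)) * Real.log 2) :=
    mul_le_mul_of_nonneg_left l3 (by linarith)
  nlinarith [e1, e2, l1]

theorem lower_existsN (hk2 : 2 ≤ h + b) :
    ∃ m, ¬ dia (simpleN h (b+1)) m ≤ ((h + b : ℕ) : ℕ∞) := by
  by_contra hcon
  push Not at hcon
  obtain ⟨k, hk⟩ : ∃ k, h + b = k + 1 := ⟨h + b - 1, by omega⟩
  have hk1 : 1 ≤ k := by omega
  have hcon' : ∀ m, dia (simpleN h (b+1)) m ≤ ((k + 1 : ℕ) : ℕ∞) := fun m => by
    rw [← hk]; exact hcon m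
  have hk' : (1:ℝ) ≤ k := by exact_mod_cast hk1
  obtain ⟨l, hl1, hl2, hF⟩ := lam_exists ((k:ℝ)+1) (by linarith)
  have hcard : Fintype.card (Idx 0 (h+b)) = k + 1 := by
    rw [Fintype.card_sum, Fintype.card_sum, Fintype.card_fin, Fintype.card_fin]; omega
  -- the order of letters
  let e := Fintype.equivFin (Idx 0 (h+b))
  let rk : Idx 0 (h+b) → ℕ := fun x => (e x : ℕ)
  have hrk : ∀ x, rk x < k + 1 := fun x => (e x).2.trans_eq hcard
  have hinj : Function.Injective rk := fun x y h => e.injective (Fin.ext h)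
  have c0 : 0 < Fintype.card (Idx 0 (h+b)) := by omega
  have c1 : 1 < Fintype.card (Idx 0 (h+b)) := by omega
  let x0 : Idx 0 (h+b) := e.symm ⟨0, c0⟩
  let x1 : Idx 0 (h+b) := e.symm ⟨1, c1⟩
  have h0 : rk x0 = 0 := by simp [rk, x0]
  have h1 : rk x1 = 1 := by simp [rk, x1]
  have h0' : ∀ a, a ≠ x0 → 0 < rk a := by
    intro a ha
    rcases Nat.eq_zero_or_pos (rk a) with h | h
    · exact absurd (hinj (h.trans h0.symm)) ha
    · exact h
  have h10 : x1 ≠ x0 := by intro h; rw [h, h0] at h1; omega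
  -- choice of the block length
  have hlk : 1 < ((k:ℝ)+1) / l := by rw [one_lt_div (by linarith)]; exact hl2
  obtain ⟨K, hK⟩ := pow_unbounded_of_one_lt (((k:ℝ)+1) / k) hlk
  have hK' : ((k:ℝ)+1) / k < (((k:ℝ)+1) / l) ^ (K+1) :=
    hK.trans_le (pow_le_pow_right₀ hlk.le (Nat.le_succ K))
  set ρ : ℝ := ((k:ℝ)+1)^K * k / l ^ (K+1) with hρ
  have hlpos : 0 < l := by linarith
  have hρ1 : 1 < ρ := by
    rw [hρ, one_lt_div (by positivity)]
    rw [div_pow, lt_div_iff₀ (by positivity), div_mul_eq_mul_div, div_lt_iff₀ (by linarith),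
      pow_succ ((k:ℝ)+1)] at hK'
    have : ((k:ℝ)+1) * l ^ (K+1) < ((k:ℝ)+1) * (((k:ℝ)+1)^K * k) := by linarith
    exact lt_of_mul_lt_mul_left this (by linarith)
  -- choice of the number of blocks
  set a1 : ℝ := ((k:ℝ)+1) * Real.log (kapN h b) +
        (((k:ℝ)+1) * ((MT k : ℝ) + ((k:ℝ)+1)) + ((k:ℝ)+1)) * Real.log 2 with ha1
  set a2 : ℝ := ((k:ℝ)+1) * (MT k : ℝ) * Real.log 2 with ha2
  obtain ⟨t, ht⟩ := exp_beats ρ hρ1
    ((2 * (a1 + a2 * ((K:ℝ) + 2)) * l ^ (K+2)) / Real.log 2)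
    ((2 * (a2 * ((K:ℝ)+1)) * l ^ (K+2)) / Real.log 2)
  set c := K + 2 + (K+1) * t with hc
  obtain ⟨W, hW, hWc⟩ := words_exist (rk := rk) (r := k+1) c h0 h0' (by omega) hrk x1 h10 K t
  have h2 := range_card (c := c) hrk hinj (by omega) W fun u hu => ⟨(hW u hu).1.1, (hW u hu).2⟩
  have h3 := log_range_leN k hk1 hk hcon' l hl1 hF c
  have hlog2 : 0 < Real.log 2 := Real.log_pos (by norm_num)
  have h4 : (W.card : ℝ) * Real.log 2 ≤ Real.log (Nat.card (allRep 0 (h+b) c).range) := by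
    have h5 : ((2 ^ W.card : ℕ) : ℝ) ≤ (Nat.card (allRep 0 (h+b) c).range : ℝ) := by
      exact_mod_cast h2
    have h6 := Real.log_le_log (by positivity) h5
    push_cast at h6
    rwa [Real.log_pow] at h6
  have h5 : (W.card : ℝ) = (((k:ℝ)+1)^K * k)^t := by
    rw [hWc, hcard]; push_cast [Nat.add_sub_cancel]; ring
  have h6 : (((k:ℝ)+1)^K * k)^t = ρ ^ t * (l ^ (K+1)) ^ t := by
    rw [← mul_pow, hρ, div_mul_cancel₀ _ (by positivity)]
  have h7 : l ^ c = l ^ (K+2) * (l ^ (K+1)) ^ t := by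
    rw [hc, pow_add, pow_mul]
  have hcr : (c:ℝ) = K + 2 + (K+1) * t := by rw [hc]; push_cast; ring
  rw [h5, h6] at h4
  have h8 := h4.trans h3
  rw [h7, hcr] at h8
  have hpt : 0 < (l ^ (K+1)) ^ t := by positivity
  have h9 : ρ ^ t * Real.log 2 ≤ 2 * (a1 + a2 * ((K:ℝ) + 2 + (K+1) * t)) * l ^ (K+2) := by
    have h10 : (ρ ^ t * Real.log 2) * (l ^ (K+1)) ^ t ≤
        (2 * (a1 + a2 * ((K:ℝ) + 2 + (K+1) * t)) * l ^ (K+2)) * (l ^ (K+1)) ^ t := by
      nlinarith [h8]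
    exact le_of_mul_le_mul_right h10 hpt
  have h10 : ((2 * (a1 + a2 * ((K:ℝ) + 2)) * l ^ (K+2)) / Real.log 2 +
      ((2 * (a2 * ((K:ℝ)+1)) * l ^ (K+2)) / Real.log 2) * t) * Real.log 2 =
      2 * (a1 + a2 * ((K:ℝ) + 2 + (K+1) * t)) * l ^ (K+2) := by
    field_simp; ring
  have h11 := mul_lt_mul_of_pos_right ht hlog2
  rw [h10] at h11
  linarith

end puncturedN

end H94Simple
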