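import Pool.Agent.H94.SnD

open scoped commutatorElement

namespace H94Simple

/-! ### the group with one handle and weights -/

inductive GenW (N : ℕ)
  | a
  | b
  | z (i : Fin N)

def relatorW (N : ℕ) (e : Fin N → ℕ) : FreeGroup (GenW N) :=
  ⁅FreeGroup.of (GenW.a : GenW N), FreeGroup.of GenW.b⁆ *
    (List.ofFn fun i : Fin N => FreeGroup.of (GenW.z i : GenW N) ^ e i).prod

abbrev WG (N : ℕ) (e : Fin N → ℕ) : Type :=
  PresentedGroup ({relatorW N e} : Set (FreeGroup (GenW N)))

section wg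

variable {N : ℕ} {e : Fin N → ℕ}

def aW : WG N e := PresentedGroup.of GenW.a
def bW : WG N e := PresentedGroup.of GenW.b
def zW (i : Fin N) : WG N e := PresentedGroup.of (GenW.z i)

theorem relationW : ⁅(aW : WG N e), bW⁆ * (List.ofFn fun i : Fin N => (zW i : WG N e) ^ e i).prod
    = 1 := by
  have h : (PresentedGroup.mk ({relatorW N e} : Set (FreeGroup (GenW N)))) (relatorW N e) = 1 :=
    PresentedGroup.one_of_mem rfl
  rw [relatorW, map_mul, map_list_prod, List.map_ofFn, map_commutatorElement] at h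
  exact h

def liftW {H : Type*} [Group H] (fa fb : H) (fz : Fin N → H)
    (hr : ⁅fa, fb⁆ * (List.ofFn fun i => fz i ^ e i).prod = 1) : WG N e →* H :=
  PresentedGroup.toGroup (f := fun x => match x with
    | GenW.a => fa
    | GenW.b => fb
    | GenW.z j => fz j) (by
      intro r hrr
      rw [Set.mem_singleton_iff.1 hrr, relatorW, map_mul, map_list_prod,
        List.map_ofFn, map_commutatorElement]
      rw [← hr]
      congr 1
      · simp
      · congr 2
        funext i
        simp)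

@[simp] theorem liftW_a {H : Type*} [Group H] (fa fb : H) (fz : Fin N → H) (hr) :
    liftW (e := e) fa fb fz hr aW = fa := by simp [liftW, aW]

@[simp] theorem liftW_b {H : Type*} [Group H] (fa fb : H) (fz : Fin N → H) (hr) :
    liftW (e := e) fa fb fz hr bW = fb := by simp [liftW, bW]

@[simp] theorem liftW_z {H : Type*} [Group H] (fa fb : H) (fz : Fin N → H) (hr) (i : Fin N) :
    liftW (e := e) fa fb fz hr (zW i) = fz i := by simp [liftW, zW]

theorem homW_ext {H : Type*} [Group H] {f f' : WG N e →* H} (ha : f aW = f' aW)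
    (hb : f bW = f' bW) (hz : ∀ i, f (zW i) = f' (zW i)) : f = f' := by
  apply PresentedGroup.ext
  intro x
  cases x with
  | a => exact ha
  | b => exact hb
  | z i => exact hz i

theorem closure_gensW (M : Subgroup (WG N e)) (ha : aW ∈ M) (hb : bW ∈ M)
    (hz : ∀ j, zW j ∈ M) : M = ⊤ := by
  rw [eq_top_iff, ← PresentedGroup.closure_range_of, Subgroup.closure_le]
  rintro _ ⟨x, rfl⟩
  cases x with
  | a => exact ha
  | b => exact hb
  | z i => exact hz i

/-- `b ↦ b a^k` -/
def tA (k : ℤ) : WG N e →* WG N e :=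
  liftW aW (bW * aW ^ k) zW (by
    rw [← relationW (N := N) (e := e)]
    congr 1
    simp only [commutatorElement_def]; group)

/-- `a ↦ a b^k` -/
def tB (k : ℤ) : WG N e →* WG N e :=
  liftW (aW * bW ^ k) bW zW (by
    rw [← relationW (N := N) (e := e)]
    congr 1
    simp only [commutatorElement_def]; group)

theorem tA_comp (k : ℤ) : (tA k).comp (tA (-k)) = MonoidHom.id (WG N e) := by
  refine homW_ext ?_ ?_ ?_
  · simp [tA]
  · simp [tA]
  · intro i; simp [tA]

theorem tB_comp (k : ℤ) : (tB k).comp (tB (-k)) = MonoidHom.id (WG N e) := by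
  refine homW_ext ?_ ?_ ?_
  · simp [tB]
  · simp [tB]
  · intro i; simp [tB]

def eAW (k : ℤ) : WG N e ≃* WG N e :=
  MonoidHom.toMulEquiv (tA k) (tA (-k)) (by
    have := tA_comp (N := N) (e := e) (-k); rwa [neg_neg] at this) (tA_comp k)

def eBW (k : ℤ) : WG N e ≃* WG N e :=
  MonoidHom.toMulEquiv (tB k) (tB (-k)) (by
    have := tB_comp (N := N) (e := e) (-k); rwa [neg_neg] at this) (tB_comp k)

/-- the product of the blocks before `i` -/
def UW (i : Fin N) : WG N e := (List.ofFn fun j : Fin N => if j < i then (zW j : WG N e) ^ e j else 1).prod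
def VW (i : Fin N) : WG N e := (List.ofFn fun j : Fin N => if i < j then (zW j : WG N e) ^ e j else 1).prod
def bet (i : Fin N) : WG N e := bW * aW⁻¹ * bW⁻¹ * (UW i * zW i ^ e i * (UW i)⁻¹)

theorem relationW' (i : Fin N) :
    ⁅(aW : WG N e), (bW : WG N e)⁆ * (UW i * zW i ^ e i * VW i) = 1 := by
  rw [← relationW (N := N) (e := e), ofFn_prod_split3 (fun j => (zW j : WG N e) ^ e j) i]
  rfl

def fz (i : Fin N) (k : ℤ) (j : Fin N) : WG N e :=
  if j = i then ((UW i)⁻¹ * bet i ^ k * UW i) * zW i * ((UW i)⁻¹ * bet i ^ k * UW i)⁻¹ else zW j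

theorem fz_self (i : Fin N) (k : ℤ) : fz (e := e) i k i =
    ((UW i)⁻¹ * bet i ^ k * UW i) * zW i * ((UW i)⁻¹ * bet i ^ k * UW i)⁻¹ := by
  unfold fz; rw [if_pos rfl]

theorem fz_ne {i j : Fin N} (k : ℤ) (h : j ≠ i) : fz (e := e) i k j = zW j := by
  unfold fz; rw [if_neg h]

theorem pow_bet (i : Fin N) (k : ℤ) : (bet (e := e) i) ^ k * bet i = bet i * bet i ^ k := by
  rw [← zpow_add_one, ← zpow_one_add, add_comm]

def tZ (i : Fin N) (k : ℤ) : WG N e →* WG N e :=
  liftW aW (bet i ^ k * bW) (fz i k) (by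
    rw [ofFn_prod_split3 (fun j => (fz (e := e) i k j) ^ e j) i]
    have h1 : (List.ofFn fun j : Fin N => if j < i then (fz (e := e) i k j) ^ e j else 1).prod =
        UW i := by
      unfold UW
      congr 2
      funext j
      split_ifs with h
      · rw [fz_ne k h.ne]
      · rfl
    have h2 : (List.ofFn fun j : Fin N => if i < j then (fz (e := e) i k j) ^ e j else 1).prod =
        VW i := by
      unfold VW
      congr 2
      funext j
      split_ifs with h
      · rw [fz_ne k h.ne']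
      · rfl
    rw [h1, h2, fz_self, conj_pow]
    have h3 := relationW' (e := e) i
    have h4 := pow_bet (e := e) i k
    set β := bet (e := e) i with hβ
    set U := UW (e := e) i
    set V := VW (e := e) i
    set R := zW (e := e) i ^ e i with hR
    have hβ' : β = bW * aW⁻¹ * bW⁻¹ * (U * R * U⁻¹) := rfl
    calc ⁅aW, β ^ k * bW⁆ * (U * (U⁻¹ * β ^ k * U * R * (U⁻¹ * β ^ k * U)⁻¹) * V)
        = aW * (β ^ k * (bW * aW⁻¹ * bW⁻¹ * (U * R * U⁻¹))) * (β ^ k)⁻¹ * (U * V) := by
          simp only [commutatorElement_def]; group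
      _ = aW * (β ^ k * β) * (β ^ k)⁻¹ * (U * V) := by rw [← hβ']
      _ = aW * β * (U * V) := by rw [h4]; group
      _ = ⁅aW, bW⁆ * (U * R * V) := by
          rw [hβ']; simp only [commutatorElement_def]; group
      _ = 1 := h3)

theorem tZ_a (i : Fin N) (k : ℤ) : tZ i k (aW : WG N e) = aW := by simp [tZ]
theorem tZ_b (i : Fin N) (k : ℤ) : tZ i k (bW : WG N e) = bet i ^ k * bW := by simp [tZ]
theorem tZ_z (i : Fin N) (k : ℤ) (j : Fin N) : tZ i k (zW j : WG N e) = fz i k j := by simp [tZ]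

theorem tZ_U (i : Fin N) (k : ℤ) : tZ i k (UW i : WG N e) = UW i := by
  unfold UW
  rw [map_list_prod, List.map_ofFn]
  congr 2
  funext j
  simp only [Function.comp]
  split_ifs with h
  · rw [map_pow, tZ_z, fz_ne k h.ne]
  · rw [map_one]

theorem tZ_bet (i : Fin N) (k : ℤ) : tZ i k (bet i : WG N e) = bet i := by
  have h4 := pow_bet (e := e) i k
  conv_lhs => rw [bet]
  rw [map_mul, map_mul, map_mul, map_inv, map_inv, map_mul, map_mul, map_inv, map_pow, tZ_U, tZ_a,
    tZ_b, tZ_z, fz_self, conj_pow]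
  set β := bet (e := e) i with hβ
  set U := UW (e := e) i
  set R := zW (e := e) i ^ e i with hR
  have hβ' : β = bW * aW⁻¹ * bW⁻¹ * (U * R * U⁻¹) := rfl
  calc β ^ k * bW * aW⁻¹ * (β ^ k * bW)⁻¹ *
        (U * (U⁻¹ * β ^ k * U * R * (U⁻¹ * β ^ k * U)⁻¹) * U⁻¹)
      = β ^ k * (bW * aW⁻¹ * bW⁻¹ * (U * R * U⁻¹)) * (β ^ k)⁻¹ := by group
    _ = β ^ k * β * (β ^ k)⁻¹ := by rw [← hβ']
    _ = β := by rw [h4]; group

theorem tZ_comp (i : Fin N) (k : ℤ) : (tZ i k).comp (tZ i (-k)) = MonoidHom.id (WG N e) := by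
  refine homW_ext ?_ ?_ ?_
  · rw [MonoidHom.comp_apply, tZ_a, tZ_a]; rfl
  · rw [MonoidHom.comp_apply, tZ_b, map_mul, map_zpow, tZ_bet, tZ_b, ← mul_assoc, ← zpow_add,
      neg_add_cancel, zpow_zero, one_mul]; rfl
  · intro j
    rw [MonoidHom.comp_apply, tZ_z]
    by_cases h : j = i
    · subst h
      rw [fz_self, map_mul, map_mul, map_inv, map_mul, map_mul, map_inv, map_zpow, tZ_bet, tZ_U,
        tZ_z, fz_self]
      show _ = zW j
      group
    · rw [fz_ne _ h, tZ_z, fz_ne _ h]; rfl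

def eZ (i : Fin N) (k : ℤ) : WG N e ≃* WG N e :=
  MonoidHom.toMulEquiv (tZ i k) (tZ i (-k)) (by
    have := tZ_comp (N := N) (e := e) i (-k); rwa [neg_neg] at this) (tZ_comp i k)

end wg

/-! ### the isomorphism -/

theorem ofFn_add' {α : Type*} {m n : ℕ} (f : Fin (m+n) → α) :
    List.ofFn f = (List.ofFn fun i => f (Fin.castAdd n i)) ++
      (List.ofFn fun j => f (Fin.natAdd m j)) := List.ofFn_add

section iso

variable {n b : ℕ}

def eN (n b : ℕ) : Fin (n+1+b) → ℕ := Fin.append (fun _ : Fin (n+1) => 2) (fun _ : Fin b => 1)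

theorem eN_left (n b : ℕ) (i : Fin (n+1)) : eN n b (Fin.castAdd b i) = 2 := by
  unfold eN; rw [Fin.append_left]

theorem eN_right (n b : ℕ) (j : Fin b) : eN n b (Fin.natAdd (n+1) j) = 1 := by
  unfold eN; rw [Fin.append_right]

/-- the crosscap generators in the other group -/
def xW (i : Fin (n+3)) : WG (n+1+b) (eN n b) :=
  Fin.cases (bW⁻¹ * zW (Fin.castAdd b 0)) (fun i => Fin.cases
    ((bW⁻¹ * zW (Fin.castAdd b 0))⁻¹ ^ 2 * aW * (bW⁻¹ * zW (Fin.castAdd b 0)))
    (fun i => Fin.cases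
      (((bW⁻¹ * zW (Fin.castAdd b 0))⁻¹ ^ 2 * aW * (bW⁻¹ * zW (Fin.castAdd b 0)))⁻¹ *
        (bW⁻¹ * zW (Fin.castAdd b 0))⁻¹ * zW (Fin.castAdd b 0))
      (fun i => zW (Fin.castAdd b i.succ)) i) i) i

def toW : NSurf (n+3) b →* WG (n+1+b) (eN n b) :=
  liftN xW (fun j => zW (Fin.natAdd (n+1) j)) (by
    have h := relationW (N := n+1+b) (e := eN n b)
    rw [ofFn_add', List.prod_append, List.ofFn_succ, List.prod_cons] at h
    rw [List.ofFn_succ, List.ofFn_succ, List.ofFn_succ, List.prod_cons, List.prod_cons,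
      List.prod_cons]
    have e1 : (List.ofFn fun j : Fin b => (zW (Fin.natAdd (n+1) j) : WG (n+1+b) (eN n b)) ^
        eN n b (Fin.natAdd (n+1) j)) = List.ofFn fun j : Fin b => zW (Fin.natAdd (n+1) j) := by
      congr 1; funext j; rw [eN_right, pow_one]
    have e2 : (List.ofFn fun i : Fin n => (zW (Fin.castAdd b i.succ) : WG (n+1+b) (eN n b)) ^
        eN n b (Fin.castAdd b i.succ)) =
        List.ofFn fun i : Fin n => (xW i.succ.succ.succ : WG (n+1+b) (eN n b)) ^ 2 := by
      congr 1; funext j; rw [eN_left]; rfl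
    rw [e1, e2, eN_left] at h
    rw [← h]
    have x0 : (xW 0 : WG (n+1+b) (eN n b)) = bW⁻¹ * zW (Fin.castAdd b 0) := rfl
    have x1 : (xW (Fin.succ 0) : WG (n+1+b) (eN n b)) =
      (bW⁻¹ * zW (Fin.castAdd b 0))⁻¹ ^ 2 * aW * (bW⁻¹ * zW (Fin.castAdd b 0)) := rfl
    have x2 : (xW (Fin.succ (Fin.succ 0)) : WG (n+1+b) (eN n b)) =
      ((bW⁻¹ * zW (Fin.castAdd b 0))⁻¹ ^ 2 * aW * (bW⁻¹ * zW (Fin.castAdd b 0)))⁻¹ *
        (bW⁻¹ * zW (Fin.castAdd b 0))⁻¹ * zW (Fin.castAdd b 0) := rfl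
    rw [x0, x1, x2]
    generalize (List.ofFn fun i : Fin n => (xW i.succ.succ.succ : WG (n+1+b) (eN n b)) ^ 2).prod = Y
    generalize (List.ofFn fun j : Fin b =>
      (zW (Fin.natAdd (n+1) j) : WG (n+1+b) (eN n b))).prod = Z
    generalize (zW (Fin.castAdd b 0) : WG (n+1+b) (eN n b)) = z
    simp only [commutatorElement_def, pow_two, mul_inv_rev, inv_inv, mul_assoc,
      mul_inv_cancel_left, inv_mul_cancel_left])

def x0N : NSurf (n+3) b := XN 0
def x1N : NSurf (n+3) b := XN (Fin.succ 0)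
def x2N : NSurf (n+3) b := XN (Fin.succ (Fin.succ 0))

def fromW : WG (n+1+b) (eN n b) →* NSurf (n+3) b :=
  liftW (x0N * x0N * x1N * x0N⁻¹) (x0N * x1N * x2N * x0N⁻¹)
    (Fin.append (Fin.cons (x0N * x1N * x2N) fun i : Fin n => XN i.succ.succ.succ) CN) (by
    have h := relationN (h := n+3) (b := b)
    rw [List.ofFn_succ, List.ofFn_succ, List.ofFn_succ, List.prod_cons, List.prod_cons,
      List.prod_cons] at h
    rw [ofFn_add', List.prod_append, List.ofFn_succ, List.prod_cons]
    simp only [Fin.append_left, Fin.append_right, eN_left, eN_right, pow_one, Fin.cons_zero,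
      Fin.cons_succ]
    rw [← h]
    have e0 : (XN 0 : NSurf (n+3) b) = x0N := rfl
    have e1 : (XN (Fin.succ 0) : NSurf (n+3) b) = x1N := rfl
    have e2 : (XN (Fin.succ (Fin.succ 0)) : NSurf (n+3) b) = x2N := rfl
    rw [e0, e1, e2]
    generalize (List.ofFn fun i : Fin n => (XN i.succ.succ.succ : NSurf (n+3) b) ^ 2).prod = Y
    generalize (List.ofFn fun j : Fin b => (CN j : NSurf (n+3) b)).prod = Z
    simp only [commutatorElement_def, pow_two, mul_inv_rev, inv_inv, mul_assoc,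
      mul_inv_cancel_left, inv_mul_cancel_left])

theorem fromW_a : fromW (aW : WG (n+1+b) (eN n b)) = x0N * x0N * x1N * x0N⁻¹ := by simp [fromW]
theorem fromW_b : fromW (bW : WG (n+1+b) (eN n b)) = x0N * x1N * x2N * x0N⁻¹ := by simp [fromW]
theorem fromW_z0 : fromW (zW (Fin.castAdd b 0) : WG (n+1+b) (eN n b)) = x0N * x1N * x2N := by
  rw [fromW, liftW_z, Fin.append_left, Fin.cons_zero]
theorem fromW_zs (i : Fin n) : fromW (zW (Fin.castAdd b i.succ) : WG (n+1+b) (eN n b)) =
    XN i.succ.succ.succ := by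
  rw [fromW, liftW_z, Fin.append_left, Fin.cons_succ]
theorem fromW_c (j : Fin b) : fromW (zW (Fin.natAdd (n+1) j) : WG (n+1+b) (eN n b)) = CN j := by
  rw [fromW, liftW_z, Fin.append_right]

theorem toW_x (i : Fin (n+3)) : toW (XN i : NSurf (n+3) b) = xW i := by simp [toW]
theorem toW_c (j : Fin b) : toW (CN j : NSurf (n+3) b) = zW (Fin.natAdd (n+1) j) := by simp [toW]

theorem from_to : (fromW (n := n) (b := b)).comp toW = MonoidHom.id _ := by
  refine homN_ext ?_ ?_
  · intro i
    rw [MonoidHom.comp_apply, toW_x]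
    show _ = XN i
    cases i using Fin.cases with
    | zero =>
      show fromW (bW⁻¹ * zW (Fin.castAdd b 0)) = x0N
      rw [map_mul, map_inv, fromW_b, fromW_z0]; group
    | succ i =>
      cases i using Fin.cases with
      | zero =>
        show fromW ((bW⁻¹ * zW (Fin.castAdd b 0))⁻¹ ^ 2 * aW * (bW⁻¹ * zW (Fin.castAdd b 0))) = x1N
        simp only [map_mul, map_inv, map_pow, fromW_b, fromW_z0, fromW_a, pow_two]; group
      | succ i =>
        cases i using Fin.cases with
        | zero =>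
          show fromW (((bW⁻¹ * zW (Fin.castAdd b 0))⁻¹ ^ 2 * aW *
            (bW⁻¹ * zW (Fin.castAdd b 0)))⁻¹ *
            (bW⁻¹ * zW (Fin.castAdd b 0))⁻¹ * zW (Fin.castAdd b 0)) = x2N
          simp only [map_mul, map_inv, map_pow, fromW_b, fromW_z0, fromW_a, pow_two]; group
        | succ i => exact fromW_zs i
  · intro j
    rw [MonoidHom.comp_apply, toW_c, fromW_c]; rfl

theorem to_from : (toW (n := n) (b := b)).comp fromW = MonoidHom.id _ := by
  have e0 : toW (x0N : NSurf (n+3) b) = bW⁻¹ * zW (Fin.castAdd b 0) := toW_x _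
  have e1 : toW (x1N : NSurf (n+3) b) =
    (bW⁻¹ * zW (Fin.castAdd b 0))⁻¹ ^ 2 * aW * (bW⁻¹ * zW (Fin.castAdd b 0)) := toW_x _
  have e2 : toW (x2N : NSurf (n+3) b) =
    ((bW⁻¹ * zW (Fin.castAdd b 0))⁻¹ ^ 2 * aW * (bW⁻¹ * zW (Fin.castAdd b 0)))⁻¹ *
        (bW⁻¹ * zW (Fin.castAdd b 0))⁻¹ * zW (Fin.castAdd b 0) := toW_x _
  refine homW_ext ?_ ?_ ?_
  · rw [MonoidHom.comp_apply, fromW_a]
    simp only [map_mul, map_inv, e0, e1, pow_two]
    show _ = aW
    group
  · rw [MonoidHom.comp_apply, fromW_b]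
    simp only [map_mul, map_inv, e0, e1, e2, pow_two]
    show _ = bW
    group
  · intro i
    rw [MonoidHom.comp_apply]
    show _ = zW i
    induction i using Fin.addCases with
    | left i =>
      cases i using Fin.cases with
      | zero =>
        rw [fromW_z0]
        simp only [map_mul, e0, e1, e2, pow_two]
        group
      | succ i =>
        rw [fromW_zs, toW_x]; rfl
    | right j =>
      rw [fromW_c, toW_c]

def isoW (n b : ℕ) : NSurf (n+3) b ≃* WG (n+1+b) (eN n b) :=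
  MonoidHom.toMulEquiv toW fromW from_to to_from

end iso

end H94Simple
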