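import Pool.Agent.H94.SnJ

open scoped commutatorElement

namespace H94Simple

section upperN

variable {n b : ℕ}

abbrev Wn (n b : ℕ) := WG (n+1+b) (eN n b)

def SW (n b : ℕ) : Set (Wn n b) := {s | (isoW n b).symm s ∈ simpleN (n+3) b}

theorem geo_of {θ : Wn n b ≃* Wn n b} (hθ : ∀ i, IsConj (θ (zW i)) (zW i)) :
    IsGeometricN (((isoW n b).trans θ).trans (isoW n b).symm) := by
  refine isGeometricN_of_conj _ fun j => ?_
  have h1 : isoW n b (CN j) = zW (Fin.natAdd (n+1) j) := toW_c j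
  have h2 : (isoW n b).symm (zW (Fin.natAdd (n+1) j)) = CN j := fromW_c j
  show IsConj ((isoW n b).symm (θ (isoW n b (CN j)))) (CN j)
  rw [h1]
  have h3 := MonoidHom.map_isConj ((isoW n b).symm : Wn n b →* NSurf (n+3) b)
    (hθ (Fin.natAdd (n+1) j))
  have h4 : ((isoW n b).symm : Wn n b →* NSurf (n+3) b) (zW (Fin.natAdd (n+1) j)) = CN j := h2
  rw [h4] at h3
  exact h3

theorem SW_image {θ : Wn n b ≃* Wn n b} (hθ : ∀ i, IsConj (θ (zW i)) (zW i)) {s : Wn n b}
    (hs : s ∈ SW n b) : θ s ∈ SW n b := by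
  have h := simpleN_image hs (geo_of hθ)
  have e : (((isoW n b).trans θ).trans (isoW n b).symm) ((isoW n b).symm s) =
      (isoW n b).symm (θ s) := by simp
  rw [e] at h
  exact h

theorem SW_A (k : ℤ) {s : Wn n b} (hs : s ∈ SW n b) : tA k s ∈ SW n b :=
  SW_image (θ := eAW k) (fun i => by
    have : (eAW k) (zW i : Wn n b) = zW i := by
      show tA k (zW i) = _
      simp [tA]
    rw [this]) hs

theorem SW_B (k : ℤ) {s : Wn n b} (hs : s ∈ SW n b) : tB k s ∈ SW n b :=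
  SW_image (θ := eBW k) (fun i => by
    have : (eBW k) (zW i : Wn n b) = zW i := by
      show tB k (zW i) = _
      simp [tB]
    rw [this]) hs

theorem SW_Z (i : Fin (n+1+b)) (k : ℤ) {s : Wn n b} (hs : s ∈ SW n b) : tZ i k s ∈ SW n b :=
  SW_image (θ := eZ i k) (fun j => by
    have : (eZ i k) (zW j : Wn n b) = fz i k j := tZ_z i k j
    rw [this]
    by_cases h : j = i
    · subst h
      rw [fz_self]
      exact (isConj_iff.2 ⟨_, rfl⟩ : IsConj (zW j) _).symm
    · rw [fz_ne k h]) hs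

theorem SW_conj (x : Wn n b) {s : Wn n b} (hs : s ∈ SW n b) : x * s * x⁻¹ ∈ SW n b := by
  have h := simpleN_conj _ hs ((isoW n b).symm x)
  show (isoW n b).symm (x * s * x⁻¹) ∈ simpleN (n+3) b
  rw [map_mul, map_mul, map_inv]
  exact h

theorem SW_inv {s : Wn n b} (hs : s ∈ SW n b) : s⁻¹ ∈ SW n b := by
  have h := simpleN_inv hs
  show (isoW n b).symm s⁻¹ ∈ simpleN (n+3) b
  rw [map_inv]
  exact h

theorem SW_std {t : NSurf (n+3) b} (ht : t ∈ stdN (n+3) b) : toW t ∈ SW n b := by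
  show (isoW n b).symm (isoW n b t) ∈ simpleN (n+3) b
  rw [MulEquiv.symm_apply_apply]
  exact simpleN_std ht

theorem conW_split {H : Type*} [Group H] {h : ℕ} (X : Fin h → H) {i j l : ℕ} (hij : i ≤ j)
    (hjl : j ≤ l) : conW X i l = conW X i j * conW X j l := by
  rw [conW, ofFn_prod_split _ j, conW, conW]
  congr 1
  · congr 2
    funext t
    by_cases h1 : (t : ℕ) < j
    · have h2 : (t : ℕ) < l := by omega
      simp [h1, h2]
    · simp [h1]
  · congr 2
    funext t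
    by_cases h1 : (t : ℕ) < j
    · have h2 : ¬ j ≤ (t : ℕ) := by omega
      simp [h1, h2]
    · have h2 : j ≤ (t : ℕ) := by omega
      have h3 : i ≤ (t : ℕ) := by omega
      simp [h1, h2, h3]

theorem conW_single {H : Type*} [Group H] {h : ℕ} (X : Fin h → H) (i : Fin h) :
    conW X (i : ℕ) ((i : ℕ) + 1) = X i := by
  rw [conW, ← ofFn_prod_single X i]
  congr 2
  funext t
  by_cases h1 : t = i
  · subst h1; simp
  · have h2 : (t : ℕ) ≠ i := fun h => h1 (Fin.ext h)
    have h3 : ¬ ((i : ℕ) ≤ t ∧ (t : ℕ) < (i : ℕ) + 1) := by omega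
    rw [if_neg h3, if_neg h1]

theorem std_single (i : Fin (n+3)) : (XN i : NSurf (n+3) b) ∈ stdN (n+3) b :=
  Or.inl ⟨i, (i : ℕ) + 1, by omega, by omega, (conW_single _ i).symm⟩

theorem std_pair (i j : Fin (n+3)) (hj : (j : ℕ) = i + 1) :
    (XN i * XN j : NSurf (n+3) b) ∈ stdN (n+3) b := by
  refine Or.inl ⟨i, (i : ℕ) + 2, by omega, by omega, ?_⟩
  rw [conW_split XN (show (i : ℕ) ≤ i + 1 by omega) (show (i : ℕ) + 1 ≤ i + 2 by omega),
    conW_single, ← hj]
  have : (i : ℕ) + 2 = (j : ℕ) + 1 := by omega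
  rw [this, conW_single]

theorem SW_a : (aW : Wn n b) ∈ SW n b := by
  show fromW aW ∈ simpleN (n+3) b
  rw [fromW_a]
  have h := simpleN_conj _ (simpleN_std (std_pair (n := n) (b := b) 0 (Fin.succ 0) (by simp))) x0N
  have e : x0N * x0N * x1N * x0N⁻¹ = (x0N * (XN 0 * XN (Fin.succ 0)) * x0N⁻¹ : NSurf (n+3) b) := by
    show x0N * x0N * x1N * x0N⁻¹ = x0N * (x0N * x1N) * x0N⁻¹
    group
  rw [e]; exact h

theorem SW_b : (bW : Wn n b) ∈ SW n b := by
  show fromW bW ∈ simpleN (n+3) b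
  rw [fromW_b]
  have h := simpleN_conj _ (simpleN_std (std_pair (n := n) (b := b) (Fin.succ 0)
    (Fin.succ (Fin.succ 0)) (by simp))) x0N
  have e : x0N * x1N * x2N * x0N⁻¹ =
      (x0N * (XN (Fin.succ 0) * XN (Fin.succ (Fin.succ 0))) * x0N⁻¹ : NSurf (n+3) b) := by
    show x0N * x1N * x2N * x0N⁻¹ = x0N * (x1N * x2N) * x0N⁻¹
    group
  rw [e]; exact h

/-! classes in the abelianization -/

abbrev Ab (n b : ℕ) := Abelianization (Wn n b)

def al : Ab n b := Abelianization.of aW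
def be : Ab n b := Abelianization.of bW
def ze (i : Fin (n+1+b)) : Ab n b := Abelianization.of (zW i)

def Zf (n b : ℕ) : Subgroup (Ab n b) := Subgroup.closure (Set.range ze)

theorem ze_mem (i : Fin (n+1+b)) : ze i ∈ Zf n b := Subgroup.subset_closure ⟨i, rfl⟩

theorem map_Zf (f : Wn n b →* Wn n b)
    (hf : ∀ i, (Abelianization.of (f (zW i)) : Ab n b) = ze i) {X : Ab n b} (hX : X ∈ Zf n b) :
    Abelianization.map f X = X := by
  have hle : Zf n b ≤ MonoidHom.eqLocus (Abelianization.map f) (MonoidHom.id (Ab n b)) := by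
    rw [Zf, Subgroup.closure_le]
    rintro _ ⟨i, rfl⟩
    show Abelianization.map f (ze i) = ze i
    rw [ze, Abelianization.map_of, hf]; rfl
  exact hle hX

theorem ab_bet (i : Fin (n+1+b)) :
    (Abelianization.of (bet i) : Ab n b) = al⁻¹ * ze i ^ eN n b i := by
  rw [bet]
  simp only [map_mul, map_inv, map_pow]
  show be * al⁻¹ * be⁻¹ * (_ * ze i ^ eN n b i * _⁻¹) = _
  rw [mul_comm be, mul_assoc al⁻¹, mul_inv_cancel, mul_one, mul_comm _ (ze i ^ eN n b i),
    mul_assoc (ze i ^ eN n b i), mul_inv_cancel, mul_one]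

theorem ab_fz (i j : Fin (n+1+b)) (k : ℤ) : (Abelianization.of (fz i k j) : Ab n b) = ze j := by
  by_cases h : j = i
  · subst h
    rw [fz_self, map_mul, map_mul, map_inv]
    set y := (Abelianization.of ((UW j)⁻¹ * bet j ^ k * UW j) : Ab n b)
    rw [mul_comm y, mul_assoc, mul_inv_cancel, mul_one]; rfl
  · rw [fz_ne k h]; rfl

/-- the property: a simple element of class `α^p β X` -/
def PX (X : Ab n b) : Prop := ∃ p : ℤ, ∃ s ∈ SW n b, (Abelianization.of s : Ab n b) = al ^ p * be * X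

theorem PX_step (i : Fin (n+1+b)) (k : ℤ) {X : Ab n b} (hX : X ∈ Zf n b) (h : PX X) :
    PX (X * (ze i ^ eN n b i) ^ k) := by
  obtain ⟨p, s, hs, hc⟩ := h
  refine ⟨p - k, tZ i k s, SW_Z i k hs, ?_⟩
  have h1 : (Abelianization.of (tZ i k s) : Ab n b) = Abelianization.map (tZ i k)
    (Abelianization.of s) := (Abelianization.map_of _ _).symm
  have ha : Abelianization.map (tZ i k) (al : Ab n b) = al := by
    rw [al, Abelianization.map_of, tZ_a]
  have hb : Abelianization.map (tZ i k) (be : Ab n b) = (al⁻¹ * ze i ^ eN n b i) ^ k * be := by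
    rw [be, Abelianization.map_of, tZ_b, map_mul, map_zpow, ab_bet]
  have hx : Abelianization.map (tZ i k) X = X := map_Zf _ (fun j => by rw [tZ_z, ab_fz]) hX
  rw [h1, hc, map_mul, map_mul, map_zpow, ha, hb, hx, mul_zpow, inv_zpow, zpow_sub]
  simp only [mul_assoc, mul_comm, mul_left_comm]

theorem PX_all {X : Ab n b} (hX : X ∈ Subgroup.closure (Set.range fun i : Fin (n+1+b) =>
    (ze i : Ab n b) ^ eN n b i)) : PX X := by
  let K : Subgroup (Ab n b) :=
    { carrier := {X | X ∈ Zf n b ∧ ∀ Y ∈ Zf n b, (PX Y ↔ PX (Y * X))}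
      one_mem' := ⟨one_mem _, fun Y _ => by rw [mul_one]⟩
      mul_mem' := by
        rintro X X' ⟨h1, h2⟩ ⟨h1', h2'⟩
        refine ⟨mul_mem h1 h1', fun Y hY => ?_⟩
        rw [h2 Y hY, h2' _ (mul_mem hY h1), mul_assoc]
      inv_mem' := by
        rintro X ⟨h1, h2⟩
        refine ⟨inv_mem h1, fun Y hY => ?_⟩
        rw [h2 _ (mul_mem hY (inv_mem h1)), inv_mul_cancel_right] }
  have hK : Subgroup.closure (Set.range fun i : Fin (n+1+b) =>
      (ze i : Ab n b) ^ eN n b i) ≤ K := by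
    rw [Subgroup.closure_le]
    rintro _ ⟨i, rfl⟩
    refine ⟨pow_mem (ze_mem i) _, fun Y hY => ⟨fun h => ?_, fun h => ?_⟩⟩
    · have := PX_step i 1 hY h
      rwa [zpow_one] at this
    · have := PX_step i (-1) (mul_mem hY (pow_mem (ze_mem i) _)) h
      rwa [zpow_neg_one, mul_inv_cancel_right] at this
  have h1 : PX (1 : Ab n b) := ⟨0, bW, SW_b, by rw [zpow_zero, one_mul, mul_one]; rfl⟩
  have h2 := ((hK hX).2 1 (one_mem _)).1 h1
  rwa [one_mul] at h2

theorem tA_al (k : ℤ) : Abelianization.map (tA k) (al : Ab n b) = al := by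
  rw [al, Abelianization.map_of]; simp [tA]
theorem tA_be (k : ℤ) : Abelianization.map (tA k) (be : Ab n b) = be * al ^ k := by
  rw [be, Abelianization.map_of]; simp [tA, al]
theorem tA_Z (k : ℤ) {X : Ab n b} (hX : X ∈ Zf n b) : Abelianization.map (tA k) X = X :=
  map_Zf _ (fun j => by simp [tA, ze]) hX
theorem tB_al (k : ℤ) : Abelianization.map (tB k) (al : Ab n b) = al * be ^ k := by
  rw [al, Abelianization.map_of]; simp [tB, be]
theorem tB_be (k : ℤ) : Abelianization.map (tB k) (be : Ab n b) = be := by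
  rw [be, Abelianization.map_of]; simp [tB]
theorem tB_Z (k : ℤ) {X : Ab n b} (hX : X ∈ Zf n b) : Abelianization.map (tB k) X = X :=
  map_Zf _ (fun j => by simp [tB, ze]) hX

theorem cls_t3 (p : ℤ) {X : Ab n b} (hX : X ∈ Subgroup.closure (Set.range fun i : Fin (n+1+b) =>
    (ze i : Ab n b) ^ eN n b i)) : ∃ s ∈ SW n b, (Abelianization.of s : Ab n b) = al ^ p * be * X := by
  obtain ⟨q, s, hs, hc⟩ := PX_all hX
  have hXZ : X ∈ Zf n b := by
    refine (?_ : Subgroup.closure _ ≤ Zf n b) hX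
    rw [Subgroup.closure_le]
    rintro _ ⟨i, rfl⟩
    exact pow_mem (ze_mem i) _
  refine ⟨tA (p - q) s, SW_A _ hs, ?_⟩
  have h1 : (Abelianization.of (tA (p-q) s) : Ab n b) = Abelianization.map (tA (p-q))
    (Abelianization.of s) := (Abelianization.map_of _ _).symm
  rw [h1, hc, map_mul, map_mul, map_zpow, tA_al, tA_be, tA_Z _ hXZ]
  have e : (al : Ab n b) ^ p = al ^ q * al ^ (p - q) := by rw [← zpow_add]; congr 1; ring
  rw [e]
  simp only [mul_assoc, mul_comm, mul_left_comm]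

theorem cls_a (k : ℤ) : ∃ s ∈ SW n b, (Abelianization.of s : Ab n b) = al * be ^ k := by
  refine ⟨tB k aW, SW_B _ SW_a, ?_⟩
  have h1 : (Abelianization.of (tB k aW) : Ab n b) = Abelianization.map (tB k) al :=
    (Abelianization.map_of _ _).symm
  rw [h1, tB_al]

def z0 : Ab n b := ze (Fin.castAdd b 0)

theorem cls_x0 : ∃ s ∈ SW n b, (Abelianization.of s : Ab n b) = be⁻¹ * z0 := by
  refine ⟨toW (XN 0), SW_std (std_single 0), ?_⟩
  rw [toW_x]
  show Abelianization.of (bW⁻¹ * zW (Fin.castAdd b 0)) = _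
  rw [map_mul, map_inv]; rfl

theorem cls_az (k : ℤ) : ∃ s ∈ SW n b, (Abelianization.of s : Ab n b) = al * be ^ k * z0 := by
  obtain ⟨s, hs, hc⟩ := cls_x0 (n := n) (b := b)
  refine ⟨tB (k+1) (tA (-1) s), SW_B _ (SW_A _ hs), ?_⟩
  have h1 : (Abelianization.of (tB (k+1) (tA (-1) s)) : Ab n b) =
      Abelianization.map (tB (k+1)) (Abelianization.map (tA (-1)) (Abelianization.of s)) := by
    rw [Abelianization.map_of, Abelianization.map_of]
  have hz : (z0 : Ab n b) ∈ Zf n b := ze_mem _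
  rw [h1, hc, map_mul, map_inv, tA_be, tA_Z _ hz, map_mul, map_inv, map_mul, map_zpow, tB_al,
    tB_be, tB_Z _ hz]
  congr 1
  rw [zpow_neg_one, mul_inv_rev, inv_inv, zpow_add_one]
  rw [mul_assoc, mul_assoc, mul_inv_cancel, mul_one]

theorem cls_x23 (i : Fin n) (hi : (i : ℕ) = 0) : ∃ s ∈ SW n b, (Abelianization.of s : Ab n b) =
    be⁻¹ * z0 * ze (Fin.castAdd b i.succ) := by
  have hstd := SW_std (std_pair (n := n) (b := b) (Fin.succ (Fin.succ 0)) i.succ.succ.succ
    (by simp [hi]))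
  set s := toW (XN (Fin.succ (Fin.succ 0)) * XN i.succ.succ.succ : NSurf (n+3) b) with hs
  have hc : (Abelianization.of s : Ab n b) = al⁻¹ * z0 * ze (Fin.castAdd b i.succ) := by
    rw [hs, map_mul, toW_x, toW_x, map_mul]
    show Abelianization.of (((bW⁻¹ * zW (Fin.castAdd b 0))⁻¹ ^ 2 * aW *
      (bW⁻¹ * zW (Fin.castAdd b 0)))⁻¹ * (bW⁻¹ * zW (Fin.castAdd b 0))⁻¹ *
      zW (Fin.castAdd b 0)) * ze (Fin.castAdd b i.succ) = _
    congr 1
    set x := (bW⁻¹ * zW (Fin.castAdd b 0) : Wn n b)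
    have e : (x⁻¹ ^ 2 * aW * x)⁻¹ * x⁻¹ * zW (Fin.castAdd b 0) =
      x⁻¹ * aW⁻¹ * x * zW (Fin.castAdd b 0) := by group
    rw [e, map_mul, map_mul, map_mul, map_inv, map_inv]
    show (Abelianization.of x)⁻¹ * al⁻¹ * Abelianization.of x * z0 = al⁻¹ * z0
    rw [mul_comm (Abelianization.of x)⁻¹, inv_mul_cancel_right]
  refine ⟨tA (-1) (tB 1 s), SW_A _ (SW_B _ hstd), ?_⟩
  have h1 : (Abelianization.of (tA (-1) (tB 1 s)) : Ab n b) =
      Abelianization.map (tA (-1)) (Abelianization.map (tB 1) (Abelianization.of s)) := by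
    rw [Abelianization.map_of, Abelianization.map_of]
  have hz : (z0 * ze (Fin.castAdd b i.succ) : Ab n b) ∈ Zf n b := mul_mem (ze_mem _) (ze_mem _)
  rw [h1, hc, mul_assoc, map_mul, map_inv, tB_al, tB_Z _ hz, map_mul, map_inv, map_mul, map_zpow,
    tA_al, tA_be, tA_Z _ hz, mul_assoc]
  congr 1
  rw [zpow_one, zpow_neg_one, mul_comm be, mul_inv_cancel_left]

theorem cls_zs (i : Fin n) : ∃ s ∈ SW n b, (Abelianization.of s : Ab n b) =
    ze (Fin.castAdd b i.succ) := by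
  refine ⟨toW (XN i.succ.succ.succ), SW_std (std_single _), ?_⟩
  rw [toW_x]; rfl

theorem cls_zz (i j : Fin n) (hj : (j : ℕ) = i + 1) : ∃ s ∈ SW n b,
    (Abelianization.of s : Ab n b) = ze (Fin.castAdd b i.succ) * ze (Fin.castAdd b j.succ) := by
  refine ⟨toW (XN i.succ.succ.succ * XN j.succ.succ.succ), SW_std (std_pair _ _ (by simp [hj])), ?_⟩
  rw [map_mul, toW_x, toW_x, map_mul]; rfl

end upperN

end H94Simple
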