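import Pool.Agent.H94.SnK

open scoped commutatorElement

namespace H94Simple

theorem ac_mul {G : Type} [CommGroup G] (a b c d a' b' c' d' : G) :
    (a * b * (c * d)) * (a' * b' * (c' * d')) = (a * a') * (b * b') * ((c * c') * (d * d')) := by
  rw [mul_mul_mul_comm, mul_mul_mul_comm a b, mul_mul_mul_comm c d]

theorem ac_final {G : Type} [CommGroup G] (A B Bi P1 P2 P3 P4 P5 P6 P7 P8 P9 : G) :
    A * P7 * P6 * (B * (P8 * B * (P3 * P4))) * (Bi * P1 * P2) * (P9 * P5) =
      A * P8 * P9 * (P7 * B * B * Bi) * (P1 * (P6 * P2) * P3 * (P4 * P5)) := by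
  have key : ∀ x : G, x = x := fun _ => rfl
  ac_rfl

section coreN

variable {n b : ℕ}

def zl (i : Fin (n+1)) : Ab n b := ze (Fin.castAdd b i)
def zr (j : Fin b) : Ab n b := ze (Fin.natAdd (n+1) j)

theorem zl_mem2 (i : Fin (n+1)) : (zl i : Ab n b) ^ 2 ∈
    Subgroup.closure (Set.range fun i : Fin (n+1+b) => (ze i : Ab n b) ^ eN n b i) := by
  refine Subgroup.subset_closure ⟨Fin.castAdd b i, ?_⟩
  show (ze (Fin.castAdd b i) : Ab n b) ^ eN n b (Fin.castAdd b i) = _
  rw [eN_left]; rfl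

theorem zr_mem1 (j : Fin b) : (zr j : Ab n b) ∈
    Subgroup.closure (Set.range fun i : Fin (n+1+b) => (ze i : Ab n b) ^ eN n b i) := by
  refine Subgroup.subset_closure ⟨Fin.natAdd (n+1) j, ?_⟩
  show (ze (Fin.natAdd (n+1) j) : Ab n b) ^ eN n b (Fin.natAdd (n+1) j) = _
  rw [eN_right, pow_one]; rfl

def nx (D : Fin (n+1) → ℤ) (i : Fin (n+1)) : Ab n b :=
  if h : (i : ℕ) + 1 < n + 1 then zl ⟨(i : ℕ) + 1, h⟩ ^ D ⟨(i : ℕ) + 1, h⟩ else 1

theorem prod_nx (D : Fin (n+1) → ℤ) :
    ∏ i, (zl i : Ab n b) ^ D i = zl 0 ^ D 0 * ∏ i, nx D i := by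
  rw [Fin.prod_univ_succ, Fin.prod_univ_castSucc (f := nx (b := b) D)]
  have h1 : (nx D (Fin.last n) : Ab n b) = 1 := by simp [nx]
  have h2 : ∀ i : Fin n, (nx D i.castSucc : Ab n b) = zl i.succ ^ D i.succ := by
    intro i
    unfold nx
    rw [dif_pos (by rw [Fin.val_castSucc]; have := i.2; omega)]
    rfl
  rw [h1, mul_one]
  congr 1
  exact Finset.prod_congr rfl fun i _ => (h2 i).symm

theorem cls_u (D : Fin (n+1) → ℤ) (hD : ∀ i, D i = 0 ∨ D i = 1) (i : Fin (n+1)) :
    ∃ s ∈ SW n b, (Abelianization.of s : Ab n b) =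
      (if i = 0 then be⁻¹ else 1) * zl i * nx D i := by
  cases i using Fin.cases with
  | zero =>
    rw [if_pos rfl]
    by_cases hn : ((0 : Fin (n+1)) : ℕ) + 1 < n + 1
    · unfold nx
      rw [dif_pos hn]
      rcases hD ⟨((0 : Fin (n+1)) : ℕ) + 1, hn⟩ with h | h
      · rw [h, zpow_zero, mul_one]
        exact cls_x0
      · rw [h, zpow_one]
        have hn' : 0 < n := by simpa using hn
        exact cls_x23 ⟨0, hn'⟩ rfl
    · unfold nx
      rw [dif_neg hn, mul_one]
      exact cls_x0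
  | succ i =>
    rw [if_neg (Fin.succ_ne_zero i), one_mul]
    by_cases hn : ((i.succ : Fin (n+1)) : ℕ) + 1 < n + 1
    · unfold nx
      rw [dif_pos hn]
      rcases hD ⟨((i.succ : Fin (n+1)) : ℕ) + 1, hn⟩ with h | h
      · rw [h, zpow_zero, mul_one]
        exact cls_zs i
      · rw [h, zpow_one]
        have hn' : (i : ℕ) + 1 < n := by rw [Fin.val_succ] at hn; omega
        exact cls_zz i ⟨(i : ℕ) + 1, hn'⟩ rfl
    · unfold nx
      rw [dif_neg hn, mul_one]
      exact cls_zs i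

theorem upper_core (b' : ℕ) (ι : Fin b' → Fin b)
    (hco : ∀ q : Ab n b, ∃ (x y : ℤ) (c : Fin (n+1) → ℤ) (l : Fin b' → ℤ),
      q = al ^ x * be ^ y * ((∏ i, zl i ^ c i) * ∏ j, zr (ι j) ^ l j)) (q : Ab n b) :
    ∃ L : List (Wn n b), (∀ s ∈ L, s ∈ SW n b) ∧
      Subgroup.closure ((Abelianization.of : Wn n b →* Ab n b) '' {s | s ∈ L}) = ⊤ ∧
      (Abelianization.of L.prod : Ab n b) = q ∧ L.length = n + 4 + b' := by
  obtain ⟨x, y, c, l, rfl⟩ := hco q
  set D : Fin (n+1) → ℤ := fun i => (c i - 1) % 2 with hDdef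
  set E : Fin (n+1) → ℤ := fun i => (c i - 1) / 2 with hEdef
  have hD : ∀ i, D i = 0 ∨ D i = 1 := fun i => Int.emod_two_eq_zero_or_one _
  have hc : ∀ i, c i = 1 + D i + 2 * E i := by
    intro i
    have := Int.emod_add_mul_ediv (c i - 1) 2
    simp only [hDdef, hEdef]
    omega
  -- t1
  obtain ⟨t1, ht1, hc1⟩ : ∃ s ∈ SW n b, (Abelianization.of s : Ab n b) =
      al * be ^ (y - 1 - b') * zl 0 ^ D 0 := by
    rcases hD 0 with h | h
    · rw [h, zpow_zero, mul_one]; exact cls_a _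
    · rw [h, zpow_one]; exact cls_az _
  -- t3
  obtain ⟨t3, ht3, hc3⟩ := cls_t3 (n := n) (b := b) (x - 1 + b')
    (X := (∏ i, zl i ^ (2 * E i)) * ∏ j, zr (ι j) ^ (l j - 1)) (by
      refine mul_mem (Subgroup.prod_mem _ fun i _ => ?_) (Subgroup.prod_mem _ fun j _ => ?_)
      · rw [zpow_mul, show ((zl i : Ab n b) ^ (2 : ℤ)) = zl i ^ (2 : ℕ) from by norm_cast]
        exact zpow_mem (zl_mem2 i) _
      · exact zpow_mem (zr_mem1 (ι j)) _)
  have hu := cls_u (n := n) (b := b) D hD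
  choose s hs hsc using hu
  have hs' : ∀ j : Fin b', ∃ t ∈ SW n b, (Abelianization.of t : Ab n b) =
      al ^ (-1 : ℤ) * be * zr (ι j) := fun j => cls_t3 (-1) (zr_mem1 (ι j))
  choose s' hs' hsc' using hs'
  refine ⟨[t1, bW, t3] ++ List.ofFn s ++ List.ofFn s', ?_, ?_, ?_, ?_⟩
  · intro t ht
    rcases List.mem_append.1 ht with h | h
    · rcases List.mem_append.1 h with h | h
      · simp only [List.mem_cons, List.not_mem_nil, or_false] at h
        rcases h with rfl | rfl | rfl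
        · exact ht1
        · exact SW_b
        · exact ht3
      · obtain ⟨i, rfl⟩ := (List.mem_ofFn' _ _).1 h
        exact hs i
    · obtain ⟨i, rfl⟩ := (List.mem_ofFn' _ _).1 h
      exact hs' i
  · set C := Subgroup.closure ((Abelianization.of : Wn n b →* Ab n b) ''
      {t | t ∈ [t1, bW, t3] ++ List.ofFn s ++ List.ofFn s'}) with hC
    have hmem : ∀ t ∈ [t1, bW, t3] ++ List.ofFn s ++ List.ofFn s',
        (Abelianization.of t : Ab n b) ∈ C := fun t ht => Subgroup.subset_closure ⟨t, ht, rfl⟩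
    have m1 : (Abelianization.of t1 : Ab n b) ∈ C := hmem _ (by simp)
    have m2 : (be : Ab n b) ∈ C := hmem bW (by simp)
    have m4 : ∀ i, (Abelianization.of (s i) : Ab n b) ∈ C := fun i => hmem _
      (List.mem_append_left _ (List.mem_append_right _ ((List.mem_ofFn' _ _).2 ⟨i, rfl⟩)))
    have m5 : ∀ j, (Abelianization.of (s' j) : Ab n b) ∈ C := fun j => hmem _
      (List.mem_append_right _ ((List.mem_ofFn' _ _).2 ⟨j, rfl⟩))
    have hzl : ∀ m, ∀ i : Fin (n+1), (i : ℕ) + m = n → (zl i : Ab n b) ∈ C := by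
      intro m
      induction m with
      | zero =>
        intro i hi
        have h1 := m4 i
        have h2 : (nx D i : Ab n b) = 1 := by
          unfold nx; rw [dif_neg (by omega)]
        rw [hsc, h2, mul_one] at h1
        have h3 : ((if i = 0 then be⁻¹ else 1 : Ab n b)) ∈ C := by
          split_ifs
          · exact inv_mem m2
          · exact one_mem _
        exact (Subgroup.mul_mem_cancel_left C h3).1 h1
      | succ m ih =>
        intro i hi
        have h1 := m4 i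
        have h2 : (nx D i : Ab n b) ∈ C := by
          unfold nx
          rw [dif_pos (by omega)]
          exact zpow_mem (ih _ (by simp only; omega)) _
        rw [hsc] at h1
        have h3 : ((if i = 0 then be⁻¹ else 1 : Ab n b)) ∈ C := by
          split_ifs
          · exact inv_mem m2
          · exact one_mem _
        exact (Subgroup.mul_mem_cancel_left C h3).1 ((Subgroup.mul_mem_cancel_right C h2).1 h1)
    have hzl' : ∀ i : Fin (n+1), (zl i : Ab n b) ∈ C := fun i =>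
      hzl (n - i) i (by have := i.2; omega)
    have hal : (al : Ab n b) ∈ C := by
      rw [hc1] at m1
      exact (Subgroup.mul_mem_cancel_right C (zpow_mem m2 _)).1
        ((Subgroup.mul_mem_cancel_right C (zpow_mem (hzl' 0) _)).1 m1)
    have hzr : ∀ j, (zr (ι j) : Ab n b) ∈ C := by
      intro j
      have h1 := m5 j
      rw [hsc'] at h1
      exact (Subgroup.mul_mem_cancel_left C (mul_mem (zpow_mem hal _) m2)).1 h1
    rw [eq_top_iff]
    intro q' _
    obtain ⟨x', y', c', l', rfl⟩ := hco q'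
    exact mul_mem (mul_mem (zpow_mem hal _) (zpow_mem m2 _))
      (mul_mem (Subgroup.prod_mem _ fun i _ => zpow_mem (hzl' i) _)
        (Subgroup.prod_mem _ fun j _ => zpow_mem (hzr j) _))
  · rw [List.prod_append, List.prod_append, map_mul, map_mul, map_list_prod _ (List.ofFn s),
      map_list_prod _ (List.ofFn s'), List.map_ofFn, List.map_ofFn, List.prod_ofFn, List.prod_ofFn]
    simp only [Function.comp, hsc, hsc', List.prod_cons, List.prod_nil, mul_one, map_mul, hc1, hc3]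
    have hbe : (Abelianization.of bW : Ab n b) = be := rfl
    rw [hbe, Finset.prod_mul_distrib, Finset.prod_mul_distrib, Finset.prod_mul_distrib,
      Finset.prod_const, Finset.card_univ, Fintype.card_fin]
    have h1 : ∏ i : Fin (n+1), (if i = 0 then (be : Ab n b)⁻¹ else 1) = be⁻¹ := by simp
    have h2 : ∏ i, (zl i : Ab n b) ^ c i = (∏ i, zl i) * (zl 0 ^ D 0 * ∏ i, nx D i) *
        ∏ i, zl i ^ (2 * E i) := by
      rw [← prod_nx, ← Finset.prod_mul_distrib, ← Finset.prod_mul_distrib]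
      refine Finset.prod_congr rfl fun i _ => ?_
      conv_lhs => rw [hc i]
      rw [zpow_add, zpow_one_add]
    have h3 : ∏ j, (zr (ι j) : Ab n b) ^ l j = (∏ j, zr (ι j) ^ (l j - 1)) * ∏ j, zr (ι j) := by
      rw [← Finset.prod_mul_distrib]
      refine Finset.prod_congr rfl fun j _ => ?_
      rw [← zpow_add_one, sub_add_cancel]
    have h4 : (al : Ab n b) ^ x = al * al ^ (x - 1 + b') * (al ^ (-1 : ℤ) * be) ^ b' *
        (be ^ (b' : ℤ))⁻¹ := by
      rw [mul_pow, zpow_natCast, ← mul_assoc, mul_inv_cancel_right, ← zpow_natCast,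
        ← zpow_mul, mul_assoc, ← zpow_add, ← zpow_one_add]
      congr 1; ring
    have h5 : (be : Ab n b) ^ y = be ^ (y - 1 - b') * be * be * be⁻¹ * be ^ (b' : ℤ) := by
      rw [mul_inv_cancel_right, ← zpow_add_one, ← zpow_add]
      congr 1; ring
    rw [h1, h2, h3, h4, h5]
    generalize (∏ i, zl i : Ab n b) = P1
    generalize (∏ i, nx D i : Ab n b) = P2
    generalize (∏ i, zl i ^ (2 * E i) : Ab n b) = P3
    generalize (∏ j, zr (ι j) ^ (l j - 1) : Ab n b) = P4
    generalize (∏ j, zr (ι j) : Ab n b) = P5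
    generalize (zl 0 ^ D 0 : Ab n b) = P6
    generalize (be ^ (y - 1 - (b' : ℤ)) : Ab n b) = P7
    generalize (al ^ (x - 1 + (b' : ℤ)) : Ab n b) = P8
    generalize ((al ^ (-1 : ℤ) * be) ^ b' : Ab n b) = P9
    have h6 : al * P8 * P9 * (be ^ (b' : ℤ))⁻¹ * (P7 * be * be * be⁻¹ * be ^ (b' : ℤ)) =
        (al * P8 * P9 * (P7 * be * be * be⁻¹) : Ab n b) := by
      generalize (be ^ (b' : ℤ) : Ab n b) = R
      rw [mul_assoc (al * P8 * P9), mul_comm _ R, inv_mul_cancel_left]
    rw [h6]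
    generalize (be : Ab n b)⁻¹ = Bi
    generalize (be : Ab n b) = B
    generalize (al : Ab n b) = A
    exact ac_final A B Bi P1 P2 P3 P4 P5 P6 P7 P8 P9
  · simp only [List.length_append, List.length_ofFn, List.length_cons, List.length_nil]
    omega

theorem upper_dia (b' : ℕ) (ι : Fin b' → Fin b)
    (hco : ∀ q : Ab n b, ∃ (x y : ℤ) (c : Fin (n+1) → ℤ) (l : Fin b' → ℤ),
      q = al ^ x * be ^ y * ((∏ i, zl i ^ c i) * ∏ j, zr (ι j) ^ l j)) {m : ℕ} (hm : 1 ≤ m) :
    dia (simpleN (n+3) b) m ≤ ((n + 4 + b' : ℕ) : ℕ∞) := by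
  refine dia_le simpleN_conj hm fun h => ?_
  obtain ⟨L, hL1, hL2, hL3, hL4⟩ := upper_core b' ι hco (Abelianization.of (toW h))
  have hsymm : ∀ x : NSurf (n+3) b, (isoW n b).symm (toW x) = x := fun x =>
    (isoW n b).symm_apply_apply x
  refine ⟨L.map (isoW n b).symm, ?_, ?_, ?_, ?_⟩
  · intro x hx
    obtain ⟨y, hy, rfl⟩ := List.mem_map.1 hx
    exact Or.inl (hL1 y hy)
  · rw [eq_top_iff]
    intro x _
    have h1 : (Abelianization.of (toW x) : Ab n b) ∈
        Subgroup.closure ((Abelianization.of : Wn n b →* Ab n b) '' {s | s ∈ L}) := by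
      rw [hL2]; exact Subgroup.mem_top _
    rw [← MonoidHom.map_closure] at h1
    obtain ⟨w, hw, hwx⟩ := h1
    have h2 : w⁻¹ * toW x ∈ lcs (Wn n b) 1 := QuotientGroup.eq.1 hwx
    have h3 := lcs_map ((isoW n b).symm : Wn n b →* NSurf (n+3) b) 1 _ h2
    have h4 : Subgroup.closure {s | s ∈ L} ≤ (Subgroup.closure
        {s | s ∈ L.map (isoW n b).symm}).comap ((isoW n b).symm : Wn n b →* NSurf (n+3) b) := by
      rw [Subgroup.closure_le]
      intro s hs
      exact Subgroup.subset_closure (List.mem_map.2 ⟨s, hs, rfl⟩)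
    have h5 := h4 hw
    have e : x = ((isoW n b).symm : Wn n b →* NSurf (n+3) b) w *
        ((isoW n b).symm : Wn n b →* NSurf (n+3) b) (w⁻¹ * toW x) := by
      rw [← map_mul, mul_inv_cancel_left]
      exact (hsymm x).symm
    rw [e]
    exact mul_mem (Subgroup.mem_sup_left h5) (Subgroup.mem_sup_right h3)
  · rw [pr_eq]
    have h2 : L.prod⁻¹ * toW h ∈ lcs (Wn n b) 1 := QuotientGroup.eq.1 hL3
    have h3 := lcs_map ((isoW n b).symm : Wn n b →* NSurf (n+3) b) 1 _ h2
    have e : (L.map (isoW n b).symm).prod⁻¹ * h =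
        ((isoW n b).symm : Wn n b →* NSurf (n+3) b) (L.prod⁻¹ * toW h) := by
      rw [map_mul, map_inv]
      congr 1
      · congr 1
        exact (map_list_prod (isoW n b).symm L).symm
      · exact (hsymm h).symm
    rw [e]; exact h3
  · rw [List.length_map, hL4]

/-- elements with coordinates -/
def Co (n b b' : ℕ) (ι : Fin b' → Fin b) : Subgroup (Ab n b) where
  carrier := {q | ∃ (x y : ℤ) (c : Fin (n+1) → ℤ) (l : Fin b' → ℤ),
      q = al ^ x * be ^ y * ((∏ i, zl i ^ c i) * ∏ j, zr (ι j) ^ l j)}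
  one_mem' := ⟨0, 0, 0, 0, by simp⟩
  mul_mem' := by
    rintro _ _ ⟨x, y, c, l, rfl⟩ ⟨x', y', c', l', rfl⟩
    refine ⟨x + x', y + y', c + c', l + l', ?_⟩
    simp only [zpow_add, Pi.add_apply, Finset.prod_mul_distrib]
    exact ac_mul _ _ _ _ _ _ _ _
  inv_mem' := by
    rintro _ ⟨x, y, c, l, rfl⟩
    refine ⟨-x, -y, -c, -l, ?_⟩
    simp only [zpow_neg, Pi.neg_apply, Finset.prod_inv_distrib, mul_inv]

theorem Co_al {b' : ℕ} (ι : Fin b' → Fin b) : (al : Ab n b) ∈ Co n b b' ι :=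
  ⟨1, 0, 0, 0, by simp⟩
theorem Co_be {b' : ℕ} (ι : Fin b' → Fin b) : (be : Ab n b) ∈ Co n b b' ι :=
  ⟨0, 1, 0, 0, by simp⟩
theorem Co_zl {b' : ℕ} (ι : Fin b' → Fin b) (i : Fin (n+1)) : (zl i : Ab n b) ∈ Co n b b' ι := by
  refine ⟨0, 0, Pi.single i 1, 0, ?_⟩
  rw [Finset.prod_eq_single i]
  · simp
  · intro j _ hj; simp [hj]
  · simp
theorem Co_zr {b' : ℕ} (ι : Fin b' → Fin b) (j : Fin b') :
    (zr (ι j) : Ab n b) ∈ Co n b b' ι := by
  refine ⟨0, 0, 0, Pi.single j 1, ?_⟩
  rw [Finset.prod_eq_single (s := Finset.univ) (f := fun k => (zr (ι k) : Ab n b) ^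
    (Pi.single j 1 : Fin b' → ℤ) k) j]
  · simp
  · intro k _ hk; simp [hk]
  · simp

theorem Co_top {b' : ℕ} (ι : Fin b' → Fin b) (hr : ∀ j, (zr j : Ab n b) ∈ Co n b b' ι)
    (q : Ab n b) : ∃ (x y : ℤ) (c : Fin (n+1) → ℤ) (l : Fin b' → ℤ),
      q = al ^ x * be ^ y * ((∏ i, zl i ^ c i) * ∏ j, zr (ι j) ^ l j) := by
  obtain ⟨w, rfl⟩ : ∃ w, (Abelianization.of w : Ab n b) = q := QuotientGroup.mk_surjective q
  have htop : (Co n b b' ι).comap (Abelianization.of : Wn n b →* Ab n b) = ⊤ := by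
    refine closure_gensW _ (Co_al ι) (Co_be ι) fun i => ?_
    induction i using Fin.addCases with
    | left i => exact Co_zl ι i
    | right j => exact hr j
  have hw : w ∈ (Co n b b' ι).comap (Abelianization.of : Wn n b →* Ab n b) := by
    rw [htop]; exact Subgroup.mem_top _
  exact hw

theorem ab_relation : (∏ i, (zl i : Ab n b) ^ 2) * ∏ j, (zr j : Ab n b) = 1 := by
  have h := congrArg (Abelianization.of : Wn n b →* Ab n b)
    (relationW (N := n+1+b) (e := eN n b))
  rw [map_mul, map_one, map_commutatorElement, map_list_prod, List.map_ofFn, List.prod_ofFn,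
    Fin.prod_univ_add] at h
  have h1 : ⁅(Abelianization.of (aW : Wn n b) : Ab n b), Abelianization.of (bW : Wn n b)⁆ = 1 := by
    rw [commutatorElement_eq_one_iff_mul_comm, mul_comm]
  rw [h1, one_mul] at h
  rw [← h]
  congr 1
  · refine Finset.prod_congr rfl fun i _ => ?_
    simp only [Function.comp, map_pow]
    rw [eN_left]; rfl
  · refine Finset.prod_congr rfl fun j _ => ?_
    simp only [Function.comp, map_pow]
    rw [eN_right, pow_one]; rfl

/-- upper bound, closed surfaces -/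
theorem upperN_closed (n m : ℕ) (hm : 1 ≤ m) :
    dia (simpleN (n+3) 0) m ≤ ((n + 4 : ℕ) : ℕ∞) :=
  upper_dia 0 (fun j => j.elim0) (Co_top _ fun j => j.elim0) hm

/-- upper bound, punctured surfaces -/
theorem upperN_punctured (n b m : ℕ) (hm : 1 ≤ m) :
    dia (simpleN (n+3) (b+1)) m ≤ ((n + 3 + (b + 1) : ℕ) : ℕ∞) := by
  have h := upper_dia (n := n) (b := b+1) b Fin.succ (Co_top _ fun j => ?_) hm
  · have e : n + 4 + b = n + 3 + (b + 1) := by omega
    rw [e] at h
    exact h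
  · cases j using Fin.cases with
    | succ j => exact Co_zr Fin.succ j
    | zero =>
      have h0 := ab_relation (n := n) (b := b+1)
      rw [Fin.prod_univ_succ (fun j : Fin (b+1) => (zr j : Ab n (b+1)))] at h0
      have e : (zr 0 : Ab n (b+1)) = (∏ i, (zl i : Ab n (b+1)) ^ 2)⁻¹ *
          (∏ j : Fin b, (zr j.succ : Ab n (b+1)))⁻¹ := by
        rw [eq_mul_inv_iff_mul_eq, eq_inv_iff_mul_eq_one, mul_comm]
        exact h0
      rw [e]
      exact mul_mem (inv_mem (Subgroup.prod_mem _ fun i _ => pow_mem (Co_zl _ i) 2))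
        (inv_mem (Subgroup.prod_mem _ fun j _ => Co_zr Fin.succ j))

end coreN

end H94Simple
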