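import Pool.Agent.H94.SnG
import Pool.Agent.H94.SnL

open scoped commutatorElement

namespace H94Simple

/-- **The limit for punctured non-orientable surfaces of genus at least three.** -/
theorem limitN (n b : ℕ) :
    ∃ n0, ∀ m, n0 ≤ m → dia (simpleN (n+3) (b+1)) m = ((n + 3 + (b + 1) : ℕ) : ℕ∞) := by
  obtain ⟨m, hm⟩ := lower_existsN (h := n+3) (b := b) (by omega)
  refine ⟨m + 1, fun k hk => ?_⟩
  have h1 := upperN_punctured n b k (by omega)
  have h2 : ¬ dia (simpleN (n+3) (b+1)) k ≤ ((n + 3 + b : ℕ) : ℕ∞) := fun h =>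
    hm (dia_monoS (fun _ => simpleN_inv) simpleN_one (by omega) h)
  obtain ⟨d, hd⟩ := ENat.ne_top_iff_exists.1 (ne_top_of_le_ne_top (ENat.natCast_ne_top _) h1)
  rw [← hd] at h1 h2 ⊢
  have h3 : d ≤ n + 3 + (b + 1) := by exact_mod_cast h1
  have h4 : ¬ d ≤ n + 3 + b := by exact_mod_cast h2
  have h5 : d = n + 3 + (b + 1) := by omega
  rw [h5]

theorem dia_top_of_hom {G : Type*} [Group G] {S : Set G} (hinv : ∀ s ∈ S, s⁻¹ ∈ S)
    (h1 : (1 : G) ∈ S) (ψ : G →* Multiplicative ℤ) (C : ℕ)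
    (hC : ∀ s ∈ S, |Multiplicative.toAdd (ψ s)| ≤ C) (x : G)
    (hx : Multiplicative.toAdd (ψ x) ≠ 0) {n : ℕ} (hn : 1 ≤ n) : dia S n = ⊤ := by
  by_contra hne
  obtain ⟨D, hD⟩ := ENat.ne_top_iff_exists.1 hne
  obtain ⟨f, hf1, hf2⟩ := exists_funS hinv h1 (le_of_eq hD.symm) (x ^ (D * C + 1))
  have hmem := lcs_anti hn ((pr_eq _ _ _).1 hf2)
  have hf := lcs_one_comm ψ hmem
  rw [map_mul, map_inv, inv_mul_eq_one] at hf
  have h5 : |Multiplicative.toAdd (ψ (List.ofFn f).prod)| ≤ D * C := by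
    rw [map_list_prod, List.map_ofFn, List.prod_ofFn, toAdd_prod]
    refine (Finset.abs_sum_le_sum_abs _ _).trans ?_
    refine (Finset.sum_le_card_nsmul _ _ (C : ℤ) fun i _ => hC _ (hf1 i)).trans ?_
    simp
  rw [hf, map_pow, toAdd_pow, nsmul_eq_mul, abs_mul, abs_of_nonneg (by positivity)] at h5
  have h6 : 1 ≤ |Multiplicative.toAdd (ψ x)| := Int.one_le_abs hx
  push_cast at h5
  have h7 : ((D:ℤ) * C + 1) * 1 ≤ ((D:ℤ) * C + 1) * |Multiplicative.toAdd (ψ x)| :=
    mul_le_mul_of_nonneg_left h6 (by positivity)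
  linarith

section small

variable {h b : ℕ}

theorem abs_listprod {k : ℕ} (f : Fin k → Multiplicative ℤ) (M : ℤ)
    (hf : ∀ i, |Multiplicative.toAdd (f i)| ≤ M) :
    |Multiplicative.toAdd (List.ofFn f).prod| ≤ k * M := by
  rw [List.prod_ofFn, toAdd_prod]
  refine (Finset.abs_sum_le_sum_abs _ _).trans ?_
  refine (Finset.sum_le_card_nsmul _ _ M fun i _ => hf i).trans ?_
  simp

theorem std_bound (f : NSurf h b →* Multiplicative ℤ) (M : ℕ)
    (hx : ∀ i, |Multiplicative.toAdd (f (XN i))| ≤ M)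
    (hc : ∀ j, |Multiplicative.toAdd (f (CN j))| ≤ M) {t : NSurf h b} (ht : t ∈ stdN h b) :
    |Multiplicative.toAdd (f t)| ≤ ((4 * h + b) * M : ℕ) := by
  have hM : (0 : ℤ) ≤ M := by positivity
  have h0 : |Multiplicative.toAdd (1 : Multiplicative ℤ)| ≤ (M : ℤ) := by simp
  have h0' : |Multiplicative.toAdd (1 : Multiplicative ℤ)| ≤ (2 * M : ℤ) := by simp
  have hcon : ∀ i j, |Multiplicative.toAdd (f (conW XN i j))| ≤ h * M := by
    intro i j
    rw [conW_map, conW]
    refine abs_listprod _ _ fun t => ?_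
    split_ifs
    · exact hx t
    · exact h0
  have hsep : ∀ k l, |Multiplicative.toAdd (f (sepW XN CN k l))| ≤ h * (2 * M) + b * M := by
    intro k l
    rw [sepW_map, sepW, toAdd_mul]
    refine (abs_add_le _ _).trans (add_le_add ?_ ?_)
    · refine abs_listprod _ _ fun t => ?_
      split_ifs
      · rw [toAdd_pow, nsmul_eq_mul, abs_mul]
        have := hx t
        rw [show |((2 : ℕ) : ℤ)| = 2 from rfl]
        linarith
      · exact h0'
    · refine abs_listprod _ _ fun t => ?_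
      split_ifs
      · exact hc t
      · exact h0
  have hhM : (0 : ℤ) ≤ h * M := by positivity
  have hbM : (0 : ℤ) ≤ b * M := by positivity
  push_cast
  rcases ht with ⟨i, j, _, _, rfl⟩ | ⟨k, l, _, _, rfl⟩ | ⟨m, l, _, _, rfl⟩
  · have := hcon i j
    nlinarith
  · have := hsep k l
    nlinarith
  · have h1 := hcon (h - (2 * m + 1)) h
    have h2 := hsep (2 * m + 1) l
    rw [sepOW, map_mul, toAdd_mul]
    refine (abs_add_le _ _).trans ?_
    rw [map_pow, map_inv, toAdd_pow, toAdd_inv, nsmul_eq_mul, abs_mul, abs_neg,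
      show |((2 : ℕ) : ℤ)| = 2 from rfl]
    nlinarith

theorem small_bound (ψ : NSurf h b →* Multiplicative ℤ) (M : ℕ)
    (H : ∀ φ : NSurf h b ≃* NSurf h b, IsGeometricN φ →
      (∀ i, |Multiplicative.toAdd (ψ (φ (XN i)))| ≤ M) ∧
      (∀ j, |Multiplicative.toAdd (ψ (φ (CN j)))| ≤ M)) :
    ∀ s ∈ simpleN h b, |Multiplicative.toAdd (ψ s)| ≤ ((4 * h + b) * M : ℕ) := by
  rintro s ⟨φ, hφ, t, ht, hs⟩
  obtain ⟨h1, h2⟩ := H φ hφ
  have h3 := std_bound (ψ.comp (φ : NSurf h b →* NSurf h b)) M h1 h2 ht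
  rcases hs with rfl | rfl
  · exact h3
  · rw [map_inv, toAdd_inv, abs_neg]; exact h3

theorem geo_abs (ψ : NSurf h b →* Multiplicative ℤ) {φ : NSurf h b ≃* NSurf h b}
    (hφ : IsGeometricN φ) (M : ℤ) (hM : ∀ j, |Multiplicative.toAdd (ψ (CN j))| ≤ M) (j : Fin b) :
    |Multiplicative.toAdd (ψ (φ (CN j)))| ≤ M := by
  obtain ⟨σ, ε, hc⟩ := hφ
  obtain ⟨x, hx⟩ := isConj_iff.1 (hc j)
  have := congrArg ψ hx
  rw [map_mul, map_mul, map_inv, mul_comm (ψ x), mul_assoc, mul_inv_cancel, mul_one,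
    map_zpow] at this
  rw [this, toAdd_zpow, smul_eq_mul, abs_mul]
  have hε : |((ε j : ℤˣ) : ℤ)| = 1 := Int.isUnit_iff_abs_eq.1 (ε j).isUnit
  rw [hε, one_mul]
  exact hM _

/-- **Genus one**, punctured: the diameters are infinite. -/
theorem genus_one (b : ℕ) {n : ℕ} (hn : 1 ≤ n) : dia (simpleN 1 (b+1)) n = ⊤ := by
  set ψ : NSurf 1 (b+1) →* Multiplicative ℤ := liftN (fun _ => Multiplicative.ofAdd (-(b+1 : ℤ)))
    (fun _ => Multiplicative.ofAdd (2 : ℤ)) (by
      rw [List.prod_ofFn, List.prod_ofFn]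
      apply Multiplicative.toAdd.injective
      simp [toAdd_mul, toAdd_pow]
      ring) with hψ
  have hC : ∀ j, |Multiplicative.toAdd (ψ (CN j))| ≤ 2 := by
    intro j
    rw [hψ, liftN_C]
    simp
  refine dia_top_of_hom (fun _ => simpleN_inv) simpleN_one ψ ((4 * 1 + (b+1)) * (b + 2))
    (small_bound ψ (b+2) fun φ hφ => ?_) (CN 0) ?_ hn
  · have h2 : ∀ j, |Multiplicative.toAdd (ψ (φ (CN j)))| ≤ 2 := geo_abs ψ hφ 2 hC
    refine ⟨fun i => ?_, fun j => (h2 j).trans (by push_cast; linarith)⟩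
    have hrel := congrArg (fun x => Multiplicative.toAdd (ψ (φ x)))
      (relationN (h := 1) (b := b+1))
    simp only [map_mul, map_one, map_list_prod, List.map_ofFn, List.prod_ofFn, toAdd_mul,
      toAdd_one, Function.comp, map_pow, Fin.prod_univ_one, toAdd_pow, toAdd_prod] at hrel
    have h3 : |∑ j : Fin (b+1), Multiplicative.toAdd (ψ (φ (CN j)))| ≤ (b+1) * 2 := by
      refine (Finset.abs_sum_le_sum_abs _ _).trans ?_
      refine (Finset.sum_le_card_nsmul _ _ 2 fun i _ => h2 i).trans ?_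
      simp
    have hi : i = 0 := Subsingleton.elim _ _
    rw [hi]
    rw [nsmul_eq_mul] at hrel
    rw [abs_le] at h3 ⊢
    push_cast at hrel ⊢
    constructor <;> linarith [h3.1, h3.2]
  · rw [hψ, liftN_C]
    simp

/-- **Genus two** (Klein bottle, possibly punctured): the diameters are infinite. -/
theorem genus_two (b : ℕ) {n : ℕ} (hn : 1 ≤ n) : dia (simpleN 2 b) n = ⊤ := by
  set ψ : NSurf 2 b →* Multiplicative ℤ := liftN
    (fun i => Multiplicative.ofAdd (if i = 0 then 1 else -1 : ℤ))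
    (fun _ => 1) (by
      rw [List.prod_ofFn, List.prod_ofFn]
      apply Multiplicative.toAdd.injective
      simp [toAdd_mul, toAdd_pow, Fin.prod_univ_two]) with hψ
  have hC : ∀ j, |Multiplicative.toAdd (ψ (CN j))| ≤ 0 := by
    intro j
    rw [hψ, liftN_C]
    simp
  have hsurj : Function.Surjective ψ := by
    intro y
    refine ⟨XN 0 ^ Multiplicative.toAdd y, ?_⟩
    rw [map_zpow, hψ, liftN_X, if_pos rfl]
    apply Multiplicative.toAdd.injective
    simp
  refine dia_top_of_hom (fun _ => simpleN_inv) simpleN_one ψ ((4 * 2 + b) * 1)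
    (small_bound ψ 1 fun φ hφ => ?_) (XN 0) ?_ hn
  · have h2 : ∀ j, |Multiplicative.toAdd (ψ (φ (CN j)))| ≤ 0 := geo_abs ψ hφ 0 hC
    have h2' : ∀ j, Multiplicative.toAdd (ψ (φ (CN j))) = 0 := fun j =>
      abs_eq_zero.1 (le_antisymm (h2 j) (abs_nonneg _))
    refine ⟨?_, fun j => (h2 j).trans (by simp)⟩
    have hrel := congrArg (fun x => Multiplicative.toAdd (ψ (φ x)))
      (relationN (h := 2) (b := b))
    simp only [map_mul, map_one, map_list_prod, List.map_ofFn, List.prod_ofFn, toAdd_mul,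
      toAdd_one, Function.comp, map_pow, Fin.prod_univ_two, toAdd_pow, toAdd_prod, h2',
      Finset.sum_const_zero, add_zero, nsmul_eq_mul] at hrel
    set a : ℤ := Multiplicative.toAdd (ψ (φ (XN 0))) with ha
    have h1 : Multiplicative.toAdd (ψ (φ (XN 1))) = -a := by
      push_cast at hrel; linarith
    -- every value is a multiple of a
    have hmul : ∀ x : NSurf 2 b, a ∣ Multiplicative.toAdd (ψ (φ x)) := by
      have htop : ((Subgroup.zpowers (Multiplicative.ofAdd a)).comap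
          (ψ.comp (φ : NSurf 2 b →* NSurf 2 b))) = ⊤ := by
        refine closure_gensN _ ?_ ?_
        · intro i
          rw [Subgroup.mem_comap]
          fin_cases i
          · exact Subgroup.mem_zpowers _
          · refine ⟨-1, ?_⟩
            apply Multiplicative.toAdd.injective
            show _ = Multiplicative.toAdd (ψ (φ (XN 1)))
            rw [h1]; simp
        · intro j
          rw [Subgroup.mem_comap]
          refine ⟨0, ?_⟩
          apply Multiplicative.toAdd.injective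
          show _ = Multiplicative.toAdd (ψ (φ (CN j)))
          rw [h2' j]; simp
      intro x
      have hx : x ∈ ((Subgroup.zpowers (Multiplicative.ofAdd a)).comap
          (ψ.comp (φ : NSurf 2 b →* NSurf 2 b))) := by rw [htop]; exact Subgroup.mem_top _
      obtain ⟨k, hk⟩ := hx
      refine ⟨k, ?_⟩
      have := congrArg Multiplicative.toAdd hk
      simp only [toAdd_zpow, toAdd_ofAdd, smul_eq_mul] at this
      rw [mul_comm, this]; rfl
    obtain ⟨y, hy⟩ := hsurj (Multiplicative.ofAdd 1)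
    have h3 := hmul (φ.symm y)
    rw [MulEquiv.apply_symm_apply, hy, toAdd_ofAdd] at h3
    have h4 : |a| ≤ 1 := by
      have := Int.le_of_dvd one_pos ((abs_dvd a 1).2 h3)
      exact this
    intro i
    fin_cases i
    · exact_mod_cast h4
    · show |Multiplicative.toAdd (ψ (φ (XN 1)))| ≤ _
      rw [h1, abs_neg]; exact_mod_cast h4
  · rw [hψ, liftN_X]
    simp

/-- The projective plane. -/
theorem proj_plane {n : ℕ} (hn : 1 ≤ n) : dia (simpleN 1 0) n = 1 := by
  have hX : (XN 0 : NSurf 1 0) ∈ simpleN 1 0 := by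
    apply simpleN_std
    left
    refine ⟨0, 1, by omega, le_rfl, ?_⟩
    simp [conW]
  have hsq : (XN 0 : NSurf 1 0) ^ 2 = 1 := by
    have := relationN (h := 1) (b := 0)
    simpa using this
  have hcases : ∀ x : NSurf 1 0, x = 1 ∨ x = XN 0 := by
    have htop : Subgroup.zpowers (XN 0 : NSurf 1 0) = ⊤ := by
      refine closure_gensN _ ?_ fun j => j.elim0
      intro i
      rw [show i = 0 from Subsingleton.elim _ _]
      exact Subgroup.mem_zpowers _
    intro x
    have hx : x ∈ Subgroup.zpowers (XN 0 : NSurf 1 0) := by rw [htop]; exact Subgroup.mem_top _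
    obtain ⟨k, rfl⟩ := hx
    show XN 0 ^ k = 1 ∨ XN 0 ^ k = XN 0
    rcases Int.even_or_odd' k with ⟨m, rfl | rfl⟩
    · left
      rw [zpow_mul, show ((XN 0 : NSurf 1 0) ^ (2 : ℤ)) = XN 0 ^ (2 : ℕ) from by norm_cast, hsq,
        one_zpow]
    · right
      rw [zpow_add, zpow_mul, show ((XN 0 : NSurf 1 0) ^ (2 : ℤ)) = XN 0 ^ (2 : ℕ) from by
        norm_cast, hsq, one_zpow, one_mul, zpow_one]
  refine le_antisymm ?_ ?_
  · have h1 : dia (simpleN 1 0) n ≤ ((1 : ℕ) : ℕ∞) := by
      refine diam_le fun q => ?_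
      obtain ⟨x, rfl⟩ := pr_surj n q
      refine ⟨[pr _ n x], ⟨?_, by simp⟩, by simp⟩
      intro y hy
      simp only [List.mem_cons, List.not_mem_nil, or_false] at hy
      subst hy
      left
      rcases hcases x with rfl | rfl
      · exact ⟨_, simpleN_one, rfl⟩
      · exact ⟨_, hX, rfl⟩
    exact h1
  · rw [ENat.one_le_iff_ne_zero]
    intro h0
    have h1 : dia (simpleN 1 0) n ≤ ((0 : ℕ) : ℕ∞) := by rw [h0]; simp
    obtain ⟨f, -, hf⟩ := exists_funS (fun _ => simpleN_inv) simpleN_one h1 (XN 0 : NSurf 1 0)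
    rw [List.ofFn_zero, List.prod_nil] at hf
    have hmem := lcs_anti hn ((pr_eq _ _ _).1 hf)
    rw [inv_one, one_mul] at hmem
    have h2 := lcs_one_comm (liftN (h := 1) (b := 0)
      (fun _ => Multiplicative.ofAdd (1 : ZMod 2)) (fun j => j.elim0) (by
        rw [List.ofFn_zero, List.prod_nil, mul_one, List.prod_ofFn, Fin.prod_univ_one]
        decide)) hmem
    rw [liftN_X] at h2
    exact absurd h2 (by decide)

end small

end H94Simple
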