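import Pool.Agent.H94.SnD

open scoped commutatorElement

namespace H94Simple

section wordfun

variable {h : ℕ}

abbrev WF (h : ℕ) := List (Fin h) → ZMod 2

/-- left shift by a letter -/
def Ds (i : Fin h) : WF h →ₗ[ZMod 2] WF h where
  toFun f := fun w => f (i :: w)
  map_add' _ _ := rfl
  map_smul' _ _ := rfl

/-- left shift by a word -/
def Sh (v : List (Fin h)) : WF h →ₗ[ZMod 2] WF h where
  toFun f := fun w => f (v ++ w)
  map_add' _ _ := rfl
  map_smul' _ _ := rfl

def Rop (h : ℕ) : Module.End (ZMod 2) (WF h) :=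
  (List.ofFn fun i : Fin h => ((1 + Ds i : Module.End (ZMod 2) (WF h))) ^ 2).prod

/-- functions supported on words of length less than `n` and killed by the relation -/
def Vn (h n : ℕ) : Submodule (ZMod 2) (WF h) where
  carrier := {f | (∀ w, n ≤ w.length → f w = 0) ∧ ∀ v, Rop h (Sh v f) = Sh v f}
  zero_mem' := ⟨fun _ _ => rfl, fun v => by simp⟩
  add_mem' := by
    rintro f g ⟨h1, h2⟩ ⟨h3, h4⟩
    exact ⟨fun w hw => by rw [Pi.add_apply, h1 w hw, h3 w hw, add_zero],
      fun v => by rw [map_add, map_add, h2, h4]⟩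
  smul_mem' := by
    rintro c f ⟨h1, h2⟩
    exact ⟨fun w hw => by rw [Pi.smul_apply, h1 w hw, smul_zero],
      fun v => by rw [map_smul, map_smul, h2]⟩

theorem Vn_mono {m n : ℕ} (hmn : m ≤ n) : Vn h m ≤ Vn h n := fun f hf =>
  ⟨fun w hw => hf.1 w (hmn.trans hw), hf.2⟩

theorem Ds_mem {n : ℕ} {f : WF h} (hf : f ∈ Vn h (n+1)) (i : Fin h) : Ds i f ∈ Vn h n := by
  refine ⟨fun w hw => hf.1 _ (by simp only [List.length_cons]; omega), fun v => ?_⟩
  exact hf.2 (i :: v)

theorem Ds_mem' {n : ℕ} {f : WF h} (hf : f ∈ Vn h n) (i : Fin h) : Ds i f ∈ Vn h n :=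
  Ds_mem (Vn_mono (Nat.le_succ n) hf) i

theorem sq_one_add (i : Fin h) (g : WF h) :
    ((1 + Ds i : Module.End (ZMod 2) (WF h)) ^ 2) g = g + Ds i (Ds i g) := by
  rw [pow_two]
  show (g + Ds i g) + Ds i (g + Ds i g) = _
  rw [map_add]
  have : Ds i g + Ds i g = 0 := by
    funext w; exact CharTwo.add_self_eq_zero _
  rw [show g + Ds i g + (Ds i g + Ds i (Ds i g)) = g + (Ds i g + Ds i g) + Ds i (Ds i g) by abel,
    this, add_zero]

theorem prod_sub_mem {n : ℕ} {F : WF h} (hF : ∀ i, Ds i F ∈ Vn h (n+1)) :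
    ∀ L : List (Module.End (ZMod 2) (WF h)), (∀ a ∈ L, ∃ i, a = (1 + Ds i) ^ 2) →
      L.prod F - F ∈ Vn h n := by
  intro L
  induction L with
  | nil => intro _; simp
  | cons a L ih =>
    intro hL
    obtain ⟨i, rfl⟩ := hL a (by simp)
    have h1 := ih fun a ha => hL a (List.mem_cons_of_mem _ ha)
    have e : (((1 + Ds i : Module.End (ZMod 2) (WF h)) ^ 2) :: L).prod F =
        L.prod F + Ds i (Ds i (L.prod F)) := by
      rw [List.prod_cons, Module.End.mul_apply, sq_one_add]
    have e2 : L.prod F = F + (L.prod F - F) := by abel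
    have e3 : Ds i (Ds i (L.prod F)) = Ds i (Ds i F) + Ds i (Ds i (L.prod F - F)) := by
      conv_lhs => rw [e2]
      rw [map_add, map_add]
    rw [e, e3]
    have e4 : L.prod F + (Ds i (Ds i F) + Ds i (Ds i (L.prod F - F))) - F =
      (L.prod F - F) + (Ds i (Ds i F) + Ds i (Ds i (L.prod F - F))) := by abel
    rw [e4]
    exact add_mem h1 (add_mem (Ds_mem (hF i) i) (Ds_mem' (Ds_mem' h1 i) i))

theorem Rop_sub_mem {n : ℕ} {F : WF h} (hF : ∀ i, Ds i F ∈ Vn h (n+1)) :
    Rop h F - F ∈ Vn h n := by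
  refine prod_sub_mem hF _ ?_
  intro a ha
  obtain ⟨i, rfl⟩ := (List.mem_ofFn' _ _).1 ha
  exact ⟨i, rfl⟩

/-- extension by a letter -/
def ext0 (n : ℕ) : (Fin h → Vn h n) →ₗ[ZMod 2] WF h where
  toFun f := fun w => match w with
    | [] => 0
    | i :: w => (f i : WF h) w
  map_add' f g := by
    funext w
    rcases w with _ | ⟨i, w⟩
    · simp
    · rfl
  map_smul' c f := by
    funext w
    rcases w with _ | ⟨i, w⟩
    · simp
    · rfl

theorem Ds_ext0 (n : ℕ) (f : Fin h → Vn h n) (i : Fin h) : Ds i (ext0 n f) = f i := rfl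

/-- the obstruction -/
def obs (n : ℕ) : (Fin h → Vn h (n+1)) →ₗ[ZMod 2] Vn h n where
  toFun f := ⟨Rop h (ext0 (n+1) f) - ext0 (n+1) f, Rop_sub_mem fun i => by
    rw [Ds_ext0]; exact (f i).2⟩
  map_add' f g := by
    apply Subtype.ext
    show Rop h (ext0 (n+1) (f + g)) - ext0 (n+1) (f + g) = (Rop h (ext0 (n+1) f) - ext0 (n+1) f) +
      (Rop h (ext0 (n+1) g) - ext0 (n+1) g)
    rw [map_add, map_add]; abel
  map_smul' c f := by
    apply Subtype.ext
    show Rop h (ext0 (n+1) (c • f)) - ext0 (n+1) (c • f) = c • (Rop h (ext0 (n+1) f) -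
      ext0 (n+1) f)
    rw [map_smul, map_smul, smul_sub]

theorem ext0_mem (n : ℕ) (f : Fin h → Vn h (n+1)) (hf : obs n f = 0) :
    ext0 (n+1) f ∈ Vn h (n+2) := by
  refine ⟨?_, ?_⟩
  · intro w hw
    rcases w with _ | ⟨i, w⟩
    · rfl
    · exact (f i).2.1 w (by simp only [List.length_cons] at hw; omega)
  · intro v
    rcases v with _ | ⟨i, v⟩
    · exact sub_eq_zero.1 (congrArg Subtype.val hf)
    · exact (f i).2.2 v

instance Vn_fin (n : ℕ) : Module.Finite (ZMod 2) (Vn h n) := by
  haveI : Finite {w : List (Fin h) // w.length < n} := (List.finite_length_lt (Fin h) n).to_subtype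
  let φ : Vn h n →ₗ[ZMod 2] ({w : List (Fin h) // w.length < n} → ZMod 2) :=
    { toFun := fun f w => (f : WF h) w.1
      map_add' := fun _ _ => rfl
      map_smul' := fun _ _ => rfl }
  refine Module.Finite.of_injective φ ?_
  intro f g hfg
  apply Subtype.ext
  funext w
  by_cases hw : w.length < n
  · exact congrFun hfg ⟨w, hw⟩
  · rw [f.2.1 w (not_lt.1 hw), g.2.1 w (not_lt.1 hw)]

noncomputable def bn (h n : ℕ) : ℕ := Module.finrank (ZMod 2) (Vn h n)

theorem bn_rec (n : ℕ) : h * bn h (n+1) ≤ bn h (n+2) + bn h n := by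
  have h1 := LinearMap.finrank_range_add_finrank_ker (obs (h := h) n)
  have h2 : Module.finrank (ZMod 2) (Fin h → Vn h (n+1)) = h * bn h (n+1) := by
    rw [Module.finrank_pi_fintype]
    simp [bn]
  rw [h2] at h1
  have h3 : Module.finrank (ZMod 2) (LinearMap.range (obs (h := h) n)) ≤ bn h n :=
    Submodule.finrank_le _
  have h4 : Module.finrank (ZMod 2) (LinearMap.ker (obs (h := h) n)) ≤ bn h (n+2) := by
    let ψ : LinearMap.ker (obs (h := h) n) →ₗ[ZMod 2] Vn h (n+2) :=
      { toFun := fun f => ⟨ext0 (n+1) f.1, ext0_mem n f.1 f.2⟩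
        map_add' := fun f g => Subtype.ext (map_add (ext0 (n+1)) f.1 g.1)
        map_smul' := fun c f => Subtype.ext (map_smul (ext0 (n+1)) c f.1) }
    refine LinearMap.finrank_le_finrank_of_injective (f := ψ) ?_
    intro f g hfg
    have h5 : ext0 (n+1) f.1 = ext0 (n+1) g.1 := congrArg Subtype.val hfg
    apply Subtype.ext
    funext i
    apply Subtype.ext
    have := congrArg (Ds i) h5
    rwa [Ds_ext0, Ds_ext0] at this
  omega

theorem bn_zero : bn h 0 = 0 := by
  have : Vn h 0 = ⊥ := by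
    rw [eq_bot_iff]
    intro f hf
    rw [Submodule.mem_bot]
    funext w
    exact hf.1 w (Nat.zero_le _)
  rw [bn, this, finrank_bot]

theorem bn_one : 1 ≤ bn h 1 := by
  have hmem : (fun w : List (Fin h) => if w = [] then (1 : ZMod 2) else 0) ∈ Vn h 1 := by
    refine ⟨?_, ?_⟩
    · intro w hw
      show (if w = [] then (1 : ZMod 2) else 0) = 0
      rw [if_neg]
      rintro rfl
      simp at hw
    · have h0 : ∀ F : WF h, (∀ i, Ds i F = 0) → Rop h F = F := by
        intro F hF
        have h1 : ∀ L : List (Module.End (ZMod 2) (WF h)),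
          (∀ a ∈ L, ∃ i, a = (1 + Ds i) ^ 2) → L.prod F = F := by
          intro L
          induction L with
          | nil => intro _; simp
          | cons a L ih =>
            intro hL
            obtain ⟨i, rfl⟩ := hL a (by simp)
            rw [List.prod_cons, Module.End.mul_apply,
              ih fun a ha => hL a (List.mem_cons_of_mem _ ha), sq_one_add, hF, map_zero, add_zero]
        refine h1 _ ?_
        intro a ha
        obtain ⟨i, rfl⟩ := (List.mem_ofFn' _ _).1 ha
        exact ⟨i, rfl⟩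
      intro v
      apply h0
      intro i
      funext w
      show (if v ++ (i :: w) = [] then (1 : ZMod 2) else 0) = 0
      rw [if_neg (by simp)]
  have hne : Vn h 1 ≠ ⊥ := by
    intro hb
    rw [hb, Submodule.mem_bot] at hmem
    have := congrFun hmem []
    simp at this
  have : 0 < Module.finrank (ZMod 2) (Vn h 1) := by
    rw [Module.finrank_pos_iff]
    exact Submodule.nontrivial_iff_ne_bot.2 hne
  exact this

theorem bn_growth (ν : ℝ) (hν : 1 ≤ ν) (hh : ν + 1 / ν ≤ h) (n : ℕ) :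
    ν ^ n ≤ bn h (n+1) := by
  have hν0 : 0 < ν := by linarith
  have key : ∀ n, ν * bn h n ≤ bn h (n+1) ∧ ν ^ n ≤ bn h (n+1) := by
    intro n
    induction n with
    | zero =>
      rw [bn_zero]
      have : (1:ℝ) ≤ bn h 1 := by exact_mod_cast bn_one
      simp only [Nat.cast_zero, mul_zero, pow_zero, zero_add]
      exact ⟨by linarith, this⟩
    | succ n ih =>
      obtain ⟨i1, i2⟩ := ih
      have h1 : (h : ℝ) * bn h (n+1) ≤ bn h (n+2) + bn h n := by exact_mod_cast bn_rec n
      have h2 : (bn h n : ℝ) ≤ (1 / ν) * bn h (n+1) := by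
        rw [one_div, ← div_eq_inv_mul, le_div_iff₀ hν0]; linarith
      have h3 : (0:ℝ) ≤ bn h (n+1) := by positivity
      have h4 := mul_le_mul_of_nonneg_right hh h3
      have h5 : ν * bn h (n+1) ≤ bn h (n+1+1) := by
        have : (bn h (n+2) : ℝ) = bn h (n+1+1) := rfl
        nlinarith
      refine ⟨h5, le_trans ?_ h5⟩
      rw [pow_succ, mul_comm]
      exact mul_le_mul_of_nonneg_left i2 hν0.le
  exact (key n).2

end wordfun

end H94Simple
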