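import Pool.Agent.H94.SnP

open scoped commutatorElement

namespace H94Simple

section unitsV

variable {h n : ℕ}

abbrev EnV (h n : ℕ) := Module.End (ZMod 2) (Vn h n)

def Dn (n : ℕ) (i : Fin h) : EnV h n := (Ds i).restrict fun _ hf => Ds_mem' hf i

def En (h n s : ℕ) : Submodule (ZMod 2) (Vn h n) := (Vn h s).comap (Vn h n).subtype

theorem En_mono {s t : ℕ} (hst : s ≤ t) : En h n s ≤ En h n t := fun _ hf => Vn_mono hst hf

theorem En_zero {f : Vn h n} (hf : f ∈ En h n 0) : f = 0 := by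
  apply Subtype.ext
  funext w
  exact hf.1 w (Nat.zero_le _)

theorem En_top (f : Vn h n) : f ∈ En h n n := f.2

theorem Dn_En (i : Fin h) {s : ℕ} {f : Vn h n} (hf : f ∈ En h n s) :
    Dn n i f ∈ En h n (s-1) := by
  rcases s with _ | s
  · exact Ds_mem' hf i
  · exact Ds_mem hf i

theorem Dn_nilp (i : Fin h) : IsNilpotent (Dn n i) := by
  refine ⟨n, ?_⟩
  have key : ∀ k (f : Vn h n), ((Dn n i) ^ k) f ∈ En h n (n - k) := by
    intro k
    induction k with
    | zero => intro f; exact En_top f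
    | succ k ih =>
      intro f
      rw [pow_succ', Module.End.mul_apply, ← Nat.sub_sub]
      exact Dn_En i (ih f)
  ext1 f
  have := key n f
  rw [Nat.sub_self] at this
  exact En_zero this

instance Vn_finite (n : ℕ) : Finite (Vn h n) := Module.finite_of_finite (ZMod 2)

instance EnV_finite : Finite (EnV h n) :=
  Finite.of_injective (fun g : EnV h n => (g : Vn h n → Vn h n)) DFunLike.coe_injective

instance EnVu_finite : Finite (EnV h n)ˣ := Finite.of_injective Units.val Units.val_injective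

theorem add_self_Vn (f : Vn h n) : f + f = 0 := by
  apply Subtype.ext
  funext w
  exact CharTwo.add_self_eq_zero _

/-- unipotent filtration -/
def UVm (h n j : ℕ) : Submonoid (EnV h n)ˣ where
  carrier := {g | ∀ s, ∀ f ∈ En h n s, (g : EnV h n) f - f ∈ En h n (s - j)}
  one_mem' := by
    intro s f _
    rw [Units.val_one, Module.End.one_apply, sub_self]
    exact zero_mem _
  mul_mem' := by
    intro g g' hg hg' s f hf
    have e : ((g * g' : (EnV h n)ˣ) : EnV h n) f - f =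
      ((g : EnV h n) ((g' : EnV h n) f - f) - ((g' : EnV h n) f - f)) +
      (((g' : EnV h n) f - f) + ((g : EnV h n) f - f)) := by
      rw [Units.val_mul, Module.End.mul_apply, map_sub]; abel
    rw [e]
    have h1 := hg' s f hf
    exact add_mem (En_mono (Nat.sub_le _ _) (hg _ _ h1)) (add_mem h1 (hg s f hf))

def UV (h n j : ℕ) : Subgroup (EnV h n)ˣ :=
  { UVm h n j with
    inv_mem' := by
      intro g hg
      have e : g⁻¹ = g ^ (Nat.card (EnV h n)ˣ - 1) := by
        apply inv_eq_of_mul_eq_one_right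
        rw [← pow_succ', Nat.sub_add_cancel Nat.card_pos, pow_card_eq_one']
      rw [e]
      exact (UVm h n j).pow_mem hg _ }

theorem mem_UV {j : ℕ} {g : (EnV h n)ˣ} :
    g ∈ UV h n j ↔ ∀ s, ∀ f ∈ En h n s, (g : EnV h n) f - f ∈ En h n (s - j) := Iff.rfl

theorem UV_anti {i j : ℕ} (hij : i ≤ j) : UV h n j ≤ UV h n i := fun g hg s f hf =>
  En_mono (by omega) (mem_UV.1 hg s f hf)

theorem UV_pres {j : ℕ} {g : (EnV h n)ˣ} (hg : g ∈ UV h n j) {s : ℕ} {f : Vn h n}
    (hf : f ∈ En h n s) : (g : EnV h n) f ∈ En h n s := by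
  have h1 := En_mono (Nat.sub_le _ _) (mem_UV.1 hg s f hf)
  have := add_mem h1 hf
  rwa [sub_add_cancel] at this

theorem UV_top {g : (EnV h n)ˣ} (hg : g ∈ UV h n n) : g = 1 := by
  apply Units.ext
  ext1 f
  have h1 := mem_UV.1 hg n f (En_top f)
  rw [Nat.sub_self] at h1
  rw [Units.val_one, Module.End.one_apply]
  exact sub_eq_zero.1 (En_zero h1)

theorem comm_UV {i j : ℕ} {u v : (EnV h n)ˣ} (hu : u ∈ UV h n i) (hv : v ∈ UV h n j) :
    ⁅u, v⁆ ∈ UV h n (i + j) := by
  intro s f hf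
  set y : Vn h n := ((u⁻¹ : (EnV h n)ˣ) : EnV h n) (((v⁻¹ : (EnV h n)ˣ) : EnV h n) f) with hy
  have hys : y ∈ En h n s := UV_pres (inv_mem hu) (UV_pres (inv_mem hv) hf)
  have e1 : ((⁅u, v⁆ : (EnV h n)ˣ) : EnV h n) f = (u : EnV h n) ((v : EnV h n) y) := by
    rw [commutatorElement_def]; rfl
  have e2 : f = (v : EnV h n) ((u : EnV h n) y) := by
    have h1 : v * u * u⁻¹ * v⁻¹ = 1 := by group
    have h2 : ((v * u * u⁻¹ * v⁻¹ : (EnV h n)ˣ) : EnV h n) f = f := by rw [h1]; rfl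
    exact h2.symm
  have e3 : ((⁅u, v⁆ : (EnV h n)ˣ) : EnV h n) f - f =
      ((u : EnV h n) ((v : EnV h n) y - y) - ((v : EnV h n) y - y)) -
      ((v : EnV h n) ((u : EnV h n) y - y) - ((u : EnV h n) y - y)) := by
    rw [e1]
    conv_lhs => rw [e2]
    rw [map_sub, map_sub]; abel
  rw [e3]
  have h1 := hu _ _ (hv s y hys)
  have h2 := hv _ _ (hu s y hys)
  rw [Nat.sub_sub] at h1 h2
  rw [add_comm j i] at h1
  exact sub_mem h1 h2

theorem sq_UV {j : ℕ} (hj : 1 ≤ j) {u : (EnV h n)ˣ} (hu : u ∈ UV h n j) :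
    u ^ 2 ∈ UV h n (j + 1) := by
  intro s f hf
  have e : ((u ^ 2 : (EnV h n)ˣ) : EnV h n) f - f =
      ((u : EnV h n) ((u : EnV h n) f - f) - ((u : EnV h n) f - f)) := by
    have h0 := add_self_Vn ((u : EnV h n) f - f)
    have e1 : ((u ^ 2 : (EnV h n)ˣ) : EnV h n) f = (u : EnV h n) ((u : EnV h n) f) := by
      rw [pow_two]; rfl
    rw [e1, map_sub]
    have e2 : (u : EnV h n) ((u : EnV h n) f) - f =
      (u : EnV h n) ((u : EnV h n) f) - (u : EnV h n) f - ((u : EnV h n) f - f) +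
        (((u : EnV h n) f - f) + ((u : EnV h n) f - f)) := by abel
    rw [e2, h0, add_zero]
  rw [e]
  have h1 := hu _ _ (hu s f hf)
  exact En_mono (by omega) h1

theorem TT_UV {G : Type*} [Group G] (ρ : G →* (EnV h n)ˣ) (h0 : ∀ g, ρ g ∈ UV h n 1)
    (i : ℕ) : ∀ g ∈ TT G i, ρ g ∈ UV h n (i + 1) := by
  induction i with
  | zero => intro g _; exact h0 g
  | succ i ih =>
    have : TT G (i+1) ≤ (UV h n (i+1+1)).comap ρ := by
      conv_lhs => unfold TT
      refine sup_le ?_ ?_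
      · rw [Subgroup.commutator_le]
        intro x hx y _
        rw [Subgroup.mem_comap, map_commutatorElement]
        exact comm_UV (ih x hx) (h0 y)
      · rw [Subgroup.closure_le]
        rintro _ ⟨y, hy, rfl⟩
        show ρ (y ^ 2) ∈ UV h n (i+1+1)
        rw [map_pow]
        exact sq_UV (by omega) (ih y hy)
    exact this

/-- evaluation along a subgroup -/
def Evv (H : Subgroup (EnV h n)ˣ) (f : Vn h n) : H → ZMod 2 :=
  fun g => (((g : (EnV h n)ˣ) : EnV h n) f : WF h) []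

noncomputable def cS (H : Subgroup (EnV h n)ˣ) (s : ℕ) : ℕ :=
  Nat.card (Evv H '' (En h n s : Set (Vn h n)))

theorem cS_step {H M : Subgroup (EnV h n)ˣ} (hM : M ≤ H) {g : (EnV h n)ˣ} {j : ℕ}
    (hgj : g ∈ UV h n j) (hcos : ∀ x ∈ H, x ∈ M ∨ x * g⁻¹ ∈ M) (s : ℕ) :
    cS H s ≤ cS M s * cS M (s - j) := by
  unfold cS
  rw [← Nat.card_prod]
  have hch : ∀ q : Evv H '' (En h n s : Set (Vn h n)), ∃ f ∈ En h n s, Evv H f = q := fun q => q.2
  choose f hf hfq using hch
  refine Nat.card_le_card_of_injective (fun q => (⟨Evv M (f q), _, hf q, rfl⟩,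
    ⟨Evv M ((g : EnV h n) (f q) - f q), _, hgj s _ (hf q), rfl⟩)) ?_
  intro q q' hqq
  have h1 : Evv M (f q) = Evv M (f q') := congrArg Subtype.val (Prod.ext_iff.1 hqq).1
  have h2 : Evv M ((g : EnV h n) (f q) - f q) = Evv M ((g : EnV h n) (f q') - f q') :=
    congrArg Subtype.val (Prod.ext_iff.1 hqq).2
  apply Subtype.ext
  rw [← hfq, ← hfq]
  funext x
  rcases hcos x x.2 with hx | hx
  · exact congrFun h1 ⟨x, hx⟩
  · have e : ∀ F : Vn h n, Evv H F x = Evv M F ⟨_, hx⟩ +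
        (Evv M ((g : EnV h n) F - F) ⟨_, hx⟩) +
        (Evv M F ⟨_, hx⟩ - Evv M F ⟨_, hx⟩) := by
      intro F
      rw [sub_self, add_zero]
      have hx2 : (x : (EnV h n)ˣ) = ((x : (EnV h n)ˣ) * g⁻¹) * g := by group
      show (((x : (EnV h n)ˣ) : EnV h n) F : WF h) [] =
        ((((x : (EnV h n)ˣ) * g⁻¹ : (EnV h n)ˣ) : EnV h n) F : WF h) [] +
        ((((x : (EnV h n)ˣ) * g⁻¹ : (EnV h n)ˣ) : EnV h n) ((g : EnV h n) F - F) : WF h) []
      conv_lhs => rw [hx2]
      generalize ((x : (EnV h n)ˣ) * g⁻¹) = m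
      rw [map_sub, Units.val_mul, Module.End.mul_apply]
      show ((m : EnV h n) ((g : EnV h n) F) : WF h) [] = ((m : EnV h n) F : WF h) [] +
        (((m : EnV h n) ((g : EnV h n) F) : WF h) [] - ((m : EnV h n) F : WF h) [])
      abel
    rw [e, e, congrFun h1 _, congrFun h2 _]

theorem cS_pos (H : Subgroup (EnV h n)ˣ) (s : ℕ) : 0 < cS H s := by
  unfold cS
  haveI : Nonempty (Evv H '' (En h n s : Set (Vn h n))) := ⟨⟨_, 0, zero_mem _, rfl⟩⟩
  exact Nat.card_pos

theorem cS_zero (H : Subgroup (EnV h n)ˣ) : cS H 0 = 1 := by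
  unfold cS
  have : Evv H '' (En h n 0 : Set (Vn h n)) = {Evv H 0} := by
    ext q
    constructor
    · rintro ⟨f, hf, rfl⟩
      rw [En_zero hf]; rfl
    · rintro rfl
      exact ⟨0, zero_mem _, rfl⟩
  rw [this]
  simp

theorem cS_bot (s : ℕ) : cS (⊥ : Subgroup (EnV h n)ˣ) s ≤ 2 := by
  unfold cS
  refine (Nat.card_le_card_of_injective (fun q : Evv (⊥ : Subgroup (EnV h n)ˣ) ''
    (En h n s : Set (Vn h n)) => (q : (⊥ : Subgroup (EnV h n)ˣ) → ZMod 2) 1) ?_).trans ?_
  · intro q q' hq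
    apply Subtype.ext
    funext x
    rw [show x = 1 from Subsingleton.elim _ _]
    exact hq
  · rw [Nat.card_eq_fintype_card, ZMod.card]

end unitsV

end H94Simple
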