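import Pool.Agent.H94.SnQ

open scoped commutatorElement

namespace H94Simple

section chain

variable {h n : ℕ}

theorem pow_UV {g : (EnV h n)ˣ} (hg : g ∈ UV h n 1) (k : ℕ) : g ^ (2 ^ k) ∈ UV h n (k + 1) := by
  induction k with
  | zero => simpa using hg
  | succ k ih =>
    rw [pow_succ, pow_mul]
    exact sq_UV (by omega) ih

theorem card_two_pow {H : Subgroup (EnV h n)ˣ} (hH : H ≤ UV h n 1) :
    ∃ a, Nat.card H = 2 ^ a := by
  haveI : Fact (Nat.Prime 2) := ⟨Nat.prime_two⟩
  have hp : IsPGroup 2 H := by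
    intro g
    refine ⟨n, ?_⟩
    apply Subtype.ext
    have h1 := pow_UV (hH g.2) n
    exact UV_top (UV_anti (Nat.le_succ n) h1)
  exact IsPGroup.iff_card.1 hp

theorem exists_half {H N : Subgroup (EnV h n)ˣ} (hH : H ≤ UV h n 1) (hN : N ≤ H) (k : ℕ)
    (hk : Nat.card H = 2 ^ (k+1) * Nat.card N) :
    ∃ M : Subgroup (EnV h n)ˣ, N ≤ M ∧ M ≤ H ∧ Nat.card M = 2 ^ k * Nat.card N ∧
      ∃ g ∈ H, ∀ x ∈ H, x ∈ M ∨ x * g⁻¹ ∈ M := by
  haveI : Fact (Nat.Prime 2) := ⟨Nat.prime_two⟩
  obtain ⟨a, ha⟩ := card_two_pow (hN.trans hH)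
  have hcN : Nat.card (N.subgroupOf H) = 2 ^ a := by
    rw [← ha]
    exact Nat.card_congr (Subgroup.subgroupOfEquivOfLe hN).toEquiv
  have hcH : Nat.card H = 2 ^ (k + 1 + a) := by rw [hk, ha, ← pow_add]
  obtain ⟨K, hK1, hK2⟩ := Sylow.exists_subgroup_card_pow_prime_le (p := 2) (n := a) (m := k + a)
    (by rw [hcH]; exact pow_dvd_pow 2 (by omega)) (N.subgroupOf H) hcN (by omega)
  have hidx : K.index = 2 := by
    have h1 := K.card_mul_index
    rw [hK1, hcH, show 2 ^ (k + 1 + a) = 2 ^ (k + a) * 2 by rw [← pow_succ]; congr 1; omega] at h1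
    exact Nat.eq_of_mul_eq_mul_left (by positivity) h1
  refine ⟨K.map H.subtype, ?_, ?_, ?_, ?_⟩
  · intro x hx
    exact ⟨⟨x, hN hx⟩, hK2 hx, rfl⟩
  · rintro _ ⟨x, _, rfl⟩
    exact x.2
  · rw [ha, ← pow_add, ← hK1]
    exact (Nat.card_congr (K.equivMapOfInjective H.subtype H.subtype_injective).toEquiv).symm
  · have hne : K ≠ ⊤ := by
      rintro rfl
      rw [Subgroup.index_top] at hidx
      omega
    obtain ⟨g, hg⟩ : ∃ g, g ∉ K := by
      by_contra hcon
      push Not at hcon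
      exact hne (eq_top_iff.2 fun x _ => hcon x)
    refine ⟨g, g.2, fun x hx => ?_⟩
    by_cases hxK : (⟨x, hx⟩ : H) ∈ K
    · left; exact ⟨_, hxK, rfl⟩
    · right
      have h1 : (⟨x, hx⟩ : H) * g⁻¹ ∈ K := by
        rw [Subgroup.mul_mem_iff_of_index_two hidx]
        have : g⁻¹ ∉ K := fun h => hg (by simpa using inv_mem h)
        tauto
      exact ⟨_, h1, rfl⟩

theorem inner_bound (ζ : ℝ) (hζ : 1 ≤ ζ) (j : ℕ) (hj : 1 ≤ j) {N : Subgroup (EnV h n)ˣ} (C : ℝ)
    (hC : 0 ≤ C) (hN : ∀ s, Real.log (cS N s) ≤ C * ζ ^ s) :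
    ∀ (k : ℕ) (H : Subgroup (EnV h n)ˣ), N ≤ H → H ≤ UV h n j →
      Nat.card H = 2 ^ k * Nat.card N →
      ∀ s, Real.log (cS H s) ≤ C * (1 + (ζ ^ j)⁻¹) ^ k * ζ ^ s := by
  have hζ0 : 0 < ζ := by linarith
  intro k
  induction k with
  | zero =>
    intro H hNH _ hcard s
    have : N = H := Subgroup.eq_of_le_of_card_ge hNH (by rw [hcard]; simp)
    rw [← this, pow_zero, mul_one]
    exact hN s
  | succ k ih =>
    intro H hNH hHU hcard s
    obtain ⟨M, hM1, hM2, hM3, g, hg, hcos⟩ := exists_half (hHU.trans (UV_anti hj)) hNH k hcard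
    have h1 := cS_step hM2 (hHU hg) hcos s
    have hpos1 : (0:ℝ) < cS M s := by exact_mod_cast cS_pos M s
    have hpos2 : (0:ℝ) < cS M (s-j) := by exact_mod_cast cS_pos M (s-j)
    have h2 : Real.log (cS H s) ≤ Real.log (cS M s) + Real.log (cS M (s-j)) := by
      rw [← Real.log_mul hpos1.ne' hpos2.ne']
      refine Real.log_le_log (by exact_mod_cast cS_pos H s) ?_
      exact_mod_cast h1
    have i1 := ih M hM1 (hM2.trans hHU) hM3 s
    set A := C * (1 + (ζ ^ j)⁻¹) ^ k with hA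
    have hA0 : 0 ≤ A := by positivity
    have i2 : Real.log (cS M (s-j)) ≤ A * (ζ ^ s * (ζ ^ j)⁻¹) := by
      by_cases hs : j ≤ s
      · have i3 := ih M hM1 (hM2.trans hHU) hM3 (s-j)
        refine i3.trans (le_of_eq ?_)
        congr 1
        rw [pow_sub₀ _ hζ0.ne' hs]
      · rw [show s - j = 0 by omega, cS_zero, Nat.cast_one, Real.log_one]
        positivity
    have e : C * (1 + (ζ ^ j)⁻¹) ^ (k+1) * ζ ^ s = A * ζ ^ s + A * (ζ ^ s * (ζ ^ j)⁻¹) := by
      rw [hA]; ring
    rw [e]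
    linarith

theorem outer_bound (ζ : ℝ) (hζ : 1 ≤ ζ) (P : Subgroup (EnV h n)ˣ) (l : ℕ → ℕ)
    (hl : ∀ j, 1 ≤ j → Nat.card (UV h n j ⊓ P : Subgroup _) =
      2 ^ l j * Nat.card (UV h n (j+1) ⊓ P : Subgroup _)) :
    ∀ t j, j + t = n → 1 ≤ j → ∀ s, Real.log (cS (UV h n j ⊓ P) s) ≤
      Real.log 2 * Real.exp (∑ i ∈ Finset.Ico j n, (l i : ℝ) * (ζ ^ i)⁻¹) * ζ ^ s := by
  have hζ0 : 0 < ζ := by linarith
  have hlog2 : 0 < Real.log 2 := Real.log_pos (by norm_num)
  intro t
  induction t with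
  | zero =>
    intro j hj _ s
    have hjn : j = n := by omega
    subst hjn
    have hb : UV h j j ⊓ P = ⊥ := by
      rw [eq_bot_iff]
      intro x hx
      exact (Subgroup.mem_bot).2 (UV_top hx.1)
    rw [hb, Finset.Ico_self, Finset.sum_empty, Real.exp_zero, mul_one]
    have h1 : Real.log (cS (⊥ : Subgroup (EnV h j)ˣ) s) ≤ Real.log 2 := by
      refine Real.log_le_log (by exact_mod_cast cS_pos _ s) ?_
      exact_mod_cast cS_bot s
    have h2 : 1 ≤ ζ ^ s := one_le_pow₀ hζ
    nlinarith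
  | succ t ih =>
    intro j hj hj1 s
    have ih' := ih (j+1) (by omega) (by omega)
    have h1 := inner_bound ζ hζ j hj1 (N := UV h n (j+1) ⊓ P) _ (by positivity) ih' (l j)
      (UV h n j ⊓ P) (inf_le_inf_right _ (UV_anti (Nat.le_succ j))) inf_le_left (hl j hj1) s
    refine h1.trans ?_
    apply mul_le_mul_of_nonneg_right _ (by positivity)
    rw [mul_assoc]
    apply mul_le_mul_of_nonneg_left _ hlog2.le
    rw [Finset.sum_eq_sum_Ico_succ_bot (show j < n by omega), Real.exp_add, mul_comm]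
    apply mul_le_mul_of_nonneg_right _ (Real.exp_nonneg _)
    have h2 : 1 + (ζ ^ j)⁻¹ ≤ Real.exp ((ζ ^ j)⁻¹) := by
      have := Real.add_one_le_exp ((ζ ^ j)⁻¹)
      linarith
    have h3 := pow_le_pow_left₀ (by positivity) h2 (l j)
    rw [← Real.exp_nat_mul] at h3
    exact h3

end chain

section action

variable {h n : ℕ}

noncomputable def un (n : ℕ) (i : Fin h) : (EnV h n)ˣ := (Dn_nilp (n := n) i).isUnit_one_add.unit

theorem un_apply (i : Fin h) (f : Vn h n) : ((un n i : (EnV h n)ˣ) : EnV h n) f = f + Dn n i f := by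
  have : ((un n i : (EnV h n)ˣ) : EnV h n) = 1 + Dn n i := IsUnit.unit_spec _
  rw [this]; rfl

theorem un_mem (i : Fin h) : un n i ∈ UV h n 1 := by
  intro s f hf
  rw [un_apply, add_sub_cancel_left]
  exact Dn_En i hf

theorem prod_val : ∀ (k : ℕ) (F : Fin k → EnV h n) (F' : Fin k → Module.End (ZMod 2) (WF h)),
    (∀ i (f : Vn h n), (F i f : WF h) = F' i (f : WF h)) →
    ∀ f : Vn h n, ((List.ofFn F).prod f : WF h) = (List.ofFn F').prod (f : WF h) := by
  intro k
  induction k with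
  | zero => intro F F' _ f; simp
  | succ k ih =>
    intro F F' hF f
    rw [List.ofFn_succ, List.ofFn_succ, List.prod_cons, List.prod_cons, Module.End.mul_apply,
      Module.End.mul_apply, hF, ih _ _ fun i => hF i.succ]

theorem un_rel : (List.ofFn fun i : Fin h => (un n i) ^ 2).prod = 1 := by
  apply Units.ext
  ext1 f
  rw [Units.val_one, Module.End.one_apply]
  have e : (((List.ofFn fun i : Fin h => (un n i) ^ 2).prod : (EnV h n)ˣ) : EnV h n) =
      (List.ofFn fun i : Fin h => ((un n i : (EnV h n)ˣ) : EnV h n) ^ 2).prod := by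
    have := map_list_prod (Units.coeHom (EnV h n)) (List.ofFn fun i : Fin h => (un n i) ^ 2)
    rw [List.map_ofFn] at this
    exact this
  rw [e]
  apply Subtype.ext
  rw [prod_val h _ (fun i => ((1 + Ds i : Module.End (ZMod 2) (WF h))) ^ 2) ?_ f]
  · exact f.2.2 []
  · intro i g
    rw [sq_one_add, pow_two, Module.End.mul_apply, un_apply, un_apply, map_add]
    have h0 := add_self_Vn (Dn n i g)
    have e1 : g + Dn n i g + (Dn n i g + Dn n i (Dn n i g)) =
      g + (Dn n i g + Dn n i g) + Dn n i (Dn n i g) := by abel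
    rw [e1, h0, add_zero]
    rfl

/-- the action of the closed surface group -/
noncomputable def actN (h n : ℕ) : NSurf h 0 →* (EnV h n)ˣ :=
  liftN (fun i => un n i) (fun j => j.elim0) (by
    rw [List.ofFn_zero, List.prod_nil, mul_one]; exact un_rel)

theorem actN_mem (g : NSurf h 0) : actN h n g ∈ UV h n 1 := by
  have htop : (UV h n 1).comap (actN h n) = ⊤ := by
    refine closure_gensN _ ?_ fun j => j.elim0
    intro i
    rw [Subgroup.mem_comap, actN, liftN_X]
    exact un_mem i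
  have : g ∈ (UV h n 1).comap (actN h n) := by rw [htop]; exact Subgroup.mem_top _
  exact this

theorem ev_inj (P : Subgroup (EnV h n)ˣ) (hP : ∀ i : Fin h, un n i ∈ P) :
    ∀ (w : List (Fin h)) (f : Vn h n),
      (∀ g ∈ P, (((g : (EnV h n)ˣ) : EnV h n) f : WF h) [] = 0) → (f : WF h) w = 0 := by
  intro w
  induction w with
  | nil =>
    intro f hf
    have := hf 1 (one_mem _)
    rwa [Units.val_one, Module.End.one_apply] at this
  | cons i w ih =>
    intro f hf
    have h1 := ih (Dn n i f) ?_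
    · exact h1
    · intro g hg
      have h2 := hf (g * un n i) (mul_mem hg (hP i))
      have h3 := hf g hg
      rw [Units.val_mul, Module.End.mul_apply, un_apply, map_add] at h2
      have h4 : (((g : EnV h n) f : WF h) []) + (((g : EnV h n) (Dn n i f) : WF h) []) = 0 := h2
      rwa [h3, zero_add] at h4

theorem card_Vn_le (P : Subgroup (EnV h n)ˣ) (hP : ∀ i : Fin h, un n i ∈ P) :
    Nat.card (Vn h n) ≤ cS P n := by
  unfold cS
  refine Nat.card_le_card_of_injective (fun f : Vn h n => (⟨Evv P f, f, En_top f, rfl⟩ :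
    Evv P '' (En h n n : Set (Vn h n)))) ?_
  intro f f' hff
  have h1 : Evv P f = Evv P f' := congrArg Subtype.val hff
  have h2 : f - f' = 0 := by
    apply Subtype.ext
    funext w
    refine ev_inj P hP w (f - f') fun g hg => ?_
    rw [map_sub]
    have := congrFun h1 ⟨g, hg⟩
    show (((g : EnV h n) f : WF h) []) - (((g : EnV h n) f' : WF h) []) = 0
    exact sub_eq_zero.2 this
  exact sub_eq_zero.1 h2

theorem card_Vn : Nat.card (Vn h n) = 2 ^ bn h n := by
  have := Module.natCard_eq_pow_finrank (K := ZMod 2) (V := Vn h n)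
  rw [this, Nat.card_eq_fintype_card, ZMod.card]; rfl

end action

end H94Simple
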