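import Pool.Agent.H94.SnR

open scoped commutatorElement

namespace H94Simple

section fin

instance fgN {h : ℕ} : Group.FG (NSurf h 0) := by
  refine Group.fg_iff.2 ⟨Set.range XN, ?_, Set.finite_range _⟩
  exact closure_gensN _ (fun i => Subgroup.subset_closure ⟨i, rfl⟩) fun j => j.elim0

theorem TT_fin {G : Type*} [Group G] [Group.FG G] (n : ℕ) : (TT G n).FiniteIndex := by
  induction n with
  | zero =>
    show (⊤ : Subgroup G).FiniteIndex
    infer_instance
  | succ n ih =>
    haveI := ih
    haveI hfg : Group.FG (TT G n) := Subgroup.fg_of_index_ne_zero _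
    let A := TT G n ⧸ (TT G (n+1)).subgroupOf (TT G n)
    have hsq : ∀ x : A, x ^ 2 = 1 := by
      intro x
      obtain ⟨x, rfl⟩ := QuotientGroup.mk_surjective x
      rw [← QuotientGroup.mk_pow]
      refine (QuotientGroup.eq_one_iff _).2 ?_
      rw [Subgroup.mem_subgroupOf]
      exact TT_sq x.2
    have hcomm : ∀ x y : A, x * y = y * x := by
      intro x y
      have h1 : ∀ z : A, z⁻¹ = z := fun z => inv_eq_of_mul_eq_one_right (by rw [← pow_two, hsq])
      calc x * y = (x * y)⁻¹ := (h1 _).symm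
        _ = y⁻¹ * x⁻¹ := mul_inv_rev _ _
        _ = y * x := by rw [h1, h1]
    have hfin : Finite A := by
      let inst : CommGroup A := { (inferInstance : Group A) with mul_comm := hcomm }
      haveI : Group.FG A := QuotientGroup.fg _
      refine @CommGroup.finite_of_fg_torsion A inst this ?_
      intro x
      exact isOfFinOrder_iff_pow_eq_one.2 ⟨2, by norm_num, hsq x⟩
    have h1 : (TT G (n+1)).relIndex (TT G n) ≠ 0 := by
      have : (TT G (n+1)).relIndex (TT G n) = Nat.card A := rfl
      rw [this]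
      exact Nat.card_pos.ne'
    refine ⟨?_⟩
    rw [← Subgroup.relIndex_mul_index (TT_succ_le n)]
    exact mul_ne_zero h1 ih.index_ne_zero

end fin

section growth

variable {h : ℕ}

theorem layer_le (n j : ℕ) :
    Nat.card (actN h n).range ≤ Nat.card (UV h n (j+1) ⊓ (actN h n).range : Subgroup _) *
      (TT (NSurf h 0) j).index := by
  have h1 : (UV h n (j+1) ⊓ (actN h n).range).relIndex (actN h n).range =
      ((UV h n (j+1)).comap (actN h n)).index := by
    rw [Subgroup.inf_relIndex_right, Subgroup.index_comap]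
  have h2 := Subgroup.relIndex_mul_relIndex ⊥ (UV h n (j+1) ⊓ (actN h n).range)
    (actN h n).range bot_le inf_le_right
  rw [Subgroup.relIndex_bot_left, Subgroup.relIndex_bot_left, h1] at h2
  rw [← h2]
  refine Nat.mul_le_mul_left _ ?_
  haveI := TT_fin (G := NSurf h 0) j
  have hle : TT (NSurf h 0) j ≤ (UV h n (j+1)).comap (actN h n) := fun g hg =>
    TT_UV (actN h n) actN_mem j g hg
  exact Nat.le_of_dvd (Nat.pos_of_ne_zero this.index_ne_zero) (Subgroup.index_dvd_of_le hle)

theorem growth_false (C μ ν : ℝ) (hC : 0 ≤ C) (hμ : 1 ≤ μ) (hμν : μ < ν) (hν : ν + 1 / ν ≤ h)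
    (hq : ∀ i, Real.log ((TT (NSurf h 0) i).index) ≤ C * μ ^ i) : False := by
  obtain ⟨ζ, hζ1, hζ2⟩ := exists_between hμν
  have hζ0 : 0 < ζ := by linarith
  have hlog2 : 0 < Real.log 2 := Real.log_pos (by norm_num)
  set x := μ / ζ with hx
  have hx0 : 0 ≤ x := by positivity
  have hx1 : x < 1 := by rw [hx, div_lt_one hζ0]; exact hζ1
  set K := (C / Real.log 2) * (1 - x)⁻¹ with hK
  have main : ∀ m : ℕ, ν ^ m ≤ Real.exp K * ζ ^ (m+1) := by
    intro m
    set n := m + 1 with hn
    set P := (actN h n).range with hP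
    have hP1 : P ≤ UV h n 1 := by
      rintro _ ⟨g, rfl⟩; exact actN_mem g
    have ha : ∀ j, ∃ a, Nat.card (UV h n j ⊓ P : Subgroup _) = 2 ^ a := fun j =>
      card_two_pow (inf_le_right.trans hP1)
    choose a ha using ha
    have hanti : ∀ j, a (j+1) ≤ a j := by
      intro j
      have h1 : Nat.card (UV h n (j+1) ⊓ P : Subgroup _) ≤ Nat.card (UV h n j ⊓ P : Subgroup _) :=
        Subgroup.card_le_of_le (inf_le_inf_right _ (UV_anti (Nat.le_succ j)))
      rw [ha, ha] at h1
      exact (Nat.pow_le_pow_iff_right (by norm_num)).1 h1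
    have hl : ∀ j, 1 ≤ j → Nat.card (UV h n j ⊓ P : Subgroup _) =
        2 ^ (a j - a (j+1)) * Nat.card (UV h n (j+1) ⊓ P : Subgroup _) := by
      intro j _
      rw [ha, ha, ← pow_add, Nat.sub_add_cancel (hanti j)]
    have hout := outer_bound (h := h) (n := n) ζ (by linarith) P (fun j => a j - a (j+1)) hl m 1
      (by omega) le_rfl n
    have hP2 : UV h n 1 ⊓ P = P := inf_eq_right.2 hP1
    rw [hP2] at hout
    have hunP : ∀ i : Fin h, un n i ∈ P := fun i => ⟨XN i, by rw [actN, liftN_X]⟩
    have hcard := card_Vn_le P hunP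
    rw [card_Vn] at hcard
    have h1 : (bn h n : ℝ) * Real.log 2 ≤ Real.log (cS P n) := by
      rw [← Real.log_pow]
      refine Real.log_le_log (by positivity) ?_
      exact_mod_cast hcard
    have h2 := bn_growth (h := h) ν (by linarith) hν m
    have h3 : ∑ i ∈ Finset.Ico 1 n, ((a i - a (i+1) : ℕ) : ℝ) * (ζ ^ i)⁻¹ ≤ K := by
      have h4 : ∀ i ∈ Finset.Ico 1 n, ((a i - a (i+1) : ℕ) : ℝ) * (ζ ^ i)⁻¹ ≤
          (C / Real.log 2) * x ^ i := by
        intro i _
        have h5 := layer_le (h := h) n i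
        have h6 : 2 ^ a i ≤ 2 ^ a (i+1) * (TT (NSurf h 0) i).index := by
          refine le_trans ?_ (h5.trans (le_of_eq (by rw [← hP, ha])))
          rw [← ha i]
          exact Subgroup.card_le_of_le inf_le_right
        haveI := TT_fin (G := NSurf h 0) i
        have hpos : (0:ℝ) < (TT (NSurf h 0) i).index := by
          exact_mod_cast Nat.pos_of_ne_zero this.index_ne_zero
        have h7 : Real.log ((2:ℝ) ^ a i) ≤ Real.log ((2:ℝ) ^ a (i+1) *
            (TT (NSurf h 0) i).index) := by
          refine Real.log_le_log (by positivity) ?_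
          exact_mod_cast h6
        rw [Real.log_mul (by positivity) hpos.ne', Real.log_pow, Real.log_pow] at h7
        have h8 : ((a i - a (i+1) : ℕ) : ℝ) * Real.log 2 ≤ C * μ ^ i := by
          rw [Nat.cast_sub (hanti i)]
          have := hq i
          linarith
        have h9 : ((a i - a (i+1) : ℕ) : ℝ) ≤ (C / Real.log 2) * μ ^ i := by
          rw [div_mul_eq_mul_div, le_div_iff₀ hlog2]; exact h8
        have e9 : (C / Real.log 2) * x ^ i = ((C / Real.log 2) * μ ^ i) * (ζ ^ i)⁻¹ := by
          rw [hx, div_pow]; ring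
        rw [e9]
        exact mul_le_mul_of_nonneg_right h9 (by positivity)
      refine (Finset.sum_le_sum h4).trans ?_
      rw [← Finset.mul_sum, hK]
      apply mul_le_mul_of_nonneg_left _ (by positivity)
      rw [← tsum_geometric_of_lt_one hx0 hx1]
      exact (summable_geometric_of_lt_one hx0 hx1).sum_le_tsum _ (fun i _ => by positivity)
    have h10 : Real.log 2 * Real.exp (∑ i ∈ Finset.Ico 1 n,
        ((a i - a (i+1) : ℕ) : ℝ) * (ζ ^ i)⁻¹) * ζ ^ n ≤ Real.log 2 * Real.exp K * ζ ^ n := by
      gcongr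
    have h11 : (bn h n : ℝ) * Real.log 2 ≤ (Real.exp K * ζ ^ n) * Real.log 2 := by
      have := h1.trans (hout.trans h10)
      linarith
    have h12 : (bn h n : ℝ) ≤ Real.exp K * ζ ^ n := le_of_mul_le_mul_right h11 hlog2
    exact h2.trans h12
  have hratio : 1 < ν / ζ := by rw [lt_div_iff₀ hζ0]; linarith
  obtain ⟨m, hm⟩ := pow_unbounded_of_one_lt (Real.exp K * ζ) hratio
  have h1 := main m
  rw [div_pow, lt_div_iff₀ (by positivity)] at hm
  rw [pow_succ] at h1
  linarith

end growth

end H94Simple
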