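import Pool.Agent.H94.SnC
import Pool.Agent.H94.SnS

open scoped commutatorElement IsMulCommutative

namespace H94Simple

section cN

variable {G : Type*} [Group G]

/-- the size of `[TT (n+1), g]` modulo `TT (n+3)` -/
noncomputable def cN (n : ℕ) (g : G) : ℕ := Nat.card (cT (n+1) g).range

theorem cN_congr (n : ℕ) {g g' : G} (h : prT G 1 g = prT G 1 g') : cN n g = cN n g' := by
  have : cT (n+1) g = cT (n+1) g' := by
    ext1 w
    exact cT_congr (n+1) h w
  rw [cN, cN, this]

variable [Group.FG G]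

instance finTT (n : ℕ) : Finite (G ⧸ TT G n) := by
  haveI := TT_fin (G := G) n
  exact Subgroup.finite_quotient_of_finiteIndex

instance finLQ (n : ℕ) : Finite (LQ G n) := by
  have h1 : (TT G (n+1)).relIndex (TT G n) ≠ 0 := by
    intro h0
    have h2 := Subgroup.relIndex_mul_index (TT_succ_le (G := G) n)
    rw [h0, zero_mul] at h2
    exact (TT_fin (G := G) (n+1)).index_ne_zero h2.symm
  have e : (TT G (n+1)).relIndex (TT G n) = Nat.card (LQ G n) := rfl
  rw [e] at h1
  exact (Nat.card_ne_zero.1 h1).2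

theorem cN_le (n : ℕ) (g : G) : cN n g ≤ (TT G (n+2)).relIndex (TT G (n+1)) := by
  have e : (TT G (n+2)).relIndex (TT G (n+1)) = Nat.card (LQ G (n+1)) := rfl
  rw [e, cN]
  have hch : ∀ r : (cT (n+1) g).range, ∃ u, cT (n+1) g u = r := fun r => r.2
  choose u hu using hch
  refine Nat.card_le_card_of_injective (fun r => (QuotientGroup.mk (u r) : LQ G (n+1))) ?_
  intro r r' hrr
  have h1 := QuotientGroup.eq.1 hrr
  rw [Subgroup.mem_subgroupOf] at h1
  apply Subtype.ext
  rw [← hu, ← hu]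
  have h2 : u r' = u r * ((u r)⁻¹ * u r') := by group
  have h3 : cT (n+1) g ((u r)⁻¹ * u r') = 1 := by
    apply Subtype.ext
    rw [cT_coe]
    exact (prT_eq_one _ _).2 (TT_comm h1 g)
  rw [h2, map_mul, h3, mul_one]

theorem cN_aut_le (n : ℕ) (φ : G ≃* G) (g : G) : cN n g ≤ cN n (φ g) := by
  unfold cN
  have hch : ∀ r : (cT (n+1) g).range, ∃ u, cT (n+1) g u = r := fun r => r.2
  choose u hu using hch
  refine Nat.card_le_card_of_injective (fun r => (⟨cT (n+1) (φ g)
    ⟨φ (u r : G), TT_map φ.toMonoidHom (n+1) _ (u r).2⟩, ⟨_, rfl⟩⟩ :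
    (cT (n+1) (φ g)).range)) ?_
  intro r r' hrr
  have h1 : prT G (n+3) ⁅φ (u r : G), φ g⁆ = prT G (n+3) ⁅φ (u r' : G), φ g⁆ :=
    congrArg Subtype.val (congrArg Subtype.val hrr)
  rw [← map_commutatorElement, ← map_commutatorElement, prT_eq, ← map_inv, ← map_mul] at h1
  have h2 := TT_map φ.symm.toMonoidHom (n+3) _ h1
  have h3 : (⁅(u r : G), g⁆)⁻¹ * ⁅(u r' : G), g⁆ ∈ TT G (n+3) := by
    have e : φ.symm.toMonoidHom (φ ((⁅(u r : G), g⁆)⁻¹ * ⁅(u r' : G), g⁆)) =
      (⁅(u r : G), g⁆)⁻¹ * ⁅(u r' : G), g⁆ := φ.symm_apply_apply _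
    rwa [e] at h2
  apply Subtype.ext
  rw [← hu, ← hu]
  apply Subtype.ext
  rw [cT_coe, cT_coe]
  exact (prT_eq _ _ _).2 h3

theorem cN_aut (n : ℕ) (φ : G ≃* G) (g : G) : cN n (φ g) = cN n g := by
  refine le_antisymm ?_ (cN_aut_le n φ g)
  have := cN_aut_le n φ.symm (φ g)
  rwa [φ.symm_apply_apply] at this

theorem layerN (n : ℕ) {k : ℕ} (s : Fin k → G)
    (hs : Subgroup.closure (Set.range s) ⊔ TT G 1 = ⊤) :
    (TT G (n+3)).relIndex (TT G (n+2)) ≤ (∏ j, cN n (s j)) * (TT G 2).relIndex (TT G 1) := by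
  let s' : IdN 0 k → G := fun j => match j with
    | Sum.inl i => i.elim0
    | Sum.inr j => s j
  have hs' : Subgroup.closure (Set.range s') ⊔ TT G 1 = ⊤ := by
    rw [eq_top_iff, ← hs]
    refine sup_le_sup_right (Subgroup.closure_mono ?_) _
    rintro _ ⟨j, rfl⟩
    exact ⟨Sum.inr j, rfl⟩
  have hcov := ThN_cover s' hs' n
  have hch : ∀ τ : LQ G (n+2), ∃ (u : IdN 0 k → TT G (n+1)) (z : TT G 1),
    prT G (n+3) (((Quotient.out τ : TT G (n+2)) : G)) =
      ((ThN n s' u : Subgroup.center (G ⧸ TT G (n+3))) : G ⧸ TT G (n+3)) *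
      prT G (n+3) ((z : G) ^ (2 ^ (n+1))) := by
    intro τ
    obtain ⟨u, z, hz, h⟩ := hcov _ (Quotient.out τ : TT G (n+2)).2
    exact ⟨u, ⟨z, hz⟩, h⟩
  choose u z huz using hch
  have e1 : (TT G (n+3)).relIndex (TT G (n+2)) = Nat.card (LQ G (n+2)) := rfl
  have e2 : (TT G 2).relIndex (TT G 1) = Nat.card (LQ G 1) := rfl
  have e3 : (∏ j, cN n (s j)) = Nat.card ((j : Fin k) → (cT (n+1) (s j)).range) := by
    rw [Nat.card_pi]; rfl
  rw [e1, e2, e3, ← Nat.card_prod]
  refine Nat.card_le_card_of_injective (fun τ => ((fun j =>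
    (⟨cT (n+1) (s j) (u τ (Sum.inr j)), ⟨_, rfl⟩⟩ : (cT (n+1) (s j)).range)),
    (QuotientGroup.mk (z τ) : LQ G 1))) ?_
  intro τ τ' h
  have h1 : ∀ j, cT (n+1) (s j) (u τ (Sum.inr j)) = cT (n+1) (s j) (u τ' (Sum.inr j)) := fun j =>
    congrArg Subtype.val (congrFun (congrArg Prod.fst h) j)
  have h2 : (QuotientGroup.mk (z τ) : LQ G 1) = QuotientGroup.mk (z τ') := congrArg Prod.snd h
  have h3 : ThN n s' (u τ) = ThN n s' (u τ') := by
    rw [ThN_apply, ThN_apply]
    refine Finset.prod_congr rfl fun j _ => ?_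
    rcases j with i | j
    · exact i.elim0
    · exact h1 j
  have h4 : prT G 2 (z τ : G) = prT G 2 (z τ' : G) := by
    have := QuotientGroup.eq.1 h2
    rw [Subgroup.mem_subgroupOf] at this
    exact (prT_eq _ _ _).2 this
  have h5 := TT_pow_congr (n+1) (z τ).2 (z τ').2 h4
  have h6 : prT G (n+3) (((Quotient.out τ : TT G (n+2)) : G)) =
      prT G (n+3) (((Quotient.out τ' : TT G (n+2)) : G)) := by
    rw [huz, huz, h3]
    congr 1
  rw [← QuotientGroup.out_eq' τ, ← QuotientGroup.out_eq' τ', QuotientGroup.eq,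
    Subgroup.mem_subgroupOf]
  exact (prT_eq _ _ _).1 h6

end cN

section auts

variable {n : ℕ}

theorem ofFn_two {M : Type*} [Monoid M] : ∀ {n : ℕ} (i : Fin n) (f f' : Fin (n+1) → M),
    (∀ k, k ≠ i.castSucc → k ≠ i.succ → f k = f' k) →
    f i.castSucc * f i.succ = f' i.castSucc * f' i.succ →
    (List.ofFn f).prod = (List.ofFn f').prod := by
  intro n
  induction n with
  | zero => intro i; exact i.elim0
  | succ n ih =>
    intro i f f' h1 h2
    cases i using Fin.cases with
    | zero =>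
      rw [List.ofFn_succ, List.ofFn_succ, List.ofFn_succ, List.ofFn_succ, List.prod_cons,
        List.prod_cons, List.prod_cons, List.prod_cons, ← mul_assoc, ← mul_assoc]
      have e1 : f 0 * f (Fin.succ 0) = f' 0 * f' (Fin.succ 0) := h2
      rw [e1]
      congr 3
      funext k
      refine h1 _ ?_ ?_
      · exact Fin.succ_ne_zero _
      · intro h
        exact Fin.succ_ne_zero _ (Fin.succ_injective _ h)
    | succ i =>
      rw [List.ofFn_succ, List.ofFn_succ (f := f'), List.prod_cons, List.prod_cons]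
      have e0 : f 0 = f' 0 := h1 0 (fun h => by
        have := congrArg Fin.val h; simp at this) (fun h => by
        have := congrArg Fin.val h; simp at this)
      rw [e0]
      congr 1
      refine ih i (fun k => f k.succ) (fun k => f' k.succ) ?_ ?_
      · intro k hk1 hk2
        refine h1 _ ?_ ?_
        · intro h
          apply hk1
          apply Fin.succ_injective
          rw [h]
          rfl
        · intro h
          exact hk2 (Fin.succ_injective _ h)
      · exact h2

open Classical in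
noncomputable def swF (i : Fin n) (k : Fin (n+1)) : NSurf (n+1) 0 :=
  if k = i.castSucc then XN i.castSucc ^ 2 * XN i.succ * (XN i.castSucc ^ 2)⁻¹
  else if k = i.succ then XN i.castSucc else XN k

open Classical in
noncomputable def swB (i : Fin n) (k : Fin (n+1)) : NSurf (n+1) 0 :=
  if k = i.castSucc then XN i.succ
  else if k = i.succ then (XN i.succ ^ 2)⁻¹ * XN i.castSucc * XN i.succ ^ 2 else XN k

theorem cs_ne (i : Fin n) : i.succ ≠ i.castSucc := (Fin.castSucc_lt_succ (i := i)).ne'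

theorem sw_rel (F : Fin (n+1) → NSurf (n+1) 0) (i : Fin n)
    (h1 : ∀ k, k ≠ i.castSucc → k ≠ i.succ → F k = XN k)
    (h2 : F i.castSucc ^ 2 * F i.succ ^ 2 = XN i.castSucc ^ 2 * XN i.succ ^ 2) :
    (List.ofFn fun k => F k ^ 2).prod * (List.ofFn fun j : Fin 0 => (j.elim0 : NSurf (n+1) 0)).prod
      = 1 := by
  have h := relationN (h := n+1) (b := 0)
  rw [List.ofFn_zero, List.prod_nil, mul_one] at h ⊢
  rw [← h]
  exact ofFn_two i _ _ (fun k hk1 hk2 => by rw [h1 k hk1 hk2]) h2

noncomputable def swFh (i : Fin n) : NSurf (n+1) 0 →* NSurf (n+1) 0 :=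
  liftN (swF i) (fun j => j.elim0) (sw_rel _ i (fun k h1 h2 => by
    rw [swF, if_neg h1, if_neg h2]) (by
    rw [swF, swF, if_pos rfl, if_neg (cs_ne i), if_pos rfl]; simp only [pow_two]; group))

noncomputable def swBh (i : Fin n) : NSurf (n+1) 0 →* NSurf (n+1) 0 :=
  liftN (swB i) (fun j => j.elim0) (sw_rel _ i (fun k h1 h2 => by
    rw [swB, if_neg h1, if_neg h2]) (by
    rw [swB, swB, if_pos rfl, if_neg (cs_ne i), if_pos rfl]; simp only [pow_two]; group))

theorem swFB (i : Fin n) : (swFh i).comp (swBh i) = MonoidHom.id _ := by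
  refine homN_ext (fun k => ?_) fun j => j.elim0
  show swFh i (swBh i (XN k)) = XN k
  rw [swBh, liftN_X, swB]
  split_ifs with h1 h2
  · rw [h1, swFh, liftN_X, swF, if_neg (cs_ne i), if_pos rfl]
  · rw [h2, map_mul, map_mul, map_inv, map_pow, swFh, liftN_X, liftN_X, swF, swF,
      if_neg (cs_ne i), if_pos rfl, if_pos rfl]
    group
  · rw [swFh, liftN_X, swF, if_neg h1, if_neg h2]

theorem swBF (i : Fin n) : (swBh i).comp (swFh i) = MonoidHom.id _ := by
  refine homN_ext (fun k => ?_) fun j => j.elim0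
  show swBh i (swFh i (XN k)) = XN k
  rw [swFh, liftN_X, swF]
  split_ifs with h1 h2
  · rw [h1, map_mul, map_mul, map_inv, map_pow, swBh, liftN_X, liftN_X, swB, swB,
      if_neg (cs_ne i), if_pos rfl, if_pos rfl]
    group
  · rw [h2, swBh, liftN_X, swB, if_pos rfl]
  · rw [swBh, liftN_X, swB, if_neg h1, if_neg h2]

theorem exists_perm_aut (σ : Equiv.Perm (Fin (n+1))) :
    ∃ φ : NSurf (n+1) 0 ≃* NSurf (n+1) 0, ∀ k,
      (Abelianization.of (φ (XN k)) : Abelianization (NSurf (n+1) 0)) =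
        Abelianization.of (XN (σ k)) := by
  let M : Submonoid (Equiv.Perm (Fin (n+1))) :=
    { carrier := {σ | ∃ φ : NSurf (n+1) 0 ≃* NSurf (n+1) 0, ∀ k,
        (Abelianization.of (φ (XN k)) : Abelianization (NSurf (n+1) 0)) =
          Abelianization.of (XN (σ k))}
      one_mem' := ⟨MulEquiv.refl _, fun k => rfl⟩
      mul_mem' := by
        rintro σ τ ⟨φ, hφ⟩ ⟨ψ, hψ⟩
        refine ⟨ψ.trans φ, fun k => ?_⟩
        -- φ (ψ x_k) has the class of x_{σ τ k}
        let f : Abelianization (NSurf (n+1) 0) →* Abelianization (NSurf (n+1) 0) :=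
          Abelianization.map φ.toMonoidHom
        have h1 : (Abelianization.of (φ (ψ (XN k))) : Abelianization (NSurf (n+1) 0)) =
          f (Abelianization.of (ψ (XN k))) := rfl
        have h2 : f (Abelianization.of (XN (τ k))) = Abelianization.of (φ (XN (τ k))) := rfl
        show (Abelianization.of (φ (ψ (XN k))) : Abelianization (NSurf (n+1) 0)) = _
        rw [h1, hψ, h2, hφ]
        rfl }
  have hM : M = ⊤ := by
    rw [eq_top_iff, ← Equiv.Perm.mclosure_swap_castSucc_succ n, Submonoid.closure_le]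
    rintro _ ⟨i, rfl⟩
    refine ⟨MulEquiv.mk ⟨swFh i, swBh i, fun x => DFunLike.congr_fun (swBF i) x,
      fun x => DFunLike.congr_fun (swFB i) x⟩ (map_mul (swFh i)), fun k => ?_⟩
    show Abelianization.of (swFh i (XN k)) = _
    rw [swFh, liftN_X, swF]
    split_ifs with h1 h2
    · rw [h1, Equiv.swap_apply_left, map_mul, map_mul, map_inv, mul_comm, ← mul_assoc,
        inv_mul_cancel, one_mul]
    · rw [h2, Equiv.swap_apply_right]
    · rw [Equiv.swap_apply_of_ne_of_ne h1 h2]
  have : σ ∈ M := by rw [hM]; exact Submonoid.mem_top _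
  exact this

end auts

end H94Simple
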