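import Pool.Agent.H94.SnT

open scoped commutatorElement IsMulCommutative

namespace H94Simple

section orbit

variable {n : ℕ}

/-- the class of the product of the generators in `S` -/
noncomputable def clS (S : Fin (n+1) → Prop) [DecidablePred S] :
    Abelianization (NSurf (n+1) 0) :=
  ∏ k, if S k then Abelianization.of (XN k) else 1

theorem comm_le_TT1 {G : Type*} [Group G] {x y : G}
    (h : (Abelianization.of x : Abelianization G) = Abelianization.of y) :
    prT G 1 x = prT G 1 y := by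
  have h2 : x⁻¹ * y ∈ commutator G := QuotientGroup.eq.1 h
  rw [prT_eq]
  have h3 : commutator G ≤ TT G 1 := by
    rw [commutator_def, Subgroup.commutator_le]
    intro a _ b _
    exact TT_comm (Subgroup.mem_top _) b
  exact h3 h2

theorem of_conW (a b : ℕ) : (Abelianization.of (conW XN a b : NSurf (n+1) 0)) =
    clS fun k : Fin (n+1) => a ≤ (k : ℕ) ∧ (k : ℕ) < b := by
  rw [conW_map, conW, List.prod_ofFn]
  rfl

/-- elements in the orbit of a curve through `b - a` crosscaps -/
theorem exists_orbit (a b : ℕ) (S : Fin (n+1) → Prop) [DecidablePred S]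
    (hS : Fintype.card {k : Fin (n+1) // S k} =
      Fintype.card {k : Fin (n+1) // a ≤ (k : ℕ) ∧ (k : ℕ) < b}) (m : ℕ) :
    ∃ g : NSurf (n+1) 0, (Abelianization.of g) = clS S ∧
      cN m g = cN m (conW XN a b : NSurf (n+1) 0) := by
  let e : {k : Fin (n+1) // a ≤ (k : ℕ) ∧ (k : ℕ) < b} ≃ {k : Fin (n+1) // S k} :=
    (Fintype.equivOfCardEq hS).symm
  obtain ⟨φ, hφ⟩ := exists_perm_aut e.extendSubtype
  refine ⟨φ (conW XN a b), ?_, cN_aut m φ _⟩
  let f : Abelianization (NSurf (n+1) 0) →* Abelianization (NSurf (n+1) 0) :=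
    Abelianization.map φ.toMonoidHom
  have h1 : (Abelianization.of (φ (conW XN a b : NSurf (n+1) 0))) =
    f (Abelianization.of (conW XN a b)) := rfl
  rw [h1, of_conW, clS, map_prod, clS]
  conv_rhs => rw [← Equiv.prod_comp e.extendSubtype]
  refine Finset.prod_congr rfl fun k _ => ?_
  by_cases hk : a ≤ (k : ℕ) ∧ (k : ℕ) < b
  · rw [if_pos hk, if_pos (Equiv.extendSubtype_mem e k hk)]
    exact hφ k
  · rw [if_neg hk, if_neg (Equiv.extendSubtype_not_mem e k hk), map_one]

/-- the sets -/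
def SI (j i : ℕ) (k : ℕ) : Prop :=
  (i < j ∧ k ≤ j ∧ k ≠ i) ∨ (j ≤ i ∧ ((1 ≤ k ∧ k < j) ∨ k = i))

instance (j i : ℕ) : DecidablePred (SI j i) := fun k => by unfold SI; infer_instance

theorem card_interval (N a b : ℕ) (hab : a ≤ b) (hb : b ≤ N) :
    Fintype.card {k : Fin N // a ≤ (k : ℕ) ∧ (k : ℕ) < b} = b - a := by
  rw [← Fintype.card_fin (b - a)]
  refine Fintype.card_congr ⟨fun k => ⟨(k.1 : ℕ) - a, by have := k.2; omega⟩,
    fun k => ⟨⟨(k : ℕ) + a, by have := k.2; omega⟩, by
      have := k.2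
      show a ≤ (k : ℕ) + a ∧ (k : ℕ) + a < b
      omega⟩, ?_, ?_⟩
  · rintro ⟨k, hk⟩
    apply Subtype.ext
    apply Fin.ext
    show ((k : ℕ) - a) + a = k
    omega
  · rintro ⟨k, hk⟩
    apply Fin.ext
    show (k + a) - a = k
    omega

theorem card_SI (N j i : ℕ) (hj : 1 ≤ j) (hjN : j < N) (hi1 : 1 ≤ i) (hi : i < N) :
    Fintype.card {k : Fin N // SI j i (k : ℕ)} = j := by
  by_cases hij : i < j
  · -- {0..j} without i : bijection with Fin j
    conv_rhs => rw [← Fintype.card_fin j]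
    refine Fintype.card_congr ⟨fun k => ⟨if (k.1 : ℕ) < i then (k.1 : ℕ) else (k.1 : ℕ) - 1, by
        have := k.2; unfold SI at this; split_ifs <;> omega⟩,
      fun k => ⟨⟨if (k : ℕ) < i then (k : ℕ) else (k : ℕ) + 1, by
        have := k.2; split_ifs <;> omega⟩, by
        have := k.2; left; refine ⟨hij, ?_, ?_⟩ <;> (simp only; split_ifs <;> omega)⟩, ?_, ?_⟩
    · rintro ⟨k, hk⟩
      unfold SI at hk
      apply Subtype.ext
      apply Fin.ext
      simp only
      split_ifs <;> omega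
    · rintro ⟨k, hk⟩
      apply Fin.ext
      simp only
      split_ifs <;> omega
  · conv_rhs => rw [← Fintype.card_fin j]
    refine Fintype.card_congr ⟨fun k => ⟨if (k.1 : ℕ) < j then (k.1 : ℕ) - 1 else j - 1, by
        have := k.2; unfold SI at this; split_ifs <;> omega⟩,
      fun k => ⟨⟨if (k : ℕ) + 1 < j then (k : ℕ) + 1 else i, by
        have := k.2; split_ifs <;> omega⟩, by
        have := k.2; right; refine ⟨by omega, ?_⟩
        simp only; split_ifs <;> omega⟩, ?_, ?_⟩
    · rintro ⟨k, hk⟩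
      unfold SI at hk
      apply Subtype.ext
      apply Fin.ext
      simp only
      split_ifs <;> omega
    · rintro ⟨k, hk⟩
      apply Fin.ext
      simp only
      split_ifs <;> omega

theorem clS_mul_lt (j i : ℕ) (hij : i < j) (hi1 : 1 ≤ i) (hjn : j < n+1) :
    clS (fun k : Fin (n+1) => SI j i (k : ℕ)) * Abelianization.of (XN ⟨i, by omega⟩) =
      Abelianization.of (XN (0 : Fin (n+1))) * clS (fun k : Fin (n+1) => SI j j (k : ℕ)) := by
  have e : ∀ q : Fin (n+1), Abelianization.of (XN q : NSurf (n+1) 0) =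
      ∏ k, if k = q then Abelianization.of (XN k : NSurf (n+1) 0) else 1 := by
    intro q
    rw [Finset.prod_ite_eq' Finset.univ q]
    simp
  rw [e ⟨i, by omega⟩, e 0, clS, clS, ← Finset.prod_mul_distrib, ← Finset.prod_mul_distrib]
  refine Finset.prod_congr rfl fun k _ => ?_
  have hk0 : k = 0 ↔ (k : ℕ) = 0 := by rw [Fin.ext_iff]; rfl
  have hki : k = (⟨i, by omega⟩ : Fin (n+1)) ↔ (k : ℕ) = i := by rw [Fin.ext_iff]
  have c1 : SI j i (k : ℕ) ↔ (k : ℕ) ≤ j ∧ (k : ℕ) ≠ i := by unfold SI; omega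
  have c2 : SI j j (k : ℕ) ↔ 1 ≤ (k : ℕ) ∧ (k : ℕ) ≤ j := by unfold SI; omega
  simp only [hk0, hki, c1, c2]
  generalize (Abelianization.of (XN k : NSurf (n+1) 0)) = X
  split_ifs <;> first | rfl | (simp; done) | (exfalso; omega)

theorem clS_ge (j i : ℕ) (hij : j ≤ i) (hj : 1 ≤ j) (hin : i < n+1) :
    clS (fun k : Fin (n+1) => SI j i (k : ℕ)) =
      (∏ k : Fin (n+1), if 1 ≤ (k : ℕ) ∧ (k : ℕ) < j then
        Abelianization.of (XN k : NSurf (n+1) 0) else 1) *
      Abelianization.of (XN ⟨i, hin⟩) := by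
  have e : ∀ q : Fin (n+1), Abelianization.of (XN q : NSurf (n+1) 0) =
      ∏ k, if k = q then Abelianization.of (XN k : NSurf (n+1) 0) else 1 := by
    intro q
    rw [Finset.prod_ite_eq' Finset.univ q]
    simp
  rw [e ⟨i, hin⟩, clS, ← Finset.prod_mul_distrib]
  refine Finset.prod_congr rfl fun k _ => ?_
  have hki : k = (⟨i, hin⟩ : Fin (n+1)) ↔ (k : ℕ) = i := by rw [Fin.ext_iff]
  have c1 : SI j i (k : ℕ) ↔ (1 ≤ (k : ℕ) ∧ (k : ℕ) < j) ∨ (k : ℕ) = i := by unfold SI; omega
  simp only [hki, c1]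
  generalize (Abelianization.of (XN k : NSurf (n+1) 0)) = X
  split_ifs <;> first | rfl | (simp; done) | (exfalso; omega)

/-- **the layer bound in terms of one type** -/
theorem layer_type (a b : ℕ) (hab : a < b) (hb : b ≤ n + 1) (hj : b - a < n + 1) (m : ℕ) :
    (TT (NSurf (n+1) 0) (m+3)).relIndex (TT (NSurf (n+1) 0) (m+2)) ≤
      (TT (NSurf (n+1) 0) (m+2)).relIndex (TT (NSurf (n+1) 0) (m+1)) *
      (cN m (conW XN a b : NSurf (n+1) 0)) ^ n *
      (TT (NSurf (n+1) 0) 2).relIndex (TT (NSurf (n+1) 0) 1) := by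
  set j := b - a with hjdef
  have hch : ∀ i : Fin n, ∃ g : NSurf (n+1) 0,
      (Abelianization.of g) = clS (fun k : Fin (n+1) => SI j ((i : ℕ) + 1) (k : ℕ)) ∧
      cN m g = cN m (conW XN a b : NSurf (n+1) 0) := by
    intro i
    refine exists_orbit a b _ ?_ m
    rw [card_SI (n+1) j ((i : ℕ) + 1) (by omega) hj (by omega) (by have := i.2; omega),
      card_interval (n+1) a b hab.le hb]
  choose g hg1 hg2 using hch
  let s : Fin (n+1) → NSurf (n+1) 0 := Fin.cons (XN 0) g
  have hgen : Subgroup.closure (Set.range s) ⊔ TT (NSurf (n+1) 0) 1 = ⊤ := by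
    set T := Subgroup.closure (Set.range s) ⊔ TT (NSurf (n+1) 0) 1 with hT
    have hcong : ∀ x y : NSurf (n+1) 0, (Abelianization.of x :
        Abelianization (NSurf (n+1) 0)) = Abelianization.of y → x ∈ T → y ∈ T := by
      intro x y hxy hx
      have h1 := (prT_eq _ _ _).1 (comm_le_TT1 hxy)
      have : y = x * (x⁻¹ * y) := by group
      rw [this]
      exact mul_mem hx (Subgroup.mem_sup_right h1)
    let T' : Subgroup (Abelianization (NSurf (n+1) 0)) := T.map Abelianization.of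
    have hT' : ∀ y, (Abelianization.of y : Abelianization (NSurf (n+1) 0)) ∈ T' → y ∈ T := by
      rintro y ⟨x, hx, hxy⟩
      exact hcong x y hxy hx
    have h0 : (Abelianization.of (XN 0) : Abelianization (NSurf (n+1) 0)) ∈ T' :=
      ⟨_, Subgroup.mem_sup_left (Subgroup.subset_closure ⟨0, rfl⟩), rfl⟩
    have hs : ∀ i, 1 ≤ i → i < n + 1 →
        clS (fun k : Fin (n+1) => SI j i (k : ℕ)) ∈ T' := by
      intro i hi1 hi
      have hin' : i - 1 < n := by omega
      have hgs : g ⟨i - 1, hin'⟩ ∈ Set.range s := ⟨(⟨i - 1, hin'⟩ : Fin n).succ, rfl⟩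
      refine ⟨g ⟨i - 1, by omega⟩, Subgroup.mem_sup_left (Subgroup.subset_closure hgs), ?_⟩
      have e := hg1 ⟨i - 1, by omega⟩
      have e2 : ((⟨i - 1, by omega⟩ : Fin n) : ℕ) + 1 = i := by simp only; omega
      simp only [e2] at e
      exact e
    have hlt : ∀ i (hi1 : 1 ≤ i) (hi : i < j), (Abelianization.of (XN ⟨i, by omega⟩) :
        Abelianization (NSurf (n+1) 0)) ∈ T' := by
      intro i hi1 hi
      have h1 := clS_mul_lt (n := n) j i hi hi1 hj
      have h2 : Abelianization.of (XN (0 : Fin (n+1))) *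
          clS (fun k : Fin (n+1) => SI j j (k : ℕ)) ∈ T' :=
        mul_mem h0 (hs j (by omega) (by omega))
      rw [← h1] at h2
      exact (Subgroup.mul_mem_cancel_left T' (hs i hi1 (by omega))).1 h2
    have hprod : (∏ k : Fin (n+1), if 1 ≤ (k : ℕ) ∧ (k : ℕ) < j then
        Abelianization.of (XN k : NSurf (n+1) 0) else 1) ∈ T' := by
      refine Subgroup.prod_mem _ fun k _ => ?_
      split_ifs with h
      · exact hlt k h.1 h.2
      · exact one_mem _
    have hge : ∀ i (hi1 : j ≤ i) (hi : i < n+1), (Abelianization.of (XN ⟨i, hi⟩) :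
        Abelianization (NSurf (n+1) 0)) ∈ T' := by
      intro i hi1 hi
      have h1 := clS_ge (n := n) j i hi1 (by omega) hi
      have h2 := hs i (by omega) hi
      rw [h1] at h2
      exact (Subgroup.mul_mem_cancel_left T' hprod).1 h2
    refine closure_gensN _ (fun k => ?_) fun j => j.elim0
    apply hT'
    rcases Nat.eq_zero_or_pos (k : ℕ) with hk | hk
    · have : k = 0 := Fin.ext hk
      rw [this]; exact h0
    · rcases Nat.lt_or_ge (k : ℕ) j with hkj | hkj
      · exact hlt k hk hkj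
      · exact hge k hkj k.2
  have h1 := layerN m s hgen
  refine h1.trans (Nat.mul_le_mul_right _ ?_)
  rw [Fin.prod_univ_succ]
  have e0 : s 0 = XN 0 := rfl
  have e1 : ∀ i : Fin n, s i.succ = g i := fun i => rfl
  rw [e0]
  refine Nat.mul_le_mul (cN_le m _) ?_
  rw [Finset.prod_congr rfl fun i _ => by rw [e1, hg2], Finset.prod_const, Finset.card_univ,
    Fintype.card_fin]

theorem layer_gen (m : ℕ) :
    (TT (NSurf (n+1) 0) (m+3)).relIndex (TT (NSurf (n+1) 0) (m+2)) ≤
      ((TT (NSurf (n+1) 0) (m+2)).relIndex (TT (NSurf (n+1) 0) (m+1))) ^ (n+1) *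
      (TT (NSurf (n+1) 0) 2).relIndex (TT (NSurf (n+1) 0) 1) := by
  have hgen : Subgroup.closure (Set.range (XN : Fin (n+1) → NSurf (n+1) 0)) ⊔
      TT (NSurf (n+1) 0) 1 = ⊤ := by
    rw [closure_gensN (Subgroup.closure (Set.range (XN : Fin (n+1) → NSurf (n+1) 0)))
      (fun i => Subgroup.subset_closure (Set.mem_range_self i)) fun j => j.elim0, top_sup_eq]
  refine (layerN m _ hgen).trans (Nat.mul_le_mul_right _ ?_)
  refine (Finset.prod_le_prod' fun i _ => cN_le m _).trans (le_of_eq ?_)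
  rw [Finset.prod_const, Finset.card_univ, Fintype.card_fin]

end orbit

end H94Simple
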