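import Pool.Agent.H94.SnU
import Pool.Agent.H94.SnF

open scoped commutatorElement IsMulCommutative

namespace H94Simple

section transfer

variable {G : Type*} [Group G]

theorem mem_TT_quot {M j : ℕ} (hj : j ≤ M) (x : G) :
    prT G M x ∈ TT (G ⧸ TT G M) j ↔ x ∈ TT G j := by
  constructor
  · intro hx
    obtain ⟨z, hz, hzx⟩ := TT_surj (prT G M) (prT_surj M) j hx
    have h1 := TT_anti hj ((prT_eq _ _ _).1 hzx)
    have : x = z * (z⁻¹ * x) := by group
    rw [this]; exact mul_mem hz h1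
  · exact TT_map (prT G M) j x

theorem index_TT_quot {M j : ℕ} (hj : j ≤ M) :
    (TT (G ⧸ TT G M) j).index = (TT G j).index := by
  rw [← Subgroup.index_comap_of_surjective _ (prT_surj M)]
  congr 1
  ext x
  exact mem_TT_quot hj x

end transfer

section counts

variable {h : ℕ}

/-- images of the generator tuples under the automorphisms -/
def DA (h m : ℕ) : Set (Fin h → NSurf h 0 ⧸ TT (NSurf h 0) m) :=
  {v | ∃ φ : NSurf h 0 ≃* NSurf h 0, v = fun i => prT _ m (φ (XN i))}

theorem DA_bound (m : ℕ) :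
    Nat.card (DA h (m+1)) * (TT (NSurf h 0) (m+2)).index ≤
      (TT (NSurf h 0) (m+1)).index ^ h * (TT (NSurf h 0) 2).index *
        (TT (NSurf h 0) 2).index ^ m := by
  set G := NSurf h 0 with hG
  set Q := G ⧸ TT G (m+2) with hQ
  set π := prT G (m+2) with hπ
  let el : Fin 0 → Q := fun j => j.elim0
  have hb := DDN_bound (h := h) (1 : Q) el m
  rw [index_TT_quot le_rfl, index_TT_quot (Nat.le_succ (m+1)),
    index_TT_quot (show 2 ≤ m+2 by omega), Fintype.card_sum, Fintype.card_fin, Fintype.card_fin,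
    add_zero] at hb
  have hrel : (TT Q 2).relIndex (TT Q 1) ≤ (TT G 2).index := by
    have h1 := Subgroup.relIndex_mul_index (TT_succ_le (G := Q) 1)
    rw [index_TT_quot (show 1 + 1 ≤ m+2 by omega)] at h1
    have h2 : 0 < (TT Q 1).index := Nat.pos_of_ne_zero Subgroup.index_ne_zero_of_finite
    calc (TT Q 2).relIndex (TT Q 1) = (TT Q 2).relIndex (TT Q 1) * 1 := (mul_one _).symm
      _ ≤ (TT Q (1+1)).relIndex (TT Q 1) * (TT Q 1).index := Nat.mul_le_mul_left _ h2
      _ = (TT G (1+1)).index := h1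
  have hle : Nat.card (DA h (m+1)) ≤ Nat.card (DDN (h := h) (1 : Q) el (m+1)) := by
    have hch : ∀ v : DA h (m+1), ∃ φ : G ≃* G, v.1 = fun i => prT _ (m+1) (φ (XN i)) :=
      fun v => v.2
    choose φ hφ using hch
    have hmem : ∀ v, (fun j : IdN h 0 => prT Q (m+1) (match j with
        | Sum.inl i => π (φ v (XN i))
        | Sum.inr j => j.elim0)) ∈ DDN (h := h) (1 : Q) el (m+1) := by
      intro v
      refine ⟨fun j => match j with
        | Sum.inl i => π (φ v (XN i))
        | Sum.inr j => j.elim0, ⟨?_, ?_⟩, rfl⟩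
      · set s : IdN h 0 → Q := ddN el (fun j => match j with
          | Sum.inl i => π (φ v (XN i))
          | Sum.inr j => j.elim0) with hs
        set T := Subgroup.closure (Set.range s) ⊔ TT Q 1 with hT
        have htop : T.comap (π.comp (φ v).toMonoidHom) = ⊤ := by
          refine closure_gensN _ (fun i => ?_) fun j => j.elim0
          exact Subgroup.mem_sup_left (Subgroup.subset_closure ⟨Sum.inl i, rfl⟩)
        rw [eq_top_iff]
        intro z _
        obtain ⟨y, rfl⟩ := prT_surj _ z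
        have hy : (φ v).symm y ∈ T.comap (π.comp (φ v).toMonoidHom) := by
          rw [htop]; exact Subgroup.mem_top _
        have e : (π.comp (φ v).toMonoidHom) ((φ v).symm y) = π y := by
          show π (φ v ((φ v).symm y)) = π y
          rw [(φ v).apply_symm_apply]
        rw [Subgroup.mem_comap, e] at hy
        exact hy
      · have hr := congrArg (fun x => π (φ v x)) (relationN (h := h) (b := 0))
        simp only [List.ofFn_zero, List.prod_nil, mul_one, map_one, map_list_prod,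
          List.map_ofFn] at hr
        have e : RelN (1 : Q) el (fun j : IdN h 0 => match j with
            | Sum.inl i => π (φ v (XN i))
            | Sum.inr j => j.elim0) = 1 := by
          rw [RelN, List.ofFn_zero, List.prod_nil, mul_one, mul_one, ← hr]
          congr 2
          funext i
          simp only [Function.comp, map_pow]
        rw [e]
        exact one_mem _
    refine Nat.card_le_card_of_injective (fun v => (⟨_, hmem v⟩ :
      DDN (h := h) (1 : Q) el (m+1))) ?_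
    intro v v' hvv
    have h1 := congrArg Subtype.val hvv
    apply Subtype.ext
    rw [hφ, hφ]
    funext i
    have h2 : prT Q (m+1) (π (φ v (XN i))) = prT Q (m+1) (π (φ v' (XN i))) :=
      congrFun h1 (Sum.inl i)
    rw [prT_eq, ← map_inv, ← map_mul] at h2
    exact (prT_eq _ _ _).2 ((mem_TT_quot (Nat.le_succ (m+1)) _).1 h2)
  calc Nat.card (DA h (m+1)) * (TT G (m+2)).index
      ≤ Nat.card (DDN (h := h) (1 : Q) el (m+1)) * (TT G (m+2)).index :=
        Nat.mul_le_mul_right _ hle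
    _ ≤ (TT G (m+1)).index ^ h * (TT G 2).index * (TT Q 2).relIndex (TT Q 1) ^ m := hb
    _ ≤ _ := Nat.mul_le_mul_left _ (Nat.pow_le_pow_left hrel m)

/-- images of the simple elements -/
def SAll (h m : ℕ) : Set (NSurf h 0 ⧸ TT (NSurf h 0) m) :=
  {q | ∃ s ∈ simpleN h 0, q = prT _ m s}

/-- separating standard curves -/
def sepStd (h : ℕ) : Set (NSurf h 0) :=
  {t | (∃ k l, t = sepW XN CN k l) ∨ (∃ m l, t = sepOW XN CN m l)}

/-- separating simple elements -/
def simpSep (h : ℕ) : Set (NSurf h 0) :=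
  {s | ∃ φ : NSurf h 0 ≃* NSurf h 0, ∃ τ : (Fin (h+1) × Fin 1) ⊕ (Fin (h+1) × Fin 1),
    s = φ (stdW XN CN (Sum.inr τ)) ∨ s = (φ (stdW XN CN (Sum.inr τ)))⁻¹}

def SSep (h m : ℕ) : Set (NSurf h 0 ⧸ TT (NSurf h 0) m) :=
  {q | ∃ s ∈ simpSep h, q = prT _ m s}

/-- the number of types -/
noncomputable def kapM (h : ℕ) : ℕ := Nat.card (TyN h 0 × Bool)

theorem kapM_pos : 0 < kapM h := by
  unfold kapM
  have : Nonempty (TyN h 0 × Bool) := ⟨Sum.inl (0, 0), true⟩
  exact Nat.card_pos

def sgn {H : Type*} [Group H] (s : Bool) (x : H) : H := if s then x else x⁻¹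

theorem stdW_prT (m : ℕ) (φ : NSurf h 0 ≃* NSurf h 0) (τ : TyN h 0) :
    prT _ m (φ (stdW XN CN τ)) = stdW (fun i => prT _ m (φ (XN i)))
      (fun j => prT _ m (φ (CN j))) τ := by
  have h1 := stdW_map ((prT (NSurf h 0) m).comp φ.toMonoidHom) XN CN τ
  exact h1

theorem SAll_card (m : ℕ) : Nat.card (SAll h m) ≤ kapM h * Nat.card (DA h m) := by
  unfold kapM
  rw [← Nat.card_prod]
  have hch : ∀ q : SAll h m, ∃ x : (TyN h 0 × Bool) × DA h m,
      q.1 = sgn x.1.2 (stdW x.2.1 (fun j => j.elim0) x.1.1) := by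
    rintro ⟨q, s, ⟨φ, _, t, ht, hs⟩, rfl⟩
    obtain ⟨τ, rfl⟩ := std_exists ht
    have e0 : (fun j : Fin 0 => prT (NSurf h 0) m (φ (CN j))) = fun j => j.elim0 :=
      funext fun j => j.elim0
    have e := stdW_prT m φ τ
    rw [e0] at e
    rcases hs with rfl | rfl
    · exact ⟨((τ, true), ⟨_, φ, rfl⟩), e⟩
    · refine ⟨((τ, false), ⟨_, φ, rfl⟩), ?_⟩
      show prT _ m _ = _
      rw [map_inv, e]; rfl
  choose x hx using hch
  refine Nat.card_le_card_of_injective x ?_
  intro q q' hq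
  apply Subtype.ext
  rw [hx, hx, hq]

theorem sq_congr {G : Type*} [Group G] {m : ℕ} {x y : G} (h : prT G m x = prT G m y) :
    prT G (m+1) (x ^ 2) = prT G (m+1) (y ^ 2) := by
  have h1 := (prT_eq _ _ _).1 h
  have e : y ^ 2 = x ^ 2 * (⁅x⁻¹ * y, x⁻¹⁆⁻¹ * (x⁻¹ * y) ^ 2) := by
    simp only [commutatorElement_def, pow_two]; group
  rw [e, map_mul]
  have h2 : ⁅x⁻¹ * y, x⁻¹⁆⁻¹ * (x⁻¹ * y) ^ 2 ∈ TT G (m+1) :=
    mul_mem (inv_mem (TT_comm h1 _)) (TT_sq h1)
  rw [(prT_eq_one _ _).2 h2, mul_one]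

theorem conW_congr {G : Type*} [Group G] {m k : ℕ} {X X' : Fin k → G}
    (h : ∀ i, prT G m (X i) = prT G m (X' i)) (a b : ℕ) :
    prT G m (conW X a b) = prT G m (conW X' a b) := by
  rw [conW_map, conW_map]
  congr 1
  funext i
  exact h i

theorem sepW_congr {G : Type*} [Group G] {m k : ℕ} {X X' : Fin k → G}
    (h : ∀ i, prT G m (X i) = prT G m (X' i)) (c c' : Fin 0 → G) (a b : ℕ) :
    prT G (m+1) (sepW X c a b) = prT G (m+1) (sepW X' c' a b) := by
  rw [sepW, sepW, List.ofFn_zero, List.ofFn_zero, List.prod_nil, mul_one, mul_one,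
    map_list_prod, map_list_prod, List.map_ofFn, List.map_ofFn]
  congr 2
  funext i
  simp only [Function.comp]
  split_ifs
  · exact sq_congr (h i)
  · rfl

theorem sep_congr {G : Type*} [Group G] {m k : ℕ} {X X' : Fin k → G}
    (h : ∀ i, prT G m (X i) = prT G m (X' i)) (c c' : Fin 0 → G)
    (τ : (Fin (k+1) × Fin 1) ⊕ (Fin (k+1) × Fin 1)) :
    prT G (m+1) (stdW X c (Sum.inr τ)) = prT G (m+1) (stdW X' c' (Sum.inr τ)) := by
  rcases τ with x | x
  · exact sepW_congr h c c' _ _
  · show prT G (m+1) (sepOW X c _ _) = prT G (m+1) (sepOW X' c' _ _)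
    rw [sepOW, sepOW, map_mul, map_mul, sepW_congr h c c']
    congr 1
    apply sq_congr
    rw [map_inv, map_inv, conW_congr h]

theorem SSep_card (m : ℕ) : Nat.card (SSep h (m+1)) ≤ kapM h * Nat.card (DA h m) := by
  unfold kapM
  rw [← Nat.card_prod]
  have hch : ∀ v : DA h m, ∃ φ : NSurf h 0 ≃* NSurf h 0, v.1 = fun i => prT _ m (φ (XN i)) :=
    fun v => v.2
  choose ψ hψ using hch
  have hch : ∀ q : SSep h (m+1), ∃ x : (TyN h 0 × Bool) × DA h m,
      q.1 = sgn x.1.2 (prT _ (m+1) (ψ x.2 (stdW XN CN x.1.1))) := by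
    rintro ⟨q, s, ⟨φ, τ, hs⟩, rfl⟩
    let v : DA h m := ⟨_, φ, rfl⟩
    have hv : ∀ i, prT _ m (φ (XN i)) = prT _ m (ψ v (XN i)) := fun i => congrFun (hψ v) i
    have e : prT _ (m+1) (φ (stdW XN CN (Sum.inr τ))) =
        prT _ (m+1) (ψ v (stdW XN CN (Sum.inr τ))) := by
      have h1 := stdW_map φ.toMonoidHom XN CN (Sum.inr τ)
      have h2 := stdW_map (ψ v).toMonoidHom XN CN (Sum.inr τ)
      have h3 := sep_congr hv (fun j => φ (CN j)) (fun j => ψ v (CN j)) τ
      exact ((congrArg (prT _ (m+1)) h1).trans h3).trans (congrArg (prT _ (m+1)) h2).symm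
    rcases hs with rfl | rfl
    · exact ⟨((Sum.inr τ, true), v), e⟩
    · refine ⟨((Sum.inr τ, false), v), ?_⟩
      show prT _ (m+1) _ = _
      rw [map_inv, e]; rfl
  choose x hx using hch
  refine Nat.card_le_card_of_injective x ?_
  intro q q' hq
  apply Subtype.ext
  rw [hx, hx, hq]

end counts

end H94Simple
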