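import Pool.Agent.H94.SnV

open scoped commutatorElement IsMulCommutative

namespace H94Simple

section covering

variable {n : ℕ}

abbrev GN (n : ℕ) := NSurf (n+1) 0

/-- a homomorphism to the integers -/
def chi (n : ℕ) (hn : 1 ≤ n) : GN n →* Multiplicative ℤ :=
  liftN (fun i => Multiplicative.ofAdd (if (i : ℕ) = 0 then 1 else if (i : ℕ) = 1 then -1 else 0 : ℤ))
    (fun _ => 1) (by
      obtain ⟨k, rfl⟩ : ∃ k, n = k + 1 := ⟨n - 1, by omega⟩
      rw [List.ofFn_zero, List.prod_nil, mul_one, List.prod_ofFn, Fin.prod_univ_succ,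
        Fin.prod_univ_succ]
      have : ∀ i : Fin k, (Multiplicative.ofAdd (if ((i.succ.succ : Fin (k+1+1)) : ℕ) = 0 then 1
          else if ((i.succ.succ : Fin (k+1+1)) : ℕ) = 1 then -1 else 0 : ℤ)) ^ 2 = 1 := by
        intro i
        rw [if_neg (by simp), if_neg (by simp)]
        rfl
      rw [Finset.prod_congr rfl fun i _ => this i, Finset.prod_const_one, mul_one]
      rfl)

theorem chi_zero (hn : 1 ≤ n) : Multiplicative.toAdd (chi n hn (XN 0)) = 1 := by
  rw [chi, liftN_X]; rfl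

theorem chi_TT (hn : 1 ≤ n) (i : ℕ) : ∀ t ∈ TT (GN n) i,
    (2:ℤ) ^ i ∣ Multiplicative.toAdd (chi n hn t) := by
  induction i with
  | zero => intro t _; simp
  | succ i ih =>
    have hle : TT (GN n) (i+1) ≤ (Subgroup.zpowers (Multiplicative.ofAdd ((2:ℤ) ^ (i+1)))).comap
        (chi n hn) := by
      conv_lhs => unfold TT
      refine sup_le ?_ ?_
      · rw [Subgroup.commutator_le]
        intro x _ y _
        rw [Subgroup.mem_comap, map_commutatorElement,
          commutatorElement_eq_one_iff_mul_comm.2 (mul_comm _ _)]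
        exact one_mem _
      · rw [Subgroup.closure_le]
        rintro _ ⟨y, hy, rfl⟩
        obtain ⟨k, hk⟩ := ih y hy
        refine ⟨k, ?_⟩
        apply Multiplicative.toAdd.injective
        show Multiplicative.toAdd (Multiplicative.ofAdd ((2:ℤ) ^ (i+1)) ^ k) = _
        rw [toAdd_zpow, toAdd_ofAdd, map_pow, toAdd_pow, hk, smul_eq_mul, nsmul_eq_mul]
        push_cast
        ring
    intro t ht
    obtain ⟨k, hk⟩ := hle ht
    refine ⟨k, ?_⟩
    have := congrArg Multiplicative.toAdd hk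
    simp only [toAdd_zpow, toAdd_ofAdd, smul_eq_mul] at this
    rw [← this, mul_comm]

theorem chi_special (hn : 1 ≤ n) (φ : GN n ≃* GN n) :
    chi n hn (φ (conW XN 0 (n+1))) = 1 := by
  have h1 : (conW XN 0 (n+1) : GN n) = (List.ofFn fun i : Fin (n+1) => (XN i : GN n)).prod := by
    rw [conW]
    congr 2
    funext i
    rw [if_pos ⟨Nat.zero_le _, i.2⟩]
  set f : GN n →* Multiplicative ℤ := (chi n hn).comp φ.toMonoidHom with hf
  have h2 : f (conW XN 0 (n+1)) ^ 2 = 1 := by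
    have hr := congrArg f (relationN (h := n+1) (b := 0))
    rw [List.ofFn_zero, List.prod_nil, mul_one, map_one, map_list_prod, List.map_ofFn,
      List.prod_ofFn] at hr
    rw [h1, map_list_prod, List.map_ofFn, List.prod_ofFn, ← Finset.prod_pow, ← hr]
    refine Finset.prod_congr rfl fun i _ => ?_
    simp only [Function.comp, map_pow]
  have h3 : Multiplicative.toAdd (f (conW XN 0 (n+1))) = 0 := by
    have := congrArg Multiplicative.toAdd h2
    rw [toAdd_pow, toAdd_one, nsmul_eq_mul] at this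
    push_cast at this
    linarith
  apply Multiplicative.toAdd.injective
  exact h3

def NSp (g : GN n) : Prop := ∃ (φ : GN n ≃* GN n) (a b : ℕ), a < b ∧ b ≤ n + 1 ∧ b - a < n + 1 ∧
  (g = φ (conW XN a b) ∨ g = (φ (conW XN a b))⁻¹)

theorem classify (hn : 1 ≤ n) {g : GN n} (hg : g ∈ simpleN (n+1) 0) :
    g ∈ simpSep (n+1) ∨ NSp g ∨ chi n hn g = 1 := by
  obtain ⟨φ, _, t, ht, hs⟩ := hg
  rcases ht with ⟨i, j, hij, hj, rfl⟩ | ⟨k, l, hk, hl, rfl⟩ | ⟨m, l, hm, hl, rfl⟩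
  · right
    by_cases h : j - i < n + 1
    · left; exact ⟨φ, i, j, hij, hj, h, hs⟩
    · right
      have h0 : i = 0 := by omega
      have h1 : j = n + 1 := by omega
      subst h0 h1
      rcases hs with rfl | rfl
      · exact chi_special hn φ
      · rw [map_inv, chi_special hn φ, inv_one]
  · left
    exact ⟨φ, Sum.inl (⟨k, by omega⟩, ⟨l, by omega⟩), hs⟩
  · left
    exact ⟨φ, Sum.inr (⟨m, by omega⟩, ⟨l, by omega⟩), hs⟩

theorem cN_NSp {m c : ℕ} (hc : ∀ a b, a < b → b ≤ n + 1 → b - a < n + 1 →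
    c ≤ cN m (conW XN a b : GN n)) {g : GN n} (hg : NSp g) : c ≤ cN m g := by
  obtain ⟨φ, a, b, h1, h2, h3, hs⟩ := hg
  have h4 := hc a b h1 h2 h3
  rcases hs with rfl | rfl
  · rw [cN_aut]; exact h4
  · have : cN m (φ (conW XN a b : GN n))⁻¹ = cN m (φ (conW XN a b : GN n)) := by
      apply cN_congr
      rw [prT_eq, inv_inv, ← pow_two]
      exact TT_sq (Subgroup.mem_top _)
    rw [this, cN_aut]; exact h4

/-- the representation of a target element -/
theorem represent (hn : 1 ≤ n) {M : ℕ} (hM : 2 ≤ M)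
    (hd : dia (simpleN (n+1) 0) M ≤ ((n + 1 : ℕ) : ℕ∞)) {t : GN n} (ht : t ∈ TT (GN n) 2) :
    ∃ f : Fin (n+1) → GN n, (∀ i, f i ∈ simpleN (n+1) 0) ∧
      prT _ M (List.ofFn f).prod = prT _ M (XN 0 ^ 2 * t) ∧
      ∃ i, f i ∈ simpSep (n+1) ∨ NSp (f i) := by
  obtain ⟨f, hf1, hf2⟩ := exists_funS (fun _ => simpleN_inv) simpleN_one hd (XN 0 ^ 2 * t)
  have h1 := lcs_le_TT M ((pr_eq _ _ _).1 hf2)
  refine ⟨f, hf1, (prT_eq _ _ _).2 h1, ?_⟩
  by_contra hcon
  push Not at hcon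
  have h2 : ∀ i, chi n hn (f i) = 1 := by
    intro i
    rcases classify hn (hf1 i) with h | h | h
    · exact absurd h (hcon i).1
    · exact absurd h (hcon i).2
    · exact h
  have h3 : chi n hn (List.ofFn f).prod = 1 := by
    rw [map_list_prod, List.map_ofFn, List.prod_ofFn]
    exact Finset.prod_eq_one fun i _ => h2 i
  have h4 := chi_TT hn 2 _ (TT_anti hM h1)
  rw [map_mul, map_inv, h3, inv_one, one_mul, map_mul, map_pow, toAdd_mul, toAdd_pow,
    chi_zero] at h4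
  have h5 := chi_TT hn 2 t ht
  have h6 : (2:ℤ) ^ 2 ∣ (2 • (1:ℤ)) := (dvd_add_left h5).1 h4
  norm_num at h6

def Yt (n M : ℕ) : Set (GN n ⧸ TT (GN n) M) :=
  {q | ∃ t ∈ TT (GN n) 2, q = prT _ M (XN 0 ^ 2 * t)}

theorem Yt_card {M : ℕ} :
    (TT (GN n) M).index ≤ (TT (GN n) 2).index * Nat.card (Yt n M) := by
  have e1 : (TT (GN n) M).index = Nat.card (GN n ⧸ TT (GN n) M) := rfl
  have e2 : (TT (GN n) 2).index = Nat.card (GN n ⧸ TT (GN n) 2) := rfl
  rw [e1, e2, ← Nat.card_prod]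
  have hmem : ∀ q : GN n ⧸ TT (GN n) M,
      (Quotient.out (prT (GN n) 2 (Quotient.out q)))⁻¹ * Quotient.out q ∈ TT (GN n) 2 := by
    intro q
    exact (prT_eq _ _ _).1 (prT_out 2 _)
  refine Nat.card_le_card_of_injective (fun q => (prT (GN n) 2 (Quotient.out q),
    (⟨prT _ M (XN 0 ^ 2 * ((Quotient.out (prT (GN n) 2 (Quotient.out q)))⁻¹ * Quotient.out q)),
      _, hmem q, rfl⟩ : Yt n M))) ?_
  intro q q' hq
  have h1 : prT (GN n) 2 (Quotient.out q) = prT (GN n) 2 (Quotient.out q') := congrArg Prod.fst hq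
  have h2 := congrArg Subtype.val (congrArg Prod.snd hq)
  simp only at h2
  rw [h1, map_mul, map_mul _ (XN 0 ^ 2), map_mul, map_mul _ _ (Quotient.out q')] at h2
  have h3 := mul_left_cancel (mul_left_cancel h2)
  rwa [prT_out, prT_out] at h3

def YA (n M : ℕ) : Set (GN n ⧸ TT (GN n) M) :=
  {q | ∃ f : Fin (n+1) → GN n, (∀ i, f i ∈ simpleN (n+1) 0) ∧ prT _ M (List.ofFn f).prod = q ∧
    ∃ i, f i ∈ simpSep (n+1)}

def YB (n M : ℕ) : Set (GN n ⧸ TT (GN n) M) :=
  {q | ∃ f : Fin (n+1) → GN n, (∀ i, f i ∈ simpleN (n+1) 0) ∧ prT _ M (List.ofFn f).prod = q ∧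
    (List.ofFn f).prod ∈ TT (GN n) 1 ∧ ∃ i, NSp (f i)}

theorem Yt_sub (hn : 1 ≤ n) {M : ℕ} (hM : 2 ≤ M)
    (hd : dia (simpleN (n+1) 0) M ≤ ((n + 1 : ℕ) : ℕ∞)) : Yt n M ⊆ YA n M ∪ YB n M := by
  rintro q ⟨t, ht, rfl⟩
  obtain ⟨f, hf1, hf2, i, hi⟩ := represent hn hM hd ht
  rcases hi with hi | hi
  · left; exact ⟨f, hf1, hf2, i, hi⟩
  · right
    refine ⟨f, hf1, hf2, ?_, i, hi⟩
    have h1 : XN 0 ^ 2 * t ∈ TT (GN n) 1 :=
      mul_mem (TT_sq (Subgroup.mem_top _)) (TT_anti (by omega) ht)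
    have h2 := TT_anti (show 1 ≤ M by omega) ((prT_eq _ _ _).1 hf2)
    have h3 : (List.ofFn f).prod = (XN 0 ^ 2 * t) * ((List.ofFn f).prod⁻¹ * (XN 0 ^ 2 * t))⁻¹ := by
      group
    rw [h3]
    exact mul_mem h1 (inv_mem h2)

theorem YA_card {M : ℕ} : Nat.card (YA n M) ≤
    (n + 1) * (Nat.card (SSep (n+1) M) * Nat.card (SAll (n+1) M) ^ n) := by
  have hch : ∀ q : YA n M, ∃ (f : Fin (n+1) → GN n) (i : Fin (n+1)),
      (∀ i, f i ∈ simpleN (n+1) 0) ∧ prT _ M (List.ofFn f).prod = q.1 ∧ f i ∈ simpSep (n+1) := by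
    rintro ⟨q, f, h1, h2, i, h3⟩
    exact ⟨f, i, h1, h2, h3⟩
  choose f i h1 h2 h3 using hch
  have e : (n + 1) * (Nat.card (SSep (n+1) M) * Nat.card (SAll (n+1) M) ^ n) =
      Nat.card (Fin (n+1) × (SSep (n+1) M × (Fin n → SAll (n+1) M))) := by
    rw [Nat.card_prod, Nat.card_prod, Nat.card_fun, Nat.card_fin, Nat.card_fin]
  rw [e]
  refine Nat.card_le_card_of_injective (fun q => (i q, ((⟨prT _ M (f q (i q)), _, h3 q, rfl⟩ :
    SSep (n+1) M), fun j => (⟨prT _ M (f q ((i q).succAbove j)), _, h1 q _, rfl⟩ :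
    SAll (n+1) M)))) ?_
  intro q q' hqq
  have a1 : i q = i q' := congrArg Prod.fst hqq
  have a2 : prT _ M (f q (i q)) = prT _ M (f q' (i q')) :=
    congrArg Subtype.val (congrArg (fun x => x.2.1) hqq)
  have a3 : ∀ j, prT _ M (f q ((i q).succAbove j)) = prT _ M (f q' ((i q').succAbove j)) :=
    fun j => congrArg Subtype.val (congrFun (congrArg (fun x => x.2.2) hqq) j)
  have a4 : ∀ k, prT _ M (f q k) = prT _ M (f q' k) := by
    intro k
    by_cases hk : k = i q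
    · rw [hk, a2, a1]
    · obtain ⟨j, hj⟩ := Fin.exists_succAbove_eq hk
      rw [← hj, a3 j, ← a1]
  apply Subtype.ext
  rw [← h2, ← h2, map_list_prod, map_list_prod, List.map_ofFn, List.map_ofFn]
  congr 2
  funext k
  exact a4 k

theorem conj_ofFn {G : Type*} [Group G] (u : G) {k : ℕ} (f : Fin k → G) :
    (List.ofFn fun i => u * f i * u⁻¹).prod = u * (List.ofFn f).prod * u⁻¹ := by
  have h := map_list_prod (MulAut.conj u).toMonoidHom (List.ofFn f)
  rw [List.map_ofFn] at h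
  exact h.symm

theorem YB_card {m c : ℕ} (hc : ∀ a b, a < b → b ≤ n + 1 → b - a < n + 1 →
    c ≤ cN m (conW XN a b : GN n)) :
    Nat.card (YB n (m+3)) * c ≤ Nat.card (SAll (n+1) (m+3)) ^ (n+1) := by
  have hch : ∀ q : YB n (m+3), ∃ (f : Fin (n+1) → GN n) (i : Fin (n+1)),
      (∀ i, f i ∈ simpleN (n+1) 0) ∧ prT _ (m+3) (List.ofFn f).prod = q.1 ∧
      (List.ofFn f).prod ∈ TT (GN n) 1 ∧ NSp (f i) := by
    rintro ⟨q, f, h1, h2, h3, i, h4⟩
    exact ⟨f, i, h1, h2, h3, h4⟩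
  choose f i h1 h2 h3 h4 using hch
  have hemb : ∀ q : YB n (m+3), ∃ u : Fin c → TT (GN n) (m+1),
      Function.Injective fun r => cT (m+1) (f q (i q)) (u r) := by
    intro q
    have h5 : c ≤ Nat.card (cT (m+1) (f q (i q))).range := cN_NSp hc (h4 q)
    rw [← Nat.card_fin c] at h5
    haveI : Finite (cT (m+1) (f q (i q))).range := inferInstance
    obtain ⟨e⟩ : Nonempty (Fin c ↪ (cT (m+1) (f q (i q))).range) := by
      haveI : Fintype (cT (m+1) (f q (i q))).range := Fintype.ofFinite _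
      refine Function.Embedding.nonempty_of_card_le ?_
      rwa [Nat.card_eq_fintype_card, Nat.card_eq_fintype_card] at h5
    have hch2 : ∀ r : Fin c, ∃ u, cT (m+1) (f q (i q)) u = (e r).1 := fun r => (e r).2
    choose u hu using hch2
    refine ⟨u, fun r r' hrr => e.injective (Subtype.ext ?_)⟩
    rw [← hu, ← hu]; exact hrr
  choose u hu using hemb
  have e1 : Nat.card (YB n (m+3)) * c = Nat.card (YB n (m+3) × Fin c) := by
    rw [Nat.card_prod, Nat.card_fin]
  have e2 : Nat.card (SAll (n+1) (m+3)) ^ (n+1) = Nat.card (Fin (n+1) → SAll (n+1) (m+3)) := by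
    rw [Nat.card_fun, Nat.card_fin]
  rw [e1, e2]
  refine Nat.card_le_card_of_injective (fun x => fun k =>
    (⟨prT _ (m+3) ((u x.1 x.2 : GN n) * f x.1 k * (u x.1 x.2 : GN n)⁻¹), _,
      simpleN_conj _ (h1 x.1 k) _, rfl⟩ : SAll (n+1) (m+3))) ?_
  rintro ⟨q, r⟩ ⟨q', r'⟩ hqq
  have a1 : ∀ k, prT _ (m+3) ((u q r : GN n) * f q k * (u q r : GN n)⁻¹) =
      prT _ (m+3) ((u q' r' : GN n) * f q' k * (u q' r' : GN n)⁻¹) := fun k =>
    congrArg Subtype.val (congrFun hqq k)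
  have a2 : ∀ (q : YB n (m+3)) (r : Fin c), prT _ (m+3) (List.ofFn fun k =>
      (u q r : GN n) * f q k * (u q r : GN n)⁻¹).prod = q.1 := by
    intro q r
    rw [conj_ofFn, ← h2 q, prT_eq]
    have h5 := TT_comm_one (m+1) (u q r).2 (inv_mem (h3 q))
    have e : ((u q r : GN n) * (List.ofFn (f q)).prod * (u q r : GN n)⁻¹)⁻¹ *
      (List.ofFn (f q)).prod = ⁅(u q r : GN n), ((List.ofFn (f q)).prod)⁻¹⁆ := by
      simp only [commutatorElement_def]; group
    rw [e]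
    exact h5
  have a3 : q = q' := by
    apply Subtype.ext
    rw [← a2 q r, ← a2 q' r', map_list_prod, map_list_prod, List.map_ofFn, List.map_ofFn]
    congr 2
    funext k
    exact a1 k
  subst a3
  have a4 : r = r' := by
    apply hu q
    apply Subtype.ext
    show prT _ (m+3) ⁅(u q r : GN n), f q (i q)⁆ = prT _ (m+3) ⁅(u q r' : GN n), f q (i q)⁆
    have h5 := a1 (i q)
    have e : ∀ v w : GN n, ⁅v, w⁆ = (v * w * v⁻¹) * w⁻¹ := fun v w => by
      simp only [commutatorElement_def]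
    rw [e, e, map_mul, map_mul _ ((u q r' : GN n) * f q (i q) * (u q r' : GN n)⁻¹), h5]
  rw [a4]

theorem cover_main (hn : 1 ≤ n) {m c : ℕ}
    (hd : dia (simpleN (n+1) 0) (m+3) ≤ ((n + 1 : ℕ) : ℕ∞)) :
    (TT (GN n) (m+3)).index ≤ (TT (GN n) 2).index * (Nat.card (YA n (m+3)) +
      Nat.card (YB n (m+3))) := by
  refine Yt_card.trans (Nat.mul_le_mul_left _ ?_)
  have h1 : Nat.card (Yt n (m+3)) ≤ Nat.card (YA n (m+3) ∪ YB n (m+3) : Set _) :=
    Nat.card_mono (Set.toFinite _) (Yt_sub hn (by omega) hd)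
  refine h1.trans ?_
  rw [Nat.card_coe_set_eq, Nat.card_coe_set_eq, Nat.card_coe_set_eq]
  exact Set.ncard_union_le _ _

end covering

end H94Simple
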