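import Pool.Agent.H94.SnW

open scoped commutatorElement IsMulCommutative

namespace H94Simple

section numericsN

theorem num_exists (r : ℝ) (hr : 3 ≤ r) : ∃ μ ν : ℝ, 2 < μ ∧ μ < ν ∧ ν + 1 / ν ≤ r ∧
    0 < (r-1) * μ^2 - ((r-1)*r - 2) * μ - r ∧
    0 < (r-1) * r^2 * μ^2 - ((r-1)*r^3 - r^2) * μ - (2*r-1) := by
  obtain ⟨x, hx, rfl⟩ : ∃ x : ℝ, 0 ≤ x ∧ r = 3 + x := ⟨r - 3, by linarith, by ring⟩
  set r : ℝ := 3 + x with hrdef
  have hr0 : 0 < r := by positivity
  set ν : ℝ := (r^6 - r^4 - r^2 - 3) / r^5 with hν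
  have e2 : ν - 2 = (150 + 534 * x + 620 * x^2 + 348 * x^3 + 104 * x^4 + 16 * x^5 + x^6) / r^5 := by
    rw [hν, eq_div_iff (by positivity), sub_mul, div_mul_cancel₀ _ (by positivity), hrdef]; ring
  have h2 : 2 < ν := by
    have : 0 < ν - 2 := by rw [e2]; positivity
    linarith
  have hν0 : 0 < ν := by linarith
  have hνr : ν * r^5 = r^6 - r^4 - r^2 - 3 := by rw [hν, div_mul_cancel₀ _ (by positivity)]
  have hC : ν + 1 / ν ≤ r := by
    have e : (ν * (r - ν) - 1) * r^10 = 99 + 666 * x + 831 * x^2 + 456 * x^3 + 128 * x^4 +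
        18 * x^5 + x^6 := by
      have : (ν * (r - ν) - 1) * r^10 = (ν * r^5) * (r * r^5 - ν * r^5) - r^10 := by ring
      rw [this, hνr, hrdef]; ring
    have h3 : 0 < (ν * (r - ν) - 1) * r^10 := by rw [e]; positivity
    have h4 : 0 < ν * (r - ν) - 1 := pos_of_mul_pos_left h3 (by positivity)
    have h5 : 1 / ν ≤ r - ν := by
      rw [div_le_iff₀ hν0]; linarith
    linarith
  have hA : 0 < (r-1) * ν^2 - ((r-1)*r - 2) * ν - r := by
    have e : ((r-1) * ν^2 - ((r-1)*r - 2) * ν - r) * r^10 = 13653 + 64665 * x + 123627 * x^2 +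
        132015 * x^3 + 89162 * x^4 + 40276 * x^5 + 12412 * x^6 + 2589 * x^7 + 351 * x^8 +
        28 * x^9 + x^10 := by
      have : ((r-1) * ν^2 - ((r-1)*r - 2) * ν - r) * r^10 = (r-1) * (ν * r^5)^2 -
        ((r-1)*r - 2) * (ν * r^5) * r^5 - r^11 := by ring
      rw [this, hνr, hrdef]; ring
    have h3 : 0 < ((r-1) * ν^2 - ((r-1)*r - 2) * ν - r) * r^10 := by rw [e]; positivity
    exact pos_of_mul_pos_left h3 (by positivity)
  have hB : 0 < (r-1) * r^2 * ν^2 - ((r-1)*r^3 - r^2) * ν - (2*r-1) := by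
    have e : ((r-1) * r^2 * ν^2 - ((r-1)*r^3 - r^2) * ν - (2*r-1)) * r^10 = 31023 +
        285552 * x + 821007 * x^2 + 1244178 * x^3 + 1183008 * x^4 + 764682 * x^5 +
        349601 * x^6 + 114886 * x^7 + 27082 * x^8 + 4483 * x^9 + 496 * x^10 + 33 * x^11 +
        x^12 := by
      have : ((r-1) * r^2 * ν^2 - ((r-1)*r^3 - r^2) * ν - (2*r-1)) * r^10 =
        (r-1) * r^2 * (ν * r^5)^2 - ((r-1)*r^3 - r^2) * (ν * r^5) * r^5 - (2*r-1) * r^10 := by
        ring
      rw [this, hνr, hrdef]; ring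
    have h3 : 0 < ((r-1) * r^2 * ν^2 - ((r-1)*r^3 - r^2) * ν - (2*r-1)) * r^10 := by
      rw [e]; positivity
    exact pos_of_mul_pos_left h3 (by positivity)
  -- continuity
  have hopen : IsOpen {t : ℝ | 2 < t ∧ 0 < (r-1) * t^2 - ((r-1)*r - 2) * t - r ∧
      0 < (r-1) * r^2 * t^2 - ((r-1)*r^3 - r^2) * t - (2*r-1)} := by
    have cA : Continuous fun t : ℝ => (r-1) * t^2 - ((r-1)*r - 2) * t - r := by fun_prop
    have cB : Continuous fun t : ℝ => (r-1) * r^2 * t^2 - ((r-1)*r^3 - r^2) * t - (2*r-1) := by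
      fun_prop
    exact IsOpen.inter (isOpen_lt continuous_const continuous_id)
      (IsOpen.inter (isOpen_lt continuous_const cA) (isOpen_lt continuous_const cB))
  obtain ⟨ε, hε, hball⟩ := Metric.isOpen_iff.1 hopen ν ⟨h2, hA, hB⟩
  have hmem := hball (show ν - ε / 2 ∈ Metric.ball ν ε by
    rw [Metric.mem_ball, Real.dist_eq, show ν - ε / 2 - ν = -(ε / 2) by ring, abs_neg,
      abs_of_pos (by linarith)]
    linarith)
  exact ⟨ν - ε / 2, ν, hmem.1, by linarith, hC, hmem.2.1, hmem.2.2⟩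

/-- the growth bound from the alternative recursions -/
theorem rec_two (A1 B1 A2 B2 μ W : ℝ) (hμ : 2 < μ) (hA1 : 0 ≤ A1) (hB1 : 0 ≤ B1) (hA2 : 0 ≤ A2)
    (hB2 : 0 ≤ B2) (hW : 0 ≤ W) (h1 : A1 * μ + B1 < μ^2) (h2 : A2 * μ + B2 < μ^2) (q : ℕ → ℝ)
    (hq0 : ∀ j, 0 ≤ q j)
    (hrec : ∀ m, q (m+4) ≤ A1 * q (m+3) + B1 * q (m+2) + W * (m+3) ∨
      q (m+4) ≤ A2 * q (m+3) + B2 * q (m+2) + W * (m+3)) :
    ∃ C, 0 ≤ C ∧ ∀ j, q j ≤ C * μ ^ j := by
  set σ := min (μ^2 - (A1 * μ + B1)) (μ^2 - (A2 * μ + B2)) with hσ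
  have hσ0 : 0 < σ := lt_min (by linarith) (by linarith)
  have hσ1 : A1 * μ + B1 + σ ≤ μ^2 := by
    have := min_le_left (μ^2 - (A1 * μ + B1)) (μ^2 - (A2 * μ + B2))
    linarith
  have hσ2 : A2 * μ + B2 + σ ≤ μ^2 := by
    have := min_le_right (μ^2 - (A1 * μ + B1)) (μ^2 - (A2 * μ + B2))
    linarith
  set C := W / σ + (q 0 + q 1 + q 2 + q 3) with hC
  have hC0 : 0 ≤ W / σ := by positivity
  have hpow : ∀ j : ℕ, 1 ≤ μ ^ j := fun j => one_le_pow₀ (by linarith)
  have q0 := hq0 0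
  have q1 := hq0 1
  have q2 := hq0 2
  have q3 := hq0 3
  have hCn : 0 ≤ C := by rw [hC]; positivity
  have hWC : W ≤ C * σ := by
    have : W / σ * σ = W := div_mul_cancel₀ _ hσ0.ne'
    have h3 : 0 ≤ (q 0 + q 1 + q 2 + q 3) * σ := by positivity
    rw [hC, add_mul]; linarith
  have hlin : ∀ m : ℕ, ((m:ℝ) + 3) ≤ μ ^ (m+2) := by
    intro m
    induction m with
    | zero => simp only [Nat.cast_zero, zero_add]; nlinarith
    | succ m ih =>
      rw [pow_succ]
      push_cast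
      have hm : (0:ℝ) ≤ m := by positivity
      nlinarith [hpow (m+2)]
  have hinit : ∀ j, q j ≤ C → q j ≤ C * μ ^ j := fun j hj =>
    hj.trans (by have := mul_le_mul_of_nonneg_left (hpow j) hCn; linarith)
  refine ⟨C, hCn, fun j => ?_⟩
  induction j using Nat.strong_induction_on with
  | _ j ih =>
    rcases j with _ | _ | _ | _ | m
    · exact hinit 0 (by rw [hC]; linarith)
    · exact hinit 1 (by rw [hC]; linarith)
    · exact hinit 2 (by rw [hC]; linarith)
    · exact hinit 3 (by rw [hC]; linarith)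
    · have i3 := ih (m+3) (by omega)
      have i2 := ih (m+2) (by omega)
      have hp : 0 < μ ^ (m+2) := by positivity
      have hw : W * (m+3) ≤ (C * μ ^ (m+2)) * σ := by
        have h3 := mul_le_mul_of_nonneg_left (hlin m) hW
        have h4 := mul_le_mul_of_nonneg_right hWC hp.le
        nlinarith
      have e3 : μ ^ (m+3) = μ ^ (m+2) * μ := pow_succ _ _
      have e4 : μ ^ (m+4) = μ ^ (m+2) * μ^2 := by ring
      have hCp : 0 ≤ C * μ ^ (m+2) := by positivity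
      rcases hrec m with h | h
      · have h5 := mul_le_mul_of_nonneg_left i3 hA1
        have h6 := mul_le_mul_of_nonneg_left i2 hB1
        have h7 := mul_le_mul_of_nonneg_left hσ1 hCp
        rw [e3] at h5
        show q (m+4) ≤ C * μ ^ (m+4)
        rw [e4]
        nlinarith
      · have h5 := mul_le_mul_of_nonneg_left i3 hA2
        have h6 := mul_le_mul_of_nonneg_left i2 hB2
        have h7 := mul_le_mul_of_nonneg_left hσ2 hCp
        rw [e3] at h5
        show q (m+4) ≤ C * μ ^ (m+4)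
        rw [e4]
        nlinarith

end numericsN

end H94Simple
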