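import Pool.Agent.H94.SnX

open scoped commutatorElement IsMulCommutative

namespace H94Simple

section finalN

variable {n : ℕ}

theorem ipos (m : ℕ) : 0 < (TT (GN n) m).index :=
  Nat.pos_of_ne_zero (TT_fin (G := GN n) m).index_ne_zero

noncomputable def qq (n m : ℕ) : ℝ := Real.log ((TT (GN n) m).index)

theorem qq_nonneg (m : ℕ) : 0 ≤ qq n m := Real.log_nonneg (by exact_mod_cast ipos m)

theorem log_rel (j : ℕ) : 0 < (TT (GN n) (j+1)).relIndex (TT (GN n) j) ∧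
    Real.log ((TT (GN n) (j+1)).relIndex (TT (GN n) j)) = qq n (j+1) - qq n j := by
  have h1 := Subgroup.relIndex_mul_index (TT_succ_le (G := GN n) j)
  have h2 : 0 < (TT (GN n) (j+1)).relIndex (TT (GN n) j) := by
    rcases Nat.eq_zero_or_pos ((TT (GN n) (j+1)).relIndex (TT (GN n) j)) with h | h
    · rw [h, zero_mul] at h1
      have := ipos (n := n) (j+1)
      omega
    · exact h
  refine ⟨h2, ?_⟩
  have h3 : (((TT (GN n) (j+1)).relIndex (TT (GN n) j) : ℕ) : ℝ) * ((TT (GN n) j).index : ℝ) =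
      ((TT (GN n) (j+1)).index : ℝ) := by exact_mod_cast h1
  have h4 : (((TT (GN n) (j+1)).relIndex (TT (GN n) j) : ℕ) : ℝ) ≠ 0 := by exact_mod_cast h2.ne'
  have h5 : ((TT (GN n) j).index : ℝ) ≠ 0 := by exact_mod_cast (ipos j).ne'
  have h6 : qq n (j+1) = Real.log ((TT (GN n) (j+1)).relIndex (TT (GN n) j)) + qq n j := by
    rw [qq, qq, ← h3, Real.log_mul h4 h5]
  rw [h6]; ring

theorem gen_log (m : ℕ) : qq n (m+3) - qq n (m+2) ≤
    ((n:ℝ)+1) * (qq n (m+2) - qq n (m+1)) + qq n 2 := by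
  obtain ⟨p3, l3⟩ := log_rel (n := n) (m+2)
  obtain ⟨p2, l2⟩ := log_rel (n := n) (m+1)
  obtain ⟨p1, l1⟩ := log_rel (n := n) 1
  have h := layer_gen (n := n) m
  have h' : (((TT (GN n) (m+3)).relIndex (TT (GN n) (m+2)) : ℕ) : ℝ) ≤
      (((TT (GN n) (m+2)).relIndex (TT (GN n) (m+1)) : ℕ) : ℝ) ^ (n+1) *
      (((TT (GN n) 2).relIndex (TT (GN n) 1) : ℕ) : ℝ) := by exact_mod_cast h
  have p3' : (0:ℝ) < (((TT (GN n) (m+3)).relIndex (TT (GN n) (m+2)) : ℕ) : ℝ) := by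
    exact_mod_cast p3
  have p2' : (0:ℝ) < (((TT (GN n) (m+2)).relIndex (TT (GN n) (m+1)) : ℕ) : ℝ) := by
    exact_mod_cast p2
  have p1' : (0:ℝ) < (((TT (GN n) 2).relIndex (TT (GN n) 1) : ℕ) : ℝ) := by exact_mod_cast p1
  have h2 := Real.log_le_log p3' h'
  rw [Real.log_mul (by positivity) p1'.ne', Real.log_pow] at h2
  have e3 : Real.log (((TT (GN n) (m+3)).relIndex (TT (GN n) (m+2)) : ℕ) : ℝ) =
    qq n (m+3) - qq n (m+2) := l3
  have e2 : Real.log (((TT (GN n) (m+2)).relIndex (TT (GN n) (m+1)) : ℕ) : ℝ) =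
    qq n (m+2) - qq n (m+1) := l2
  have e1 : Real.log (((TT (GN n) 2).relIndex (TT (GN n) 1) : ℕ) : ℝ) =
    qq n 2 - qq n 1 := l1
  rw [e3, e2, e1] at h2
  push_cast at h2
  have := qq_nonneg (n := n) 1
  linarith

theorem low_log (m : ℕ) : qq n (m+2) ≤ ((n:ℝ)+1) * qq n (m+1) + qq n 2 * (m+1) := by
  have q1 := qq_nonneg (n := n) 1
  have q2 := qq_nonneg (n := n) 2
  have hn : (0:ℝ) ≤ n := by positivity
  induction m with
  | zero =>
    simp only [Nat.cast_zero, zero_add, mul_one]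
    have : 0 ≤ ((n:ℝ)+1) * qq n 1 := by positivity
    have e : qq n (0+2) = qq n 2 := rfl
    linarith
  | succ m ih =>
    have h1 := gen_log (n := n) m
    push_cast
    have e3 : qq n (m+1+2) = qq n (m+3) := rfl
    have e2 : qq n (m+1+1) = qq n (m+2) := rfl
    rw [e3, e2]
    nlinarith

theorem type_log (m : ℕ) (hn : 1 ≤ n) : ∃ c : ℕ, 0 < c ∧
    (∀ a b, a < b → b ≤ n + 1 → b - a < n + 1 → c ≤ cN m (conW XN a b : GN n)) ∧
    qq n (m+3) - qq n (m+2) ≤ (qq n (m+2) - qq n (m+1)) + n * Real.log c + qq n 2 := by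
  classical
  let S : Finset (ℕ × ℕ) := ((Finset.range (n+2)) ×ˢ (Finset.range (n+2))).filter
    fun x => x.1 < x.2 ∧ x.2 - x.1 < n + 1
  have hS : ∀ a b, (a, b) ∈ S ↔ (a < n + 2 ∧ b < n + 2) ∧ a < b ∧ b - a < n + 1 := by
    intro a b
    simp only [S, Finset.mem_filter, Finset.mem_product, Finset.mem_range]
  have hne : S.Nonempty := ⟨(0, 1), (hS 0 1).2 (by omega)⟩
  obtain ⟨⟨a, b⟩, hab, hmin⟩ := S.exists_min_image
    (fun x => cN m (conW XN x.1 x.2 : GN n)) hne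
  obtain ⟨⟨h1, h2⟩, h3, h4⟩ := (hS a b).1 hab
  have hcpos : 0 < cN m (conW XN a b : GN n) := by
    unfold cN
    exact Nat.card_pos
  refine ⟨cN m (conW XN a b : GN n), hcpos, ?_, ?_⟩
  · intro a' b' g1 g2 g3
    exact hmin (a', b') ((hS a' b').2 (by omega))
  · obtain ⟨p3, l3⟩ := log_rel (n := n) (m+2)
    obtain ⟨p2, l2⟩ := log_rel (n := n) (m+1)
    obtain ⟨p1, l1⟩ := log_rel (n := n) 1
    have h := layer_type (n := n) a b h3 (by omega) h4 m
    set c := cN m (conW XN a b : GN n) with hc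
    have h' : (((TT (GN n) (m+3)).relIndex (TT (GN n) (m+2)) : ℕ) : ℝ) ≤
        (((TT (GN n) (m+2)).relIndex (TT (GN n) (m+1)) : ℕ) : ℝ) * (c : ℝ) ^ n *
        (((TT (GN n) 2).relIndex (TT (GN n) 1) : ℕ) : ℝ) := by exact_mod_cast h
    have p3' : (0:ℝ) < (((TT (GN n) (m+3)).relIndex (TT (GN n) (m+2)) : ℕ) : ℝ) := by
      exact_mod_cast p3
    have p2' : (0:ℝ) < (((TT (GN n) (m+2)).relIndex (TT (GN n) (m+1)) : ℕ) : ℝ) := by
      exact_mod_cast p2
    have p1' : (0:ℝ) < (((TT (GN n) 2).relIndex (TT (GN n) 1) : ℕ) : ℝ) := by exact_mod_cast p1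
    have pc : (0:ℝ) < (c : ℝ) := by exact_mod_cast hcpos
    have h2 := Real.log_le_log p3' h'
    rw [Real.log_mul (by positivity) p1'.ne', Real.log_mul p2'.ne' (by positivity),
      Real.log_pow] at h2
    have e3 : Real.log (((TT (GN n) (m+3)).relIndex (TT (GN n) (m+2)) : ℕ) : ℝ) =
      qq n (m+3) - qq n (m+2) := l3
    have e2 : Real.log (((TT (GN n) (m+2)).relIndex (TT (GN n) (m+1)) : ℕ) : ℝ) =
      qq n (m+2) - qq n (m+1) := l2
    have e1 : Real.log (((TT (GN n) 2).relIndex (TT (GN n) 1) : ℕ) : ℝ) =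
      qq n 2 - qq n 1 := l1
    rw [e3, e2, e1] at h2
    have := qq_nonneg (n := n) 1
    linarith

theorem SAll_log (m : ℕ) : 0 < Nat.card (SAll (n+1) (m+3)) ∧
    Real.log (Nat.card (SAll (n+1) (m+3))) + qq n (m+4) ≤ Real.log (kapM (n+1)) +
      (((n:ℝ)+1) * qq n (m+3) + qq n 2 + (m+2) * qq n 2) := by
  have h1 := SAll_card (h := n+1) (m+3)
  have h2 := DA_bound (h := n+1) (m+2)
  rw [show m + 2 + 1 = m + 3 from rfl, show m + 2 + 2 = m + 4 from rfl] at h2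
  generalize hM4 : m + 4 = M4 at h2 ⊢
  have hpos : 0 < Nat.card (SAll (n+1) (m+3)) := by
    haveI : Nonempty (SAll (n+1) (m+3)) := ⟨⟨_, 1, simpleN_one, rfl⟩⟩
    exact Nat.card_pos
  refine ⟨hpos, ?_⟩
  have h3 : Nat.card (SAll (n+1) (m+3)) * (TT (GN n) M4).index ≤
      kapM (n+1) * ((TT (GN n) (m+3)).index ^ (n+1) * (TT (GN n) 2).index *
        (TT (GN n) 2).index ^ (m+2)) := by
    calc Nat.card (SAll (n+1) (m+3)) * (TT (GN n) M4).index
        ≤ (kapM (n+1) * Nat.card (DA (n+1) (m+3))) * (TT (GN n) M4).index :=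
          Nat.mul_le_mul_right _ h1
      _ = kapM (n+1) * (Nat.card (DA (n+1) (m+3)) * (TT (GN n) M4).index) := by ring
      _ ≤ _ := Nat.mul_le_mul_left _ h2
  have h4 : ((Nat.card (SAll (n+1) (m+3)) : ℕ) : ℝ) * ((TT (GN n) M4).index : ℝ) ≤
      (kapM (n+1) : ℝ) * (((TT (GN n) (m+3)).index : ℝ) ^ (n+1) * ((TT (GN n) 2).index : ℝ) *
        ((TT (GN n) 2).index : ℝ) ^ (m+2)) := by exact_mod_cast h3
  have a1 : (0:ℝ) < (Nat.card (SAll (n+1) (m+3)) : ℕ) := by exact_mod_cast hpos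
  have a2 : (0:ℝ) < ((TT (GN n) M4).index : ℝ) := by exact_mod_cast ipos _
  have a3 : (0:ℝ) < ((TT (GN n) (m+3)).index : ℝ) := by exact_mod_cast ipos _
  have a4 : (0:ℝ) < ((TT (GN n) 2).index : ℝ) := by exact_mod_cast ipos _
  have a5 : (0:ℝ) < (kapM (n+1) : ℝ) := by exact_mod_cast kapM_pos
  have h5 := Real.log_le_log (by positivity) h4
  rw [Real.log_mul a1.ne' a2.ne', Real.log_mul a5.ne' (by positivity),
    Real.log_mul (by positivity) (by positivity), Real.log_mul (by positivity) a4.ne',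
    Real.log_pow, Real.log_pow] at h5
  push_cast at h5
  exact h5

theorem SSep_log (m : ℕ) : 0 < Nat.card (SSep (n+1) (m+3)) ∧
    Real.log (Nat.card (SSep (n+1) (m+3))) + qq n (m+3) ≤ Real.log (kapM (n+1)) +
      (((n:ℝ)+1) * qq n (m+2) + qq n 2 + (m+1) * qq n 2) := by
  have h1 := SSep_card (h := n+1) (m+2)
  have h2 := DA_bound (h := n+1) (m+1)
  have hpos : 0 < Nat.card (SSep (n+1) (m+3)) := by
    haveI : Nonempty (SSep (n+1) (m+3)) :=
      ⟨⟨_, _, ⟨MulEquiv.refl _, Sum.inl (0, 0), Or.inl rfl⟩, rfl⟩⟩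
    exact Nat.card_pos
  refine ⟨hpos, ?_⟩
  have h3 : Nat.card (SSep (n+1) (m+3)) * (TT (GN n) (m+3)).index ≤
      kapM (n+1) * ((TT (GN n) (m+2)).index ^ (n+1) * (TT (GN n) 2).index *
        (TT (GN n) 2).index ^ (m+1)) := by
    calc Nat.card (SSep (n+1) (m+3)) * (TT (GN n) (m+3)).index
        ≤ (kapM (n+1) * Nat.card (DA (n+1) (m+2))) * (TT (GN n) (m+3)).index :=
          Nat.mul_le_mul_right _ h1
      _ = kapM (n+1) * (Nat.card (DA (n+1) (m+2)) * (TT (GN n) (m+3)).index) := by ring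
      _ ≤ _ := Nat.mul_le_mul_left _ h2
  have h4 : ((Nat.card (SSep (n+1) (m+3)) : ℕ) : ℝ) * ((TT (GN n) (m+3)).index : ℝ) ≤
      (kapM (n+1) : ℝ) * (((TT (GN n) (m+2)).index : ℝ) ^ (n+1) * ((TT (GN n) 2).index : ℝ) *
        ((TT (GN n) 2).index : ℝ) ^ (m+1)) := by exact_mod_cast h3
  have a1 : (0:ℝ) < (Nat.card (SSep (n+1) (m+3)) : ℕ) := by exact_mod_cast hpos
  have a2 : (0:ℝ) < ((TT (GN n) (m+3)).index : ℝ) := by exact_mod_cast ipos _
  have a3 : (0:ℝ) < ((TT (GN n) (m+2)).index : ℝ) := by exact_mod_cast ipos _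
  have a4 : (0:ℝ) < ((TT (GN n) 2).index : ℝ) := by exact_mod_cast ipos _
  have a5 : (0:ℝ) < (kapM (n+1) : ℝ) := by exact_mod_cast kapM_pos
  have h5 := Real.log_le_log (by positivity) h4
  rw [Real.log_mul a1.ne' a2.ne', Real.log_mul a5.ne' (by positivity),
    Real.log_mul (by positivity) (by positivity), Real.log_mul (by positivity) a4.ne',
    Real.log_pow, Real.log_pow] at h5
  push_cast at h5
  exact h5

/-- the two alternatives -/
theorem alternatives (hn : 1 ≤ n) (m c : ℕ) (hc0 : 0 < c)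
    (hc : ∀ a b, a < b → b ≤ n + 1 → b - a < n + 1 → c ≤ cN m (conW XN a b : GN n))
    (hd : dia (simpleN (n+1) 0) (m+3) ≤ ((n + 1 : ℕ) : ℕ∞)) :
    qq n (m+3) ≤ qq n 2 + Real.log (2 * ((n:ℝ)+1)) +
      Real.log (Nat.card (SSep (n+1) (m+3))) + n * Real.log (Nat.card (SAll (n+1) (m+3))) ∨
    qq n (m+3) + Real.log c ≤ qq n 2 + Real.log 2 +
      ((n:ℝ)+1) * Real.log (Nat.card (SAll (n+1) (m+3))) := by
  obtain ⟨pa, -⟩ := SAll_log (n := n) m
  obtain ⟨pp, -⟩ := SSep_log (n := n) m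
  have h1 := cover_main (c := c) hn hd
  have h2 := YA_card (n := n) (M := m+3)
  have h3 := YB_card hc
  set a := Nat.card (SAll (n+1) (m+3)) with ha
  set p := Nat.card (SSep (n+1) (m+3)) with hp
  have b1 : (0:ℝ) < ((TT (GN n) (m+3)).index : ℝ) := by exact_mod_cast ipos _
  have b2 : (0:ℝ) < ((TT (GN n) 2).index : ℝ) := by exact_mod_cast ipos _
  have b3 : (0:ℝ) < (a:ℝ) := by exact_mod_cast pa
  have b4 : (0:ℝ) < (p:ℝ) := by exact_mod_cast pp
  have b5 : (0:ℝ) < (c:ℝ) := by exact_mod_cast hc0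
  have b6 : (0:ℝ) < (n:ℝ) + 1 := by positivity
  rcases le_total (Nat.card (YB n (m+3))) (Nat.card (YA n (m+3))) with h | h
  · left
    have h4 : (TT (GN n) (m+3)).index ≤ (TT (GN n) 2).index * (2 * (n+1) * (p * a ^ n)) := by
      refine h1.trans (Nat.mul_le_mul_left _ ?_)
      calc Nat.card (YA n (m+3)) + Nat.card (YB n (m+3)) ≤ 2 * Nat.card (YA n (m+3)) := by omega
        _ ≤ 2 * ((n + 1) * (p * a ^ n)) := Nat.mul_le_mul_left _ h2
        _ = _ := by ring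
    have h5 : ((TT (GN n) (m+3)).index : ℝ) ≤ ((TT (GN n) 2).index : ℝ) *
        (2 * ((n:ℝ)+1) * ((p:ℝ) * (a:ℝ) ^ n)) := by exact_mod_cast h4
    have h6 := Real.log_le_log b1 h5
    rw [Real.log_mul b2.ne' (by positivity), Real.log_mul (by positivity) (by positivity),
      Real.log_mul b4.ne' (by positivity), Real.log_pow] at h6
    show Real.log ((TT (GN n) (m+3)).index) ≤ Real.log ((TT (GN n) 2).index) + _ + _ + _
    linarith
  · right
    have h4 : (TT (GN n) (m+3)).index * c ≤ (TT (GN n) 2).index * (2 * a ^ (n+1)) := by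
      calc (TT (GN n) (m+3)).index * c ≤ ((TT (GN n) 2).index * (Nat.card (YA n (m+3)) +
          Nat.card (YB n (m+3)))) * c := Nat.mul_le_mul_right _ h1
        _ ≤ ((TT (GN n) 2).index * (2 * Nat.card (YB n (m+3)))) * c :=
          Nat.mul_le_mul_right _ (Nat.mul_le_mul_left _ (by omega))
        _ = (TT (GN n) 2).index * (2 * (Nat.card (YB n (m+3)) * c)) := by ring
        _ ≤ _ := Nat.mul_le_mul_left _ (Nat.mul_le_mul_left _ h3)
    have h5 : ((TT (GN n) (m+3)).index : ℝ) * (c:ℝ) ≤ ((TT (GN n) 2).index : ℝ) *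
        (2 * (a:ℝ) ^ (n+1)) := by exact_mod_cast h4
    have h6 := Real.log_le_log (by positivity) h5
    rw [Real.log_mul b1.ne' b5.ne', Real.log_mul b2.ne' (by positivity),
      Real.log_mul (by norm_num) (by positivity), Real.log_pow] at h6
    push_cast at h6
    show Real.log ((TT (GN n) (m+3)).index) + _ ≤ Real.log ((TT (GN n) 2).index) + _ + _
    linarith

end finalN

end H94Simple
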