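import Pool.Agent.H94.SnY
import Pool.Agent.H94.SnM

open scoped commutatorElement IsMulCommutative

namespace H94Simple

section closedN

/-- elimination in the first case -/
theorem alg_A (nn r q4 q3 q2 Q la lp lK l2r M : ℝ) (hr : r = nn + 1) (hnn : 1 ≤ nn)
    (hQ : 0 ≤ Q) (hlK : 0 ≤ lK) (hl : 0 ≤ l2r) (hM : 0 ≤ M)
    (ha : la + q4 ≤ lK + (r * q3 + Q + (M + 2) * Q))
    (hp : lp + q3 ≤ lK + (r * q2 + Q + (M + 1) * Q))
    (h : q3 ≤ Q + l2r + lp + nn * la) :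
    nn * q4 ≤ (nn * r - 2) * q3 + r * q2 +
      (Q + l2r + lK + Q + nn * lK + nn * Q) * (M + 3) := by
  have h1 := mul_le_mul_of_nonneg_left ha (show 0 ≤ nn by linarith)
  have h2 : 0 ≤ (Q + l2r + lK + nn * lK) * (M + 2) := by positivity
  nlinarith

/-- elimination in the second case -/
theorem alg_B (nn r q4 q3 q2 q1 Q la lc lK l2 M : ℝ) (hr : r = nn + 1) (hnn : 1 ≤ nn)
    (hQ : 0 ≤ Q) (hlK : 0 ≤ lK) (hl : 0 ≤ l2) (hM : 0 ≤ M)
    (ha : la + q4 ≤ lK + (r * q3 + Q + (M + 2) * Q))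
    (hc : q3 - q2 ≤ (q2 - q1) + nn * lc + Q)
    (hlow : q2 ≤ r * q1 + Q * (M + 1))
    (h : q3 + lc ≤ Q + l2 + r * la) :
    nn * r^2 * q4 ≤ (nn * r^3 - r^2) * q3 + (2 * r - 1) * q2 +
      (r * nn * (Q + l2 + r * lK + r * Q) + r * Q + Q) * (M + 3) := by
  have hr0 : 0 ≤ r := by linarith
  have hnn0 : 0 ≤ nn := by linarith
  have h1 : r * la ≤ r * (lK + (r * q3 + Q + (M + 2) * Q) - q4) :=
    mul_le_mul_of_nonneg_left (by linarith) hr0
  have h2 : q3 + lc ≤ Q + l2 + r * (lK + (r * q3 + Q + (M + 2) * Q) - q4) := by linarith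
  have h3 := mul_le_mul_of_nonneg_left h2 (show 0 ≤ r * nn by positivity)
  have h4 := mul_le_mul_of_nonneg_left hc hr0
  have e : r * nn * q3 + r * q3 = r^2 * q3 := by rw [hr]; ring
  have p1 : 0 ≤ r * nn * (Q + l2 + r * lK) * (M + 2) := by positivity
  have p2 : 0 ≤ r * Q * (M + 2) := by positivity
  have p3 : 0 ≤ Q * 2 := by positivity
  nlinarith

theorem div_form (D X3 X2 W1 W q4 q3 q2 T : ℝ) (hD : 1 ≤ D) (hW : W1 ≤ W) (hW0 : 0 ≤ W)
    (hT : 0 ≤ T) (h : D * q4 ≤ X3 * q3 + X2 * q2 + W1 * T) :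
    q4 ≤ X3 / D * q3 + X2 / D * q2 + W * T := by
  have hD0 : 0 < D := by linarith
  have e : D * (X3 / D * q3 + X2 / D * q2 + W * T) = X3 * q3 + X2 * q2 + D * (W * T) := by
    field_simp
  have h3 : W1 * T ≤ D * (W * T) := by
    have h4 : 0 ≤ W * T := by positivity
    have h5 : W1 * T ≤ W * T := mul_le_mul_of_nonneg_right hW hT
    nlinarith
  have h2 : D * q4 ≤ D * (X3 / D * q3 + X2 / D * q2 + W * T) := by rw [e]; linarith
  exact le_of_mul_le_mul_left h2 hD0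

theorem rec_log (n : ℕ) (hn : 2 ≤ n) (m : ℕ)
    (hd : dia (simpleN (n+1) 0) (m+3) ≤ ((n + 1 : ℕ) : ℕ∞)) :
    ((n:ℝ) * qq n (m+4) ≤ ((n:ℝ) * ((n:ℝ)+1) - 2) * qq n (m+3) + ((n:ℝ)+1) * qq n (m+2) +
      (qq n 2 + Real.log (2 * ((n:ℝ)+1)) + Real.log (kapM (n+1)) + qq n 2 +
        (n:ℝ) * Real.log (kapM (n+1)) + (n:ℝ) * qq n 2) * ((m:ℝ) + 3)) ∨
    ((n:ℝ) * ((n:ℝ)+1)^2 * qq n (m+4) ≤ ((n:ℝ) * ((n:ℝ)+1)^3 - ((n:ℝ)+1)^2) * qq n (m+3) +
      (2 * ((n:ℝ)+1) - 1) * qq n (m+2) +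
      (((n:ℝ)+1) * (n:ℝ) * (qq n 2 + Real.log 2 + ((n:ℝ)+1) * Real.log (kapM (n+1)) +
        ((n:ℝ)+1) * qq n 2) + ((n:ℝ)+1) * qq n 2 + qq n 2) * ((m:ℝ) + 3)) := by
  have hnn2 : (2:ℝ) ≤ (n:ℝ) := by exact_mod_cast hn
  have hQ0 : 0 ≤ qq n 2 := qq_nonneg 2
  have hlK0 : 0 ≤ Real.log (kapM (n+1)) := Real.log_nonneg (by exact_mod_cast kapM_pos)
  have hl2r : 0 ≤ Real.log (2 * ((n:ℝ)+1)) := Real.log_nonneg (by linarith)
  have hl2 : 0 ≤ Real.log 2 := Real.log_nonneg (by norm_num)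
  have hM : (0:ℝ) ≤ m := by positivity
  obtain ⟨c, hc0, hcm, hcl⟩ := type_log (n := n) m (by omega)
  obtain ⟨-, la⟩ := SAll_log (n := n) m
  obtain ⟨-, lp⟩ := SSep_log (n := n) m
  have hlow := low_log (n := n) m
  have halt := alternatives (by omega) m c hc0 hcm hd
  generalize Real.log (Nat.card (SAll (n+1) (m+3))) = la' at la halt
  generalize Real.log (Nat.card (SSep (n+1) (m+3))) = lp' at lp halt
  generalize Real.log (kapM (n+1)) = lK at *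
  generalize qq n (m+4) = q4 at *
  generalize qq n (m+3) = q3 at *
  generalize qq n (m+2) = q2 at *
  generalize qq n (m+1) = q1 at *
  generalize qq n 2 = Q at *
  generalize Real.log c = lc at *
  rcases halt with h | h
  · left
    exact alg_A (n:ℝ) ((n:ℝ)+1) q4 q3 q2 Q la' lp' lK _ m rfl (by linarith) hQ0 hlK0 hl2r hM
      la lp h
  · right
    exact alg_B (n:ℝ) ((n:ℝ)+1) q4 q3 q2 q1 Q la' lc lK _ m rfl (by linarith) hQ0 hlK0 hl2 hM
      la hcl hlow h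

theorem lower_existsNC (n : ℕ) (hn : 2 ≤ n) :
    ∃ m, ¬ dia (simpleN (n+1) 0) m ≤ ((n + 1 : ℕ) : ℕ∞) := by
  by_contra hcon
  push Not at hcon
  have hnn2 : (2:ℝ) ≤ (n:ℝ) := by exact_mod_cast hn
  obtain ⟨μ, ν, hμ2, hμν, hν, hA, hB⟩ := num_exists ((n:ℝ)+1) (by linarith)
  have hrec := fun m => rec_log n hn m (hcon (m+3))
  have hQ0 : 0 ≤ qq n 2 := qq_nonneg 2
  have hlK0 : 0 ≤ Real.log (kapM (n+1)) := Real.log_nonneg (by exact_mod_cast kapM_pos)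
  have hl2r : 0 ≤ Real.log (2 * ((n:ℝ)+1)) := Real.log_nonneg (by linarith)
  have hl2 : 0 ≤ Real.log 2 := Real.log_nonneg (by norm_num)
  rw [add_sub_cancel_right] at hA hB
  have hW10 : 0 ≤ qq n 2 + Real.log (2 * ((n:ℝ)+1)) + Real.log (kapM (n+1)) + qq n 2 +
        (n:ℝ) * Real.log (kapM (n+1)) + (n:ℝ) * qq n 2 := by positivity
  have hW20 : 0 ≤ ((n:ℝ)+1) * (n:ℝ) * (qq n 2 + Real.log 2 + ((n:ℝ)+1) *
      Real.log (kapM (n+1)) + ((n:ℝ)+1) * qq n 2) + ((n:ℝ)+1) * qq n 2 + qq n 2 := by positivity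
  generalize qq n 2 + Real.log (2 * ((n:ℝ)+1)) + Real.log (kapM (n+1)) + qq n 2 +
        (n:ℝ) * Real.log (kapM (n+1)) + (n:ℝ) * qq n 2 = W1 at hrec hW10
  generalize ((n:ℝ)+1) * (n:ℝ) * (qq n 2 + Real.log 2 + ((n:ℝ)+1) *
      Real.log (kapM (n+1)) + ((n:ℝ)+1) * qq n 2) + ((n:ℝ)+1) * qq n 2 + qq n 2 = W2
      at hrec hW20
  have hν' : ν + 1 / ν ≤ ((n + 1 : ℕ) : ℝ) := by push_cast; exact hν
  generalize hrr : (n:ℝ) + 1 = r at *
  generalize hnn : (n:ℝ) = nn at *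
  have hnn0 : 0 < nn := by linarith
  have hr0 : 0 < r := by linarith
  have hA1 : 0 ≤ (nn * r - 2) / nn := by
    apply div_nonneg _ hnn0.le
    nlinarith
  have hB1 : 0 ≤ r / nn := by positivity
  have hA2 : 0 ≤ (nn * r^3 - r^2) / (nn * r^2) := by
    apply div_nonneg _ (by positivity)
    have : 0 ≤ r^2 * (nn * r - 1) := mul_nonneg (by positivity) (by nlinarith)
    nlinarith
  have hB2 : 0 ≤ (2 * r - 1) / (nn * r^2) := div_nonneg (by linarith) (by positivity)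
  have hc1 : (nn * r - 2) / nn * μ + r / nn < μ^2 := by
    rw [div_mul_eq_mul_div, ← add_div, div_lt_iff₀ hnn0]
    linarith
  have hc2 : (nn * r^3 - r^2) / (nn * r^2) * μ + (2 * r - 1) / (nn * r^2) < μ^2 := by
    rw [div_mul_eq_mul_div, ← add_div, div_lt_iff₀ (by positivity)]
    linarith
  have h6 : 1 ≤ nn * r^2 := by
    have : 1 ≤ r^2 := by nlinarith
    nlinarith
  obtain ⟨C, hC0, hC⟩ := rec_two ((nn * r - 2) / nn) (r / nn) ((nn * r^3 - r^2) / (nn * r^2))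
    ((2 * r - 1) / (nn * r^2)) μ (W1 + W2) hμ2 hA1 hB1 hA2 hB2 (by positivity) hc1 hc2
    (qq n) (fun j => qq_nonneg j) (by
      intro m
      have hM3 : (0:ℝ) ≤ (m:ℝ) + 3 := by positivity
      rcases hrec m with h | h
      · left
        exact div_form _ _ _ W1 _ _ _ _ _ (by linarith) (by linarith) (by positivity) hM3 h
      · right
        exact div_form _ _ _ W2 _ _ _ _ _ h6 (by linarith) (by positivity) hM3 h)
  exact growth_false (h := n+1) C μ ν hC0 (by linarith) hμν hν' hC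

/-- **The limit for closed non-orientable surfaces of genus at least three.** -/
theorem limitNC (n : ℕ) :
    ∃ n0, ∀ m, n0 ≤ m → dia (simpleN (n+3) 0) m = ((n + 4 : ℕ) : ℕ∞) := by
  obtain ⟨m, hm⟩ := lower_existsNC (n+2) (by omega)
  refine ⟨m + 1, fun k hk => ?_⟩
  have h1 := upperN_closed n k (by omega)
  have h2 : ¬ dia (simpleN (n+3) 0) k ≤ ((n + 3 : ℕ) : ℕ∞) := fun h =>
    hm (dia_monoS (fun _ => simpleN_inv) simpleN_one (by omega) h)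
  obtain ⟨d, hd⟩ := ENat.ne_top_iff_exists.1 (ne_top_of_le_ne_top (ENat.natCast_ne_top _) h1)
  rw [← hd] at h1 h2 ⊢
  have h3 : d ≤ n + 4 := by exact_mod_cast h1
  have h4 : ¬ d ≤ n + 3 := by exact_mod_cast h2
  have h5 : d = n + 4 := by omega
  rw [h5]

end closedN

end H94Simple
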